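import Pool.Agent.Lib.NV6.CBlue

/-! Project NV6, block C, row AMG: the inequality of the weighted means. -/

open Set MeasureTheory Filter

noncomputable section

namespace Pool.Agent.Lib.NV6.CAMG

theorem tang (m u : ℝ) : Real.exp m * (1 + u - m) ≤ Real.exp u := by
  have h1 : u - m + 1 ≤ Real.exp (u - m) := Real.add_one_le_exp _
  have h2 : Real.exp u = Real.exp m * Real.exp (u - m) := by
    rw [← Real.exp_add]
    ring_nf
  rw [h2]
  exact mul_le_mul_of_nonneg_left (by linarith) (Real.exp_pos m).le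

theorem cvx {T : Type} (s : Finset T) (w u : T → ℝ) (hw : ∀ a ∈ s, 0 ≤ w a) (h1 : ∑ a ∈ s, w a ≤ 1) :
    Real.exp (∑ a ∈ s, w a * u a) ≤ ∑ a ∈ s, w a * Real.exp (u a) + (1 - ∑ a ∈ s, w a) := by
  obtain ⟨m, hm⟩ : ∃ m, m = ∑ a ∈ s, w a * u a := ⟨_, rfl⟩
  rw [← hm]
  have h2 : ∑ a ∈ s, w a * (Real.exp m * (1 + u a - m)) ≤ ∑ a ∈ s, w a * Real.exp (u a) :=
    Finset.sum_le_sum fun a ha => mul_le_mul_of_nonneg_left (tang m (u a)) (hw a ha)
  have h3 : ∑ a ∈ s, w a * (Real.exp m * (1 + u a - m)) =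
      Real.exp m * ((∑ a ∈ s, w a) * (1 - m) + m) := by
    have e : ∀ a ∈ s, w a * (Real.exp m * (1 + u a - m)) =
        Real.exp m * (w a * (1 - m) + w a * u a) := fun a _ => by ring
    rw [Finset.sum_congr rfl e, ← Finset.mul_sum, Finset.sum_add_distrib, ← Finset.sum_mul, ← hm]
  have h4 := tang m 0
  rw [Real.exp_zero] at h4
  have h5 := mul_le_mul_of_nonneg_left h4 (sub_nonneg.2 h1)
  rw [h3] at h2
  nlinarith

end Pool.Agent.Lib.NV6.CAMG

namespace Pool.Agent.Lib.NV6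

theorem cAMG : St_AMG := by
  intro Ω T _ ν _ s g τ t C ht hτ hs hg
  have hw : ∀ a ∈ s, 0 ≤ τ a / t := fun a ha => div_nonneg (hτ a ha) ht.le
  have h1 : ∑ a ∈ s, τ a / t ≤ 1 := by
    rw [← Finset.sum_div]
    exact (div_le_one ht).2 hs
  have hpos : ∀ᵐ p ∂ν, ∀ a ∈ s, 0 < g a p :=
    (Filter.eventually_all_finset s).2 fun a ha => (hg a ha).2.1
  have hle : ∀ᵐ p ∂ν, Real.exp (-∑ a ∈ s, τ a * Real.log (g a p)) ≤
      ∑ a ∈ s, τ a / t * g a p ^ (-t) + (1 - ∑ a ∈ s, τ a / t) := by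
    filter_upwards [hpos] with p hp
    have h2 := CAMG.cvx s (fun a => τ a / t) (fun a => Real.log (g a p) * (-t)) hw h1
    have e1 : ∑ a ∈ s, τ a / t * (Real.log (g a p) * (-t)) = -∑ a ∈ s, τ a * Real.log (g a p) := by
      rw [← Finset.sum_neg_distrib]
      refine Finset.sum_congr rfl fun a _ => ?_
      field_simp
    have e2 : ∑ a ∈ s, τ a / t * Real.exp (Real.log (g a p) * (-t)) =
        ∑ a ∈ s, τ a / t * g a p ^ (-t) :=
      Finset.sum_congr rfl fun a ha => by rw [Real.rpow_def_of_pos (hp a ha)]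
    rw [e1, e2] at h2
    exact h2
  have hi1 : ∀ a ∈ s, Integrable (fun p => τ a / t * g a p ^ (-t)) ν :=
    fun a ha => (hg a ha).2.2.1.const_mul _
  have hi2 : Integrable (fun p => ∑ a ∈ s, τ a / t * g a p ^ (-t)) ν := integrable_finsetSum s hi1
  have hi3 : Integrable (fun p => ∑ a ∈ s, τ a / t * g a p ^ (-t) + (1 - ∑ a ∈ s, τ a / t)) ν :=
    hi2.add (integrable_const _)
  have hm : Measurable fun p => Real.exp (-∑ a ∈ s, τ a * Real.log (g a p)) :=
    Real.measurable_exp.comp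
      (Finset.measurable_fun_sum s fun a ha => (hg a ha).1.log.const_mul _).neg
  have hi4 : Integrable (fun p => Real.exp (-∑ a ∈ s, τ a * Real.log (g a p))) ν := by
    refine hi3.mono' hm.aestronglyMeasurable ?_
    filter_upwards [hle] with p hp
    rwa [Real.norm_of_nonneg (Real.exp_pos _).le]
  refine ⟨hi4, (integral_mono_ae hi4 hi3 hle).trans ?_⟩
  rw [integral_add hi2 (integrable_const _), integral_finsetSum s hi1]
  have h6 : ∑ a ∈ s, ∫ p, τ a / t * g a p ^ (-t) ∂ν ≤ ∑ a ∈ s, τ a / t * max C 1 :=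
    Finset.sum_le_sum fun a ha => by
      rw [integral_const_mul]
      exact mul_le_mul_of_nonneg_left ((hg a ha).2.2.2.trans (le_max_left _ _)) (hw a ha)
  rw [← Finset.sum_mul] at h6
  have h7 := mul_le_mul_of_nonneg_left (le_max_right C 1) (sub_nonneg.2 h1)
  simp only [integral_const, probReal_univ, smul_eq_mul, one_mul]
  nlinarith

end Pool.Agent.Lib.NV6
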