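import Pool.Agent.Lib.NV6.CBlue

/-! Row CLS: two test sections with almost the same norm. -/

open scoped Classical Topology ENNReal
open Set MeasureTheory Filter

set_option linter.unusedVariables false

noncomputable section

namespace Pool.Agent.Lib.NV6

namespace CCLS

variable {Ω : Type} [MeasurableSpace Ω] {ν : Measure Ω}

/-- A measurable function with a bound on the second moment. -/
def Q (ν : Measure Ω) (g : Ω → ℝ) (c : ℝ) : Prop := Measurable g ∧ Mo ν (fun p => g p ^ 2) c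

theorem mo_of_le {g h : Ω → ℝ} {c : ℝ} (hg : Measurable g) (h0 : ∀ p, 0 ≤ g p)
    (hle : ∀ p, g p ≤ h p) (hh : Mo ν h c) : Mo ν g c := by
  have hi : Integrable g ν := hh.1.mono' hg.aestronglyMeasurable
    (ae_of_all _ fun p => by rw [Real.norm_of_nonneg (h0 p)]; exact hle p)
  exact ⟨hi, (integral_mono hi hh.1 hle).trans hh.2⟩

theorem mo_congr {g h : Ω → ℝ} {c d : ℝ} (hg : Mo ν g c) (hcd : c ≤ d)
    (e : ∀ᵐ p ∂ν, g p = h p) : Mo ν h d :=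
  ⟨hg.1.congr e, by rw [← integral_congr_ae e]; exact hg.2.trans hcd⟩

theorem Q.mono {g : Ω → ℝ} {c d : ℝ} (h : Q ν g c) (hcd : c ≤ d) : Q ν g d :=
  ⟨h.1, h.2.1, h.2.2.trans hcd⟩

theorem two {g h : Ω → ℝ} {c d : ℝ} (hg : Q ν g c) (hh : Q ν h d) :
    Mo ν (fun p => 2 * g p ^ 2 + 2 * h p ^ 2) (2 * c + 2 * d) := by
  refine ⟨(hg.2.1.const_mul 2).add (hh.2.1.const_mul 2), ?_⟩
  rw [integral_add (hg.2.1.const_mul 2) (hh.2.1.const_mul 2), integral_const_mul,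
    integral_const_mul]
  linarith [hg.2.2, hh.2.2]

theorem Q.add {g h : Ω → ℝ} {c d : ℝ} (hg : Q ν g c) (hh : Q ν h d) :
    Q ν (fun p => g p + h p) (2 * c + 2 * d) :=
  ⟨hg.1.add hh.1, mo_of_le ((hg.1.add hh.1).pow_const 2) (fun p => sq_nonneg _)
    (fun p => by nlinarith [sq_nonneg (g p - h p)]) (two hg hh)⟩

theorem Q.sub {g h : Ω → ℝ} {c d : ℝ} (hg : Q ν g c) (hh : Q ν h d) :
    Q ν (fun p => g p - h p) (2 * c + 2 * d) :=
  ⟨hg.1.sub hh.1, mo_of_le ((hg.1.sub hh.1).pow_const 2) (fun p => sq_nonneg _)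
    (fun p => by nlinarith [sq_nonneg (g p + h p)]) (two hg hh)⟩

theorem wsum (s : Finset ℕ) (τ : ℕ → ℝ) (u : ℕ → Ω → ℝ) {c T : ℝ} (hc : 0 ≤ c)
    (hτ : ∀ a ∈ s, 0 ≤ τ a) (hT : ∑ a ∈ s, τ a ≤ T) (hu : ∀ a ∈ s, Q ν (u a) c) :
    Q ν (fun p => ∑ a ∈ s, τ a * u a p) (T ^ 2 * c) := by
  have hm : Measurable fun p => ∑ a ∈ s, τ a * u a p :=
    Finset.measurable_sum _ fun a ha => (hu a ha).1.const_mul _
  have h0 : 0 ≤ ∑ a ∈ s, τ a := Finset.sum_nonneg hτ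
  have hi : ∀ a ∈ s, Integrable (fun p => τ a * u a p ^ 2) ν :=
    fun a ha => (hu a ha).2.1.const_mul _
  refine ⟨hm, mo_of_le (h := fun p => (∑ a ∈ s, τ a) * ∑ a ∈ s, τ a * u a p ^ 2)
    (hm.pow_const 2) (fun p => sq_nonneg _) (fun p => ?_)
    ⟨(integrable_finsetSum _ hi).const_mul _, ?_⟩⟩
  · exact Finset.sum_sq_le_sum_mul_sum_of_sq_le_mul s hτ
      (fun a ha => mul_nonneg (hτ a ha) (sq_nonneg _)) fun a _ => le_of_eq (by ring)
  · rw [integral_const_mul, integral_finsetSum _ hi]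
    have h1 : ∑ a ∈ s, ∫ p, τ a * u a p ^ 2 ∂ν ≤ (∑ a ∈ s, τ a) * c := by
      rw [Finset.sum_mul]
      refine Finset.sum_le_sum fun a ha => ?_
      rw [integral_const_mul]
      exact mul_le_mul_of_nonneg_left (hu a ha).2.2 (hτ a ha)
    calc _ ≤ (∑ a ∈ s, τ a) * ((∑ a ∈ s, τ a) * c) := mul_le_mul_of_nonneg_left h1 h0
      _ = (∑ a ∈ s, τ a) ^ 2 * c := by ring
      _ ≤ T ^ 2 * c := mul_le_mul_of_nonneg_right (pow_le_pow_left₀ h0 hT 2) hc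

theorem geo (M k : ℕ) : ∑ a ∈ Finset.range k, ((2 : ℝ) ^ (M + a + 1))⁻¹ ≤ ((2 : ℝ) ^ M)⁻¹ := by
  have h : ∑ a ∈ Finset.range k, ((2 : ℝ) ^ (M + a + 1))⁻¹ =
      ((2 : ℝ) ^ M)⁻¹ - ((2 : ℝ) ^ (M + k))⁻¹ := by
    induction k with
    | zero => simp
    | succ k ih =>
      rw [Finset.sum_range_succ, ih, ← add_assoc, pow_succ]
      field_simp
      ring
  rw [h]
  exact sub_le_self _ (by positivity)

end CCLS

open CCLS in
theorem cCLS (hT : St_TLS) (hL : St_LGC) : St_CLS := by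
  intro Ω _ ν _ t C f P P' T hP hP' m i₀ δ hδ
  obtain ⟨B₀, hB⟩ := hL t C T.t0
  set B := max B₀ 0
  have B0 : 0 ≤ B := le_max_right _ _
  set δ₁ : ℝ := δ / 2 / (8 * (m : ℝ) ^ 2 + 32) with hδ₁
  have d1 : 0 < δ₁ := by positivity
  have d2 : (8 * (m : ℝ) ^ 2 + 32) * δ₁ = δ / 2 := by rw [hδ₁]; field_simp
  obtain ⟨δ', d3, hg⟩ := hB δ₁ d1
  obtain ⟨M, hM, hmM⟩ : ∃ M : ℕ, ((2 : ℝ) ^ M)⁻¹ ≤ δ / 2 / (24 * B + 1) ∧ m ≤ M := by
    have h1 : Tendsto (fun M : ℕ => ((2 : ℝ) ^ M)⁻¹) atTop (𝓝 0) :=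
      tendsto_inv_atTop_zero.comp (tendsto_pow_atTop_atTop_of_one_lt one_lt_two)
    exact ((h1.eventually (eventually_le_nhds (by positivity))).and (eventually_ge_atTop m)).exists
  obtain ⟨r, c, hc⟩ := hP δ' d3
  obtain ⟨r', c', hc'⟩ := hP' δ' d3
  obtain ⟨i, hi, i', -, hii, he⟩ := (Set.Ici_infinite i₀).exists_lt_map_eq_of_mapsTo
    (Set.mapsTo_univ (fun i => fun a : Fin M => (c (i + a), c' (i + a))) _) Set.finite_univ
  refine ⟨i, i', hi, hii, (eventually_ge_atTop (i' + M)).mono fun j hj => ?_⟩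
  obtain ⟨k, hk⟩ : ∃ k, j = i + (M + k) := ⟨j - i - M, by omega⟩
  obtain ⟨k', hk'⟩ : ∃ k, j = i' + (M + k) := ⟨j - i' - M, by omega⟩
  have lp : ∀ a, Measurable fun p => Real.log (P a p) := fun a => (T.ms a).2.1.log
  have lp' : ∀ a, Measurable fun p => Real.log (P' a p) := fun a => (T.ms a).2.2.log
  have g1 := fun a b => hg Ω ν (P a) (P b) (T.ms a).2.1 (T.ms b).2.1
    (((T.pos a).and (T.pos b)).mono fun p h => ⟨h.1.2.1, h.1.2.2.1, h.2.2.1, h.2.2.2.1⟩)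
    (T.int a).1 (T.int b).1
  have g2 := fun a b => hg Ω ν (P' a) (P' b) (T.ms a).2.2 (T.ms b).2.2
    (((T.pos a).and (T.pos b)).mono fun p h => ⟨h.1.2.2.2.1, h.1.2.2.2.2, h.2.2.2.2.1, h.2.2.2.2.2⟩)
    (T.int a).2 (T.int b).2
  have qE : ∀ a < M, Q ν (fun p => Real.log (P (i + a) p) - Real.log (P (i' + a) p)) δ₁ :=
    fun a ha => ⟨(lp _).sub (lp _), (g1 _ _).2 (hc _ _ (congrArg Prod.fst (congrFun he ⟨a, ha⟩)))⟩
  have qD : ∀ a < M, Q ν (fun p => Real.log (P' (i + a) p) - Real.log (P' (i' + a) p)) δ₁ :=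
    fun a ha => ⟨(lp' _).sub (lp' _), (g2 _ _).2 (hc' _ _ (congrArg Prod.snd (congrFun he ⟨a, ha⟩)))⟩
  have qT : ∀ a, Q ν (fun p => Real.log (P a p) - Real.log (P' a p)) (2 * B + 2 * B) := fun a =>
    Q.sub (Q.mono ⟨lp a, (g1 a a).1⟩ (le_max_left _ _)) (Q.mono ⟨lp' a, (g2 a a).1⟩ (le_max_left _ _))
  have p1 := wsum (Finset.range m) (fun _ => 1) _ d1.le (fun _ _ => zero_le_one) (T := m)
    (by simp) fun a ha => qD a ((Finset.mem_range.1 ha).trans_le hmM)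
  have p2 := wsum (Finset.range M) (fun a => ((2 : ℝ) ^ (a + 1))⁻¹) _ (by positivity)
    (fun _ _ => by positivity) (T := 1) (by simpa using geo 0 M)
    fun a ha => (qE a (Finset.mem_range.1 ha)).sub (qD a (Finset.mem_range.1 ha))
  have p3 := fun i k => wsum (Finset.range k) (fun a => ((2 : ℝ) ^ (M + a + 1))⁻¹) _
    (by positivity) (fun _ _ => by positivity) (geo M k) fun a _ => qT (i + (M + a))
  have q := (((p1.add p2).add (p3 i k)).sub (p3 i' k')).2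
  have hb : 2 * (2 * (2 * ((m : ℝ) ^ 2 * δ₁) + 2 * (1 ^ 2 * (2 * δ₁ + 2 * δ₁))) +
      2 * (((2 : ℝ) ^ M)⁻¹ ^ 2 * (2 * B + 2 * B))) + 2 * (((2 : ℝ) ^ M)⁻¹ ^ 2 * (2 * B + 2 * B)) ≤
      δ := by
    have h1 : ((2 : ℝ) ^ M)⁻¹ ≤ 1 := inv_le_one_of_one_le₀ (one_le_pow₀ one_le_two)
    have h2 : (0 : ℝ) ≤ ((2 : ℝ) ^ M)⁻¹ := by positivity
    rw [le_div_iff₀ (by positivity)] at hM
    generalize ((2 : ℝ) ^ M)⁻¹ = s at *
    have h3 : s ^ 2 * B ≤ s * B := mul_le_mul_of_nonneg_right (by nlinarith) B0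
    nlinarith
  refine mo_congr q hb ((hT Ω ν t C f P P' T).mono fun p hp => ?_)
  have h1 := (hp m i (M + k)).2.2
  have h2 := (hp m i' (M + k')).2.2
  rw [← hk] at h1
  rw [← hk'] at h2
  beta_reduce
  rw [h1, h2, Finset.sum_range_add, Finset.sum_range_add]
  refine congrArg (· ^ 2) ?_
  simp only [one_mul, mul_sub, Finset.sum_sub_distrib]
  ring

end Pool.Agent.Lib.NV6
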