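import Pool.Agent.Lib.NV6.CBlue
import Pool.Agent.Lib.S3K.Noe

/-! Project NV6, block C, row HOM: homogeneous components and cones. -/

open scoped Classical
open Set MvPolynomial

noncomputable section

namespace Pool.Agent.Lib.NV6

theorem CHOM.ev {σ τ : Type} (h : σ → ℂ) (g : τ → MvPolynomial σ ℂ) (a : MvPolynomial τ ℂ) :
    eval h (aeval g a) = eval (fun k => eval h (g k)) a := by
  induction a using MvPolynomial.induction_on with
  | C c => simp
  | add p q hp hq => simp only [map_add, hp, hq]
  | mul_X p k hp => simp only [map_mul, hp, aeval_X, eval_X]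

theorem cHOM : St_HOM where
  comp d hW hP := S3K.hom_comp_zero hW hP d
  smul c h hP := S3K.eval_smul_hom hP c h
  closed {σ W} hW := by
    have : W = ⋂ P : {P // Van W P}, {h | eval h P.1 = 0} := by
      ext h
      simp only [mem_iInter, mem_setOf_eq, Subtype.forall]
      exact ⟨fun a P b => b h a, hW.alg h⟩
    rw [this]
    exact isClosed_iInter fun P => isClosed_eq (continuous_eval _) continuous_const
  cut hW hP := ⟨fun h a => ⟨hW.alg h fun Q b => a Q fun x c => b x c.1, a _ fun x c => c.2⟩,
    fun c h a => ⟨hW.smul c h a.1, by rw [S3K.eval_smul_hom hP, a.2, mul_zero]⟩⟩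
  irr {σ W} hW H P P' hP := by
    rcases W.eq_empty_or_nonempty with rfl | ⟨x, hx⟩
    · exact Or.inl fun _ h => h.elim
    let _ := gradedAlgebra (σ := σ) (R := ℂ)
    let I : Ideal (MvPolynomial σ ℂ) := ⨅ h ∈ W, RingHom.ker (eval h)
    have m : ∀ Q, Q ∈ I ↔ Van W Q := fun Q => by simp only [I, Submodule.mem_iInf]; rfl
    have hI : I.IsHomogeneous (homogeneousSubmodule σ ℂ) := fun d Q hQ =>
      (m _).2 ((decomposition.decompose'_apply Q d).symm ▸
        S3K.hom_comp_zero (fun c _ => hW.smul c) ((m Q).1 hQ) d)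
    have := hI.isPrime_of_homogeneous_mem_or_mem
      (fun h => one_ne_zero ((map_one (eval x)).symm.trans ((m 1).1 (h ▸ trivial) x hx)))
      fun {a b} ⟨d, ha⟩ ⟨d', hb⟩ h => by
        simpa only [m] using H d d' a b ha hb ((m _).1 h)
    simpa only [m] using this.mem_or_mem ((m _).2 hP)
  clo g := by
    refine ⟨⟨fun h a P b => a P fun x c => c P b, fun c h a P b => ?_⟩,
      fun x P a => by simpa using a 1 x,
      fun d P hP a h b => b P fun c x => by rw [S3K.eval_smul_hom hP, a, mul_zero]⟩
    have e : ∀ h, eval h (aeval (fun i => C c * X i) P) = eval (c • h) P := fun h => by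
      rw [CHOM.ev]
      simp only [map_mul, eval_C, eval_X]
      rfl
    rw [← e]
    exact a _ fun c' x => by rw [e, smul_smul, b]
  lin y d a ha := by
    refine ⟨aeval (fun k => ∑ s, C (y (Pi.single s 1) k) * X s) a, ?_, fun h => ?_⟩
    · simpa only [one_mul] using ha.aeval _ fun k =>
        IsHomogeneous.sum _ _ 1 fun s _ => isHomogeneous_C_mul_X _ s
    · rw [CHOM.ev]
      refine congrArg (eval · a) (funext fun k => ?_)
      conv_rhs => rw [pi_eq_sum_univ' h]
      simp only [map_sum, map_mul, eval_C, eval_X, map_smul, Finset.sum_apply, Pi.smul_apply,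
        smul_eq_mul, mul_comm]

end Pool.Agent.Lib.NV6
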