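import Pool.Agent.Lib.NV6.CBlue

/-! Project NV6, block C: the algebra of sections. -/

open scoped Classical Topology ENNReal
open Set MeasureTheory Complex Metric Filter MvPolynomial

set_option linter.unusedVariables false
set_option linter.unusedSectionVars false

noncomputable section

namespace Pool.Agent.Lib.NV6

namespace CSEC

variable {ι κ : Type} [Fintype ι] [Fintype κ] {Z : Set (ι × κ → ℂ)} {q e q' e' : ℕ}
  {S S' : Fn ι κ}

theorem up {i : ι} {j : κ} {k : ℕ} {A : MvPolynomial (ι × κ) ℂ} (k' : ℕ) (h : Ch Z i j q e k S A) :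
    Ch Z i j q e (k + k') S (A * X (i, j) ^ k') := by
  refine ⟨?_, fun x hx => ?_⟩
  · rw [← add_assoc]
    exact h.1.mul (isHomogeneous_X_pow _ _)
  · rw [map_mul, map_pow, eval_X, ← h.2 x hx, sg]
    ring

theorem add (h : Sec Z q e S) (h' : Sec Z q e S') : Sec Z q e fun x => S x + S' x := fun i j => by
  obtain ⟨k, A, a⟩ := h i j
  obtain ⟨k', A', a'⟩ := h' i j
  have b := up k' a
  have b' := up k a'
  rw [add_comm k'] at b'
  exact ⟨k + k', _, b.1.add b'.1, fun x hx => by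
    rw [map_add, ← b.2 x hx, ← b'.2 x hx]
    ring⟩

theorem smul (c : ℂ) (h : Sec Z q e S) : Sec Z q e fun x => c * S x := fun i j => by
  obtain ⟨k, A, a⟩ := h i j
  exact ⟨k, C c * A, a.1.C_mul c, fun x hx => by
    rw [map_mul, eval_C, ← a.2 x hx]
    ring⟩

theorem sum {T : Type} {S : T → Fn ι κ} (s : Finset T) (h : ∀ τ, Sec Z q e (S τ)) :
    Sec Z q e fun x => ∑ τ ∈ s, S τ x := by
  induction s using Finset.induction_on with
  | empty => exact fun i j => ⟨0, 0, isHomogeneous_zero _ _ _, fun x hx => by simp⟩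
  | insert a s ha ih =>
    simp only [Finset.sum_insert ha]
    exact add (h a) ih

theorem mul (h : Sec Z q e S) (h' : Sec Z q' e' S') :
    Sec Z (q + q') (e + e') fun x => S x * S' x := fun i j => by
  obtain ⟨k, A, a⟩ := h i j
  obtain ⟨k', A', a'⟩ := h' i j
  refine ⟨k + k', A * A', ?_, fun x hx => ?_⟩
  · rw [show e + e' + (q + q') + (k + k') = e + q + k + (e' + q' + k') by ring]
    exact a.1.mul a'.1
  · rw [map_mul, ← a.2 x hx, ← a'.2 x hx]
    ring

theorem form {A : MvPolynomial (ι × κ) ℂ} (h : A.IsHomogeneous e) :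
    Sec Z 0 e fun x => eval (sg x) A := fun i j => ⟨0, A, h, fun x hx => by simp⟩

theorem pow (m : ℕ) (h : Sec Z q e S) : Sec Z (m * q) (m * e) fun x => S x ^ m := by
  induction m with
  | zero => simpa using form (Z := Z) (isHomogeneous_one (ι × κ) ℂ)
  | succ m ih =>
    simp only [add_mul, one_mul, pow_succ]
    exact mul ih h

theorem hom (hH : St_HOM) (hZ : Cone Z) (h : Sec Z q e S) (x : (ι → ℂ) × (κ → ℂ)) (hx : x ∈ Bc Z)
    (c c' : ℂ) (hc : c ≠ 0) (hc' : c' ≠ 0) : (c • x.1, c' • x.2) ∈ Bc Z ∧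
      S (c • x.1, c' • x.2) * c' ^ q = c ^ (e + q) * c' ^ e * S x := by
  have e1 : sg (c • x.1, c' • x.2) = (c * c') • sg x := funext fun p => by
    simp only [sg, Pi.smul_apply, smul_eq_mul]
    ring
  have m : (c • x.1, c' • x.2) ∈ Bc Z :=
    ⟨e1 ▸ hZ.smul _ _ hx.1, smul_ne_zero hc hx.2.1, smul_ne_zero hc' hx.2.2⟩
  obtain ⟨i, hi⟩ := Function.ne_iff.1 hx.2.1
  obtain ⟨j, hj⟩ := Function.ne_iff.1 hx.2.2
  obtain ⟨k, A, a⟩ := h i j
  have b := a.2 _ m
  rw [e1, hH.smul _ _ a.1, ← a.2 x hx] at b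
  have n : c' ^ q * x.2 j ^ (2 * q) * (c * c' * (x.1 i * x.2 j)) ^ k ≠ 0 :=
    mul_ne_zero (mul_ne_zero (pow_ne_zero _ hc') (pow_ne_zero _ hj))
      (pow_ne_zero _ (mul_ne_zero (mul_ne_zero hc hc') (mul_ne_zero hi hj)))
  refine ⟨m, mul_right_cancel₀ n ?_⟩
  simp only [Pi.smul_apply, smul_eq_mul] at b
  linear_combination b

end CSEC

theorem cSEC (hH : St_HOM) : St_SEC :=
  ⟨CSEC.up, CSEC.add, CSEC.smul, CSEC.sum _, CSEC.mul, CSEC.pow, CSEC.form, CSEC.hom hH⟩

end Pool.Agent.Lib.NV6
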