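import Pool.Agent.Lib.NV6.CBlue

/-! Project NV6, block C, row SPH: the unit vectors of the cone. -/

open scoped Classical Topology
open Set Complex Metric Filter MvPolynomial

noncomputable section

namespace Pool.Agent.Lib.NV6

open Pool.Agent.Lib.SV (nsq)

namespace CSPH

variable {ι κ : Type} [Fintype ι] [Fintype κ] {Z : Set (ι × κ → ℂ)}

theorem le1 {v : ι → ℂ} (h : nsq v = 1) (i : ι) : ‖v i‖ ≤ 1 := by
  have h1 : normSq (v i) ≤ nsq v :=
    Finset.single_le_sum (f := fun i => normSq (v i)) (fun _ _ => normSq_nonneg _)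
      (Finset.mem_univ i)
  rw [h, normSq_eq_norm_sq] at h1
  nlinarith [norm_nonneg (v i)]

theorem ne0 {v : ι → ℂ} (h : nsq v = 1) : v ≠ 0 := by
  rintro rfl
  simp [nsq] at h

theorem pos {v : ι → ℂ} (h : v ≠ 0) : 0 < nsq v := by
  obtain ⟨i, hi⟩ := Function.ne_iff.1 h
  exact Finset.sum_pos' (fun _ _ => normSq_nonneg _) ⟨i, Finset.mem_univ i, normSq_pos.2 hi⟩

theorem sm (c : ℝ) (v : ι → ℂ) : nsq ((c : ℂ) • v) = c ^ 2 * nsq v := by
  simp [nsq, Finset.mul_sum, sq]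

theorem cn : Continuous fun v : ι → ℂ => nsq v := by
  unfold nsq
  exact continuous_finsetSum _ fun i _ => continuous_normSq.comp (continuous_apply i)

omit [Fintype ι] [Fintype κ] in
theorem cs : Continuous (sg : (ι → ℂ) × (κ → ℂ) → ι × κ → ℂ) := by
  unfold sg
  fun_prop

theorem bc (p : Sph Z) : p.1 ∈ Bc Z ∧ nsq (sg p.1) = 1 ∧ (∃ i j, p.1.1 i * p.1.2 j ≠ 0) ∧
    (∀ i, ‖p.1.1 i‖ ≤ 1) ∧ ∀ j, ‖p.1.2 j‖ ≤ 1 := by
  obtain ⟨h0, h1, h2⟩ := p.2
  obtain ⟨i, hi⟩ := Function.ne_iff.1 (ne0 h1)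
  obtain ⟨j, hj⟩ := Function.ne_iff.1 (ne0 h2)
  refine ⟨⟨h0, ne0 h1, ne0 h2⟩, ?_, ⟨i, j, mul_ne_zero hi hj⟩, le1 h1, le1 h2⟩
  have : nsq (sg p.1) = nsq p.1.1 * nsq p.1.2 := by
    simp only [nsq, sg, map_mul, Fintype.sum_prod_type, Finset.sum_mul_sum]
  rw [this, h1, h2, mul_one]

theorem unit (hZ : Cone Z) (x) (hx : x ∈ Bc Z) : ∃ (p : Sph Z) (c c' : ℝ), 0 < c ∧ 0 < c' ∧
    c ^ 2 = nsq x.1 ∧ c' ^ 2 = nsq x.2 ∧ x = ((c : ℂ) • p.1.1, (c' : ℂ) • p.1.2) := by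
  have h1 := pos hx.2.1
  have h2 := pos hx.2.2
  have k1 := Real.sqrt_pos.2 h1
  have k2 := Real.sqrt_pos.2 h2
  refine ⟨⟨((((√(nsq x.1))⁻¹ : ℝ) : ℂ) • x.1, (((√(nsq x.2))⁻¹ : ℝ) : ℂ) • x.2), ?_, ?_, ?_⟩,
    √(nsq x.1), √(nsq x.2), k1, k2, Real.sq_sqrt h1.le, Real.sq_sqrt h2.le, ?_⟩
  · have : sg ((((√(nsq x.1))⁻¹ : ℝ) : ℂ) • x.1, (((√(nsq x.2))⁻¹ : ℝ) : ℂ) • x.2) =
        ((((√(nsq x.1))⁻¹ : ℝ) : ℂ) * (((√(nsq x.2))⁻¹ : ℝ) : ℂ)) • sg x := by
      funext a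
      simp only [sg, Pi.smul_apply, smul_eq_mul]
      ring
    rw [this]
    exact hZ.smul _ _ hx.1
  · rw [sm, inv_pow, Real.sq_sqrt h1.le, inv_mul_cancel₀ h1.ne']
  · rw [sm, inv_pow, Real.sq_sqrt h2.le, inv_mul_cancel₀ h2.ne']
  · simp only [smul_smul, ← ofReal_mul, mul_inv_cancel₀ k1.ne', mul_inv_cancel₀ k2.ne', ofReal_one,
      one_smul]

end CSPH

open CSPH in
theorem cSPH (hHOM : St_HOM) : St_SPH where
  cpt := fun {ι κ _ _ Z} hZ => by
    refine isCompact_iff_compactSpace.1 ((isCompact_closedBall 0 1).of_isClosed_subset ?_ ?_)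
    · exact ((hHOM.closed hZ).preimage cs).inter
        ((isClosed_eq (cn.comp continuous_fst) continuous_const).inter
          (isClosed_eq (cn.comp continuous_snd) continuous_const))
    · intro x hx
      rw [mem_closedBall_zero_iff, Prod.norm_def]
      exact max_le ((pi_norm_le_iff_of_nonneg zero_le_one).2 (le1 hx.2.1))
        ((pi_norm_le_iff_of_nonneg zero_le_one).2 (le1 hx.2.2))
  bc := bc
  csg := cs.comp continuous_subtype_val
  cont := fun {ι κ _ _ Z q e S} hS => by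
    refine continuous_iff_continuousAt.2 fun p => ?_
    obtain ⟨i, j, hij⟩ := (bc p).2.2.1
    obtain ⟨k, A, -, hA⟩ := hS i j
    have c1 : Continuous fun x : Sph Z => x.1.2 j ^ (2 * q) * (x.1.1 i * x.1.2 j) ^ k := by
      fun_prop
    have n1 : p.1.2 j ^ (2 * q) * (p.1.1 i * p.1.2 j) ^ k ≠ 0 :=
      mul_ne_zero (pow_ne_zero _ (right_ne_zero_of_mul hij)) (pow_ne_zero _ hij)
    have c2 : Continuous fun x : Sph Z => eval (sg x.1) A :=
      (MvPolynomial.continuous_eval A).comp (cs.comp continuous_subtype_val)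
    refine (c2.continuousAt.div c1.continuousAt n1).congr ?_
    filter_upwards [c1.continuousAt.eventually_ne n1] with x hx
    rw [Pi.div_apply, div_eq_iff hx, ← hA x.1 (bc x).1, mul_assoc]
  cfm := fun P => continuous_normSq.comp
    ((MvPolynomial.continuous_eval P).comp (cs.comp continuous_subtype_val))
  unit := unit
  pt := fun {ι κ _ _ Z e₀} hZ h hh h0 => by
    obtain ⟨x, rfl⟩ := hZ.rk h hh
    have hx : x ∈ Bc Z := ⟨hh, fun h1 => h0 (funext fun a => by simp [sg, h1]),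
      fun h1 => h0 (funext fun a => by simp [sg, h1])⟩
    obtain ⟨p, c, c', h1, h2, -, -, h3⟩ := unit hZ.cone x hx
    refine ⟨p, c * c', mul_ne_zero (ofReal_ne_zero.2 h1.ne') (ofReal_ne_zero.2 h2.ne'), ?_⟩
    rw [h3]
    funext a
    simp only [sg, Pi.smul_apply, smul_eq_mul]
    ring

end Pool.Agent.Lib.NV6
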