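import Pool.Agent.Lib.NV6.JBlue

/-! Project NV6, block J: from words to forms. -/

open scoped Classical
open Set Complex

noncomputable section

namespace Pool.Agent.Lib.NV6.J

open Pool.Agent.Lib.SV (nsq)

namespace FRMk

theorem cs {κ : Type} [Fintype κ] (a b : κ → ℂ) :
    normSq (∑ i, a i * b i) ≤ (∑ i, normSq (a i)) * ∑ i, normSq (b i) := by
  have h1 : ‖∑ i, a i * b i‖ ≤ ∑ i, ‖a i‖ * ‖b i‖ :=
    (norm_sum_le _ _).trans (le_of_eq (Finset.sum_congr rfl fun i _ => norm_mul _ _))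
  have h2 := Finset.sum_mul_sq_le_sq_mul_sq Finset.univ (fun i => ‖a i‖) fun i => ‖b i‖
  simp only [normSq_eq_norm_sq]
  exact (pow_le_pow_left₀ (norm_nonneg _) h1 2).trans h2

theorem mons {r k : ℕ} (y : Fin r → ℂ) :
    ∑ I : Fin k → Fin r, normSq (∏ p, y (I p)) = nsq y ^ k := by
  have h := Finset.sum_pow' Finset.univ (fun a => normSq (y a)) k
  rw [nsq, h, Fintype.piFinset_univ]
  exact Finset.sum_congr rfl fun I _ => map_prod normSq _ _

theorem scal {r k : ℕ} {R : MvPolynomial (Fin r) ℂ} (hR : R.IsHomogeneous k) (t : ℂ) (y : Fin r → ℂ) :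
    MvPolynomial.eval (fun a => y a * t) R = MvPolynomial.eval y R * t ^ k := by
  rw [MvPolynomial.eval_eq', MvPolynomial.eval_eq', Finset.sum_mul]
  refine Finset.sum_congr rfl fun d hd => ?_
  have h : k = ∑ i, d i := by
    rw [hR.degree_eq_sum_deg_support hd]
    exact Finset.sum_subset (Finset.subset_univ _) fun i _ hi => Finsupp.notMem_support_iff.1 hi
  simp only [mul_pow, Finset.prod_mul_distrib, Finset.prod_pow_eq_pow_sum, ← h]
  ring

theorem bnd {r k : ℕ} {R : MvPolynomial (Fin r) ℂ} (hR : R.IsHomogeneous k) :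
    ∃ C, ∀ y : Fin r → ℂ, normSq (MvPolynomial.eval y R) ≤ C * nsq y ^ k := by
  refine ⟨(∑ d ∈ R.support, ‖R.coeff d‖) ^ 2, fun y => ?_⟩
  have h0 : 0 ≤ nsq y := Finset.sum_nonneg fun _ _ => normSq_nonneg _
  have h1 : ∀ a, ‖y a‖ ≤ √(nsq y) := fun a => Real.le_sqrt_of_sq_le (by
    rw [← normSq_eq_norm_sq]
    exact Finset.single_le_sum (f := fun a => normSq (y a)) (fun _ _ => normSq_nonneg _)
      (Finset.mem_univ a))
  have h2 : ‖MvPolynomial.eval y R‖ ≤ (∑ d ∈ R.support, ‖R.coeff d‖) * √(nsq y) ^ k := by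
    rw [MvPolynomial.eval_eq', Finset.sum_mul]
    refine (norm_sum_le _ _).trans (Finset.sum_le_sum fun d hd => ?_)
    have h : k = ∑ i, d i := by
      rw [hR.degree_eq_sum_deg_support hd]
      exact Finset.sum_subset (Finset.subset_univ _) fun i _ hi => Finsupp.notMem_support_iff.1 hi
    rw [norm_mul, norm_prod, h, ← Finset.prod_pow_eq_pow_sum]
    refine mul_le_mul_of_nonneg_left (Finset.prod_le_prod (fun _ _ => norm_nonneg _) fun i _ => ?_)
      (norm_nonneg _)
    rw [norm_pow]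
    exact pow_le_pow_left₀ (norm_nonneg _) (h1 i) _
  rw [normSq_eq_norm_sq]
  refine (pow_le_pow_left₀ (norm_nonneg _) h2 2).trans (le_of_eq ?_)
  rw [mul_pow, ← pow_mul, mul_comm k 2, pow_mul, Real.sq_sqrt h0]

end FRMk

theorem jFRM : St_FRM := by
  intro Y r O h
  refine ⟨fun S hS => ?_, fun k S f hf => ?_, fun k R hR => ⟨FRMk.scal hR, FRMk.bnd hR⟩⟩
  · let B := Module.finBasis ℂ S
    refine ⟨_, fun j => (B j : Y → ℂ), fun j => ⟨(B j).2, fun h0 => B.ne_zero j (Subtype.ext h0)⟩,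
      fun k f hf => ?_⟩
    obtain ⟨H, hH, e⟩ := hf
    refine ⟨fun j => ∑ I : Fin k → Fin r,
      MvPolynomial.C (B.repr ⟨H I, hH I⟩ j) * ∏ p, MvPolynomial.X (I p), fun j => ?_, fun x hx => ?_⟩
    · refine MvPolynomial.IsHomogeneous.sum _ _ _ fun I _ => MvPolynomial.IsHomogeneous.C_mul ?_ _
      have := MvPolynomial.IsHomogeneous.prod Finset.univ
        (fun p : Fin k => (MvPolynomial.X (I p) : MvPolynomial (Fin r) ℂ)) (fun _ => 1)
        fun p _ => MvPolynomial.isHomogeneous_X ℂ (I p)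
      simpa using this
    · have e2 : ∀ I, H I x = ∑ j, B.repr ⟨H I, hH I⟩ j * (B j : Y → ℂ) x := fun I => by
        have h1 := congrArg (fun v : S => (v : Y → ℂ) x) (B.sum_repr ⟨H I, hH I⟩)
        simp only [Submodule.coe_sum, Submodule.coe_smul, Finset.sum_apply, Pi.smul_apply,
          smul_eq_mul] at h1
        exact h1.symm
      rw [e x hx]
      simp only [pv, map_sum, map_mul, map_prod, MvPolynomial.eval_C, MvPolynomial.eval_X,
        Finset.sum_mul]
      rw [Finset.sum_comm]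
      refine Finset.sum_congr rfl fun I _ => ?_
      rw [e2 I, Finset.mul_sum]
      exact Finset.sum_congr rfl fun j _ => by rw [mon]; ring
  · obtain ⟨H, hH, e⟩ := hf
    let ε := (Fintype.equivFin (Fin k → Fin r)).symm
    refine ⟨_, fun j => H (ε j), fun j => hH _, fun x hx => ?_⟩
    rw [e x hx]
    refine (FRMk.cs _ _).trans (le_of_eq ?_)
    rw [← FRMk.mons (k := k) (h · x)]
    exact congrArg₂ (· * ·) rfl (ε.sum_comp fun I => normSq (H I x)).symm

end Pool.Agent.Lib.NV6.J
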