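import Pool.Agent.Lib.NV6.CBlue

/-! Project NV6, block C: weights. -/

open scoped Classical Topology ENNReal
open Set MeasureTheory Complex Metric Filter MvPolynomial

noncomputable section

namespace Pool.Agent.Lib.NV6

open Pool.Agent.Lib.SV (nsq)

namespace CADM

variable {ι κ : Type} [Fintype ι] [Fintype κ] {Z : Set (ι × κ → ℂ)}

theorem pos_of {T : Type} [Fintype T] {q e : ℕ} (S : T → Fn ι κ) (hS : ∀ l, Sec Z q e (S l))
    {N : Sph Z → ℝ} (hN : ∀ p : Sph Z, N p = ∑ l, normSq (S l p.1)) : Pos Z q e N :=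
  ⟨Fintype.card T, fun l => S ((Fintype.equivFin T).symm l), fun _ => hS _, fun p =>
    (hN p).trans (Equiv.sum_comp (Fintype.equivFin T).symm fun l => normSq (S l p.1)).symm⟩

theorem adm_of {T : Type} [Fintype T] (t : T → ℝ) (q e : T → ℕ) (N : T → Sph Z → ℝ)
    (h : ∀ l, 0 ≤ t l ∧ Gen Z (q l) (e l) (N l)) {y c : ℝ} {β : Sph Z → ℝ}
    (hy : y = ∑ l, t l * q l) (hc : ∑ l, t l * e l ≤ c)
    (hβ : ∀ p, β p = ∑ l, t l * Real.log (N l p)) : Adm Z y c β := by
  have E := (Fintype.equivFin T).symm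
  exact ⟨Fintype.card T, fun l => t (E l), fun l => q (E l), fun l => e (E l), fun l => N (E l),
    fun _ => h _, hy.trans (Equiv.sum_comp E fun l => t l * q l).symm,
    (Equiv.sum_comp E fun l => t l * e l).trans_le hc,
    fun p => (hβ p).trans (Equiv.sum_comp E fun l => t l * Real.log (N l p)).symm⟩

theorem sec_const (hS : St_SEC) (c : ℂ) : Sec Z 0 0 fun _ => c := by
  have h := hS.form (Z := Z) (isHomogeneous_C (ι × κ) c)
  simpa only [eval_C] using h

theorem up1 (hS : St_SEC) (hP : St_SPH) {q e : ℕ} {N : Sph Z → ℝ} (h : Pos Z q e N) :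
    Pos Z q (e + 1) N := by
  obtain ⟨r, S, h1, h2⟩ := h
  refine pos_of (T := Fin r × (ι × κ)) (fun l x => S l.1 x * eval (sg x) (X l.2))
    (fun l => hS.mul (h1 l.1) (hS.form (isHomogeneous_X ℂ l.2))) fun p => ?_
  have h3 : ∑ α, normSq (sg p.1 α) = 1 := (hP.bc p).2.1
  rw [h2 p, Fintype.sum_prod_type]
  refine Finset.sum_congr rfl fun l _ => ?_
  simp only [eval_X, map_mul]
  rw [← Finset.mul_sum, h3, mul_one]

theorem up (hS : St_SEC) (hP : St_SPH) {q e e' : ℕ} {N : Sph Z → ℝ} (he : e ≤ e')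
    (h : Pos Z q e N) : Pos Z q e' N := by
  induction e', he using Nat.le_induction with
  | base => exact h
  | succ k _ ih => exact up1 hS hP ih

theorem gen_const (hS : St_SEC) {a : ℝ} (ha : 0 < a) : Gen Z 0 0 fun _ => a :=
  ⟨⟨1, fun _ _ => (√a : ℝ), fun _ => sec_const hS _, fun _ => by
    simp only [Finset.univ_unique, Finset.sum_singleton, normSq_ofReal]
    exact (Real.mul_self_sqrt ha.le).symm⟩, fun _ => ha⟩

theorem cont (hP : St_SPH) {q e : ℕ} {N : Sph Z → ℝ} (h : Pos Z q e N) :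
    Continuous N ∧ ∀ p, 0 ≤ N p := by
  obtain ⟨r, S, h1, h2⟩ := h
  refine ⟨?_, fun p => (h2 p).symm ▸ Finset.sum_nonneg fun _ _ => normSq_nonneg _⟩
  rw [show N = fun p : Sph Z => ∑ l, normSq (S l p.1) from funext h2]
  exact continuous_finsetSum _ fun l _ => continuous_normSq.comp (hP.cont (h1 l))

end CADM

open CADM in
theorem cADM (hS : St_SEC) (hP : St_SPH) : St_ADM where
  one := fun {_ _ _ _ _ _ _ S} h => ⟨1, fun _ => S, fun _ => h, fun _ => by simp⟩
  add := by
    rintro ι κ _ _ Z q e N N' ⟨r, S, h1, h2⟩ ⟨r', S', h3, h4⟩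
    refine pos_of (T := Fin r ⊕ Fin r') (Sum.elim S S') (fun l => ?_) fun p => ?_
    · cases l with
      | inl l => exact h1 l
      | inr l => exact h3 l
    · rw [Fintype.sum_sum_type, h2 p, h4 p]; rfl
  smul := by
    rintro ι κ _ _ Z q e N c hc ⟨r, S, h1, h2⟩
    refine ⟨r, fun l x => (√c : ℝ) * S l x, fun l => hS.smul _ (h1 l), fun p => ?_⟩
    simp only [map_mul, normSq_ofReal, Real.mul_self_sqrt hc]
    rw [h2 p, Finset.mul_sum]
  up := fun he h => up hS hP he h
  cont := fun h => cont hP h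
  gen := by
    intro ι κ _ _ Z e₀ q e hZ h
    rcases Nat.eq_zero_or_pos q with rfl | hq
    · exact ⟨fun _ => 1, up hS hP (Nat.zero_le e) (gen_const hS one_pos).1, fun _ => one_pos⟩
    · obtain ⟨N, h1, h2⟩ := hZ.gen q hq
      exact ⟨N, up hS hP (h.resolve_left hq.ne') h1, h2⟩
  log := fun {_ _ _ _ _ q e N t} ht h =>
    ⟨1, fun _ => t, fun _ => q, fun _ => e, fun _ => N, fun _ => ⟨ht, h⟩, by simp, by simp,
      fun _ => by simp⟩
  const := fun a =>
    ⟨1, fun _ => 1, fun _ => 0, fun _ => 0, fun _ _ => Real.exp a,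
      fun _ => ⟨zero_le_one, gen_const hS (Real.exp_pos a)⟩, by simp, by simp, fun _ => by simp⟩
  plus := by
    rintro ι κ _ _ Z y c y' c' β β' ⟨r, t, q, e, N, h1, h2, h3, h4⟩
      ⟨r', t', q', e', N', h5, h6, h7, h8⟩
    refine adm_of (T := Fin r ⊕ Fin r') (Sum.elim t t') (Sum.elim q q') (Sum.elim e e')
      (Sum.elim N N') (fun l => ?_) ?_ ?_ fun p => ?_
    · cases l with
      | inl l => exact h1 l
      | inr l => exact h5 l
    · rw [Fintype.sum_sum_type, h2, h6]; rfl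
    · rw [Fintype.sum_sum_type]; exact add_le_add h3 h7
    · rw [Fintype.sum_sum_type, h4 p, h8 p]; rfl
  mono := by
    rintro ι κ _ _ Z y c c' β h ⟨r, t, q, e, N, h1, h2, h3, h4⟩
    exact ⟨r, t, q, e, N, h1, h2, h3.trans h, h4⟩
  cadm := by
    rintro ι κ _ _ Z y c β ⟨r, t, q, e, N, h1, h2, h3, h4⟩
    refine ⟨?_, ?_, le_trans ?_ h3⟩
    · rw [show β = fun p => ∑ l, t l * Real.log (N l p) from funext h4]
      exact continuous_finsetSum _ fun l _ => continuous_const.mul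
        ((cont hP (h1 l).2.1).1.log fun p => ((h1 l).2.2 p).ne')
    · rw [h2]
      exact Finset.sum_nonneg fun l _ => mul_nonneg (h1 l).1 (Nat.cast_nonneg _)
    · exact Finset.sum_nonneg fun l _ => mul_nonneg (h1 l).1 (Nat.cast_nonneg _)

end Pool.Agent.Lib.NV6
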