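import Pool.Agent.Lib.NV6.JBlue

/-! Project NV6, block J, row IDL: the ideals are spaces of finite dimension. -/

open scoped Classical Topology ContDiff ENNReal
open Set MeasureTheory Complex Metric Filter

set_option linter.unusedVariables false

noncomputable section

namespace Pool.Agent.Lib.NV6.J

open Pool.Agent.Lib.SV (E nsq)
open Pool.Agent.Lib.HS32 Pool.Agent.Lib.EX Pool.Agent.Lib.EXS Pool.Agent.Lib.ZL
open Pool.Agent.Lib.ZQ (HqO offz)

namespace IDLk

theorem npos {r : ℕ} {v w : Fin r → ℂ} (hv : 0 < nsq v) (hw : ∀ a, w a ≠ 0) : 0 < nsq w := by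
  cases r with
  | zero => simp [nsq] at hv
  | succ r => exact Finset.sum_pos (fun a _ => normSq_pos.2 (hw a)) Finset.univ_nonempty

theorem nadd (a b : ℂ) : normSq (a + b) ≤ 2 * normSq a + 2 * normSq b := by
  simp only [normSq_apply, add_re, add_im]
  nlinarith [sq_nonneg (a.re - b.re), sq_nonneg (a.im - b.im)]

theorem inv_le {T C u e : ℝ} (hT : 0 < T) (hC : 0 < C) (he : 0 ≤ e)
    (h : T ≤ C * Real.exp (-u)) : Real.exp (e * u) ≤ C ^ e * T ^ (-e) := by
  have h1 : Real.log T ≤ Real.log C - u := by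
    have := Real.log_le_log hT h
    rwa [Real.log_mul hC.ne' (Real.exp_pos _).ne', Real.log_exp] at this
  rw [Real.rpow_def_of_pos hC, Real.rpow_def_of_pos hT, ← Real.exp_add, Real.exp_le_exp]
  nlinarith [mul_le_mul_of_nonneg_left h1 he]

theorem mono {B C s t : ℝ} (hB : 0 < B) (h : B ≤ C) (hst : s ≤ t) :
    B ^ (-s) ≤ C ^ (t - s) * B ^ (-t) := by
  have hC := hB.trans_le h
  rw [Real.rpow_def_of_pos hC, Real.rpow_def_of_pos hB, Real.rpow_def_of_pos hB, ← Real.exp_add,
    Real.exp_le_exp]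
  nlinarith [mul_le_mul_of_nonneg_left (Real.log_le_log hB h) (sub_nonneg.2 hst)]

end IDLk

open IDLk in
theorem jIDL (hKIT : St_KIT) (hPW : St_PW) (hFIN : ZL.St_FIN) : St_IDL := by
  intro n M _ ι _ _ D X r d k g L κ P h W b m
  have hO : IsOpen (offz D g) := ZQ.HO.offz_open (oa_iff.1 m.hol)
  obtain ⟨-, kS, -, -, kN, -, kC, -, -, -, -, -, kM, kI, kP⟩ :=
    hKIT n M ι D X (offz D g) hO (fun x hx => hx.1) m.ae
  obtain ⟨-, -, wA, -, wS, -, wM, -⟩ := hPW n M ι D
  have pT : ∀ x ∈ offz D g, 0 < qt W h x := fun x hx =>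
    div_pos (npos (m.pos x hx) (m.hne x hx).2.1) (m.pos x hx)
  have pB : ∀ x ∈ offz D g, 0 < bt h k b x := fun x hx =>
    div_pos (normSq_pos.2 (m.hne x hx).2.2) (pow_pos (m.pos x hx) _)
  have pO : ∀ x ∈ offz D g, ∀ N s c, 0 < om d k h W b N s c x := fun x hx N s c =>
    div_pos (mul_pos (Real.rpow_pos_of_pos (pT x hx) _) (Real.rpow_pos_of_pos (pB x hx) _))
      (pow_pos (m.pos x hx) _)
  have ch : ContinuousOn (fun x => nsq (h · x)) (offz D g) :=
    (kN (Fin r) h fun a => (kS _ _ (m.sp a)).1).2.2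
  have cW : ContinuousOn (fun x => nsq (W · x)) (offz D g) :=
    (kN (Fin r) W fun a => (kS _ _ (m.spW a)).1).2.2
  have cS : ∀ Q F, Sp D Q F → ContinuousOn (fun x => normSq (F x)) (offz D g) := fun Q F hF =>
    continuous_normSq.comp_continuousOn (kC F (kS Q F hF).1).1
  have cO : ∀ N s c, ContinuousOn (om d k h W b N s c) (offz D g) := fun N s c =>
    (((cW.div ch fun x hx => (m.pos x hx).ne').rpow_const fun x hx => Or.inl (pT x hx).ne').mul
      (((cS _ _ m.spb).div (ch.pow k) fun x hx => (pow_pos (m.pos x hx) _).ne').rpow_const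
        fun x hx => Or.inl (pB x hx).ne')).div (ch.pow c) fun x hx => (pow_pos (m.pos x hx) _).ne'
  obtain ⟨C1, h1⟩ := m.r1
  obtain ⟨C2, h2⟩ := m.rb
  obtain ⟨⟨C3, C30, h3⟩, -⟩ := kP r P h m.sp
  have oM : ∀ x ∈ offz D g, ∀ N c (s t : ℝ), s ≤ t →
      om d k h W b N s c x ≤ C2 ^ (t - s) * om d k h W b N t c x := fun x hx N c s t hst => by
    have e := mul_le_mul_of_nonneg_left (mono (pB x hx) (h2 x hx) hst)
      (div_pos (Real.rpow_pos_of_pos (pT x hx) ((1 : ℝ) / d - N)) (pow_pos (m.pos x hx) c)).le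
    unfold om
    calc _ = _ := by ring
      _ ≤ _ := e
      _ = _ := by ring
  refine ⟨fun x hx => ⟨pT x hx, pB x hx, pO x hx⟩, cO, fun N c hN => ?_⟩
  have d1 : (1 : ℝ) ≤ d := Nat.one_le_cast.2 m.d0
  have e0 : 0 ≤ (N : ℝ) - 1 / d := by
    have : (1 : ℝ) ≤ N := Nat.one_le_cast.2 hN
    have : (1 : ℝ) / d ≤ 1 := by rw [div_le_one (by linarith)]; exact d1
    linarith
  have k1 : ∀ s ≥ (0 : ℝ), ∃ C, 0 ≤ C ∧ ∀ x ∈ offz D g,
      Real.exp (lw D (fun i => (N * L i + κ i : ℤ) - X.o i) x) / nsq (h · x) ^ c ≤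
        C * om d k h W b N s c x := fun s hs => by
    refine ⟨max C1 1 ^ ((N : ℝ) - 1 / d) * max C2 1 ^ s, by positivity, fun x hx => ?_⟩
    have a1 := inv_le (pT x hx) (lt_max_of_lt_right one_pos : 0 < max C1 1) e0
      ((h1 x hx).trans (mul_le_mul_of_nonneg_right (le_max_left _ _) (Real.exp_pos _).le))
    have a2 := mono (pB x hx) ((h2 x hx).trans (le_max_left C2 1)) hs
    rw [neg_zero, Real.rpow_zero, sub_zero] at a2
    have a3 : lw D (fun i => (N * L i + κ i : ℤ) - X.o i) x ≤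
        ((N : ℝ) - 1 / d) * lw D (fun i => (L i : ℝ)) x := by
      rw [← wS]
      refine wM _ _ (fun i => ?_) x
      have := m.hi i
      simp only [Pi.smul_apply, smul_eq_mul]
      push_cast
      have e : ((N : ℝ) - 1 / d) * L i = N * L i - L i / d := by ring
      linarith
    have a4 := mul_le_mul ((Real.exp_le_exp.2 a3).trans a1) a2 zero_le_one
      (mul_pos (Real.rpow_pos_of_pos (lt_max_of_lt_right one_pos) _)
        (Real.rpow_pos_of_pos (pT x hx) _)).le
    rw [mul_one, neg_sub] at a4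
    unfold om
    calc _ ≤ _ := div_le_div_of_nonneg_right a4 (pow_pos (m.pos x hx) c).le
      _ = _ := by ring
  obtain ⟨V, hV, mV⟩ := hFIN n M ι D fun i => N * L i + κ i + c * P i
  refine ⟨fun s hs => ?_, fun F hF => ⟨hF.1, ?_⟩, ?_⟩
  · obtain ⟨C, C0, hC⟩ := k1 s hs
    refine ⟨C * max (C3 ^ c) 1, fun x hx => ⟨(hC x hx).trans (mul_le_mul_of_nonneg_right
      (le_mul_of_one_le_right C0 (le_max_right _ _)) (pO x hx N s c).le), ?_⟩⟩
    have a1 := inv_le (m.pos x hx) C30 (Nat.cast_nonneg c) (h3 x hx)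
    rw [Real.rpow_neg (m.pos x hx).le, Real.rpow_natCast, Real.rpow_natCast] at a1
    have e : (fun i => ((N * L i + κ i + c * P i : ℤ) : ℝ) - X.o i) =
        (fun i => ((N * L i + κ i : ℤ) : ℝ) - X.o i) + (c : ℝ) • fun i => (P i : ℝ) := by
      funext i
      simp only [Pi.add_apply, Pi.smul_apply, smul_eq_mul]
      push_cast
      ring
    rw [e, wA, wS, Real.exp_add]
    calc _ ≤ _ := mul_le_mul_of_nonneg_left a1 (Real.exp_pos _).le
      _ = C3 ^ c * (Real.exp (lw D (fun i => (N * L i + κ i : ℤ) - X.o i) x) /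
        nsq (h · x) ^ c) := by ring
      _ ≤ max (C3 ^ c) 1 * (C * om d k h W b N s c x) :=
        mul_le_mul (le_max_left _ _) (hC x hx)
          (div_pos (Real.exp_pos _) (pow_pos (m.pos x hx) c)).le (by positivity)
      _ = _ := by ring
  · obtain ⟨-, s, hs, hF⟩ := hF
    obtain ⟨C, C0, hC⟩ := k1 s hs.1.le
    refine (kI _ _ C fun x hx => ⟨mul_nonneg (normSq_nonneg _) (pO x hx N s c).le, ?_⟩).2 hF
    have := mul_le_mul_of_nonneg_left (hC x hx) (normSq_nonneg (F x))
    rw [neg_neg]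
    calc _ = _ := by ring
      _ ≤ _ := this
      _ = _ := by ring
  have dn : ∀ (F : M.X → ℂ) (s t : ℝ), s ≤ t →
      X.I (fun x => normSq (F x) * om d k h W b N t c x) ≠ ⊤ →
      X.I (fun x => 2 * normSq (F x) * om d k h W b N s c x) ≠ ⊤ := fun F s t hst hF => by
    refine (kI _ _ (2 * C2 ^ (t - s)) fun x hx =>
      ⟨mul_nonneg (normSq_nonneg _) (pO x hx N t c).le, ?_⟩).2 hF
    have := mul_le_mul_of_nonneg_left (oM x hx N c s t hst) (normSq_nonneg (F x))
    linarith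
  let S : Submodule ℂ (M.X → ℂ) :=
    { carrier := Id X d k L κ P h W b N c
      add_mem' := fun {F G} hF hG => by
        obtain ⟨sF, s, hs, hF⟩ := hF
        obtain ⟨sG, t, ht, hG⟩ := hG
        refine ⟨(mV _).1 (V.add_mem ((mV _).2 sF) ((mV _).2 sG)), min s t,
          ⟨lt_min hs.1 ht.1, (min_le_left _ _).trans hs.2⟩, ?_⟩
        have a1 := dn F _ s (min_le_left s t) hF
        have a2 := dn G _ t (min_le_right s t) hG
        have me : AEMeasurable (fun x => ENNReal.ofReal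
            (2 * normSq (F x) * om d k h W b N (min s t) c x)) X.μ :=
          (kM ℝ _ ((continuousOn_const.mul (cS _ _ sF)).mul (cO N _ c))).ennreal_ofReal
        refine ne_top_of_le_ne_top (ENNReal.add_ne_top.2 ⟨a1, a2⟩) ?_
        unfold Cx.I
        rw [← lintegral_add_left' me]
        refine lintegral_mono_ae (m.ae.mono fun x hx => ?_)
        refine le_trans (ENNReal.ofReal_le_ofReal ?_) ENNReal.ofReal_add_le
        have := mul_le_mul_of_nonneg_right (nadd (F x) (G x)) (pO x hx N (min s t) c).le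
        simp only [Pi.add_apply]
        linarith
      zero_mem' := ⟨(mV _).1 V.zero_mem, 1, ⟨one_pos, le_rfl⟩, by simp [Cx.I]⟩
      smul_mem' := fun a F hF => by
        obtain ⟨sF, s, hs, hF⟩ := hF
        refine ⟨(mV _).1 (V.smul_mem a ((mV _).2 sF)), s, hs, (kI _ _ (normSq a) fun x hx =>
          ⟨mul_nonneg (normSq_nonneg _) (pO x hx N s c).le, ?_⟩).2 hF⟩
        simp only [Pi.smul_apply, smul_eq_mul, map_mul]
        exact (mul_assoc _ _ _).le }
  exact ⟨S, Submodule.finiteDimensional_of_le (S₂ := V) fun F hF => (mV F).2 hF.1, rfl⟩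

end Pool.Agent.Lib.NV6.J
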