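import Pool.Agent.Lib.NV6.JBlue

/-! Row SGA: the algebra of the new model. -/

open scoped Classical
open Set Complex

noncomputable section

namespace Pool.Agent.Lib.NV6.J

theorem jSGA (hF : St_FRM) : St_SGA := by
  intro Y r m O h W C Q τ q m' s r' m'' e e' hO hC α
  have hren : ∀ R : MvPolynomial (Fin r) ℂ, R.IsHomogeneous q → ∀ x,
      pv (fun β y => h (e β).1 y * Q (e β).2 y)
        (MvPolynomial.rename (fun a => e.symm (a, (e α).2)) R) x =
        pv h R x * Q (e α).2 x ^ q := by
    intro R hR x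
    rw [pv, MvPolynomial.eval_rename, pv, ← ((hF Y r O h).2.2 q R hR).1]
    simp only [Function.comp_def, Equiv.apply_symm_apply]
  obtain ⟨h1, h2⟩ := hC (e α).1
  refine ⟨fun j => ?_, fun β => ?_⟩
  · obtain ⟨R, hR, hx⟩ := h1 (e' j).1
    refine ⟨∑ i, MvPolynomial.rename (fun a => e.symm (a, (e α).2)) (R i) *
      MvPolynomial.X (e.symm ((e' j).2, i)), MvPolynomial.IsHomogeneous.sum _ _ _ fun i _ =>
        (hR i).rename_isHomogeneous.mul (MvPolynomial.isHomogeneous_X ℂ _), fun x hxO => ?_⟩
    obtain ⟨hτ, hW, hQ⟩ := hO x hxO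
    have h3 : pv (fun β y => h (e β).1 y * Q (e β).2 y)
        (∑ i, MvPolynomial.rename (fun a => e.symm (a, (e α).2)) (R i) *
          MvPolynomial.X (e.symm ((e' j).2, i))) x =
        Q (e α).2 x ^ q * h (e' j).2 x / τ x * ∑ i, pv h (R i) x * C i x := by
      rw [pv, map_sum, Finset.mul_sum]
      refine Finset.sum_congr rfl fun i _ => ?_
      have h4 := hren (R i) (hR i) x
      rw [pv] at h4
      rw [map_mul, h4, MvPolynomial.eval_X, Equiv.apply_symm_apply, hQ i]
      field_simp
    have h5 := hW (e α).1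
    rw [h3, ← hx x hxO]
    field_simp
    ring
  · obtain ⟨R, hR, hx⟩ := h2 (e β).2
    refine ⟨fun j => if (e' j).2 = (e β).1 then
      MvPolynomial.rename (fun a => e.symm (a, (e α).2)) (R (e' j).1) else 0, fun j => ?_,
      fun x hxO => ?_⟩
    · dsimp only
      split_ifs
      · exact (hR _).rename_isHomogeneous
      · exact MvPolynomial.isHomogeneous_zero _ _ _
    obtain ⟨hτ, hW, hQ⟩ := hO x hxO
    have h3 : ∀ p : Fin m' × Fin r, pv (fun β y => h (e β).1 y * Q (e β).2 y)
        (if p.2 = (e β).1 then MvPolynomial.rename (fun a => e.symm (a, (e α).2)) (R p.1) else 0) x *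
          (s p.1 x * h p.2 x / τ x) = if p.2 = (e β).1 then
            Q (e α).2 x ^ q * h (e β).1 x / τ x * (pv h (R p.1) x * s p.1 x) else 0 := by
      intro p
      split_ifs with hp
      · rw [hren _ (hR _), hp]
        ring
      · simp [pv]
    have h4 := hx x hxO
    dsimp only at h4 ⊢
    rw [Finset.sum_congr rfl fun j _ => h3 (e' j), e'.sum_comp fun p : Fin m' × Fin r =>
      if p.2 = (e β).1 then Q (e α).2 x ^ q * h (e β).1 x / τ x * (pv h (R p.1) x * s p.1 x) else 0,
      Fintype.sum_prod_type]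
    simp only [Finset.sum_ite_eq', Finset.mem_univ, if_true]
    rw [← Finset.mul_sum, ← h4, hQ]
    field_simp
    ring

end Pool.Agent.Lib.NV6.J
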