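import Pool.Agent.Lib.NV6.JBlue

/-! Project NV6, block J, row LOW. -/

open scoped Classical Topology ContDiff ENNReal
open Set MeasureTheory Complex Metric Filter

noncomputable section

namespace Pool.Agent.Lib.NV6.J

open Pool.Agent.Lib.SV (E nsq nsq_nonneg)
open Pool.Agent.Lib.HS32 Pool.Agent.Lib.EX Pool.Agent.Lib.EXS Pool.Agent.Lib.ZL
open Pool.Agent.Lib.ZQ (HqO offz)

namespace LOWk

theorem le_nsq {κ : Type} [Fintype κ] (v : κ → ℂ) (a : κ) : normSq (v a) ≤ nsq v :=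
  Finset.single_le_sum (f := fun a => normSq (v a)) (fun _ _ => normSq_nonneg _) (Finset.mem_univ a)

theorem ex_max {r : ℕ} (v : Fin r → ℂ) (h : 0 < nsq v) : ∃ a, nsq v ≤ r * normSq (v a) := by
  rcases isEmpty_or_nonempty (Fin r) with e | e
  · simp [nsq] at h
  obtain ⟨a, ha⟩ := Finite.exists_max fun a => normSq (v a)
  refine ⟨a, (Finset.sum_le_card_nsmul _ _ _ fun b _ => ha b).trans_eq ?_⟩
  simp

theorem low {w u p q C r t : ℝ} (N c : ℕ) (hw : 0 ≤ w) (hu : 0 < u) (hp : 0 ≤ p)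
    (hr : 0 ≤ r) (h1 : u ≤ r * q) (h2 : w * q ^ 2 ≤ C * p * u ^ 2)
    (h3 : p ^ N * q ^ c ≤ u ^ N * t) : (w / u) ^ N * u ^ c ≤ (|C| * r ^ 2) ^ N * r ^ c * t := by
  have a : w ≤ |C| * r ^ 2 * p := by
    refine le_of_mul_le_mul_right ?_ (pow_pos hu 2)
    calc w * u ^ 2 ≤ w * (r * q) ^ 2 := by gcongr
      _ = r ^ 2 * (w * q ^ 2) := by ring
      _ ≤ r ^ 2 * (|C| * p * u ^ 2) := by
        refine mul_le_mul_of_nonneg_left (h2.trans ?_) (by positivity)
        gcongr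
        exact le_abs_self C
      _ = _ := by ring
  rw [div_pow, div_mul_eq_mul_div, div_le_iff₀ (pow_pos hu N)]
  calc w ^ N * u ^ c ≤ (|C| * r ^ 2 * p) ^ N * (r * q) ^ c := by gcongr
    _ = (|C| * r ^ 2) ^ N * r ^ c * (p ^ N * q ^ c) := by rw [mul_pow _ p, mul_pow r q]; ring
    _ ≤ (|C| * r ^ 2) ^ N * r ^ c * (u ^ N * t) := mul_le_mul_of_nonneg_left h3 (by positivity)
    _ = _ := by ring

end LOWk

open LOWk in
theorem jLOW (hK : St_KIT) (hF : St_FRM) (hZ : St_ZDV) (hC : NV2.St_CHN) (hU : ZL.St_UPB) :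
    St_LOW := by
  intro n M _ ι _ _ D X r d k g L κ P h W b N c m hN hc
  obtain ⟨-, k2, -⟩ := hK n M ι D X (offz D g) (ZQ.HO.offz_open (oa_iff.1 m.hol))
    (fun x hx => hx.1) m.ae
  obtain ⟨-, -, mul, -⟩ := hC n M ι D X r
  obtain ⟨-, f2, -⟩ := hF M.X r (offz D g) h
  have pw : ∀ Q F, Sp D Q F → ∀ j : ℕ, Sp D ((j + 1) • Q) (F ^ (j + 1)) := fun Q F hF j => by
    induction j with
    | zero => simpa using hF
    | succ j ih =>
      rw [pow_succ, succ_nsmul]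
      exact mul _ _ _ _ ih hF
  obtain ⟨C₀, A, hz⟩ := m.zo N hN
  have sp : ∀ a, Sp D (fun i => (N * L i + κ i) + (c + N : ℕ) * P i) (W a ^ N * h a ^ c) := by
    intro a
    obtain ⟨N, rfl⟩ := Nat.exists_eq_succ_of_ne_zero hN.ne'
    obtain ⟨c, rfl⟩ := Nat.exists_eq_succ_of_ne_zero (Nat.ne_zero_of_lt hc)
    have s := mul _ _ _ _ (pw _ _ (m.spW a) N) (pw _ _ (m.sp a) c)
    refine ⟨(hU n M ι D _).2.2.1 _ _ (fun i => ?_) s.1, s.2⟩
    have k0 : (0 : ℤ) ≤ κ i := by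
      have : (0 : ℝ) ≤ κ i := by linarith [m.lo i, m.hi i]
      exact_mod_cast this
    rw [Pi.add_apply, Pi.smul_apply, Pi.smul_apply, nsmul_eq_mul, nsmul_eq_mul]
    push_cast
    linarith
  have e : ∀ a x, normSq ((W a ^ N * h a ^ c) x) = normSq (W a x) ^ N * normSq (h a x) ^ c :=
    fun a x => by simp only [Pi.mul_apply, Pi.pow_apply, map_mul, map_pow]
  have dv : ∀ a, ∃ (m : ℕ) (s : Fin m → M.X → ℂ),
      (∀ j, Se X P h (fun i => N * L i + κ i) c (s j)) ∧ ∀ x ∈ offz D g,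
        normSq ((W a ^ N * h a ^ c) x) ≤ nsq (h · x) ^ N * nsq (s · x) := fun a => by
    refine f2 N _ _ (hZ n M ι D X r g P _ h _ C₀ A c N _ m.toFr hz hc (sp a) fun x hx => ?_)
    have p := m.pos x hx
    rw [e, qt, div_pow, pow_add, mul_comm (_ ^ c), ← mul_assoc, div_mul_cancel₀ _ (pow_pos p N).ne']
    exact mul_le_mul (pow_le_pow_left₀ (normSq_nonneg _) (le_nsq (W · x) a) N)
      (pow_le_pow_left₀ (normSq_nonneg _) (le_nsq (h · x) a) c) (pow_nonneg (normSq_nonneg _) _)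
      (pow_nonneg (nsq_nonneg _) _)
  choose μ s s1 s2 using dv
  choose B hB using fun p : Σ a, Fin (μ a) => m.r2 N c _ hN (s1 p.1 p.2)
  obtain ⟨C, hC3⟩ := m.r3
  let ε := (Fintype.equivFin (Σ a, Fin (μ a))).symm
  have sm : ∀ x, nsq (fun i => s (ε i).1 (ε i).2 x) =
      ∑ p : Σ a, Fin (μ a), normSq (s p.1 p.2 x) := fun x =>
    ε.sum_comp fun p => normSq (s p.1 p.2 x)
  have b0 : 0 ≤ ∑ p, |B p| := Finset.sum_nonneg fun _ _ => abs_nonneg _
  refine ⟨_, fun i => s (ε i).1 (ε i).2, (|C| * r ^ 2) ^ N * r ^ c + (∑ p, |B p| + 1),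
    by positivity, fun i => (k2 _ _ (s1 _ _).1).1, fun x hx => ?_⟩
  have p := m.pos x hx
  have t0 : 0 ≤ qt W h x ^ N * nsq (h · x) ^ c :=
    mul_nonneg (pow_nonneg (div_nonneg (nsq_nonneg _) p.le) _) (pow_nonneg p.le _)
  constructor
  · obtain ⟨a, ha⟩ := ex_max _ p
    have u : nsq (s a · x) ≤ nsq (fun i => s (ε i).1 (ε i).2 x) := by
      rw [sm, Fintype.sum_sigma]
      exact Finset.single_le_sum (f := fun a => nsq (s a · x)) (fun _ _ => nsq_nonneg _)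
        (Finset.mem_univ a)
    refine (low N c (nsq_nonneg _) p (normSq_nonneg _) (Nat.cast_nonneg r) ha (hC3 x hx a)
      (((e a x).symm.trans_le (s2 a x hx)).trans
        (mul_le_mul_of_nonneg_left u (pow_nonneg p.le _)))).trans ?_
    exact mul_le_mul_of_nonneg_right (le_add_of_nonneg_right (by positivity)) (nsq_nonneg _)
  · rw [sm, Finset.sum_mul, mul_assoc]
    refine (Finset.sum_le_sum fun q _ => (hB q x hx).trans ((mul_assoc _ _ _).trans_le
      (mul_le_mul_of_nonneg_right (le_abs_self _) t0))).trans ?_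
    rw [← Finset.sum_mul]
    refine mul_le_mul_of_nonneg_right ?_ t0
    have : 0 ≤ (|C| * r ^ 2) ^ N * (r : ℝ) ^ c := by positivity
    linarith

end Pool.Agent.Lib.NV6.J
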