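import Pool.Agent.Lib.NV6.CBlue

/-! Project NV6, block C: the first case. -/

open scoped Classical Topology ENNReal
open Set MeasureTheory Complex Metric Filter MvPolynomial

noncomputable section

namespace Pool.Agent.Lib.NV6

open Pool.Agent.Lib.S3K (blow_of_dens)

namespace CCA

theorem count (a N w : ℕ) : a * (N * (a * N ^ w + 1)) ^ w < (a * N ^ w + 1 + 1) ^ (w + 1) := by
  have h0 : 0 < (a * N ^ w + 1) ^ w := by positivity
  calc a * (N * (a * N ^ w + 1)) ^ w = a * N ^ w * (a * N ^ w + 1) ^ w := by rw [mul_pow, mul_assoc]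
    _ < (a * N ^ w + 1) * (a * N ^ w + 1) ^ w := Nat.mul_lt_mul_of_pos_right (by omega) h0
    _ = (a * N ^ w + 1) ^ (w + 1) := by rw [pow_succ']
    _ ≤ (a * N ^ w + 1 + 1) ^ (w + 1) := Nat.pow_le_pow_left (by omega) _

theorem expo {ε : ℝ} (hε : 0 < ε) (e w N m : ℕ) (hm : 0 < m) (hN : 2 * w * (e + w + 1) / ε < (N : ℝ)) :
    ∃ t : ℝ, 0 < t ∧ t * (m * (e + w) : ℕ) < ε ∧ ((2 * w : ℕ) : ℝ) < t * (2 * (N * m) : ℕ) := by
  have m0 : (0 : ℝ) < m := by exact_mod_cast hm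
  have s0 : (0 : ℝ) < e + w + 1 := by positivity
  rw [div_lt_iff₀ hε] at hN
  refine ⟨ε / (2 * m * (e + w + 1)), by positivity, ?_, ?_⟩
  · rw [div_mul_eq_mul_div, div_lt_iff₀ (by positivity)]
    push_cast
    have h1 : (m : ℝ) * (e + w) < 2 * m * (e + w + 1) := by nlinarith
    exact mul_lt_mul_of_pos_left h1 hε
  · rw [div_mul_eq_mul_div, lt_div_iff₀ (by positivity)]
    push_cast
    have h1 := mul_lt_mul_of_pos_left hN (by positivity : (0 : ℝ) < 2 * m)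
    nlinarith

end CCA

theorem cCA (hHOM : St_HOM) (hSPH : St_SPH) (hMIN : St_MIN) (hNRM : St_NRM) (hDEN : St_DEN)
    (hLOC : St_LOC) (hHI : St_HI) : St_CA := by
  intro ι κ _ _ Z W _ K x ε ν e₀ e w y hZ hW hy he
  obtain ⟨M1, M2, irr, p₀, hp₀⟩ := hMIN ι κ Z W K x ε ν e₀ hZ hW
  obtain ⟨-, -, ⟨i, j, hij⟩, -⟩ := hSPH.bc p₀
  have nv : ¬ Van W (X (i, j)) := fun h => hij (by simpa [sg] using h _ hp₀)
  obtain ⟨d, Q, Q0, Qh, hQ⟩ := hNRM _ W w y 1 (X (i, j)) hW.cone irr hy (isHomogeneous_X ℂ _) nv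
  obtain ⟨P, Ph, hP⟩ := hHOM.lin y (1 + d) (X 0 * Q) ((isHomogeneous_X ℂ 0).mul Qh)
  have nP : ¬ Van W P := fun h =>
    mul_ne_zero (X_ne_zero 0) Q0 (hy.ind _ fun z hz => (hP z).symm.trans (h z hz))
  have ae : ∀ᵐ p ∂(ν : Measure (Sph Z)),
      sg p.1 ∈ W ∧ y (sg p.1) 0 ≠ 0 ∧ eval (y (sg p.1)) Q ≠ 0 := by
    have a1 : ∀ᵐ p ∂(ν : Measure (Sph Z)), sg p.1 ∈ W := hW.nul
    have a2 : ∀ᵐ p ∂(ν : Measure (Sph Z)), ¬ eval (sg p.1) P = 0 := by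
      rw [ae_iff]
      simpa only [not_not] using M2 _ P Ph nP
    filter_upwards [a1, a2] with p h1 h2
    rw [hP, map_mul, eval_X] at h2
    exact ⟨h1, mul_ne_zero_iff.1 h2⟩
  obtain ⟨Y, hY, c, hc, hd⟩ := hDEN ι κ Z W w y ν d Q Qh ae (hHOM.closed hW.cone)
  obtain ⟨e', hH⟩ := hHI ι κ Z W w y i j hZ.cone hW.cone hy
  obtain ⟨N, hN⟩ := exists_nat_gt (2 * w * (e + w + 1) / ε : ℝ)
  refine ⟨e' * N ^ w + 1, fun q s s' hs hs' => by_contra fun hR => ?_⟩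
  obtain ⟨S, k, A, C, hS, nS, hA, hb⟩ := hH Y _ _ q e s s' hs hs' hR (CCA.count e' N w)
  obtain ⟨C', hC', hl⟩ := hLOC ι κ Z W w y i j _ _ k _ S A Q Y C hW.cone hy hA
    (fun h hh h0 => hQ h hh (by rw [eval_X, h0])) hY hb
  obtain ⟨t, t0, t1, t2⟩ := CCA.expo hW.e0 e w N (e' * N ^ w + 1) (Nat.succ_pos _) hN
  refine M1 _ _ S t hS (Or.inr ?_) nS t0 t1 ?_
  · exact he.trans ((Nat.le_add_right e w).trans (Nat.le_mul_of_pos_left _ (Nat.succ_pos _)))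
  · refine blow_of_dens (continuous_normSq.comp (hSPH.cont hS)) (fun p => normSq_nonneg _) t0.le _
      hc hC' t2 ?_
    filter_upwards [hd, hl] with r h1 h2
    exact h1.trans (measureReal_mono fun p hp => h2 p hp.1 hp.2.1 hp.2.2)

end Pool.Agent.Lib.NV6
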