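import Pool.Agent.Lib.NV6.CBlue

/-! Project NV6, block C: the second case. -/

open scoped Classical Topology ENNReal
open Set MeasureTheory Complex Filter MvPolynomial

noncomputable section

namespace Pool.Agent.Lib.NV6

theorem CCB.bd {Y : Type} [TopologicalSpace Y] [CompactSpace Y] {f : Y → ℝ} (hf : Continuous f) :
    ∃ B, ∀ p, f p ≤ B :=
  (isCompact_range hf).bddAbove.imp fun _ h p => h (mem_range_self p)

theorem cCB (hSPH : St_SPH) (hADM : St_ADM) (hMIN : St_MIN) (hUNI : St_UNI) (hPIG : St_PIG)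
    (hSEQ : St_SEQ) (hSTAR : St_STAR) (hPOW : St_POW) (hTEL : St_TEL) : St_CB := by
  intro ι κ _ _ Z W _ K x ε ν e₀ w m y hZ hW hy h
  obtain ⟨m1, m2, m3, m4⟩ := hMIN ι κ Z W K x ε ν e₀ hZ hW
  obtain ⟨d, α, s, P, P', hα, hs⟩ := hSEQ ι κ Z W e₀ w m y hZ hW.cone hW.sub m3 hy m4 h
  choose N hN using fun k : ℕ => hZ.gen (2 ^ k) (by positivity)
  have hε := hW.e0
  obtain ⟨t, t0, ht⟩ : ∃ t : ℝ, 0 < t ∧ t * (d + e₀ + 1) = ε :=
    ⟨ε / (d + e₀ + 1), by positivity, by field_simp⟩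
  have d0 : 0 ≤ t * d := by positivity
  have d1 : 0 ≤ t * e₀ := by positivity
  obtain ⟨C, hC⟩ := hUNI ι κ Z W K x ε t ν (d + e₀) hW t0 (by push_cast; linarith)
  obtain ⟨C', hC'⟩ := hUNI ι κ Z W K x ε t ν d hW t0 (by linarith)
  have pw : ∀ (g : Sph Z → ℝ) (c : ℝ), Continuous g → (∀ p, 0 ≤ g p) →
      (∀ η > (0 : ℝ), ∫ p, (g p + η) ^ (-t) ∂(ν : Measure (Sph Z)) ≤ c) →
      (∀ᵐ p ∂(ν : Measure (Sph Z)), 0 < g p) ∧ Mo (ν : Measure (Sph Z)) (fun p => g p ^ (-t)) c ∧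
        Integrable (fun p => Real.log (g p)) (ν : Measure (Sph Z)) := fun g c h1 h2 h3 => by
    obtain ⟨B, hB⟩ := CCB.bd h1
    exact hPOW _ _ g t c B h1.measurable (fun p => ⟨h2 p, hB p⟩) t0 h3
  have cs : ∀ k, Continuous fun p : Sph Z => normSq (s k p.1) := fun k =>
    continuous_normSq.comp (hSPH.cont (hs k).1)
  have p1 := fun k => pw (fm Z (P k)) (max C C') (hSPH.cfm _) (fun _ => normSq_nonneg _)
    fun η hη => (hC _ (hs k).2.2.1 η hη).trans (le_max_left _ _)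
  have p2 := fun k => pw (fm Z (P' k)) (max C C') (hSPH.cfm _) (fun _ => normSq_nonneg _)
    fun η hη => (hC' _ (hs k).2.2.2.1 η hη).trans (le_max_right _ _)
  have p3 : ∀ k, (∀ᵐ p ∂(ν : Measure (Sph Z)), 0 < normSq (s k p.1)) ∧
      Integrable (fun p : Sph Z => Real.log (normSq (s k p.1))) (ν : Measure (Sph Z)) := fun k => by
    have h1 := m1 _ _ _ t (hs k).1 (Or.inr le_rfl) (hs k).2.1 t0 (by linarith)
    obtain ⟨R, hR⟩ := not_forall.1 h1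
    have h2 := pw _ R (cs k) (fun _ => normSq_nonneg _) fun η hη =>
      (not_le.1 fun c => hR ⟨η, hη, c⟩).le
    exact ⟨h2.1, h2.2.2⟩
  have aW : ∀ᵐ p ∂(ν : Measure (Sph Z)), sg p.1 ∈ W := hW.nul
  have aα : ∀ᵐ p ∂(ν : Measure (Sph Z)), sg p.1 α ≠ 0 := by
    have := m2 1 _ (isHomogeneous_X ℂ α) hα
    simp only [eval_X] at this
    simpa only [ae_iff, not_not] using this
  refine hTEL _ _ t (max C C') K x (fun k p => normSq (s k p.1)) (fun k => fm Z (P k))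
    (fun k => fm Z (P' k)) N ⟨t0, fun k => ⟨(cs k).measurable, (hSPH.cfm _).measurable,
      (hSPH.cfm _).measurable⟩, fun k => ?_, fun k => ?_, fun k => ⟨(p1 k).2.1, (p2 k).2.1⟩,
      fun k => CCB.bd (cs k), fun k => (p3 k).2⟩
    (hPIG ι κ Z W _ _ P hW.cone hW.nul fun k => (hs k).2.2.1)
    (hPIG ι κ Z W _ _ P' hW.cone hW.nul fun k => (hs k).2.2.2.1) hW.x0 (fun j => ?_)
    (hSTAR ι κ Z K x ε _ e₀ d s P' N hW.good hW.x0 hε
      fun k => ⟨(hs k).1, (hs k).2.2.2.1.hom, hN k⟩)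
  · filter_upwards [(p1 k).1, (p2 k).1, (p3 k).1, aW] with p a b c e
    exact ⟨c, a, (hs k).2.2.1.le p e, b, (hs k).2.2.2.1.le p e⟩
  · filter_upwards [aW, aα] with p a b
    exact (hs k).2.2.2.2 p a b
  · obtain ⟨h1, h2⟩ := hADM.cont (hN j).1
    obtain ⟨B, hB⟩ := CCB.bd h1
    exact ⟨h1.measurable, B, fun p => ⟨h2 p, hB p⟩⟩

end Pool.Agent.Lib.NV6
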