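import Pool.Agent.Lib.NV6.CBlue

/-! Project NV6, block C: a compact set of representatives. -/

open scoped Classical Topology
open Set Complex Metric MvPolynomial

noncomputable section

namespace Pool.Agent.Lib.NV6

theorem CCPT.one {K : Type} [TopologicalSpace K] [CompactSpace K] (f : C(K, ℂ)) :
    ‖f‖ = 1 ↔ (∀ p, normSq (f p) ≤ 1) ∧ ∃ p, normSq (f p) = 1 := by
  simp only [normSq_eq_norm_sq, sq_le_one_iff₀ (norm_nonneg _), pow_eq_one_iff_of_nonneg (norm_nonneg _)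
    two_ne_zero]
  refine ⟨fun h => ⟨fun p => h ▸ f.norm_coe_le_norm p, ?_⟩, fun ⟨h, p, hp⟩ =>
    le_antisymm ((f.norm_le zero_le_one).2 h) (hp ▸ f.norm_coe_le_norm p)⟩
  by_contra h'
  exact ((f.norm_lt_iff one_pos).2 fun p =>
    lt_of_le_of_ne (h ▸ f.norm_coe_le_norm p) fun e => h' ⟨p, e⟩).ne h

theorem cCPT (hHOM : St_HOM) (hSPH : St_SPH) : St_CPT := by
  intro ι κ _ _ Z W _ d hW
  have : CompactSpace {p : Sph Z | sg p.1 ∈ W} :=
    isCompact_iff_compactSpace.1 ((hHOM.closed hW).preimage hSPH.csg).isCompact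
  let ρ : MvPolynomial (ι × κ) ℂ →ₗ[ℂ] C({p : Sph Z | sg p.1 ∈ W}, ℂ) :=
    { toFun := fun P => ⟨fun p => eval (sg p.1.1) P,
        (continuous_eval P).comp (hSPH.csg.comp continuous_subtype_val)⟩
      map_add' := fun P Q => by ext p; simp
      map_smul' := fun c P => by ext p; simp }
  have hU : ∀ P : MvPolynomial (ι × κ) ℂ, P.IsHomogeneous d → (Un Z W d P ↔ ‖ρ P‖ = 1) := fun P hP => by
    rw [CCPT.one]
    exact ⟨fun h => ⟨fun p => h.le p.1 p.2, h.ex.elim fun p hp => ⟨⟨p, hp.1⟩, hp.2⟩⟩,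
      fun h => ⟨hP, fun p hp => h.1 ⟨p, hp⟩, h.2.elim fun p hp => ⟨p.1, p.2, hp⟩⟩⟩
  have : FiniteDimensional ℂ (homogeneousSubmodule (ι × κ) ℂ d) :=
    Submodule.finiteDimensional_of_le (S₂ := restrictTotalDegree (ι × κ) ℂ d) fun P hP =>
      (mem_restrictTotalDegree _ _ _).2 (IsHomogeneous.totalDegree_le hP)
  let b := Module.finBasis ℂ ((homogeneousSubmodule (ι × κ) ℂ d).map ρ)
  choose B hB hb using fun l => Submodule.mem_map.1 (b l).2
  let L := ((homogeneousSubmodule (ι × κ) ℂ d).map ρ).subtype ∘ₗ b.equivFun.symm.toLinearMap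
  have hL : ∀ c, L c = ρ (∑ l, c l • B l) := fun c => by simp [L, hb]
  have hh : ∀ c : _ → ℂ, (∑ l, c l • B l).IsHomogeneous d := fun c =>
    (homogeneousSubmodule (ι × κ) ℂ d).sum_mem fun l _ => Submodule.smul_mem _ _ (hB l)
  obtain ⟨C, -, hC⟩ := L.exists_antilipschitzWith (LinearMap.ker_eq_bot.2
    (Subtype.val_injective.comp b.equivFun.symm.injective))
  refine ⟨_, B, L ⁻¹' sphere 0 1, isCompact_of_isClosed_isBounded
    (isClosed_sphere.preimage L.continuous_of_finiteDimensional) (hC.isBounded_preimage isBounded_sphere),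
    fun c hc => (hU _ (hh c)).2 (by rw [← hL]; simpa using hc), fun P hP => ?_⟩
  have e : L (b.equivFun ⟨ρ P, P, hP.hom, rfl⟩) = ρ P := by
    simp only [L, LinearMap.comp_apply, LinearEquiv.coe_coe, LinearEquiv.symm_apply_apply]
    rfl
  refine ⟨b.equivFun ⟨ρ P, P, hP.hom, rfl⟩, ?_, fun p hp => ?_⟩
  · rw [mem_preimage, e, mem_sphere_zero_iff_norm]
    exact (hU P hP.hom).1 hP
  · exact congrArg (fun f : C({p : Sph Z | sg p.1 ∈ W}, ℂ) => normSq (f ⟨p, hp⟩)) (e.symm.trans (hL _))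

end Pool.Agent.Lib.NV6
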