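import Pool.Agent.Lib.NV6.CBlue
import Pool.Agent.Lib.S3K.Dir

/-! Project NV6, block C: a point of density. -/

open scoped Classical Topology ENNReal
open Set MeasureTheory Complex Metric Filter MvPolynomial

set_option linter.unusedVariables false

noncomputable section

namespace Pool.Agent.Lib.NV6

namespace CDEN

theorem pt {Ω : Type} [MeasurableSpace Ω] (ν : Measure Ω) [IsProbabilityMeasure ν] {w : ℕ}
    {f : Ω → Fin w → ℂ} (hf : Measurable f) {A : Ω → Prop} (h : ∀ᵐ p ∂ν, A p) :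
    ∃ p, A p ∧ ∃ c > (0 : ℝ), ∀ᶠ r in 𝓝[>] (0 : ℝ),
      c * r ^ (2 * w) ≤ ν.real {x | A x ∧ ‖f x - f p‖ ≤ r} := by
  obtain ⟨p, p1, c, c0, hc⟩ := (h.and (ae_of_ae_map hf.aemeasurable (S3K.dens (ν.map f)))).exists
  refine ⟨p, p1, c, c0, hc.mono fun r hr => ?_⟩
  have e : Module.finrank ℝ (Fin w → ℂ) = 2 * w := by
    rw [Module.finrank_pi_fintype]
    simp [mul_comm]
  rw [e, map_measureReal_apply hf measurableSet_closedBall] at hr
  exact hr.trans (ENNReal.toReal_mono (measure_ne_top _ _)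
    (measure_mono_ae (h.mono fun x hx hb => ⟨hx, mem_closedBall_iff_norm.1 hb⟩)))

end CDEN

theorem cDEN (hH : St_HOM) (hS : St_SPH) : St_DEN := by
  intro ι κ _ _ Z W w y ν d Q hQ h hW
  have c1 : Continuous fun p : Sph Z => y (sg p.1) := y.continuous_of_finiteDimensional.comp hS.csg
  have hf : Measurable fun p : Sph Z => af y (sg p.1) := measurable_pi_lambda _ fun k =>
    ((continuous_apply k.succ).comp c1).measurable.div ((continuous_apply 0).comp c1).measurable
  obtain ⟨p, ⟨-, p2, p3⟩, c, c0, hc⟩ := CDEN.pt (ν : Measure (Sph Z)) hf h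
  refine ⟨af y (sg p.1), ?_, c, c0, hc.mono fun r hr => hr.trans (measureReal_mono
    (fun x hx => ⟨hx.1.1, hx.1.2.1, hx.2⟩) (measure_ne_top _ _))⟩
  have e : (Fin.cons 1 (af y (sg p.1)) : Fin (w + 1) → ℂ) = (y (sg p.1) 0)⁻¹ • y (sg p.1) := by
    funext i
    refine Fin.cases ?_ (fun i => ?_) i
    · simp [p2]
    · simp [af, div_eq_inv_mul]
  rw [e, hH.smul _ _ hQ]
  exact mul_ne_zero (pow_ne_zero _ (inv_ne_zero p2)) p3

end Pool.Agent.Lib.NV6
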