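import Pool.Agent.Lib.NV6.CBlue

/-! Block C: sections on the closure of a set of points. -/

open scoped Classical
open Set Complex MvPolynomial

noncomputable section

namespace Pool.Agent.Lib.NV6

open Pool.Agent.Lib.SV (nsq)

namespace CEXT

variable {ι κ O : Type} [Fintype ι] [Fintype κ]

/-- An identity between forms passes from the points to the closure. -/
theorem pass (H : St_HOM) {σ : Type} (g : O → σ → ℂ) {d : ℕ} {P Q : MvPolynomial σ ℂ}
    (hP : P.IsHomogeneous d) (hQ : Q.IsHomogeneous d) (e : ∀ x, eval (g x) P = eval (g x) Q)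
    {h : σ → ℂ} (hh : h ∈ Clo g) : eval h P = eval h Q := by
  have := (H.clo g).2.2 d (P - Q) (hP.sub hQ) (fun x => by rw [map_sub, e x, sub_self]) h hh
  rwa [map_sub, sub_eq_zero] at this

omit [Fintype ι] [Fintype κ] in
theorem rk (H : St_HOM) (a : O → ι → ℂ) (b : O → κ → ℂ) {h : ι × κ → ℂ}
    (hh : h ∈ Clo fun x => sg (a x, b x)) : ∃ x, h = sg x := by
  by_cases h0 : h = 0
  · exact ⟨(0, 0), by funext p; simp [h0, sg]⟩
  obtain ⟨p₀, hp⟩ := Function.ne_iff.1 h0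
  refine ⟨(fun i => h (i, p₀.2), fun j => h (p₀.1, j) / h p₀), funext fun p => ?_⟩
  have := pass H (fun x => sg (a x, b x)) (P := X p * X p₀) (Q := X (p.1, p₀.2) * X (p₀.1, p.2))
    ((isHomogeneous_X _ _).mul (isHomogeneous_X _ _))
    ((isHomogeneous_X _ _).mul (isHomogeneous_X _ _))
    (fun x => by simp only [map_mul, eval_X, sg]; ring) hh
  simp only [map_mul, eval_X] at this
  have h1 : h p₀ ≠ 0 := hp
  simp only [sg]
  rw [← mul_div_assoc, ← this, mul_div_cancel_right₀ _ h1]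

omit [Fintype ι] [Fintype κ] in
theorem ex_ne {x : (ι → ℂ) × (κ → ℂ)} (h1 : x.1 ≠ 0) (h2 : x.2 ≠ 0) :
    ∃ p : ι × κ, x.1 p.1 ≠ 0 ∧ x.2 p.2 ≠ 0 := by
  obtain ⟨i, hi⟩ := Function.ne_iff.1 h1
  obtain ⟨j, hj⟩ := Function.ne_iff.1 h2
  exact ⟨(i, j), hi, hj⟩

/-- The extension of one section. -/
theorem one (H : St_HOM) (a : O → ι → ℂ) (b : O → κ → ℂ) {q e : ℕ} (u : O → ℂ)
    (k : ι → κ → ℕ) (A : ι → κ → MvPolynomial (ι × κ) ℂ)
    (hA : ∀ i j, (A i j).IsHomogeneous (e + q + k i j))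
    (hu : ∀ i j x, u x * b x j ^ (2 * q) * (a x i * b x j) ^ k i j = eval (sg (a x, b x)) (A i j)) :
    ∃ S : Fn ι κ, ∀ i j, Ch (Clo fun x => sg (a x, b x)) i j q e (k i j) S (A i j) := by
  refine ⟨fun x => if hx : ∃ p : ι × κ, x.1 p.1 ≠ 0 ∧ x.2 p.2 ≠ 0 then
    eval (sg x) (A hx.choose.1 hx.choose.2) / (x.2 hx.choose.2 ^ (2 * q) *
      (x.1 hx.choose.1 * x.2 hx.choose.2) ^ k hx.choose.1 hx.choose.2) else 0,
    fun i j => ⟨hA i j, fun x hx => ?_⟩⟩
  have he := ex_ne hx.2.1 hx.2.2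
  simp only [dif_pos he]
  obtain ⟨h1, h2⟩ := he.choose_spec
  generalize he.choose.1 = i₁ at h1 ⊢
  generalize he.choose.2 = j₁ at h2 ⊢
  have d1 : (A i₁ j₁ * (X (i₁, j) ^ (2 * q) * X (i, j) ^ k i j)).IsHomogeneous
      (e + q + k i₁ j₁ + (2 * q + k i j)) :=
    (hA i₁ j₁).mul ((isHomogeneous_X_pow _ _).mul (isHomogeneous_X_pow _ _))
  have d2 : (A i j * X (i₁, j₁) ^ (2 * q + k i₁ j₁)).IsHomogeneous
      (e + q + k i₁ j₁ + (2 * q + k i j)) := by
    rw [show e + q + k i₁ j₁ + (2 * q + k i j) = e + q + k i j + (2 * q + k i₁ j₁) by ring]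
    exact (hA i j).mul (isHomogeneous_X_pow _ _)
  have := pass H (fun x => sg (a x, b x)) d1 d2 (fun x => by
    simp only [map_mul, map_pow, eval_X, ← hu]
    simp only [sg]
    ring) hx.1
  simp only [map_mul, map_pow, eval_X] at this
  rw [div_mul_eq_mul_div, div_mul_eq_mul_div,
    div_eq_iff (mul_ne_zero (pow_ne_zero _ h2) (pow_ne_zero _ (mul_ne_zero h1 h2)))]
  refine mul_left_cancel₀ (pow_ne_zero (2 * q) h1) ?_
  simp only [sg] at this ⊢
  linear_combination this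

end CEXT

theorem cEXT (H : St_HOM) : St_EXT := by
  intro ι κ O _ _ a b e₀ _ _ hq
  refine ⟨(H.clo _).1, fun h hh => CEXT.rk H a b hh, fun q q0 => ?_⟩
  obtain ⟨r, u, h1, h2⟩ := hq q q0
  choose k A hA hu using h1
  choose S hS using fun l => CEXT.one H a b (u l) (k l) (A l) (hA l) (hu l)
  refine ⟨fun p => ∑ l, normSq (S l p.1), ⟨r, S, fun l i j => ⟨_, _, hS l i j⟩, fun _ => rfl⟩,
    fun p => ?_⟩
  have n1 : p.1.1 ≠ 0 := fun h => by simpa [h, nsq] using p.2.2.1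
  have n2 : p.1.2 ≠ 0 := fun h => by simpa [h, nsq] using p.2.2.2
  obtain ⟨⟨i, j⟩, hi, hj⟩ := CEXT.ex_ne n1 n2
  refine lt_of_le_of_ne (Finset.sum_nonneg fun _ _ => normSq_nonneg _) fun h0 => ?_
  have hz : ∀ l, eval (sg p.1) (A l i j) = 0 := fun l => by
    have := (Finset.sum_eq_zero_iff_of_nonneg fun _ _ => normSq_nonneg _).1 h0.symm l
      (Finset.mem_univ l)
    rw [← (hS l i j).2 p.1 ⟨p.2.1, n1, n2⟩, normSq_eq_zero.1 this, zero_mul, zero_mul]
  obtain ⟨k', R, hR, hid⟩ := h2 i j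
  have hc : ∀ l, ∃ c, ∑ l, k l i j = k l i j + c := fun l => Nat.exists_eq_add_of_le
    (Finset.single_le_sum (f := fun l => k l i j) (fun _ _ => Nat.zero_le _) (Finset.mem_univ l))
  choose c hc using hc
  generalize ∑ l, k l i j = K at hc
  have d2 : (∑ l, R l * A l i j * X (i, j) ^ c l).IsHomogeneous (2 * q + (e₀ + k') + K) := by
    refine IsHomogeneous.sum _ _ _ fun l _ => ?_
    rw [show 2 * q + (e₀ + k') + K = q + k' + (e₀ + q + k l i j) + c l by rw [hc l]; ring]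
    exact ((hR l).mul (hA l i j)).mul (isHomogeneous_X_pow _ _)
  have := CEXT.pass H (fun x => sg (a x, b x)) (isHomogeneous_X_pow (i, j) _) d2 (fun x => by
    have e : ∀ l, eval (sg (a x, b x)) (R l * A l i j * X (i, j) ^ c l) =
        eval (sg (a x, b x)) (R l) * u l x * (b x j ^ (2 * q) * (a x i * b x j) ^ K) := fun l => by
      rw [map_mul, map_mul, map_pow, eval_X, ← hu, hc l]
      simp only [sg]
      ring
    rw [map_sum, Finset.sum_congr rfl fun l _ => e l, ← Finset.sum_mul, ← hid, map_pow, eval_X]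
    simp only [sg]
    ring) p.2.1
  simp only [map_sum, map_mul, map_pow, eval_X, hz, mul_zero, zero_mul,
    Finset.sum_const_zero] at this
  exact pow_ne_zero _ (mul_ne_zero hi hj) this

end Pool.Agent.Lib.NV6
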