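import Pool.Agent.Lib.NV6.CBlue

/-! Project NV6, block C: good measures are stable under tilting and under limits. -/

open scoped Classical Topology ENNReal
open Set MeasureTheory Complex Metric Filter MvPolynomial

noncomputable section

namespace Pool.Agent.Lib.NV6

open Pool.Agent.Lib.S3K

theorem cGD (hSPH : St_SPH) (hADM : St_ADM) : St_GD := by
  intro ι κ _ _ Z _ K x ε
  refine ⟨fun ν y c β hG hβ q n e θ c' s s' γ β' hn hθ hs hs' hγ hβ' hc => ?_, ?_⟩
  · have hb : Continuous fun p => -β p := (hADM.cadm hβ).1.neg
    have h1 := hADM.plus hβ' hβ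
    rw [show n - (x + y) - θ * q + y = n - x - θ * q by ring] at h1
    have h2 := hG q n e θ _ s s' γ _ hn hθ hs hs' hγ h1 (by linarith)
    have h3 : ∀ (g : Sph Z → ℝ) p, Real.exp (-β p) * (g p * den s s' γ β' θ p) =
        g p * den s s' γ (fun p => β' p + β p) θ p := fun g p => by
      simp only [den, neg_add, Real.exp_add]
      ring
    rw [tl_int hb, tl_int hb, ← mul_div_assoc]
    simp only [h3 (fun p => normSq (s p.1)), h3 fun p => Real.exp (γ p)]
    exact div_le_div_of_nonneg_right h2 (exp_pos' hb ν).le
  · simp only [Good, ofPred_forall]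
    refine isClosed_iInter fun q => isClosed_iInter fun n => isClosed_iInter fun e =>
      isClosed_iInter fun θ => isClosed_iInter fun c => isClosed_iInter fun s =>
      isClosed_iInter fun s' => isClosed_iInter fun γ => isClosed_iInter fun β =>
      isClosed_iInter fun _ => isClosed_iInter fun _ => isClosed_iInter fun hs =>
      isClosed_iInter fun hs' => isClosed_iInter fun hγ => isClosed_iInter fun hβ =>
      isClosed_iInter fun _ => ?_
    have c1 := continuous_normSq.comp (hSPH.cont hs)
    have c2 := Real.continuous_exp.comp (hADM.cadm hγ).1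
    have c3 : Continuous (den s s' γ β θ) :=
      ((continuous_normSq.comp (hSPH.cont hs')).mul ((c1.add c2).rpow_const fun p =>
        Or.inl (add_pos_of_nonneg_of_pos (normSq_nonneg _) (Real.exp_pos _)).ne')).mul
        (Real.continuous_exp.comp (hADM.cadm hβ).1.neg)
    exact isClosed_le (cont_int (c1.mul c3)) (continuous_const.mul (cont_int (c2.mul c3)))

end Pool.Agent.Lib.NV6
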