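import Pool.Agent.Lib.NV6.CBlue

/-! Project NV6, block C, row HI: many independent sections give a zero of high order. -/

open scoped Classical Topology ENNReal
open Set MeasureTheory Complex Metric Filter MvPolynomial

set_option linter.unusedVariables false

noncomputable section

namespace Pool.Agent.Lib.NV6

namespace CHI

/-- The exponent of the monomial attached to `a`. -/
def ex {w m : ℕ} (a : Fin w → Fin (m + 1)) : Fin (w + 1) →₀ ℕ :=
  Finsupp.equivFunOnFinite.symm (Fin.cons (w * m - ∑ k, (a k : ℕ)) fun k => (a k : ℕ))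

theorem ex_inj {w m : ℕ} {a b : Fin w → Fin (m + 1)} (h : ex a = ex b) : a = b := by
  funext k
  have h1 := congrArg (fun f : Fin (w + 1) →₀ ℕ => f k.succ) h
  simp only [ex, Finsupp.coe_equivFunOnFinite_symm, Fin.cons_succ] at h1
  exact Fin.ext h1

theorem ex_deg {w m : ℕ} (a : Fin w → Fin (m + 1)) : (ex a).degree = w * m := by
  have h1 : ∑ k, (a k : ℕ) ≤ w * m := by
    calc ∑ k, (a k : ℕ) ≤ ∑ _k : Fin w, m :=
          Finset.sum_le_sum fun k _ => Nat.lt_succ_iff.mp (a k).2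
      _ = w * m := by simp
  rw [Finsupp.degree_eq_sum, Fin.sum_univ_succ]
  simp only [ex, Finsupp.coe_equivFunOnFinite_symm, Fin.cons_succ, Fin.cons_zero]
  omega

theorem fam_ne {w m : ℕ} (c : Fin (m + 1) × (Fin w → Fin (m + 1)) → ℂ) (hc : c ≠ 0) :
    (fun l : Fin (m + 1) => ∑ a, (monomial (ex a) (c (l, a)) : MvPolynomial (Fin (w + 1)) ℂ))
      ≠ 0 := by
  intro h
  apply hc
  funext τ
  have h1 := congrArg (coeff (ex τ.2)) (congrFun h τ.1)
  simp only [coeff_sum, coeff_monomial, Pi.zero_apply, coeff_zero] at h1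
  rw [Finset.sum_eq_single τ.2 (fun b _ hb => if_neg fun hh => hb (ex_inj hh))
    (fun hh => (hh (Finset.mem_univ _)).elim), if_pos rfl] at h1
  exact h1

theorem van_bc (hSEC : St_SEC) (hSPH : St_SPH) {ι κ : Type} [Fintype ι] [Fintype κ]
    {Z W : Set (ι × κ → ℂ)} (hZ : Cone Z) (hW : Cone W) {q e : ℕ} {S : Fn ι κ}
    (hS : Sec Z q e S) (hN : ¬ Nv Z W S) : ∀ x ∈ Bc Z, sg x ∈ W → S x = 0 := by
  intro x hx hxW
  obtain ⟨p, c, c', hc, hc', -, -, hp⟩ := hSPH.unit hZ x hx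
  have h1 : (c : ℂ) ≠ 0 := by exact_mod_cast hc.ne'
  have h2 : (c' : ℂ) ≠ 0 := by exact_mod_cast hc'.ne'
  have h3 : sg p.1 = ((c : ℂ) * c')⁻¹ • sg x := by
    funext z
    rw [hp]
    simp only [sg, Pi.smul_apply, smul_eq_mul]
    field_simp
  have h4 : S p.1 = 0 := by
    by_contra h
    exact hN ⟨p, by rw [h3]; exact hW.smul _ _ hxW, h⟩
  have h5 := (hSEC.hom hZ hS p.1 (hSPH.bc p).1 c c' h1 h2).2
  rw [← hp, h4, mul_zero] at h5
  exact (mul_eq_zero.mp h5).resolve_right (pow_ne_zero _ h2)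

end CHI

open CHI in
theorem cHI (hHOM : St_HOM) (hSEC : St_SEC) (hSPH : St_SPH) (hJET : St_JET) : St_HI := by
  intro ι κ _ _ Z W w y i j hZ hW hy
  obtain ⟨e', he'⟩ := hJET _ W w y hy
  refine ⟨e', fun Y m n q e s s' hs hs' hR hcard => ?_⟩
  have hP : ∀ a : Fin w → Fin (m + 1), ∃ P : MvPolynomial (ι × κ) ℂ, P.IsHomogeneous (w * m) ∧
      ∀ h, eval h P = eval (y h) (monomial (ex a) (1 : ℂ)) := fun a =>
    hHOM.lin y _ _ (isHomogeneous_monomial _ (ex_deg a))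
  choose P hP1 hP2 using hP
  obtain ⟨F, hF⟩ : ∃ F : Fin (m + 1) × (Fin w → Fin (m + 1)) → Fn ι κ, ∀ τ x,
      F τ x = eval (sg x) (P τ.2) * (s x ^ (m - τ.1) * s' x ^ (τ.1 : ℕ)) := ⟨_, fun _ _ => rfl⟩
  have hFs : ∀ τ, Sec Z (m * q) (m * (e + w)) (F τ) := by
    intro τ
    have h1 := hSEC.mul (hSEC.form (Z := Z) (hP1 τ.2))
      (hSEC.mul (hSEC.pow (m - τ.1) hs) (hSEC.pow (τ.1 : ℕ) hs'))
    have h2 : (m - τ.1) + (τ.1 : ℕ) = m := Nat.sub_add_cancel (Nat.lt_succ_iff.mp τ.1.2)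
    have h3 : 0 + ((m - τ.1) * q + (τ.1 : ℕ) * q) = m * q := by
      rw [zero_add, ← add_mul, h2]
    have h4 : w * m + ((m - τ.1) * e + (τ.1 : ℕ) * e) = m * (e + w) := by
      rw [← add_mul, h2]; ring
    rw [h3, h4] at h1
    rw [show F τ = _ from funext (hF τ)]
    exact h1
  have hC : ∀ τ, ∃ k A, Ch Z i j (m * q) (m * (e + w)) k (F τ) A := fun τ => hFs τ i j
  choose k A hA using hC
  have hB : ∀ τ, Ch Z i j (m * q) (m * (e + w)) (Finset.univ.sup k) (F τ)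
      (A τ * X (i, j) ^ (Finset.univ.sup k - k τ)) := by
    intro τ
    have h1 := hSEC.up (Finset.univ.sup k - k τ) (hA τ)
    rwa [Nat.add_sub_cancel' (Finset.le_sup (f := k) (Finset.mem_univ τ))] at h1
  obtain ⟨c, hc, C, hb⟩ := he' Y n _ (fun τ => A τ * X (i, j) ^ (Finset.univ.sup k - k τ))
    (by simpa [pow_succ'] using hcard)
  have hS : Sec Z (m * q) (m * (e + w)) fun x => ∑ τ, c τ * F τ x :=
    hSEC.sum (S := fun τ x => c τ * F τ x) fun τ => hSEC.smul (c τ) (hFs τ)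
  refine ⟨fun x => ∑ τ, c τ * F τ x, Finset.univ.sup k,
    ∑ τ, MvPolynomial.C (c τ) * (A τ * X (i, j) ^ (Finset.univ.sup k - k τ)), C, hS, ?_,
    ⟨?_, fun x hx => ?_⟩, fun h hh h0 h1 => ?_⟩
  · by_contra hN
    refine hR ⟨fun l => ∑ a, monomial (ex a) (c (l, a)), fam_ne c hc, fun l => ?_,
      fun x hx hxW => ?_⟩
    · exact IsHomogeneous.sum _ _ _ fun a _ => isHomogeneous_monomial _ (ex_deg a)
    · have h1 := van_bc hSEC hSPH hZ hW hS hN x hx hxW
      rw [← h1, Fintype.sum_prod_type]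
      refine Finset.sum_congr rfl fun l _ => ?_
      rw [map_sum, Finset.sum_mul]
      refine Finset.sum_congr rfl fun a _ => ?_
      rw [hF, hP2, eval_monomial, eval_monomial]
      ring
  · exact IsHomogeneous.sum _ _ _ fun τ _ => (hB τ).1.C_mul _
  · rw [map_sum, Finset.sum_mul, Finset.sum_mul]
    refine Finset.sum_congr rfl fun τ _ => ?_
    rw [map_mul, eval_C, ← (hB τ).2 x hx]
    ring
  · have h2 := hb h hh h0 h1
    rw [map_sum]
    simp only [map_mul, eval_C] at h2 ⊢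
    exact h2

end Pool.Agent.Lib.NV6
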