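import Pool.Agent.Lib.NV6.CBlue

/-! Project NV6, block C, row IND: Noetherian induction. -/

open scoped Classical Topology ENNReal
open Set MeasureTheory Complex Metric Filter MvPolynomial

set_option linter.unusedVariables false

noncomputable section

namespace Pool.Agent.Lib.NV6

namespace CIND

/-- The ideal of the polynomials that vanish on `W`. -/
def vI {σ : Type} (W : Set (σ → ℂ)) : Ideal (MvPolynomial σ ℂ) where
  carrier := {P | Van W P}
  add_mem' := fun {P P'} hP hP' h hh => by rw [map_add, hP h hh, hP' h hh, add_zero]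
  zero_mem' := fun h hh => map_zero _
  smul_mem' := fun c P hP h hh => by rw [smul_eq_mul, map_mul, hP h hh, mul_zero]

end CIND

theorem cIND (hHOM : St_HOM) : St_IND := by
  intro ι κ _ _ Z K x ε ν hZ hν
  obtain ⟨I, ⟨W, hW, hWZ, ⟨ν', x', ε', hOn⟩, rfl⟩, hmax⟩ :=
    (wellFounded_gt (α := Ideal (MvPolynomial (ι × κ) ℂ))).has_min
      {I | ∃ W : Set (ι × κ → ℂ), Cone W ∧ W ⊆ Z ∧ (∃ ν' x' ε', On Z K ν' x' ε' W) ∧ I = CIND.vI W}
      ⟨_, Z, hZ, Subset.rfl, ⟨ν, x, ε, hν⟩, rfl⟩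
  refine ⟨W, ν', x', ε', hOn, hW, hWZ, fun d P hP hv ν'' x'' ε'' hOn' => ?_⟩
  refine hmax _ ⟨_, hHOM.cut hW hP, fun h hh => hWZ hh.1, ⟨ν'', x'', ε'', hOn'⟩, rfl⟩ ?_
  refine lt_of_le_of_ne (fun Q hQ h hh => hQ h hh.1) fun e => hv ?_
  have : P ∈ CIND.vI {h | h ∈ W ∧ eval h P = 0} := fun h hh => hh.2
  rw [← e] at this
  exact this

end Pool.Agent.Lib.NV6
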