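import Pool.Agent.Lib.NV6.CBlue
import Pool.Agent.Lib.S3K.Jet

/-! Project NV6, row JET. -/

open MvPolynomial

noncomputable section

namespace Pool.Agent.Lib.NV6

open Pool.Agent.Lib.SV (nsq)

theorem cJET : St_JET := by
  intro σ _ W w y hy
  classical
  let c : Fin (w + 1) → σ → ℂ := fun i s => y (Pi.single s 1) i
  have hc : ∀ h, S3K.lm c h = y h := fun h => funext fun i => by
    rw [S3K.lm_apply, LinearMap.pi_apply_eq_sum_univ y h, Finset.sum_apply]
    refine Finset.sum_congr rfl fun s _ => ?_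
    have : (fun j => if s = j then (1 : ℂ) else 0) = Pi.single s 1 := funext fun j => by
      simp [Pi.single_apply, eq_comm]
    rw [this, Pi.smul_apply, smul_eq_mul, mul_comm]
  obtain ⟨e, he⟩ := S3K.jet (V := W) c (by simpa only [hc] using hy.int)
  refine ⟨e, fun Y k T _ A hT => ?_⟩
  obtain ⟨t, ht, h1⟩ := he k T A Y hT
  obtain ⟨B, hB⟩ := hy.bd
  obtain ⟨C, -, h2⟩ := h1 (Real.sqrt (|B| * ((w + 1) * (‖Y‖ + 1) ^ 2)))
  refine ⟨t, ht, C, fun h hW h0 h3 => ?_⟩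
  have e1 : Fin.tail (y h) = af y h := funext fun i => by simp [af, h0, Fin.tail]
  have h4 : ∀ i, ‖y h i‖ ≤ ‖Y‖ + 1 := fun i => by
    refine Fin.cases ?_ (fun i => ?_) i
    · rw [h0, norm_one]
      linarith [norm_nonneg Y]
    · have h5 : ‖af y h‖ ≤ ‖Y‖ + 1 := by linarith [norm_le_insert' (af y h) Y]
      exact (norm_le_pi_norm (Fin.tail (y h)) i).trans (e1 ▸ h5)
  have h6 : nsq (y h) ≤ (w + 1) * (‖Y‖ + 1) ^ 2 := by
    refine (Finset.sum_le_card_nsmul _ _ ((‖Y‖ + 1) ^ 2) fun i _ => ?_).trans (by simp)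
    rw [Complex.normSq_eq_norm_sq]
    exact pow_le_pow_left₀ (norm_nonneg _) (h4 i) 2
  have h7 : 0 ≤ nsq (y h) := Finset.sum_nonneg fun i _ => Complex.normSq_nonneg _
  have h8 : ‖h‖ ≤ Real.sqrt (|B| * ((w + 1) * (‖Y‖ + 1) ^ 2)) := by
    refine (pi_norm_le_iff_of_nonneg (Real.sqrt_nonneg _)).2 fun s => Real.le_sqrt_of_sq_le ?_
    have h9 : ‖h s‖ ^ 2 ≤ nsq h := by
      rw [← Complex.normSq_eq_norm_sq]
      exact Finset.single_le_sum (f := fun s => Complex.normSq (h s))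
        (fun _ _ => Complex.normSq_nonneg _) (Finset.mem_univ s)
    exact h9.trans ((hB h hW).trans (mul_le_mul (le_abs_self B) h6 h7 (abs_nonneg B)))
  simpa only [hc, e1] using h2 h hW h8 (by rw [hc, h0]) (by rw [hc, e1]; exact h3)

end Pool.Agent.Lib.NV6
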