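import Pool.Agent.Lib.NV6.CBlue

/-! Project NV6, block C: continuity of the logarithm in the mean. -/

open scoped Classical Topology ENNReal
open Set MeasureTheory Filter

noncomputable section

namespace Pool.Agent.Lib.NV6

namespace CLGC

theorem pw {t g : ℝ} (ht : 0 < t) (h0 : 0 < g) (h1 : g ≤ 1) (n : ℕ) :
    (t * -Real.log g) ^ n / n.factorial ≤ g ^ (-t) := by
  rw [Real.rpow_def_of_pos h0, show Real.log g * -t = t * -Real.log g by ring]
  exact Real.pow_div_factorial_le_exp _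
    (mul_nonneg ht.le (neg_nonneg.2 (Real.log_nonpos h0.le h1))) n

theorem pt {t ε : ℝ} (ht : 0 < t) (hε : 0 < ε) : ∃ η > (0 : ℝ), ∀ s g g' : ℝ, 0 < g → g ≤ 1 →
    0 < g' → g' ≤ 1 → |g - g'| ≤ η * s →
    (Real.log g - Real.log g') ^ 2 ≤ s ^ 2 + ε * (g ^ (-t) + g' ^ (-t)) := by
  refine ⟨Real.exp (-(6 / (t ^ 3 * ε))), Real.exp_pos _, ?_⟩
  suffices H : ∀ s g g' : ℝ, 0 < g → g ≤ g' → g' ≤ 1 →
      g' - g ≤ Real.exp (-(6 / (t ^ 3 * ε))) * s →
      (Real.log g' - Real.log g) ^ 2 ≤ s ^ 2 + ε * g ^ (-t) by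
    intro s g g' a b c d h
    have p1 := mul_pos hε (Real.rpow_pos_of_pos a (-t))
    have p2 := mul_pos hε (Real.rpow_pos_of_pos c (-t))
    rcases le_total g g' with k | k
    · have := H s g g' a k d (by linarith [(abs_le.1 h).1])
      nlinarith
    · have := H s g' g c k b (abs_le.1 h).2
      nlinarith
  intro s g g' a k d h
  have c := a.trans_le k
  have l0 : 0 ≤ Real.log g' - Real.log g := sub_nonneg.2 (Real.log_le_log a k)
  have p1 := mul_pos hε (Real.rpow_pos_of_pos a (-t))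
  rcases le_total (Real.exp (-(6 / (t ^ 3 * ε)))) g with m | m
  · have s0 : 0 ≤ s := nonneg_of_mul_nonneg_right (by linarith) (Real.exp_pos _)
    have l1 : Real.log g' - Real.log g ≤ s := by
      rw [← Real.log_div c.ne' a.ne']
      refine (Real.log_le_sub_one_of_pos (div_pos c a)).trans ?_
      rw [sub_le_iff_le_add, div_le_iff₀ a]
      nlinarith [mul_le_mul_of_nonneg_right m s0]
    nlinarith [pow_le_pow_left₀ l0 l1 2]
  · have u1 : 6 / (t ^ 3 * ε) ≤ -Real.log g := by
      have := Real.log_le_log a m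
      rw [Real.log_exp] at this
      linarith
    have u2 := pw ht a (k.trans d) 3
    have u3 : Real.log g' - Real.log g ≤ -Real.log g := by linarith [Real.log_nonpos c.le d]
    obtain ⟨u, hu⟩ : ∃ u, u = -Real.log g := ⟨_, rfl⟩
    rw [← hu] at u1 u2 u3
    rw [div_le_iff₀ (by positivity)] at u1
    rw [div_le_iff₀ (by positivity), show ((3 : ℕ).factorial : ℝ) = 6 by norm_num [Nat.factorial]]
      at u2
    have u4 := mul_le_mul_of_nonneg_left u1 (sq_nonneg u)
    have u5 := mul_le_mul_of_nonneg_left u2 hε.le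
    nlinarith [pow_le_pow_left₀ l0 u3 2, sq_nonneg s]

theorem mo_of_le {Ω : Type} [MeasurableSpace Ω] {ν : Measure Ω} {f F : Ω → ℝ} {B : ℝ}
    (hf : Measurable f) (hF : Mo ν F B) (h : ∀ᵐ p ∂ν, f p ^ 2 ≤ F p) : Mo ν (fun p => f p ^ 2) B := by
  have i : Integrable (fun p => f p ^ 2) ν := hF.1.mono' (hf.pow_const 2).aestronglyMeasurable
    (h.mono fun p hp => by rwa [Real.norm_of_nonneg (sq_nonneg _)])
  exact ⟨i, (integral_mono_ae i hF.1 h).trans hF.2⟩

end CLGC

theorem cLGC : St_LGC := by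
  intro t C ht
  refine ⟨2 / t ^ 2 * C, fun δ hδ => ?_⟩
  have hC : 0 < |C| + 1 := by positivity
  obtain ⟨η, η0, hη⟩ := CLGC.pt (ε := δ / (4 * (|C| + 1))) ht (by positivity)
  refine ⟨η * √(δ / 2), by positivity, fun Ω _ ν _ g g' mg mg' hg h1 h2 => ⟨?_, fun h => ?_⟩⟩
  · refine CLGC.mo_of_le (F := fun p => 2 / t ^ 2 * g p ^ (-t)) mg.log
      ⟨h1.1.const_mul _, ?_⟩ (hg.mono fun p hp => ?_)
    · rw [integral_const_mul]
      exact mul_le_mul_of_nonneg_left h1.2 (by positivity)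
    · have := CLGC.pw ht hp.1 hp.2.1 2
      rw [div_le_iff₀ (by positivity), show ((2 : ℕ).factorial : ℝ) = 2 by norm_num] at this
      rw [div_mul_eq_mul_div, le_div_iff₀ (by positivity)]
      linarith
  · refine CLGC.mo_of_le
      (F := fun p => δ / 2 + δ / (4 * (|C| + 1)) * (g p ^ (-t) + g' p ^ (-t))) (mg.log.sub mg'.log)
      ⟨(integrable_const _).add ((h1.1.add h2.1).const_mul _), ?_⟩ ?_
    · have i : Integrable (fun p => δ / (4 * (|C| + 1)) * (g p ^ (-t) + g' p ^ (-t))) ν :=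
        (h1.1.add h2.1).const_mul _
      rw [integral_add (integrable_const _) i, integral_const_mul,
        integral_add h1.1 h2.1, integral_const, probReal_univ, one_smul]
      have a1 : ∫ p, g p ^ (-t) ∂ν + ∫ p, g' p ^ (-t) ∂ν ≤ 2 * (|C| + 1) := by
        linarith [h1.2, h2.2, le_abs_self C]
      have a2 := mul_le_mul_of_nonneg_left a1 (by positivity : 0 ≤ δ / (4 * (|C| + 1)))
      have a3 : δ / (4 * (|C| + 1)) * (2 * (|C| + 1)) = δ / 2 := by field_simp; ring
      linarith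
    · filter_upwards [hg, h] with p hp hq
      have := hη _ _ _ hp.1 hp.2.1 hp.2.2.1 hp.2.2.2 hq
      rwa [Real.sq_sqrt (by positivity)] at this

end Pool.Agent.Lib.NV6
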