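import Pool.Agent.Lib.NV6.CBlue

/-! Row LIM0: the limit in the potential. -/

open scoped Classical Topology ENNReal
open Set MeasureTheory Filter

namespace Pool.Agent.Lib.NV6

namespace CLIM0

theorem bd {a b e θ : ℝ} (hb : 0 ≤ b) (he : 0 < e) (hθ : 0 < θ) (ha : a ≤ b + e) :
    a * (b + e) ^ (-(2 + θ)) ≤ e ^ (-(1 + θ)) := by
  have h : 0 < b + e := by positivity
  calc _ ≤ (b + e) * (b + e) ^ (-(2 + θ)) := mul_le_mul_of_nonneg_right ha (by positivity)
    _ = (b + e) ^ (-(1 + θ)) := by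
      rw [show -(1 + θ) = 1 + -(2 + θ) by ring, Real.rpow_add h, Real.rpow_one]
    _ ≤ _ := Real.rpow_le_rpow_of_nonpos he (by linarith) (by linarith)

end CLIM0

theorem cLIM0 : St_LIM0 := by
  intro Ω _ ν _ t C K x θ e f P P' N m i i' j T hx hθ he mN ⟨B, hB⟩ hI H
  obtain ⟨B', hB'⟩ := T.bd j
  have mf := fun k => (T.ms k).1
  have mP := fun k => (T.ms k).2.2
  have η0 : ∀ n : ℕ, (0 : ℝ) < 1 / (n + 1) := fun n => by positivity
  have η1 : ∀ n : ℕ, (1 : ℝ) / (n + 1) ≤ 1 := fun n =>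
    div_le_one_of_le₀ (by linarith [n.cast_nonneg (α := ℝ)]) (by positivity)
  have ml : ∀ η, Measurable (lm f N j η) := fun η =>
    (((mf j).add (mN.const_mul η)).log).const_mul _
  have mb : ∀ k η, Measurable (bb f P' m k (lm f N j η)) := fun k η =>
    ((Finset.measurable_prod _ fun a _ => mP _).mul (mf k)).mul ((ml η).const_mul _).neg.exp
  have lim : ∀ a : ℝ → ℝ, Continuous a → (∀ b, 0 ≤ b → 0 ≤ a b ∧ a b ≤ b + e) →
      Tendsto (fun n : ℕ => ∫ p, a (bb f P' m i (lm f N j (1 / (n + 1))) p) *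
        (bb f P' m i' (lm f N j (1 / (n + 1))) p *
          (bb f P' m i (lm f N j (1 / (n + 1))) p + e) ^ (-(2 + θ)) *
            Real.exp (x * lm f N j (1 / (n + 1)) p)) ∂ν) atTop
        (𝓝 (∫ p, a (bb f P' m i (l0 f j) p) * (bb f P' m i' (l0 f j) p *
          (bb f P' m i (l0 f j) p + e) ^ (-(2 + θ)) * Real.exp (x * l0 f j p)) ∂ν)) := by
    intro a ca ha
    have pos : ∀ᵐ p ∂ν, 0 < f j p ∧ ∀ k, 0 ≤ (∏ a ∈ Finset.range m, P' (k + a) p) * f k p :=
      (ae_all_iff.2 T.pos).mono fun p hp => ⟨(hp j).1, fun k =>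
        mul_nonneg (Finset.prod_nonneg fun a _ => (hp _).2.2.2.1.le) (hp k).1.le⟩
    refine tendsto_integral_of_dominated_convergence (fun p => e ^ (-(1 + θ)) *
      Real.exp (x * (((2 : ℝ) ^ j)⁻¹ * Real.log (B' + B))) * bb f P' m i' (l0 f j) p)
      (fun n => ((ca.measurable.comp (mb _ _)).mul (((mb _ _).mul
        (((mb _ _).add_const e).pow_const _)).mul ((ml _).const_mul x).exp)).aestronglyMeasurable)
      (hI.const_mul _) (fun n => pos.mono fun p hp => ?_) (pos.mono fun p hp => ?_)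
    · have n0 := mul_nonneg (η0 n).le (hB p).1
      have n1 := mul_le_of_le_one_left (hB p).1 (η1 n)
      have l1 : l0 f j p ≤ lm f N j (1 / (n + 1)) p :=
        mul_le_mul_of_nonneg_left (Real.log_le_log hp.1 (by linarith)) (by positivity)
      have l2 : lm f N j (1 / (n + 1)) p ≤ ((2 : ℝ) ^ j)⁻¹ * Real.log (B' + B) :=
        mul_le_mul_of_nonneg_left (Real.log_le_log (by linarith [hp.1])
          (by linarith [hB' p, (hB p).2])) (by positivity)
      have b0 : ∀ k l, 0 ≤ bb f P' m k l p := fun k l => mul_nonneg (hp.2 k) (Real.exp_pos _).le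
      have b1 : bb f P' m i' (lm f N j (1 / (n + 1))) p ≤ bb f P' m i' (l0 f j) p :=
        mul_le_mul_of_nonneg_left (Real.exp_le_exp.2 (neg_le_neg
          (mul_le_mul_of_nonneg_left l1 (by positivity)))) (hp.2 i')
      have b2 := b0 i (lm f N j (1 / (n + 1)))
      have b3 := b0 i' (lm f N j (1 / (n + 1)))
      have b4 := (ha _ b2).1
      rw [Real.norm_of_nonneg (by positivity)]
      refine le_of_eq_of_le ?_ (mul_le_mul (mul_le_mul (CLIM0.bd b2 he hθ (ha _ b2).2)
        (Real.exp_le_exp.2 (mul_le_mul_of_nonneg_left l2 hx)) (Real.exp_pos _).le (by positivity))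
        b1 b3 (by positivity))
      ring
    · have tl : Tendsto (fun n : ℕ => lm f N j (1 / (n + 1)) p) atTop (𝓝 (l0 f j p)) := by
        refine (Tendsto.log ?_ hp.1.ne').const_mul _
        simpa using (tendsto_one_div_add_atTop_nhds_zero_nat.mul_const (N j p)).const_add (f j p)
      have tb : ∀ k, Tendsto (fun n : ℕ => bb f P' m k (lm f N j (1 / (n + 1))) p) atTop
          (𝓝 (bb f P' m k (l0 f j) p)) := fun k => (tl.const_mul _).neg.rexp.const_mul _
      exact ((ca.tendsto _).comp (tb i)).mul (((tb i').mul (((tb i).add_const e).rpow_const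
        (.inl (add_pos_of_nonneg_of_pos (mul_nonneg (hp.2 i) (Real.exp_pos _).le) he).ne'))).mul
        (tl.const_mul x).rexp)
  exact le_of_tendsto_of_tendsto' (lim id continuous_id fun b hb => ⟨hb, by simpa using he.le⟩)
    ((lim (fun _ => e) continuous_const fun b hb => ⟨he.le, by simpa using hb⟩).const_mul (K / θ))
    fun n => H _ (η0 n)

end Pool.Agent.Lib.NV6
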