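import Pool.Agent.Lib.NV6.CBlue

/-! Project NV6, block C: from the form to the section. -/

open scoped Classical Topology
open Set Complex Metric Filter MvPolynomial

noncomputable section

namespace Pool.Agent.Lib.NV6

open Pool.Agent.Lib.SV (nsq)

namespace CLOC

variable {σ : Type} {w : ℕ} (y : (σ → ℂ) →ₗ[ℂ] Fin (w + 1) → ℂ)

theorem dif (Y : Fin w → ℂ) {h : σ → ℂ} (h0 : y h 0 ≠ 0) :
    ‖fun l : Fin w => y h l.succ - y h 0 * Y l‖ = ‖y h 0‖ * ‖af y h - Y‖ := by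
  rw [← norm_smul]
  congr 1
  funext l
  simp only [af, Pi.smul_apply, Pi.sub_apply, smul_eq_mul]
  field_simp

theorem scale {h : σ → ℂ} (h0 : y h 0 ≠ 0) :
    y ((y h 0)⁻¹ • h) 0 = 1 ∧ af y ((y h 0)⁻¹ • h) = af y h ∧
      y ((y h 0)⁻¹ • h) = (Fin.cons 1 (af y h) : Fin (w + 1) → ℂ) := by
  refine ⟨by simp [h0], funext fun l => ?_, funext fun l => ?_⟩
  · simp only [af, map_smul, Pi.smul_apply, smul_eq_mul]
    field_simp
  · refine Fin.cases (by simp [h0]) (fun l => ?_) l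
    simp only [af, map_smul, Pi.smul_apply, smul_eq_mul, Fin.cons_succ]
    field_simp

theorem norm_le [Fintype σ] {h : σ → ℂ} (h1 : nsq h = 1) : ‖h‖ ≤ 1 := by
  refine (pi_norm_le_iff_of_nonneg zero_le_one).2 fun a => ?_
  have : normSq (h a) ≤ 1 :=
    h1 ▸ Finset.single_le_sum (f := fun a => normSq (h a)) (fun a _ => normSq_nonneg _)
      (Finset.mem_univ a)
  rw [normSq_eq_norm_sq] at this
  exact (sq_le_one_iff₀ (norm_nonneg _)).1 this

/-- Uniform bounds on the unit vectors above a small ball. -/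
theorem bounds [Fintype σ] {W : Set (σ → ℂ)} (hc : IsClosed W) (hW : Cone W) (hy : Nz W y) (a : σ)
    {Q : MvPolynomial (Fin (w + 1)) ℂ} {Y : Fin w → ℂ}
    (hQ : ∀ h ∈ W, h a = 0 → eval (y h) Q = 0)
    (hY : eval (Fin.cons 1 Y : Fin (w + 1) → ℂ) Q ≠ 0) :
    ∃ r₀ c B : ℝ, 0 < r₀ ∧ 0 < c ∧ ∀ h ∈ W, nsq h = 1 → y h 0 ≠ 0 → ‖af y h - Y‖ ≤ r₀ →
      c ≤ ‖h a‖ ∧ ‖y h 0‖ ≤ B := by
  have cq : Continuous fun u : Fin w → ℂ => eval (Fin.cons 1 u : Fin (w + 1) → ℂ) Q :=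
    (continuous_eval Q).comp (continuous_pi fun l => Fin.cases (by simpa using continuous_const)
      (fun l => by simpa using continuous_apply l) l)
  obtain ⟨r₀, r0, hr⟩ := nhds_basis_closedBall.eventually_iff.1 (cq.continuousAt.eventually_ne hY)
  have cy : Continuous y := y.continuous_of_finiteDimensional
  have cn : Continuous fun h : σ → ℂ => nsq h := by unfold nsq; fun_prop
  have hK : IsCompact {h | h ∈ W ∧ nsq h = 1 ∧
      ‖fun l : Fin w => y h l.succ - y h 0 * Y l‖ ≤ ‖y h 0‖ * r₀} := by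
    have c3 : IsClosed {h : σ → ℂ |
        ‖fun l : Fin w => y h l.succ - y h 0 * Y l‖ ≤ ‖y h 0‖ * r₀} :=
      isClosed_le (by fun_prop) (by fun_prop)
    exact isCompact_of_isClosed_isBounded
      (hc.inter ((isClosed_eq cn continuous_const).inter c3))
      ((isBounded_closedBall (x := 0) (r := 1)).subset fun h hh =>
        mem_closedBall_zero_iff.2 (norm_le hh.2.1))
  obtain ⟨c, c0, hcl⟩ := hK.exists_forall_le' (f := fun h => ‖h a‖) (a := 0) (by fun_prop) (by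
    rintro h ⟨hw, h1, h2⟩
    have h0 : y h 0 ≠ 0 := fun h0 => by
      obtain ⟨C, hC⟩ := hy.bd
      have e : y h = 0 := funext fun l => Fin.cases h0 (fun l => by
        rw [h0, norm_zero, zero_mul, norm_le_zero_iff] at h2
        simpa using congrFun h2 l) l
      have := hC h hw
      rw [h1, e] at this
      simp [nsq] at this
      linarith
    rw [dif y Y h0] at h2
    refine norm_pos_iff.2 fun ha => hr (x := af y h)
      (mem_closedBall_iff_norm.2 (le_of_mul_le_mul_left h2 (norm_pos_iff.2 h0))) ?_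
    rw [← (scale y h0).2.2]
    exact hQ _ (hW.smul _ h hw) (by simp [ha]))
  obtain ⟨B, hB⟩ := hK.exists_bound_of_continuousOn (f := fun h => y h 0) (by fun_prop)
  refine ⟨r₀, c, B, r0, c0, fun h hw h1 h0 h2 => ?_⟩
  have hm : ‖fun l : Fin w => y h l.succ - y h 0 * Y l‖ ≤ ‖y h 0‖ * r₀ := by
    rw [dif y Y h0]
    exact mul_le_mul_of_nonneg_left h2 (norm_nonneg _)
  exact ⟨hcl h ⟨hw, h1, hm⟩, hB h ⟨hw, h1, hm⟩⟩

end CLOC

theorem cLOC (hH : St_HOM) (hS : St_SPH) : St_LOC := by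
  intro ι κ _ _ Z W w y i j q e k n S A Q Y C hW hy hA hQ hY hC
  obtain ⟨r₀, c, B, r0, c0, hb⟩ := CLOC.bounds y (hH.closed hW) hW hy (i, j) hQ hY
  refine ⟨(B ^ (e + q + k) * |C| / c ^ (2 * q + k)) ^ 2 + 1, by positivity, ?_⟩
  filter_upwards [Ioc_mem_nhdsGT (lt_min r0 one_pos)] with r hr p hp h0 hr'
  obtain ⟨p1, p2, -, p3, -⟩ := hS.bc p
  obtain ⟨b1, b2⟩ := hb _ hp p2 h0 (hr'.trans (hr.2.trans (min_le_left _ _)))
  obtain ⟨s1, s2, -⟩ := CLOC.scale y h0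
  have e1 := hC _ (hW.smul (y (sg p.1) 0)⁻¹ _ hp) s1
    (by rw [s2]; exact hr'.trans (hr.2.trans (min_le_right _ _)))
  rw [s2] at e1
  have e2 : eval (sg p.1) A = y (sg p.1) 0 ^ (e + q + k) * eval ((y (sg p.1) 0)⁻¹ • sg p.1) A := by
    rw [← hH.smul _ _ hA.1, smul_inv_smul₀ h0]
  have e3 : ‖eval (sg p.1) A‖ ≤ B ^ (e + q + k) * (|C| * r ^ n) := by
    rw [e2, norm_mul, norm_pow]
    refine mul_le_mul (pow_le_pow_left₀ (norm_nonneg _) b2 _) (e1.trans ?_) (norm_nonneg _)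
      (pow_nonneg ((norm_nonneg _).trans b2) _)
    exact mul_le_mul (le_abs_self C) (pow_le_pow_left₀ (norm_nonneg _) hr' _) (by positivity)
      (abs_nonneg _)
  have b3 : c ≤ ‖p.1.1 i * p.1.2 j‖ := b1
  have b4 : c ≤ ‖p.1.2 j‖ := by
    refine b3.trans ?_
    rw [norm_mul]
    exact mul_le_of_le_one_left (norm_nonneg _) (p3 i)
  have e4 : ‖S p.1‖ * c ^ (2 * q + k) ≤ ‖eval (sg p.1) A‖ := by
    rw [← hA.2 _ p1, norm_mul, norm_mul, norm_pow, norm_pow, pow_add, ← mul_assoc]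
    gcongr
  have e5 : ‖S p.1‖ ≤ B ^ (e + q + k) * |C| / c ^ (2 * q + k) * r ^ n := by
    rw [div_mul_eq_mul_div, le_div_iff₀ (by positivity), mul_assoc]
    exact e4.trans e3
  have r1 : 0 ≤ r ^ (2 * n) := pow_nonneg hr.1.le _
  calc normSq (S p.1) = ‖S p.1‖ ^ 2 := normSq_eq_norm_sq _
    _ ≤ (B ^ (e + q + k) * |C| / c ^ (2 * q + k) * r ^ n) ^ 2 :=
      pow_le_pow_left₀ (norm_nonneg _) e5 2
    _ = (B ^ (e + q + k) * |C| / c ^ (2 * q + k)) ^ 2 * r ^ (2 * n) := by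
      rw [mul_pow, ← pow_mul, mul_comm n 2]
    _ ≤ _ := by rw [add_mul, one_mul]; linarith

end Pool.Agent.Lib.NV6
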