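import Pool.Agent.Lib.NV6.CBlue

/-! Project NV6, block C: properties of a minimal cone. -/

open scoped Classical Topology ENNReal
open Set MeasureTheory Complex Metric Filter MvPolynomial

noncomputable section

namespace Pool.Agent.Lib.NV6

open Pool.Agent.Lib.S3K (Blow blow_of_pos)

theorem cMIN (hHOM : St_HOM) (hSEC : St_SEC) (hSPH : St_SPH) (hADM : St_ADM) (hRULE : St_RULE) :
    St_MIN := by
  intro ι κ _ _ Z W _ K x ε ν e₀ hZ hW
  have h1 : ∀ (q e : ℕ) (S : Fn ι κ) (t : ℝ), Sec Z q e S → q = 0 ∨ e₀ ≤ e → Nv Z W S → 0 < t →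
      t * e < ε → ¬ Blow (fun p : Sph Z => normSq (S p.1)) t (ν : Measure (Sph Z)) := by
    rintro q e S t hS hq ⟨p₀, hp₀, hS₀⟩ ht hte hB
    obtain ⟨N₀, hN₀⟩ := hADM.gen hZ hq
    obtain ⟨ν', hν', hz⟩ := hRULE ι κ Z W K x ε t ν q e _ N₀ hW.cone hW.toOn (hADM.one hS) hN₀
      ht hte hB
    obtain ⟨hb, -, ⟨i, j, hij⟩, -⟩ := hSPH.bc p₀
    obtain ⟨k, A, hA, hc⟩ := hS i j
    refine hW.min _ A hA (fun hv => ?_) ν' _ _ ⟨hν'.good, hν'.x0, hν'.e0,
      measure_mono_null (fun p hp => ?_) (measure_union_null hν'.nul hz)⟩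
    · have e1 := hc _ hb
      rw [hv _ hp₀] at e1
      exact mul_ne_zero (mul_ne_zero hS₀ (pow_ne_zero _ (right_ne_zero_of_mul hij)))
        (pow_ne_zero _ hij) e1
    · by_contra hn
      rw [mem_union, not_or] at hn
      have e1 : S p.1 = 0 := normSq_eq_zero.1 (not_not.1 hn.2)
      refine hp ⟨not_not.1 hn.1, ?_⟩
      rw [← hc _ (hSPH.bc p).1, e1, zero_mul, zero_mul]
  have h2 : ∀ (d : ℕ) (P : MvPolynomial (ι × κ) ℂ), P.IsHomogeneous d → ¬ Van W P →
      (ν : Measure (Sph Z)) {p | eval (sg p.1) P = 0} = 0 := by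
    intro d P hP hv
    obtain ⟨h, hh, hne⟩ : ∃ h ∈ W, eval h P ≠ 0 := by
      by_contra hc
      exact hv fun h hh => not_not.1 fun h0 => hc ⟨h, hh, h0⟩
    by_cases h0 : h = 0
    · have e1 : {p : Sph Z | eval (sg p.1) P = 0} = ∅ := eq_empty_of_forall_notMem fun p hp => by
        have e2 := hHOM.smul 0 (sg p.1) hP
        have e3 : eval (sg p.1) P = 0 := hp
        rw [e3, mul_zero, zero_smul] at e2
        exact hne (h0 ▸ e2)
      rw [e1, measure_empty]
    · obtain ⟨p, c, hc, rfl⟩ := hSPH.pt hZ h (hW.sub hh) h0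
      have e1 : sg p.1 ∈ W := by
        have := hW.cone.smul c⁻¹ _ hh
        rwa [smul_smul, inv_mul_cancel₀ hc, one_smul] at this
      rw [hHOM.smul c _ hP] at hne
      have hε := hW.e0
      have hd : (0 : ℝ) < d + 1 := by positivity
      have hB := h1 0 d _ (ε / (d + 1)) (hSEC.form hP) (Or.inl rfl)
        ⟨p, e1, right_ne_zero_of_mul hne⟩ (div_pos hε hd) (by
          rw [div_mul_eq_mul_div, div_lt_iff₀ hd]; nlinarith)
      by_contra hc'
      refine hB (blow_of_pos (hSPH.cfm P) (fun _ => normSq_nonneg _) (div_pos hε hd) _ fun h3 =>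
        hc' (measure_mono_null (fun p hp => ?_) h3))
      exact normSq_eq_zero.2 hp
  have h3 : ∀ s : Set (Sph Z), (ν : Measure (Sph Z)) s = 0 → ∃ p, p ∉ s := fun s hs => by
    by_contra hc
    rw [eq_univ_of_forall (s := s) fun p => not_not.1 fun hp => hc ⟨p, hp⟩, measure_univ] at hs
    exact one_ne_zero hs
  refine ⟨h1, h2, hHOM.irr hW.cone fun d d' P P' hP hP' hv => ?_, ?_⟩
  · by_contra hc
    rw [not_or] at hc
    obtain ⟨p, hp⟩ := h3 _ (measure_union_null hW.nul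
      (measure_union_null (h2 d P hP hc.1) (h2 d' P' hP' hc.2)))
    rw [mem_union, mem_union, not_or, not_or] at hp
    have e1 := hv _ (not_not.1 hp.1)
    rw [map_mul] at e1
    exact mul_ne_zero hp.2.1 hp.2.2 e1
  · obtain ⟨p, hp⟩ := h3 _ hW.nul
    exact ⟨p, not_not.1 hp⟩

end Pool.Agent.Lib.NV6
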