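import Pool.Agent.Lib.NV6.CBlue

/-! Row MOM: uniform moments along a tower. -/

open Set MeasureTheory Filter

namespace Pool.Agent.Lib.NV6

namespace CMOM

lemma geo (k n : ℕ) : ∑ a ∈ Finset.range n, ((2 : ℝ) ^ (k + a + 1))⁻¹ ≤ ((2 : ℝ) ^ k)⁻¹ := by
  have e : ∑ a ∈ Finset.range n, ((2 : ℝ) ^ (k + a + 1))⁻¹ = ((2 : ℝ) ^ k)⁻¹ - ((2 : ℝ) ^ (k + n))⁻¹ := by
    induction n with
    | zero => simp
    | succ n ih =>
      rw [Finset.sum_range_succ, ih, ← add_assoc, pow_succ]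
      field_simp
      ring
  rw [e]
  exact sub_le_self _ (by positivity)

lemma small (x : ℝ) {t : ℝ} (ht : 0 < t) : ∃ k : ℕ, x * ((2 : ℝ) ^ k)⁻¹ ≤ t := by
  obtain ⟨k, hk⟩ := pow_unbounded_of_one_lt (x / t) (one_lt_two (α := ℝ))
  refine ⟨k, ?_⟩
  rw [← div_eq_mul_inv, div_le_iff₀ (by positivity), mul_comm]
  exact ((div_lt_iff₀ ht).1 hk).le

variable {Ω : Type} [MeasurableSpace Ω] {ν : Measure Ω}

lemma mono {g g' : Ω → ℝ} {C C' c : ℝ} (h : Mo ν g' C) (hc : 0 ≤ c) (hC : c * C ≤ C')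
    (hm : Measurable g) (hl : ∀ᵐ p ∂ν, 0 ≤ g p ∧ g p ≤ c * g' p) : Mo ν g C' := by
  have a1 : Integrable g ν := (h.1.const_mul c).mono' hm.aestronglyMeasurable
    (hl.mono fun p hp => by rw [Real.norm_eq_abs, abs_of_nonneg hp.1]; exact hp.2)
  refine ⟨a1, (integral_mono_ae a1 (h.1.const_mul c) (hl.mono fun p hp => hp.2)).trans ?_⟩
  rw [integral_const_mul]
  exact (mul_le_mul_of_nonneg_left h.2 hc).trans hC

end CMOM

open CMOM in
theorem cMOM (hT : St_TLS) (hA : St_AMG) : St_MOM := by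
  intro Ω _ ν _ t C x f P P' hw hx
  have t0 := hw.t0
  obtain ⟨m, hm⟩ := small 4 t0
  obtain ⟨k, hk⟩ := small (4 * x) t0
  obtain ⟨B, hB⟩ := hw.bd k
  have tl := hT Ω ν t C f P P' hw
  have ps := ae_all_iff.2 hw.pos
  have gP : ∀ a, Measurable (P a) ∧ (∀ᵐ p ∂ν, 0 < P a p) ∧ Mo ν (fun p => P a p ^ (-t)) C :=
    fun a => ⟨(hw.ms a).2.1, (hw.pos a).mono fun p hp => hp.2.1, (hw.int a).1⟩
  have gP' : ∀ a, Measurable (P' a) ∧ (∀ᵐ p ∂ν, 0 < P' a p) ∧ Mo ν (fun p => P' a p ^ (-t)) C :=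
    fun a => ⟨(hw.ms a).2.2, (hw.pos a).mono fun p hp => hp.2.2.2.1, (hw.int a).2⟩
  have ml : ∀ j, Measurable (l0 f j) := fun j => (hw.ms j).1.log.const_mul _
  have il : ∀ j, Integrable (fun p => -(x * l0 f j p)) ν := fun j =>
    (((hw.lg j).const_mul _).const_mul x).neg
  have mb : ∀ i j, Measurable (bb f P' m i (l0 f j)) := fun i j =>
    ((Finset.measurable_prod _ fun a _ => (hw.ms _).2.2).mul (hw.ms i).1).mul
      ((ml j).const_mul _).neg.exp
  obtain ⟨A, hAe⟩ : ∃ A, A = max C 1 := ⟨_, rfl⟩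
  have A0 : 0 ≤ A := hAe ▸ le_max_of_le_right zero_le_one
  obtain ⟨D, hD⟩ : ∃ D, D = Real.exp (4 * x * (((2 : ℝ) ^ k)⁻¹ * Real.log B)) := ⟨_, rfl⟩
  have D0 : 0 ≤ D := hD ▸ (Real.exp_pos _).le
  obtain ⟨J, hJ⟩ : ∃ J, J = ∫ p, -(x * l0 f k p) ∂ν := ⟨_, rfl⟩
  have DA := mul_nonneg D0 A0
  have J0 := abs_nonneg J
  refine ⟨k, m, t / (4 * (m + 1)), A + D * A + |J|, by positivity, fun θ θ0 θ1 i j hi hj => ?_⟩
  obtain ⟨n, rfl⟩ := Nat.exists_eq_add_of_le hj
  obtain ⟨n', hn'⟩ : ∃ n', i + m + n = k + n' := Nat.exists_eq_add_of_le (by omega)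
  have s3 : ∀ c : ℝ, 0 ≤ c → c ≤ 4 * x →
      ∑ a ∈ Finset.range n', c * ((2 : ℝ) ^ (k + a + 1))⁻¹ ≤ t := fun c c0 c1 => by
    rw [← Finset.mul_sum]
    exact (mul_le_mul c1 (geo k n') (by positivity) (by positivity)).trans hk
  refine ⟨?_, ?_, ?_, ?_⟩
  · refine mono (c := 1) (hA Ω ℕ ν (Finset.range n) (fun a => P' (i + (m + a)))
      (fun a => 4 * ((2 : ℝ) ^ (m + a + 1))⁻¹) t C t0 (fun a _ => by positivity) ?_ fun a _ => gP' _)
      zero_le_one (by linarith) ((mb _ _).pow_const 4) ?_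
    · rw [← Finset.mul_sum]
      exact (mul_le_mul_of_nonneg_left (geo m n) (by norm_num)).trans hm
    filter_upwards [tl, ps] with p h1 h2
    obtain ⟨-, b0, b1⟩ := h1 m i (m + n)
    rw [← add_assoc] at b0 b1
    refine ⟨by positivity, ?_⟩
    rw [one_mul, ← Real.exp_log b0, ← Real.exp_nat_mul, Real.exp_le_exp, b1, Finset.sum_range_add,
      ← add_assoc, ← Finset.sum_add_distrib, mul_add, Finset.mul_sum, Finset.mul_sum,
      ← Finset.sum_neg_distrib, ← zero_add (∑ a ∈ Finset.range n, -_)]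
    refine add_le_add (Finset.sum_nonpos fun a _ => ?_) (Finset.sum_le_sum fun a _ => ?_)
    · have u1 := Real.log_nonpos (h2 (i + a)).2.1.le (h2 (i + a)).2.2.1
      have u2 := Real.log_nonpos (h2 (i + a)).2.2.2.1.le (h2 (i + a)).2.2.2.2
      have u3 : ((2 : ℝ) ^ (a + 1))⁻¹ ≤ 1 := inv_le_one_of_one_le₀ (one_le_pow₀ one_le_two)
      have u4 : 0 ≤ ((2 : ℝ) ^ (a + 1))⁻¹ := by positivity
      push_cast
      nlinarith
    · have u1 := Real.log_nonpos (h2 (i + (m + a))).2.1.le (h2 (i + (m + a))).2.2.1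
      have u4 : 0 ≤ ((2 : ℝ) ^ (m + a + 1))⁻¹ := by positivity
      push_cast
      nlinarith
  · refine mono (c := 1) (hA Ω (ℕ ⊕ ℕ) ν ((Finset.range m).disjSum (Finset.range (m + n)))
      (Sum.elim (fun a => P' (i + a)) fun a => P (i + a))
      (Sum.elim (fun _ => 4 * θ) fun a => 4 * θ * ((2 : ℝ) ^ (a + 1))⁻¹) t C t0 ?_ ?_ ?_)
      zero_le_one (by linarith) ((mb _ _).pow_const _) ?_
    · rintro (a | a) - <;> simp only [Sum.elim_inl, Sum.elim_inr] <;> positivity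
    · have u1 := geo 0 (m + n)
      simp only [zero_add, pow_zero, inv_one] at u1
      simp only [Finset.sum_disjSum, Sum.elim_inl, Sum.elim_inr, Finset.sum_const, Finset.card_range,
        nsmul_eq_mul, ← Finset.mul_sum]
      rw [le_div_iff₀ (by positivity)] at θ1
      nlinarith
    · rintro (a | a) -
      · exact gP' _
      · exact gP _
    filter_upwards [tl, ps] with p h1 h2
    obtain ⟨-, b0, b1⟩ := h1 m i (m + n)
    rw [← add_assoc] at b0 b1
    refine ⟨by positivity, ?_⟩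
    rw [one_mul, Real.rpow_def_of_pos b0, Real.exp_le_exp, b1, add_mul, Finset.sum_mul, Finset.sum_mul]
    simp only [Finset.sum_disjSum, Sum.elim_inl, Sum.elim_inr, neg_add, ← Finset.sum_neg_distrib]
    refine add_le_add (Finset.sum_le_sum fun a _ => le_of_eq (by ring))
      (Finset.sum_le_sum fun a _ => ?_)
    have u2 := Real.log_nonpos (h2 (i + a)).2.2.2.1.le (h2 (i + a)).2.2.2.2
    have u4 : 0 ≤ θ * ((2 : ℝ) ^ (a + 1))⁻¹ := by positivity
    nlinarith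
  · rw [hn']
    refine mono (c := D) (hA Ω ℕ ν (Finset.range n') (fun a => P (k + a))
      (fun a => 4 * x * ((2 : ℝ) ^ (k + a + 1))⁻¹) t C t0 (fun a _ => by positivity)
      (s3 _ (by positivity) le_rfl) fun a _ => gP _) D0 (by rw [← hAe]; linarith)
      (((ml _).const_mul x).exp.pow_const 4) ?_
    filter_upwards [tl, ps] with p h1 h2
    refine ⟨by positivity, ?_⟩
    rw [hD, ← Real.exp_nat_mul, ← Real.exp_add, Real.exp_le_exp, (h1 0 k n').1, ← mul_assoc, mul_add,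
      Finset.mul_sum, ← Finset.sum_neg_distrib]
    push_cast
    refine add_le_add (mul_le_mul_of_nonneg_left (mul_le_mul_of_nonneg_left
      (Real.log_le_log (h2 k).1 (hB p)) (by positivity)) (by positivity))
      (Finset.sum_le_sum fun a _ => ?_)
    have u2 := Real.log_nonpos (h2 (k + a)).2.2.2.1.le (h2 (k + a)).2.2.2.2
    have u4 : 0 ≤ x * ((2 : ℝ) ^ (k + a + 1))⁻¹ := by positivity
    nlinarith
  · rw [hn']
    obtain ⟨a1, a2⟩ := hA Ω ℕ ν (Finset.range n') (fun a => P' (k + a))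
      (fun a => x * ((2 : ℝ) ^ (k + a + 1))⁻¹) t C t0 (fun a _ => by positivity)
      (s3 _ hx (by linarith)) fun a _ => gP' _
    refine ⟨il _, (integral_mono_ae (il _) ((il k).add a1) ?_).trans ?_⟩
    · filter_upwards [tl, ps] with p h1 h2
      rw [Pi.add_apply, (h1 0 k n').1, mul_add, neg_add]
      refine add_le_add le_rfl (le_trans ?_ ((le_add_of_nonneg_right zero_le_one).trans
        (Real.add_one_le_exp _)))
      rw [neg_le_neg_iff, Finset.mul_sum]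
      refine Finset.sum_le_sum fun a _ => ?_
      have u1 := Real.log_nonpos (h2 (k + a)).2.1.le (h2 (k + a)).2.2.1
      have u4 : 0 ≤ x * ((2 : ℝ) ^ (k + a + 1))⁻¹ := by positivity
      nlinarith
    · rw [integral_add' (il k) a1, ← hJ]
      have := le_abs_self J
      linarith

end Pool.Agent.Lib.NV6
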