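import Pool.Agent.Lib.NV6.CBlue
import Pool.Agent.Lib.S3K.Noe

/-! Project NV6, block C, row NOE: the normalisation lemma of Noether. -/

open Set Complex MvPolynomial

noncomputable section

namespace Pool.Agent.Lib.NV6

open Pool.Agent.Lib.SV (nsq)

theorem cNOE : St_NOE := by
  intro σ _ W hW ⟨h, hh, h0⟩
  obtain ⟨r, c, C, C0, h1, h2, h3⟩ := S3K.noe_cone (V := W) hW.smul ⟨h, hh⟩
  obtain _ | w := r
  · have := h1 h hh
    rw [Subsingleton.elim (S3K.lm c h) 0, norm_zero, mul_zero] at this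
    exact (h0 (norm_le_zero_iff.1 this)).elim
  refine ⟨w, S3K.lm c, ⟨Fintype.card σ * C ^ 2, fun p hp => ?_⟩, h2, h3⟩
  obtain ⟨j, -, hj⟩ := Finset.exists_max_image Finset.univ (fun j => ‖S3K.lm c p j‖)
    Finset.univ_nonempty
  have a : ‖p‖ ≤ C * ‖S3K.lm c p j‖ := (h1 p hp).trans (mul_le_mul_of_nonneg_left
    ((pi_norm_le_iff_of_nonneg (norm_nonneg _)).2 fun i => hj i (Finset.mem_univ _)) C0.le)
  have b : normSq (S3K.lm c p j) ≤ nsq (S3K.lm c p) :=
    Finset.single_le_sum (f := fun j => normSq (S3K.lm c p j)) (fun _ _ => normSq_nonneg _)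
      (Finset.mem_univ j)
  rw [mul_assoc, ← nsmul_eq_mul]
  refine Finset.sum_le_card_nsmul _ _ _ fun i _ => le_trans ?_
    (mul_le_mul_of_nonneg_left b (sq_nonneg C))
  rw [normSq_eq_norm_sq, normSq_eq_norm_sq, ← mul_pow]
  exact pow_le_pow_left₀ (norm_nonneg _) ((norm_le_pi_norm p i).trans a) 2

end Pool.Agent.Lib.NV6
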