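import Pool.Agent.Lib.NV6.CBlue
import Pool.Agent.Lib.S3K.Noe
import Pool.Agent.Lib.S3K.Sheet

/-! Project NV6, block C, row NRM: the norm of a form. -/

open Set Complex MvPolynomial

noncomputable section

namespace Pool.Agent.Lib.NV6

theorem cNRM : St_NRM := by
  intro σ _ W w y d P hW hI hy hP h0
  classical
  let I := RingHom.ker (RingHom.pi fun h : W => eval h.1)
  have mem : ∀ f, f ∈ I ↔ Van W f := fun f =>
    ⟨fun hf h hh => congrFun hf ⟨h, hh⟩, fun hf => funext fun h => hf h.1 h.2⟩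
  let z : Fin (w + 1) → MvPolynomial σ ℂ := fun j => ∑ s, C (y (Pi.single s 1) j) * X s
  have e : ∀ h, (eval h).comp (aeval (R := ℂ) z).toRingHom = eval (y h) := fun h =>
    ringHom_ext (by simp) fun j => by
      conv_rhs => rw [pi_eq_sum_univ' h]
      simp [z, mul_comm]
  obtain ⟨N, N0, g, hg⟩ := S3K.norm_dvd I ⟨fun c => h0 ((mem P).1 (c ▸ trivial)), fun h => by
    simpa only [mem] using hI _ _ ((mem _).1 h)⟩ z (fun i => (hy.int i).imp fun m hm =>
      ⟨hm.1, (mem _).2 fun h hh => by rw [Polynomial.hom_eval₂, e, eval_X, hm.2 h hh]⟩) P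
    (mt (mem P).1 h0)
  obtain ⟨d', Q, Q0, h1, h2⟩ := S3K.homc (S := y '' {h | h ∈ W ∧ eval h P = 0}) (by
    rintro a - _ ⟨h, hh, rfl⟩
    exact ⟨a • h, ⟨hW.smul a h hh.1, by rw [S3K.eval_smul_hom hP, hh.2, mul_zero]⟩, map_smul _ _ _⟩)
    N0 (by
      rintro _ ⟨h, hh, rfl⟩
      have := (mem _).1 hg h hh.1
      rw [map_sub, map_mul, hh.2, zero_mul, sub_zero] at this
      rw [← e, ← this]
      rfl)
  exact ⟨d', Q, Q0, h1, fun h hh hp => h2 _ ⟨h, ⟨hh, hp⟩, rfl⟩⟩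

end Pool.Agent.Lib.NV6
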