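import Pool.Agent.Lib.NV6.CBlue

/-! Project NV6, row PIG: the pigeonhole principle for forms. -/

open scoped Classical Topology
open Set MeasureTheory Complex Metric Filter MvPolynomial

noncomputable section

namespace Pool.Agent.Lib.NV6

/-- Row `PIG`. -/
theorem cPIG (hS : St_SPH) (hC : St_CPT) : St_PIG := by
  intro ι κ _ _ Z W _ ν d P hW h0 hP δ hδ
  obtain ⟨r, B, T, hT, -, h2⟩ := hC ι κ Z W d hW
  choose c cT hc using fun k => h2 (P k) (hP k)
  have hF : Continuous fun x : (Fin r → ℂ) × Sph Z => fm Z (∑ l, x.1 l • B l) x.2 := by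
    have e : ∀ x : (Fin r → ℂ) × Sph Z, fm Z (∑ l, x.1 l • B l) x.2 =
        normSq (∑ l, x.1 l * eval (sg x.2.1) (B l)) := fun x => by
      simp only [fm, map_sum, smul_eval]
    simp only [e]
    exact continuous_normSq.comp (continuous_finsetSum _ fun l _ =>
      ((continuous_apply l).comp continuous_fst).mul
        (((B l).continuous_eval.comp hS.csg).comp continuous_snd))
  let Φ : C(Fin r → ℂ, C(Sph Z, ℝ)) := ContinuousMap.curry ⟨_, hF⟩
  obtain ⟨t, ht, hs⟩ := Metric.totallyBounded_iff.1 (hT.image Φ.continuous).totallyBounded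
    (δ / 2) (half_pos hδ)
  have k : ∀ k, ∃ y : t, dist (Φ (c k)) y < δ / 2 := fun k => by
    obtain ⟨y, hy, h⟩ := mem_iUnion₂.1 (hs (mem_image_of_mem Φ (cT k)))
    exact ⟨⟨y, hy⟩, h⟩
  choose y hy using k
  have := ht.to_subtype
  refine ⟨Nat.card t, fun k => Finite.equivFin t (y k), fun i i' h => ?_⟩
  have e : y i = y i' := (Finite.equivFin t).injective h
  have h1 : dist (Φ (c i)) (Φ (c i')) ≤ δ := by
    have a := dist_triangle_right (Φ (c i)) (Φ (c i')) (y i')
    have b := hy i
    rw [e] at b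
    linarith [hy i']
  filter_upwards [measure_eq_zero_iff_ae_notMem.1 h0] with p hp
  have hp' : sg p.1 ∈ W := not_not.1 hp
  show |fm Z (P i) p - fm Z (P i') p| ≤ δ
  rw [hc i p hp', hc i' p hp']
  exact (ContinuousMap.dist_apply_le_dist (f := Φ (c i)) (g := Φ (c i')) p).trans h1

end Pool.Agent.Lib.NV6
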