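import Pool.Agent.Lib.NV6.CBlue

/-! Project NV6, block C: removal of the regularisation. -/

open scoped Classical Topology ENNReal
open Set MeasureTheory Filter

noncomputable section

namespace Pool.Agent.Lib.NV6

theorem cPOW : St_POW := by
  intro Ω _ ν _ g t C B hg hb ht hC
  have e0 : ∀ n : ℕ, (0 : ℝ) < 1 / (n + 1) := fun n => by positivity
  have hm : ∀ η : ℝ, Measurable fun p => (g p + η) ^ (-t) := fun η =>
    (hg.add_const η).pow_const _
  have hn : ∀ η > (0 : ℝ), ∀ p, 0 ≤ (g p + η) ^ (-t) := fun η h p =>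
    Real.rpow_nonneg (by linarith [(hb p).1]) _
  have hi : ∀ η > (0 : ℝ), Integrable (fun p => (g p + η) ^ (-t)) ν := fun η h =>
    (integrable_const (η ^ (-t))).mono' (hm η).aestronglyMeasurable (ae_of_all _ fun p => by
      rw [Real.norm_of_nonneg (hn η h p)]
      exact Real.rpow_le_rpow_of_nonpos h (by linarith [(hb p).1]) (by linarith))
  have C0 : 0 ≤ C := (integral_nonneg (hn 1 one_pos)).trans (hC 1 one_pos)
  let G : Ω → ℝ≥0∞ := fun p => if g p = 0 then ⊤ else ENNReal.ofReal (g p ^ (-t))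
  have hl : ∀ p, Tendsto (fun n : ℕ => ENNReal.ofReal ((g p + 1 / (n + 1)) ^ (-t))) atTop
      (𝓝 (G p)) := fun p => by
    have h0 : Tendsto (fun n : ℕ => g p + 1 / ((n : ℝ) + 1)) atTop (𝓝 (g p)) := by
      simpa using tendsto_one_div_add_atTop_nhds_zero_nat.const_add (g p)
    by_cases h : g p = 0
    · simp only [G, h, if_true] at h0 ⊢
      exact ENNReal.tendsto_ofReal_atTop.comp ((tendsto_rpow_neg_nhdsGT_zero (by linarith)).comp
        (tendsto_nhdsWithin_iff.2 ⟨h0, Eventually.of_forall fun n => by simpa using e0 n⟩))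
    · simp only [G, h, if_false]
      exact ENNReal.tendsto_ofReal (h0.rpow_const (Or.inl h))
  have hG : ∫⁻ p, G p ∂ν ≤ ENNReal.ofReal C := by
    simp only [← fun p => (hl p).liminf_eq]
    refine (lintegral_liminf_le fun n => (hm _).ennreal_ofReal).trans
      (liminf_le_of_frequently_le' (Frequently.of_forall fun n => ?_))
    rw [← ofReal_integral_eq_lintegral_ofReal (hi _ (e0 n)) (ae_of_all _ (hn _ (e0 n)))]
    exact ENNReal.ofReal_le_ofReal (hC _ (e0 n))
  have mG : Measurable G := Measurable.ite (hg (measurableSet_singleton 0)) measurable_const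
    (hg.pow_const _).ennreal_ofReal
  have hp : ∀ᵐ p ∂ν, 0 < g p := by
    filter_upwards [ae_lt_top mG (ne_top_of_le_ne_top ENNReal.ofReal_ne_top hG)] with p h
    refine (hb p).1.lt_of_ne' fun c => ?_
    simp [G, c] at h
  have hn' : 0 ≤ᵐ[ν] fun p => g p ^ (-t) := ae_of_all _ fun p => Real.rpow_nonneg (hb p).1 _
  have hG' : ∫⁻ p, ENNReal.ofReal (g p ^ (-t)) ∂ν ≤ ENNReal.ofReal C := by
    refine le_trans (le_of_eq (lintegral_congr_ae ?_)) hG
    filter_upwards [hp] with p h
    simp only [G, h.ne', if_false]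
  have hI : Integrable (fun p => g p ^ (-t)) ν := ⟨(hg.pow_const _).aestronglyMeasurable,
    (hasFiniteIntegral_iff_ofReal hn').2 (hG'.trans_lt ENNReal.ofReal_lt_top)⟩
  refine ⟨hp, ⟨hI, ?_⟩, ((hI.div_const t).add (integrable_const B)).mono'
    hg.log.aestronglyMeasurable ?_⟩
  · rw [← ofReal_integral_eq_lintegral_ofReal hI hn'] at hG'
    exact (ENNReal.ofReal_le_ofReal_iff C0).1 hG'
  · filter_upwards [hp] with p h
    have h1 := Real.log_le_rpow_div (inv_pos.2 h).le ht
    rw [Real.log_inv, Real.inv_rpow h.le, ← Real.rpow_neg h.le] at h1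
    have h2 := Real.log_le_sub_one_of_pos h
    have h3 : 0 ≤ g p ^ (-t) / t := div_nonneg (Real.rpow_nonneg h.le _) ht.le
    rw [Real.norm_eq_abs, abs_le, Pi.add_apply]
    constructor <;> linarith [(hb p).2]

end Pool.Agent.Lib.NV6
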