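import Pool.Agent.Lib.NV6.CBlue
import Pool.Agent.Lib.S3K.Rat

/-! Project NV6, row RAT: ratios with a relation of bounded degree. -/

open scoped Classical Topology ENNReal
open Set MeasureTheory Complex Metric Filter MvPolynomial

noncomputable section

namespace Pool.Agent.Lib.NV6

theorem cRAT (hH : St_HOM) : St_RAT := by
  intro σ _ W w y hW hI hy m g
  let I : Ideal (MvPolynomial σ ℂ) := ⨅ x ∈ W, RingHom.ker (eval x)
  have mem : ∀ f, f ∈ I ↔ Van W f := fun f => by simp [I, Van, RingHom.mem_ker]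
  have lin : ∀ (d : ℕ) (a : MvPolynomial (Fin (w + 1)) ℂ), ∃ P : MvPolynomial σ ℂ,
      a.IsHomogeneous d → P.IsHomogeneous d ∧ ∀ h, eval h P = eval (y h) a := fun d a => by
    by_cases h : a.IsHomogeneous d
    · exact (hH.lin y d a h).imp fun P hP _ => hP
    · exact ⟨0, fun h' => absurd h' h⟩
  choose L hL using lin
  have nv : ∀ d a, a.IsHomogeneous d → Van W (L d a) → a = 0 := fun d a ha h =>
    hy.ind a fun x hx => ((hL d a ha).2 x).symm.trans (h x hx)
  have hp : I.IsPrime := ⟨fun h => one_ne_zero (nv 0 1 (isHomogeneous_one _ _)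
    ((mem _).1 (h ▸ Submodule.mem_top))), fun h => (hI _ _ ((mem _).1 h)).imp (mem _).2 (mem _).2⟩
  obtain ⟨d₀, hd⟩ := S3K.rat I hp fun f hf k =>
    (mem _).2 (hH.comp k (fun c _ => hW.smul c) ((mem _).1 hf))
  refine ⟨d₀ + g, fun k A B a hA hB nA nB a0 ha rel => ?_⟩
  obtain ⟨l, hl⟩ := Function.ne_iff.1 a0
  obtain ⟨P, P', h1, h2, h3, h4⟩ := hd g k m B A
    (fun l => if h : l < m + 1 then L g (a ⟨l, h⟩) else 0) hB hA (mt (mem _).1 nA)
    (fun l h => by rw [dif_pos (Nat.lt_succ_of_le h)]; exact (hL _ _ (ha _)).1)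
    ⟨l, Nat.le_of_lt_succ l.2, fun h => hl (nv g _ (ha l) ((mem _).1 (by rwa [dif_pos l.2] at h)))⟩
    ((hp.mem_or_mem (x := L 1 (X 0)) ((mem _).2 fun h hh => by
      by_cases h0 : h = 0
      · rw [map_mul, (hL _ _ (isHomogeneous_X ℂ 0)).2, h0, map_zero, eval_X, Pi.zero_apply, zero_mul]
      · rw [map_mul, map_sum, Finset.sum_range, ← mul_zero (eval h (L 1 (X 0))), ← rel h hh h0]
        refine congrArg _ (Finset.sum_congr rfl fun l _ => ?_)
        rw [dif_pos l.2, map_mul, map_mul, map_pow, map_pow, (hL _ _ (ha l)).2, mul_assoc,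
          mul_comm (_ ^ (l : ℕ))])).resolve_left fun h =>
      X_ne_zero _ (nv 1 _ (isHomogeneous_X ℂ 0) ((mem _).1 h)))
  refine ⟨P', P, h2, h1, mt (mem _).2 h3, fun h => ?_, (mem _).1 (by
    rwa [mul_comm A, mul_comm B])⟩
  have := I.sub_mem (I.mul_mem_right A ((mem _).2 h)) h4
  rw [sub_sub_cancel] at this
  exact (hp.mem_or_mem this).elim h3 fun h => nB ((mem _).1 h)

end Pool.Agent.Lib.NV6
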