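import Pool.Agent.Lib.NV6.CBlue

/-! Project NV6, block C: concentration on the zeros. -/

open scoped Classical Topology ENNReal
open Set MeasureTheory Complex Metric Filter MvPolynomial

noncomputable section

namespace Pool.Agent.Lib.NV6

open Pool.Agent.Lib.S3K

theorem cRULE (hHOM : St_HOM) (hSPH : St_SPH) (hADM : St_ADM) (hGD : St_GD) : St_RULE := by
  intro ι κ _ _ Z W _ K x ε t ν q e N N₀ hW hO hN hN₀ ht hte hB
  obtain ⟨c1, p1⟩ := hADM.cont hN
  have c0 := (hADM.cont hN₀.1).1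
  have p0 := hN₀.2
  have cf : Continuous fun p => N p / N₀ p := c1.div c0 fun p => (p0 p).ne'
  have pf : ∀ p, 0 ≤ N p / N₀ p := fun p => div_nonneg (p1 p) (p0 p).le
  have cb : Continuous fun p => -t * Real.log (N₀ p) :=
    continuous_const.mul (c0.log fun p => (p0 p).ne')
  have hm : ∀ {η : ℝ}, 0 < η → ∀ p, 0 < N p / N₀ p + η ∧
      N₀ p * (N p / N₀ p + η) = N p + η * N₀ p := fun hη p =>
    ⟨add_pos_of_nonneg_of_pos (pf p) hη, by rw [mul_add, mul_div_cancel₀ _ (p0 p).ne', mul_comm]⟩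
  obtain ⟨B, hB0, hB1⟩ : ∃ B > (0 : ℝ), ∀ p, N₀ p ≤ B := by
    obtain ⟨B, h⟩ := (isCompact_range c0).bddAbove
    exact ⟨max B 1, lt_max_of_lt_right one_pos, fun p => le_max_of_le_left (h ⟨p, rfl⟩)⟩
  have h1 : Blow (fun p => N p / N₀ p) t
      (tl (fun p => -t * Real.log (N₀ p)) ν : Measure (Sph Z)) := fun R => by
    obtain ⟨η, hη, h⟩ := hB (R * ∫ p, Real.exp (-t * Real.log (N₀ p)) ∂(ν : Measure (Sph Z)))
    have hη' := div_pos hη hB0
    refine ⟨η / B, hη', ?_⟩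
    rw [tl_int cb, le_div_iff₀ (exp_pos' cb ν)]
    refine h.trans (integral_mono (intc (pw_cont c1 p1 t hη) _)
      (intc ((Real.continuous_exp.comp cb).mul (pw_cont cf pf t hη')) _) fun p => ?_)
    change _ ≤ Real.exp (-t * Real.log (N₀ p)) * (N p / N₀ p + η / B) ^ (-t)
    rw [mul_comm (-t), ← Real.rpow_def_of_pos (p0 p), ← Real.mul_rpow (p0 p).le (hm hη' p).1.le,
      (hm hη' p).2]
    refine Real.rpow_le_rpow_of_nonpos (add_pos_of_nonneg_of_pos (p1 p) (mul_pos hη' (p0 p)))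
      (add_le_add le_rfl ?_) (by linarith)
    rw [div_mul_eq_mul_div, div_le_iff₀ hB0]
    exact mul_le_mul_of_nonneg_left (hB1 p) hη.le
  obtain ⟨ν', h2, h3, h4⟩ := rule cf pf ht _ h1
  obtain ⟨g1, g2⟩ := hGD ι κ Z K x ε
  refine ⟨ν', ⟨closure_minimal (t := {μ : ProbabilityMeasure (Sph Z) |
    Good Z K μ (x + t * q) (ε - t * e)}) ?_ (hGD ι κ Z K _ _).2 h2,
    add_nonneg hO.x0 (by positivity), sub_pos.2 hte, h4 _
      ((hHOM.closed hW).preimage hSPH.csg).isOpen_compl ((tl_null cb ν _).2 hO.nul)⟩,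
    measure_mono_null (fun p hp => div_ne_zero hp (p0 p).ne') h3⟩
  rintro _ ⟨η, hη, rfl⟩
  have h5 := g1 ν _ _ _ hO.good (hADM.log ht.le ⟨hADM.add hN (hADM.smul hη.le hN₀.1),
    fun p => add_pos_of_nonneg_of_pos (p1 p) (mul_pos hη (p0 p))⟩)
  have h6 : (fun p => -t * Real.log (N₀ p)) + lgt (fun p => N p / N₀ p) t η =
      fun p => -(t * Real.log (N p + η * N₀ p)) := funext fun p => by
    rw [← (hm hη p).2, Real.log_mul (p0 p).ne' (hm hη p).1.ne', Pi.add_apply, lgt]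
    ring
  rw [tl_tl cb (lgt_cont cf pf t hη), h6]
  exact h5

end Pool.Agent.Lib.NV6
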