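import Pool.Agent.Lib.NV6.CBlue

/-! Project NV6, block C, row SEQ: the tower of sections. -/

open scoped Classical
open Set Complex MvPolynomial

noncomputable section

namespace Pool.Agent.Lib.NV6

namespace CSEQ

variable {ι κ : Type} [Fintype ι] [Fintype κ] {Z W : Set (ι × κ → ℂ)} {e₀ : ℕ}

theorem unit94 (hH : St_HOM) (hP : St_SPH) [CompactSpace (Sph Z)] (hZ : Mdl Z e₀) (hW : Cone W)
    (hWZ : W ⊆ Z) {p₀ : Sph Z} (h₀ : sg p₀.1 ∈ W) {d : ℕ} {P : MvPolynomial (ι × κ) ℂ}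
    (hd : P.IsHomogeneous d) (hv : ¬ Van W P) : ∃ c : ℂ, c ≠ 0 ∧ Un Z W d (C c * P) := by
  obtain ⟨p₁, h₁, hm⟩ := ((hH.closed hW).preimage hP.csg).isCompact.exists_isMaxOn ⟨p₀, h₀⟩
    (hP.cfm P).continuousOn
  have h2 : eval (sg p₁.1) P ≠ 0 := fun h0 => hv fun h hh => by
    obtain ⟨p, c, hp, rfl⟩ : ∃ (p : Sph Z) (c : ℂ), sg p.1 ∈ W ∧ h = c • sg p.1 := by
      rcases eq_or_ne h 0 with rfl | hn
      · exact ⟨p₀, 0, h₀, (zero_smul _ _).symm⟩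
      · obtain ⟨p, c, hc, rfl⟩ := hP.pt hZ h (hWZ hh) hn
        exact ⟨p, c, by simpa [smul_smul, hc] using hW.smul c⁻¹ _ hh, rfl⟩
    have h3 : fm Z P p ≤ fm Z P p₁ := hm hp
    rw [fm, fm, h0, map_zero] at h3
    rw [hH.smul c _ hd, normSq_eq_zero.1 (h3.antisymm (normSq_nonneg _)), mul_zero]
  have h4 : ∀ p, fm Z (C (eval (sg p₁.1) P)⁻¹ * P) p = (fm Z P p₁)⁻¹ * fm Z P p := fun p => by
    simp only [fm, map_mul, eval_C, map_inv₀]
  have h5 : 0 < fm Z P p₁ := normSq_pos.2 h2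
  refine ⟨_, inv_ne_zero h2, hd.C_mul _, fun p hp => ?_, p₁, h₁, ?_⟩
  · rw [h4]; exact (inv_mul_le_one₀ h5).2 (hm hp)
  · rw [h4, inv_mul_cancel₀ h5.ne']

end CSEQ

open CSEQ in
theorem cSEQ (hH : St_HOM) (hS : St_SEC) (hP : St_SPH) (hR : St_RAT) : St_SEQ := by
  intro ι κ _ _ Z W _ e₀ w m y hZ hW hWZ hI hy ⟨p₀, h₀⟩ hrel
  obtain ⟨b₀, -, ⟨i, j, hij⟩, -⟩ := hP.bc p₀
  have hX : ∀ e, ¬ Van W (X (i, j) ^ e) := fun e h => by
    have := h _ h₀
    rw [map_pow, eval_X] at this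
    exact pow_ne_zero e hij this
  have h1 : ∀ k, ∃ S, Sec Z (2 ^ k) e₀ S ∧ S p₀.1 ≠ 0 := fun k => by
    obtain ⟨N, ⟨r, S, a, b⟩, c⟩ := hZ.gen (2 ^ k) (by positivity)
    by_contra h
    have := c p₀
    rw [b, Finset.sum_eq_zero fun l _ => normSq_eq_zero.2 (by_contra fun n => h ⟨_, a l, n⟩)] at this
    exact lt_irrefl _ this
  choose s hs hs0 using h1
  obtain ⟨d, hd⟩ := hR _ W w y hW hI hy m (w * m)
  have h2 : ∀ k, ∃ (a : ℂ) (P P' : MvPolynomial (ι × κ) ℂ), a ≠ 0 ∧ Un Z W (d + e₀) P ∧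
      Un Z W d P' ∧ ∀ p : Sph Z, sg p.1 ∈ W → sg p.1 (i, j) ≠ 0 →
        s k p.1 ^ 2 * eval (sg p.1) P' = a * s (k + 1) p.1 * eval (sg p.1) P := fun k => by
    have hu := hS.pow 2 (hs k)
    have hv := hS.mul (hs (k + 1)) (hS.form (isHomogeneous_X_pow (i, j) e₀))
    rw [← pow_succ'] at hu
    rw [add_zero, ← two_mul] at hv
    obtain ⟨a, a0, a1, a2⟩ := hrel _ _ _ hu hv
    obtain ⟨k₁, A, hA⟩ := hu i j
    obtain ⟨k₂, B, hB⟩ := hv i j
    replace hA := hS.up k₂ hA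
    replace hB := hS.up k₁ hB
    rw [add_comm k₂] at hB
    generalize A * X (i, j) ^ k₂ = A at hA
    generalize B * X (i, j) ^ k₁ = B at hB
    have nz : ∀ p : Sph Z, sg p.1 (i, j) ≠ 0 →
        p.1.2 j ^ (2 * 2 ^ (k + 1)) * (p.1.1 i * p.1.2 j) ^ (k₁ + k₂) ≠ 0 := fun p h =>
      mul_ne_zero (pow_ne_zero _ (right_ne_zero_of_mul h)) (pow_ne_zero _ h)
    obtain ⟨p, p', c1, c2, c3, c4, c5⟩ := hd _ A B a hA.1 hB.1
      (fun h => by
        have := h _ h₀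
        rw [← hA.2 _ b₀, mul_assoc] at this
        exact mul_ne_zero (pow_ne_zero 2 (hs0 k)) (nz p₀ hij) this)
      (fun h => by
        have := h _ h₀
        simp only [← hB.2 _ b₀, map_pow, eval_X] at this
        rw [mul_assoc] at this
        exact mul_ne_zero (mul_ne_zero (hs0 _) (pow_ne_zero _ hij)) (nz p₀ hij) this)
      a0 a1 fun h hh hn => by
        obtain ⟨x, rfl⟩ := hZ.rk h (hWZ hh)
        have hx : x ∈ Bc Z := ⟨hWZ hh, fun e => hn (funext fun q => by simp [sg, e]),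
          fun e => hn (funext fun q => by simp [sg, e])⟩
        rw [← hA.2 x hx, ← hB.2 x hx, ← mul_zero ((x.2 j ^ (2 * 2 ^ (k + 1)) *
          (x.1 i * x.2 j) ^ (k₁ + k₂)) ^ m), ← a2 x hx hh, Finset.mul_sum]
        refine Finset.sum_congr rfl fun l _ => ?_
        obtain ⟨n, e⟩ := Nat.exists_eq_add_of_le (Nat.lt_succ_iff.1 l.2)
        generalize (l : ℕ) = l' at e
        rw [mul_assoc (s k x ^ 2), mul_assoc (s (k + 1) x * _), e, Nat.add_sub_cancel_left]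
        generalize x.2 j ^ (2 * 2 ^ (k + 1)) * (x.1 i * x.2 j) ^ (k₁ + k₂) = c
        rw [mul_pow, mul_pow _ c, pow_add]
        ring
    obtain ⟨α, α0, α1⟩ := unit94 hH hP hZ hW hWZ h₀ (c1.mul (isHomogeneous_X_pow (i, j) e₀))
      fun h => (hI _ _ h).elim c3 (hX _)
    obtain ⟨β, β0, β1⟩ := unit94 hH hP hZ hW hWZ h₀ c2 c4
    refine ⟨β / α, _, _, div_ne_zero β0 α0, α1, β1, fun q hq hn => ?_⟩
    have e := c5 _ hq
    rw [map_sub, map_mul, map_mul, ← hA.2 _ (hP.bc q).1, ← hB.2 _ (hP.bc q).1, mul_assoc (_ ^ 2),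
      mul_assoc (s (k + 1) q.1 * _)] at e
    refine mul_left_cancel₀ (nz q hn) ?_
    simp only [map_mul, eval_C]
    rw [← div_mul_cancel₀ β α0, mul_div_cancel_right₀ _ α0]
    linear_combination β / α * α * e
  choose a P P' a0 a1 a2 a3 using h2
  let c : ℕ → ℂ := fun k => Nat.rec 1 (fun k c => c ^ 2 * a k) k
  have c0 : ∀ k, c k ≠ 0 := fun k => by
    induction k with
    | zero => exact one_ne_zero
    | succ k ih => exact mul_ne_zero (pow_ne_zero 2 ih) (a0 k)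
  refine ⟨d, (i, j), fun k x => c k * s k x, P, P', by simpa using hX 1, fun k =>
    ⟨hS.smul _ (hs k), ⟨p₀, h₀, mul_ne_zero (c0 k) (hs0 k)⟩, a1 k, a2 k, fun p hp hn => ?_⟩⟩
  rw [fm, fm, ← map_pow, ← map_mul, ← map_mul]
  refine congrArg normSq (?_ : (c k * _) ^ 2 * _ = c k ^ 2 * a k * _ * _)
  linear_combination c k ^ 2 * a3 k p hp hn

end Pool.Agent.Lib.NV6
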