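import Pool.Agent.Lib.NV6.CBlue

/-! Project NV6, block C, row STAR: the test sections. -/

open scoped Classical Topology ENNReal
open Set MeasureTheory Complex Metric Filter MvPolynomial

noncomputable section

namespace Pool.Agent.Lib.NV6

namespace CSTAR

theorem pt {b b' e L θ x u u' : ℝ} (b0 : 0 ≤ b) (e0 : 0 < e) (c : ℝ) :
    c * Real.exp (u * L) * (b' * Real.exp (u' * L) *
      (b * Real.exp (u * L) + e * Real.exp (u * L)) ^ (-(2 + θ)) *
        Real.exp (-((u' - u - x - θ * u) * L))) =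
      c * (b' * (b + e) ^ (-(2 + θ)) * Real.exp (x * L)) := by
  have h : Real.exp (x * L) = Real.exp (u * L) * Real.exp (u' * L) *
      Real.exp (u * L * -(2 + θ)) * Real.exp (-((u' - u - x - θ * u) * L)) := by
    simp only [← Real.exp_add]
    exact congrArg Real.exp (by ring)
  rw [← add_mul, Real.mul_rpow (by positivity) (Real.exp_pos _).le, ← Real.exp_mul, h]
  ring

theorem hom {σ : Type} {P : ℕ → MvPolynomial σ ℂ} {d : ℕ} (h : ∀ k, (P k).IsHomogeneous d)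
    (m i : ℕ) : (∏ a ∈ Finset.range m, P (i + a)).IsHomogeneous (m * d) := by
  have := IsHomogeneous.prod (Finset.range m) (fun a => P (i + a)) (fun _ => d) fun a _ => h _
  rwa [Finset.sum_const, Finset.card_range, smul_eq_mul] at this

end CSTAR

open CSTAR in
theorem cSTAR (hSEC : St_SEC) (hADM : St_ADM) : St_STAR := by
  intro ι κ _ _ Z K x ε ν e₀ d s P' N hG x0 e0 h m
  have p1 : (0 : ℝ) < (e₀ + m * d : ℕ) + 1 := by positivity
  refine ⟨ε / (2 * (((e₀ + m * d : ℕ) : ℝ) + 1)), by positivity, fun θ t0 t1 i i' hi hx => ?_⟩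
  have h1 : Tendsto (fun j : ℕ => (2 ^ i' * e₀ : ℝ) * ((2 : ℝ) ^ j)⁻¹) atTop (𝓝 0) := by
    simpa using (tendsto_inv_atTop_zero.comp
      (tendsto_pow_atTop_atTop_of_one_lt (one_lt_two (α := ℝ)))).const_mul (2 ^ i' * e₀ : ℝ)
  filter_upwards [eventually_ge_atTop i, h1.eventually (ge_mem_nhds (half_pos e0))]
    with j hj hc η η0 e e1
  have hS : ∀ k, Sec Z (2 ^ k) (e₀ + m * d)
      fun y => s k y * eval (sg y) (∏ a ∈ Finset.range m, P' (k + a)) := fun k =>
    hSEC.mul (h k).1 (hSEC.form (hom (fun k => (h k).2.1) m k))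
  have hg : Gen Z (2 ^ j) e₀ fun p => normSq (s j p.1) + η * N j p :=
    ⟨hADM.add (hADM.one (h j).1) (hADM.smul η0.le (h j).2.2.1), fun p =>
      add_pos_of_nonneg_of_pos (normSq_nonneg _) (mul_pos η0 ((h j).2.2.2 p))⟩
  have q0 : (0 : ℝ) < 2 ^ j := by positivity
  have n1 : 2 ^ i ≤ 2 ^ i' := Nat.pow_le_pow_right two_pos hi.le
  have n2 : ((2 ^ i' - 2 ^ i : ℕ) : ℝ) = 2 ^ i' - 2 ^ i := by
    rw [Nat.cast_sub n1]
    push_cast
    rfl
  have y0 : 0 ≤ (2 : ℝ) ^ i' - 2 ^ i - x - θ * 2 ^ i := by linarith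
  have a1 := hADM.plus (hADM.const (Z := Z) (Real.log e))
    (hADM.log (t := 2 ^ i * ((2 : ℝ) ^ j)⁻¹) (by positivity) hg)
  have a2 := hADM.log (mul_nonneg y0 (inv_pos.2 q0).le) hg
  have e2 : ∀ y : ℝ, y * ((2 : ℝ) ^ j)⁻¹ * ((2 ^ j : ℕ) : ℝ) = y := fun y => by
    push_cast
    field_simp
  rw [e2, zero_add, zero_add] at a1
  rw [e2] at a2
  have c1 : 2 ^ i * ((2 : ℝ) ^ j)⁻¹ * e₀ ≤ (e₀ + m * d : ℕ) := by
    have : 2 ^ i * ((2 : ℝ) ^ j)⁻¹ ≤ 1 := by
      rw [mul_inv_le_iff₀ q0, one_mul]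
      exact pow_le_pow_right₀ one_le_two hj
    exact (mul_le_of_le_one_left (Nat.cast_nonneg _) this).trans (Nat.cast_le.2 (Nat.le_add_right _ _))
  have k := hG (2 ^ i) (2 ^ i' - 2 ^ i) (e₀ + m * d) θ _ _ _ _ _
    (Nat.sub_pos_of_lt (Nat.pow_lt_pow_right one_lt_two hi)) t0 (hS i)
    ((Nat.add_sub_cancel' n1).symm ▸ hS i') (by simpa using hADM.mono c1 a1)
    (by rw [n2]; push_cast; exact a2) (by
      have c2 : (2 ^ i' - 2 ^ i - x - θ * 2 ^ i) * ((2 : ℝ) ^ j)⁻¹ * e₀ ≤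
          2 ^ i' * ((2 : ℝ) ^ j)⁻¹ * e₀ := by
        have : (0 : ℝ) ≤ θ * 2 ^ i := by positivity
        have : (0 : ℝ) ≤ 2 ^ i := by positivity
        gcongr
        linarith
      rw [le_div_iff₀ (by positivity)] at t1
      nlinarith)
  have f1 : ∀ (k : ℕ) (p : Sph Z),
      normSq (s k p.1 * eval (sg p.1) (∏ a ∈ Finset.range m, P' (k + a))) =
      bb (fun k p => normSq (s k p.1)) (fun k => fm Z (P' k)) m k
        (lm (fun k p => normSq (s k p.1)) N j η) p *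
        Real.exp (2 ^ k * lm (fun k p => normSq (s k p.1)) N j η p) := fun k p => by
    rw [bb, mul_assoc, ← Real.exp_add, neg_add_cancel, Real.exp_zero, mul_one, map_mul, map_prod,
      map_prod, mul_comm]
    rfl
  have f2 : ∀ p : Sph Z, 0 ≤ bb (fun k p => normSq (s k p.1)) (fun k => fm Z (P' k)) m i
      (lm (fun k p => normSq (s k p.1)) N j η) p := fun p =>
    mul_nonneg (mul_nonneg (Finset.prod_nonneg fun a _ => normSq_nonneg _) (normSq_nonneg _))
      (Real.exp_pos _).le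
  have f3 : ∀ (y : ℝ) (p : Sph Z), y * ((2 : ℝ) ^ j)⁻¹ * Real.log (normSq (s j p.1) + η * N j p) =
      y * lm (fun k p => normSq (s k p.1)) N j η p := fun y p => mul_assoc _ _ _
  simp only [den, f1, f3, Real.exp_add, Real.exp_log e1, pt (f2 _) e1] at k
  exact k

end Pool.Agent.Lib.NV6
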