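import Pool.Agent.Lib.NV6.CBlue

/-! Project NV6, block C: row TEL. -/

open scoped Topology
open Set MeasureTheory Filter

noncomputable section

namespace Pool.Agent.Lib.NV6

theorem cTEL (hTLS : St_TLS) (hMOM : St_MOM) (hCLS : St_CLS) (hLIM0 : St_LIM0) (hKEY : St_KEY) :
    St_TEL := by
  intro Ω _ ν _ t C K x f P P' N hT hP hP' hx hN hS
  obtain ⟨i₀, m, θ₁, C', h1, hM⟩ := hMOM Ω ν t C x f P P' hT hx
  obtain ⟨θ₀, h0, hS⟩ := hS m
  obtain ⟨θ, t0, t1, t2, t3⟩ : ∃ θ : ℝ, 0 < θ ∧ θ ≤ θ₀ ∧ θ ≤ θ₁ ∧ θ ≤ 1 / 2 :=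
    ⟨min θ₀ (min θ₁ (1 / 2)), by positivity, min_le_left _ _,
      (min_le_right _ _).trans (min_le_left _ _), (min_le_right _ _).trans (min_le_right _ _)⟩
  obtain ⟨e, he, δ, hδ, hK⟩ := hKEY C' K θ t0 (by linarith)
  obtain ⟨n, hn⟩ := pow_unbounded_of_one_lt (2 * x) (one_lt_two (α := ℝ))
  obtain ⟨i, i', a1, a2, hC⟩ := hCLS Ω ν t C f P P' hT hP hP' m (i₀ + n) δ hδ
  have b1 : (2 : ℝ) ^ n ≤ 2 ^ i := pow_le_pow_right₀ one_le_two (by omega)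
  have b2 : (2 : ℝ) ^ (i + 1) ≤ 2 ^ i' := pow_le_pow_right₀ one_le_two a2
  have b3 : θ * 2 ^ i ≤ 1 / 2 * 2 ^ i := mul_le_mul_of_nonneg_right t3 (by positivity)
  rw [pow_succ] at b2
  obtain ⟨j, ⟨c1, c2⟩, c3⟩ := (((hS θ t0 t1 i i' a2 (by linarith)).and hC).and
    (eventually_ge_atTop (i' + m))).exists
  have ml : Measurable (l0 f j) := (Real.measurable_log.comp (hT.ms j).1).const_mul _
  have mb : ∀ k, Measurable (bb f P' m k (l0 f j)) := fun k =>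
    ((Finset.measurable_prod _ fun a _ => (hT.ms _).2.2).mul (hT.ms k).1).mul
      (Real.measurable_exp.comp (ml.const_mul _).neg)
  have pb : ∀ᵐ p ∂ν, ∀ k, k ≤ j → 0 < bb f P' m k (l0 f j) p :=
    (hTLS Ω ν t C f P P' hT).mono fun p hp k hk => by
      obtain ⟨n, rfl⟩ := Nat.exists_eq_add_of_le hk
      exact (hp m k n).2.1
  obtain ⟨d1, d2, d3, d4⟩ := hM θ t0 t2 i j (by omega) (by omega)
  obtain ⟨d5, -⟩ := hM θ t0 t2 i' j (by omega) c3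
  refine hK Ω ν _ _ (fun p => x * l0 f j p) (mb i) (mb i') (ml.const_mul x)
    (pb.mono fun p hp => ⟨hp i (by omega), hp i' (by omega)⟩) d1 d5 d2 d3 d4 c2
    (hLIM0 Ω ν t C K x θ e f P P' N m i i' j hT hx t0 he (hN j).1 (hN j).2
      (((integrable_const (1 : ℝ)).add d5.1).mono' (mb i').aestronglyMeasurable
        (pb.mono fun p hp => ?_)) fun η hη => c1 η hη e he)
  have := hp i' (by omega)
  rw [Real.norm_of_nonneg this.le, Pi.add_apply]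
  nlinarith [sq_nonneg (bb f P' m i' (l0 f j) p ^ 2 - 1), sq_nonneg (bb f P' m i' (l0 f j) p - 1),
    sq_nonneg (bb f P' m i' (l0 f j) p)]

end Pool.Agent.Lib.NV6
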