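import Pool.Agent.Lib.NV6.CBlue

/-! Project NV6, block C: the telescope. -/

open MeasureTheory Filter

namespace Pool.Agent.Lib.NV6

theorem cTLS : St_TLS := by
  intro Ω _ ν t C f P P' h
  filter_upwards [ae_all_iff.2 h.pos, ae_all_iff.2 h.rel] with p hp hr m i n
  have step : ∀ k, Real.log (f (k + 1) p) =
      2 * Real.log (f k p) + (Real.log (P' k p) - Real.log (P k p)) := fun k => by
    have e := congrArg Real.log (hr k)
    rw [Real.log_mul (pow_pos (hp k).1 2).ne' (hp k).2.2.2.1.ne',
      Real.log_mul (hp (k + 1)).1.ne' (hp k).2.1.ne', Real.log_pow] at e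
    push_cast at e
    linarith
  have h1 : l0 f (i + n) p = l0 f i p + ∑ a ∈ Finset.range n, ((2 : ℝ) ^ (i + a + 1))⁻¹ *
      (Real.log (P' (i + a) p) - Real.log (P (i + a) p)) := by
    induction n with
    | zero => simp
    | succ n ih =>
      rw [Finset.sum_range_succ, ← add_assoc (l0 f i p), ← ih, ← add_assoc i, l0, l0, step]
      field_simp
      ring
  have h2 : 0 < ∏ a ∈ Finset.range m, P' (i + a) p :=
    Finset.prod_pos fun a _ => (hp (i + a)).2.2.2.1
  refine ⟨h1, mul_pos (mul_pos h2 (hp i).1) (Real.exp_pos _), ?_⟩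
  rw [bb, Real.log_mul (mul_pos h2 (hp i).1).ne' (Real.exp_pos _).ne',
    Real.log_mul h2.ne' (hp i).1.ne', Real.log_exp,
    Real.log_prod fun a _ => (hp (i + a)).2.2.2.1.ne', h1, mul_add, Finset.mul_sum, add_assoc]
  have h3 : (2 : ℝ) ^ i * l0 f i p = Real.log (f i p) := by
    rw [l0, mul_inv_cancel_left₀ (by positivity)]
  rw [h3, neg_add, add_neg_cancel_left, ← Finset.sum_neg_distrib]
  refine congrArg _ (Finset.sum_congr rfl fun a _ => ?_)
  field_simp
  ring

end Pool.Agent.Lib.NV6
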