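import Pool.Agent.Lib.NV6.CBlue
import Pool.Agent.Lib.S3K.Rule2

/-! Project NV6, block C: uniform integrability for forms of fixed degree. -/

open scoped Classical Topology ENNReal
open Set MeasureTheory Complex Metric Filter MvPolynomial

noncomputable section

namespace Pool.Agent.Lib.NV6

open Pool.Agent.Lib.S3K (tl lgt rule_fam)

theorem cUNI (hHOM : St_HOM) (hSEC : St_SEC) (hSPH : St_SPH) (hADM : St_ADM) (hGD : St_GD)
    (hCPT : St_CPT) : St_UNI := by
  intro ι κ _ _ Z W _ K x ε t ν d hM ht htd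
  obtain ⟨r, B, T, hT, hU, hrep⟩ := hCPT ι κ Z W d hM.cone
  haveI : CompactSpace T := isCompact_iff_compactSpace.1 hT
  let f : T → Sph Z → ℝ := fun c p => fm Z (∑ l, c.1 l • B l) p
  have hf : Continuous fun z : T × Sph Z => f z.1 z.2 := by
    have h1 : (fun z : T × Sph Z => f z.1 z.2) =
        fun z => normSq (∑ l, z.1.1 l * eval (sg z.2.1) (B l)) := by
      funext z
      simp only [f, fm, map_sum, smul_eval]
    rw [h1]
    refine continuous_normSq.comp (continuous_finsetSum _ fun l _ => ?_)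
    exact ((continuous_apply l).comp (continuous_subtype_val.comp continuous_fst)).mul
      ((MvPolynomial.continuous_eval (B l)).comp (hSPH.csg.comp continuous_snd))
  have h0 : ∀ c p, 0 ≤ f c p := fun c p => normSq_nonneg _
  rcases rule_fam hf h0 ht ν with ⟨C, hC⟩ | ⟨τ, ν', h1, h2, h3⟩
  · refine ⟨C, fun P hP η hη => ?_⟩
    obtain ⟨c, hc, he⟩ := hrep P hP
    refine le_trans (le_of_eq (integral_congr_ae ?_)) (hC ⟨c, hc⟩ η hη)
    have h4 : ∀ᵐ p ∂(ν : Measure (Sph Z)), sg p.1 ∈ W := ae_iff.2 hM.nul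
    filter_upwards [h4] with p hp
    rw [he p hp]
  · exfalso
    have hu := hU τ.1 τ.2
    have hv : ¬ Van W (∑ l, τ.1 l • B l) := fun h => by
      obtain ⟨p, hp, h5⟩ := hu.ex
      rw [fm, h _ hp, map_zero] at h5
      exact zero_ne_one h5
    refine hM.min d _ hu.hom hv ν' x (ε - t * d) ⟨?_, hM.x0, by linarith, ?_⟩
    · refine closure_minimal (t := {μ : ProbabilityMeasure (Sph Z) | Good Z K μ x (ε - t * d)})
        ?_ (hGD ι κ Z K x (ε - t * d)).2 h1
      rintro _ ⟨c, η, hη, rfl⟩
      have p1 : Pos Z 0 d (f c) := hADM.one (hSEC.form (hU c.1 c.2).hom)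
      have p2 : Pos Z 0 d fun _ => η := by
        have p3 := hADM.smul hη.le
          (hADM.one (hSEC.form (Z := Z) (isHomogeneous_one (ι × κ) ℂ)))
        simp only [map_one, mul_one] at p3
        exact hADM.up (Nat.zero_le d) p3
      have g1 : Gen Z 0 d fun p => f c p + η := ⟨hADM.add p1 p2, fun p => by linarith [h0 c p]⟩
      have g2 := (hGD ι κ Z K x ε).1 ν _ _ _ hM.good (hADM.log ht.le g1)
      rw [Nat.cast_zero, mul_zero, add_zero] at g2
      have e : lgt (f c) t η = fun p => -(t * Real.log (f c p + η)) :=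
        funext fun p => neg_mul _ _
      rw [mem_setOf_eq, e]
      exact g2
    · have hO : IsOpen {p : Sph Z | sg p.1 ∉ W} :=
        ((hHOM.closed hM.cone).preimage hSPH.csg).isOpen_compl
      refine measure_mono_null (fun p hp => ?_) (measure_union_null (h3 _ hO hM.nul) h2)
      by_contra hn
      rw [mem_union, not_or] at hn
      exact hp ⟨not_not.1 hn.1, normSq_eq_zero.1 (not_not.1 hn.2)⟩

end Pool.Agent.Lib.NV6
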