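import Pool.Agent.Lib.NV6.C_ADM
import Pool.Agent.Lib.NV6.C_AMG
import Pool.Agent.Lib.NV6.C_CA
import Pool.Agent.Lib.NV6.C_CB
import Pool.Agent.Lib.NV6.C_CLS
import Pool.Agent.Lib.NV6.C_CPT
import Pool.Agent.Lib.NV6.C_DEN
import Pool.Agent.Lib.NV6.C_EXT
import Pool.Agent.Lib.NV6.C_GD
import Pool.Agent.Lib.NV6.C_HI
import Pool.Agent.Lib.NV6.C_HOM
import Pool.Agent.Lib.NV6.C_IND
import Pool.Agent.Lib.NV6.C_JET
import Pool.Agent.Lib.NV6.C_KEY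
import Pool.Agent.Lib.NV6.C_LGC
import Pool.Agent.Lib.NV6.C_LIM0
import Pool.Agent.Lib.NV6.C_LOC
import Pool.Agent.Lib.NV6.C_MIN
import Pool.Agent.Lib.NV6.C_MOM
import Pool.Agent.Lib.NV6.C_NOE
import Pool.Agent.Lib.NV6.C_NRM
import Pool.Agent.Lib.NV6.C_PIG
import Pool.Agent.Lib.NV6.C_POW
import Pool.Agent.Lib.NV6.C_RAT
import Pool.Agent.Lib.NV6.C_RULE
import Pool.Agent.Lib.NV6.C_SEC
import Pool.Agent.Lib.NV6.C_SEQ
import Pool.Agent.Lib.NV6.C_SPH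
import Pool.Agent.Lib.NV6.C_STAR
import Pool.Agent.Lib.NV6.C_TEL
import Pool.Agent.Lib.NV6.C_TLS
import Pool.Agent.Lib.NV6.C_UNI

/-! Project NV6, block C: the rows together. -/

namespace Pool.Agent.Lib.NV6

theorem st_HOM : St_HOM := cHOM

theorem st_SEC : St_SEC := cSEC cHOM

theorem st_SPH : St_SPH := cSPH cHOM

theorem st_ADM : St_ADM := cADM st_SEC st_SPH

theorem st_EXT : St_EXT := cEXT cHOM

theorem st_GD : St_GD := cGD st_SPH st_ADM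

theorem st_MIN : St_MIN := cMIN cHOM st_SEC st_SPH st_ADM (cRULE cHOM st_SPH st_ADM st_GD)

theorem st_THC : St_THC :=
  cTHC st_SPH (cIND cHOM) st_MIN cNOE
    (cCA cHOM st_SPH st_MIN cNRM (cDEN cHOM st_SPH) (cLOC cHOM st_SPH)
      (cHI cHOM st_SEC st_SPH cJET))
    (cCB st_SPH st_ADM st_MIN (cUNI cHOM st_SEC st_SPH st_ADM st_GD (cCPT cHOM st_SPH))
      (cPIG st_SPH (cCPT cHOM st_SPH)) (cSEQ cHOM st_SEC st_SPH (cRAT cHOM)) (cSTAR st_SEC st_ADM)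
      cPOW (cTEL cTLS (cMOM cTLS cAMG) (cCLS cTLS cLGC) cLIM0 cKEY))

end Pool.Agent.Lib.NV6
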