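import Pool.Agent.Lib.NV6.JBlue

/-! Project NV6, block J: the sandwich. -/

open scoped Classical Topology ContDiff ENNReal
open Set MeasureTheory Complex Metric Filter

noncomputable section

namespace Pool.Agent.Lib.NV6.J

open Pool.Agent.Lib.SV (E nsq nsq_nonneg)
open Pool.Agent.Lib.HS32 Pool.Agent.Lib.EX Pool.Agent.Lib.EXS Pool.Agent.Lib.ZL
open Pool.Agent.Lib.ZQ (HqO offz)
open Pool.Agent.Lib.NV2 (lg)

namespace SNDk

theorem om_eq {T β H : ℝ} (hT : 0 < T) (hβ : 0 < β) (hH : 0 < H) (a s : ℝ) (c : ℕ) :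
    T ^ a * β ^ (-s) / H ^ c =
      Real.exp (a * Real.log T - s * Real.log β - c * Real.log H) := by
  rw [Real.rpow_def_of_pos hT, Real.rpow_def_of_pos hβ, Real.exp_sub, Real.exp_sub,
    Real.exp_nat_mul, Real.exp_log hH, mul_neg, Real.exp_neg, mul_comm (Real.log T),
    mul_comm (Real.log β), div_eq_mul_inv (Real.exp _)]

theorem core {T H B S C₁ Cb θ s a : ℝ} {N₂ c k : ℕ} (hT : 0 < T) (hH : 0 < H) (hB : 0 < B)
    (hC : 0 < C₁) (θ0 : 0 ≤ θ) (θ1 : θ * (c + 1) ≤ s / 2) (s1 : s ≤ 1) (ha : a = -(θ * N₂))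
    (h1 : T ^ N₂ * H ^ c ≤ C₁ * S) (h2 : S * (B / H ^ k) ^ (c + 1) ≤ C₁ * T ^ N₂ * H ^ c)
    (h3 : B / H ^ k ≤ Cb) :
    Real.exp (-(θ * Real.log S + s * Real.log B + (k + 1 - θ * c - s * k) * Real.log H)) ≤
      Real.exp (θ * Real.log C₁ + |Real.log Cb|) * (T ^ a * (B / H ^ k) ^ (-s) / H ^ (k + 1)) ∧
    T ^ a * (B / H ^ k) ^ (-(s / 2)) / H ^ (k + 1) ≤ Real.exp (θ * Real.log C₁ + |Real.log Cb|) *
      Real.exp (-(θ * Real.log S + s * Real.log B + (k + 1 - θ * c - s * k) * Real.log H)) := by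
  have hβ : 0 < B / H ^ k := by positivity
  have hS : 0 < S := (pos_iff_pos_of_mul_pos (lt_of_lt_of_le (by positivity) h1)).1 hC
  have e0 : Real.log B = Real.log (B / H ^ k) + k * Real.log H := by
    rw [Real.log_div hB.ne' (by positivity), Real.log_pow]; ring
  have l1 := Real.log_le_log (by positivity) h1
  have l2 := Real.log_le_log (by positivity) h2
  have l3 := Real.log_le_log hβ h3
  rw [Real.log_mul (by positivity) (by positivity), Real.log_mul hC.ne' hS.ne', Real.log_pow,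
    Real.log_pow] at l1
  rw [Real.log_mul (by positivity) (by positivity), Real.log_mul (by positivity) (by positivity),
    Real.log_mul (by positivity) (by positivity), Real.log_pow, Real.log_pow, Real.log_pow] at l2
  rw [om_eq hT hβ hH, om_eq hT hβ hH, ← Real.exp_add, ← Real.exp_add, e0, ha]
  push_cast at l2 ⊢
  generalize Real.log (B / H ^ k) = v at *
  have m1 := mul_le_mul_of_nonneg_left l1 θ0
  have m2 := mul_le_mul_of_nonneg_left l2 θ0
  have a0 := abs_nonneg (Real.log Cb)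
  have a1 := le_abs_self (Real.log Cb)
  have c0 : (0 : ℝ) ≤ θ * (c + 1) := by positivity
  have m3 : (s / 2 - θ * (c + 1)) * v ≤ |Real.log Cb| :=
    (mul_le_mul_of_nonneg_left (l3.trans a1) (by linarith)).trans
      (mul_le_of_le_one_left a0 (by linarith))
  exact ⟨Real.exp_le_exp.2 (by nlinarith), Real.exp_le_exp.2 (by nlinarith)⟩

end SNDk

theorem jSND (hKIT : St_KIT) (hLOW : St_LOW) : St_SND := by
  intro n M _ ι _ _ D X r d k g L κ P h W b N s m hN hs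
  have hO := ZQ.HO.offz_open (oa_iff.1 m.hol)
  obtain ⟨-, k2, -, -, -, k6, k7, -, -, k10, k11, -⟩ :=
    hKIT n M ι D X (offz D g) hO (fun x hx => hx.1) m.ae
  have d1 : (1 : ℝ) ≤ d := Nat.one_le_cast.2 m.d0
  have N1 : (1 : ℝ) ≤ N := Nat.one_le_cast.2 hN
  have a0 : (0 : ℝ) ≤ N - 1 / d := sub_nonneg.2 ((div_le_one (by linarith)).2 d1 |>.trans N1)
  obtain ⟨N₂, hN₂⟩ := exists_nat_gt ((N - 1 / d : ℝ) * ((4 * r + 1 : ℕ) + 1) / (s / 2))
  have p2 : (0 : ℝ) < N₂ := lt_of_le_of_lt (div_nonneg (by positivity) (by linarith [hs.1])) hN₂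
  obtain ⟨m', σ, C₁, c1, hσ, hb⟩ := hLOW n M ι D X r d k g L κ P h W b N₂ (4 * r + 1) m
    (Nat.cast_pos.1 p2) (Nat.lt_succ_self _)
  obtain ⟨Cb, hCb⟩ := m.rb
  set θ : ℝ := (N - 1 / d) / N₂ with hθ
  have θ0 : 0 ≤ θ := div_nonneg a0 p2.le
  have θ1 : θ * ((4 * r + 1 : ℕ) + 1) ≤ s / 2 := by
    rw [hθ, div_mul_eq_mul_div, div_le_iff₀ p2]
    rw [div_lt_iff₀ (by linarith [hs.1])] at hN₂
    linarith
  have ha : (1 : ℝ) / d - N = -(θ * N₂) := by rw [hθ, div_mul_cancel₀ _ p2.ne']; ring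
  have pT : ∀ x ∈ offz D g, 0 < qt W h x := fun x hx => by
    have h1 := m.pos x hx
    refine div_pos ?_ h1
    rcases isEmpty_or_nonempty (Fin r) with h0 | ⟨⟨a⟩⟩
    · simp [nsq] at h1
    · exact Finset.sum_pos' (fun i _ => normSq_nonneg _)
        ⟨a, Finset.mem_univ _, normSq_pos.2 ((m.hne x hx).2.1 a)⟩
  have pσ : ∀ x ∈ offz D g, 0 < nsq (σ · x) := fun x hx =>
    (pos_iff_pos_of_mul_pos (lt_of_lt_of_le
      (mul_pos (pow_pos (pT x hx) _) (pow_pos (m.pos x hx) _)) (hb x hx).1)).1 c1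
  have t0 : (0 : ℝ) ≤ k + 1 - θ * (4 * r + 1 : ℕ) - s * k := by
    have : s * k ≤ k := mul_le_of_le_one_left (Nat.cast_nonneg k) hs.2
    nlinarith [hs.2]
  refine ⟨fun x => θ * lg σ x + s * Real.log (normSq (b x)) +
    (k + 1 - θ * (4 * r + 1 : ℕ) - s * k) * lg h x, Real.exp (θ * Real.log C₁ + |Real.log Cb|),
    k10 _ _ (k10 _ _ (k11 _ _ θ0 ((k6 _ σ hσ).2 pσ)) (k11 _ _ hs.1.le
      ((k7 b (k2 _ _ m.spb).1).2 fun x hx => (m.hne x hx).2.2)))
      (k11 _ _ t0 ((k6 _ h fun a => (k2 _ _ (m.sp a)).1).2 m.pos)), fun x hx => ?_⟩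
  exact SNDk.core (pT x hx) (m.pos x hx) (normSq_pos.2 (m.hne x hx).2.2) c1 θ0 θ1 hs.2 ha
    (hb x hx).1 (hb x hx).2 (hCb x hx)

end Pool.Agent.Lib.NV6.J
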