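import Pool.Agent.Lib.ZL.B_LEV

/-! Project NV6, block GAP: the test function in coordinates. -/

open scoped Classical Topology ContDiff ComplexConjugate
open Set Complex Filter

noncomputable section

namespace Pool.Agent.Lib.NV6

open Pool.Agent.Lib.SV (E levE d2 nsq)
open Pool.Agent.Lib.HS32 Pool.Agent.Lib.EX Pool.Agent.Lib.EXS Pool.Agent.Lib.ZL
open Pool.Agent.Lib.EXS.K32 Pool.Agent.Lib.ZL.LEV

variable {n : ℕ} {z v : E n}

theorem db_mul82 {f g : E n → ℂ} (hf : DifferentiableAt ℝ f z) (hg : DifferentiableAt ℝ g z) :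
    db (fun y => f y * g y) z v = db f z v * g z + f z * db g z v := by
  simp only [db, Finset.mul_sum, Finset.sum_mul, ← Finset.sum_add_distrib]
  refine Finset.sum_congr rfl fun j _ => ?_
  rw [dzb_mul hf hg]
  ring

/-- The test function `U' conj U / (|U|² + exp ψ)`. -/
theorem levU {U U' : E n → ℂ} {ψ : E n → ℝ} (hU : HolN U z) (hU' : HolN U' z)
    (hψ : ContDiffAt ℝ ∞ ψ z) (h0 : 0 ≤ lv ψ z v) :
    ContDiffAt ℝ ∞ (fun y => U' y * (star (U y) *
      ((normSq (U y) + Real.exp (ψ y))⁻¹ : ℝ))) z ∧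
    normSq (db (fun y => U' y * (star (U y) * ((normSq (U y) + Real.exp (ψ y))⁻¹ : ℝ))) z v) ≤
      normSq (U' z) * Real.exp (ψ z) / (normSq (U z) + Real.exp (ψ z)) ^ 2 *
        lv (fun y => Real.log (normSq (U y) + Real.exp (ψ y))) z v := by
  have hp := Real.exp_pos (ψ z)
  have hq := normSq_nonneg (U z)
  have g0 : 0 < normSq (U z) + Real.exp (ψ z) := by positivity
  have cU := hol_cd hU
  have cg := (cd_normSq cU).add hψ.exp
  have ci : ContDiffAt ℝ ∞ (fun y => (((normSq (U y) + Real.exp (ψ y))⁻¹ : ℝ) : ℂ)) z :=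
    cd_ofReal (cg.inv g0.ne')
  refine ⟨(hol_cd hU').mul ((cd_star cU).mul ci), ?_⟩
  have h1 : HolN (fun w (_ : Unit) => U w) z :=
    hU.mono fun w hw => differentiableAt_pi.2 fun _ => hw
  have h2 := lv_nsq h1 v
  have h3 := SV.FS.d1 h1.self_of_nhds 0
  simp only [nsq, Finset.univ_unique, Finset.sum_singleton, add_zero] at h2 h3
  have e0 : db U' z v = 0 := by
    have := ((mHOL n U' z).1 (cd_diff (hol_cd hU'))).1 hU'.self_of_nhds
    simp [db, this]
  have eP : ∀ w, fderiv ℝ U z w = fderiv ℂ (fun w (_ : Unit) => U w) z w default := fun w => by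
    rw [fderiv_pi fun _ => hU.self_of_nhds, hU.self_of_nhds.fderiv_restrictScalars ℝ]
    rfl
  have e1 : db (fun y => (((normSq (U y) + Real.exp (ψ y))⁻¹ : ℝ) : ℂ)) z v =
      (-((normSq (U z) + Real.exp (ψ z)) ^ 2)⁻¹ : ℝ) *
        db (fun y => (normSq (U y) + Real.exp (ψ y) : ℝ)) z v := by
    simp only [db, Finset.mul_sum]
    refine Finset.sum_congr rfl fun j _ => ?_
    rw [dzb_comp_real (hasDerivAt_inv g0.ne') (cd_diff cg)]
    ring
  rw [db_mul82 (cd_diff (hol_cd hU')) (cd_diff ((cd_star cU).mul ci)), e0, zero_mul, zero_add,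
    db_mul82 (cd_diff (cd_star cU)) (cd_diff ci), e1, db_eq36, db_eq36, fderiv_star' (cd_diff cU),
    fderiv_star' (cd_diff cU), fderiv_ofReal (cd_diff cg), fderiv_ofReal (cd_diff cg),
    lv_log36 (cd_normSq cU) hψ.exp g0, lv_exp36 hψ, d1_add36 (cd_normSq cU) hψ.exp,
    d1_add36 (cd_normSq cU) hψ.exp, h2, h3, h3, d1_exp36 hψ, d1_exp36 hψ, eP, eP,
    (fderiv ℂ (fun w (_ : Unit) => U w) z).map_smul, map_mul, mul_div_assoc, mul_assoc]
  refine mul_le_mul_of_nonneg_left ?_ (normSq_nonneg _)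
  generalize fderiv ℂ (fun w (_ : Unit) => U w) z v = P
  generalize fderiv ℝ ψ z v = p
  generalize fderiv ℝ ψ z (I • v) = q
  generalize Real.exp (ψ z) = B at hp g0
  generalize lv ψ z v = L at h0
  generalize U z = u at g0
  simp only [Pi.smul_apply, smul_eq_mul]
  generalize P default = w
  have e2 : (star w + I * star (I * w)) / 2 * (((normSq u + B)⁻¹ : ℝ) : ℂ) +
      star u * ((-((normSq u + B) ^ 2)⁻¹ : ℝ) * ((((2 * (w * conj u).re + B * p : ℝ) : ℂ) +
        I * ((2 * (I * w * conj u).re + B * q : ℝ) : ℂ)) / 2)) =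
      ((B / (2 * (normSq u + B) ^ 2) : ℝ) : ℂ) * star (2 * w - u * (p - I * q)) := by
    have g1 : ((normSq u + B : ℝ) : ℂ) ≠ 0 := ofReal_ne_zero.2 g0.ne'
    have a1 : ((w * conj u).re : ℂ) + I * ((I * w * conj u).re : ℂ) = conj w * u := by
      apply Complex.ext <;> simp [add_comm]
    have a2 : (normSq u : ℂ) = conj u * u := normSq_eq_conj_mul_self
    push_cast at g1 ⊢
    have a3 := mul_inv_cancel₀ g1
    simp only [star_def, map_mul, map_sub, conj_I, conj_ofReal, map_ofNat]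
    rw [div_eq_mul_inv (B : ℂ), mul_inv, ← inv_pow]
    generalize ((normSq u : ℂ) + B)⁻¹ = i at a3
    linear_combination (-i ^ 2 * conj u) * a1 + i ^ 2 * conj w * a2 -
      (i ^ 2 / 2 * conj w * (normSq u + B)) * I_mul_I - (conj w - I * I * conj w) / 2 * i * a3
  rw [e2, map_mul, normSq_ofReal, star_def, normSq_conj, div_mul_div_comm, div_mul_div_comm,
    div_mul_eq_mul_div, show 2 * (normSq u + B) ^ 2 * (2 * (normSq u + B) ^ 2) =
      (normSq u + B) ^ 2 * (4 * (normSq u + B) ^ 2) by ring, mul_assoc]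
  refine div_le_div_of_nonneg_right (mul_le_mul_of_nonneg_left ?_ hp.le) (by positivity)
  have a2 := mul_nonneg g0.le (mul_nonneg hp.le h0)
  simp only [normSq_apply, mul_re, mul_im, conj_re, conj_im, I_re, I_im, sub_re, sub_im, re_ofNat,
    im_ofNat, ofReal_re, ofReal_im] at a2 ⊢
  linarith

end Pool.Agent.Lib.NV6
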