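import Pool.Agent.Lib.NV6.JBlue

/-! Project NV6, block J, row LEV: the change of level. -/

open scoped Classical Topology ENNReal
open Set MeasureTheory Complex Filter

set_option linter.unusedVariables false

noncomputable section

namespace Pool.Agent.Lib.NV6.J

open Pool.Agent.Lib.SV (E nsq)
open Pool.Agent.Lib.HS32 Pool.Agent.Lib.EX Pool.Agent.Lib.EXS Pool.Agent.Lib.ZL
open Pool.Agent.Lib.ZQ (offz)

namespace LEVk

theorem le_nsq {r : ℕ} (v : Fin r → ℂ) (a : Fin r) : normSq (v a) ≤ nsq v :=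
  Finset.single_le_sum (f := fun j => normSq (v j)) (fun _ _ => normSq_nonneg _) (Finset.mem_univ a)

theorem lev {T : ℝ} (hT : 0 < T) (u : ℝ) (q : ℕ) :
    T ^ (u - ((1 : ℕ) : ℝ)) = T ^ (u - ((q + 1 : ℕ) : ℝ)) * T ^ q := by
  rw [← Real.rpow_natCast T q, ← Real.rpow_add hT]
  congr 1
  push_cast
  ring

variable {n r : ℕ} {M : Mf n} {d k : ℕ} {h W : Fin r → M.X → ℂ} {b : M.X → ℂ} {x : M.X}

theorem om_eq (hT : 0 < qt W h x) (hH : 0 < nsq (h · x)) (s : ℝ) (c q : ℕ) :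
    om d k h W b 1 s c x = om d k h W b (q + 1) s (c + q) x * (qt W h x * nsq (h · x)) ^ q ∧
    om d k h W b 1 s (c + q) x * (nsq (h · x) / qt W h x) ^ q = om d k h W b (q + 1) s c x := by
  unfold om
  rw [lev hT _ q, pow_add, mul_pow, div_pow]
  constructor <;> field_simp

theorem om_one (hT : 0 < qt W h x) (hH : 0 < nsq (h · x)) (hb : b x ≠ 0) (c : ℕ) :
    qt W h x * nsq (h · x) * normSq (b x) * nsq (h · x) ^ c * om d k h W b 1 1 (c + (k + 1)) x =
      qt W h x ^ ((1 : ℝ) / d) := by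
  have h1 : normSq (b x) ≠ 0 := fun h0 => hb (normSq_eq_zero.1 h0)
  unfold om bt
  rw [Real.rpow_neg_one, Nat.cast_one, Real.rpow_sub_one hT.ne', pow_add, pow_succ]
  field_simp

theorem qt_mul (hH : 0 < nsq (h · x)) : qt W h x * nsq (h · x) = nsq (W · x) :=
  div_mul_cancel₀ _ hH.ne'

end LEVk

open LEVk in
theorem jLEV (hKIT : St_KIT) (hREM : St_REM) (hIDL : St_IDL) (hMU : ZL.St_MU) : St_LEV := by
  intro n M _ ι _ _ D X r d k g L κ P h W b md c q
  obtain ⟨-, k2, -, k4, -, -, -, -, -, -, -, -, -, kI, -⟩ := hKIT n M ι D X (offz D g)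
    (ZQ.HO.offz_open (oa_iff.1 md.hol)) (fun x hx => hx.1) md.ae
  obtain ⟨i1, -, i3⟩ := hIDL n M ι D X r d k g L κ P h W b md
  have mk : ∀ (N c : ℕ) (F : M.X → ℂ) (s : ℝ) (f : M.X → ℝ) (C : ℝ), 0 < N → s ∈ Ioc (0 : ℝ) 1 →
      Ho D (offz D g) F → X.I f ≠ ⊤ → (∀ x ∈ offz D g, 0 ≤ f x ∧
        normSq (F x) * om d k h W b N s c x ≤ C * f x) →
      ∃ F' ∈ Id X d k L κ P h W b N c, ∀ x ∈ offz D g, F' x = F x := by
    intro N c F s f C hN hs hF hf hle
    have h1 := (kI _ _ C hle).2 hf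
    obtain ⟨C', hC'⟩ := (i3 N c hN).1 s hs.1.le
    obtain ⟨F', h2, h3⟩ := hREM n M ι D X g F (fun i => N * L i + κ i + c * P i) md.hol md.ne hF
      ((kI _ _ C' fun x hx => ⟨mul_nonneg (normSq_nonneg _) ((i1 x hx).2.2 N s c).le, by
        rw [mul_left_comm]
        exact mul_le_mul_of_nonneg_left (hC' x hx).2 (normSq_nonneg _)⟩).2 h1)
    refine ⟨F', ⟨h2, s, hs, (kI _ _ 1 fun x hx =>
      ⟨mul_nonneg (normSq_nonneg _) ((i1 x hx).2.2 N s c).le, ?_⟩).2 h1⟩, h3⟩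
    rw [h3 x hx, one_mul]
  have hh : ∀ a, Ho D (offz D g) (h a) := fun a => (k2 _ _ (md.sp a)).1
  have hW : ∀ a, Ho D (offz D g) (W a) := fun a => (k2 _ _ (md.spW a)).1
  have pw : ∀ F, Ho D (offz D g) F → ∀ j : ℕ, Ho D (offz D g) fun x => F x ^ j := fun F hF =>
    (k4 F F hF hF).2.2.2.1
  have ml : ∀ F G, Ho D (offz D g) F → Ho D (offz D g) G → Ho D (offz D g) fun x => F x * G x :=
    fun F G hF hG => (k4 F G hF hG).2.2.1
  refine ⟨fun a F hF => ?_, fun a F hF => ?_, ?_⟩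
  · obtain ⟨h1, s, hs, h2⟩ := hF
    refine mk (q + 1) (c + q) (fun x => F x * W a x ^ q) s _ 1 q.succ_pos hs
      (ml _ _ (k2 _ _ h1).1 (pw _ (hW a) q)) h2 fun x hx =>
        ⟨mul_nonneg (normSq_nonneg _) ((i1 x hx).2.2 _ s c).le, ?_⟩
    rw [one_mul, (om_eq (i1 x hx).1 (md.pos x hx) s c q).1, qt_mul (md.pos x hx), map_mul, map_pow,
      mul_assoc, mul_comm (normSq (W a x) ^ q)]
    exact mul_le_mul_of_nonneg_left (mul_le_mul_of_nonneg_left
      (pow_le_pow_left₀ (normSq_nonneg _) (le_nsq (W · x) a) q) ((i1 x hx).2.2 _ s _).le)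
      (normSq_nonneg _)
  · obtain ⟨h1, s, hs, h2⟩ := hF
    obtain ⟨C, hC⟩ := md.r3
    refine mk 1 (c + q) (fun x => F x * h a x ^ (2 * q) / W a x ^ q) s _ (C ^ q) one_pos hs
      ((k4 _ _ (ml _ _ (k2 _ _ h1).1 (pw _ (hh a) (2 * q))) (pw _ (hW a) q)).2.2.2.2
        fun x hx => pow_ne_zero _ ((md.hne x hx).2.1 a)) h2 fun x hx =>
        ⟨mul_nonneg (normSq_nonneg _) ((i1 x hx).2.2 _ s c).le, ?_⟩
    have hT := (i1 x hx).1
    have hH := md.pos x hx
    have h3 : 0 < normSq (W a x) := normSq_pos.2 ((md.hne x hx).2.1 a)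
    have h4 : normSq (h a x) ^ 2 / normSq (W a x) ≤ C * (nsq (h · x) / qt W h x) := by
      have h5 := hC x hx a
      rw [← qt_mul (W := W) hH] at h5
      rw [← mul_div_assoc, div_le_div_iff₀ h3 hT]
      refine le_of_mul_le_mul_right ?_ hH
      linarith
    have h5 := pow_le_pow_left₀ (div_nonneg (sq_nonneg _) h3.le) h4 q
    rw [← (om_eq hT hH s c q).2, map_div₀, map_mul, map_pow, map_pow, pow_mul, mul_div_assoc,
      ← div_pow]
    rw [mul_pow] at h5
    have h6 := mul_le_mul_of_nonneg_left h5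
      (mul_nonneg (normSq_nonneg (F x)) ((i1 x hx).2.2 1 s (c + q)).le)
    linarith
  · obtain ⟨x₀, hx₀⟩ := md.ne
    obtain ⟨a, -⟩ : ∃ a : Fin r, True := by
      by_contra h0
      have h1 := md.pos x₀ hx₀
      unfold nsq at h1
      rw [Finset.sum_eq_zero fun a _ => (h0 ⟨a, trivial⟩).elim] at h1
      exact lt_irrefl _ h1
    obtain ⟨C, hC⟩ := md.r1
    obtain ⟨F, h1, h2⟩ := mk 1 (c + (k + 1)) (fun x => W a x * b x * h a x ^ c) 1
      (fun x => Real.exp (lw D (fun i => -((L i : ℝ) / d)) x)) (C ^ ((1 : ℝ) / d)) one_pos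
      ⟨one_pos, le_rfl⟩ (ml _ _ (ml _ _ (hW a) (k2 _ _ md.spb).1) (pw _ (hh a) c))
      ((hMU n M ι D X).2.2.2.1 _ fun i => by linarith [md.lo i]) fun x hx =>
        ⟨(Real.exp_pos _).le, by
          have hT := (i1 x hx).1
          have hH := md.pos x hx
          have h3 := hC x hx
          have h4 : 0 ≤ C := nonneg_of_mul_nonneg_left (hT.le.trans h3) (Real.exp_pos _)
          have h5 : lw D (fun i => -((L i : ℝ) / d)) x =
              -lw D (fun i => L i) x * ((1 : ℝ) / d) := by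
            unfold lw
            rw [← Finset.sum_neg_distrib, Finset.sum_mul]
            exact Finset.sum_congr rfl fun i _ => by ring
          rw [h5, Real.exp_mul, ← Real.mul_rpow h4 (Real.exp_pos _).le]
          refine le_trans ?_ (Real.rpow_le_rpow hT.le h3 (by positivity))
          rw [← om_one (d := d) (k := k) hT hH (md.hne x hx).2.2 c, qt_mul hH, map_mul, map_mul,
            map_pow]
          exact mul_le_mul_of_nonneg_right (mul_le_mul (mul_le_mul_of_nonneg_right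
            (le_nsq (W · x) a) (normSq_nonneg _))
            (pow_le_pow_left₀ (normSq_nonneg _) (le_nsq (h · x) a) c)
            (pow_nonneg (normSq_nonneg _) _) (mul_nonneg
              ((normSq_nonneg _).trans (le_nsq (W · x) a)) (normSq_nonneg _)))
            ((i1 x hx).2.2 _ _ _).le⟩
    refine ⟨F, h1, x₀, hx₀, ?_⟩
    rw [h2 x₀ hx₀]
    exact mul_ne_zero (mul_ne_zero ((md.hne x₀ hx₀).2.1 a) (md.hne x₀ hx₀).2.2)
      (pow_ne_zero _ ((md.hne x₀ hx₀).1 a))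

end Pool.Agent.Lib.NV6.J
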