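import Pool.Agent.Lib.NV2.Blue
import Pool.Agent.Lib.ZQ.HqO

/-! Project NV6, block J: the reference divisor is nef. Objects and blueprint. -/

open scoped Classical Topology ContDiff ENNReal
open Set MeasureTheory Complex Metric Filter

set_option linter.unusedVariables false

noncomputable section

namespace Pool.Agent.Lib.NV6.J

open Pool.Agent.Lib.SV (E nsq)
open Pool.Agent.Lib.HS32 Pool.Agent.Lib.EX Pool.Agent.Lib.EXS Pool.Agent.Lib.ZL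
open Pool.Agent.Lib.EXS.K32 (lv)
open Pool.Agent.Lib.ZQ (HqO offz)
open Pool.Agent.Lib.NV2 (lg Wt Zo)

section defs

variable {n r : ℕ} {M : Mf n} {ι : Type} [Fintype ι] [DecidableEq ι]

/-- A monomial. -/
def mon {Y : Type} {k : ℕ} (h : Fin r → Y → ℂ) (I : Fin k → Fin r) (x : Y) : ℂ := ∏ p, h (I p) x

/-- The value of a polynomial. -/
def pv {Y : Type} (h : Fin r → Y → ℂ) (R : MvPolynomial (Fin r) ℂ) (x : Y) : ℂ :=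
  MvPolynomial.eval (h · x) R

/-- On `O` the function `f` is a form of degree `k` in `h` with coefficients in `S`. -/
def Dv {Y : Type} (O : Set Y) (h : Fin r → Y → ℂ) (k : ℕ) (S : Set (Y → ℂ)) (f : Y → ℂ) : Prop :=
  ∃ H : (Fin k → Fin r) → Y → ℂ, (∀ I, H I ∈ S) ∧ ∀ x ∈ O, f x = ∑ I, mon h I x * H I x

/-- On `O` the function `f` is a combination of the family `s` with forms of degree `k`. -/
def Cb {Y : Type} {m : ℕ} (O : Set Y) (h : Fin r → Y → ℂ) (k : ℕ) (s : Fin m → Y → ℂ)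
    (f : Y → ℂ) : Prop := ∃ R : Fin m → MvPolynomial (Fin r) ℂ, (∀ j, (R j).IsHomogeneous k) ∧
  ∀ x ∈ O, f x = ∑ j, pv h (R j) x * s j x

/-- The quotient of the squared norms. -/
def qt {Y : Type} (W h : Fin r → Y → ℂ) (x : Y) : ℝ := nsq (W · x) / nsq (h · x)

/-- The normalised squared norm. -/
def bt {Y : Type} (h : Fin r → Y → ℂ) (k : ℕ) (b : Y → ℂ) (x : Y) : ℝ :=
  normSq (b x) / nsq (h · x) ^ k

variable (D : Ad M ι)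

/-- Holomorphic on `O`. -/
def Ho (O : Set M.X) (F : M.X → ℂ) : Prop := D.On O fun d z => HolN (D.rd F d) z

/-- Smooth and plurisubharmonic on `O`. -/
def Ps (O : Set M.X) (φ : M.X → ℝ) : Prop :=
  D.On O fun d z => ContDiffAt ℝ ∞ (D.rd φ d) z ∧ ∀ v, 0 ≤ lv (D.rd φ d) z v

variable {D} (X : Cx D)

/-- The norm in degree `j`. -/
def Nj (h : Fin r → M.X → ℂ) (φ : M.X → ℝ) (j : ℕ) (F : M.X → ℂ) : ℝ≥0∞ :=
  X.I fun x => normSq (F x) * Real.exp (-φ x) / nsq (h · x) ^ j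

/-- The weight is bounded above by the model with poles `Q`. -/
def Up (O : Set M.X) (Q : ι → ℤ) (φ : M.X → ℝ) : Prop :=
  ∃ C, ∀ x ∈ O, φ x ≤ C - lw D (fun i => Q i - X.o i) x

/-- A weight for the poles `Q` with curvature at least `-ε`, against which `v` is integrable. -/
def Wz (Q : ι → ℤ) (v : M.X → ℝ) (C A ε : ℝ) (ρ : M.X → ℝ) : Prop :=
  Psh D (fun x => ρ x + ε * X.α x) ∧ (∀ x ∈ off D, ρ x ≤ C - lw D (fun i => Q i - X.o i) x) ∧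
  X.I (fun x => v x * Real.exp (-ρ x)) ≤ ENNReal.ofReal A

/-- The open set and a family of sections without common zero on it. -/
structure Fr (g : M.X → ℂ) (P : ι → ℤ) (h : Fin r → M.X → ℂ) : Prop where
  hol : HoO D g
  ne : ∃ x ∈ off D, g x ≠ 0
  ae : ∀ᵐ x ∂X.μ, x ∈ offz D g
  hq : HqO 1 D X.μ (offz D g)
  sp : ∀ a, Sp D P (h a)
  pos : ∀ x ∈ offz D g, 0 < nsq (h · x)

/-- The square integrable sections with poles `Q` and degree `c`. -/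
def Se (P : ι → ℤ) (h : Fin r → M.X → ℂ) (Q : ι → ℤ) (c : ℕ) (F : M.X → ℂ) : Prop :=
  Sp D (fun i => Q i + c * P i) F ∧ Nj X h (fun x => -lw D (fun i => Q i - X.o i) x) c F ≠ ⊤

/-- The model: `L` is the reference class, sections of level `N` have poles `N L + κ`. -/
structure Md (d k : ℕ) (L κ : ι → ℤ) (g : M.X → ℂ) (P : ι → ℤ) (h W : Fin r → M.X → ℂ)
    (b : M.X → ℂ) : Prop extends Fr X g P h where
  d0 : 0 < d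
  lo : ∀ i, (L i : ℝ) / d ≤ X.o i
  hi : ∀ i, X.o i - L i / d ≤ κ i
  zo : ∀ N : ℕ, 0 < N → ∃ C A : ℝ, ∀ ε > (0 : ℝ), ∃ ρ,
    Wz X (fun i => N * L i + κ i) (fun x => qt W h x ^ N) C A ε ρ
  rg : ∃ Q, Sp D Q g
  hne : ∀ x ∈ offz D g, (∀ a, h a x ≠ 0) ∧ (∀ a, W a x ≠ 0) ∧ b x ≠ 0
  spW : ∀ a, Sp D (fun i => L i + P i) (W a)
  spb : Sp D (fun i => k * P i) b
  r1 : ∃ C, ∀ x ∈ offz D g, qt W h x ≤ C * Real.exp (-lw D (fun i => L i) x)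
  r3 : ∃ C, ∀ x ∈ offz D g, ∀ a,
    nsq (W · x) * normSq (h a x) ^ 2 ≤ C * normSq (W a x) * nsq (h · x) ^ 2
  rb : ∃ C, ∀ x ∈ offz D g, bt h k b x ≤ C
  r2 : ∀ (N c : ℕ) F, 0 < N → Se X P h (fun i => N * L i + κ i) c F → ∃ C, ∀ x ∈ offz D g,
    normSq (F x) * bt h k b x ^ (c + 1) ≤ C * qt W h x ^ N * nsq (h · x) ^ c

/-- Two sections with poles `Q` are proportional over the field of the model. -/
def Rk (g : M.X → ℂ) (P : ι → ℤ) (h : Fin r → M.X → ℂ) (Q : ι → ℤ) : Prop :=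
  ∀ (c : ℕ) F F', Se X P h Q c F → Se X P h Q c F' →
    F ≠ 0 → ∃ (e : ℕ) (A B : MvPolynomial (Fin r) ℂ), A.IsHomogeneous e ∧ B.IsHomogeneous e ∧
      (∃ x ∈ offz D g, pv h A x ≠ 0) ∧ ∀ x ∈ offz D g, F' x * pv h A x = F x * pv h B x

/-- The weight of the ideals. -/
def om (d k : ℕ) (h W : Fin r → M.X → ℂ) (b : M.X → ℂ) (N : ℕ) (s : ℝ) (c : ℕ) (x : M.X) : ℝ :=
  qt W h x ^ ((1 : ℝ) / d - N) * bt h k b x ^ (-s) / nsq (h · x) ^ c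

/-- The ideal of level `N` in degree `c`. -/
def Id (d k : ℕ) (L κ P : ι → ℤ) (h W : Fin r → M.X → ℂ) (b : M.X → ℂ) (N c : ℕ) :
    Set (M.X → ℂ) := {F | Sp D (fun i => N * L i + κ i + c * P i) F ∧ ∃ s ∈ Ioc (0 : ℝ) 1,
      X.I (fun x => normSq (F x) * om d k h W b N s c x) ≠ ⊤}

/-- The generators at all levels. -/
def Gq (g : M.X → ℂ) (h W : Fin r → M.X → ℂ) {m : ℕ} (C : Fin m → M.X → ℂ) : Prop :=
  ∀ q : ℕ, ∃ (m' : ℕ) (s : Fin m' → M.X → ℂ), (∀ j, HoO D (s j)) ∧ ∀ a,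
    (∀ j, Cb (offz D g) h q C fun x => s j x * h a x ^ (2 * q) / W a x ^ q) ∧
    ∀ i, Cb (offz D g) h q s fun x => C i x * W a x ^ q

/-- The class `q B + H` is generated for every `q`. -/
def Nf (O : Set M.X) (h W : Fin r → M.X → ℂ) : Prop :=
  ∀ q : ℕ, ∃ (m : ℕ) (u : Fin m → M.X → ℂ), (∀ j, Ho D O (u j)) ∧ ∀ a,
    (∀ j, ∃ R : MvPolynomial (Fin r) ℂ, R.IsHomogeneous (q + 1) ∧
      ∀ x ∈ O, u j x * h a x ^ (2 * q) = W a x ^ q * pv h R x) ∧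
    ∀ a', Cb O h q u fun x => W a x ^ q * h a' x

end defs

/-! ### Abstract rows -/

/-- A bounded sequence in a space of finite dimension. -/
def St_LM0 : Prop := ∀ (Y κ : Type) [MeasurableSpace Y] [Fintype κ] (μ : Measure Y)
  (S : Submodule ℂ (Y → ℂ)) (w₀ w : Y → ℝ) (a : ℕ → Y → ℝ) (F : ℕ → κ → Y → ℂ) (B : ℝ≥0∞),
  FiniteDimensional ℂ S → B ≠ ⊤ → AEMeasurable w₀ μ → (∀ ν, AEMeasurable (a ν) μ) →
  (∀ f ∈ S, AEMeasurable f μ ∧ ((∀ᵐ x ∂μ, f x = 0) → f = 0)) →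
  (∀ᵐ x ∂μ, 0 < w₀ x ∧ (∀ ν, w₀ x ≤ a ν x) ∧ Tendsto (a · x) atTop (𝓝 (w x))) →
  (∀ ν i, F ν i ∈ S ∧ ∫⁻ x, ENNReal.ofReal (normSq (F ν i x) * a ν x) ∂μ ≤ B) →
  ∃ (G : κ → Y → ℂ) (φ : ℕ → ℕ), ∀ i, G i ∈ S ∧
    ∫⁻ x, ENNReal.ofReal (normSq (G i x) * w x) ∂μ ≤ B ∧
    ∀ x, Tendsto (fun ν => F (φ ν) i x) atTop (𝓝 (G i x))

/-- From words to forms. -/
def St_FRM : Prop := ∀ (Y : Type) (r : ℕ) (O : Set Y) (h : Fin r → Y → ℂ),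
  (∀ S : Submodule ℂ (Y → ℂ), FiniteDimensional ℂ S → ∃ (m : ℕ) (s : Fin m → Y → ℂ),
    (∀ j, s j ∈ S ∧ s j ≠ 0) ∧ ∀ k f, Dv O h k S f → Cb O h k s f) ∧
  (∀ (k : ℕ) (S : Set (Y → ℂ)) f, Dv O h k S f → ∃ (m : ℕ) (s : Fin m → Y → ℂ), (∀ j, s j ∈ S) ∧
    ∀ x ∈ O, normSq (f x) ≤ nsq (h · x) ^ k * nsq (s · x)) ∧
  ∀ (k : ℕ) (R : MvPolynomial (Fin r) ℂ), R.IsHomogeneous k →
    (∀ (t : ℂ) (y : Fin r → ℂ),
      MvPolynomial.eval (fun a => y a * t) R = MvPolynomial.eval y R * t ^ k) ∧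
    ∃ C, ∀ y : Fin r → ℂ, normSq (MvPolynomial.eval y R) ≤ C * nsq y ^ k

/-- The algebra of the new model. -/
def St_SGA : Prop := ∀ (Y : Type) (r m : ℕ) (O : Set Y) (h W : Fin r → Y → ℂ)
  (C Q : Fin m → Y → ℂ) (τ : Y → ℂ) (q m' : ℕ) (s : Fin m' → Y → ℂ) (r' m'' : ℕ)
  (e : Fin r' ≃ Fin r × Fin m) (e' : Fin m'' ≃ Fin m' × Fin r),
  (∀ x ∈ O, τ x ≠ 0 ∧ (∀ a, W a x ≠ 0) ∧ ∀ i, C i x = τ x * Q i x) →
  (∀ a, (∀ j, Cb O h q C fun x => s j x * h a x ^ (2 * q) / W a x ^ q) ∧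
    ∀ i, Cb O h q s fun x => C i x * W a x ^ q) → ∀ α,
  (∀ j, ∃ R : MvPolynomial (Fin r') ℂ, R.IsHomogeneous (q + 1) ∧ ∀ x ∈ O,
    s (e' j).1 x * h (e' j).2 x / τ x * (h (e α).1 x * Q (e α).2 x) ^ (2 * q) =
      (W (e α).1 x * Q (e α).2 x) ^ q * pv (fun β y => h (e β).1 y * Q (e β).2 y) R x) ∧
  ∀ β, Cb O (fun β y => h (e β).1 y * Q (e β).2 y) q (fun j y => s (e' j).1 y * h (e' j).2 y / τ y)
    fun x => (W (e α).1 x * Q (e α).2 x) ^ q * (h (e β).1 x * Q (e β).2 x)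

/-! ### Rows on the manifold -/

/-- Calculus on the open set. -/
def St_KIT : Prop := ∀ (n : ℕ) (M : Mf n) [M.Cpt] (ι : Type) [Fintype ι] [DecidableEq ι]
  (D : Ad M ι) (X : Cx D) (O : Set M.X), IsOpen O → O ⊆ off D → (∀ᵐ x ∂X.μ, x ∈ O) →
  (∀ F, HoO D F → Ho D O F) ∧ (∀ Q F, Sp D Q F → Ho D O F ∧ ((∀ x ∈ O, F x = 0) → F = 0)) ∧
  (∀ c : ℂ, Ho D O fun _ => c) ∧
  (∀ F G, Ho D O F → Ho D O G → Ho D O (fun x => F x + G x) ∧ Ho D O (fun x => F x - G x) ∧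
    Ho D O (fun x => F x * G x) ∧ (∀ k : ℕ, Ho D O fun x => F x ^ k) ∧
    ((∀ x ∈ O, G x ≠ 0) → Ho D O fun x => F x / G x)) ∧
  (∀ (κ : Type) [Fintype κ] (F : κ → M.X → ℂ), (∀ i, Ho D O (F i)) →
    Ho D O (fun x => ∑ i, F i x) ∧ Ho D O (fun x => ∏ i, F i x) ∧
    ContinuousOn (fun x => nsq (F · x)) O) ∧
  (∀ (r : ℕ) (h : Fin r → M.X → ℂ), (∀ a, Ho D O (h a)) → (∀ R, Ho D O (pv h R)) ∧
    ((∀ x ∈ O, 0 < nsq (h · x)) → Ps D O (lg h))) ∧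
  (∀ F, Ho D O F → ContinuousOn F O ∧
    ((∀ x ∈ O, F x ≠ 0) → Ps D O fun x => Real.log (normSq (F x)))) ∧
  (∀ φ, Psh D φ → Ps D O φ) ∧ (∀ φ, Ps D O φ → ContinuousOn φ O) ∧
  (∀ φ ψ, Ps D O φ → Ps D O ψ → Ps D O fun x => φ x + ψ x) ∧
  (∀ (t : ℝ) φ, 0 ≤ t → Ps D O φ → Ps D O fun x => t * φ x) ∧
  (∀ a, ContinuousOn (lw D a) O) ∧
  (∀ (F : Type) [TopologicalSpace F] [MeasurableSpace F] [BorelSpace F] (f : M.X → F),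
    ContinuousOn f O → AEMeasurable f X.μ) ∧
  (∀ (f f' : M.X → ℝ) (C : ℝ), (∀ x ∈ O, 0 ≤ f' x ∧ f x ≤ C * f' x) →
    X.I f ≤ ENNReal.ofReal C * X.I f' ∧ (X.I f' ≠ ⊤ → X.I f ≠ ⊤)) ∧
  ∀ (r : ℕ) (P : ι → ℤ) (h : Fin r → M.X → ℂ), (∀ a, Sp D P (h a)) →
    (∃ C > (0 : ℝ), ∀ x ∈ O, nsq (h · x) ≤ C * Real.exp (-lw D (fun i => P i) x)) ∧
    (∀ (k : ℕ) (I : Fin k → Fin r), ∃ F, Sp D (fun i => k * P i) F ∧ ∀ x ∈ O, F x = mon h I x) ∧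
    ∀ (k : ℕ) (R : MvPolynomial (Fin r) ℂ), R.IsHomogeneous k →
      ∃ F, Sp D (fun i => k * P i) F ∧ ∀ x ∈ off D, F x = pv h R x

/-- Removal of singularities. -/
def St_REM : Prop := ∀ (n : ℕ) (M : Mf n) [M.Cpt] (ι : Type) [Fintype ι] [DecidableEq ι]
  (D : Ad M ι) (X : Cx D) (g F : M.X → ℂ) (Q : ι → ℤ), HoO D g → (∃ x ∈ off D, g x ≠ 0) →
  Ho D (offz D g) F →
  X.I (fun x => normSq (F x) * Real.exp (lw D (fun i => Q i - X.o i) x)) ≠ ⊤ →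
  ∃ F', Sp D Q F' ∧ ∀ x ∈ offz D g, F' x = F x

/-- The division of Skoda. -/
def St_SK : Prop := ∀ (n : ℕ) (M : Mf n) [M.Cpt] (ι : Type) [Fintype ι] [DecidableEq ι]
  (D : Ad M ι) (X : Cx D) (r : ℕ) (g : M.X → ℂ) (P Q : ι → ℤ) (h : Fin r → M.X → ℂ)
  (φ : M.X → ℝ) (j : ℕ) (f : M.X → ℂ), Fr X g P h → Ps D (offz D g) φ → Up X (offz D g) Q φ →
  4 * r < j → Sp D (fun i => Q i + (j + 1 : ℕ) * P i) f → Nj X h φ (j + 1) f ≠ ⊤ →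
  ∃ H : Fin r → M.X → ℂ, (∀ a, Sp D (fun i => Q i + j * P i) (H a) ∧
    Nj X h φ j (H a) ≤ 16 * Nj X h φ (j + 1) f) ∧ ∀ x ∈ offz D g, f x = ∑ a, h a x * H a x

/-- The iterated division. -/
def St_SKK : Prop := ∀ (n : ℕ) (M : Mf n) [M.Cpt] (ι : Type) [Fintype ι] [DecidableEq ι]
  (D : Ad M ι) (X : Cx D) (r : ℕ) (g : M.X → ℂ) (P Q : ι → ℤ) (h : Fin r → M.X → ℂ)
  (φ : M.X → ℝ) (j k : ℕ) (f : M.X → ℂ), Fr X g P h → Ps D (offz D g) φ → Up X (offz D g) Q φ →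
  4 * r < j → Sp D (fun i => Q i + (j + k : ℕ) * P i) f → Nj X h φ (j + k) f ≠ ⊤ →
  Dv (offz D g) h k
    {H | Sp D (fun i => Q i + j * P i) H ∧ Nj X h φ j H ≤ 16 ^ k * Nj X h φ (j + k) f} f

/-- The division with the weights of Theorem Z. -/
def St_ZDV : Prop := ∀ (n : ℕ) (M : Mf n) [M.Cpt] (ι : Type) [Fintype ι] [DecidableEq ι]
  (D : Ad M ι) (X : Cx D) (r : ℕ) (g : M.X → ℂ) (P Q : ι → ℤ) (h : Fin r → M.X → ℂ)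
  (v : M.X → ℝ) (C A : ℝ) (j k : ℕ) (f : M.X → ℂ), Fr X g P h →
  (∀ ε > (0 : ℝ), ∃ ρ, Wz X Q v C A ε ρ) → 4 * r < j →
  Sp D (fun i => Q i + (j + k : ℕ) * P i) f →
  (∀ x ∈ offz D g, normSq (f x) ≤ v x * nsq (h · x) ^ (j + k)) →
  Dv (offz D g) h k {H | Se X P h Q j H} f

/-- The weights for a nef canonical class. -/
def St_ZW : Prop := ∀ (n : ℕ) (M : Mf n) [M.Cpt] (ι : Type) [Fintype ι] [DecidableEq ι]
  (D : Ad M ι) (X : Cx D) (d : ℕ) (O : Set M.X) (T : M.X → ℝ) (C : ℝ), 0 < d → O ⊆ off D →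
  (∀ᵐ x ∂X.μ, x ∈ O) → Zo X X.l X.l →
  (∀ x ∈ O, 0 ≤ T x ∧ T x ≤ C * Real.exp (-lw D (fun i => (d * X.l i : ℤ)) x)) →
  ∀ N : ℕ, 0 < N → ∃ C A : ℝ, ∀ ε > (0 : ℝ), ∃ ρ,
    Wz X (fun i => N * (d * X.l i) + (0 : ι → ℤ) i) (fun x => T x ^ N) C A ε ρ

/-- The sections of level `N` generate the reference divisor up to the factor `b`. -/
def St_LOW : Prop := ∀ (n : ℕ) (M : Mf n) [M.Cpt] (ι : Type) [Fintype ι] [DecidableEq ι]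
  (D : Ad M ι) (X : Cx D) (r d k : ℕ) (g : M.X → ℂ) (L κ P : ι → ℤ) (h W : Fin r → M.X → ℂ)
  (b : M.X → ℂ) (N c : ℕ), Md X d k L κ g P h W b → 0 < N → 4 * r < c →
  ∃ (m : ℕ) (σ : Fin m → M.X → ℂ) (C : ℝ), 0 < C ∧ (∀ i, Ho D (offz D g) (σ i)) ∧
    ∀ x ∈ offz D g, qt W h x ^ N * nsq (h · x) ^ c ≤ C * nsq (σ · x) ∧
      nsq (σ · x) * bt h k b x ^ (c + 1) ≤ C * qt W h x ^ N * nsq (h · x) ^ c

/-- The sandwich. -/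
def St_SND : Prop := ∀ (n : ℕ) (M : Mf n) [M.Cpt] (ι : Type) [Fintype ι] [DecidableEq ι]
  (D : Ad M ι) (X : Cx D) (r d k : ℕ) (g : M.X → ℂ) (L κ P : ι → ℤ) (h W : Fin r → M.X → ℂ)
  (b : M.X → ℂ) (N : ℕ) (s : ℝ), Md X d k L κ g P h W b → 0 < N → s ∈ Ioc (0 : ℝ) 1 →
  ∃ (φ : M.X → ℝ) (C : ℝ), Ps D (offz D g) φ ∧ ∀ x ∈ offz D g,
    Real.exp (-φ x) ≤ C * om d k h W b N s (k + 1) x ∧
    om d k h W b N (s / 2) (k + 1) x ≤ C * Real.exp (-φ x)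

/-- The ideals. -/
def St_IDL : Prop := ∀ (n : ℕ) (M : Mf n) [M.Cpt] (ι : Type) [Fintype ι] [DecidableEq ι]
  (D : Ad M ι) (X : Cx D) (r d k : ℕ) (g : M.X → ℂ) (L κ P : ι → ℤ) (h W : Fin r → M.X → ℂ)
  (b : M.X → ℂ), Md X d k L κ g P h W b →
  (∀ x ∈ offz D g, 0 < qt W h x ∧ 0 < bt h k b x ∧ ∀ N s c, 0 < om d k h W b N s c x) ∧
  (∀ N s c, ContinuousOn (om d k h W b N s c) (offz D g)) ∧
  ∀ N c : ℕ, 0 < N → (∀ s ≥ (0 : ℝ), ∃ C, ∀ x ∈ offz D g,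
      Real.exp (lw D (fun i => (N * L i + κ i : ℤ) - X.o i) x) / nsq (h · x) ^ c ≤
        C * om d k h W b N s c x ∧
      Real.exp (lw D (fun i => (N * L i + κ i + c * P i : ℤ) - X.o i) x) ≤
        C * om d k h W b N s c x) ∧
    (∀ F ∈ Id X d k L κ P h W b N c, Se X P h (fun i => N * L i + κ i) c F) ∧
    ∃ S : Submodule ℂ (M.X → ℂ), FiniteDimensional ℂ S ∧ (S : Set _) = Id X d k L κ P h W b N c

/-- The ideals are generated in a fixed degree. -/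
def St_IDV : Prop := ∀ (n : ℕ) (M : Mf n) [M.Cpt] (ι : Type) [Fintype ι] [DecidableEq ι]
  (D : Ad M ι) (X : Cx D) (r d k : ℕ) (g : M.X → ℂ) (L κ P : ι → ℤ) (h W : Fin r → M.X → ℂ)
  (b : M.X → ℂ) (N c q : ℕ), Md X d k L κ g P h W b → 0 < N → 4 * r + k + 1 < c →
  ∀ F ∈ Id X d k L κ P h W b N (c + q), Dv (offz D g) h q (Id X d k L κ P h W b N c) F

/-- The change of level. -/
def St_LEV : Prop := ∀ (n : ℕ) (M : Mf n) [M.Cpt] (ι : Type) [Fintype ι] [DecidableEq ι]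
  (D : Ad M ι) (X : Cx D) (r d k : ℕ) (g : M.X → ℂ) (L κ P : ι → ℤ) (h W : Fin r → M.X → ℂ)
  (b : M.X → ℂ), Md X d k L κ g P h W b → ∀ (c q : ℕ),
  (∀ a, ∀ F ∈ Id X d k L κ P h W b 1 c, ∃ F' ∈ Id X d k L κ P h W b (q + 1) (c + q),
    ∀ x ∈ offz D g, F' x = F x * W a x ^ q) ∧
  (∀ a, ∀ F ∈ Id X d k L κ P h W b (q + 1) c, ∃ F' ∈ Id X d k L κ P h W b 1 (c + q),
    ∀ x ∈ offz D g, F' x = F x * h a x ^ (2 * q) / W a x ^ q) ∧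
  ∃ F ∈ Id X d k L κ P h W b 1 (c + (k + 1)), ∃ x ∈ offz D g, F x ≠ 0

/-- The generators. -/
def St_GEN : Prop := ∀ (n : ℕ) (M : Mf n) [M.Cpt] (ι : Type) [Fintype ι] [DecidableEq ι]
  (D : Ad M ι) (X : Cx D) (r d k : ℕ) (g : M.X → ℂ) (L κ P : ι → ℤ) (h W : Fin r → M.X → ℂ)
  (b : M.X → ℂ), Md X d k L κ g P h W b → ∃ (c m : ℕ) (C : Fin m → M.X → ℂ), 0 < m ∧
    (∀ i, Se X P h (fun i => L i + κ i) c (C i) ∧ C i ≠ 0) ∧ Gq (D := D) g h W C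

/-- The common denominator. -/
def St_DEN : Prop := ∀ (n : ℕ) (M : Mf n) [M.Cpt] (ι : Type) [Fintype ι] [DecidableEq ι]
  (D : Ad M ι) (X : Cx D) (r c m : ℕ) (g : M.X → ℂ) (P Q₀ : ι → ℤ) (h : Fin r → M.X → ℂ)
  (C : Fin m → M.X → ℂ), Fr X g P h → (∃ Q, Sp D Q g) → Rk X g P h Q₀ → 0 < m →
  (∀ i, Se X P h Q₀ c (C i) ∧ C i ≠ 0) →
  ∃ (e : ℕ) (Q : Fin m → MvPolynomial (Fin r) ℂ) (g' τ : M.X → ℂ), (∀ i, (Q i).IsHomogeneous e) ∧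
    (∃ R, Sp D R g') ∧ (∃ x ∈ off D, g' x ≠ 0) ∧ offz D g' ⊆ offz D g ∧ Ho D (offz D g') τ ∧
    ∀ x ∈ offz D g', τ x ≠ 0 ∧ ∀ i, pv h (Q i) x ≠ 0 ∧ C i x = τ x * pv h (Q i) x

/-- The theorem of the block. -/
def St_J : Prop := ∀ (n : ℕ) (M : Mf n) [M.Cpt] (ι : Type) [Fintype ι] [DecidableEq ι]
  (D : Ad M ι) (X : Cx D) (r d k : ℕ) (g : M.X → ℂ) (L κ P : ι → ℤ) (h W : Fin r → M.X → ℂ)
  (b : M.X → ℂ), Md X d k L κ g P h W b → Rk X g P h (fun i => L i + κ i) →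
  ∃ (m e : ℕ) (Q : Fin m → MvPolynomial (Fin r) ℂ) (g' : M.X → ℂ), 0 < m ∧
    (∀ i, (Q i).IsHomogeneous e) ∧ (∃ R, Sp D R g') ∧ (∃ x ∈ off D, g' x ≠ 0) ∧
    offz D g' ⊆ offz D g ∧ (∀ x ∈ offz D g', ∀ i, pv h (Q i) x ≠ 0) ∧
    ∀ (r' : ℕ) (ε : Fin r' ≃ Fin r × Fin m), Nf (D := D) (offz D g')
      (fun β y => h (ε β).1 y * pv h (Q (ε β).2) y) fun β y => W (ε β).1 y * pv h (Q (ε β).2) y

end Pool.Agent.Lib.NV6.J
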