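import Pool.Agent.Lib.NV5.A_BIG
import Pool.Agent.Lib.NV5.A_KT

/-! Project NV6, block GAP: every finite family in the dominated field is dominated. -/

open Filter WithZero

noncomputable section

namespace Pool.Agent.Lib.NV6

open Pool.Agent.Lib.NV5

theorem domK {n : ℕ} {F : Type} [Field F] [Algebra ℂ F] {V : VF n F} {L A M : V.P → ℤ} {d : ℕ}
    {z : Fin d → F} {k : IntermediateField ℂ F} {a c b : ℕ} {τ : F}
    (hP : V.Pre L A M d z k a c b τ) {r : ℕ} (g : Fin r → F) (hg : ∀ i, g i ∈ k) :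
    ∃ c', V.Dom L A g c' b := by
  obtain ⟨Q, c0, Q0, -, hQ⟩ := aKT n F V d z k hP.ind hP.alg (fun p => KT.mu (V.v p) g) (by
    filter_upwards [eventually_all.2 fun i => V.cof (g i)] with p h
    exact max_le le_rfl (Finset.sup_le fun i _ => h i))
  set q := MvPolynomial.aeval z Q with hq
  have q0 : q ≠ 0 := fun h => Q0 (algebraicIndependent_iff.1 hP.ind Q h)
  have qk : q ∈ k := by
    have h1 : q ∈ IntermediateField.adjoin ℂ (Set.range z) :=
      IntermediateField.algebra_adjoin_le_adjoin ℂ _ (by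
        rw [Algebra.adjoin_range_eq_range_aeval]; exact ⟨Q, rfl⟩)
    exact (hP.alg q).2 (isAlgebraic_algebraMap (⟨q, h1⟩ : IntermediateField.adjoin ℂ (Set.range z)))
  refine ⟨c0 * c, fun j => ?_⟩
  obtain ⟨w, w0, hw⟩ := hP.dom (j * c0)
  refine ⟨w * q ^ j, mul_ne_zero w0 (pow_ne_zero _ q0), fun α hα p => ?_⟩
  rw [← mul_assoc j, map_mul, mul_comm]
  have h1 : ∀ B : Zm, 1 ≤ B → (∀ i, V.v p (g i) ≤ B) → V.v p (∏ i, g i ^ α i) ≤ B ^ j :=
    fun B b1 b2 => by
      rw [map_prod]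
      calc _ ≤ ∏ i, B ^ α i := Finset.prod_le_prod' fun i _ => by
            rw [map_pow]; exact pow_le_pow_left' (b2 i) _
        _ = B ^ ∑ i, α i := Finset.prod_pow_eq_pow_sum _ _ _
        _ ≤ _ := pow_le_pow_right' b1 hα
  by_cases hz : V.Hz k p
  · have h2 := h1 1 le_rfl fun i => hz _ (hg i)
    rw [one_pow] at h2
    refine (mul_le_of_le_one_left' h2).trans ?_
    rw [map_mul, map_pow]
    refine (mul_le_of_le_one_right' (pow_le_one' (hz q qk) j)).trans ?_
    simpa using hw 0 (by simp) p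
  · refine (mul_le_mul_left (h1 _ (KT.one_le ..) fun i => KT.le_mu ..) _).trans ?_
    exact BIG.iter (V.v p) z q c0 (zero_lt_one.trans_le (KT.one_le ..)).ne' (hQ p hz) j w _
      fun β hβ => hw β hβ p

end Pool.Agent.Lib.NV6
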