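import Pool.Agent.Lib.NV6.GBlue
import Pool.Agent.Lib.NV6.G_DK

/-! Project NV6, row D4: domination on a resolution of a minimal model. -/

open scoped Classical

noncomputable section

namespace Pool.Agent.Lib.NV6

open Pool.Agent.Lib.HS32 Pool.Agent.Lib.EX Pool.Agent.Lib.ZL Pool.Agent.Lib.NV5

theorem gD4 (hK : Sb_KIT) (hF : Sb_FN) : St_D4 := by
  intro n M _ ι _ _ D X r c' c₀ t ν F _ _ Φ V m π Q d z k a c b τ C br hP T _ P h a₀ sp h0 hk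
  obtain ⟨k1, -, -, -, -, -, -, -, k9, -⟩ := hK n M ι D
  obtain ⟨-, f0, f1, -⟩ := hF n M ι D F Φ
  have pw (s t) (hs : Rg D s) (ht : Rg D t) (j : ℕ) :
      Rg D (s * t ^ j) ∧ Φ.ev (s * t ^ j) = Φ.ev s * Φ.ev t ^ j := by
    induction j with
    | zero => rw [pow_zero, pow_zero, mul_one, mul_one]; exact ⟨hs, rfl⟩
    | succ j ih =>
      rw [pow_succ, pow_succ, ← mul_assoc, ← mul_assoc, Φ.mul _ _ ih.1 ht, ih.2]
      exact ⟨(k9 _ _ ih.1 ht).2.1, rfl⟩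
  have e0 : Φ.ev (h a₀) ≠ 0 := fun e => h0 (Φ.inj _ ⟨P, sp a₀⟩ e)
  let ε := Fintype.equivFin T
  obtain ⟨c₁, hc⟩ := domK hP (fun a => Φ.ev (h (ε.symm a)) / Φ.ev (h a₀)) fun a => hk _
  obtain ⟨A, hA⟩ := C.zar b
  have a0 : (a : ℝ) ≠ 0 := Nat.cast_ne_zero.2 hP.a0.ne'
  refine ⟨c₁ / a, fun i => c₁ * ν i, fun i => max (A i) 0, by positivity, fun i => ?_,
    fun i => le_max_right _ _, fun j => ?_⟩
  · push_cast
    field_simp
  obtain ⟨w, w0, hw⟩ := hc (j * c₀)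
  have e : (j * c₀ * c₁) • dv m X.l + b • dv m (fun i => X.e i) =
      dv m fun i => (j * c₁ : ℕ) * (c₀ * X.l i) + b * X.e i := by
    funext p
    rw [Pi.add_apply, Pi.smul_apply, Pi.smul_apply]
    simp only [NV5.dv, nsmul_eq_mul, Finset.mul_sum, add_mul, Finset.sum_add_distrib,
      Nat.cast_mul, mul_assoc, mul_left_comm (c₀ : ℤ)]
  choose s s1 s2 using fun a => (br.sec _ _).1 (e ▸ hw (Pi.single (ε a) j)
    (by simpa using Nat.le_mul_of_pos_right j C.cpos))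
  have s3 (a) : Φ.ev (s a) = w * (Φ.ev (h a) / Φ.ev (h a₀)) ^ j := by
    rw [s2, Finset.prod_eq_single (ε a) (fun i _ hi => by rw [Pi.single_eq_of_ne hi, pow_zero])
      (fun hi => (hi (Finset.mem_univ _)).elim), Pi.single_eq_same]
    simp only [ε.symm_apply_apply]
  have s4 : Φ.ev (s a₀) = w := by rw [s3, div_self e0, one_pow, mul_one]
  refine ⟨s, fun a => k1 _ _ _ (fun i => add_le_add (by push_cast; rw [mul_assoc])
    (le_max_left _ _)) (hA _ _ (s1 a)), fun q => w0 (by rw [← s4, q, f0]),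
    fun a => congrFun (f1 (s a * h a₀ ^ j) (s a₀ * h a ^ j) (pw _ _ ⟨_, s1 a⟩ ⟨P, sp a₀⟩ j).1
      (pw _ _ ⟨_, s1 a₀⟩ ⟨P, sp a⟩ j).1 ?_)⟩
  rw [(pw _ _ ⟨_, s1 a⟩ ⟨P, sp a₀⟩ j).2, (pw _ _ ⟨_, s1 a₀⟩ ⟨P, sp a⟩ j).2, s3, s4, mul_assoc,
    ← mul_pow, div_mul_cancel₀ _ e0]

end Pool.Agent.Lib.NV6
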