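import Pool.Agent.Lib.NV6.GBlue

/-! Project NV6, block GAP: the dictionary for the new families. -/

open scoped Classical

noncomputable section

namespace Pool.Agent.Lib.NV6

open Pool.Agent.Lib.HS32 Pool.Agent.Lib.EX Pool.Agent.Lib.ZL Pool.Agent.Lib.NV5
open Pool.Agent.Lib.NV6.J (pv)

namespace GDIC

variable {n : ℕ} {M : Mf n} [M.Cpt] {ι : Type} [Fintype ι] [DecidableEq ι] {D : Ad M ι} {F : Type}
  [Field F] [Algebra ℂ F] {Φ : FM D F} {k : IntermediateField ℂ F}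

/-- Off the divisor `f` is a section whose value lies on the line `k c`. -/
def W (Φ : FM D F) (k : IntermediateField ℂ F) (P : ι → ℤ) (c : F) (f : M.X → ℂ) : Prop :=
  Sp D P (un D * f) ∧ Φ.ev (un D * f) / c ∈ k

theorem mul (hK : Sb_KIT) {P Q : ι → ℤ} {c c' : F} {f g : M.X → ℂ} (h : W Φ k P c f)
    (h' : W Φ k Q c' g) : W Φ k (P + Q) (c * c') (f * g) := by
  obtain ⟨-, -, k3, -, -, k6, -, k8, -⟩ := hK n M ι D
  have e : un D * (f * g) = un D * f * (un D * g) := by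
    rw [mul_mul_mul_comm, k8 _ ⟨_, k6⟩]
  rw [W, e, Φ.mul _ _ ⟨_, h.1⟩ ⟨_, h'.1⟩, mul_div_mul_comm]
  exact ⟨k3 _ _ _ _ h.1 h'.1, mul_mem h.2 h'.2⟩

theorem cst (hK : Sb_KIT) (hF : Sb_FN) (c : ℂ) : W Φ k 0 1 fun _ => c := by
  obtain ⟨-, -, -, k4, -, k6, -⟩ := hK n M ι D
  have e : (un D * fun _ => c) = c • un D := funext fun x => mul_comm _ _
  rw [W, e, Φ.smul _ _ ⟨_, k6⟩, (hF n M ι D F Φ).1, div_one]
  exact ⟨k4 _ _ _ k6, k.smul_mem k.one_mem⟩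

theorem pow (hK : Sb_KIT) (hF : Sb_FN) {P : ι → ℤ} {c : F} {f : M.X → ℂ} (h : W Φ k P c f)
    (j : ℕ) : W Φ k (j • P) (c ^ j) (f ^ j) := by
  induction j with
  | zero => rw [zero_smul, pow_zero, pow_zero]; exact cst hK hF 1
  | succ j ih => rw [succ_nsmul, pow_succ, pow_succ]; exact mul hK ih h

theorem prd (hK : Sb_KIT) (hF : Sb_FN) {P : ι → ℤ} {c : F} {r : ℕ} {h : Fin r → M.X → ℂ}
    (hh : ∀ i, W Φ k P c (h i)) (d : Fin r → ℕ) (s : Finset (Fin r)) :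
    W Φ k ((∑ i ∈ s, d i) • P) (c ^ ∑ i ∈ s, d i) (∏ i ∈ s, h i ^ d i) := by
  induction s using Finset.induction_on with
  | empty =>
    rw [Finset.sum_empty, Finset.prod_empty, zero_smul, pow_zero]
    exact cst hK hF 1
  | insert i s hi ih =>
    rw [Finset.sum_insert hi, Finset.prod_insert hi, add_smul, pow_add]
    exact mul hK (pow hK hF (hh i) _) ih

theorem frm (hK : Sb_KIT) (hF : Sb_FN) {P : ι → ℤ} {c : F} {r e : ℕ} {h : Fin r → M.X → ℂ}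
    (hh : ∀ i, W Φ k P c (h i)) {Q : MvPolynomial (Fin r) ℂ} (hQ : Q.IsHomogeneous e) :
    W Φ k (e • P) (c ^ e) (pv h Q) := by
  obtain ⟨-, k2, -, -, k5, -⟩ := hK n M ι D
  have e1 : pv h Q = ∑ d ∈ Q.support, (fun _ => Q.coeff d) * ∏ i ∈ d.support, h i ^ d i := by
    funext x
    simp only [pv, MvPolynomial.eval_eq, Finset.sum_apply, Pi.mul_apply, Finset.prod_apply,
      Pi.pow_apply]
  rw [e1]
  refine Finset.sum_induction _ _ (fun f g hf hg => ?_) ?_ fun d hd => ?_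
  · rw [W, mul_add, Φ.add _ _ ⟨_, hf.1⟩ ⟨_, hg.1⟩, add_div]
    exact ⟨k2 _ _ _ hf.1 hg.1, add_mem hf.2 hg.2⟩
  · rw [W, mul_zero, (hF n M ι D F Φ).2.1, zero_div]
    exact ⟨k5 _, zero_mem _⟩
  · have := mul hK (cst hK hF (Q.coeff d)) (prd hK hF hh d d.support)
    rwa [zero_add, one_mul, ← hQ.degree_eq_sum_deg_support hd] at this

end GDIC

open GDIC in
theorem gDIC (hK : Sb_KIT) (hF : Sb_FN) : St_DIC := by
  intro n M _ ι _ _ D F _ _ Φ k T L P r r₁ r₂ m e a b ε Q u T0 A hQ hu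
  obtain ⟨-, -, -, -, -, -, -, k8, -⟩ := hK n M ι D
  have b0 : Φ.ev (b 0) ≠ 0 := fun q => (A.sb 0).2 (Φ.inj _ ⟨_, (A.sb 0).1⟩ q)
  have wa (i) : W Φ k (fun s => L s + P s) (T * Φ.ev (b 0)) (a i) := by
    rw [W, k8 _ ⟨_, (A.sa i).1⟩]
    exact ⟨(A.sa i).1, A.ka i 0⟩
  have wb (j) : W Φ k P (Φ.ev (b 0)) (b j) := by
    rw [W, k8 _ ⟨_, (A.sb j).1⟩]
    exact ⟨(A.sb j).1, A.kb j 0⟩
  have wu (l) : W Φ k (e • ((fun s => L s + P s) + P))
      ((T * Φ.ev (b 0) * Φ.ev (b 0)) ^ e) (u l) := by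
    rw [hu l]
    exact frm hK hF (fun β => mul hK (wa (ε β).1) (wb (ε β).2)) (hQ l)
  have w (α : (Fin (r₁ + 1) × Fin m) × Fin (r₂ + 1) × Fin m) :=
    mul hK (mul hK (wa α.1.1) (wu α.1.2)) (mul hK (wb α.2.1) (wu α.2.2))
  simp only [W, ← mul_assoc (un D), fun i => k8 _ ⟨_, (A.sa i).1⟩] at w
  refine ⟨_, fun α => ⟨(w α).1, fun β => ?_⟩⟩
  have := div_mem (w α).2 (w β).2
  rwa [div_div_div_cancel_right₀ (by simp [T0, b0])] at this

end Pool.Agent.Lib.NV6
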