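import Pool.Agent.Lib.NV6.JBlue
import Pool.Agent.Lib.ZQ.HqS
import Pool.Agent.Lib.S3K.Sku
import Pool.Agent.Lib.ZL.B_PW
import Pool.Agent.Lib.ZL.B_TRF

/-! Project NV6, block GAP: the limit weight of a dominated family. -/

open scoped Classical Topology ContDiff ENNReal
open Set MeasureTheory Complex Metric Filter

set_option linter.unusedSectionVars false

noncomputable section

namespace Pool.Agent.Lib.NV6

open Pool.Agent.Lib.SV (E nsq nsq_nonneg)
open Pool.Agent.Lib.HS32 Pool.Agent.Lib.EX Pool.Agent.Lib.EXS Pool.Agent.Lib.ZL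
open Pool.Agent.Lib.ZQ (HqO)
open Pool.Agent.Lib.S3K (sku)
open Pool.Agent.Lib.S3K.SKU (S)

variable {n : ℕ} {M : Mf n} [M.Cpt] {ι : Type} [Fintype ι] [DecidableEq ι] {D : Ad M ι}
  {κ : Type} [Fintype κ]

namespace RHO

theorem nrm {P : ι → ℤ} {s : κ → M.X → ℂ} (hs : ∀ a, Sp D P (s a)) {a₀ : κ} (h0 : s a₀ ≠ 0)
    {N : ℝ} (N0 : 0 < N) : ∃ c : ℂ, (∀ x ∈ off D, S D P (fun a => c • s a) x ≤ 1) ∧
      ∃ x ∈ off D, Real.exp (-N) ≤ S D P (fun a => c • s a) x := by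
  choose C hC using fun a => (bUPB bPW n M ι D P).2.2.2.2.1 (s a) (hs a).1
  have bd : BddAbove (S D P s '' off D) := ⟨∑ a, C a, by
    rintro _ ⟨x, hx, rfl⟩
    rw [S, nsq, Finset.sum_mul]
    refine Finset.sum_le_sum fun a _ => ?_
    have := hC a x hx
    rwa [Real.exp_neg, ← div_eq_mul_inv, le_div_iff₀ (Real.exp_pos _)] at this⟩
  obtain ⟨x, hx⟩ := Function.ne_iff.1 h0
  have xo : x ∈ off D := by_contra fun h => hx ((hs a₀).2 x h)
  have m0 : 0 < sSup (S D P s '' off D) := lt_of_lt_of_le (mul_pos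
    ((normSq_pos.2 hx).trans_le (Finset.single_le_sum (f := fun a => normSq (s a x))
      (fun _ _ => normSq_nonneg _) (Finset.mem_univ a₀))) (Real.exp_pos _))
    (le_csSup bd ⟨x, xo, rfl⟩)
  set m := sSup (S D P s '' off D)
  have e : ∀ x, S D P (fun a => (((√m)⁻¹ : ℝ) : ℂ) • s a) x = S D P s x / m := fun x => by
    simp only [S, nsq, Pi.smul_apply, smul_eq_mul, map_mul, normSq_ofReal, ← Finset.mul_sum,
      ← mul_inv, Real.mul_self_sqrt m0.le]
    ring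
  refine ⟨_, fun x hx => (e x).trans_le ((div_le_one m0).2 (le_csSup bd ⟨x, hx, rfl⟩)), ?_⟩
  obtain ⟨_, ⟨y, hy, rfl⟩, h⟩ := exists_lt_of_lt_csSup (Set.Nonempty.image _ ⟨x, xo⟩)
    (mul_lt_of_lt_one_left m0 (Real.exp_lt_one_iff.2 (neg_lt_zero.2 N0)))
  exact ⟨y, hy, ((lt_div_iff₀ m0).2 h).le.trans_eq (e y).symm⟩

theorem pw {u v a b t : ℝ} {j : ℕ} (u0 : 0 ≤ u) (v0 : 0 < v) (t0 : 0 ≤ t)
    (h : u * v ^ (j + 1) * Real.exp ((j + 1) * a + b) ≤ 1) :
    u ^ (t / (j + 1)) ≤ Real.exp (-(t * a) - t / (j + 1) * b) / v ^ t := by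
  have j0 : (0 : ℝ) < j + 1 := by positivity
  have h1 := Real.rpow_le_one (by positivity) h (div_nonneg t0 j0.le)
  rw [Real.mul_rpow (by positivity) (by positivity), Real.mul_rpow u0 (by positivity),
    ← Real.exp_mul, ← Real.rpow_natCast, ← Real.rpow_mul v0.le] at h1
  rw [le_div_iff₀ (by positivity), show -(t * a) - t / (j + 1) * b =
    -(((j + 1) * a + b) * (t / (j + 1))) by field_simp; ring, Real.exp_neg, ← one_div,
    le_div_iff₀ (Real.exp_pos _)]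
  rwa [show ((j + 1 : ℕ) : ℝ) * (t / (j + 1)) = t by push_cast; field_simp] at h1

theorem pw' {u v w a b t : ℝ} {j : ℕ} (u0 : 0 ≤ u) (v0 : 0 < v) (t0 : 0 ≤ t) (w0 : 0 ≤ w)
    (b0 : b ≤ 0) (h : w ≤ u * v ^ (j + 1) * Real.exp ((j + 1) * a + b)) :
    w ^ (t / (j + 1)) * (Real.exp (-(t * a)) / v ^ t) ≤ u ^ (t / (j + 1)) := by
  have j0 : (0 : ℝ) < j + 1 := by positivity
  have h1 := Real.rpow_le_rpow w0 (h.trans (mul_le_mul_of_nonneg_left
    (Real.exp_le_exp.2 (add_le_of_nonpos_right b0)) (by positivity))) (div_nonneg t0 j0.le)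
  rw [Real.mul_rpow (by positivity) (by positivity), Real.mul_rpow u0 (by positivity),
    ← Real.exp_mul, ← Real.rpow_natCast, ← Real.rpow_mul v0.le,
    show ((j + 1 : ℕ) : ℝ) * (t / (j + 1)) = t by push_cast; field_simp,
    show ((j : ℝ) + 1) * a * (t / (j + 1)) = t * a by field_simp] at h1
  rw [Real.exp_neg, ← mul_div_assoc, div_le_iff₀ (by positivity), ← div_eq_mul_inv,
    div_le_iff₀ (Real.exp_pos _)]
  exact h1

end RHO

open RHO in
/-- The limit weight. -/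
theorem gRHO (hK : J.St_KIT) (X : Cx D) {H : M.Fam (Mat n)} (hH : M.Met H) {K : ℝ≥0∞}
    (K0 : K ≠ 0) (K1 : K ≠ ⊤) {O : Set M.X} (hO : IsOpen O) (hs : O ⊆ off D)
    (ae : ∀ᵐ x ∂X.μ, x ∈ O) (hq : HqO K D X.μ O) {h : κ → M.X → ℂ} (hh : ∀ a, J.Ho D O (h a))
    (a₀ : κ) (h0 : ∀ x ∈ O, h a₀ x ≠ 0) {Λ B : ι → ℤ} (B0 : 0 ≤ B)
    (dom : ∀ j : ℕ, ∃ s : κ → M.X → ℂ, (∀ a, Sp D (fun i => j * Λ i + B i) (s a)) ∧ s a₀ ≠ 0 ∧
      ∀ a, ∀ x ∈ O, s a x * h a₀ x ^ j = s a₀ x * h a x ^ j) :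
    ∃ θ₀ > (0 : ℝ), ∀ θ ∈ Ioc 0 θ₀, ∃ ρ : M.X → ℝ≥0∞, AEMeasurable ρ X.μ ∧
      HqO K D (X.μ.withDensity ρ) O ∧
      (∃ c > (0 : ℝ), ∀ x ∈ O, ENNReal.ofReal
        (c * Real.exp (θ * lw D (fun i => Λ i) x) * nsq (h · x) ^ θ) ≤ ρ x) ∧
      ∫⁻ x, ρ x * ENNReal.ofReal (Real.exp (-(θ * lw D (fun i => Λ i) x)) / nsq (h · x) ^ θ *
        Real.exp (-lw D X.o x)) ∂X.μ ≠ ⊤ := by
  obtain ⟨-, -, la, -, ls, ln, lm, -⟩ := bPW n M ι D
  obtain ⟨-, k2, k3, k4, k5, -, k7, k8, -, k10, k11, k12, k13, -⟩ := hK n M ι D X O hO hs ae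
  obtain ⟨θ₀, C, θ0, hC⟩ := sku bPW X hH (∑ i, (|(Λ i : ℝ)| + |(B i : ℝ)|))
  refine ⟨θ₀, θ0, fun θ hθ => ?_⟩
  choose s s1 s2 s3 using dom
  choose c c1 c2 using fun j : ℕ => nrm (s1 (j + 1)) (s2 (j + 1)) (N := j + 1) (by positivity)
  have n0 : ∀ x ∈ O, 0 < normSq (h a₀ x) := fun x hx => normSq_pos.2 (h0 x hx)
  have n1 : ∀ x a, normSq (h a x) ≤ nsq (h · x) := fun x a =>
    Finset.single_le_sum (f := fun a => normSq (h a x)) (fun _ _ => normSq_nonneg _)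
      (Finset.mem_univ a)
  have n2 : ∀ x ∈ O, 0 < nsq (h · x) := fun x hx => (n0 x hx).trans_le (n1 x a₀)
  set G : ℕ → M.X → ℂ := fun j x => c j * s (j + 1) a₀ x / h a₀ x ^ (j + 1) with hG
  have eS : ∀ j, ∀ x ∈ O, S D (fun i => (j + 1 : ℕ) * Λ i + B i) (fun a => c j • s (j + 1) a) x =
      normSq (G j x) * (∑ a, normSq (h a x) ^ (j + 1)) *
        Real.exp ((j + 1) * lw D (fun i => Λ i) x + lw D (fun i => B i) x) := fun j x hx => by
    rw [S, nsq, Finset.mul_sum, ← smul_eq_mul, ← smul_eq_mul ((j : ℝ) + 1), smul_eq_mul,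
      smul_eq_mul, ← ls, ← la]
    congr 1
    · refine Finset.sum_congr rfl fun a _ => ?_
      rw [← map_pow, ← map_mul, hG]
      congr 1
      have := pow_ne_zero (j + 1) (h0 x hx)
      rw [div_mul_eq_mul_div, eq_div_iff this, Pi.smul_apply, smul_eq_mul, mul_assoc, mul_assoc,
        s3 _ a x hx]
    · congr 2
      funext i
      simp
  obtain ⟨C₁, C1, p1⟩ := bLWC bTRF n M ι D X (-fun i => θ * (|(Λ i : ℝ)| + |(B i : ℝ)|))
  obtain ⟨C₂, hC₂⟩ := X.αb
  have l0 : ∀ (a : ι → ℝ) x, 0 ≤ a → lw D a x ≤ 0 := fun a x h =>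
    (lm 0 a h x).trans_eq (by simp [lw])
  have hg : ∀ j, J.Ho D O (G j) := fun j => (k4 _ _ ((k4 _ _ (k3 _) (k2 _ _ (s1 _ _)).1).2.2.1)
    ((k4 _ _ (hh a₀) (hh a₀)).2.2.2.1 _)).2.2.2.2 fun x hx => pow_ne_zero _ (h0 x hx)
  have t0 : ∀ j : ℕ, 0 ≤ θ / (j + 1) := fun j => div_nonneg hθ.1.le (by positivity)
  have t1 : ∀ j : ℕ, θ / (j + 1) ≤ θ := fun j => div_le_self hθ.1.le (by simp)
  obtain ⟨r1, r2⟩ := ZQ.hqS K0 K1 hO hs X.eta
    (fun b z hz => ⟨(X.whol b z hz).continuousAt, X.wne b z hz⟩) ae hq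
    (σ := fun x => (C₁ * X.α x + lw D (-fun i => θ * (|(Λ i : ℝ)| + |(B i : ℝ)|)) x +
      θ * Real.log (normSq (1 / h a₀ x))) + C₁ * C₂)
    (k10 _ _ (k10 _ _ (k8 _ p1) (k11 _ _ hθ.1.le ((k7 _ ((k4 _ _ (k3 1) (hh a₀)).2.2.2.2 h0)).2
      fun x hx => one_div_ne_zero (h0 x hx))))
      fun d z _ _ => ⟨contDiffAt_const, fun v => (K32.lv_const _ v).ge⟩)
    hg t0 fun j x hx => by
      have a1 := c1 j x (hs hx)
      rw [eS j x hx] at a1
      refine (pw (normSq_nonneg _) (n0 x hx) hθ.1.le (le_trans (mul_le_mul_of_nonneg_right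
        (mul_le_mul_of_nonneg_left (Finset.single_le_sum (f := fun a => normSq (h a x) ^ (j + 1))
          (fun _ _ => pow_nonneg (normSq_nonneg _) _) (Finset.mem_univ a₀)) (normSq_nonneg _))
        (Real.exp_pos _).le) a1)).trans ?_
      rw [Real.rpow_def_of_pos (n0 x hx), ← Real.exp_sub, Real.exp_le_exp, map_div₀, map_one,
        one_div, Real.log_inv, ln]
      have a2 := lm (θ • (fun i => (Λ i : ℝ)) + (θ / (j + 1)) • fun i => (B i : ℝ))
        (fun i => θ * (|(Λ i : ℝ)| + |(B i : ℝ)|)) (fun i => by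
          have b1 := mul_le_mul_of_nonneg_left (le_abs_self (Λ i : ℝ)) hθ.1.le
          have b2 := mul_le_mul (t1 j) (le_abs_self (B i : ℝ)) (by exact_mod_cast B0 i) hθ.1.le
          simp only [Pi.add_apply, Pi.smul_apply, smul_eq_mul]
          linarith) x
      rw [la, ls, ls] at a2
      have a3 := (abs_le.1 (hC₂ x (hs hx))).1
      have a4 := l0 (fun i => X.e i) x fun i => Nat.cast_nonneg _
      have a5 : 0 ≤ C₁ * (X.α x + C₂) := mul_nonneg C1 (by linarith)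
      linarith
  have : Nonempty κ := ⟨a₀⟩
  have q1 : (1 : ℝ) ≤ Fintype.card κ := by exact_mod_cast Fintype.card_pos
  refine ⟨_, r1, r2, ⟨((Fintype.card κ : ℝ) ^ θ)⁻¹, by positivity, fun x hx => ?_⟩, ?_⟩
  · have lim : Tendsto (fun j : ℕ => ENNReal.ofReal ((nsq (h · x) / Fintype.card κ) ^ θ /
        Real.exp (-(θ * lw D (fun i => Λ i) x) - θ / (j + 1) * lw D (fun i => B i) x))) atTop
        (𝓝 (ENNReal.ofReal ((nsq (h · x) / Fintype.card κ) ^ θ /
          Real.exp (-(θ * lw D (fun i => Λ i) x) - 0 * lw D (fun i => B i) x)))) :=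
      ENNReal.tendsto_ofReal (tendsto_const_nhds.div (Real.continuous_exp.tendsto _ |>.comp
        (tendsto_const_nhds.sub ((tendsto_const_nhds.div_atTop (tendsto_atTop_add_const_right _ _
          tendsto_natCast_atTop_atTop)).mul_const _))) (Real.exp_pos _).ne')
    have v0 : 0 < nsq (h · x) / Fintype.card κ := div_pos (n2 x hx) (by linarith)
    refine le_trans (le_of_eq ?_) (lim.liminf_eq.ge.trans
      (liminf_le_liminf (Eventually.of_forall fun j => ?_)))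
    · rw [zero_mul, sub_zero, Real.exp_neg, Real.div_rpow (n2 x hx).le (by linarith)]
      congr 1
      field_simp
    · have a1 := c1 j x (hs hx)
      rw [eS j x hx] at a1
      have a2 : (nsq (h · x) / Fintype.card κ) ^ (j + 1) ≤ ∑ a, normSq (h a x) ^ (j + 1) := by
        rw [div_pow, div_le_iff₀' (by positivity)]
        exact (pow_sum_le_card_mul_sum_pow (fun _ _ => normSq_nonneg _) j).trans
          (mul_le_mul_of_nonneg_right (pow_le_pow_right₀ q1 j.le_succ)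
            (Finset.sum_nonneg fun _ _ => pow_nonneg (normSq_nonneg _) _))
      have a3 := pw (normSq_nonneg _) v0 hθ.1.le (le_trans (mul_le_mul_of_nonneg_right
        (mul_le_mul_of_nonneg_left a2 (normSq_nonneg _)) (Real.exp_pos _).le) a1)
      rw [← inv_div, ENNReal.ofReal_inv_of_pos (by positivity)]
      exact ENNReal.inv_le_inv.2 (ENNReal.ofReal_le_ofReal a3)
  · refine ne_top_of_le_ne_top (ENNReal.ofReal_ne_top (r := C)) (le_trans (lintegral_mono_ae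
      (g := fun x => liminf (fun j : ℕ => (ENNReal.ofReal (S D (fun i => (j + 1 : ℕ) * Λ i + B i)
        (fun a => c j • s (j + 1) a) x ^ (θ / (j + 1))))⁻¹ *
        ENNReal.ofReal (Real.exp (-lw D X.o x))) atTop) (ae.mono fun x hx => ?_))
      ((lintegral_liminf_le' fun j => ?_).trans (liminf_le_of_frequently_le'
        (Frequently.of_forall fun j => ?_))))
    · rw [mul_comm, ← ENNReal.liminf_mul_const_of_ne_top ENNReal.ofReal_ne_top]
      refine liminf_le_liminf (Eventually.of_forall fun j => ?_)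
      have v0 := n2 x hx
      rw [ENNReal.ofReal_mul (by positivity), ← mul_assoc]
      refine mul_le_mul_left (ENNReal.le_inv_iff_mul_le.2 ?_) _
      rw [mul_assoc, ← ENNReal.ofReal_mul (by positivity), mul_comm (_ / _)]
      refine (mul_le_mul_right (ENNReal.ofReal_le_ofReal (pw' (normSq_nonneg _) v0 hθ.1.le
        (S3K.SKU.S_nn ..) (l0 (fun i => B i) x fun i => Int.cast_nonneg (B0 i)) ?_)) _).trans
        (ENNReal.inv_mul_le_one _)
      rw [eS j x hx]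
      refine mul_le_mul_of_nonneg_right (mul_le_mul_of_nonneg_left ?_ (normSq_nonneg _))
        (Real.exp_pos _).le
      rw [pow_succ, nsq, Finset.mul_sum]
      exact Finset.sum_le_sum fun a _ => (pow_succ _ _).trans_le (mul_le_mul_of_nonneg_right
        (pow_le_pow_left₀ (normSq_nonneg _) (n1 x a) j) (normSq_nonneg _))
    · exact (k13 ℝ _ (((k5 κ _ fun a => (k4 _ _ (k3 (c j)) (k2 _ _ (s1 _ a)).1).2.2.1).2.2.mul
        (k12 _).rexp).rpow_const fun _ _ => Or.inr (t0 j))).ennreal_ofReal.inv.mul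
        (k13 ℝ _ (k12 _).neg.rexp).ennreal_ofReal
    · refine hC (j + 1) _ _ κ _ (by positivity) (t0 j) ?_ (fun i => ?_) (fun a => ?_) (c2 j)
      · rw [div_mul_cancel₀ _ (by positivity)]
        exact hθ.2
      · push_cast
        refine (abs_add_le _ _).trans (le_trans ?_ (mul_le_mul_of_nonneg_right
          (Finset.single_le_sum (f := fun i => |(Λ i : ℝ)| + |(B i : ℝ)|)
            (fun _ _ => by positivity) (Finset.mem_univ i)) (by positivity)))
        rw [abs_mul, abs_of_nonneg (by positivity : (0 : ℝ) ≤ j + 1)]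
        nlinarith [abs_nonneg (B i : ℝ), (Nat.cast_nonneg j : (0 : ℝ) ≤ j)]
      · exact ((bUPB bPW n M ι D _).2.1 _ _ (c j) (s1 _ a).1 (s1 _ a).1).2.2

end Pool.Agent.Lib.NV6
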