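import Pool.Agent.Lib.NV6.CDefs

/-! Project NV6, block C: rows. -/

open scoped Classical Topology ENNReal
open Set MeasureTheory Complex Metric Filter MvPolynomial

set_option linter.unusedVariables false

noncomputable section

namespace Pool.Agent.Lib.NV6

open Pool.Agent.Lib.SV (nsq)
open Pool.Agent.Lib.S3K (tl Blow)

/-- Functions on the product. -/
abbrev Fn (ι κ : Type) := (ι → ℂ) × (κ → ℂ) → ℂ

/-! ### Cones -/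

/-- Homogeneous components; closed sets; hyperplane sections; closures. -/
structure St_HOM : Prop where
  comp : ∀ {σ : Type} {W : Set (σ → ℂ)} {P : MvPolynomial σ ℂ} (d : ℕ),
    (∀ c : ℂ, c ≠ 0 → ∀ h ∈ W, c • h ∈ W) → Van W P → Van W (homogeneousComponent d P)
  smul : ∀ {σ : Type} {P : MvPolynomial σ ℂ} {d : ℕ} (c : ℂ) (h : σ → ℂ), P.IsHomogeneous d →
    eval (c • h) P = c ^ d * eval h P
  closed : ∀ {σ : Type} {W : Set (σ → ℂ)}, Cone W → IsClosed W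
  cut : ∀ {σ : Type} {W : Set (σ → ℂ)} {P : MvPolynomial σ ℂ} {d : ℕ}, Cone W →
    P.IsHomogeneous d → Cone {h | h ∈ W ∧ eval h P = 0}
  irr : ∀ {σ : Type} {W : Set (σ → ℂ)}, Cone W → (∀ (d d' : ℕ) (P P' : MvPolynomial σ ℂ),
    P.IsHomogeneous d → P'.IsHomogeneous d' → Van W (P * P') → Van W P ∨ Van W P') → Irr W
  clo : ∀ {σ O : Type} (g : O → σ → ℂ), Cone (Clo g) ∧ (∀ x, g x ∈ Clo g) ∧
    ∀ (d : ℕ) (P : MvPolynomial σ ℂ), P.IsHomogeneous d → (∀ x, eval (g x) P = 0) → Van (Clo g) P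
  lin : ∀ {σ : Type} [Fintype σ] {w : ℕ} (y : (σ → ℂ) →ₗ[ℂ] Fin (w + 1) → ℂ) (d : ℕ)
    (a : MvPolynomial (Fin (w + 1)) ℂ), a.IsHomogeneous d →
    ∃ P : MvPolynomial σ ℂ, P.IsHomogeneous d ∧ ∀ h, eval h P = eval (y h) a

/-- The normalisation lemma of Noether. -/
def St_NOE : Prop := ∀ (σ : Type) [Fintype σ] (W : Set (σ → ℂ)), Cone W → (∃ h ∈ W, h ≠ 0) →
  ∃ (w : ℕ) (y : (σ → ℂ) →ₗ[ℂ] Fin (w + 1) → ℂ), Nz W y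

/-- The norm of a form. -/
def St_NRM : Prop := ∀ (σ : Type) [Fintype σ] (W : Set (σ → ℂ)) (w : ℕ)
  (y : (σ → ℂ) →ₗ[ℂ] Fin (w + 1) → ℂ) (d : ℕ) (P : MvPolynomial σ ℂ), Cone W → Irr W → Nz W y →
  P.IsHomogeneous d → ¬ Van W P → ∃ (d' : ℕ) (Q : MvPolynomial (Fin (w + 1)) ℂ), Q ≠ 0 ∧
    Q.IsHomogeneous d' ∧ ∀ h ∈ W, eval h P = 0 → eval (y h) Q = 0

/-- A ratio with a relation of bounded degree is a ratio of forms of bounded degree. -/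
def St_RAT : Prop := ∀ (σ : Type) [Fintype σ] (W : Set (σ → ℂ)) (w : ℕ)
  (y : (σ → ℂ) →ₗ[ℂ] Fin (w + 1) → ℂ), Cone W → Irr W → Nz W y → ∀ m g : ℕ, ∃ d : ℕ,
  ∀ (k : ℕ) (A B : MvPolynomial σ ℂ) (a : Fin (m + 1) → MvPolynomial (Fin (w + 1)) ℂ),
    A.IsHomogeneous k → B.IsHomogeneous k → ¬ Van W A → ¬ Van W B → a ≠ 0 →
    (∀ l, (a l).IsHomogeneous g) →
    (∀ h ∈ W, h ≠ 0 → ∑ l, eval (y h) (a l) * (eval h A ^ (m - l) * eval h B ^ (l : ℕ)) = 0) →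
    ∃ p p' : MvPolynomial σ ℂ, p.IsHomogeneous d ∧ p'.IsHomogeneous d ∧ ¬ Van W p ∧ ¬ Van W p' ∧
      Van W (A * p' - B * p)

/-- Vanishing to high order along a fibre. -/
def St_JET : Prop := ∀ (σ : Type) [Fintype σ] (W : Set (σ → ℂ)) (w : ℕ)
  (y : (σ → ℂ) →ₗ[ℂ] Fin (w + 1) → ℂ), Nz W y → ∃ e' : ℕ, ∀ (Y : Fin w → ℂ) (k : ℕ) (T : Type)
  [Fintype T] (A : T → MvPolynomial σ ℂ), e' * k ^ w < Fintype.card T →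
  ∃ c : T → ℂ, c ≠ 0 ∧ ∃ C : ℝ, ∀ h ∈ W, y h 0 = 1 → ‖af y h - Y‖ ≤ 1 →
    ‖∑ τ, c τ * eval h (A τ)‖ ≤ C * ‖af y h - Y‖ ^ k

/-! ### Sections -/

/-- The algebra of sections. -/
structure St_SEC : Prop where
  up : ∀ {ι κ : Type} [Fintype ι] [Fintype κ] {Z : Set (ι × κ → ℂ)} {i j q e k S A} (k' : ℕ),
    Ch Z i j q e k S A → Ch Z i j q e (k + k') S (A * X (i, j) ^ k')
  add : ∀ {ι κ : Type} [Fintype ι] [Fintype κ] {Z : Set (ι × κ → ℂ)} {q e S S'},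
    Sec Z q e S → Sec Z q e S' → Sec Z q e fun x => S x + S' x
  smul : ∀ {ι κ : Type} [Fintype ι] [Fintype κ] {Z : Set (ι × κ → ℂ)} {q e S} (c : ℂ),
    Sec Z q e S → Sec Z q e fun x => c * S x
  sum : ∀ {ι κ T : Type} [Fintype ι] [Fintype κ] [Fintype T] {Z : Set (ι × κ → ℂ)} {q e}
    {S : T → Fn ι κ}, (∀ τ, Sec Z q e (S τ)) → Sec Z q e fun x => ∑ τ, S τ x
  mul : ∀ {ι κ : Type} [Fintype ι] [Fintype κ] {Z : Set (ι × κ → ℂ)} {q e q' e' S S'},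
    Sec Z q e S → Sec Z q' e' S' → Sec Z (q + q') (e + e') fun x => S x * S' x
  pow : ∀ {ι κ : Type} [Fintype ι] [Fintype κ] {Z : Set (ι × κ → ℂ)} {q e S} (m : ℕ),
    Sec Z q e S → Sec Z (m * q) (m * e) fun x => S x ^ m
  form : ∀ {ι κ : Type} [Fintype ι] [Fintype κ] {Z : Set (ι × κ → ℂ)} {e}
    {A : MvPolynomial (ι × κ) ℂ}, A.IsHomogeneous e → Sec Z 0 e fun x => eval (sg x) A
  hom : ∀ {ι κ : Type} [Fintype ι] [Fintype κ] {Z : Set (ι × κ → ℂ)} {q e S}, Cone Z →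
    Sec Z q e S → ∀ x ∈ Bc Z, ∀ c c' : ℂ, c ≠ 0 → c' ≠ 0 → (c • x.1, c' • x.2) ∈ Bc Z ∧
      S (c • x.1, c' • x.2) * c' ^ q = c ^ (e + q) * c' ^ e * S x

/-- The unit vectors. -/
structure St_SPH : Prop where
  cpt : ∀ {ι κ : Type} [Fintype ι] [Fintype κ] {Z : Set (ι × κ → ℂ)}, Cone Z → CompactSpace (Sph Z)
  bc : ∀ {ι κ : Type} [Fintype ι] [Fintype κ] {Z : Set (ι × κ → ℂ)} (p : Sph Z),
    p.1 ∈ Bc Z ∧ nsq (sg p.1) = 1 ∧ (∃ i j, p.1.1 i * p.1.2 j ≠ 0) ∧ (∀ i, ‖p.1.1 i‖ ≤ 1) ∧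
      ∀ j, ‖p.1.2 j‖ ≤ 1
  csg : ∀ {ι κ : Type} [Fintype ι] [Fintype κ] {Z : Set (ι × κ → ℂ)},
    Continuous fun p : Sph Z => sg p.1
  cont : ∀ {ι κ : Type} [Fintype ι] [Fintype κ] {Z : Set (ι × κ → ℂ)} {q e S},
    Sec Z q e S → Continuous fun p : Sph Z => S p.1
  cfm : ∀ {ι κ : Type} [Fintype ι] [Fintype κ] {Z : Set (ι × κ → ℂ)} (P), Continuous (fm Z P)
  unit : ∀ {ι κ : Type} [Fintype ι] [Fintype κ] {Z : Set (ι × κ → ℂ)}, Cone Z →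
    ∀ x ∈ Bc Z, ∃ (p : Sph Z) (c c' : ℝ), 0 < c ∧ 0 < c' ∧ c ^ 2 = nsq x.1 ∧ c' ^ 2 = nsq x.2 ∧
      x = ((c : ℂ) • p.1.1, (c' : ℂ) • p.1.2)
  pt : ∀ {ι κ : Type} [Fintype ι] [Fintype κ] {Z : Set (ι × κ → ℂ)} {e₀}, Mdl Z e₀ →
    ∀ h ∈ Z, h ≠ 0 → ∃ (p : Sph Z) (c : ℂ), c ≠ 0 ∧ h = c • sg p.1

/-- Weights. -/
structure St_ADM : Prop where
  one : ∀ {ι κ : Type} [Fintype ι] [Fintype κ] {Z : Set (ι × κ → ℂ)} {q e S},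
    Sec Z q e S → Pos Z q e fun p => normSq (S p.1)
  add : ∀ {ι κ : Type} [Fintype ι] [Fintype κ] {Z : Set (ι × κ → ℂ)} {q e N N'},
    Pos Z q e N → Pos Z q e N' → Pos Z q e fun p => N p + N' p
  smul : ∀ {ι κ : Type} [Fintype ι] [Fintype κ] {Z : Set (ι × κ → ℂ)} {q e N} {c : ℝ},
    0 ≤ c → Pos Z q e N → Pos Z q e fun p => c * N p
  up : ∀ {ι κ : Type} [Fintype ι] [Fintype κ] {Z : Set (ι × κ → ℂ)} {q e e' N},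
    e ≤ e' → Pos Z q e N → Pos Z q e' N
  cont : ∀ {ι κ : Type} [Fintype ι] [Fintype κ] {Z : Set (ι × κ → ℂ)} {q e N},
    Pos Z q e N → Continuous N ∧ ∀ p, 0 ≤ N p
  gen : ∀ {ι κ : Type} [Fintype ι] [Fintype κ] {Z : Set (ι × κ → ℂ)} {e₀ q e}, Mdl Z e₀ →
    q = 0 ∨ e₀ ≤ e → ∃ N, Gen Z q e N
  log : ∀ {ι κ : Type} [Fintype ι] [Fintype κ] {Z : Set (ι × κ → ℂ)} {q e N} {t : ℝ},
    0 ≤ t → Gen Z q e N → Adm Z (t * q) (t * e) fun p => t * Real.log (N p)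
  const : ∀ {ι κ : Type} [Fintype ι] [Fintype κ] {Z : Set (ι × κ → ℂ)} (a : ℝ),
    Adm Z 0 0 fun _ => a
  plus : ∀ {ι κ : Type} [Fintype ι] [Fintype κ] {Z : Set (ι × κ → ℂ)} {y c y' c' β β'},
    Adm Z y c β → Adm Z y' c' β' → Adm Z (y + y') (c + c') fun p => β p + β' p
  mono : ∀ {ι κ : Type} [Fintype ι] [Fintype κ] {Z : Set (ι × κ → ℂ)} {y c c' β},
    c ≤ c' → Adm Z y c β → Adm Z y c' β
  cadm : ∀ {ι κ : Type} [Fintype ι] [Fintype κ] {Z : Set (ι × κ → ℂ)} {y c β},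
    Adm Z y c β → Continuous β ∧ 0 ≤ y ∧ 0 ≤ c

/-- Sections on the closure of a set of points. -/
def St_EXT : Prop := ∀ (ι κ O : Type) [Fintype ι] [Fintype κ] (a : O → ι → ℂ) (b : O → κ → ℂ)
  (e₀ : ℕ), (∀ x i, a x i ≠ 0) → (∀ x j, b x j ≠ 0) →
  (∀ q, 0 < q → ∃ (r : ℕ) (u : Fin r → O → ℂ),
    (∀ l i j, ∃ (k : ℕ) (A : MvPolynomial (ι × κ) ℂ), A.IsHomogeneous (e₀ + q + k) ∧
      ∀ x, u l x * b x j ^ (2 * q) * (a x i * b x j) ^ k = eval (sg (a x, b x)) A) ∧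
    ∀ i j, ∃ (k : ℕ) (R : Fin r → MvPolynomial (ι × κ) ℂ), (∀ l, (R l).IsHomogeneous (q + k)) ∧
      ∀ x, a x i ^ (2 * q) * (a x i * b x j) ^ (e₀ + k) =
        ∑ l, eval (sg (a x, b x)) (R l) * u l x) →
  Mdl (Clo fun x => sg (a x, b x)) e₀

/-! ### Limit measures -/

/-- Tilting and limits. -/
def St_GD : Prop := ∀ (ι κ : Type) [Fintype ι] [Fintype κ] (Z : Set (ι × κ → ℂ))
  [CompactSpace (Sph Z)] (K x ε : ℝ),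
  (∀ (ν : ProbabilityMeasure (Sph Z)) y c β, Good Z K ν x ε → Adm Z y c β →
    Good Z K (tl (fun p => -β p) ν) (x + y) (ε - c)) ∧
  IsClosed {ν : ProbabilityMeasure (Sph Z) | Good Z K ν x ε}

/-- Concentration on the zeros. -/
def St_RULE : Prop := ∀ (ι κ : Type) [Fintype ι] [Fintype κ] (Z W : Set (ι × κ → ℂ))
  [CompactSpace (Sph Z)] (K x ε t : ℝ) (ν : ProbabilityMeasure (Sph Z)) (q e : ℕ)
  (N N₀ : Sph Z → ℝ), Cone W → On Z K ν x ε W → Pos Z q e N → Gen Z q e N₀ → 0 < t → t * e < ε →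
  Blow N t (ν : Measure (Sph Z)) → ∃ ν', On Z K ν' (x + t * q) (ε - t * e) W ∧
    (ν' : Measure (Sph Z)) {p | N p ≠ 0} = 0

/-- Noetherian induction. -/
def St_IND : Prop := ∀ (ι κ : Type) [Fintype ι] [Fintype κ] (Z : Set (ι × κ → ℂ)) (K x ε : ℝ)
  (ν : ProbabilityMeasure (Sph Z)), Cone Z → On Z K ν x ε Z → ∃ W ν' x' ε', Min Z K ν' x' ε' W

/-- Properties of a minimal cone. -/
def St_MIN : Prop := ∀ (ι κ : Type) [Fintype ι] [Fintype κ] (Z W : Set (ι × κ → ℂ))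
  [CompactSpace (Sph Z)] (K x ε : ℝ) (ν : ProbabilityMeasure (Sph Z)) (e₀ : ℕ), Mdl Z e₀ →
  Min Z K ν x ε W →
  (∀ (q e : ℕ) (S : Fn ι κ) (t : ℝ), Sec Z q e S → q = 0 ∨ e₀ ≤ e → Nv Z W S → 0 < t → t * e < ε →
    ¬ Blow (fun p : Sph Z => normSq (S p.1)) t (ν : Measure (Sph Z))) ∧
  (∀ (d : ℕ) (P : MvPolynomial (ι × κ) ℂ), P.IsHomogeneous d → ¬ Van W P →
    (ν : Measure (Sph Z)) {p | eval (sg p.1) P = 0} = 0) ∧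
  Irr W ∧ ∃ p : Sph Z, sg p.1 ∈ W

/-- Uniform integrability for forms of fixed degree. -/
def St_UNI : Prop := ∀ (ι κ : Type) [Fintype ι] [Fintype κ] (Z W : Set (ι × κ → ℂ))
  [CompactSpace (Sph Z)] (K x ε t : ℝ) (ν : ProbabilityMeasure (Sph Z)) (d : ℕ),
  Min Z K ν x ε W → 0 < t → t * d < ε → ∃ C : ℝ, ∀ P, Un Z W d P → ∀ η > (0 : ℝ),
    ∫ p, (fm Z P p + η) ^ (-t) ∂(ν : Measure (Sph Z)) ≤ C

/-- A compact set of representatives. -/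
def St_CPT : Prop := ∀ (ι κ : Type) [Fintype ι] [Fintype κ] (Z W : Set (ι × κ → ℂ))
  [CompactSpace (Sph Z)] (d : ℕ), Cone W → ∃ (r : ℕ) (B : Fin r → MvPolynomial (ι × κ) ℂ)
  (T : Set (Fin r → ℂ)), IsCompact T ∧ (∀ c ∈ T, Un Z W d (∑ l, c l • B l)) ∧
    ∀ P, Un Z W d P → ∃ c ∈ T, ∀ p : Sph Z, sg p.1 ∈ W → fm Z P p = fm Z (∑ l, c l • B l) p

/-- The pigeonhole principle for forms. -/
def St_PIG : Prop := ∀ (ι κ : Type) [Fintype ι] [Fintype κ] (Z W : Set (ι × κ → ℂ))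
  [CompactSpace (Sph Z)] (ν : Measure (Sph Z)) (d : ℕ) (P : ℕ → MvPolynomial (ι × κ) ℂ), Cone W →
  ν {p | sg p.1 ∉ W} = 0 → (∀ k, Un Z W d (P k)) → Tb ν fun k => fm Z (P k)

/-! ### The first case -/

/-- A point of density. -/
def St_DEN : Prop := ∀ (ι κ : Type) [Fintype ι] [Fintype κ] (Z W : Set (ι × κ → ℂ)) (w : ℕ)
  (y : (ι × κ → ℂ) →ₗ[ℂ] Fin (w + 1) → ℂ) (ν : ProbabilityMeasure (Sph Z)) (d : ℕ)
  (Q : MvPolynomial (Fin (w + 1)) ℂ), Q.IsHomogeneous d →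
  (∀ᵐ p ∂(ν : Measure (Sph Z)), sg p.1 ∈ W ∧ y (sg p.1) 0 ≠ 0 ∧ eval (y (sg p.1)) Q ≠ 0) →
  IsClosed W → ∃ Y : Fin w → ℂ, eval (Fin.cons 1 Y : Fin (w + 1) → ℂ) Q ≠ 0 ∧ ∃ c > (0 : ℝ),
    ∀ᶠ r in 𝓝[>] (0 : ℝ), c * r ^ (2 * w) ≤ (ν : Measure (Sph Z)).real
      {p | sg p.1 ∈ W ∧ y (sg p.1) 0 ≠ 0 ∧ ‖af y (sg p.1) - Y‖ ≤ r}

/-- From the form to the section. -/
def St_LOC : Prop := ∀ (ι κ : Type) [Fintype ι] [Fintype κ] (Z W : Set (ι × κ → ℂ)) (w : ℕ)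
  (y : (ι × κ → ℂ) →ₗ[ℂ] Fin (w + 1) → ℂ) (i : ι) (j : κ) (q e k n : ℕ) (S : Fn ι κ)
  (A : MvPolynomial (ι × κ) ℂ) (Q : MvPolynomial (Fin (w + 1)) ℂ) (Y : Fin w → ℂ) (C : ℝ),
  Cone W → Nz W y → Ch Z i j q e k S A → (∀ h ∈ W, h (i, j) = 0 → eval (y h) Q = 0) →
  eval (Fin.cons 1 Y : Fin (w + 1) → ℂ) Q ≠ 0 →
  (∀ h ∈ W, y h 0 = 1 → ‖af y h - Y‖ ≤ 1 → ‖eval h A‖ ≤ C * ‖af y h - Y‖ ^ n) →
  ∃ C' > (0 : ℝ), ∀ᶠ r in 𝓝[>] (0 : ℝ), ∀ p : Sph Z, sg p.1 ∈ W → y (sg p.1) 0 ≠ 0 →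
    ‖af y (sg p.1) - Y‖ ≤ r → normSq (S p.1) ≤ C' * r ^ (2 * n)

/-- Many independent sections give a section with a zero of high order. -/
def St_HI : Prop := ∀ (ι κ : Type) [Fintype ι] [Fintype κ] (Z W : Set (ι × κ → ℂ)) (w : ℕ)
  (y : (ι × κ → ℂ) →ₗ[ℂ] Fin (w + 1) → ℂ) (i : ι) (j : κ), Cone Z → Cone W → Nz W y →
  ∃ e' : ℕ, ∀ (Y : Fin w → ℂ) (m n q e : ℕ) (s s' : Fn ι κ), Sec Z q e s → Sec Z q e s' →
    ¬ Rel Z W y m s s' → e' * n ^ w < (m + 1) ^ (w + 1) →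
    ∃ (S : Fn ι κ) (k : ℕ) (A : MvPolynomial (ι × κ) ℂ) (C : ℝ),
      Sec Z (m * q) (m * (e + w)) S ∧ Nv Z W S ∧ Ch Z i j (m * q) (m * (e + w)) k S A ∧
      ∀ h ∈ W, y h 0 = 1 → ‖af y h - Y‖ ≤ 1 → ‖eval h A‖ ≤ C * ‖af y h - Y‖ ^ n

/-- The first case. -/
def St_CA : Prop := ∀ (ι κ : Type) [Fintype ι] [Fintype κ] (Z W : Set (ι × κ → ℂ))
  [CompactSpace (Sph Z)] (K x ε : ℝ) (ν : ProbabilityMeasure (Sph Z)) (e₀ e w : ℕ)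
  (y : (ι × κ → ℂ) →ₗ[ℂ] Fin (w + 1) → ℂ), Mdl Z e₀ → Min Z K ν x ε W → Nz W y → e₀ ≤ e →
  ∃ m : ℕ, ∀ (q : ℕ) (s s' : Fn ι κ), Sec Z q e s → Sec Z q e s' → Rel Z W y m s s'

/-! ### The second case -/

/-- The tower of sections. -/
def St_SEQ : Prop := ∀ (ι κ : Type) [Fintype ι] [Fintype κ] (Z W : Set (ι × κ → ℂ))
  [CompactSpace (Sph Z)] (e₀ w m : ℕ) (y : (ι × κ → ℂ) →ₗ[ℂ] Fin (w + 1) → ℂ), Mdl Z e₀ → Cone W →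
  W ⊆ Z → Irr W → Nz W y → (∃ p : Sph Z, sg p.1 ∈ W) →
  (∀ (q : ℕ) (s s' : Fn ι κ), Sec Z q (2 * e₀) s → Sec Z q (2 * e₀) s' → Rel Z W y m s s') →
  ∃ (d : ℕ) (α : ι × κ) (s : ℕ → Fn ι κ) (P P' : ℕ → MvPolynomial (ι × κ) ℂ), ¬ Van W (X α) ∧
    ∀ k, Sec Z (2 ^ k) e₀ (s k) ∧ Nv Z W (s k) ∧ Un Z W (d + e₀) (P k) ∧ Un Z W d (P' k) ∧
      ∀ p : Sph Z, sg p.1 ∈ W → sg p.1 α ≠ 0 →
        normSq (s k p.1) ^ 2 * fm Z (P' k) p = normSq (s (k + 1) p.1) * fm Z (P k) p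

/-- The test sections. -/
def St_STAR : Prop := ∀ (ι κ : Type) [Fintype ι] [Fintype κ] (Z : Set (ι × κ → ℂ))
  (K x ε : ℝ) (ν : Measure (Sph Z)) (e₀ d : ℕ) (s : ℕ → Fn ι κ)
  (P' : ℕ → MvPolynomial (ι × κ) ℂ) (N : ℕ → Sph Z → ℝ), Good Z K ν x ε → 0 ≤ x → 0 < ε →
  (∀ k, Sec Z (2 ^ k) e₀ (s k) ∧ (P' k).IsHomogeneous d ∧ Gen Z (2 ^ k) e₀ (N k)) →
  Star ν K x (fun k p => normSq (s k p.1)) (fun k => fm Z (P' k)) N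

/-- Removal of the regularisation. -/
def St_POW : Prop := ∀ (Ω : Type) [MeasurableSpace Ω] (ν : Measure Ω) [IsProbabilityMeasure ν]
  (g : Ω → ℝ) (t C B : ℝ), Measurable g → (∀ p, 0 ≤ g p ∧ g p ≤ B) → 0 < t →
  (∀ η > (0 : ℝ), ∫ p, (g p + η) ^ (-t) ∂ν ≤ C) →
  (∀ᵐ p ∂ν, 0 < g p) ∧ Mo ν (fun p => g p ^ (-t)) C ∧ Integrable (fun p => Real.log (g p)) ν

/-- The inequality of the weighted means. -/
def St_AMG : Prop := ∀ (Ω T : Type) [MeasurableSpace Ω] (ν : Measure Ω) [IsProbabilityMeasure ν]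
  (s : Finset T) (g : T → Ω → ℝ) (τ : T → ℝ) (t C : ℝ), 0 < t → (∀ a ∈ s, 0 ≤ τ a) →
  ∑ a ∈ s, τ a ≤ t → (∀ a ∈ s, Measurable (g a) ∧ (∀ᵐ p ∂ν, 0 < g a p) ∧
    Mo ν (fun p => g a p ^ (-t)) C) →
  Mo ν (fun p => Real.exp (-∑ a ∈ s, τ a * Real.log (g a p))) (max C 1)

/-- Continuity of the logarithm in the mean. -/
def St_LGC : Prop := ∀ (t C : ℝ), 0 < t → ∃ B : ℝ, ∀ δ > (0 : ℝ), ∃ δ' > (0 : ℝ),
  ∀ (Ω : Type) [MeasurableSpace Ω] (ν : Measure Ω) [IsProbabilityMeasure ν] (g g' : Ω → ℝ),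
  Measurable g → Measurable g' → (∀ᵐ p ∂ν, 0 < g p ∧ g p ≤ 1 ∧ 0 < g' p ∧ g' p ≤ 1) →
  Mo ν (fun p => g p ^ (-t)) C → Mo ν (fun p => g' p ^ (-t)) C →
  Mo ν (fun p => Real.log (g p) ^ 2) B ∧ ((∀ᵐ p ∂ν, |g p - g' p| ≤ δ') →
    Mo ν (fun p => (Real.log (g p) - Real.log (g' p)) ^ 2) δ)

/-- The telescope. -/
def St_TLS : Prop := ∀ (Ω : Type) [MeasurableSpace Ω] (ν : Measure Ω) (t C : ℝ)
  (f P P' : ℕ → Ω → ℝ), Tw ν t C f P P' → ∀ᵐ p ∂ν, ∀ m i n : ℕ,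
    (l0 f (i + n) p = l0 f i p + ∑ a ∈ Finset.range n, ((2 : ℝ) ^ (i + a + 1))⁻¹ *
      (Real.log (P' (i + a) p) - Real.log (P (i + a) p))) ∧
    0 < bb f P' m i (l0 f (i + n)) p ∧ Real.log (bb f P' m i (l0 f (i + n)) p) =
      ∑ a ∈ Finset.range m, Real.log (P' (i + a) p) + ∑ a ∈ Finset.range n, ((2 : ℝ) ^ (a + 1))⁻¹ *
        (Real.log (P (i + a) p) - Real.log (P' (i + a) p))

/-- Uniform moments. -/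
def St_MOM : Prop := ∀ (Ω : Type) [MeasurableSpace Ω] (ν : Measure Ω) [IsProbabilityMeasure ν]
  (t C x : ℝ) (f P P' : ℕ → Ω → ℝ), Tw ν t C f P P' → 0 ≤ x → ∃ (i₀ m : ℕ) (θ₁ C' : ℝ), 0 < θ₁ ∧
  ∀ θ, 0 < θ → θ ≤ θ₁ → ∀ i j : ℕ, i₀ ≤ i → i + m ≤ j →
    Mo ν (fun p => bb f P' m i (l0 f j) p ^ 4) C' ∧
    Mo ν (fun p => bb f P' m i (l0 f j) p ^ (-(4 * θ))) C' ∧
    Mo ν (fun p => Real.exp (x * l0 f j p) ^ 4) C' ∧ Mo ν (fun p => -(x * l0 f j p)) C'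

/-- Two test sections with almost the same norm. -/
def St_CLS : Prop := ∀ (Ω : Type) [MeasurableSpace Ω] (ν : Measure Ω) [IsProbabilityMeasure ν]
  (t C : ℝ) (f P P' : ℕ → Ω → ℝ), Tw ν t C f P P' → Tb ν P → Tb ν P' → ∀ m i₀ : ℕ, ∀ δ > (0 : ℝ),
  ∃ i i' : ℕ, i₀ ≤ i ∧ i < i' ∧ ∀ᶠ j in atTop, Mo ν (fun p =>
    (Real.log (bb f P' m i (l0 f j) p) - Real.log (bb f P' m i' (l0 f j) p)) ^ 2) δ

/-- The limit in the potential. -/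
def St_LIM0 : Prop := ∀ (Ω : Type) [MeasurableSpace Ω] (ν : Measure Ω) [IsProbabilityMeasure ν]
  (t C K x θ e : ℝ) (f P P' N : ℕ → Ω → ℝ) (m i i' j : ℕ), Tw ν t C f P P' → 0 ≤ x → 0 < θ →
  0 < e → Measurable (N j) → (∃ B, ∀ p, 0 ≤ N j p ∧ N j p ≤ B) →
  Integrable (bb f P' m i' (l0 f j)) ν →
  (∀ η > (0 : ℝ), Iq ν K θ e (bb f P' m i (lm f N j η)) (bb f P' m i' (lm f N j η))
    fun p => Real.exp (x * lm f N j η p)) →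
  Iq ν K θ e (bb f P' m i (l0 f j)) (bb f P' m i' (l0 f j)) fun p => Real.exp (x * l0 f j p)

/-- The estimate fails for functions that are close. -/
def St_KEY : Prop := ∀ C K θ : ℝ, 0 < θ → θ ≤ 1 → ∃ e > (0 : ℝ), ∃ δ > (0 : ℝ),
  ∀ (Ω : Type) [MeasurableSpace Ω] (ν : Measure Ω) [IsProbabilityMeasure ν] (b b' v : Ω → ℝ),
  Measurable b → Measurable b' → Measurable v → (∀ᵐ p ∂ν, 0 < b p ∧ 0 < b' p) →
  Mo ν (fun p => b p ^ 4) C → Mo ν (fun p => b' p ^ 4) C → Mo ν (fun p => b p ^ (-(4 * θ))) C →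
  Mo ν (fun p => Real.exp (v p) ^ 4) C → Mo ν (fun p => -v p) C →
  Mo ν (fun p => (Real.log (b p) - Real.log (b' p)) ^ 2) δ →
  ¬ Iq ν K θ e b b' fun p => Real.exp (v p)

/-- The estimate fails for a tower. -/
def St_TEL : Prop := ∀ (Ω : Type) [MeasurableSpace Ω] (ν : Measure Ω) [IsProbabilityMeasure ν]
  (t C K x : ℝ) (f P P' N : ℕ → Ω → ℝ), Tw ν t C f P P' → Tb ν P → Tb ν P' → 0 ≤ x →
  (∀ j, Measurable (N j) ∧ ∃ B, ∀ p, 0 ≤ N j p ∧ N j p ≤ B) → ¬ Star ν K x f P' N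

/-- The second case. -/
def St_CB : Prop := ∀ (ι κ : Type) [Fintype ι] [Fintype κ] (Z W : Set (ι × κ → ℂ))
  [CompactSpace (Sph Z)] (K x ε : ℝ) (ν : ProbabilityMeasure (Sph Z)) (e₀ w m : ℕ)
  (y : (ι × κ → ℂ) →ₗ[ℂ] Fin (w + 1) → ℂ), Mdl Z e₀ → Min Z K ν x ε W → Nz W y →
  ¬ ∀ (q : ℕ) (s s' : Fn ι κ), Sec Z q (2 * e₀) s → Sec Z q (2 * e₀) s' → Rel Z W y m s s'

/-- There is no good measure. -/
def St_THC : Prop := ∀ (ι κ : Type) [Fintype ι] [Fintype κ] (Z : Set (ι × κ → ℂ)) (K x ε : ℝ)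
  (ν : ProbabilityMeasure (Sph Z)) (e₀ : ℕ), Mdl Z e₀ → 0 ≤ x → 0 < ε → ¬ Good Z K ν x ε

theorem cTHC (hSPH : St_SPH) (hIND : St_IND) (hMIN : St_MIN) (hNOE : St_NOE) (hCA : St_CA)
    (hCB : St_CB) : St_THC := by
  intro ι κ _ _ Z K x ε ν e₀ hZ hx hε hG
  have := hSPH.cpt hZ.cone
  have h0 : {p : Sph Z | sg p.1 ∉ Z} = ∅ := eq_empty_of_forall_notMem fun p hp => hp p.2.1
  obtain ⟨W, ν', x', ε', hW⟩ :=
    hIND ι κ Z K x ε ν hZ.cone ⟨hG, hx, hε, by rw [h0, measure_empty]⟩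
  obtain ⟨-, -, -, p, hp⟩ := hMIN ι κ Z W K x' ε' ν' e₀ hZ hW
  obtain ⟨-, -, ⟨i, j, hij⟩, -⟩ := hSPH.bc p
  obtain ⟨w, y, hy⟩ := hNOE _ W hW.cone ⟨_, hp, fun h => hij (congrFun h (i, j))⟩
  obtain ⟨m, hm⟩ := hCA ι κ Z W K x' ε' ν' e₀ (2 * e₀) w y hZ hW hy (by omega)
  exact hCB ι κ Z W K x' ε' ν' e₀ w m y hZ hW hy hm

end Pool.Agent.Lib.NV6
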