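import Pool.Agent.Lib.NV6.J_FRM
import Pool.Agent.Lib.NV6.CBlue

/-! Project NV6: from the generators of block J to the model of block C. -/

open scoped Classical
open Set Complex

noncomputable section

namespace Pool.Agent.Lib.NV6.J

open Pool.Agent.Lib.HS32 Pool.Agent.Lib.EX MvPolynomial

/-- The model of block C. -/
theorem brg (hE : St_EXT) {n : ℕ} {M : Mf n} {ι : Type} {D : Ad M ι} {I K : Type} [Fintype I]
    [Fintype K] {r m r' : ℕ} {O : Set M.X} (e₀ : Fin r ≃ I × K) (ε : Fin r' ≃ Fin r × Fin m)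
    {a : I → M.X → ℂ} {b : K → M.X → ℂ} {Q : Fin m → M.X → ℂ} {h W : Fin r → M.X → ℂ}
    (hh : ∀ x ∈ O, ∀ α, h α x = a (e₀ α).1 x * b (e₀ α).2 x ∧ W α x = a (e₀ α).1 x ^ 2)
    (ha : ∀ x ∈ O, ∀ i, a i x ≠ 0) (hb : ∀ x ∈ O, ∀ j, b j x ≠ 0) (hQ : ∀ x ∈ O, ∀ i, Q i x ≠ 0)
    (hN : Nf (D := D) O (fun β y => h (ε β).1 y * Q (ε β).2 y)
      fun β y => W (ε β).1 y * Q (ε β).2 y) :
    Mdl (Clo fun x : O => sg (fun p : I × Fin m => a p.1 x * Q p.2 x,
      fun p : K × Fin m => b p.1 x * Q p.2 x)) 1 := by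
  have key := hE (I × Fin m) (K × Fin m) O (fun x p => a p.1 x * Q p.2 x)
    (fun x p => b p.1 x * Q p.2 x) 1 (fun x p => mul_ne_zero (ha x x.2 _) (hQ x x.2 _))
    (fun x p => mul_ne_zero (hb x x.2 _) (hQ x x.2 _))
  refine key fun q _ => ?_
  obtain ⟨m', u, -, hu⟩ := hN q
  let ρ : Fin m → Fin r' → (I × Fin m) × K × Fin m := fun μ β =>
    (((e₀ (ε β).1).1, (ε β).2), ((e₀ (ε β).1).2, μ))
  have ren : ∀ (μ : Fin m) (k : ℕ) (R : MvPolynomial (Fin r') ℂ), R.IsHomogeneous k → ∀ x : O,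
      eval (sg (fun p : I × Fin m => a p.1 x * Q p.2 x, fun p : K × Fin m => b p.1 x * Q p.2 x))
        (rename (ρ μ) R) = pv (fun β y => h (ε β).1 y * Q (ε β).2 y) R x * Q μ x ^ k := by
    intro μ k R hR x
    rw [eval_rename, pv, ← FRMk.scal hR]
    refine congrArg (fun f => eval f R) (funext fun β => ?_)
    simp only [Function.comp_apply, sg, ρ, (hh x x.2 _).1]
    ring
  refine ⟨m' * m, fun l x => u (finProdFinEquiv.symm l).1 x * Q (finProdFinEquiv.symm l).2 x,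
    fun l i j => ?_, fun i j => ?_⟩
  · obtain ⟨R, hR, hx⟩ := (hu (ε.symm (e₀.symm (i.1, j.1), j.2))).1 (finProdFinEquiv.symm l).1
    refine ⟨1, rename (ρ j.2) R * X (i, (j.1, (finProdFinEquiv.symm l).2)), ?_, fun x => ?_⟩
    · rw [add_comm 1 q]
      exact hR.rename_isHomogeneous.mul (isHomogeneous_X ℂ _)
    have h1 := hx x x.2
    simp only [Equiv.apply_symm_apply, (hh x x.2 _).1, (hh x x.2 _).2] at h1
    rw [map_mul, ren _ _ R hR, eval_X]
    refine mul_left_cancel₀ (pow_ne_zero q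
      (mul_ne_zero (pow_ne_zero 2 (ha x x.2 i.1)) (hQ x x.2 j.2))) ?_
    simp only [sg]
    linear_combination Q j.2 x ^ (q + 1) * (a i.1 x * Q i.2 x *
      (b j.1 x * Q (finProdFinEquiv.symm l).2 x)) * h1
  · obtain ⟨R, hR, hx⟩ := (hu (ε.symm (e₀.symm (i.1, j.1), i.2))).2
      (ε.symm (e₀.symm (i.1, j.1), i.2))
    refine ⟨0, fun l => if (finProdFinEquiv.symm l).2 = j.2 then
      rename (ρ i.2) (R (finProdFinEquiv.symm l).1) else 0, fun l => ?_, fun x => ?_⟩
    · dsimp only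
      split_ifs
      · exact (hR _).rename_isHomogeneous
      · exact isHomogeneous_zero _ _ _
    have h1 := hx x x.2
    simp only [Equiv.apply_symm_apply, (hh x x.2 _).1, (hh x x.2 _).2] at h1
    have h3 : ∀ p : Fin m' × Fin m, eval (sg (fun p : I × Fin m => a p.1 x * Q p.2 x,
        fun p : K × Fin m => b p.1 x * Q p.2 x)) (if p.2 = j.2 then rename (ρ i.2) (R p.1) else 0) *
          (u p.1 x * Q p.2 x) = if p.2 = j.2 then Q i.2 x ^ q * Q j.2 x *
            (pv (fun β y => h (ε β).1 y * Q (ε β).2 y) (R p.1) x * u p.1 x) else 0 := by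
      intro p
      split_ifs with hp
      · rw [ren _ _ _ (hR _), hp]
        ring
      · rw [map_zero, zero_mul]
    dsimp only
    rw [Finset.sum_congr rfl fun l _ => h3 (finProdFinEquiv.symm l),
      finProdFinEquiv.symm.sum_comp fun p : Fin m' × Fin m => if p.2 = j.2 then
        Q i.2 x ^ q * Q j.2 x * (pv (fun β y => h (ε β).1 y * Q (ε β).2 y) (R p.1) x * u p.1 x)
        else 0, Fintype.sum_prod_type]
    simp only [Finset.sum_ite_eq', Finset.mem_univ, if_true]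
    rw [← Finset.mul_sum, ← h1]
    ring

end Pool.Agent.Lib.NV6.J
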