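import Pool.Agent.Lib.NV6.JBlue

/-! Project NV6, block J: the theorem of the block. -/

open scoped Classical Topology ContDiff ENNReal
open Set MeasureTheory Complex Metric Filter

noncomputable section

namespace Pool.Agent.Lib.NV6.J

open Pool.Agent.Lib.SV (E nsq)
open Pool.Agent.Lib.HS32 Pool.Agent.Lib.EX Pool.Agent.Lib.EXS Pool.Agent.Lib.ZL
open Pool.Agent.Lib.ZQ (HqO offz)

/-- Almost every point is off the zeros of a non-zero function. -/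
theorem ae_offz {n : ℕ} {M : Mf n} [M.Cpt] {ι : Type} [Fintype ι] [DecidableEq ι] {D : Ad M ι}
    (X : Cx D) {g : M.X → ℂ} (hg : HoO D g) (g0 : ∃ x ∈ off D, g x ≠ 0) :
    IsOpen (offz D g) ∧ offz D g ⊆ off D ∧ ∀ᵐ x ∂X.μ, x ∈ offz D g := by
  have hO := ZQ.HO.offz_open (oa_iff.1 hg)
  refine ⟨hO, fun _ hx => hx.1, ?_⟩
  have e : (univ : Set M.X) = ⋃ d, (D.e d).source :=
    (eq_univ_of_forall fun x => mem_iUnion.2 (GLU.ex_ch D x)).symm
  rw [← Measure.restrict_univ (μ := X.μ), e, ae_restrict_iUnion_iff]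
  intro d
  change (X.μ.restrict _) (offz D g)ᶜ = 0
  rw [← lintegral_indicator_one hO.measurableSet.compl, X.eta]
  refine lintegral_eq_zero_of_ae_eq_zero ((ae_restrict_iff' measurableSet_ball).2
    ((ZQ.HO.ae_offz (oa_iff.1 hg) g0 d).mono fun z hz hb => ?_))
  beta_reduce
  rw [indicator_of_notMem (notMem_compl_iff.2 (hz hb)), mul_zero, Pi.zero_apply]

theorem jJ (hU : St_UPB) (hK : St_KIT) (hS : St_SGA) (hG : St_GEN) (hD : St_DEN) : St_J := by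
  intro n M _ ι _ _ D X r d k g L κ P h W b hM hR
  obtain ⟨c, m, C, m0, hC, hq⟩ := hG n M ι D X r d k g L κ P h W b hM
  obtain ⟨e, Q, g', τ, hQ, ⟨R, hg'⟩, g0, sub, hτ, hx⟩ :=
    hD n M ι D X r c m g P _ h C hM.toFr hM.rg hR m0 hC
  refine ⟨m, e, Q, g', m0, hQ, ⟨R, hg'⟩, g0, sub, fun x h' i => ((hx x h').2 i).1, fun r' ε q => ?_⟩
  obtain ⟨m', s, hs, hq⟩ := hq q
  obtain ⟨o1, o2, o3⟩ := ae_offz X ((hU n M ι D R).1 g' hg'.1).1 g0
  obtain ⟨k1, k2, -, k4, -⟩ := hK n M ι D X _ o1 o2 o3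
  have cb : ∀ {m : ℕ} {s : Fin m → M.X → ℂ} {f}, Cb (offz D g) h q s f → Cb (offz D g') h q s f :=
    fun ⟨R, h1, h2⟩ => ⟨R, h1, fun x h' => h2 x (sub h')⟩
  refine ⟨m' * r, fun j y => s (finProdFinEquiv.symm j).1 y * h (finProdFinEquiv.symm j).2 y / τ y,
    fun j => (k4 _ _ (k4 _ _ (k1 _ (hs _)) (k2 _ _ (hM.sp _)).1).2.2.1 hτ).2.2.2.2
      fun x h' => (hx x h').1, ?_⟩
  exact hS M.X r m _ h W C (fun i => pv h (Q i)) τ q m' s r' _ ε finProdFinEquiv.symm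
    (fun x h' => ⟨(hx x h').1, (hM.hne x (sub h')).2.1, fun i => ((hx x h').2 i).2⟩)
    fun a => ⟨fun j => cb ((hq a).1 j), fun i => cb ((hq a).2 i)⟩

end Pool.Agent.Lib.NV6.J
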