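import Pool.Agent.Lib.NV6.GBlue
import Pool.Agent.Lib.NV6.G_RHO
import Pool.Agent.Lib.NV6.J_BRG
import Pool.Agent.Lib.NV6.J_J
import Pool.Agent.Lib.NV5.DomBlue

/-! Project NV6, block GAP: the glue. -/

open scoped Classical Topology ContDiff ENNReal
open Set MeasureTheory Complex Metric Filter

noncomputable section

namespace Pool.Agent.Lib.NV6

open Pool.Agent.Lib.SV (E nsq nsq_nonneg)
open Pool.Agent.Lib.HS32 Pool.Agent.Lib.EX Pool.Agent.Lib.EXS Pool.Agent.Lib.ZL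
open Pool.Agent.Lib.ZQ (HqO offz)
open Pool.Agent.Lib.NV6.J (Ho pv)

theorem GAP.nsq_mul {I J : Type} [Fintype I] [Fintype J] (a : I → ℂ) (b : J → ℂ) :
    nsq (fun p : I × J => a p.1 * b p.2) = nsq a * nsq b := by
  simp only [nsq, Fintype.sum_prod_type, map_mul, Finset.sum_mul_sum]

open GAP in
theorem gGAP (hU : St_UPB) (hAM : NV5.Sb_AM) (hKA : DM.St_KAH) (hK : J.St_KIT) (hJ : J.St_J)
    (hR : R6.St_R) (hH : St_HOM) (hE : St_EXT) (hT : St_THC) (hMP : St_MP) (hG : St_GOOD)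
    (hD : St_DIC) : St_GAP := by
  intro n M _ ι _ _ D X r t F _ _ Φ V m π k a₀ lam κ τ pr zw br fb dm
  obtain ⟨N, r₁, r₂, P, a, b, N0, ab, h⟩ := hR n M ι D X r t F Φ V m π k a₀ lam κ τ pr zw br fb
  have eq : ∀ i j : ℕ, ∃ l, Nonempty (Fin l ≃ Fin i × Fin j) := fun _ _ =>
    ⟨_, ⟨finProdFinEquiv.symm⟩⟩
  obtain ⟨r', ⟨ε⟩⟩ := eq (r₁ + 1) (r₂ + 1)
  obtain ⟨g, e, b₀, ⟨C, r1⟩, md, rk⟩ := h r' ε
  obtain ⟨m', e', Q, g', m0, qh, ⟨R, rg⟩, g0, sub, q0, nf⟩ :=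
    hJ n M ι D X _ _ e g _ κ _ _ _ b₀ md rk
  have hg : HoO D g' := ((hU n M ι D R).1 g' rg.1).1
  obtain ⟨hO, hs, -⟩ := J.ae_offz X hg g0
  obtain ⟨ae, hq⟩ := pr.hall g' hg g0
  obtain ⟨-, k2, -, k4, -, k6, -⟩ := hK n M ι D X _ hO hs ae
  obtain ⟨r'', ⟨ε'⟩⟩ := eq r' m'
  replace nf := nf r'' ε'
  obtain ⟨u, hu⟩ : ∃ u : Fin m' → M.X → ℂ,
    ∀ l, u l = pv (fun β y => a (ε β).1 y * b (ε β).2 y) (Q l) := ⟨_, fun _ => rfl⟩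
  simp only [← hu] at nf q0
  have nz : ∀ x ∈ offz D g', ∀ i j, a i x * b j x ≠ 0 := fun x hx i j => by
    simpa using (md.hne x (sub hx)).1 (ε.symm (i, j))
  have a0 : ∀ x ∈ offz D g', ∀ i, a i x ≠ 0 := fun x hx i => left_ne_zero_of_mul (nz x hx i 0)
  have b0 : ∀ x ∈ offz D g', ∀ j, b j x ≠ 0 := fun x hx j => right_ne_zero_of_mul (nz x hx 0 j)
  have mdl := J.brg hE (a := a) (b := b) (Q := u) (h := fun β y => a (ε β).1 y * b (ε β).2 y)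
    (W := fun β y => a (ε β).1 y ^ 2) ε ε' (fun _ _ _ => ⟨rfl, rfl⟩) a0 b0 q0 nf
  have mem := (hH.clo fun x : offz D g' => sg (fun p : Fin (r₁ + 1) × Fin m' => a p.1 x * u p.2 x,
    fun p : Fin (r₂ + 1) × Fin m' => b p.1 x * u p.2 x)).2.1
  generalize Clo (O := offz D g') _ = Z at mdl mem
  have hu' : ∀ l, Ho D (offz D g') (u l) := fun l =>
    hu l ▸ (k6 _ _ fun β => (k2 _ _ (md.sp β)).1).1 _
  have ha : ∀ p : Fin (r₁ + 1) × Fin m', Ho D (offz D g') fun x => a p.1 x * u p.2 x := fun p =>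
    (k4 _ _ (k2 _ _ (ab.sa p.1).1).1 (hu' p.2)).2.2.1
  have hb : ∀ p : Fin (r₂ + 1) × Fin m', Ho D (offz D g') fun x => b p.1 x * u p.2 x := fun p =>
    (k4 _ _ (k2 _ _ (ab.sb p.1).1).1 (hu' p.2)).2.2.1
  have : Nonempty (Fin m') := ⟨⟨0, m0⟩⟩
  obtain ⟨x₀, h₀⟩ : (offz D g').Nonempty := g0
  obtain ⟨p, mp⟩ := hMP n M ι D (offz D g') _ _ Z _ _ hO hs ⟨x₀, h₀⟩ mdl.cone ha hb
    (fun x hx => ⟨fun p => mul_ne_zero (a0 x hx _) (q0 x hx _),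
      fun p => mul_ne_zero (b0 x hx _) (q0 x hx _)⟩) fun x hx => mem ⟨x, hx⟩
  obtain ⟨P', hP'⟩ := hD n M ι D F Φ k _ _ P _ r₁ r₂ m' e' a b ε Q u (pow_ne_zero N fb.τ0) ab qh hu
  let α₀ : (Fin (r₁ + 1) × Fin m') × Fin (r₂ + 1) × Fin m' := ((0, ⟨0, m0⟩), (0, ⟨0, m0⟩))
  have n0 : ∀ x ∈ offz D g', a α₀.1.1 x * u α₀.1.2 x * (b α₀.2.1 x * u α₀.2.2 x) ≠ 0 :=
    fun x hx => mul_ne_zero ((mp.ne x hx).1 α₀.1) ((mp.ne x hx).2 α₀.2)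
  obtain ⟨γ, Λ, B, γ0, hΛ, B0, dom⟩ := dm _ P' _ α₀ (fun α => (hP' α).1)
    (fun c => n0 x₀ h₀ (congrFun c x₀)) fun α => (hP' α).2 α₀
  obtain ⟨A, -⟩ := hAM n M ι D r X.e t pr.epos pr.kd pr.imm
  obtain ⟨H, hH'⟩ := hKA n M ι D A
  obtain ⟨θ, θ0, hθ⟩ := gRHO hK X hH'.1.toMet one_ne_zero ENNReal.one_ne_top hO hs ae hq
    (fun α => (k2 _ _ (hP' α).1).1) α₀ n0 B0 fun j =>
      (dom j).imp fun s hs => ⟨hs.1, hs.2.1, fun α x _ => hs.2.2 α x⟩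
  obtain ⟨ρ, ρ1, ρ2, ρ3, ρ4⟩ := hθ θ ⟨θ0, le_rfl⟩
  have en : ∀ x, nsq (fun α : (Fin (r₁ + 1) × Fin m') × Fin (r₂ + 1) × Fin m' =>
      a α.1.1 x * u α.1.2 x * (b α.2.1 x * u α.2.2 x)) = _ := fun x =>
    nsq_mul (fun p : Fin (r₁ + 1) × Fin m' => a p.1 x * u p.2 x)
      fun p : Fin (r₂ + 1) × Fin m' => b p.1 x * u p.2 x
  simp only [en] at ρ3 ρ4
  have N1 : (0 : ℝ) < N := Nat.cast_pos.2 N0
  have ex : ∀ i, (1 / ((N * a₀ : ℕ) : ℝ) + θ * (γ / N)) * ((N * lam i : ℤ) : ℝ) =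
      θ * Λ i + ((N * lam i : ℤ) : ℝ) / (N * a₀ : ℕ) := fun i => by
    rw [hΛ, add_mul, one_div_mul_eq_div, Int.cast_mul, Int.cast_natCast, mul_assoc θ,
      ← mul_assoc (γ / N), div_mul_cancel₀ _ N1.ne', add_comm]
  by_contra hc
  obtain ⟨ν, gd⟩ := hG n M ι D X _ _ _ g' _ _ p ρ (fun i => N * lam i) κ (fun i => Λ i)
    (1 / ((N * a₀ : ℕ) : ℝ) + θ * (γ / N)) θ hg ⟨x₀, h₀⟩ ae mp (by positivity) ρ1 ρ2 ρ3 ρ4
    ⟨C, fun x hx => by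
      rw [nsq_mul (a · x) (u · x), nsq_mul (b · x) (u · x), ← mul_assoc]
      exact mul_le_mul_of_nonneg_right (r1 x (sub hx)) (nsq_nonneg _)⟩
    (fun i => by rw [ex]; linarith [md.lo i]) (fun i => by rw [ex]; linarith [md.hi i])
    fun j j0 s hs => by
      by_contra s0
      exact hc ⟨j * N, Nat.mul_pos j0 N0, s, s0, by simpa only [Nat.cast_mul, mul_assoc] using hs⟩
  exact hT _ _ _ 1 _ θ ν 1 mdl (by positivity) θ0 gd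

theorem gEXC4 (hU : St_UPB) (hG : St_GAP) (hZ : St_Z4) (hR : St_R4) (hD : St_D4) :
    NV5.Sb_EXC4 := by
  intro n M _ ι _ _ D X r c' c₀ t ν F _ _ Φ V m π Q d z k a c b τ C br _ hP hO
  obtain ⟨h1, h2⟩ := hZ n M ι D X r c' c₀ a t ν hP.a0 C
  obtain ⟨j, j0, s, s0, hs⟩ := hG n M ι D X r t F Φ V m π k _ _ _ _ h1 h2 br
    (hR n M ι D X r c' c₀ t ν F Φ V m π Q d z k a c b τ C br hP hO)
    (hD n M ι D X r c' c₀ t ν F Φ V m π Q d z k a c b τ C br hP)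
  refine ⟨j * a * c₀, Nat.mul_pos (Nat.mul_pos j0 hP.a0) C.cpos, s, s0,
    (hU n M ι D _).2.2.1 _ s (fun i => ?_) hs.1, hs.2⟩
  have h3 : (1 : ℤ) ≤ j * a := by exact_mod_cast Nat.mul_pos j0 hP.a0
  push_cast
  nlinarith [mul_nonneg (sub_nonneg.2 h3) (sub_nonneg.2 (C.le i))]

end Pool.Agent.Lib.NV6
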