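import Pool.Agent.Lib.ZQ.HqS
import Pool.Agent.Lib.NV6.G_LEV

/-! Project NV6, block GAP: the test section. -/

open scoped Classical Topology ContDiff ENNReal
open Set MeasureTheory Complex Metric Filter

noncomputable section

namespace Pool.Agent.Lib.NV6

open Pool.Agent.Lib.SV (E nsq)
open Pool.Agent.Lib.HS32 Pool.Agent.Lib.EX Pool.Agent.Lib.ZL
open Pool.Agent.Lib.EXS.K32
open Pool.Agent.Lib.ZQ (HqO)
open Pool.Agent.Lib.ZQ.Sg (Ps aem cont_on)

theorem TST.sq_le (a b : ℂ) : normSq b ≤ 2 * normSq a + 2 * normSq (a - b) := by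
  simp only [normSq_apply, sub_re, sub_im]
  nlinarith [sq_nonneg (2 * a.re - b.re), sq_nonneg (2 * a.im - b.im)]

variable {n : ℕ} {M : Mf n} {ι : Type} [Fintype ι] {D : Ad M ι} {O : Set M.X}
  {ν : Measure M.X} {K : ℝ≥0∞} {U U' : M.X → ℂ} {ψ φ : M.X → ℝ} {θ : ℝ}

open TST in
/-- The inequality given by the test section when there is no holomorphic solution. -/
theorem tst (K0 : K ≠ 0) (K1 : K ≠ ⊤) (hO : IsOpen O) (ae : ∀ᵐ x ∂ν, x ∈ O) (H : HqO K D ν O)
    (hU : D.On O fun d z => HolN (D.rd U d) z) (hU' : D.On O fun d z => HolN (D.rd U' d) z)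
    (hψ : Ps D O ψ) (hφ : Ps D O φ) (θ0 : 0 < θ)
    (van : ∀ F : M.X → ℂ, (D.On O fun d z => HolN (D.rd F d) z) →
      ∫⁻ x, ENNReal.ofReal (normSq (F x) *
        ((normSq (U x) + Real.exp (ψ x)) ^ (-θ) * Real.exp (-φ x))) ∂ν ≠ ⊤ → ∀ x ∈ O, F x = 0)
    (fin : ∫⁻ x, ENNReal.ofReal (normSq (U x) * normSq (U' x) *
      (normSq (U x) + Real.exp (ψ x)) ^ (-2 - θ) * Real.exp (-φ x)) ∂ν ≠ ⊤) :
    ∫⁻ x, ENNReal.ofReal (normSq (U x) * normSq (U' x) *
      (normSq (U x) + Real.exp (ψ x)) ^ (-2 - θ) * Real.exp (-φ x)) ∂ν ≤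
    K * ENNReal.ofReal (1 / θ) * ∫⁻ x, ENNReal.ofReal (Real.exp (ψ x) * normSq (U' x) *
      (normSq (U x) + Real.exp (ψ x)) ^ (-2 - θ) * Real.exp (-φ x)) ∂ν := by
  set N : M.X → ℝ := fun x => normSq (U x) + Real.exp (ψ x) with hN
  have p : ∀ x, 0 < N x := fun x => add_pos_of_nonneg_of_pos (normSq_nonneg _) (Real.exp_pos _)
  have cg : ∀ {f : M.X → ℂ}, (D.On O fun d z => HolN (D.rd f d) z) → ContinuousOn f O :=
    fun h => cont_on fun d z hz hw => (h d z hz hw).self_of_nhds.continuousAt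
  have cp : ∀ {f : M.X → ℝ}, Ps D O f → ContinuousOn f O :=
    fun h => cont_on fun d z hz hw => (h d z hz hw).1.continuousAt
  have cN : ContinuousOn N O := (continuous_normSq.comp_continuousOn (cg hU)).add (cp hψ).rexp
  have pN : Ps D O fun x => Real.log (N x) := fun d z hz hw =>
    ⟨((bLEV n z 0).1 _ _ (hU d z hz hw) (hψ d z hz hw).1 ((hψ d z hz hw).2 0)).1,
      fun v => LEV.one36 (hU d z hz hw) (hψ d z hz hw).1 ((hψ d z hz hw).2 v)⟩
  have ew : ∀ x, Real.exp (-(θ * Real.log (N x) + φ x)) = N x ^ (-θ) * Real.exp (-φ x) := fun x => by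
    rw [Real.rpow_def_of_pos (p x), ← Real.exp_add]
    exact congrArg _ (by ring)
  have er : ∀ x, N x ^ (-2 - θ) = (N x ^ 2)⁻¹ * N x ^ (-θ) := fun x => by
    rw [sub_eq_add_neg, Real.rpow_add (p x), Real.rpow_neg (p x).le 2, Real.rpow_two]
  obtain ⟨F, f1, f2⟩ := H (fun x => θ * Real.log (N x) + φ x)
    (fun x => 1 / θ * (Real.exp (ψ x) * normSq (U' x) / N x ^ 2))
    (fun x => U' x * (star (U x) * ((N x)⁻¹ : ℝ)))
    (aem hO ae (continuousOn_const.mul (((cp hψ).rexp.mul (continuous_normSq.comp_continuousOn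
      (cg hU'))).div (cN.pow 2) fun x _ => (pow_pos (p x) 2).ne'))) fun d z hz hw => by
    obtain ⟨a1, a2⟩ := pN.mul θ0.le d z hz hw
    obtain ⟨b1, b2⟩ := hφ d z hz hw
    have c := fun v => levU (hU d z hz hw) (hU' d z hz hw) (hψ d z hz hw).1 ((hψ d z hz hw).2 v)
    have l := fun v => lv_add a1 b1 v
    have q : 0 ≤ 1 / θ * (Real.exp (ψ ((D.e d).symm z)) * normSq (U' ((D.e d).symm z)) /
        N ((D.e d).symm z) ^ 2) := mul_nonneg (by positivity)
      (div_nonneg (mul_nonneg (Real.exp_pos _).le (normSq_nonneg _)) (sq_nonneg _))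
    refine ⟨a1.add b1, (c 0).1, fun v => (add_nonneg (a2 v) (b2 v)).trans_eq (l v).symm, q,
      fun v => (c v).2.trans (le_trans (le_of_eq ?_) (mul_le_mul_of_nonneg_left
        (((lv_mul (pN d z hz hw).1 θ v).ge.trans (le_add_of_nonneg_right (b2 v))).trans_eq
          (l v).symm) q))⟩
    change _ = 1 / θ * (_ * _ / _) * _
    rw [mul_mul_mul_comm, one_div_mul_cancel θ0.ne', one_mul, mul_comm (Real.exp _)]
    rfl
  have e1 : ∀ x, normSq (U' x * (star (U x) * ((N x)⁻¹ : ℝ))) *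
      Real.exp (-(θ * Real.log (N x) + φ x)) =
      normSq (U x) * normSq (U' x) * N x ^ (-2 - θ) * Real.exp (-φ x) := fun x => by
    rw [ew, er, map_mul, map_mul, normSq_ofReal, star_def, normSq_conj]
    ring_nf
  have e2 : ∫⁻ x, ENNReal.ofReal (1 / θ * (Real.exp (ψ x) * normSq (U' x) / N x ^ 2) *
      Real.exp (-(θ * Real.log (N x) + φ x))) ∂ν = ENNReal.ofReal (1 / θ) * ∫⁻ x, ENNReal.ofReal
        (Real.exp (ψ x) * normSq (U' x) * N x ^ (-2 - θ) * Real.exp (-φ x)) ∂ν := by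
    rw [← lintegral_const_mul' _ _ ENNReal.ofReal_ne_top]
    refine lintegral_congr fun x => ?_
    rw [← ENNReal.ofReal_mul (by positivity), ew, er]
    exact congrArg _ (by ring)
  rw [e2, ← mul_assoc] at f2
  by_cases h : ∫⁻ x, ENNReal.ofReal
      (Real.exp (ψ x) * normSq (U' x) * N x ^ (-2 - θ) * Real.exp (-φ x)) ∂ν = ⊤
  · rw [h, ENNReal.mul_top (mul_ne_zero K0 (ENNReal.ofReal_pos.2 (by positivity)).ne')]
    exact le_top
  have two : (2 : ℝ≥0∞) ≠ ⊤ := ENNReal.ofNat_ne_top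
  have f0 := van F f1 (ne_top_of_le_ne_top (ENNReal.add_ne_top.2 ⟨ENNReal.mul_ne_top two fin,
    ENNReal.mul_ne_top two (ne_top_of_le_ne_top
      (ENNReal.mul_ne_top (ENNReal.mul_ne_top K1 ENNReal.ofReal_ne_top) h) f2)⟩) (by
    have m1 : AEMeasurable (fun x => 2 * ENNReal.ofReal (normSq (U x) * normSq (U' x) *
        (normSq (U x) + Real.exp (ψ x)) ^ (-2 - θ) * Real.exp (-φ x))) ν :=
      (aem hO ae ((((continuous_normSq.comp_continuousOn (cg hU)).mul
        (continuous_normSq.comp_continuousOn (cg hU'))).mul (cN.rpow_const fun x _ =>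
          Or.inl (p x).ne')).mul (cp hφ).neg.rexp)).ennreal_ofReal.const_mul 2
    rw [← lintegral_const_mul' _ _ two, ← lintegral_const_mul' _ _ two, ← lintegral_add_left' m1]
    refine lintegral_mono fun x => ?_
    rw [← ENNReal.ofReal_ofNat, ← ENNReal.ofReal_mul zero_le_two, ← ENNReal.ofReal_mul zero_le_two]
    refine le_trans (ENNReal.ofReal_le_ofReal ?_) ENNReal.ofReal_add_le
    refine le_trans (mul_le_mul (sq_le (U' x * (star (U x) * ((N x)⁻¹ : ℝ))) _) (ew x).ge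
      (ew x ▸ (Real.exp_pos _).le) (add_nonneg (mul_nonneg zero_le_two (normSq_nonneg _))
        (mul_nonneg zero_le_two (normSq_nonneg _)))) (le_of_eq ?_)
    rw [add_mul, mul_assoc, e1, mul_assoc 2]))
  refine le_trans (lintegral_mono_ae (ae.mono fun x hx => ?_)) f2
  rw [f0 x hx, sub_zero, e1]

end Pool.Agent.Lib.NV6
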