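import Pool.Agent.Lib.NV6.CBlue
import Pool.Agent.Lib.NV6.G_TST

/-! Project NV6, block GAP: the image of the measure on the model is good. -/

open scoped Classical Topology ContDiff ENNReal
open Set MeasureTheory Complex Metric Filter

noncomputable section

namespace Pool.Agent.Lib.NV6

open Pool.Agent.Lib.SV (E nsq nsq_nonneg)
open Pool.Agent.Lib.HS32 Pool.Agent.Lib.EX Pool.Agent.Lib.ZL
open Pool.Agent.Lib.EXS.K32
open Pool.Agent.Lib.ZQ (HqO)
open Pool.Agent.Lib.ZQ.Sg (Ps aem cont_on)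

variable {n : ℕ} {M : Mf n} {ι α κ : Type} [Fintype ι] [Fintype α] [Fintype κ] {D : Ad M ι}
  {O : Set M.X} {ν : Measure M.X} {K : ℝ≥0∞} {a : M.X → α → ℂ} {b : M.X → κ → ℂ}

namespace GOOD

theorem d_eval {σ : Type} {f : E n → σ → ℂ} {z : E n} (h : ∀ p, DifferentiableAt ℂ (f · p) z)
    (A : MvPolynomial σ ℂ) : DifferentiableAt ℂ (fun y => MvPolynomial.eval (f y) A) z := by
  induction A using MvPolynomial.induction_on with
  | C c => simp
  | add p q hp hq => simpa only [map_add] using hp.fun_add hq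
  | mul_X p i hp => simpa only [map_mul, MvPolynomial.eval_X] using hp.fun_mul (h i)

omit [Fintype ι] in
theorem ps_lg {σ : Type} [Fintype σ] {f : M.X → σ → ℂ}
    (h : ∀ i, D.On O fun d z => HolN (D.rd (f · i) d) z) (h0 : ∀ x ∈ O, f x ≠ 0) :
    Ps D O fun x => Real.log (nsq (f x)) := fun d z hz hw => by
  have := lv_lg (F := D.rd f d) ((eventually_all.2 fun i => h i d z hz hw).mono fun y hy =>
    differentiableAt_pi.2 hy) (h0 _ hw)
  exact ⟨this.1, fun v => (this.2 v).1⟩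

omit [Fintype ι] in
theorem ps_add {u v : M.X → ℝ} (h : Ps D O u) (h' : Ps D O v) : Ps D O fun x => u x + v x :=
  fun d z hz hw => ⟨(h d z hz hw).1.add (h' d z hz hw).1, fun y =>
    (add_nonneg ((h d z hz hw).2 y) ((h' d z hz hw).2 y)).trans_eq
      (lv_add (h d z hz hw).1 (h' d z hz hw).1 y).symm⟩

omit [Fintype ι] in
theorem ps_sum {σ : Type} [Fintype σ] {u : σ → M.X → ℝ} (h : ∀ i, Ps D O (u i)) :
    Ps D O fun x => ∑ i, u i x := fun d z hz hw =>
  ⟨ContDiffAt.sum fun i _ => (h i d z hz hw).1, fun y =>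
    (Finset.sum_nonneg fun i _ => (h i d z hz hw).2 y).trans_eq
      (lv_sum (fun i _ => (h i d z hz hw).1) y).symm⟩

end GOOD

open GOOD in
/-- The estimate on the model. -/
theorem good0 {Z : Set (α × κ → ℂ)} (hZ : Cone Z) (mem : ∀ x : O, sg (a x, b x) ∈ Z)
    (hS : St_SEC) (hP : St_SPH) (hA : St_ADM) (K0 : K ≠ 0) (K1 : K ≠ ⊤)
    (hO : IsOpen O) (ae : ∀ᵐ x ∂ν, x ∈ O) (ν0 : ν ≠ 0) (H : HqO K D ν O) (i₀ : α) (j₀ : κ)
    (ha : ∀ i, D.On O fun d z => HolN (D.rd (a · i) d) z)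
    (hb : ∀ j, D.On O fun d z => HolN (D.rd (b · j) d) z) (a0 : ∀ x ∈ O, ∀ i, a x i ≠ 0)
    (b0 : ∀ x ∈ O, ∀ j, b x j ≠ 0) {y ε : ℝ}
    (fin : ∫⁻ x, ENNReal.ofReal
      ((nsq (a x) / nsq (b x)) ^ y * (nsq (a x) * nsq (b x)) ^ (-ε)) ∂ν ≠ ⊤)
    (van : ∀ N : ℕ, 0 < N → y ≤ N → ∀ (wt : M.X → ℝ) (c : ℝ), AEMeasurable wt ν → 0 < c →
      (∀ x ∈ O, c * ((nsq (a x) / nsq (b x)) ^ (-(N - y)) * (nsq (a x) * nsq (b x)) ^ (-ε)) ≤
        wt x) → ∀ F : M.X → ℂ, (D.On O fun d z => HolN (D.rd F d) z) →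
      ∫⁻ x, ENNReal.ofReal (normSq (F x) * wt x) ∂ν ≠ ⊤ → ∀ x ∈ O, F x = 0) :
    ∃ ν' : ProbabilityMeasure (Sph Z), Good Z K.toReal ν' y ε := by
  have := hP.cpt hZ
  have a1 : ∀ x ∈ O, a x ≠ 0 := fun x hx h => a0 x hx i₀ (congrFun h i₀)
  have b1 : ∀ x ∈ O, b x ≠ 0 := fun x hx h => b0 x hx j₀ (congrFun h j₀)
  have bc : ∀ x ∈ O, (a x, b x) ∈ Bc Z := fun x hx => ⟨mem ⟨x, hx⟩, a1 x hx, b1 x hx⟩
  obtain ⟨x₀, h₀⟩ := @Eventually.exists _ _ _ (ae_neBot.2 ν0) ae
  have ex : ∀ x, ∃ (p : Sph Z) (c c' : ℝ), x ∈ O → 0 < c ∧ 0 < c' ∧ c ^ 2 = nsq (a x) ∧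
      c' ^ 2 = nsq (b x) ∧ (a x, b x) = ((c : ℂ) • p.1.1, (c' : ℂ) • p.1.2) := fun x => by
    by_cases hx : x ∈ O
    · obtain ⟨p, c, c', h⟩ := hP.unit hZ _ (bc x hx)
      exact ⟨p, c, c', fun _ => h⟩
    · obtain ⟨p, -⟩ := hP.unit hZ _ (bc x₀ h₀)
      exact ⟨p, 0, 0, fun h => absurd h hx⟩
  choose π c c' hπ using ex
  have cg : ∀ {f : M.X → ℂ}, (D.On O fun d z => HolN (D.rd f d) z) → ContinuousOn f O :=
    fun h => cont_on fun d z hz hw => (h d z hz hw).self_of_nhds.continuousAt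
  have cp : ∀ {f : M.X → ℝ}, Ps D O f → ContinuousOn f O :=
    fun h => cont_on fun d z hz hw => (h d z hz hw).1.continuousAt
  have pa := ps_lg ha a1
  have pb := ps_lg hb b1
  set A : M.X → ℝ := fun x => Real.log (nsq (a x)) with hA'
  set B : M.X → ℝ := fun x => Real.log (nsq (b x)) with hB'
  have ea : ∀ x ∈ O, nsq (a x) = Real.exp (A x) := fun x hx =>
    (Real.exp_log (nsq_pos (a1 x hx))).symm
  have eb : ∀ x ∈ O, nsq (b x) = Real.exp (B x) := fun x hx =>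
    (Real.exp_log (nsq_pos (b1 x hx))).symm
  have sq : ∀ {t u : ℝ}, 0 < t → t ^ 2 = Real.exp u → t = Real.exp (u / 2) := fun {t u} h h' =>
    (pow_left_inj₀ h.le (Real.exp_pos _).le two_ne_zero).1 (by
      rw [h', ← Real.exp_nat_mul]; exact congrArg _ (by push_cast; ring))
  have cπ : ContinuousOn π O := by
    rw [Topology.IsInducing.subtypeVal.continuousOn_iff]
    refine ContinuousOn.congr (f := fun x => ((Real.exp (-(A x / 2)) : ℂ) • a x,
      (Real.exp (-(B x / 2)) : ℂ) • b x)) (((continuous_ofReal.comp_continuousOn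
        ((cp pa).div_const 2).neg.rexp).smul (continuousOn_pi.2 fun i => cg (ha i))).prodMk
      ((continuous_ofReal.comp_continuousOn ((cp pb).div_const 2).neg.rexp).smul
        (continuousOn_pi.2 fun i => cg (hb i)))) fun x hx => ?_
    obtain ⟨h1, h2, h3, h4, h5⟩ := hπ x hx
    obtain ⟨h6, h7⟩ := Prod.ext_iff.1 h5
    dsimp only at h6 h7 ⊢
    rw [h6, h7, smul_smul, smul_smul, Real.exp_neg, Real.exp_neg, ← sq h1 (h3.trans (ea x hx)),
      ← sq h2 (h4.trans (eb x hx)), ← ofReal_mul, ← ofReal_mul, inv_mul_cancel₀ h1.ne',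
      inv_mul_cancel₀ h2.ne', ofReal_one, one_smul, one_smul]
    rfl
  have sec : ∀ {q e : ℕ} {S : Fn α κ}, Sec Z q e S →
      (D.On O fun d z => HolN (D.rd (fun x => S (a x, b x)) d) z) ∧ ∀ x ∈ O, normSq (S (a x, b x)) =
        normSq (S (π x).1) * Real.exp (e * (A x + B x) + q * (A x - B x)) := fun {q e S} h => by
    refine ⟨fun d z hz hw => ?_, fun x hx => ?_⟩
    · obtain ⟨k, P, -, hP⟩ := h i₀ j₀
      refine hol_congr (f := fun u => MvPolynomial.eval (sg (D.rd a d u, D.rd b d u)) P /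
        (D.rd b d u j₀ ^ (2 * q) * (D.rd a d u i₀ * D.rd b d u j₀) ^ k)) ?_
        ((on_ev hO hz hw).mono fun u hu => eq_div_of_mul_eq (mul_ne_zero (pow_ne_zero _
          (b0 _ hu.2 j₀)) (pow_ne_zero _ (mul_ne_zero (a0 _ hu.2 i₀) (b0 _ hu.2 j₀))))
          ((mul_assoc _ _ _).symm.trans (hP _ (bc _ hu.2))))
      filter_upwards [eventually_all.2 fun i => ha i d z hz hw,
        eventually_all.2 fun i => hb i d z hz hw, on_ev hO hz hw] with u u1 u2 hu
      exact (d_eval (f := fun u => sg (D.rd a d u, D.rd b d u)) (fun p => (u1 p.1).mul (u2 p.2))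
        P).mul ((((u2 j₀).pow (2 * q)).mul (((u1 i₀).mul (u2 j₀)).pow k)).inv (mul_ne_zero
          (pow_ne_zero _ (b0 _ hu.2 j₀))
          (pow_ne_zero _ (mul_ne_zero (a0 _ hu.2 i₀) (b0 _ hu.2 j₀)))))
    · obtain ⟨h1, h2, h3, h4, h5⟩ := hπ x hx
      have h6 := congrArg normSq (hS.hom hZ h _ (hP.bc (π x)).1 (c x) (c' x)
        (ofReal_ne_zero.2 h1.ne') (ofReal_ne_zero.2 h2.ne')).2
      rw [← h5, map_mul, map_mul, map_mul, map_pow, map_pow, map_pow, normSq_ofReal, normSq_ofReal,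
        ← pow_two, ← pow_two, h3, h4, ea x hx, eb x hx, ← Real.exp_nat_mul, ← Real.exp_nat_mul,
        ← Real.exp_nat_mul, ← Real.exp_add, ← eq_div_iff (Real.exp_pos _).ne'] at h6
      rw [h6, mul_comm, mul_div_assoc, ← Real.exp_sub]
      exact congrArg (_ * Real.exp ·) (by push_cast; ring)
  have adm : ∀ {u v v' : ℝ} {β : Sph Z → ℝ}, Adm Z u v β → v ≤ v' → ∃ φ, Ps D O φ ∧
      ∀ x ∈ O, φ x = β (π x) + (v' * (A x + B x) + u * (A x - B x)) := fun {u v v' β} h hv => by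
    obtain ⟨r, t, q, e, N, h1, rfl, h3, h4⟩ := h
    choose m S s1 s2 using fun l => (h1 l).2.1
    have e1 : ∀ l, ∀ x ∈ O, nsq (fun i => S l i (a x, b x)) =
        N l (π x) * Real.exp (e l * (A x + B x) + q l * (A x - B x)) := fun l x hx => by
      rw [s2, Finset.sum_mul]
      exact Finset.sum_congr rfl fun i _ => (sec (s1 l i)).2 x hx
    refine ⟨_, ps_add (ps_sum fun l => (ps_lg (f := fun x i => S l i (a x, b x))
      (fun i => (sec (s1 l i)).1) fun x hx h => ?_).mul (h1 l).1)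
      ((ps_add pa pb).mul (sub_nonneg.2 (h3.trans hv))), fun x hx => ?_⟩
    · have := mul_pos ((h1 l).2.2 (π x))
        (Real.exp_pos (e l * (A x + B x) + q l * (A x - B x)))
      rw [← e1 l x hx, h] at this
      simp [nsq] at this
    · rw [h4, Finset.sum_congr rfl fun l _ => by
        rw [e1 l x hx, Real.log_mul ((h1 l).2.2 _).ne' (Real.exp_pos _).ne', Real.log_exp]]
      simp only [mul_add _ (Real.log _), mul_add (t _), ← mul_assoc, Finset.sum_add_distrib,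
        ← Finset.sum_mul]
      ring
  have et : ∀ x ∈ O, ∀ u v : ℝ, (nsq (a x) / nsq (b x)) ^ u * (nsq (a x) * nsq (b x)) ^ v =
      Real.exp (v * (A x + B x) + u * (A x - B x)) := fun x hx u v => by
    rw [ea x hx, eb x hx, ← Real.exp_sub, ← Real.exp_add, ← Real.exp_mul, ← Real.exp_mul,
      ← Real.exp_add]
    exact congrArg _ (by ring)
  let ρ : M.X → ℝ≥0∞ := fun x => ENNReal.ofReal (Real.exp (-ε * (A x + B x) + y * (A x - B x)))
  have mρ : AEMeasurable ρ ν := (aem hO ae ((continuousOn_const.mul ((cp pa).add (cp pb))).add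
    (continuousOn_const.mul ((cp pa).sub (cp pb)))).rexp).ennreal_ofReal
  have mπ := aem hO ae cπ
  have mπ' := mπ.mono_ac (withDensity_absolutelyContinuous ν ρ)
  let m : Measure (Sph Z) := (ν.withDensity ρ).map π
  have : IsFiniteMeasure (ν.withDensity ρ) := isFiniteMeasure_withDensity
    (ne_of_eq_of_ne (lintegral_congr_ae (ae.mono fun x hx =>
      congrArg ENNReal.ofReal (et x hx y (-ε)).symm)) fin)
  have : NeZero m := ⟨fun h => ν0 (Measure.absolutelyContinuous_zero_iff.1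
    ((Measure.map_eq_zero_iff mπ').1 h ▸ withDensity_absolutelyContinuous' mρ
      (ae_of_all _ fun x => (ENNReal.ofReal_pos.2 (Real.exp_pos _)).ne')))⟩
  have li : ∀ f : Sph Z → ℝ, Continuous f → (∀ p, 0 ≤ f p) → ∀ g : M.X → ℝ,
      (∀ x ∈ O, g x = Real.exp (-ε * (A x + B x) + y * (A x - B x)) * f (π x)) →
      ∫⁻ x, ENNReal.ofReal (g x) ∂ν = ENNReal.ofReal (∫ p, f p ∂m) := fun f hf f0 g hg => by
    have mf := hf.measurable.ennreal_ofReal
    rw [ofReal_integral_eq_lintegral_ofReal (hf.integrable_of_hasCompactSupport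
      (HasCompactSupport.of_compactSpace f)) (ae_of_all _ f0), lintegral_map' mf.aemeasurable mπ']
    refine Eq.trans (lintegral_congr_ae (ae.mono fun x hx => ?_))
      (lintegral_withDensity_eq_lintegral_mul₀ mρ (mf.comp_aemeasurable mπ)).symm
    beta_reduce
    rw [hg x hx, ENNReal.ofReal_mul (Real.exp_pos _).le]
    rfl
  refine ⟨⟨(m univ)⁻¹ • m, inferInstance⟩, fun q N e θ c₀ s s' γ β N0 θ0 h1 h2 h3 h4 h5 => ?_⟩
  obtain ⟨ψ, p1, p2⟩ := adm h3 le_rfl
  obtain ⟨φ, p3, p4⟩ := adm h4 (le_sub_iff_add_le.2 h5)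
  obtain ⟨s1, s2⟩ := sec h1
  obtain ⟨s3, s4⟩ := sec h2
  obtain ⟨cγ, -⟩ := hA.cadm h3
  obtain ⟨cβ, y0, -⟩ := hA.cadm h4
  have g0 : ∀ p : Sph Z, 0 < normSq (s p.1) + Real.exp (γ p) := fun p =>
    add_pos_of_nonneg_of_pos (normSq_nonneg _) (Real.exp_pos _)
  have c1 := continuous_normSq.comp (hP.cont h1)
  have cr := fun u : ℝ => (c1.add cγ.rexp).rpow_const (p := u) fun p => Or.inl (g0 p).ne'
  have cd : Continuous (den s s' γ β θ) :=
    ((continuous_normSq.comp (hP.cont h2)).mul (cr _)).mul cβ.neg.rexp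
  have d0 : ∀ p, 0 ≤ den s s' γ β θ p := fun p => mul_nonneg
    (mul_nonneg (normSq_nonneg _) (Real.rpow_nonneg (g0 p).le _)) (Real.exp_pos _).le
  have eN : ∀ x ∈ O, ∀ u : ℝ, (normSq (s (a x, b x)) + Real.exp (ψ x)) ^ u =
      (normSq (s (π x).1) + Real.exp (γ (π x))) ^ u *
        Real.exp ((e * (A x + B x) + q * (A x - B x)) * u) := fun x hx u => by
    rw [s2 x hx, p2 x hx, Real.exp_add (γ _), ← add_mul,
      Real.mul_rpow (g0 _).le (Real.exp_pos _).le, ← Real.exp_mul]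
  have ed : ∀ x ∈ O, ∀ r : ℝ, r * Real.exp (e * (A x + B x) + q * (A x - B x)) *
      normSq (s' (a x, b x)) * (normSq (s (a x, b x)) + Real.exp (ψ x)) ^ (-2 - θ) *
      Real.exp (-φ x) = Real.exp (-ε * (A x + B x) + y * (A x - B x)) *
        (r * den s s' γ β θ (π x)) := fun x hx r => by
    rw [eN x hx, s4 x hx, p4 x hx, den, neg_add (β _), Real.exp_add (-β _), neg_add' 2 θ,
      show -ε * (A x + B x) + y * (A x - B x) = e * (A x + B x) + q * (A x - B x) +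
        (e * (A x + B x) + (q + N : ℕ) * (A x - B x)) +
        (e * (A x + B x) + q * (A x - B x)) * (-2 - θ) +
        -((ε - θ * e) * (A x + B x) + (N - y - θ * q) * (A x - B x)) by push_cast; ring,
      Real.exp_add (_ + _ + _), Real.exp_add (_ + (_ + _)), Real.exp_add (_ + _) (_ + _)]
    ring
  have l1 := li (fun p => normSq (s p.1) * den s s' γ β θ p) (c1.mul cd)
    (fun p => mul_nonneg (normSq_nonneg _) (d0 p))
    (fun x => normSq (s (a x, b x)) * normSq (s' (a x, b x)) *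
      (normSq (s (a x, b x)) + Real.exp (ψ x)) ^ (-2 - θ) * Real.exp (-φ x)) fun x hx =>
    (congrArg (· * _ * _ * _) (s2 x hx)).trans (ed x hx _)
  have l2 := li (fun p => Real.exp (γ p) * den s s' γ β θ p) (cγ.rexp.mul cd)
    (fun p => mul_nonneg (Real.exp_pos _).le (d0 p))
    (fun x => Real.exp (ψ x) * normSq (s' (a x, b x)) *
      (normSq (s (a x, b x)) + Real.exp (ψ x)) ^ (-2 - θ) * Real.exp (-φ x)) fun x hx =>
    (congrArg (· * _ * _ * _) (by rw [p2 x hx, Real.exp_add])).trans (ed x hx _)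
  obtain ⟨p, -, hp⟩ := isCompact_univ.exists_isMinOn ⟨π x₀, mem_univ _⟩
    ((cr (-θ)).mul cβ.neg.rexp).continuousOn
  have key := tst K0 K1 hO ae H s1 s3 p1 p3 θ0 (van N N0 (by nlinarith [q.cast_nonneg (α := ℝ)]) _ _
    (aem hO ae ((((continuous_normSq.comp_continuousOn (cg s1)).add (cp p1).rexp).rpow_const
      fun x _ => Or.inl (add_pos_of_nonneg_of_pos (normSq_nonneg _) (Real.exp_pos _)).ne').mul
      (cp p3).neg.rexp)) (mul_pos (Real.rpow_pos_of_pos (g0 p) (-θ)) (Real.exp_pos (-β p)))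
    fun x hx => by
      rw [et x hx, eN x hx, p4 x hx, neg_add (β _), Real.exp_add (-β _), mul_mul_mul_comm,
        ← Real.exp_add (_ * _)]
      exact mul_le_mul (hp (mem_univ (π x))) (le_of_eq (congrArg _ (by ring))) (Real.exp_pos _).le
        (mul_pos (Real.rpow_pos_of_pos (g0 _) _) (Real.exp_pos _)).le)
    (l1 ▸ ENNReal.ofReal_ne_top)
  have i0 : 0 ≤ ∫ p, Real.exp (γ p) * den s s' γ β θ p ∂m :=
    integral_nonneg fun p => mul_nonneg (Real.exp_pos (γ p)).le (d0 p)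
  rw [l1, l2, ← ENNReal.ofReal_toReal K1, ← ENNReal.ofReal_mul ENNReal.toReal_nonneg,
    ← ENNReal.ofReal_mul (by positivity), ENNReal.ofReal_le_ofReal_iff
      (mul_nonneg (by positivity) i0), mul_one_div] at key
  change ∫ p, _ ∂((m univ)⁻¹ • m) ≤ _ * ∫ p, _ ∂((m univ)⁻¹ • m)
  rw [integral_smul_measure, integral_smul_measure, smul_eq_mul, smul_eq_mul, mul_left_comm]
  exact mul_le_mul_of_nonneg_left key ENNReal.toReal_nonneg

end Pool.Agent.Lib.NV6
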