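import Pool.Agent.Lib.S3K.Sko

/-! Project NV6, block GAP: square integrable holomorphic functions vanish. -/

open scoped Classical Topology ContDiff ENNReal
open Set MeasureTheory Complex Metric Filter

noncomputable section

namespace Pool.Agent.Lib.NV6

open Pool.Agent.Lib.SV (E nsq nsq_nonneg)
open Pool.Agent.Lib.HS32 Pool.Agent.Lib.EX Pool.Agent.Lib.EXS Pool.Agent.Lib.ZL
open Pool.Agent.Lib.ZQ (offz)

variable {n : ℕ} {M : Mf n} [M.Cpt] {ι : Type} [Fintype ι] [DecidableEq ι] {D : Ad M ι}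
  (X : Cx D) {g : M.X → ℂ} {ρ : M.X → ℝ≥0∞} {Q : ι → ℤ}

/-- The form with a pointwise lower bound of the density. -/
theorem gVAN0 (hM : ZL.St_MU) (hU : St_UPB) (hG : St_POG) (hg : HoO D g)
    (g0 : ∃ x ∈ off D, g x ≠ 0) (ae : ∀ᵐ x ∂X.μ, x ∈ offz D g) (mρ : AEMeasurable ρ X.μ)
    {wt : M.X → ℝ} (mw : AEMeasurable wt X.μ) {A : ℝ≥0∞} (hA : A ≠ ⊤)
    (lo : ∀ x ∈ offz D g, ENNReal.ofReal (Real.exp (lw D (fun i => Q i - X.o i) x)) ≤
      A * (ρ x * ENNReal.ofReal (wt x))) (no : ∀ s, Sp D Q s → s = 0) (F : M.X → ℂ)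
    (hF : D.On (offz D g) fun d z => HolN (D.rd F d) z)
    (fin : ∫⁻ x, ENNReal.ofReal (normSq (F x) * wt x) ∂X.μ.withDensity ρ ≠ ⊤) :
    ∀ x ∈ offz D g, F x = 0 := by
  have mF : AEMeasurable (fun x => normSq (F x)) X.μ :=
    S3K.SKO.am_on X (ZQ.HO.offz_open (oa_iff.1 hg)) ae (continuous_normSq.comp_continuousOn
      (S3K.SKO.cont_on fun d z hz hw => (hF d z hz hw).self_of_nhds.continuousAt))
  have e : ∫⁻ x, ENNReal.ofReal (normSq (F x) * wt x) ∂X.μ.withDensity ρ =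
      ∫⁻ x, ρ x * ENNReal.ofReal (normSq (F x) * wt x) ∂X.μ :=
    lintegral_withDensity_eq_lintegral_mul₀ mρ (mF.mul mw).ennreal_ofReal
  obtain ⟨s, s1, s2⟩ := S3K.SKO.ext X hM hU hG hg g0 ae Q hF (ne_top_of_le_ne_top
    (ENNReal.mul_ne_top hA fin) (by
      rw [e, ← lintegral_const_mul' _ _ hA]
      refine lintegral_mono_ae (ae.mono fun x hx => ?_)
      rw [ENNReal.ofReal_mul (normSq_nonneg _), ENNReal.ofReal_mul (normSq_nonneg _),
        mul_left_comm (ρ x), mul_left_comm A]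
      exact mul_le_mul_right (lo x hx) _))
  exact fun x hx => (s2 x hx).symm.trans (congrFun (no s s1) x)

/-- The form with the weights of the model. -/
theorem gVAN (hW : St_PW) (hM : ZL.St_MU) (hU : St_UPB) (hG : St_POG) (hg : HoO D g)
    (g0 : ∃ x ∈ off D, g x ≠ 0) (ae : ∀ᵐ x ∂X.μ, x ∈ offz D g) (mρ : AEMeasurable ρ X.μ)
    {wt T H : M.X → ℝ} (mw : AEMeasurable wt X.μ) {c c' C θ y : ℝ} {L Λ : ι → ℝ} (c0 : 0 < c)
    (c1 : 0 < c') (y0 : 0 ≤ y) (p : ∀ x ∈ offz D g, 0 < T x ∧ 0 < H x)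
    (h1 : ∀ x ∈ offz D g, ENNReal.ofReal (c * Real.exp (θ * lw D Λ x) * H x ^ θ) ≤ ρ x)
    (h2 : ∀ x ∈ offz D g, T x ≤ C * Real.exp (-lw D L x))
    (h3 : ∀ x ∈ offz D g, c' * (T x ^ (-y) * H x ^ (-θ)) ≤ wt x)
    (h4 : ∀ i, y * L i + θ * Λ i ≤ Q i - X.o i) (no : ∀ s, Sp D Q s → s = 0) (F : M.X → ℂ)
    (hF : D.On (offz D g) fun d z => HolN (D.rd F d) z)
    (fin : ∫⁻ x, ENNReal.ofReal (normSq (F x) * wt x) ∂X.μ.withDensity ρ ≠ ⊤) :
    ∀ x ∈ offz D g, F x = 0 := by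
  refine gVAN0 X hM hU hG hg g0 ae mρ mw (ENNReal.ofReal_ne_top (r := C ^ y / (c * c')))
    (fun x hx => ?_) no F hF fin
  obtain ⟨-, -, w1, -, w2, -, w3, -⟩ := hW n M ι D
  obtain ⟨p1, p2⟩ := p x hx
  have C0 : 0 < C := pos_of_mul_pos_left (p1.trans_le (h2 x hx)) (Real.exp_pos _).le
  have a1 := w3 (y • L + θ • Λ) (fun i => Q i - X.o i) h4 x
  rw [w1, w2, w2] at a1
  have a2 := Real.rpow_le_rpow_of_nonpos p1 (h2 x hx) (neg_nonpos.2 y0)
  rw [Real.mul_rpow C0.le (Real.exp_pos _).le, ← Real.exp_mul, neg_mul_neg, Real.rpow_neg C0.le]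
    at a2
  refine le_trans ?_ (mul_le_mul_right (mul_le_mul' (h1 x hx)
    (ENNReal.ofReal_le_ofReal ((mul_le_mul_of_nonneg_left (mul_le_mul_of_nonneg_right a2
      (Real.rpow_nonneg p2.le _)) c1.le).trans (h3 x hx)))) _)
  rw [← ENNReal.ofReal_mul (by positivity), ← ENNReal.ofReal_mul (by positivity)]
  refine ENNReal.ofReal_le_ofReal ((Real.exp_le_exp.2 a1).trans_eq ?_)
  have := Real.rpow_pos_of_pos C0 y
  have := Real.rpow_pos_of_pos p2 θ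
  rw [Real.rpow_neg p2.le, Real.exp_add, mul_comm y]
  field_simp

end Pool.Agent.Lib.NV6
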