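import Pool.Agent.Lib.NV6.GBlue
import Pool.Agent.Lib.NV6.G_GOOD
import Pool.Agent.Lib.NV6.G_VAN

/-! Project NV6, block GAP, row GOOD. -/

open scoped Classical Topology ContDiff ENNReal
open Set MeasureTheory Complex Metric Filter

noncomputable section

namespace Pool.Agent.Lib.NV6

open Pool.Agent.Lib.SV (E nsq nsq_nonneg)
open Pool.Agent.Lib.HS32 Pool.Agent.Lib.EX Pool.Agent.Lib.EXS Pool.Agent.Lib.ZL
open Pool.Agent.Lib.EXS.K32
open Pool.Agent.Lib.ZQ (HqO offz)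
open Pool.Agent.Lib.ZQ.Sg (aem cont_on)

theorem gGD2 (hW : St_PW) (hM : ZL.St_MU) (hU : St_UPB) (hG : St_POG) (hS : St_SEC) (hP : St_SPH)
    (hA : St_ADM) : St_GOOD := by
  intro n M _ ι _ _ D X I J _ _ Z g a b p ρ L κ Λ x θ hg g0 ae mp x0 mρ H ⟨c, c0, lo⟩ fin ⟨C, r1⟩
    h1 h2 no
  obtain ⟨y₀, hy₀⟩ := id g0
  obtain ⟨-, -, w1, -, w2, -, w3, -⟩ := hW n M ι D
  have ne : ∀ {σ : Type} [Fintype σ] {v : σ → ℂ}, 0 < nsq v → Nonempty σ := fun h =>
    by_contra fun h' => by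
      have := not_nonempty_iff.1 h'
      simp [nsq] at h
  obtain ⟨i₀⟩ := ne (mp.eq y₀ hy₀).1
  obtain ⟨j₀⟩ := ne (mp.eq y₀ hy₀).2.1
  have μ0 : X.μ ≠ 0 := fun h => by
    obtain ⟨d, -⟩ := ex_ch D y₀
    obtain ⟨B, hB⟩ := (hM n M ι D X).2.2.2.2 1 one_lt_two 0
    have := hB 0 (fun _ => 1) d fun _ => abs_zero.le
    rw [Cx.I, h, lintegral_zero_measure, mul_zero] at this
    simp [Ad.rd, xr, (measure_closedBall_pos volume (0 : E n) one_pos).ne'] at this
  have pH : ∀ y ∈ offz D g, 0 < nsq (a · y) * nsq (b · y) := fun y hy =>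
    mul_pos (mp.eq y hy).1 (mp.eq y hy).2.1
  have pT : ∀ y ∈ offz D g, 0 < nsq (a · y) / nsq (b · y) := fun y hy =>
    div_pos (mp.eq y hy).1 (mp.eq y hy).2.1
  have r2 : ∀ y ∈ offz D g, nsq (a · y) / nsq (b · y) ≤
      C * Real.exp (-lw D (fun i => L i) y) := fun y hy =>
    (div_le_iff₀ (mp.eq y hy).2.1).2 (r1 y hy)
  have ac : X.μ ≪ X.μ.withDensity ρ := withDensity_absolutelyContinuous' mρ (ae.mono fun y hy =>
    ((ENNReal.ofReal_pos.2 (mul_pos (mul_pos c0 (Real.exp_pos _))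
      (Real.rpow_pos_of_pos (pH y hy) θ))).trans_le (lo y hy)).ne')
  have cn : ∀ {σ : Type} [Fintype σ] {f : σ → M.X → ℂ}, (∀ i, NV6.J.Ho D (offz D g) (f i)) →
      ContinuousOn (fun y => nsq (f · y)) (offz D g) := fun h =>
    continuousOn_finsetSum _ fun i _ => continuous_normSq.comp_continuousOn
      (cont_on fun d z hz hw => (h i d z hz hw).self_of_nhds.continuousAt)
  have C0 : 0 < C := pos_of_mul_pos_left ((pT y₀ hy₀).trans_le (r2 y₀ hy₀)) (Real.exp_pos _).le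
  refine good0 (a := fun y i => a i y) (b := fun y j => b j y) mp.cone (fun y => ?_) hS hP hA
    one_ne_zero ENNReal.one_ne_top mp.op ((withDensity_absolutelyContinuous _ _).ae_le ae)
    (fun h => μ0 (Measure.absolutelyContinuous_zero_iff.1 (h ▸ ac))) H i₀ j₀ mp.ha mp.hb
    (fun y hy => (mp.ne y hy).1) (fun y hy => (mp.ne y hy).2) ?_
    fun N N0 hN wt c' mw c1 h3 => gVAN X hW hM hU hG hg g0 ae mρ (mw.mono_ac ac)
      (Q := fun i => N * L i + κ i) c0 c1 (sub_nonneg.2 hN) (fun y hy => ⟨pT y hy, pH y hy⟩) lo r2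
      h3 (fun i => by push_cast; linarith [h2 i]) (no N N0)
  · obtain ⟨-, -, e1, e2⟩ := mp.eq y y.2
    have := mp.cone.smul (√(nsq (a · y)) * √(nsq (b · y))) _ (p y).2.1
    refine (congrArg (· ∈ Z) (funext fun q => ?_)).mp this
    rw [Pi.smul_apply, smul_eq_mul, sg, sg, mul_mul_mul_comm]
    exact (congrArg₂ (· * ·) (congrFun e1 q.1) (congrFun e2 q.2)).symm
  · have mf := (aem mp.op ae ((((cn mp.ha).div (cn mp.hb) fun y hy =>
      (mp.eq y hy).2.1.ne').rpow_const (p := x) fun y hy => Or.inl (pT y hy).ne').mul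
      (((cn mp.ha).mul (cn mp.hb)).rpow_const (p := -θ) fun y hy =>
        Or.inl (pH y hy).ne'))).ennreal_ofReal
    refine ne_top_of_le_ne_top (ENNReal.mul_ne_top (ENNReal.ofReal_ne_top (r := C ^ x)) fin)
      ((lintegral_withDensity_eq_lintegral_mul₀ mρ mf).trans_le ?_)
    rw [← lintegral_const_mul' _ _ ENNReal.ofReal_ne_top]
    refine lintegral_mono_ae (ae.mono fun y hy => ?_)
    rw [mul_left_comm, ← ENNReal.ofReal_mul (Real.rpow_nonneg C0.le _)]
    refine mul_le_mul_right (ENNReal.ofReal_le_ofReal ?_) _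
    have a1 := w3 (x • fun i => (L i : ℝ)) (θ • Λ + X.o) h1 y
    rw [w1, w2, w2] at a1
    have a2 := Real.rpow_le_rpow (pT y hy).le (r2 y hy) x0
    rw [Real.mul_rpow C0.le (Real.exp_pos _).le, ← Real.exp_mul] at a2
    rw [div_mul_eq_mul_div, ← Real.exp_add, div_eq_mul_inv (Real.exp _),
      ← Real.rpow_neg (pH y hy).le, ← mul_assoc]
    exact mul_le_mul_of_nonneg_right (a2.trans (mul_le_mul_of_nonneg_left
      (Real.exp_le_exp.2 (by linarith)) (Real.rpow_nonneg C0.le _)))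
      (Real.rpow_nonneg (pH y hy).le _)

end Pool.Agent.Lib.NV6
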