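import Pool.Agent.Lib.NV6.GBlue
import Pool.Agent.Lib.ZQ.HqS

/-! Project NV6, block GAP: the map from an open set to the model. -/

open scoped Classical Topology ContDiff ENNReal
open Set MeasureTheory Complex Metric Filter

noncomputable section

namespace Pool.Agent.Lib.NV6

open Pool.Agent.Lib.SV (E nsq)
open Pool.Agent.Lib.HS32 Pool.Agent.Lib.EX Pool.Agent.Lib.EXS Pool.Agent.Lib.ZL
open Pool.Agent.Lib.ZQ.Sg (cont_on)
open Pool.Agent.Lib.NV6.J (Ho)

namespace GMP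

variable {σ : Type} [Fintype σ]

theorem pos [Nonempty σ] {v : σ → ℂ} (h : ∀ i, v i ≠ 0) : 0 < nsq v :=
  Finset.sum_pos (fun i _ => normSq_pos.2 (h i)) Finset.univ_nonempty

/-- The unit vector. -/
def un (v : σ → ℂ) : σ → ℂ := ((√(nsq v))⁻¹ : ℝ) • v

theorem un_one {v : σ → ℂ} (h : 0 < nsq v) : nsq (un v) = 1 := by
  have e : nsq (un v) = (√(nsq v))⁻¹ * (√(nsq v))⁻¹ * nsq v := by
    simp only [nsq, un, Pi.smul_apply, real_smul, map_mul, normSq_ofReal, Finset.mul_sum]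
  rw [e, ← mul_inv, Real.mul_self_sqrt h.le, inv_mul_cancel₀ h.ne']

theorem un_eq {v : σ → ℂ} (h : 0 < nsq v) : v = (√(nsq v) : ℂ) • un v := by
  funext i
  have : (√(nsq v) : ℂ) ≠ 0 := ofReal_ne_zero.2 (Real.sqrt_pos.2 h).ne'
  simp only [un, Pi.smul_apply, real_smul, smul_eq_mul, ofReal_inv]
  rw [mul_inv_cancel_left₀ this]

theorem un_ct {Y : Type} [TopologicalSpace Y] {O : Set Y} {f : σ → Y → ℂ}
    (h : ∀ i, ContinuousOn (f i) O) (h0 : ∀ x ∈ O, 0 < nsq (f · x)) :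
    ContinuousOn (fun x => un (f · x)) O :=
  ((continuousOn_finsetSum _ fun i _ => continuous_normSq.comp_continuousOn (h i)).sqrt.inv₀
    fun x hx => (Real.sqrt_pos.2 (h0 x hx)).ne').smul (continuousOn_pi.2 h)

end GMP

open GMP

theorem gMP : St_MP := by
  intro n M _ ι _ _ D O I J _ _ _ _ Z a b hO _ ⟨x₀, h₀⟩ hZ ha hb ne hs
  have pa : ∀ x ∈ O, 0 < nsq (a · x) := fun x hx => pos (ne x hx).1
  have pb : ∀ x ∈ O, 0 < nsq (b · x) := fun x hx => pos (ne x hx).2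
  have mem : ∀ x ∈ O, (un (a · x), un (b · x)) ∈ Sph Z := fun x hx => by
    refine ⟨?_, un_one (pa x hx), un_one (pb x hx)⟩
    have := hZ.smul ((((√(nsq (a · x)))⁻¹ : ℝ) : ℂ) * ((√(nsq (b · x)))⁻¹ : ℝ)) _ (hs x hx)
    refine Set.mem_of_eq_of_mem (funext fun p => ?_) this
    simp only [sg, un, Pi.smul_apply, real_smul, smul_eq_mul]
    ring
  have cg : ∀ {f : M.X → ℂ}, Ho D O f → ContinuousOn f O :=
    fun h => cont_on fun d z hz hw => (h d z hz hw).self_of_nhds.continuousAt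
  refine ⟨fun x => if hx : x ∈ O then ⟨_, mem x hx⟩ else ⟨_, mem x₀ h₀⟩, hO, hZ, ha, hb, ne,
    fun x hx => ⟨pa x hx, pb x hx, ?_, ?_⟩, ?_⟩
  · simp only [dif_pos hx]
    exact un_eq (pa x hx)
  · simp only [dif_pos hx]
    exact un_eq (pb x hx)
  · rw [Topology.IsInducing.subtypeVal.continuousOn_iff]
    refine ((un_ct (fun i => cg (ha i)) pa).prodMk (un_ct (fun i => cg (hb i)) pb)).congr
      fun x hx => ?_
    simp only [Function.comp, dif_pos hx]

end Pool.Agent.Lib.NV6
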