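import Pool.Agent.Lib.NV6.GBlue

/-! Project NV6, block GAP, row R4: the data for a resolution of a minimal model. -/

open scoped Classical
open Set

noncomputable section

namespace Pool.Agent.Lib.NV6

open Pool.Agent.Lib.NV5 (VF dv)

namespace GR4

variable {ι P : Type} [Fintype ι]

theorem dv_le {m : ι → P → ℤ} (hm : ∀ i p, 0 ≤ m i p) {Q Q' : ι → ℤ} (h : ∀ i, Q i ≤ Q' i)
    (p : P) : dv m Q p ≤ dv m Q' p :=
  Finset.sum_le_sum fun i _ => mul_le_mul_of_nonneg_right (h i) (hm i p)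

theorem dv_lin (m : ι → P → ℤ) (u x y : ℕ) (l Q : ι → ℤ) :
    u • dv m l + (x • dv m l + y • dv m Q) = dv m fun i => u * l i + (x * l i + y * Q i) := by
  funext p
  simp only [Pi.add_apply, Pi.smul_apply]
  simp only [NV5.dv, nsmul_eq_mul, Finset.mul_sum, ← Finset.sum_add_distrib]
  exact Finset.sum_congr rfl fun i _ => by ring

theorem cls {S : Set ℕ} (h : S.Infinite) {c : ℕ} (hc : 0 < c) :
    ∃ ρ, {j | c * j + ρ ∈ S}.Infinite := by
  by_contra h'
  refine h (((Set.finite_lt_nat c).biUnion fun ρ _ =>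
    (not_infinite.1 fun a => h' ⟨ρ, a⟩).image fun j => c * j + ρ).subset fun i hi => ?_)
  exact mem_biUnion (Nat.mod_lt i hc) ⟨i / c, by simpa [Nat.div_add_mod] using hi,
    Nat.div_add_mod i c⟩

end GR4

open GR4 in
theorem gR4 : St_R4 := by
  intro n M _ ι _ _ D X r c' c₀ t ν F _ _ Φ V m π Q d z k a c b τ C br hP hO
  have hm : ∀ i p, 0 ≤ m i p := fun i p => by
    obtain ⟨h, rfl⟩ := br.sur p
    rcases ((br.vl h).mul i).1 with e | e <;> simp only [e] <;> norm_num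
  refine ⟨pow_ne_zero _ hP.τ0, ?_, fun j hj f hf => ?_⟩
  · obtain ⟨s, hs, x, y, hi⟩ := hP.psf
    obtain ⟨ρ, hρ⟩ := cls hi C.cpos
    obtain ⟨k₁, hk⟩ : ∃ k₁ : ℕ, ∀ i, (ρ * a + x) * X.l i + y * Q i ≤ k₁ * X.e i := by
      refine ⟨∑ i, ((ρ * a + x) * X.l i + y * Q i).natAbs, fun i => ?_⟩
      have h1 : (((ρ * a + x) * X.l i + y * Q i).natAbs : ℤ) ≤
          (∑ i, ((ρ * a + x) * X.l i + y * Q i).natAbs : ℕ) := Int.ofNat_le.2
        (Finset.single_le_sum (f := fun i => ((ρ * a + x) * X.l i + y * Q i).natAbs)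
          (fun _ _ => Nat.zero_le _) (Finset.mem_univ i))
      have h2 : (1 : ℤ) ≤ X.e i := by exact_mod_cast C.epos i
      exact (Int.le_natAbs.trans h1).trans (le_mul_of_one_le_right (Int.natCast_nonneg _) h2)
    obtain ⟨a', ha⟩ := C.zar k₁
    refine ⟨τ ^ ρ * s, mul_ne_zero (pow_ne_zero _ hP.τ0) hs, a', hρ.mono ?_⟩
    rintro j ⟨g, g1, g2, g3⟩
    refine ⟨g, g1, g2, ?_⟩
    rw [dv_lin] at g3
    obtain ⟨U, u1, u2⟩ := (br.sec (fun i => (j * a : ℕ) * (c₀ * X.l i) + k₁ * X.e i) _).1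
      fun p => (g3 p).trans (WithZero.exp_le_exp.2 (dv_le hm (fun i => by
        have := hk i
        push_cast
        linarith) p))
    refine (br.sec _ _).2 ⟨U, ?_, by rw [u2]; ring⟩
    simpa only [Nat.cast_mul, mul_assoc] using ha (j * a) U u1
  · rw [← pow_mul]
    refine hO (c₀ * j * a) _ f (fun p hp => ?_) (fun p hp => (hf p hp).trans ?_)
      (pow_ne_zero _ hP.τ0)
    · rw [map_pow]
      refine (pow_le_pow_left₀ zero_le (hP.sec p hp) _).trans_eq ?_
      rw [← WithZero.exp_nsmul, mul_smul (c₀ * j)]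
      rfl
    · have h0 := congrFun (dv_lin m (c₀ * j * a) 0 0 X.l X.l) p
      simp only [zero_smul, add_zero] at h0
      rw [h0]
      refine WithZero.exp_le_exp.2 (dv_le hm (fun i => ?_) p)
      have h1 : (1 : ℤ) ≤ j * a := by exact_mod_cast Nat.mul_pos hj hP.a0
      have h2 := mul_le_mul_of_nonneg_left (C.le i) (sub_nonneg.2 h1)
      push_cast
      linarith

end Pool.Agent.Lib.NV6
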