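import Pool.Agent.Lib.NV6.RBlue2

/-! Project NV6, block R, row R3: the data for a nef canonical class. -/

open scoped Classical Topology ContDiff ENNReal
open Set MeasureTheory Complex Metric Filter

noncomputable section

namespace Pool.Agent.Lib.R6

open Pool.Agent.Lib.HS32 Pool.Agent.Lib.EX Pool.Agent.Lib.EXS Pool.Agent.Lib.ZL
open Pool.Agent.Lib.NV2 (Zo)
open Pool.Agent.Lib.NV5 (VF dv Ctx)

namespace R3

variable {ι P : Type} [Fintype ι]

theorem dv3 (m : ι → P → ℤ) (j a x y : ℕ) (l Q : ι → ℤ) :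
    dv m (fun i => j * (a * l i) + (x * l i + y * Q i)) =
      (j * a) • dv m l + (x • dv m l + y • dv m Q) := by
  funext p
  simp only [Pi.add_apply, Pi.smul_apply]
  simp only [NV5.dv, nsmul_eq_mul, Finset.mul_sum, ← Finset.sum_add_distrib]
  exact Finset.sum_congr rfl fun i _ => by push_cast; ring

theorem dv1 (m : ι → P → ℤ) (j a : ℕ) (l : ι → ℤ) :
    dv m (fun i => j * (a * l i) + (0 : ι → ℤ) i) = (j * a) • dv m l := by
  funext p
  simp only [NV5.dv, Pi.smul_apply, nsmul_eq_mul, Finset.mul_sum, Pi.zero_apply]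
  exact Finset.sum_congr rfl fun i _ => by push_cast; ring

theorem gs_pow {n : ℕ} {F : Type} [Field F] [Algebra ℂ F] {V : VF n F}
    {k : IntermediateField ℂ F} {L : V.P → ℤ} {a : ℕ} {τ : F} (h : V.GS k (a • L) τ) (j : ℕ) :
    V.GS k ((j * a) • L) (τ ^ j) := fun p hp => by
  have h1 := pow_le_pow_left₀ zero_le (h p hp) j
  rw [map_pow]
  refine h1.trans_eq ?_
  rw [← WithZero.exp_nsmul, mul_smul]
  rfl

end R3

theorem rR3 (hHQA : St_HQA) (hZW : NV6.J.St_ZW) : St_R3 := by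
  intro n M _ ι _ _ D X r c' t F _ _ V m Q d z k a c b τ hC hP hO
  have ha : (a : ℝ) ≠ 0 := by exact_mod_cast hP.a0.ne'
  have ho : ∀ i, (((a * X.l i : ℤ) : ℝ)) / a = X.o i := fun i => by
    rw [Cx.o, hC.one]
    push_cast
    field_simp
  have hZ : Zo X X.l X.l := by simpa using hC.zo 0
  refine ⟨⟨hC.epos, hC.big, hHQA n M ι D X r t hC.one hC.epos hC.can hC.kd hC.imm, hC.kd, hC.imm,
    hC.alp⟩, ⟨hP.a0, fun i => (ho i).le, fun i => by rw [ho i]; simp,
      fun N₀ hN₀ O T C hOD hae hT N hN => ?_⟩, hP.τ0, ?_, fun j _ f hf => ?_⟩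
  · have e : ∀ i, (N₀ : ℤ) * (a * X.l i) = ((N₀ * a : ℕ) : ℤ) * X.l i := fun i => by
      push_cast; ring
    simp only [e] at hT ⊢
    exact hZW n M ι D X (N₀ * a) O T C (Nat.mul_pos hN₀ hP.a0) hOD hae hZ hT N hN
  · obtain ⟨s, hs, x, y, hi⟩ := hP.psf
    refine ⟨s, hs, fun i => x * X.l i + y * Q i, ?_⟩
    simp only [R3.dv3]
    exact hi
  · rw [R3.dv1] at hf
    exact hO (j * a) (τ ^ j) f (R3.gs_pow hP.sec j) hf (pow_ne_zero _ hP.τ0)

end Pool.Agent.Lib.R6
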