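import Pool.Agent.Lib.NV5.Exc4
import Pool.Agent.Lib.NV6.R_R3

/-! Project NV6, kit R4: the data on a resolution. -/

open scoped Classical Topology ContDiff ENNReal
open Set MeasureTheory Complex Metric Filter

noncomputable section

namespace Pool.Agent.Lib.NV6

open Pool.Agent.Lib.HS32 Pool.Agent.Lib.EX Pool.Agent.Lib.EXS Pool.Agent.Lib.ZL
open Pool.Agent.Lib.NV2 (Zo Wt)
open Pool.Agent.Lib.NV5 (VF Ctx4)

namespace R4

variable {n : ℕ} {M : Mf n} {ι : Type} [Fintype ι] [DecidableEq ι] {D : Ad M ι}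

theorem psh {f g : M.X → ℝ} {s t : ℝ} (hs : 0 ≤ s) (ht : 0 ≤ t) (hf : Psh D f) (hg : Psh D g) :
    Psh D fun x => s * f x + t * g x := by
  refine ⟨fun d z hz ho => (contDiffAt_const.mul (hf.1 d z hz ho)).add
    (contDiffAt_const.mul (hg.1 d z hz ho)), fun d z hz ho v => ?_⟩
  have h := K32.lv_add ((contDiffAt_const (c := s)).mul (hf.1 d z hz ho))
    ((contDiffAt_const (c := t)).mul (hg.1 d z hz ho)) v
  rw [K32.lv_mul (hf.1 d z hz ho), K32.lv_mul (hg.1 d z hz ho)] at h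
  exact (add_nonneg (mul_nonneg hs (hf.2 d z hz ho v))
    (mul_nonneg ht (hg.2 d z hz ho v))).trans_eq h.symm

theorem lin (s t : ℝ) (a b : ι → ℝ) (x : M.X) :
    s * lw D a x + t * lw D b x = lw D (fun i => s * a i + t * b i) x := by
  simp only [lw, Finset.mul_sum, ← Finset.sum_add_distrib]
  exact Finset.sum_congr rfl fun i _ => by ring

theorem zw [M.Cpt] (hPW : St_PW) (hMU : ZL.St_MU) (X : Cx D) {s t : ℝ} (hs : 0 ≤ s) (ht : 0 ≤ t)
    (h1 : s + t = 1) {P P' Q R : ι → ℤ} {N : ℕ}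
    (hP : ∃ C A : ℝ, ∀ ε > (0 : ℝ), ∃ ρ, Wt X P X.α C A ε ρ)
    (hP' : ∃ C A : ℝ, ∀ ε > (0 : ℝ), ∃ ρ, Wt X P' X.α C A ε ρ)
    (lo : ∀ i, (N : ℝ) * R i ≤ s * P i + t * P' i) (hi : ∀ i, s * P i + t * P' i ≤ Q i)
    {O : Set M.X} {T : M.X → ℝ} {C : ℝ} (hO : O ⊆ off D) (ae : ∀ᵐ x ∂X.μ, x ∈ O)
    (hT : ∀ x ∈ O, 0 ≤ T x ∧ T x ≤ C * Real.exp (-lw D (fun i => R i) x)) :
    ∃ C A : ℝ, ∀ ε > (0 : ℝ), ∃ ρ, J.Wz X Q (fun x => T x ^ N) C A ε ρ := by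
  obtain ⟨C₁, A₁, g₁⟩ := hP
  obtain ⟨C₂, A₂, g₂⟩ := hP'
  obtain ⟨-, -, -, -, -, -, mono, sm, -, ct, -⟩ := hPW n M ι D
  refine ⟨s * C₁ + t * C₂, |C| ^ N * (|A₁| + |A₂|), fun ε hε => ?_⟩
  obtain ⟨ρ, a0, a1, a2, a3⟩ := g₁ ε hε
  obtain ⟨σ, -, b1, b2, b3⟩ := g₂ ε hε
  refine ⟨fun x => s * ρ x + t * σ x, ?_, fun x hx => ?_, ?_⟩
  · have e : (fun x => s * ρ x + t * σ x + ε * X.α x) =
        fun x => s * (ρ x + ε * X.α x) + t * (σ x + ε * X.α x) :=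
      funext fun x => by linear_combination -(ε * X.α x) * h1
    exact e ▸ psh hs ht a1 b1
  · have c1 := mono (fun i => s * (P i - X.o i) + t * (P' i - X.o i)) (fun i => Q i - X.o i)
      (fun i => by have := hi i; show _ ≤ _; nlinarith [show (s + t) * X.o i = X.o i by simp [h1]]) x
    rw [← lin] at c1
    nlinarith [mul_le_mul_of_nonneg_left (a2 x hx) hs, mul_le_mul_of_nonneg_left (b2 x hx) ht]
  have ms : AEMeasurable (fun x => Real.exp (-lw D (fun i => P i) x - ρ x)) X.μ :=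
    (hMU n M ι D X).2.1 ℝ _ (((ct ℝ _ (sm _)).neg.sub (ct ℝ _ a0)).rexp)
  rw [ENNReal.ofReal_mul (by positivity), ENNReal.ofReal_add (abs_nonneg _) (abs_nonneg _)]
  refine le_trans ?_ (mul_le_mul_right (add_le_add
    (a3.trans (ENNReal.ofReal_le_ofReal (le_abs_self _)))
    (b3.trans (ENNReal.ofReal_le_ofReal (le_abs_self _)))) _)
  unfold Cx.I
  rw [← lintegral_add_left' ms.ennreal_ofReal, ← lintegral_const_mul' _ _ ENNReal.ofReal_ne_top]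
  refine lintegral_mono_ae (ae.mono fun x hx => ?_)
  beta_reduce
  rw [← ENNReal.ofReal_add (Real.exp_pos _).le (Real.exp_pos _).le,
    ← ENNReal.ofReal_mul (by positivity)]
  refine ENNReal.ofReal_le_ofReal ?_
  have c1 := mono (fun i => N * (R i : ℝ) + 0 * R i) _ (fun i => by simpa using lo i) x
  rw [← lin, ← lin] at c1
  have c2 := pow_le_pow_left₀ (hT x hx).1 ((hT x hx).2.trans
    (mul_le_mul_of_nonneg_right (le_abs_self C) (Real.exp_pos _).le)) N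
  refine (mul_le_mul_of_nonneg_right c2 (Real.exp_pos _).le).trans ?_
  rw [mul_pow, ← Real.exp_nat_mul, mul_assoc, ← Real.exp_add]
  refine mul_le_mul_of_nonneg_left ?_ (by positivity)
  refine le_trans (Real.exp_le_exp.2 ?_) ((convexOn_exp.2 (mem_univ
    (-lw D (fun i => P i) x - ρ x)) (mem_univ (-lw D (fun i => P' i) x - σ x)) hs ht h1).trans
    (add_le_add (mul_le_of_le_one_left (Real.exp_pos _).le (by linarith))
      (mul_le_of_le_one_left (Real.exp_pos _).le (by linarith))))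
  simp only [smul_eq_mul]
  linarith

theorem le {c₀ a j : ℕ} {l ν : ℤ} (ha : 0 < a) (hj : 0 < j) (h : ν ≤ c₀ * l) :
    j * (a * ν) + (c₀ * l - ν) ≤ (j * (a * c₀) : ℕ) * l := by
  have e : (1 : ℤ) ≤ j * a := by exact_mod_cast Nat.mul_pos hj ha
  push_cast
  nlinarith [mul_le_mul_of_nonneg_left h (sub_nonneg.2 e)]

theorem z4 [M.Cpt] (hPW : St_PW) (hMU : ZL.St_MU) (hHQA : R6.St_HQA) {X : Cx D} {r c' c₀ a : ℕ}
    {t : Fin r → M.X → ℂ} {ν : ι → ℤ} (a0 : 0 < a) (hC : Ctx4 X t c' c₀ ν) : R6.Prj X t ∧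
    R6.Zw X (a * c₀) (fun i => a * ν i) fun i => c₀ * X.l i - ν i := by
  have ha : (0 : ℝ) < a := by exact_mod_cast a0
  have hc : (1 : ℝ) ≤ c₀ := by exact_mod_cast hC.cpos
  have hl : ∀ i, (ν i : ℝ) / c₀ ≤ X.l i := fun i => by
    rw [div_le_iff₀' (by linarith)]
    exact_mod_cast hC.le i
  have ho : ∀ i, X.o i = X.l i := fun i => by simp [Cx.o, hC.one]
  have h0 : ∀ i, ((a * ν i : ℤ) : ℝ) / (a * c₀ : ℕ) = ν i / c₀ := fun i => by
    push_cast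
    field_simp
  have h1 : ∀ i, (ν i : ℝ) = c₀ * (ν i / c₀) := fun i => by field_simp
  refine ⟨⟨hC.epos, hC.big,
    hHQA n M ι D X r t hC.one hC.epos hC.can hC.kd hC.imm, hC.kd, hC.imm, hC.alp⟩,
    Nat.mul_pos a0 hC.cpos, fun i => by rw [h0, ho]; exact hl i, fun i => ?_,
      fun N₀ hN₀ O T C hOD hae hT N hN => ?_⟩
  · rw [h0, ho]
    push_cast
    nlinarith [hl i, h1 i, mul_nonneg (sub_nonneg.2 hc) (sub_nonneg.2 (hl i))]
  · obtain ⟨u, hu⟩ : ∃ u, N * (N₀ * a) = u + 1 :=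
      ⟨N * (N₀ * a) - 1, by have := Nat.mul_pos hN (Nat.mul_pos hN₀ a0); omega⟩
    have hu' : (N : ℝ) * (N₀ * a) = u + 1 := by exact_mod_cast hu
    have i1 : (c₀ : ℝ)⁻¹ ≤ 1 := inv_le_one_of_one_le₀ hc
    refine zw hPW hMU X (s := (c₀ : ℝ)⁻¹) (t := 1 - (c₀ : ℝ)⁻¹) (by positivity) (by linarith)
      (by ring) (hC.zo 0 u) (hC.zo 0 (u + 1)) (fun i => ?_) (fun i => ?_) hOD hae hT
    all_goals
      have e1 := hl i
      have e2 := h1 i
      have e3 := mul_nonneg (sub_nonneg.2 hc) (sub_nonneg.2 e1)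
      have e4 : (N : ℝ) * (N₀ * (a * ν i)) = (u + 1) * ν i := by rw [← hu']; ring
      rw [div_eq_inv_mul] at e1 e2 e3
      push_cast
      nlinarith

theorem fb [M.Cpt] (hK : NV5.Sb_KIT) {X : Cx D} {r c' c₀ : ℕ} {t : Fin r → M.X → ℂ} {ν : ι → ℤ}
    {F : Type} [Field F] [Algebra ℂ F] {Φ : NV5.FM D F} {V : VF n F} {m : ι → V.P → ℤ}
    {π : NV5.Hg D → V.P} {Q : ι → ℤ} {d : ℕ} {z : Fin d → F} {k : IntermediateField ℂ F}
    {a c b : ℕ} {τ : F} (hC : Ctx4 X t c' c₀ ν) (br : Φ.Br V m π)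
    (hP : V.Pre (NV5.dv m X.l) (NV5.dv m fun i => X.e i) (NV5.dv m Q) d z k a c b τ)
    (hO : V.One (NV5.dv m X.l) k) :
    R6.Fb V m k (fun i => a * ν i) (fun i => c₀ * X.l i - ν i) (τ ^ c₀) := by
  refine ⟨pow_ne_zero _ hP.τ0, ?_, fun j hj f hf => ?_⟩
  · obtain ⟨s, hs, x, y, hi⟩ := hP.psf
    obtain ⟨ρ, hρ⟩ : ∃ ρ : Fin c₀, {j : ℕ | ∃ g ∈ k, g ≠ 0 ∧ V.Sec (((j * c₀ + ρ) * a) •
        NV5.dv m X.l + (x • NV5.dv m X.l + y • NV5.dv m Q)) (τ ^ (j * c₀ + ρ) * g * s)}.Infinite := by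
      by_contra hn
      refine hi ((finite_iUnion fun ρ : Fin c₀ => (not_infinite.1 fun h => hn ⟨ρ, h⟩).image
        fun j => j * c₀ + ρ).subset fun i h => mem_iUnion.2 ⟨⟨i % c₀, Nat.mod_lt _ hC.cpos⟩,
          i / c₀, ?_, Nat.div_add_mod' _ _⟩)
      simpa only [mem_ofPred_eq, Nat.div_add_mod'] using h
    obtain ⟨w, hw⟩ : ∃ w : ℕ, ∀ i, (ρ : ℕ) * (a * X.l i) + (x * X.l i + y * Q i) ≤ w * X.e i := by
      refine ⟨∑ i, ((ρ : ℕ) * (a * X.l i) + (x * X.l i + y * Q i)).natAbs, fun i => ?_⟩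
      have e1 : (1 : ℤ) ≤ X.e i := by exact_mod_cast hC.epos i
      refine (Int.le_natAbs.trans (Int.ofNat_le.2 (Finset.single_le_sum
        (f := fun i => ((ρ : ℕ) * (a * X.l i) + (x * X.l i + y * Q i)).natAbs)
        (fun _ _ => Nat.zero_le _) (Finset.mem_univ i)))).trans
        (le_mul_of_one_le_right (by positivity) e1)
    obtain ⟨A, hA⟩ := hC.zar w
    refine ⟨τ ^ (ρ : ℕ) * s, mul_ne_zero (pow_ne_zero _ hP.τ0) hs, A,
      hρ.mono fun j hj => ?_⟩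
    obtain ⟨g, g1, g2, g3⟩ := hj
    refine ⟨g, g1, g2, ?_⟩
    rw [← R6.R3.dv3] at g3
    obtain ⟨U, u1, u2⟩ := (br.sec _ _).1 g3
    have u3 := hA (j * a) U ((hK n M ι D).1 _ _ U (fun i => by
      have := hw i
      show _ ≤ _
      push_cast
      nlinarith) u1)
    refine (br.sec _ _).2 ⟨U, by simpa only [Nat.cast_mul, mul_assoc] using u3, ?_⟩
    rw [u2]
    ring
  · rw [← pow_mul, mul_comm c₀ j]
    refine hO (j * c₀ * a) _ f (R6.R3.gs_pow hP.sec _) (fun p hp => (hf p hp).trans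
      (WithZero.exp_le_exp.2 ?_)) (pow_ne_zero _ hP.τ0)
    obtain ⟨h, rfl⟩ := br.sur p
    rw [Pi.smul_apply]
    simp only [NV5.dv, nsmul_eq_mul, Finset.mul_sum]
    refine Finset.sum_le_sum fun i _ => ?_
    have e : 0 ≤ m i (π h) := by rcases ((br.vl h).mul i).1 with e | e <;> omega
    rw [mul_assoc j c₀ a, mul_comm c₀ a, ← mul_assoc _ (X.l i)]
    exact mul_le_mul_of_nonneg_right (le hP.a0 hj (hC.le i)) e

end R4

end Pool.Agent.Lib.NV6
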