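import Pool.Agent.Lib.NV6.GBlue
import Pool.Agent.Lib.NV6.K_R4

/-! Project NV6, block G, row Z4: the weights on a resolution. -/

namespace Pool.Agent.Lib.NV6

theorem gZ4 (hPW : ZL.St_PW) (hMU : ZL.St_MU) (hHQA : R6.St_HQA) : St_Z4 :=
  fun _ _ _ _ _ _ _ _ _ _ _ _ _ _ a0 hC => R4.z4 hPW hMU hHQA a0 hC

end Pool.Agent.Lib.NV6
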