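import Pool.Agent.Lib.NV6.JBlue
import Pool.Agent.Lib.NV5.Blue

/-! Project NV6, block J, row DEN: the common denominator. -/

open scoped Classical Topology
open Set MeasureTheory Complex Metric Filter

noncomputable section

namespace Pool.Agent.Lib.NV6.J

open Pool.Agent.Lib.SV (E nsq)
open Pool.Agent.Lib.HS32 Pool.Agent.Lib.EX Pool.Agent.Lib.EXS Pool.Agent.Lib.ZL
open Pool.Agent.Lib.ZQ (HqO offz)
open Pool.Agent.Lib.NV5 (Rg Sb_KIT)

namespace DENk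

theorem prod70 {Y κ : Type} {p : (Y → ℂ) → Prop}
    (hm : ∀ s t, p s ∧ s ≠ 0 → p t ∧ t ≠ 0 → p (s * t) ∧ s * t ≠ 0) (T : Finset κ)
    (F : κ → Y → ℂ) (hF : ∀ i, p (F i) ∧ F i ≠ 0) {g : Y → ℂ} (hg : p g ∧ g ≠ 0) :
    p (g * ∏ i ∈ T, F i) ∧ g * ∏ i ∈ T, F i ≠ 0 := by
  induction T using Finset.induction_on with
  | empty => simpa using hg
  | insert a T ha ih =>
    rw [Finset.prod_insert ha, mul_left_comm]
    exact hm _ _ (hF a) ih

end DENk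

open DENk

theorem jDEN (hK : St_KIT) (hR : Sb_KIT) : St_DEN := by
  intro n M _ ι _ _ D X r c m g P Q₀ h C hF hg hk hm hC
  obtain ⟨-, -, -, -, -, -, -, -, kd, -, kh, -⟩ := hR n M ι D
  have hO : IsOpen (offz D g) := ZQ.HO.offz_open fun d z hz hx =>
    hF.hol d z hz ((ZQ.off_symm D hz).1 hx)
  have kf := ((hK n M ι D X (offz D g) hO (fun x hx => hx.1) hF.ae).2.2.2.2.2.2.2.2.2.2.2.2.2.2
    r P h hF.sp).2.2
  obtain ⟨i₀⟩ : Nonempty (Fin m) := ⟨⟨0, hm⟩⟩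
  choose e A B hA hB hne hAB using fun i =>
    hk c (C i₀) (C i) (hC i₀).1 (hC i).1 (hC i₀).2
  choose F hS hv using fun i => kf (e i) (A i) (hA i)
  have hmul : ∀ s t, Rg D s ∧ s ≠ 0 → Rg D t ∧ t ≠ 0 → Rg D (s * t) ∧ s * t ≠ 0 :=
    fun s t a b => ⟨(kd s t a.1 b.1).2.1, fun h0 =>
      ((kd s t a.1 b.1).2.2 h0).elim a.2 b.2⟩
  have hF0 : ∀ i, Rg D (F i) ∧ F i ≠ 0 := fun i => ⟨⟨_, hS i⟩, fun h0 => by
    obtain ⟨x, hx, h1⟩ := hne i
    exact h1 (by rw [← hv i x hx.1, h0]; rfl)⟩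
  have hC0 : ∀ i, Rg D (C i) ∧ C i ≠ 0 := fun i => ⟨⟨_, (hC i).1.1⟩, (hC i).2⟩
  have hg0 : Rg D g ∧ g ≠ 0 := ⟨hg, fun h0 => by
    obtain ⟨x, -, h1⟩ := hF.ne
    exact h1 (by rw [h0]; rfl)⟩
  have hG := prod70 hmul Finset.univ F hF0 hg0
  obtain ⟨⟨R, hRg⟩, hG'⟩ := prod70 hmul Finset.univ C hC0 hG
  have hx : ∀ x ∈ offz D ((g * ∏ i, F i) * ∏ i, C i),
      x ∈ offz D g ∧ (∀ i, F i x ≠ 0) ∧ ∀ i, C i x ≠ 0 := fun x hx => by
    have h1 := hx.2
    simp only [Pi.mul_apply, Finset.prod_apply, mul_ne_zero_iff, Finset.prod_ne_zero_iff,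
      Finset.mem_univ, true_implies] at h1
    exact ⟨⟨hx.1, h1.1.1⟩, h1.1.2, h1.2⟩
  refine ⟨∑ i, e i, fun i => B i * ∏ j ∈ Finset.univ.erase i, A j,
    (g * ∏ i, F i) * ∏ i, C i, fun x => (g * C i₀) x / (g * ∏ i, F i) x, fun i => ?_, ⟨R, hRg⟩,
    ?_, fun x h0 => (hx x h0).1, fun d z hz h0 => ?_, fun x h0 => ?_⟩
  · rw [← Finset.add_sum_erase _ _ (Finset.mem_univ i)]
    exact (hB i).mul (MvPolynomial.IsHomogeneous.prod _ _ _ fun j _ => hA j)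
  · by_contra h0
    refine hG' (funext fun x => ?_)
    by_cases h1 : x ∈ off D
    · by_contra h2
      exact h0 ⟨x, h1, h2⟩
    · exact hRg.2 x h1
  · have h1 : Off (D.c d) z := (ZQ.off_symm D hz).1 h0.1
    have h2 := (kh _ (hmul _ _ hg0 (hC0 i₀)).1 d z hz).2 h1
    have h3 := (kh _ hG.1 d z hz).2 h1
    have h4 : D.rd (g * ∏ i, F i) d z ≠ 0 := left_ne_zero_of_mul h0.2
    filter_upwards [h2, h3, h3.self_of_nhds.continuousAt.eventually_ne h4] with w a b c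
    have e1 : D.rd (fun x => (g * C i₀) x / (g * ∏ i, F i) x) d =
        fun y => D.rd (g * C i₀) d y * (D.rd (g * ∏ i, F i) d y)⁻¹ :=
      funext fun y => div_eq_mul_inv _ _
    rw [e1]
    exact a.mul (b.inv c)
  · obtain ⟨h1, h2, h3⟩ := hx x h0
    have h4 : ∏ i, F i x ≠ 0 := Finset.prod_ne_zero_iff.2 fun i _ => h2 i
    have h5 : (g * C i₀) x / (g * ∏ i, F i) x = C i₀ x / ∏ i, F i x := by
      simp only [Pi.mul_apply, Finset.prod_apply]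
      exact mul_div_mul_left _ _ h1.2
    have h6 : ∀ i, C i x = C i₀ x / (∏ i, F i x) *
        pv h (B i * ∏ j ∈ Finset.univ.erase i, A j) x := fun i => by
      have h7 := hAB i x h1
      have h8 : pv h (B i * ∏ j ∈ Finset.univ.erase i, A j) x =
          pv h (B i) x * ∏ j ∈ Finset.univ.erase i, F j x := by
        simp only [pv, map_mul, map_prod, hv _ x h1.1]
      rw [h8, div_mul_eq_mul_div, eq_div_iff h4, ← Finset.mul_prod_erase _ _ (Finset.mem_univ i),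
        ← mul_assoc, ← mul_assoc, ← h7, hv i x h1.1]
    refine ⟨?_, fun i => ⟨fun h7 => h3 i (by rw [h6 i, h7, mul_zero]), ?_⟩⟩
    · show (g * C i₀) x / (g * ∏ i, F i) x ≠ 0
      rw [h5]
      exact div_ne_zero (h3 i₀) h4
    · show C i x = (g * C i₀) x / (g * ∏ i, F i) x * _
      rw [h5]
      exact h6 i

end Pool.Agent.Lib.NV6.J
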