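import Pool.Agent.Lib.NV6.JBlue

/-! Project NV6, block J: the generators at all levels. -/

open scoped Classical Topology ContDiff ENNReal
open Set MeasureTheory Complex Metric Filter

noncomputable section

namespace Pool.Agent.Lib.NV6.J

open Pool.Agent.Lib.HS32 Pool.Agent.Lib.EX Pool.Agent.Lib.EXS Pool.Agent.Lib.ZL
open Pool.Agent.Lib.ZQ (offz)

theorem jGEN (hUPB : ZL.St_UPB) (hFRM : St_FRM) (hIDL : St_IDL) (hIDV : St_IDV) (hLEV : St_LEV) :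
    St_GEN := by
  intro n M _ ι _ _ D X r d k g L κ P h W b hM
  obtain ⟨-, -, hI⟩ := hIDL n M ι D X r d k g L κ P h W b hM
  have hc : 4 * r + k + 1 < 4 * r + 1 + (k + 1) := by omega
  have key : ∀ N : ℕ, 0 < N → ∃ (m : ℕ) (s : Fin m → M.X → ℂ),
      (∀ j, s j ∈ Id X d k L κ P h W b N (4 * r + 1 + (k + 1)) ∧ s j ≠ 0) ∧
      ∀ q, ∀ F ∈ Id X d k L κ P h W b N (4 * r + 1 + (k + 1) + q), ∀ f : M.X → ℂ,
        (∀ x ∈ offz D g, F x = f x) → Cb (offz D g) h q s f := fun N hN => by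
    obtain ⟨S, hS, e⟩ := (hI N (4 * r + 1 + (k + 1)) hN).2.2
    obtain ⟨m, s, h1, h2⟩ := (hFRM M.X r (offz D g) h).1 S hS
    refine ⟨m, s, fun j => ⟨e ▸ (h1 j).1, (h1 j).2⟩, fun q F hF f hf => ?_⟩
    obtain ⟨R, r1, r2⟩ := h2 q F (e ▸ hIDV n M ι D X r d k g L κ P h W b N _ q hM hN hc F hF)
    exact ⟨R, r1, fun x hx => (hf x hx).symm.trans (r2 x hx)⟩
  have hL := hLEV n M ι D X r d k g L κ P h W b hM
  obtain ⟨m, C, c1, c2⟩ := key 1 one_pos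
  refine ⟨4 * r + 1 + (k + 1), m, C, ?_, fun i => ⟨?_, (c1 i).2⟩, fun q => ?_⟩
  · obtain ⟨F, hF, x, hx, h0⟩ := (hL (4 * r + 1) 0).2.2
    obtain ⟨R, -, hR⟩ := c2 0 F hF F fun _ _ => rfl
    rcases Nat.eq_zero_or_pos m with rfl | hm
    · exact (h0 (by simpa using hR x hx)).elim
    · exact hm
  · simpa using (hI 1 _ one_pos).2.1 _ (c1 i).1
  obtain ⟨m', s, s1, s2⟩ := key (q + 1) q.succ_pos
  refine ⟨m', s, fun j => ((hUPB n M ι D _).1 _ (s1 j).1.1.1).1, fun a => ⟨fun j => ?_, fun i => ?_⟩⟩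
  · obtain ⟨F, hF, e⟩ := (hL _ q).2.1 a _ (s1 j).1
    exact c2 q F hF _ e
  · obtain ⟨F, hF, e⟩ := (hL _ q).1 a _ (c1 i).1
    exact s2 q F hF _ e

end Pool.Agent.Lib.NV6.J
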