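import Pool.Agent.Lib.NV6.JBlue

/-! Project NV6, block J: the ideals are generated in a fixed degree. -/

open scoped Classical Topology ContDiff ENNReal
open Set MeasureTheory Complex Metric Filter

noncomputable section

namespace Pool.Agent.Lib.NV6.J

open Pool.Agent.Lib.SV (E nsq)
open Pool.Agent.Lib.HS32 Pool.Agent.Lib.EX Pool.Agent.Lib.EXS Pool.Agent.Lib.ZL
open Pool.Agent.Lib.ZQ (HqO offz)

namespace IDVk

variable {n r : ℕ} {M : Mf n}

theorem om_add (d k : ℕ) (h W : Fin r → M.X → ℂ) (b : M.X → ℂ) (N : ℕ) (s : ℝ) (c j : ℕ)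
    (x : M.X) : om d k h W b N s (c + j) x = om d k h W b N s c x / nsq (h · x) ^ j := by
  simp only [om, pow_add, div_div]

end IDVk

open IDVk in
theorem jIDV (hKIT : St_KIT) (hSKK : St_SKK) (hSND : St_SND) (hIDL : St_IDL) : St_IDV := by
  intro n M _ ι _ _ D X r d k g L κ P h W b N c q hM hN hc F hF
  obtain ⟨hF, s, hs, hI⟩ := hF
  obtain ⟨j, rfl⟩ : ∃ j, c = k + 1 + j := ⟨c - (k + 1), by omega⟩
  obtain ⟨φ, C, hφ, hC⟩ := hSND n M ι D X r d k g L κ P h W b N s hM hN hs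
  obtain ⟨hpos, -, h3⟩ := hIDL n M ι D X r d k g L κ P h W b hM
  obtain ⟨C₂, hC₂⟩ := (h3 N (k + 1) hN).1 (s / 2) (by linarith [hs.1])
  have hle := (hKIT n M ι D X (offz D g) (ZQ.HO.offz_open (oa_iff.1 hM.hol)) (fun _ hx => hx.1)
    hM.ae).2.2.2.2.2.2.2.2.2.2.2.2.2.1
  have hup : Up X (offz D g) (fun i => N * L i + κ i + (k + 1 : ℕ) * P i) φ := by
    refine ⟨Real.log (C₂ * C), fun x hx => ?_⟩
    have a1 := (hC₂ x hx).2
    have a2 := (hC x hx).2
    have a3 := (hpos x hx).2.2 N (s / 2) (k + 1)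
    have a4 : 0 < C₂ := (mul_pos_iff_of_pos_right a3).1 ((Real.exp_pos _).trans_le a1)
    have a5 : 0 < C := (mul_pos_iff_of_pos_right (Real.exp_pos _)).1 (a3.trans_le a2)
    have a6 := a1.trans (mul_le_mul_of_nonneg_left a2 a4.le)
    rw [← mul_assoc, ← Real.exp_log (mul_pos a4 a5), ← Real.exp_add, Real.exp_le_exp] at a6
    linarith
  have hfin : Nj X h φ (j + q) F ≠ ⊤ := by
    refine (hle _ _ C fun x hx => ⟨mul_nonneg (normSq_nonneg _) ((hpos x hx).2.2 _ _ _).le, ?_⟩).2 hI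
    rw [add_assoc (k + 1), om_add, mul_left_comm, ← mul_div_assoc, ← mul_div_assoc]
    exact div_le_div_of_nonneg_right (mul_le_mul_of_nonneg_left (hC x hx).1 (normSq_nonneg _))
      (pow_nonneg (hM.pos x hx).le _)
  obtain ⟨H, hH, he⟩ := hSKK n M ι D X r g P (fun i => N * L i + κ i + (k + 1 : ℕ) * P i) h φ j q F
    hM.toFr hφ hup (by omega) (by
      have e : (fun i => N * L i + κ i + (k + 1 : ℕ) * P i + (j + q : ℕ) * P i) =
          fun i => N * L i + κ i + (k + 1 + j + q : ℕ) * P i := by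
        funext i; push_cast; ring
      rw [e]; exact hF) hfin
  refine ⟨H, fun I => ⟨?_, s / 2, ⟨by linarith [hs.1], by linarith [hs.1, hs.2]⟩, ?_⟩, he⟩
  · have e : (fun i => N * L i + κ i + (k + 1 + j : ℕ) * P i) =
        fun i => N * L i + κ i + (k + 1 : ℕ) * P i + j * P i := by
      funext i; push_cast; ring
    rw [e]; exact (hH I).1
  · have h1 : Nj X h φ j (H I) ≠ ⊤ := ne_top_of_le_ne_top
      (ENNReal.mul_ne_top (ENNReal.pow_ne_top (by simp)) hfin) (hH I).2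
    refine (hle _ _ C fun x hx => ⟨div_nonneg (mul_nonneg (normSq_nonneg _) (Real.exp_pos _).le)
      (pow_nonneg (hM.pos x hx).le _), ?_⟩).2 h1
    rw [om_add, ← mul_div_assoc, ← mul_div_assoc, mul_left_comm]
    exact div_le_div_of_nonneg_right (mul_le_mul_of_nonneg_left (hC x hx).2 (normSq_nonneg _))
      (pow_nonneg (hM.pos x hx).le _)

end Pool.Agent.Lib.NV6.J
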