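import Pool.Agent.Lib.NV6.JBlue
import Pool.Agent.Lib.NV5.B_KIT

/-! Project NV6, block J, row KIT: calculus on the open set. -/

open scoped Classical Topology ContDiff ENNReal
open Set MeasureTheory Complex Metric Filter

set_option linter.unusedSectionVars false

noncomputable section

namespace Pool.Agent.Lib.NV6.J

open Pool.Agent.Lib.SV (E nsq)
open Pool.Agent.Lib.HS32 Pool.Agent.Lib.EX Pool.Agent.Lib.EXS Pool.Agent.Lib.ZL
open Pool.Agent.Lib.EXS.K32 Pool.Agent.Lib.EXS.GLU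
open Pool.Agent.Lib.NV2 (lg)
open Pool.Agent.Lib.NV5

namespace KITk

variable {n r : ℕ} {M : Mf n} {ι : Type} [Fintype ι] [DecidableEq ι] {D : Ad M ι} {O : Set M.X}
  {F G : M.X → ℂ} {P : ι → ℤ}

theorem cont {A : Type} [TopologicalSpace A] {f : M.X → A}
    (h : D.On O fun d z => ContinuousAt (D.rd f d) z) : ContinuousOn f O := fun x hx => by
  obtain ⟨d, hd⟩ := GLU.ex_ch D x
  exact (GLU.cont_rd hd (GLU.on_at h hd hx)).continuousWithinAt

theorem hc (h : Ho D O F) : ContinuousOn F O :=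
  cont fun d z hz hx => (h d z hz hx).self_of_nhds.continuousAt

theorem cst (c : ℂ) : Ho D O fun _ => c :=
  fun _ _ _ _ => Eventually.of_forall fun _ => differentiableAt_const c

theorem hadd (a : Ho D O F) (b : Ho D O G) : Ho D O fun x => F x + G x :=
  fun d z hz hx => ((a d z hz hx).and (b d z hz hx)).mono fun _ h => h.1.add h.2

theorem hmul (a : Ho D O F) (b : Ho D O G) : Ho D O fun x => F x * G x :=
  fun d z hz hx => ((a d z hz hx).and (b d z hz hx)).mono fun _ h => h.1.mul h.2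

theorem hfam {κ : Type} [Fintype κ] {F : κ → M.X → ℂ} (h : ∀ i, Ho D O (F i)) :
    D.On O fun d z => HolN (fun y i => D.rd (F i) d y) z := fun d z hz hx =>
  (eventually_all.2 fun i => h i d z hz hx).mono fun _ k => differentiableAt_pi.2 k

theorem hpv {h : Fin r → M.X → ℂ} (a : ∀ i, Ho D O (h i)) (R : MvPolynomial (Fin r) ℂ) :
    Ho D O (pv h R) := by
  show Ho D O fun x => pv h R x
  induction R using MvPolynomial.induction_on with
  | C c => simpa only [pv, MvPolynomial.eval_C] using (cst c : Ho D O _)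
  | add p q hp hq => simpa only [pv, map_add] using hadd hp hq
  | mul_X p i hp => simpa only [pv, map_mul, MvPolynomial.eval_X] using hmul hp (a i)

theorem sprod {κ : Type} (s : Finset κ) {f : κ → M.X → ℂ} {k : κ → ℕ}
    (h : ∀ i, ∃ F, Sp D (fun j => k i * P j) F ∧ ∀ x ∈ off D, F x = f i x) :
    ∃ F, Sp D (fun j => (∑ i ∈ s, k i : ℕ) * P j) F ∧ ∀ x ∈ off D, F x = ∏ i ∈ s, f i x := by
  induction s using Finset.induction_on with
  | empty => exact ⟨un D, KITb.mono (fun j => by simp) (KITb.one D), fun x hx => by simp [un, hx]⟩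
  | insert i s hi ih =>
    obtain ⟨F, a, b⟩ := h i
    obtain ⟨G, c, d⟩ := ih
    refine ⟨F * G, KITb.mono (fun j => le_of_eq ?_) (KITb.mul a c), fun x hx => ?_⟩
    · simp [Finset.sum_insert hi, add_mul]
    · rw [Finset.prod_insert hi, Pi.mul_apply, b x hx, d x hx]

theorem ssum {κ : Type} (s : Finset κ) {f : κ → M.X → ℂ}
    (h : ∀ i ∈ s, ∃ F, Sp D P F ∧ ∀ x ∈ off D, F x = f i x) :
    ∃ F, Sp D P F ∧ ∀ x ∈ off D, F x = ∑ i ∈ s, f i x := by
  induction s using Finset.induction_on with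
  | empty => exact ⟨0, KITb.zero P, fun x hx => by simp⟩
  | insert i s hi ih =>
    obtain ⟨F, a, b⟩ := h i (Finset.mem_insert_self i s)
    obtain ⟨G, c, d⟩ := ih fun j hj => h j (Finset.mem_insert_of_mem hj)
    exact ⟨F + G, KITb.add a c, fun x hx => by
      rw [Finset.sum_insert hi, Pi.add_apply, b x hx, d x hx]⟩

theorem sone (h : Sp D P F) : ∃ G, Sp D (fun j => (1 : ℕ) * P j) G ∧ ∀ x ∈ off D, G x = F x :=
  ⟨F, by simpa using h, fun _ _ => rfl⟩

theorem spow (h : Sp D P F) (k : ℕ) :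
    ∃ G, Sp D (fun j => k * P j) G ∧ ∀ x ∈ off D, G x = F x ^ k := by
  simpa using sprod (Finset.range k) (f := fun _ => F) (k := fun _ => 1) fun _ => sone h

theorem sform {h : Fin r → M.X → ℂ} (a : ∀ i, Sp D P (h i)) {k : ℕ} {R : MvPolynomial (Fin r) ℂ}
    (hR : R.IsHomogeneous k) : ∃ F, Sp D (fun i => k * P i) F ∧ ∀ x ∈ off D, F x = pv h R x := by
  simp only [pv, MvPolynomial.eval_eq']
  refine ssum _ fun m hm => ?_
  obtain ⟨G, b, c⟩ := sprod Finset.univ (f := fun i x => h i x ^ m i) (k := m)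
    fun i => spow (a i) (m i)
  have e : ∑ i, m i = k := by
    rw [← hR (MvPolynomial.mem_support_iff.1 hm), ← Finsupp.degree_eq_sum,
      Finsupp.degree_eq_weight_one]
    rfl
  exact ⟨R.coeff m • G, e ▸ KITb.smul _ b, fun x hx => by rw [Pi.smul_apply, c x hx, smul_eq_mul]⟩

end KITk

open KITk in
theorem jKIT (hPW : ZL.St_PW) (hUPB : ZL.St_UPB) (hCHN : NV2.St_CHN) : St_KIT := by
  intro n M _ ι _ _ D X O hO hs ae
  have h1 : ∀ F, HoO D F → Ho D O F := fun F h d z hz hx => oa_iff.1 h d z hz (hs hx)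
  have hI : ∀ (f f' : M.X → ℝ) (C : ℝ), (∀ x ∈ O, 0 ≤ f' x ∧ f x ≤ C * f' x) →
      X.I f ≤ ENNReal.ofReal C * X.I f' := fun f f' C h => by
    rw [Cx.I, Cx.I, ← lintegral_const_mul' _ _ ENNReal.ofReal_ne_top]
    refine lintegral_mono_ae (ae.mono fun x hx => ?_)
    rw [mul_comm, ← ENNReal.ofReal_mul (h x hx).1, mul_comm]
    exact ENNReal.ofReal_le_ofReal (h x hx).2
  refine ⟨h1, fun Q F h => ⟨h1 F ((hUPB n M ι D Q).1 F h.1).1, fun k =>
      ((hCHN n M ι D X 0).2.2.2.2.2.2.1 Q F h).2.2 (ae.mono k)⟩, cst,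
    fun F G a b => ⟨hadd a b, fun d z hz hx =>
      ((a d z hz hx).and (b d z hz hx)).mono fun _ h => h.1.sub h.2, hmul a b,
      fun k d z hz hx => (a d z hz hx).mono fun _ h => h.pow k, fun k d z hz hx => ?_⟩,
    fun κ _ F h => ⟨fun d z hz hx => (eventually_all.2 fun i => h i d z hz hx).mono fun _ k =>
      DifferentiableAt.fun_sum fun i _ => k i,
      fun d z hz hx => (eventually_all.2 fun i => h i d z hz hx).mono fun _ k =>
      (HasFDerivAt.finsetProd fun i _ => (k i).hasFDerivAt).differentiableAt,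
      cont fun d z hz hx => (cd_nsq (hfam h d z hz hx)).continuousAt⟩,
    fun r h a => ⟨hpv a, fun k d z hz hx => ?_⟩,
    fun F a => ⟨hc a, fun k d z hz hx => ?_⟩,
    fun φ a d z hz hx => ⟨oa_iff.1 a.1 d z hz (hs hx), oa_iff.1 a.2 d z hz (hs hx)⟩,
    fun φ a => cont fun d z hz hx => (a d z hz hx).1.continuousAt,
    fun φ ψ a b d z hz hx => ⟨(a d z hz hx).1.add (b d z hz hx).1, fun v =>
      (add_nonneg ((a d z hz hx).2 v) ((b d z hz hx).2 v)).trans_eq
        (lv_add (a d z hz hx).1 (b d z hz hx).1 v).symm⟩,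
    fun t φ ht a d z hz hx => ⟨contDiffAt_const.mul (a d z hz hx).1, fun v =>
      (mul_nonneg ht ((a d z hz hx).2 v)).trans_eq (lv_mul (a d z hz hx).1 t v).symm⟩,
    fun a => ((hPW n M ι D).2.2.2.2.2.2.2.2.2.1 ℝ _ ((hPW n M ι D).2.2.2.2.2.2.2.1 a)).mono hs,
    fun F _ _ _ f hf => ?_, fun f f' C h => ⟨hI f f' C h, fun k =>
      ne_top_of_le_ne_top (ENNReal.mul_ne_top ENNReal.ofReal_ne_top k) (hI f f' C h)⟩,
    fun r P h a => ⟨?_, fun k I => ?_, fun k R => sform a⟩⟩
  · filter_upwards [a d z hz hx, b d z hz hx, ev_on hO hz hx] with y p q e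
      using p.mul (q.inv (k _ e.2))
  · have := lv_lg (hfam a d z hz hx) fun e => (k _ hx).ne' (by
      have e' : (h · ((D.e d).symm z)) = 0 := e
      rw [e']
      simp [nsq])
    exact ⟨this.1, fun v => (this.2 v).1⟩
  · have := lv_log (a d z hz hx) (k _ hx)
    exact ⟨this.1, fun v => (this.2 v).ge⟩
  · have := hf.aemeasurable (μ := X.μ) hO.measurableSet
    rwa [Measure.restrict_eq_self_of_ae_mem ae] at this
  · choose C hC using fun i => (hUPB n M ι D P).2.2.2.2.1 (h i) (a i).1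
    refine ⟨(∑ i, |C i|) + 1, by positivity, fun x hx => ?_⟩
    have h0 := (Real.exp_pos (-lw D (fun i => P i) x)).le
    refine (Finset.sum_le_sum fun i _ => (hC i x (hs hx)).trans
      (mul_le_mul_of_nonneg_right (le_abs_self _) h0)).trans ?_
    rw [← Finset.sum_mul]
    exact mul_le_mul_of_nonneg_right (le_add_of_nonneg_right zero_le_one) h0
  · obtain ⟨F, b, c⟩ := sprod Finset.univ (f := fun p => h (I p)) (k := fun _ => 1)
      fun p => sone (a (I p))
    exact ⟨F, by simpa using b, fun x hx => c x (hs hx)⟩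

end Pool.Agent.Lib.NV6.J
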