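import Pool.Agent.Lib.NV6.JBlue
import Pool.Agent.Lib.S3K.Sko

/-! Row LM0: bounded sequences in a space of finite dimension. -/

open scoped Classical Topology ENNReal
open Set MeasureTheory Complex Filter

namespace Pool.Agent.Lib.NV6.J

open Pool.Agent.Lib.SV (nsq)
open Pool.Agent.Lib.S3K

theorem jLM0 : St_LM0 := by
  intro Y κ _ _ μ S w₀ w a F B hS hB m0 ma hm hw hF
  have mq : ∀ ν ν' i, AEMeasurable (fun x => normSq (F ν i x) * a ν' x) μ := fun ν ν' i =>
    (continuous_normSq.measurable.comp_aemeasurable (hm _ (hF ν i).1).1).mul (ma ν')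
  obtain ⟨-, ⟨c, rfl⟩, φ, hφ, ht⟩ := SKO.cmp (μ := μ) (LinearMap.range (S.subtype.compLeft κ)) m0
    (hw.mono fun x hx => hx.1) (fun _ ⟨c, e⟩ i => e ▸ (hm _ (c i).2).1)
    (fun _ ⟨c, e⟩ h => by
      subst e
      exact funext fun i => (hm _ (c i).2).2 (h i))
    (η := F) (fun ν => ⟨fun i => ⟨F ν i, (hF ν i).1⟩, rfl⟩) (A := ∑ _i : κ, B)
    (ENNReal.sum_ne_top.2 fun _ _ => hB) fun ν => by
      refine le_trans ?_ (Finset.sum_le_sum fun i _ => (hF ν i).2)
      rw [← lintegral_finsetSum' _ fun i _ => (mq ν ν i).ennreal_ofReal]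
      refine lintegral_mono_ae (hw.mono fun x hx => ?_)
      rw [← ENNReal.ofReal_sum_of_nonneg fun i _ =>
        mul_nonneg (normSq_nonneg _) (hx.1.le.trans (hx.2.1 ν)), nsq, Finset.sum_mul]
      exact ENNReal.ofReal_le_ofReal (Finset.sum_le_sum fun i _ =>
        mul_le_mul_of_nonneg_left (hx.2.1 ν) (normSq_nonneg _))
  exact ⟨_, φ, fun i => ⟨(c i).2, SKO.fatou (A := fun _ => B) (fun ν => mq (φ ν) (φ ν) i)
    (hw.mono fun x hx => ((continuous_normSq.tendsto _).comp (ht i x)).mul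
      (hx.2.2.comp hφ.tendsto_atTop)) (fun ν => (hF (φ ν) i).2) tendsto_const_nhds, ht i⟩⟩

end Pool.Agent.Lib.NV6.J
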