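import Pool.Agent.Lib.NV6.JBlue

/-! Project NV6, block J: removal of singularities along the zeros of a function. -/

open scoped Classical Topology ContDiff ENNReal
open Set MeasureTheory Complex Metric Filter

noncomputable section

namespace Pool.Agent.Lib.NV6.J

open Pool.Agent.Lib.SV (E nsq)
open Pool.Agent.Lib.HS32 Pool.Agent.Lib.EX Pool.Agent.Lib.EXS Pool.Agent.Lib.ZL Pool.Agent.Lib.ZQ
open Pool.Agent.Lib.EXS.K32 Pool.Agent.Lib.ZQ.HO

theorem jREM (hPOL : ZL.St_POL) (hMU : ZL.St_MU) (hUPB : ZL.St_UPB) : St_REM := by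
  intro n M _ ι _ _ D X g F Q hg g0 hF hi
  have hg' : D.On (off D) fun d z => HolN (D.rd g d) z :=
    fun d z hz hw => hg d z hz ((off_symm D hz).1 hw)
  have loc : ∀ d, ∀ z ∈ B2 n, ∃ r < (2 : ℝ), closedBall 0 r ∈ 𝓝 z ∧ ∫⁻ y in closedBall 0 r,
      ENNReal.ofReal (normSq (D.rd F d y) * xr (D.c d) (fun i => Q i) y) ≠ ⊤ := fun d z hz => by
    obtain ⟨r, r1, r2⟩ := exists_between (mem_ball_zero_iff.1 hz : ‖z‖ < 2)
    obtain ⟨C, hC⟩ := (hMU n M ι D X).2.2.2.2 r r2 (∑ i, |(Q i : ℝ)|)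
    have h1 := hC (fun i => Q i) (fun x => normSq (F x)) d fun i =>
      Finset.single_le_sum (f := fun i => |(Q i : ℝ)|) (fun _ _ => abs_nonneg _) (Finset.mem_univ i)
    exact ⟨r, r2, mem_of_superset (isOpen_ball.mem_nhds (mem_ball_zero_iff.2 r1))
      ball_subset_closedBall,
      ne_top_of_le_ne_top (ENNReal.mul_ne_top ENNReal.ofReal_ne_top hi) h1⟩
  let G : M.X → ℂ := fun x => limUnder (𝓝[offz D g] x) F
  have e : ∀ x ∈ offz D g, G x = F x := fun x hx => by
    obtain ⟨b, hb⟩ := ex_ch D x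
    have : (𝓝[offz D g] x).NeBot := mem_closure_iff_nhdsWithin_neBot.1 (subset_closure hx)
    exact ((cont_of hb (on_at hF hb hx).self_of_nhds.continuousAt).tendsto.mono_left
      nhdsWithin_le_nhds).limUnder_eq
  have hG : HoO D G := by
    intro d z hz hw
    have ho := offB_open (D.c d)
    have mO : ∀ y ∈ {z | z ∈ B2 n ∧ Off (D.c d) z}, D.rd g d y ≠ 0 → (D.e d).symm y ∈ offz D g :=
      fun y hy h0 => ⟨(off_symm D hy.1).2 hy.2, h0⟩
    have nz : ∀ y ∈ {z | z ∈ B2 n ∧ Off (D.c d) z}, ¬D.rd g d =ᶠ[𝓝 y] 0 :=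
      fun y hy => g_nz hg' g0 hy.1 ((off_symm D hy.1).2 hy.2)
    obtain ⟨k, k1, k2⟩ := SV.H85.ext_sq volume (f := D.rd F d) (j := D.rd g d) ho
      (fun y hy => (hg d y hy.1 hy.2).self_of_nhds.differentiableWithinAt) nz
      (fun y hy => (hF d y hy.1.1 (mO y hy.1 hy.2)).self_of_nhds.differentiableWithinAt)
      fun y hy => by
        obtain ⟨r, -, r1, r2⟩ := loc d y hy.1
        obtain ⟨V, hV, h1⟩ := loc_sq (F := D.rd F d) (G := fun _ => 0) r1
          (MON.cd_xr (fun i => (Q i : ℝ)) hy.2).continuousAt (MON.xr_pos _ hy.2) continuousAt_const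
          (by simpa only [zero_sub, normSq_neg] using r2)
        exact ⟨V, hV, ne_top_of_le_ne_top h1 (lintegral_mono_set fun u hu => hu.1)⟩
    have hz' : z ∈ {z | z ∈ B2 n ∧ Off (D.c d) z} := ⟨hz, hw⟩
    refine hol_congr (f := k) ((ho.eventually_mem hz').mono fun y hy =>
      k1.differentiableAt (ho.mem_nhds hy)) ((ho.eventually_mem hz').mono fun y hy => ?_)
    exact lim_eq (tg hy.1) (((not_eventually.1 (nz y hy)).and_eventually
      (ho.eventually_mem hy)).mono fun u hu => mO u hu.2 hu.1)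
      (k1.differentiableAt (ho.mem_nhds hy)).continuousAt
      ((ho.eventually_mem hy).mono fun u hu h0 => (k2 u hu h0.2).symm)
  have hM : Mer D Q G := by
    intro d z hz
    obtain ⟨r, r0, r1, r2⟩ := loc d z hz
    have hB : ∀ y ∈ closedBall (0 : E n) r, y ∈ B2 n := fun y hy =>
      mem_ball_zero_iff.2 ((mem_closedBall_zero_iff.1 hy).trans_lt r0)
    refine hPOL n ι (D.c d) Q (D.rd G d) z _ (D.inj d) r1 (fun y hy => hG d y (hB y hy))
      (ne_top_of_le_ne_top r2 (setLIntegral_mono_ae' measurableSet_closedBall ?_))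
    filter_upwards [ae_offz hg' g0 d] with y h1 hy
    rw [show D.rd G d y = D.rd F d y from e _ (h1 (hB y hy))]
  exact ⟨_, ((hUPB n M ι D Q).1 G hM).2, fun x hx => (indicator_of_mem hx.1 G).trans (e x hx)⟩

end Pool.Agent.Lib.NV6.J
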