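import Pool.Agent.Lib.NV6.JBlue
import Pool.Agent.Lib.S3K.Sko

/-! Project NV6, row SK: the division of Skoda. -/

open scoped Classical Topology ContDiff ENNReal
open Set MeasureTheory Complex Metric Filter

noncomputable section

namespace Pool.Agent.Lib.NV6.J

open Pool.Agent.Lib.SV (E nsq nsq_nonneg)
open Pool.Agent.Lib.HS32 Pool.Agent.Lib.EX Pool.Agent.Lib.EXS Pool.Agent.Lib.ZL
open Pool.Agent.Lib.EXS.K32 (lv lv_add lv_mul lv_sub hol_cd)
open Pool.Agent.Lib.ZQ (HqO offz)
open Pool.Agent.Lib.NV2 (lg rv prp)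
open Pool.Agent.Lib.S3K.SKO

theorem jSK (hP : ZL.St_PW) (hM : ZL.St_MU) (hU : ZL.St_UPB) (hG : ZL.St_POG) (hD : NV2.St_DB)
    (hC : NV2.St_CHN) : St_SK := by
  intro n M _ ι _ _ D X r g P Q h φ j f hF hφ ⟨C, lo⟩ hj hf fin
  obtain ⟨-, -, ladd, -, lsm, -⟩ := hP n M ι D
  choose B hB using fun a => (hU n M ι D P).2.2.2.2.1 _ (hF.sp a).1
  have e : ∀ x ∈ offz D g, Real.exp (-(φ x + j * lg h x)) = Real.exp (-φ x) / nsq (h · x) ^ j :=
    fun x hx => by
      rw [neg_add, Real.exp_add, Real.exp_neg (_ * _), Real.exp_nat_mul, NV2.lg,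
        Real.exp_log (hF.pos x hx), div_eq_mul_inv]
  have e1 : X.I (fun x => normSq (f x) / nsq (h · x) * Real.exp (-(φ x + j * lg h x))) =
      Nj X h φ (j + 1) f := lintegral_congr_ae (hF.ae.mono fun x hx => by
    beta_reduce
    rw [e x hx, pow_succ, div_mul_div_comm, mul_comm (nsq _)])
  obtain ⟨H, h1, h2, h3⟩ := sk X hM hU hG hD hC hF.hol hF.ne hF.ae hF.hq (P := P)
    (Q := fun i => Q i + j * P i) (φ := fun x => φ x + j * lg h x) (κ := j)
    (C := C + j * Real.log (∑ a, |B a|)) (f := f) (Nat.cast_pos.2 (by omega))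
    (by exact_mod_cast hj.le) hF.sp hF.pos (fun d z hz ho => by
      have T0 : rv D h d z ≠ 0 := fun e => (hF.pos _ ho).ne' (by
        have e' : ∀ a, h a ((D.e d).symm z) = 0 := congrFun e
        simp [nsq, e'])
      have hT : HolN (rv D h d) z := (eventually_all.2 fun a => oa_iff.1
        ((hU n M ι D P).1 _ (hF.sp a).1).1 d z hz ho.1).mono fun w hw => differentiableAt_pi.2 hw
      refine ⟨(hφ d z hz ho).1.add (contDiffAt_const.mul (hD n r _ _ z 0 hT hT T0).2.2.1), ?_⟩
      simp only [add_sub_cancel_right]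
      exact (hφ d z hz ho).2)
    (fun x hx => by
      have b1 : nsq (h · x) ≤ (∑ a, |B a|) * Real.exp (-lw D (fun i => P i) x) := by
        rw [Finset.sum_mul]
        exact Finset.sum_le_sum fun a _ => (hB a x hx.1).trans
          (mul_le_mul_of_nonneg_right (le_abs_self _) (Real.exp_pos _).le)
      have b0 := (mul_pos_iff_of_pos_right (Real.exp_pos _)).1 ((hF.pos x hx).trans_le b1)
      have b2 := Real.log_le_log (hF.pos x hx) b1
      rw [Real.log_mul b0.ne' (Real.exp_pos _).ne', Real.log_exp] at b2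
      have b3 : lw D (fun i => ((Q i + j * P i : ℤ) : ℝ) - X.o i) x =
          lw D (fun i => Q i - X.o i) x + j * lw D (fun i => P i) x := by
        rw [← lsm, ← ladd]
        exact congrArg (lw D · x) (funext fun i => by simp; ring)
      rw [b3, NV2.lg]
      linarith [lo x hx, mul_le_mul_of_nonneg_left b2 (Nat.cast_nonneg (α := ℝ) j)])
    ((congrArg (Sp D · f) (funext fun i => by simp; ring)).mp hf) (e1 ▸ fin)
  refine ⟨H, fun a => ⟨h1 a, le_trans (mon_on X hF.ae fun x hx => ?_) (e1 ▸ h3)⟩, fun x _ => h2 x⟩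
  rw [e x hx, mul_div_assoc]
  exact mul_le_mul_of_nonneg_right (Finset.single_le_sum (f := fun b => normSq (H b x))
    (fun _ _ => normSq_nonneg _) (Finset.mem_univ a))
    (div_nonneg (Real.exp_pos _).le (pow_nonneg (nsq_nonneg _) _))

end Pool.Agent.Lib.NV6.J
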