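import Pool.Agent.Lib.NV6.JBlue

/-! Project NV6, block J: the iterated division. -/

open scoped Classical Topology ContDiff ENNReal
open Set

noncomputable section

namespace Pool.Agent.Lib.NV6.J

theorem jSKK (hSK : St_SK) : St_SKK := by
  intro n M _ ι _ _ D X r g P Q h φ j k f hF hφ hU hj
  induction k generalizing f with
  | zero =>
    intro hf _
    exact ⟨fun _ => f, fun _ => ⟨by simpa using hf, by simp⟩, fun x _ => by simp [mon]⟩
  | succ k ih =>
    intro hf hN
    obtain ⟨H, h1, h2⟩ := hSK n M ι D X r g P Q h φ (j + k) f hF hφ hU (by omega) hf hN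
    choose G g1 g2 using fun a => ih (H a) (h1 a).1
      (ne_top_of_le_ne_top (ENNReal.mul_ne_top (by simp) hN) (h1 a).2)
    refine ⟨fun I => G (I 0) (Fin.tail I), fun I => ⟨(g1 _ _).1, (g1 _ _).2.trans ?_⟩,
      fun x hx => ?_⟩
    · rw [pow_succ, mul_assoc]
      exact mul_le_mul_right (h1 _).2 _
    · rw [h2 x hx, ← (Fin.consEquiv fun _ : Fin (k + 1) => Fin r).sum_comp, Fintype.sum_prod_type]
      refine Finset.sum_congr rfl fun a _ => ?_
      rw [g2 a x hx, Finset.mul_sum]
      refine Finset.sum_congr rfl fun I _ => ?_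
      simp [mon, Fin.consEquiv, Fin.prod_univ_succ, mul_assoc]

end Pool.Agent.Lib.NV6.J
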