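import Pool.Agent.Lib.NV6.JBlue

/-! Project NV6, block J: the division with the weights of Theorem Z. -/

open scoped Classical Topology ContDiff ENNReal
open Set MeasureTheory Complex Metric Filter

noncomputable section

namespace Pool.Agent.Lib.NV6.J

open Pool.Agent.Lib.SV (E nsq)
open Pool.Agent.Lib.HS32 Pool.Agent.Lib.EX Pool.Agent.Lib.EXS Pool.Agent.Lib.ZL
open Pool.Agent.Lib.ZQ (HqO offz)

theorem jZDV (hK : St_KIT) (hS : St_SKK) (hL : St_LM0) (hP : St_PW) (hG : St_POG) (hU : St_UPB)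
    (hC : NV2.St_CHN) : St_ZDV := by
  intro n M _ ι _ _ D X r g P Q h v C A j k f hF hW hj hf hv
  have sub : offz D g ⊆ off D := fun _ hx => hx.1
  obtain ⟨-, k2, -, -, k5, -, -, k8, k9, -, -, k12, k13, k14, k15⟩ :=
    hK n M ι D X (offz D g) (ZQ.HO.offz_open (oa_iff.1 hF.hol)) sub hF.ae
  obtain ⟨-, -, add, -, mul, -, mono, -⟩ := hP n M ι D
  obtain ⟨c1, c2, -, -, -, -, c7, -⟩ := hC n M ι D X 0
  obtain ⟨B, hB⟩ := X.αb
  obtain ⟨ε, hε⟩ : ∃ ε : ℕ → ℝ, ε = fun ν : ℕ => 1 / ((ν : ℝ) + 1) := ⟨_, rfl⟩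
  have e0 : ∀ ν, 0 < ε ν := fun ν => hε ▸ Nat.one_div_pos_of_nat
  have e1 : ∀ ν, ε ν ≤ 1 := fun ν => by
    rw [hε]
    exact div_le_one_of_le₀ (by linarith [(Nat.cast_nonneg ν : (0 : ℝ) ≤ ν)]) (by positivity)
  have e2 : Tendsto ε atTop (𝓝 0) := hε ▸ tendsto_one_div_add_atTop_nhds_zero_nat
  choose ρ hρ using fun ν => hW (ε ν) (e0 ν)
  obtain ⟨l, hl⟩ : ∃ l, l = lw D fun i => Q i - X.o i := ⟨_, rfl⟩
  have le : ∀ x, lw D (fun i => X.e i) x ≤ 0 := fun x =>
    (mono 0 (fun i => X.e i) (fun i => Nat.cast_nonneg _) x).trans_eq (by simp [lw])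
  have lq : ∀ x, lw D (fun i => ((Q i + X.e i : ℤ) : ℝ) - X.o i) x =
      l x + lw D (fun i => X.e i) x := fun x => by
    rw [hl, ← add]
    exact congrFun (congrArg (lw D) (funext fun i => by push_cast; simp only [Pi.add_apply]; ring)) x
  have lp : ∀ x, lw D (fun i => ((Q i + j * P i : ℤ) : ℝ) - X.o i) x =
      l x + j * lw D (fun i => P i) x := fun x => by
    rw [hl, ← mul, ← add]
    exact congrFun (congrArg (lw D) (funext fun i => by
      push_cast; simp only [Pi.add_apply, Pi.smul_apply, smul_eq_mul]; ring)) x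
  have key : ∀ ν, ∃ H : (Fin k → Fin r) → M.X → ℂ,
      (∀ I, Sp D (fun i => (Q i + X.e i) + j * P i) (H I) ∧
        X.I (fun x => normSq (H I x) * (Real.exp (l x - ε ν * X.α x) / nsq (h · x) ^ j)) ≤
          ENNReal.ofReal (Real.exp C) * (16 ^ k * (ENNReal.ofReal (Real.exp B) * ENNReal.ofReal A))) ∧
      ∀ x ∈ offz D g, f x = ∑ I, mon h I x * H I x := fun ν => by
    obtain ⟨p1, p2, p3⟩ := hρ ν
    have n1 : Nj X h (fun x => ρ ν x + ε ν * X.α x) (j + k) f ≤
        ENNReal.ofReal (Real.exp B) * ENNReal.ofReal A := by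
      refine (k14 _ (fun x => v x * Real.exp (-ρ ν x)) (Real.exp B) fun x hx => ?_).1.trans
        (mul_le_mul_right p3 _)
      have q0 := pow_pos (hF.pos x hx) (j + k)
      have v0 : 0 ≤ v x := nonneg_of_mul_nonneg_left ((normSq_nonneg _).trans (hv x hx)) q0
      have b := abs_le.1 (hB x hx.1)
      have a1 : Real.exp (-(ρ ν x + ε ν * X.α x)) ≤ Real.exp B * Real.exp (-ρ ν x) := by
        rw [← Real.exp_add]
        refine Real.exp_le_exp.2 ?_
        nlinarith [e0 ν, e1 ν, le x]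
      refine ⟨by positivity, ?_⟩
      rw [div_le_iff₀ q0]
      exact (mul_le_mul (hv x hx) a1 (Real.exp_pos _).le (by positivity)).trans_eq (by ring)
    obtain ⟨H, h1, h2⟩ := hS n M ι D X r g P (fun i => Q i + X.e i) h
      (fun x => ρ ν x + ε ν * X.α x) j k f hF (k8 _ p1)
      ⟨C + B, fun x hx => by
        have b := abs_le.1 (hB x hx.1)
        have := p2 x hx.1
        rw [← hl] at this
        rw [lq]
        nlinarith [e0 ν, e1 ν, le x]⟩ hj
      ⟨(hU n M ι D _).2.2.1 _ f (fun i => by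
        have : (0 : ℤ) ≤ X.e i := Nat.cast_nonneg _
        linarith) hf.1, hf.2⟩
      (ne_top_of_le_ne_top (ENNReal.mul_ne_top ENNReal.ofReal_ne_top ENNReal.ofReal_ne_top) n1)
    refine ⟨H, fun I => ⟨(h1 I).1, ?_⟩, h2⟩
    refine (k14 _ (fun x => normSq (H I x) * Real.exp (-(ρ ν x + ε ν * X.α x)) / nsq (h · x) ^ j)
      (Real.exp C) fun x hx => ?_).1.trans
      (mul_le_mul_right ((h1 I).2.trans (mul_le_mul_right n1 _)) _)
    have q0 := pow_pos (hF.pos x hx) j
    have s0 := normSq_nonneg (H I x)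
    have a1 : Real.exp (l x - ε ν * X.α x) ≤ Real.exp C * Real.exp (-(ρ ν x + ε ν * X.α x)) := by
      have := p2 x hx.1
      rw [← hl] at this
      rw [← Real.exp_add]
      exact Real.exp_le_exp.2 (by linarith)
    exact ⟨by positivity, (mul_le_mul_of_nonneg_left (div_le_div_of_nonneg_right a1 q0.le)
      s0).trans_eq (by ring)⟩
  choose H hH hs using key
  have cl : ContinuousOn l (offz D g) := hl ▸ k12 _
  have cα := k9 _ (k8 _ X.αp)
  have ch := (k5 (Fin r) h fun a => (k2 _ _ (hF.sp a)).1).2.2.pow j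
  have nz : ∀ x ∈ offz D g, nsq (h · x) ^ j ≠ 0 := fun x hx => (pow_pos (hF.pos x hx) j).ne'
  obtain ⟨G, φ, hG'⟩ := hL M.X (Fin k → Fin r) X.μ
    (Submodule.span ℂ {F | Sp D (fun i => (Q i + X.e i) + j * P i) F})
    (fun x => Real.exp (l x - |X.α x|) / nsq (h · x) ^ j) (fun x => Real.exp (l x) / nsq (h · x) ^ j)
    (fun ν x => Real.exp (l x - ε ν * X.α x) / nsq (h · x) ^ j) H _ (c2 _)
    (ENNReal.mul_ne_top ENNReal.ofReal_ne_top (ENNReal.mul_ne_top (ENNReal.pow_ne_top (by norm_num))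
      (ENNReal.mul_ne_top ENNReal.ofReal_ne_top ENNReal.ofReal_ne_top)))
    (k13 ℝ _ ((cl.sub cα.abs).rexp.div ch nz))
    (fun ν => k13 ℝ _ ((cl.sub (continuousOn_const.mul cα)).rexp.div ch nz))
    (fun F hF' => (c7 _ F ((c1 _ F).1 hF')).2)
    (hF.ae.mono fun x hx => by
      have q0 := pow_pos (hF.pos x hx) j
      refine ⟨by positivity, fun ν => div_le_div_of_nonneg_right (Real.exp_le_exp.2 ?_) q0.le, ?_⟩
      · nlinarith [e0 ν, e1 ν, le_abs_self (X.α x), abs_nonneg (X.α x)]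
      · simpa using ((tendsto_const_nhds (x := l x)).sub (e2.mul_const (X.α x))).rexp.div_const
          (nsq (h · x) ^ j))
    (fun ν I => ⟨(c1 _ _).2 (hH ν I).1, (hH ν I).2⟩)
  obtain ⟨K, K0, hKb⟩ := (k15 r P h hF.sp).1
  refine ⟨G, fun I => ?_, fun x hx => ?_⟩
  · obtain ⟨g1, g2, -⟩ := hG' I
    have g3 := (c1 _ _).1 g1
    have fin : X.I (fun x => normSq (G I x) * (Real.exp (l x) / nsq (h · x) ^ j)) ≠ ⊤ :=
      ne_top_of_le_ne_top (ENNReal.mul_ne_top ENNReal.ofReal_ne_top (ENNReal.mul_ne_top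
        (ENNReal.pow_ne_top (by norm_num))
        (ENNReal.mul_ne_top ENNReal.ofReal_ne_top ENNReal.ofReal_ne_top))) g2
    refine ⟨⟨hG n M ι D X _ _ ((hU n M ι D _).1 _ g3.1).1
      ((k14 _ _ (K ^ j) fun x hx => ?_).2 fin), g3.2⟩, ?_⟩
    · have q0 := pow_pos (hF.pos x hx) j
      have s0 := normSq_nonneg (G I x)
      refine ⟨by positivity, ?_⟩
      have a1 : nsq (h · x) * Real.exp (lw D (fun i => P i) x) ≤ K := by
        rw [← le_div_iff₀ (Real.exp_pos _), div_eq_mul_inv, ← Real.exp_neg]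
        exact hKb x hx
      have a2 := pow_le_pow_left₀ (mul_pos (hF.pos x hx) (Real.exp_pos _)).le a1 j
      rw [lp, Real.exp_add, Real.exp_nat_mul, mul_left_comm (K ^ j), ← mul_div_assoc]
      refine mul_le_mul_of_nonneg_left ?_ s0
      rw [le_div_iff₀ q0, mul_comm (K ^ j), mul_assoc, ← mul_pow, mul_comm _ (nsq _)]
      exact mul_le_mul_of_nonneg_left a2 (Real.exp_pos _).le
    · simpa only [Nj, neg_neg, mul_div_assoc, hl] using fin
  · exact tendsto_nhds_unique (tendsto_const_nhds.congr fun ν => hs (φ ν) x hx)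
      (tendsto_finsetSum _ fun I _ => ((hG' I).2.2 x).const_mul _)

end Pool.Agent.Lib.NV6.J
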