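import Pool.Agent.Lib.NV6.JBlue

/-! Project NV6, block J, row ZW: the weights for a nef canonical class. -/

open scoped ENNReal
open Set MeasureTheory

noncomputable section

namespace Pool.Agent.Lib.NV6.J

open Pool.Agent.Lib.HS32 Pool.Agent.Lib.EX Pool.Agent.Lib.EXS Pool.Agent.Lib.ZL

theorem jZW : St_ZW := by
  intro n M _ ι _ _ D X d O T C hd hO ae hZ hT N hN
  obtain ⟨a, ha⟩ : ∃ a, N * d = a + 1 := ⟨N * d - 1, by have := Nat.mul_pos hN hd; omega⟩
  obtain ⟨C', A, h⟩ := hZ a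
  refine ⟨C', |C| ^ N * A, fun ε hε => ?_⟩
  obtain ⟨ρ, -, h1, h2, h3⟩ := h ε hε
  have e1 : ∀ i, (N : ℤ) * (d * X.l i) + (0 : ι → ℤ) i = X.l i + a * X.l i := fun i => by
    have : (N : ℤ) * d = a + 1 := by exact_mod_cast ha
    rw [Pi.zero_apply, ← mul_assoc, this]
    ring
  refine ⟨ρ, h1, fun x hx => by simpa only [e1] using h2 x hx, ?_⟩
  rw [ENNReal.ofReal_mul (by positivity)]
  refine le_trans ?_ (mul_le_mul_right h3 _)
  unfold Cx.I
  rw [← lintegral_const_mul' _ _ ENNReal.ofReal_ne_top]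
  refine lintegral_mono_ae (ae.mono fun x hx => ?_)
  rw [← ENNReal.ofReal_mul (by positivity)]
  refine ENNReal.ofReal_le_ofReal ?_
  have e2 : -lw D (fun i => ((X.l i + a * X.l i : ℤ) : ℝ)) x =
      N * -lw D (fun i => ((d * X.l i : ℤ) : ℝ)) x := by
    simp only [← e1, lw, Pi.zero_apply, add_zero, mul_neg, Finset.mul_sum, Int.cast_mul,
      Int.cast_natCast, mul_assoc]
  beta_reduce
  rw [sub_eq_add_neg, Real.exp_add, e2, Real.exp_nat_mul, ← mul_assoc, ← mul_pow]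
  exact mul_le_mul_of_nonneg_right (pow_le_pow_left₀ (hT x hx).1 ((hT x hx).2.trans
    (mul_le_mul_of_nonneg_right (le_abs_self C) (Real.exp_pos _).le)) N) (Real.exp_pos _).le

end Pool.Agent.Lib.NV6.J
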