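import Pool.Agent.Lib.NV2.Core
import Pool.Agent.Lib.NV5.Kit
import Pool.Agent.Lib.NV6.J_DEN
import Pool.Agent.Lib.NV6.J_FRM
import Pool.Agent.Lib.NV6.J_GEN
import Pool.Agent.Lib.NV6.J_IDL
import Pool.Agent.Lib.NV6.J_IDV
import Pool.Agent.Lib.NV6.J_J
import Pool.Agent.Lib.NV6.J_KIT
import Pool.Agent.Lib.NV6.J_LEV
import Pool.Agent.Lib.NV6.J_LM0
import Pool.Agent.Lib.NV6.J_LOW
import Pool.Agent.Lib.NV6.J_REM
import Pool.Agent.Lib.NV6.J_SGA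
import Pool.Agent.Lib.NV6.J_SK
import Pool.Agent.Lib.NV6.J_SKK
import Pool.Agent.Lib.NV6.J_SND
import Pool.Agent.Lib.NV6.J_ZDV
import Pool.Agent.Lib.NV6.J_ZW

/-! Project NV6, block J: the rows without hypotheses. -/

namespace Pool.Agent.Lib.NV6.J

theorem st_KIT : St_KIT := jKIT ZL.bPW ZL.st_UPB NV2.st_CHN

theorem st_REM : St_REM := jREM ZL.bPOL ZL.st_MU ZL.st_UPB

theorem st_SK : St_SK := jSK ZL.bPW ZL.st_MU ZL.st_UPB ZL.st_POG NV2.bDB NV2.st_CHN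

theorem st_SKK : St_SKK := jSKK st_SK

theorem st_ZDV : St_ZDV := jZDV st_KIT st_SKK jLM0 ZL.bPW ZL.st_POG ZL.st_UPB NV2.st_CHN

theorem st_LOW : St_LOW := jLOW st_KIT jFRM st_ZDV NV2.st_CHN ZL.st_UPB

theorem st_SND : St_SND := jSND st_KIT st_LOW

theorem st_IDL : St_IDL := jIDL st_KIT ZL.bPW ZL.st_FIN

theorem st_IDV : St_IDV := jIDV st_KIT st_SKK st_SND st_IDL

theorem st_LEV : St_LEV := jLEV st_KIT st_REM st_IDL ZL.st_MU

theorem st_GEN : St_GEN := jGEN ZL.st_UPB jFRM st_IDL st_IDV st_LEV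

theorem st_DEN : St_DEN := jDEN st_KIT NV5.st_bKIT

/-- The theorem of block J. -/
theorem st_J : St_J := jJ ZL.st_UPB st_KIT (jSGA jFRM) st_GEN st_DEN

end Pool.Agent.Lib.NV6.J
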