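import Pool.Agent.Lib.NV6.RBlue

/-! Project NV6, block R, row BND: integral elements are bounded. -/

open Polynomial Complex Set

set_option linter.unusedVariables false

noncomputable section

namespace Pool.Agent.Lib.R6

namespace BND

theorem adj {F : Type} [Field F] [Algebra ℂ F] (u : Set F) (R : ℝ) {a : F}
    (ha : a ∈ Algebra.adjoin ℂ u) : ∃ C : ℝ, 0 ≤ C ∧ ∀ p : Pt F,
      (∀ g ∈ u, g ∈ p.S ∧ normSq (p.v g) ≤ R) → a ∈ p.S ∧ ‖p.v a‖ ≤ C := by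
  induction ha using Algebra.adjoin_induction with
  | mem x hx =>
    refine ⟨Real.sqrt R, Real.sqrt_nonneg _, fun p hp => ⟨(hp x hx).1, ?_⟩⟩
    refine Real.le_sqrt_of_sq_le ?_
    rw [← normSq_eq_norm_sq]
    exact (hp x hx).2
  | algebraMap c =>
    exact ⟨‖c‖, norm_nonneg _, fun p hp => ⟨p.S.algebraMap_mem c, by rw [p.cst]⟩⟩
  | add x y _ _ hx hy =>
    obtain ⟨A, A0, hA⟩ := hx
    obtain ⟨B, B0, hB⟩ := hy
    refine ⟨A + B, add_nonneg A0 B0, fun p hp => ⟨p.S.add_mem (hA p hp).1 (hB p hp).1, ?_⟩⟩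
    rw [p.add _ (hA p hp).1 _ (hB p hp).1]
    exact (norm_add_le _ _).trans (add_le_add (hA p hp).2 (hB p hp).2)
  | mul x y _ _ hx hy =>
    obtain ⟨A, A0, hA⟩ := hx
    obtain ⟨B, B0, hB⟩ := hy
    refine ⟨A * B, mul_nonneg A0 B0, fun p hp => ⟨p.S.mul_mem (hA p hp).1 (hB p hp).1, ?_⟩⟩
    rw [p.mul _ (hA p hp).1 _ (hB p hp).1, norm_mul]
    exact mul_le_mul (hA p hp).2 (hB p hp).2 (norm_nonneg _) A0

theorem root {n : ℕ} {a : ℕ → ℂ} {B : ℕ → ℝ} {z : ℂ} (hB : ∀ i, ‖a i‖ ≤ B i)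
    (h : ∑ i ∈ Finset.range n, a i * z ^ i + z ^ n = 0) :
    ‖z‖ ≤ 1 + ∑ i ∈ Finset.range n, B i := by
  have B0 : ∀ i, 0 ≤ B i := fun i => (norm_nonneg _).trans (hB i)
  have S0 : 0 ≤ ∑ i ∈ Finset.range n, B i := Finset.sum_nonneg fun i _ => B0 i
  by_contra hz
  rw [not_le] at hz
  have z1 : 1 ≤ ‖z‖ := by linarith
  have e : z ^ n = -∑ i ∈ Finset.range n, a i * z ^ i := eq_neg_of_add_eq_zero_right h
  have k : ‖z‖ ^ n * ‖z‖ ≤ ‖z‖ ^ n * ∑ i ∈ Finset.range n, B i := by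
    calc ‖z‖ ^ n * ‖z‖ = ‖∑ i ∈ Finset.range n, a i * z ^ i‖ * ‖z‖ := by
          rw [← norm_pow, e, norm_neg]
      _ ≤ (∑ i ∈ Finset.range n, ‖a i * z ^ i‖) * ‖z‖ :=
          mul_le_mul_of_nonneg_right (norm_sum_le _ _) (norm_nonneg _)
      _ ≤ _ := by
          rw [Finset.sum_mul, Finset.mul_sum]
          refine Finset.sum_le_sum fun i hi => ?_
          rw [norm_mul, norm_pow, mul_assoc, ← pow_succ, mul_comm (‖z‖ ^ n)]
          exact mul_le_mul (hB i) (pow_le_pow_right₀ z1 (Finset.mem_range.1 hi)) (by positivity)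
            (B0 i)
  have := le_of_mul_le_mul_left k (pow_pos (by linarith) n)
  linarith

end BND

theorem rBND (hKIT : St_KIT) : St_BND := by
  intro F _ _ u f R hf
  obtain ⟨q, hq, h0⟩ := hf
  choose B B0 hB using fun i => BND.adj u R (q.coeff i).2
  refine ⟨(1 + ∑ i ∈ Finset.range q.natDegree, B i) ^ 2, sq_nonneg _, fun p hp hfS => ?_⟩
  obtain ⟨v0, -, -, vp, -, vs, -⟩ := hKIT F p
  rw [eval₂_eq_sum_range, Finset.sum_range_succ, hq.coeff_natDegree, map_one, one_mul] at h0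
  have mi : ∀ i, ((q.coeff i : F) * f ^ i) ∈ p.S := fun i =>
    p.S.mul_mem (hB i p hp).1 (p.S.pow_mem hfS i)
  have h1 : p.v (∑ i ∈ Finset.range q.natDegree, (q.coeff i : F) * f ^ i + f ^ q.natDegree) = 0 :=
    (congrArg p.v h0).trans v0
  rw [p.add _ (p.S.sum_mem fun i _ => mi i) _ (p.S.pow_mem hfS _),
    (vs ℕ _ _ fun i _ => mi i).1, vp f hfS,
    Finset.sum_congr rfl fun i _ => by
      rw [p.mul _ (hB i p hp).1 _ (p.S.pow_mem hfS i), vp f hfS]] at h1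
  rw [normSq_eq_norm_sq]
  exact pow_le_pow_left₀ (norm_nonneg _) (BND.root (fun i => (hB i p hp).2) h1) 2

end Pool.Agent.Lib.R6
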