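import Pool.Agent.Lib.NV6.RBlue

/-! Project NV6, block R: the Chow form. -/

open Set MvPolynomial

noncomputable section

namespace Pool.Agent.Lib.R6

namespace CHW

theorem coeff_scale {k F τ : Type} [CommRing k] [CommRing F] [Algebra k F] (u : τ → F)
    (f : MvPolynomial τ k) (D : ℕ) :
    (aeval (fun i => Polynomial.C (u i) * Polynomial.X) f).coeff D =
      aeval u (homogeneousComponent D f) := by
  induction f using MvPolynomial.induction_on' with
  | add p q hp hq => simp only [map_add, Polynomial.coeff_add, hp, hq]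
  | monomial d a =>
    rw [homogeneousComponent_of_mem (isHomogeneous_monomial a rfl), aeval_monomial, Finsupp.prod]
    simp only [mul_pow, Finset.prod_mul_distrib, Finset.prod_pow_eq_pow_sum, ← map_pow, ← map_prod,
      Polynomial.algebraMap_apply, ← mul_assoc, ← map_mul, Polynomial.coeff_C_mul_X_pow]
    rw [← Finsupp.degree_apply]
    split_ifs
    · rw [aeval_monomial, Finsupp.prod]
    · rw [map_zero]

theorem chow {k F σ : Type} [Field k] [Field F] [Algebra k F] [Fintype σ] (x : σ → F) (s₀ : σ)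
    (g : ℕ) (x0 : x s₀ ≠ 0) (hg : Algebra.trdeg k F = g) :
    ∃ f : MvPolynomial (Fin (g + 1) × σ) k, f ≠ 0 ∧ ∀ (A : Type) [CommRing A] [Algebra k A]
      [Algebra F A] [IsScalarTower k F A] (u : Fin (g + 1) × σ → A),
      (∀ i, ∑ s, u (i, s) * algebraMap F A (x s) = 0) → aeval u f = 0 := by
  classical
  let U : Fin (g + 1) × σ → MvPolynomial (Fin (g + 1) × {s // s ≠ s₀}) F := fun p =>
    if h : p.2 = s₀ then -∑ s : {s // s ≠ s₀}, X (p.1, s) * C (x s / x s₀) else X (p.1, ⟨p.2, h⟩)
  have dep : ¬ AlgebraicIndependent k U := fun h => by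
    have h1 := h.cardinalMk_le_trdeg
    rw [← trdeg_add_eq k F, hg, MvPolynomial.trdeg_of_isDomain, Cardinal.lift_id,
      Cardinal.mk_fintype, Cardinal.mk_fintype] at h1
    norm_cast at h1
    have : 0 < Fintype.card σ := Fintype.card_pos_iff.2 ⟨s₀⟩
    simp only [Fintype.card_prod, Fintype.card_fin, Fintype.card_subtype_compl,
      Fintype.card_unique] at h1
    obtain ⟨m, hm⟩ := Nat.exists_eq_add_one_of_ne_zero this.ne'
    rw [hm, Nat.add_sub_cancel, mul_add] at h1
    omega
  rw [algebraicIndependent_iff] at dep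
  push Not at dep
  obtain ⟨f, h1, h2⟩ := dep
  refine ⟨f, h2, fun A _ _ _ _ u hu => ?_⟩
  obtain ⟨ψ, hX, hC⟩ : ∃ ψ : MvPolynomial (Fin (g + 1) × {s // s ≠ s₀}) F →ₐ[k] A,
      (∀ p, ψ (X p) = u (p.1, p.2)) ∧ ∀ a, ψ (C a) = algebraMap F A a :=
    ⟨(aeval fun p : Fin (g + 1) × {s // s ≠ s₀} => u (p.1, p.2)).restrictScalars k,
      fun p => aeval_X _ _, fun a => aeval_C _ _⟩
  have e : ∀ p, ψ (U p) = u p := fun ⟨i, s⟩ => by
    by_cases h : s = s₀
    · subst h
      have := congrArg (· * algebraMap F A (x s)⁻¹) (hu i)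
      simp only [Fintype.sum_eq_add_sum_subtype_ne _ s, add_mul, Finset.sum_mul, mul_assoc,
        ← map_mul, mul_inv_cancel₀ x0, map_one, mul_one, zero_mul] at this
      simp only [U, dif_pos, map_neg, map_sum, map_mul ψ, hX, hC, div_eq_mul_inv]
      exact (eq_neg_of_add_eq_zero_left this).symm
    · simp only [U, dif_neg h, hX]
  rw [← funext e, ← comp_aeval_apply, h1, map_zero]

end CHW

theorem rCHW : St_CHW := by
  intro F _ _ k σ _ x s₀ g x0 hg
  obtain ⟨f, h2, h1⟩ := CHW.chow x s₀ g x0 hg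
  obtain ⟨D, hD⟩ : ∃ D, homogeneousComponent D f ≠ 0 := by
    by_contra c
    push Not at c
    exact h2 (by rw [← sum_homogeneousComponent f]; simp [c])
  refine ⟨D, _, hD, homogeneousComponent_isHomogeneous D f, fun u hu => ?_⟩
  rw [← CHW.coeff_scale, h1 (Polynomial F) _ fun i => ?_, Polynomial.coeff_zero]
  simp only [Polynomial.algebraMap_eq, mul_right_comm _ Polynomial.X, ← map_mul, ← Finset.sum_mul,
    ← map_sum, hu i, map_zero, zero_mul]

end Pool.Agent.Lib.R6
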