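import Pool.Agent.Lib.NV6.RBlue

/-! Project NV6, block R: finitely many projections. -/

open Polynomial Complex Set

noncomputable section

namespace Pool.Agent.Lib.R6

namespace COV

theorem prod_pow {R τ : Type} [CommRing R] (s : Finset τ) (l : τ → R[X]) (α : τ → ℕ)
    (h : ∀ p, (l p).natDegree ≤ 1) : (∏ p ∈ s, l p ^ α p).natDegree ≤ ∑ p ∈ s, α p ∧
      (∏ p ∈ s, l p ^ α p).coeff (∑ p ∈ s, α p) = ∏ p ∈ s, (l p).coeff 1 ^ α p := by
  classical
  induction s using Finset.induction_on with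
  | empty => simp
  | insert a s ha ih =>
    rw [Finset.prod_insert ha, Finset.sum_insert ha, Finset.prod_insert ha]
    have h1 : (l a ^ α a).natDegree ≤ α a :=
      natDegree_pow_le.trans (by simpa using Nat.mul_le_mul_left (α a) (h a))
    have h2 := coeff_pow_of_natDegree_le (m := α a) (h a)
    rw [mul_one] at h2
    exact ⟨natDegree_mul_le.trans (add_le_add h1 ih.1), by
      rw [coeff_mul_add_eq_of_natDegree_le h1 ih.1, h2, ih.2]⟩

theorem core {F : Type} [Field F] [Algebra ℂ F] (k : IntermediateField ℂ F) {σ ι : Type}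
    [Fintype σ] [Fintype ι] (x : σ → F) (D : ℕ) (Ch : MvPolynomial (ι × σ) k)
    (hh : Ch.IsHomogeneous D)
    (h0 : ∀ u : ι × σ → F, (∀ i, ∑ s, u (i, s) * x s = 0) → MvPolynomial.aeval u Ch = 0)
    (β : ι × σ → ℂ) (U : Set F) (ha : ep k β Ch ≠ 0)
    (hU : ∀ α, C (((Ch.coeff α : k) : F) / (ep k β Ch : F)) ∈
      cn U (lf (fun j s => β (j, s)) x)) (s : σ) :
    GI U (lf (fun j s => β (j, s)) x) 1 (x s) := by
  classical
  set y : ι → F := lf (fun j s => β (j, s)) x with hy
  set a : F := (ep k β Ch : F) with had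
  have ha' : a ≠ 0 := fun h => ha (Subtype.ext h)
  have hδ : ∀ p : ι × σ, (if p.2 = s then C (y p.1) * X else 0 : F[X]) ∈ cn U y := fun p => by
    split_ifs
    · exact Algebra.subset_adjoin (Or.inr ⟨p.1, rfl⟩)
    · exact zero_mem _
  let w : (ι × σ →₀ ℕ) → cn U y := fun α => ⟨_, hU α⟩
  let δ : ι × σ → cn U y := fun p => ⟨_, hδ p⟩
  let l : ι × σ → (cn U y)[X] := fun p => C (algebraMap ℂ (cn U y) (β p)) * X + C (-δ p)
  have hl : ∀ p, (l p).natDegree ≤ 1 := fun p => natDegree_linear_le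
  have hl1 : ∀ p, (l p).coeff 1 = algebraMap ℂ (cn U y) (β p) := fun p => by
    simp only [l, coeff_add, coeff_C_mul, coeff_X_one, mul_one, coeff_C_succ, add_zero]
  have hd : ∀ α ∈ Ch.support, ∑ p, α p = D := fun α hα => by
    by_contra hc
    exact MvPolynomial.mem_support_iff.1 hα
      (hh.coeff_eq_zero (by rwa [Finsupp.degree_eq_sum]))
  refine ⟨∑ α ∈ Ch.support, C (w α) * ∏ p, l p ^ α p, ?_, ?_⟩
  · refine monic_of_natDegree_le_of_coeff_eq_one D
      (natDegree_sum_le_of_forall_le _ _ fun α hα => (natDegree_C_mul_le _ _).trans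
        (hd α hα ▸ (prod_pow Finset.univ l α hl).1)) ?_
    rw [finsetSum_coeff]
    have e1 : ∀ α ∈ Ch.support, (C (w α) * ∏ p, l p ^ α p).coeff D =
        w α * ∏ p, algebraMap ℂ (cn U y) (β p) ^ α p := fun α hα => by
      rw [coeff_C_mul, ← hd α hα, (prod_pow Finset.univ l α hl).2]
      simp only [hl1]
    rw [Finset.sum_congr rfl e1]
    apply Subtype.ext
    have e2 : a = ∑ α ∈ Ch.support, ((Ch.coeff α : k) : F) *
        ∏ p, algebraMap ℂ F (β p) ^ α p := by
      rw [had, ep, MvPolynomial.eval_eq']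
      push_cast
      rfl
    have e3 : (1 : F[X]) = C (a / a) := by rw [div_self ha', C_1]
    rw [Subalgebra.coe_one, e3]
    nth_rewrite 1 [e2]
    rw [Finset.sum_div, map_sum]
    push_cast
    refine Finset.sum_congr rfl fun α _ => ?_
    rw [mul_div_right_comm, C_mul, map_prod]
    simp only [C_pow]
    rfl
  · have hu := h0 (fun p => algebraMap ℂ F (β p) * x s - if p.2 = s then y p.1 else 0) fun i => by
      simp only [sub_mul, Finset.sum_sub_distrib, ite_mul, zero_mul, Finset.sum_ite_eq',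
        Finset.mem_univ, if_true, hy, lf, Algebra.smul_def, Finset.sum_mul]
      rw [sub_eq_zero]
      exact Finset.sum_congr rfl fun m _ => by ring
    rw [MvPolynomial.aeval_def, MvPolynomial.eval₂_eq'] at hu
    have e1 : ∀ p, eval₂ (algebraMap (cn U y) F[X]) (C (x s) * X ^ 1) (l p) =
        C (algebraMap ℂ F (β p) * x s - if p.2 = s then y p.1 else 0) * X := fun p => by
      have e : algebraMap (cn U y) F[X] (algebraMap ℂ (cn U y) (β p)) =
          C (algebraMap ℂ F (β p)) := rfl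
      have e' : algebraMap (cn U y) F[X] (δ p) = if p.2 = s then C (y p.1) * X else 0 := rfl
      simp only [l, eval₂_add, eval₂_mul, eval₂_C, eval₂_X]
      rw [map_neg, e, e', pow_one, C_sub, C_mul]
      split_ifs
      · ring
      · rw [C_0]; ring
    rw [eval₂_finsetSum]
    have e2 : ∀ α ∈ Ch.support, eval₂ (algebraMap (cn U y) F[X]) (C (x s) * X ^ 1)
        (C (w α) * ∏ p, l p ^ α p) = C (a⁻¹ * (algebraMap k F (Ch.coeff α) *
          ∏ p, (algebraMap ℂ F (β p) * x s - if p.2 = s then y p.1 else 0) ^ α p)) * X ^ D :=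
      fun α hα => by
      have e : algebraMap (cn U y) F[X] (w α) = C (algebraMap k F (Ch.coeff α) / a) := rfl
      rw [eval₂_mul, eval₂_C, e, eval₂_finsetProd]
      simp only [eval₂_pow, e1, mul_pow]
      rw [Finset.prod_mul_distrib, Finset.prod_pow_eq_pow_sum, hd α hα, div_eq_inv_mul, C_mul,
        C_mul, C_mul, map_prod]
      simp only [C_pow]
      ring
    rw [Finset.sum_congr rfl e2, ← Finset.sum_mul, ← map_sum, ← Finset.mul_sum, hu]
    simp

end COV

theorem rCOV (hCHW : St_CHW) (hITP : St_ITP) : St_COV := by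
  intro F _ _ k σ _ x s₀ g hx hg
  obtain ⟨D, Ch, hne, hh, h0⟩ := hCHW F k σ x s₀ g hx hg
  obtain ⟨G, c, hG, hβ, hc⟩ := hITP F k (Fin (g + 1) × σ) D Ch hne
  obtain ⟨r, hr⟩ : ∃ r, G.card = r + 1 := ⟨_, (Nat.succ_pred_eq_of_pos hG.card_pos).symm⟩
  let e : Fin (r + 1) ≃ G := (G.equivFinOfCardEq hr).symm
  refine ⟨r, fun i j s => (e i).1 (j, s), fun i => (ep k (e i).1 Ch : F), fun i =>
    ⟨(ep k (e i).1 Ch).2, fun h => hβ _ (e i).2 (Subtype.ext h)⟩, fun i s => ?_⟩
  refine COV.core k x D Ch hh h0 (e i).1 _ (hβ _ (e i).2) (fun α => ?_) s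
  rw [hc Ch hh.totalDegree_le α]
  push_cast
  rw [Finset.sum_div, map_sum]
  refine Subalgebra.sum_mem _ fun b hb => ?_
  rw [smul_div_assoc, ← smul_C]
  refine Subalgebra.smul_mem _ (Algebra.subset_adjoin ?_) _
  refine Or.inl ⟨_, ⟨e.symm ⟨b, hb⟩, ?_⟩, rfl⟩
  simp only [Equiv.apply_symm_apply]

end Pool.Agent.Lib.R6
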