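import Pool.Agent.Lib.NV6.RBlue

/-! Project NV6, block R: elements of the field of ratios are quotients of forms. -/

open Complex Set MvPolynomial

noncomputable section

namespace Pool.Agent.Lib.R6

namespace DEN

theorem bnd {σ : Type} [Fintype σ] {k : ℕ} {R : MvPolynomial σ ℂ} (hR : R.IsHomogeneous k) :
    ∃ C, 0 ≤ C ∧ ∀ y : σ → ℂ, normSq (eval y R) ≤ C * (∑ i, normSq (y i)) ^ k := by
  refine ⟨(∑ d ∈ R.support, ‖R.coeff d‖) ^ 2, sq_nonneg _, fun y => ?_⟩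
  obtain ⟨N, hN⟩ : ∃ N, N = ∑ i, normSq (y i) := ⟨_, rfl⟩
  have h0 : 0 ≤ N := hN ▸ Finset.sum_nonneg fun _ _ => normSq_nonneg _
  have h1 : ∀ a, ‖y a‖ ≤ √N := fun a => Real.le_sqrt_of_sq_le (by
    rw [← normSq_eq_norm_sq, hN]
    exact Finset.single_le_sum (f := fun a => normSq (y a)) (fun _ _ => normSq_nonneg _)
      (Finset.mem_univ a))
  have h2 : ‖eval y R‖ ≤ (∑ d ∈ R.support, ‖R.coeff d‖) * √N ^ k := by
    rw [eval_eq', Finset.sum_mul]
    refine (norm_sum_le _ _).trans (Finset.sum_le_sum fun d hd => ?_)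
    have h : k = ∑ i, d i := by
      rw [hR.degree_eq_sum_deg_support hd]
      exact Finset.sum_subset (Finset.subset_univ _) fun i _ hi => Finsupp.notMem_support_iff.1 hi
    rw [norm_mul, norm_prod, h, ← Finset.prod_pow_eq_pow_sum]
    exact mul_le_mul_of_nonneg_left (Finset.prod_le_prod (fun _ _ => norm_nonneg _) fun i _ =>
      (norm_pow _ _).trans_le (pow_le_pow_left₀ (norm_nonneg _) (h1 i) _)) (norm_nonneg _)
  rw [normSq_eq_norm_sq, ← hN]
  refine (pow_le_pow_left₀ (norm_nonneg _) h2 2).trans_eq ?_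
  rw [mul_pow, ← pow_mul, mul_comm k 2, pow_mul, Real.sq_sqrt h0]

variable {F : Type} [Field F] [Algebra ℂ F] {σ : Type} {h : σ → F} {s₀ : σ}

theorem one (h0 : ∀ s, h s ≠ 0) {f : F}
    (hf : f ∈ IntermediateField.adjoin ℂ (range fun s => h s / h s₀)) :
    ∃ (e : ℕ) (Q₀ Q₁ : MvPolynomial σ ℂ), Q₀.IsHomogeneous e ∧ Q₁.IsHomogeneous e ∧
      aeval h Q₀ ≠ 0 ∧ f * aeval h Q₀ = aeval h Q₁ := by
  induction hf using IntermediateField.adjoin_induction with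
  | mem x hx =>
    obtain ⟨s, rfl⟩ := hx
    exact ⟨1, X s₀, X s, isHomogeneous_X _ _, isHomogeneous_X _ _, by simpa using h0 s₀,
      by simp [h0 s₀]⟩
  | algebraMap c =>
    exact ⟨0, 1, C c, isHomogeneous_one _ _, isHomogeneous_C _ _, by simp, by simp⟩
  | add x y _ _ a b =>
    obtain ⟨e, P, Q, a1, a2, a3, a4⟩ := a
    obtain ⟨e', P', Q', b1, b2, b3, b4⟩ := b
    refine ⟨e + e', P * P', Q * P' + P * Q', a1.mul b1, (a2.mul b1).add (a1.mul b2),
      by rw [map_mul]; exact mul_ne_zero a3 b3, ?_⟩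
    rw [map_add, map_mul, map_mul, map_mul, ← a4, ← b4]
    ring
  | inv x _ a =>
    obtain ⟨e, P, Q, a1, a2, a3, a4⟩ := a
    by_cases hx : x = 0
    · exact ⟨e, P, Q, a1, a2, a3, by rw [← a4, hx, inv_zero]⟩
    · exact ⟨e, Q, P, a2, a1, a4 ▸ mul_ne_zero hx a3, by rw [← a4, inv_mul_cancel_left₀ hx]⟩
  | mul x y _ _ a b =>
    obtain ⟨e, P, Q, a1, a2, a3, a4⟩ := a
    obtain ⟨e', P', Q', b1, b2, b3, b4⟩ := b
    refine ⟨e + e', P * P', Q * Q', a1.mul b1, a2.mul b2,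
      by rw [map_mul]; exact mul_ne_zero a3 b3, ?_⟩
    rw [map_mul, map_mul, ← a4, ← b4]
    ring

theorem two (h0 : ∀ s, h s ≠ 0) (V : Finset F)
    (hV : ∀ f ∈ V, f ∈ IntermediateField.adjoin ℂ (range fun s => h s / h s₀) ∧ f ≠ 0) :
    ∃ (e : ℕ) (Q : MvPolynomial σ ℂ), Q.IsHomogeneous e ∧ aeval h Q ≠ 0 ∧
      ∀ f ∈ V, ∃ R : MvPolynomial σ ℂ, R.IsHomogeneous e ∧ aeval h Q = f * aeval h R := by
  classical
  induction V using Finset.induction_on with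
  | empty => exact ⟨0, 1, isHomogeneous_one _ _, by simp, by simp⟩
  | insert g V _ ih =>
    obtain ⟨e, Q, a1, a2, a3⟩ := ih fun f hf => hV f (Finset.mem_insert_of_mem hf)
    obtain ⟨g1, g2⟩ := hV g (Finset.mem_insert_self _ _)
    obtain ⟨e', P, P', b1, b2, b3, b4⟩ := one h0 (inv_mem g1)
    refine ⟨e + e', Q * P, a1.mul b1, by rw [map_mul]; exact mul_ne_zero a2 b3, fun f hf => ?_⟩
    rcases Finset.mem_insert.1 hf with rfl | hf
    · refine ⟨Q * P', a1.mul b2, ?_⟩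
      rw [map_mul, map_mul, ← b4, mul_left_comm f, mul_inv_cancel_left₀ g2]
    · obtain ⟨R, c1, c2⟩ := a3 f hf
      exact ⟨R * P, c1.mul b1, by rw [map_mul, map_mul, c2, mul_assoc]⟩

end DEN

theorem rDEN (hK : St_KIT) : St_DEN := by
  intro F _ _ σ _ h s₀ h0
  refine ⟨fun f hf => DEN.one h0 hf, fun V hV => ?_⟩
  obtain ⟨e, Q, a1, a2, a3⟩ := DEN.two h0 V hV
  choose! R r1 r2 using a3
  choose! C c0 c1 using fun f hf => DEN.bnd (r1 f hf)
  have s0 : 0 ≤ ∑ f ∈ V, C f := Finset.sum_nonneg c0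
  refine ⟨e, Q, ∑ f ∈ V, C f + 1, a1, a2, by linarith, fun p hp f hf hS => ?_⟩
  obtain ⟨k1, k2⟩ := (hK F p).2.2.2.2.2.2 σ h (R f) hp
  rw [r2 f hf, p.mul _ hS _ k1, k2, normSq_mul, mul_comm]
  refine mul_le_mul_of_nonneg_right ((c1 f hf _).trans (mul_le_mul_of_nonneg_right ?_
    (pow_nonneg (Finset.sum_nonneg fun _ _ => normSq_nonneg _) _))) (normSq_nonneg _)
  linarith [Finset.single_le_sum c0 hf]

end Pool.Agent.Lib.R6
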