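import Pool.Agent.Lib.NV6.RBlue

/-! Project NV6, block R: evaluation preserves integrality. -/

open Polynomial Set

noncomputable section

namespace Pool.Agent.Lib.R6

namespace EVG

theorem gen {R S F : Type} [CommRing R] [CommRing S] [CommRing F] [Nontrivial S] (φ : R →+* S) (e : R →+* F)
    (hφ : Function.Injective φ) (A : Subring S) (B : Subring F)
    (h : ∀ a ∈ A, ∃ t, e t ∈ B ∧ φ t = a) {f : R} (hf : IsIntegral A (φ f)) : IsIntegral B (e f) := by
  obtain ⟨p, hp, hz⟩ := hf
  let T : Subring R := B.comap e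
  have hl : p.map (algebraMap A S) ∈ lifts (φ.comp T.subtype) := by
    rw [lifts_iff_coeff_lifts]
    intro i
    obtain ⟨t, ht, e1⟩ := h (p.coeff i) (p.coeff i).2
    exact ⟨⟨t, ht⟩, by rw [coeff_map]; exact e1⟩
  obtain ⟨q, hq, -, hm⟩ := lifts_and_natDegree_eq_and_monic hl (hp.map _)
  have h0 : q.eval₂ T.subtype f = 0 := hφ (by
    rw [hom_eval₂, map_zero, ← eval_map, hq, eval_map, hz])
  let ψ : T →+* B := (e.comp T.subtype).codRestrict B fun t => t.2
  refine ⟨q.map ψ, hm.map _, ?_⟩
  rw [eval₂_map]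
  have h1 := hom_eval₂ q T.subtype e f
  rw [h0, map_zero] at h1
  exact h1.symm

end EVG

theorem rEVG : St_EVG := by
  intro F _ _ k σ _ y u f β hi hu hf
  let e : MvPolynomial σ k →+* F := (algebraMap k F).comp (MvPolynomial.eval fun i => algebraMap ℂ k (β i))
  refine EVG.gen (hy k y) e hi (cn u y).toSubring (Algebra.adjoin ℂ u).toSubring (fun a ha => ?_) hf
  change a ∈ Algebra.adjoin ℂ _ at ha
  induction ha using Algebra.adjoin_induction with
  | mem x hx =>
    rcases hx with ⟨g, hg, rfl⟩ | ⟨i, rfl⟩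
    · refine ⟨MvPolynomial.C ⟨g, hu hg⟩, ?_, by simp [hy]⟩
      have : e (MvPolynomial.C ⟨g, hu hg⟩) = g := by simp [e]
      rw [this]
      exact Algebra.subset_adjoin hg
    · refine ⟨MvPolynomial.X i, ?_, by simp [hy]⟩
      have : e (MvPolynomial.X i) = algebraMap ℂ F (β i) := by
        simp only [e, RingHom.comp_apply, MvPolynomial.eval_X]
        exact (IsScalarTower.algebraMap_apply ℂ k F _).symm
      rw [this]
      exact Subalgebra.algebraMap_mem _ _
  | algebraMap c =>
    refine ⟨MvPolynomial.C (algebraMap ℂ k c), ?_, ?_⟩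
    · have : e (MvPolynomial.C (algebraMap ℂ k c)) = algebraMap ℂ F c := by
        simp only [e, RingHom.comp_apply, MvPolynomial.eval_C]
        exact (IsScalarTower.algebraMap_apply ℂ k F _).symm
      rw [this]
      exact Subalgebra.algebraMap_mem _ _
    · simp only [hy, MvPolynomial.eval₂Hom_C, RingHom.comp_apply]
      rw [← IsScalarTower.algebraMap_apply ℂ k F, Polynomial.algebraMap_apply]
  | add a b _ _ ha hb =>
    obtain ⟨s, hs, rfl⟩ := ha
    obtain ⟨t, ht, rfl⟩ := hb
    exact ⟨s + t, by rw [map_add]; exact add_mem hs ht, map_add _ _ _⟩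
  | mul a b _ _ ha hb =>
    obtain ⟨s, hs, rfl⟩ := ha
    obtain ⟨t, ht, rfl⟩ := hb
    exact ⟨s * t, by rw [map_mul]; exact mul_mem hs ht, map_mul _ _ _⟩

end Pool.Agent.Lib.R6
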