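import Pool.Agent.Lib.NV6.RBlue

/-! Project NV6, block R: the minimum of finitely many norms is a quotient of two norms. -/

open Polynomial Complex Set

noncomputable section

namespace Pool.Agent.Lib.R6

namespace SEG

theorem idx (κ : Type) [Fintype κ] [Nonempty κ] : ∃ r, Nonempty (Fin (r + 1) ≃ κ) := by
  obtain ⟨r, hr⟩ := Nat.exists_eq_succ_of_ne_zero (Fintype.card_pos (α := κ)).ne'
  exact ⟨r, ⟨(Fintype.equivFinOfCardEq hr).symm⟩⟩

theorem nprod (hK : St_KIT) {F : Type} [Field F] [Algebra ℂ F] (p : Pt F) {s : ℕ}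
    {r : Fin s → ℕ} (B : ∀ i, Fin (r i) → F) (hB : ∀ i j, B i j ∈ p.S) :
    ∑ φ : ∀ i, Fin (r i), normSq (p.v (∏ i, B i (φ i))) = ∏ i, p.N (B i) := by
  simp only [Pt.N]
  rw [Finset.prod_univ_sum, Fintype.piFinset_univ]
  refine Finset.sum_congr rfl fun φ _ => ?_
  rw [((hK F p).2.2.2.2.2.1 _ Finset.univ (fun i => B i (φ i)) fun i _ => hB i _).2, map_prod]

end SEG

open SEG in
theorem rSEG (hK : St_KIT) : St_SEG := by
  classical
  intro F _ _ k s r B hB
  obtain ⟨r₁, ⟨e₁⟩⟩ := idx (Fin (s + 1) × ∀ i, Fin (r i + 1))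
  obtain ⟨r₂, ⟨e₂⟩⟩ := idx (∀ i, Fin (r i + 1))
  let B₁ : Fin (s + 1) → ∀ i, Fin (r i + 1) → F := fun l i j => if i = l then 1 else B i j
  have hB₁ : ∀ l i j, B₁ l i j ∈ k ∧ B₁ l i j ≠ 0 := fun l i j => by
    by_cases h : i = l
    · simp only [B₁, if_pos h]; exact ⟨k.one_mem, one_ne_zero⟩
    · simp only [B₁, if_neg h]; exact hB i j
  refine ⟨r₁, r₂, fun j => ∏ i, B₁ (e₁ j).1 i ((e₁ j).2 i), fun j => ∏ i, B i (e₂ j i),
    ∑ l, (r l + 1 : ℝ), by positivity,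
    fun j => ⟨prod_mem fun i _ => (hB₁ _ _ _).1, Finset.prod_ne_zero_iff.2 fun i _ => (hB₁ _ _ _).2⟩,
    fun j => ⟨prod_mem fun i _ => (hB _ _).1, Finset.prod_ne_zero_iff.2 fun i _ => (hB _ _).2⟩,
    fun p hp => ?_⟩
  have n0 : ∀ i, 0 ≤ p.N (B i) := fun i => Finset.sum_nonneg fun _ _ => normSq_nonneg _
  have h2 : p.N (fun j => ∏ i, B i (e₂ j i)) = ∏ i, p.N (B i) :=
    (e₂.sum_comp fun φ => normSq (p.v (∏ i, B i (φ i)))).trans
      (nprod hK p (r := fun i => r i + 1) B hp)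
  have h1 : p.N (fun j => ∏ i, B₁ (e₁ j).1 i ((e₁ j).2 i)) =
      ∑ l, (r l + 1 : ℝ) * ∏ i ∈ Finset.univ.erase l, p.N (B i) := by
    refine (e₁.sum_comp fun q => normSq (p.v (∏ i, B₁ q.1 i (q.2 i)))).trans ?_
    rw [Fintype.sum_prod_type]
    refine Finset.sum_congr rfl fun l _ => ?_
    rw [nprod hK p (r := fun i => r i + 1) (B₁ l) fun i j => by
      by_cases h : i = l
      · simp only [B₁, if_pos h]; exact p.S.one_mem
      · simp only [B₁, if_neg h]; exact hp i j,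
      ← Finset.mul_prod_erase _ _ (Finset.mem_univ l)]
    refine congrArg₂ _ ?_ (Finset.prod_congr rfl fun i hi => ?_)
    · simp [Pt.N, B₁, (hK F p).2.1]
    · simp only [Pt.N, B₁, if_neg (Finset.ne_of_mem_erase hi)]
  have e0 : ∀ l, 0 ≤ ∏ i ∈ Finset.univ.erase l, p.N (B i) := fun l =>
    Finset.prod_nonneg fun i _ => n0 i
  rw [h1, h2]
  refine ⟨fun i => ?_, ?_⟩
  · rw [← Finset.mul_prod_erase _ _ (Finset.mem_univ i), mul_comm]
    refine mul_le_mul_of_nonneg_right ?_ (n0 i)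
    refine le_trans ?_ (Finset.single_le_sum
      (f := fun l => (r l + 1 : ℝ) * ∏ i ∈ Finset.univ.erase l, p.N (B i))
      (fun l _ => mul_nonneg (by positivity) (e0 l)) (Finset.mem_univ i))
    exact le_mul_of_one_le_left (e0 i) (le_add_of_nonneg_left (Nat.cast_nonneg _))
  · obtain ⟨i, -, hi⟩ := Finset.exists_min_image Finset.univ (fun i => p.N (B i))
      Finset.univ_nonempty
    refine ⟨i, ?_⟩
    rw [Finset.sum_mul, Finset.sum_mul]
    refine Finset.sum_le_sum fun l _ => ?_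
    rw [mul_assoc, ← Finset.mul_prod_erase _ _ (Finset.mem_univ l), mul_comm (p.N (B l))]
    exact mul_le_mul_of_nonneg_left (mul_le_mul_of_nonneg_left (hi l (Finset.mem_univ l)) (e0 l))
      (by positivity)

end Pool.Agent.Lib.R6
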