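import Pool.Agent.Lib.NV6.RBlue2
import Pool.Agent.Lib.NV6.R_SEG

/-! Project NV6, block R: the two families of sections. -/

open scoped Classical
open Set Complex

noncomputable section

namespace Pool.Agent.Lib.R6

open Pool.Agent.Lib.SV (E nsq)
open Pool.Agent.Lib.HS32 Pool.Agent.Lib.EX Pool.Agent.Lib.EXS Pool.Agent.Lib.ZL
open Pool.Agent.Lib.NV5 (Rg FM Sb_KIT)

theorem rFAM (hPT : St_PT) (hNKIT : Sb_KIT) : St_FAM := by
  intro n M _ ι _ _ D F _ _ Φ pt k T L s₀ s₁ s₂ γ A B hp hT g0 g1 hk hA hB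
  obtain ⟨r₁, ⟨e₁⟩⟩ := SEG.idx (Fin (s₁ + 1) × Fin (s₀ + 1))
  obtain ⟨r₂, ⟨e₂⟩⟩ := SEG.idx (Fin (s₂ + 1) × Fin (s₀ + 1))
  obtain ⟨w, hw, w0, hU⟩ := (hPT n M ι D F Φ).2
    (Finset.univ.image (fun i => T * A (e₁ i).1 * γ (e₁ i).2) ∪
      Finset.univ.image fun j => B (e₂ j).1 * γ (e₂ j).2)
  choose a ha ea using fun i => hU _ (Finset.mem_union_left _
    (Finset.mem_image_of_mem _ (Finset.mem_univ i)))
  choose b hb eb using fun j => hU _ (Finset.mem_union_right _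
    (Finset.mem_image_of_mem _ (Finset.mem_univ j)))
  have ew : Φ.ev w ≠ 0 := fun h => w0 (Φ.inj w hw h)
  have hmono := (hNKIT n M ι D).1
  have ev0 : Φ.ev 0 = 0 := by
    have := Φ.smul 0 w hw
    rwa [zero_smul, zero_smul] at this
  have gk : ∀ i, γ i ∈ k := fun i => hk ▸ IntermediateField.subset_adjoin _ _ ⟨i, rfl⟩
  choose Qa hQa using ha
  choose Qb hQb using hb
  refine ⟨r₁, r₂, fun s => ∑ i, |Qa i s| + ∑ j, |Qb j s| + |L s|, a, b,
    fun x => (pt x).N γ * normSq (w x), ⟨fun i => ⟨hmono _ _ _ (fun s => ?_) (hQa i), fun h => ?_⟩,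
      fun j => ⟨hmono _ _ _ (fun s => ?_) (hQb j), fun h => ?_⟩, fun i j => ?_, fun j j' => ?_, ?_⟩,
    fun x hx xT xg xA xB => ⟨?_, ?_, ?_⟩⟩
  · have h1 : |Qa i s| ≤ ∑ i, |Qa i s| :=
      Finset.single_le_sum (f := fun i => |Qa i s|) (fun _ _ => abs_nonneg _) (Finset.mem_univ i)
    have h2 : 0 ≤ ∑ j, |Qb j s| := Finset.sum_nonneg fun _ _ => abs_nonneg _
    have h3 := le_abs_self (Qa i s)
    have h4 := neg_abs_le (L s)
    beta_reduce
    linarith
  · have := ea i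
    rw [h, ev0] at this
    exact mul_ne_zero (mul_ne_zero (mul_ne_zero hT (hA _).2) (g1 _)) ew this.symm
  · have h1 : |Qb j s| ≤ ∑ j, |Qb j s| :=
      Finset.single_le_sum (f := fun j => |Qb j s|) (fun _ _ => abs_nonneg _) (Finset.mem_univ j)
    have h2 : 0 ≤ ∑ i, |Qa i s| := Finset.sum_nonneg fun _ _ => abs_nonneg _
    have h3 := le_abs_self (Qb j s)
    have h4 := abs_nonneg (L s)
    beta_reduce
    linarith
  · have := eb j
    rw [h, ev0] at this
    exact mul_ne_zero (mul_ne_zero (hB _).2 (g1 _)) ew this.symm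
  · rw [ea, eb, ← mul_assoc T, mul_div_mul_right _ _ ew, mul_assoc T, mul_div_mul_left _ _ hT]
    exact div_mem (mul_mem (hA _).1 (gk _)) (mul_mem (hB _).1 (gk _))
  · rw [eb, eb, mul_div_mul_right _ _ ew]
    exact div_mem (mul_mem (hB _).1 (gk _)) (mul_mem (hB _).1 (gk _))
  · rw [hk, IntermediateField.adjoin_le_iff]
    rintro _ ⟨α, rfl⟩
    have e : γ α = (Φ.ev (b (e₂.symm ((e₂ 0).1, α))) / Φ.ev (b 0)) /
        (Φ.ev (b (e₂.symm ((e₂ 0).1, 0))) / Φ.ev (b 0)) := by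
      have h1 := (hB (e₂ 0).1).2
      have h2 := g1 (e₂ 0).2
      rw [eb, eb, eb, Equiv.apply_symm_apply, Equiv.apply_symm_apply, g0]
      field_simp
    rw [e]
    exact div_mem (IntermediateField.subset_adjoin _ _ ⟨_, rfl⟩)
      (IntermediateField.subset_adjoin _ _ ⟨_, rfl⟩)
  · exact mul_nonneg (Finset.sum_nonneg fun _ _ => normSq_nonneg _) (normSq_nonneg _)
  · have e : ∀ i, a i x = (pt x).v T * (pt x).v (A (e₁ i).1) * (pt x).v (γ (e₁ i).2) * w x :=
      fun i => by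
        rw [← (hp.ev x hx _ ⟨_, hQa i⟩).2, ea, (pt x).mul _ (mul_mem (mul_mem xT (xA _)) (xg _)) _
          (hp.ev x hx _ hw).1, (pt x).mul _ (mul_mem xT (xA _)) _ (xg _), (pt x).mul _ xT _ (xA _),
          (hp.ev x hx _ hw).2]
    simp only [nsq, e, Pt.N, map_mul]
    rw [e₁.sum_comp fun q => normSq ((pt x).v T) * normSq ((pt x).v (A q.1)) *
      normSq ((pt x).v (γ q.2)) * normSq (w x), Fintype.sum_prod_type]
    simp only [Finset.mul_sum, Finset.sum_mul]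
    rw [Finset.sum_comm]
    exact Finset.sum_congr rfl fun _ _ => Finset.sum_congr rfl fun _ _ => by ring
  · have e : ∀ j, b j x = (pt x).v (B (e₂ j).1) * (pt x).v (γ (e₂ j).2) * w x :=
      fun j => by
        rw [← (hp.ev x hx _ ⟨_, hQb j⟩).2, eb, (pt x).mul _ (mul_mem (xB _) (xg _)) _
          (hp.ev x hx _ hw).1, (pt x).mul _ (xB _) _ (xg _), (hp.ev x hx _ hw).2]
    simp only [nsq, e, Pt.N, map_mul]
    rw [e₂.sum_comp fun q => normSq ((pt x).v (B q.1)) *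
      normSq ((pt x).v (γ q.2)) * normSq (w x), Fintype.sum_prod_type]
    simp only [Finset.mul_sum, Finset.sum_mul]
    rw [Finset.sum_comm]
    exact Finset.sum_congr rfl fun _ _ => Finset.sum_congr rfl fun _ _ => by ring

end Pool.Agent.Lib.R6
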