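import Pool.Agent.Lib.NV6.RBlue

/-! Project NV6, block R, row FGK: intermediate fields are finitely generated. -/

open IntermediateField Set
open scoped Classical IntermediateField.algebraAdjoinAdjoin

noncomputable section

namespace Pool.Agent.Lib.R6

namespace FGK

/-- An algebraic subextension of a finitely generated extension is finite. -/
theorem fin (K L F : Type) [Field K] [Field L] [Field F] [Algebra K L] [Algebra L F] [Algebra K F]
    [IsScalarTower K L F] [Algebra.IsAlgebraic K L] [Algebra.EssFiniteType K F] :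
    FiniteDimensional K L := by
  obtain ⟨s, hT⟩ := exists_isTranscendenceBasis K F
  have := hT.isAlgebraic_field
  have := Algebra.EssFiniteType.of_comp K (adjoin K (Set.range ((↑) : s → F))) F
  have : Module.Finite (adjoin K (Set.range ((↑) : s → F))) F :=
    Algebra.finite_of_essFiniteType_of_isAlgebraic
  let b := Module.Basis.ofVectorSpace K L
  have h1 : LinearIndependent (Algebra.adjoin K (Set.range ((↑) : s → F)))
      fun i => algebraMap L F (b i) := by
    refine linearIndependent_iff'.2 fun u g hg i hi => ?_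
    have h2 : ∀ i, ∃ P : MvPolynomial s K, MvPolynomial.aeval ((↑) : s → F) P = g i := fun i =>
      (Algebra.adjoin_range_eq_range_aeval K ((↑) : s → F)).le (g i).2
    choose P hP using h2
    have h4 : ∑ i ∈ u, MvPolynomial.C (b i) * MvPolynomial.map (algebraMap K L) (P i) = 0 := by
      refine (hT.1.extendScalars L).eq_zero_of_aeval_eq_zero _ ?_
      rw [map_sum, ← hg]
      refine Finset.sum_congr rfl fun i _ => ?_
      rw [map_mul, MvPolynomial.aeval_C, MvPolynomial.aeval_map_algebraMap, hP, mul_comm]
      rfl
    have h5 : P i = 0 := MvPolynomial.ext _ _ fun α => by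
      have h6 := congrArg (MvPolynomial.coeff α) h4
      rw [MvPolynomial.coeff_sum, MvPolynomial.coeff_zero] at h6
      refine linearIndependent_iff'.1 b.linearIndependent u (fun i => (P i).coeff α) ?_ i hi
      rw [← h6]
      refine Finset.sum_congr rfl fun i _ => ?_
      rw [MvPolynomial.coeff_C_mul, MvPolynomial.coeff_map, Algebra.smul_def, mul_comm]
    exact Subtype.ext (by rw [← hP, h5, map_zero]; rfl)
  have := ((LinearIndependent.iff_fractionRing _
    (adjoin K (Set.range ((↑) : s → F)))).1 h1).finite
  exact Module.Finite.of_basis b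

/-- A subextension of a finitely generated extension is finitely generated. -/
theorem ess (K L F : Type) [Field K] [Field L] [Field F] [Algebra K L] [Algebra L F] [Algebra K F]
    [IsScalarTower K L F] [Algebra.EssFiniteType K F] : Algebra.EssFiniteType K L := by
  have : FinTrdeg K L := FinTrdeg.of_trdeg
    (((self_le_add_right _ _).trans_eq (trdeg_add_eq K L (A := F))).trans_lt
      (trdeg_lt_aleph0 K F))
  obtain ⟨s, hs⟩ := exists_finset_isTranscendenceBasis K L
  have := hs.isAlgebraic_field
  have : Algebra.EssFiniteType K (adjoin K (Set.range ((↑) : s → L))) :=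
    essFiniteType_iff.2 (fg_adjoin_of_finite (Set.finite_range _))
  have := Algebra.EssFiniteType.of_comp K (adjoin K (Set.range ((↑) : s → L))) F
  have := fin (adjoin K (Set.range ((↑) : s → L))) L F
  exact Algebra.EssFiniteType.comp K (adjoin K (Set.range ((↑) : s → L))) L

end FGK

theorem rFGK : St_FGK := by
  intro F _ _ k n hfg hn
  have : Algebra.EssFiniteType ℂ F := fg_top_iff.1 hfg
  refine ⟨Cardinal.lt_aleph0.1 (((self_le_add_left _ _).trans_eq
    (trdeg_add_eq ℂ k (A := F))).trans_lt (trdeg_lt_aleph0 ℂ F)), ?_, fun K ξ hξ hK => ?_⟩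
  · obtain ⟨t, ht⟩ : k.FG := essFiniteType_iff.1 (FGK.ess ℂ k F)
    refine ⟨(t.erase 0).card, Fin.cons 1 fun i => ((t.erase 0).equivFin.symm i : F), rfl,
      fun i => ?_, le_antisymm ?_ (adjoin_le_iff.2 ?_)⟩
    · refine Fin.cases one_ne_zero (fun j => ?_) i
      exact Finset.ne_of_mem_erase ((t.erase 0).equivFin.symm j).2
    · refine ht.ge.trans (adjoin_le_iff.2 fun f hf => ?_)
      by_cases h0 : f = 0
      · rw [h0]
        exact zero_mem (adjoin ℂ _)
      · refine subset_adjoin _ _
          ⟨((t.erase 0).equivFin ⟨f, Finset.mem_erase.2 ⟨h0, hf⟩⟩).succ, ?_⟩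
        rw [Fin.cons_succ, Equiv.symm_apply_apply]
    · rintro _ ⟨i, rfl⟩
      refine Fin.cases (one_mem k) (fun j => ?_) i
      exact ht.le (subset_adjoin _ _ (Finset.mem_of_mem_erase ((t.erase 0).equivFin.symm j).2))
  · have hb : IsTranscendenceBasis ℂ ξ :=
      hξ.isTranscendenceBasis_of_trdeg_le_of_finite (by rw [hn, Cardinal.mk_fin])
    have hle : adjoin ℂ (range ξ) ≤ K := adjoin_le_iff.2 (range_subset_iff.2 hK)
    exact ⟨fun f => IsAlgebraic.tower_top_of_subalgebra_le
      (A := (adjoin ℂ (range ξ)).toSubalgebra) (B := K.toSubalgebra) hle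
      (hb.isAlgebraic_field.isAlgebraic f)⟩

end Pool.Agent.Lib.R6
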