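import Pool.Agent.Lib.NV6.RBlue2

/-! Project NV6, block R: the ring of sections is generated by the coordinates in large degree. -/

open scoped Classical Topology ContDiff ENNReal
open Set MeasureTheory Complex Metric Filter

noncomputable section

namespace Pool.Agent.Lib.R6

open Pool.Agent.Lib.SV (E nsq)
open Pool.Agent.Lib.HS32 Pool.Agent.Lib.EX Pool.Agent.Lib.EXS Pool.Agent.Lib.ZL
open Pool.Agent.Lib.ZQ (HqO offz)
open Pool.Agent.Lib.NV6.J (Fr Ps Up Nj)

theorem rGEN (hP : ZL.St_PW) (hM : ZL.St_MU) (hU : ZL.St_UPB) (hL : ZL.St_LWC)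
    (hJKIT : NV6.J.St_KIT) (hSK : NV6.J.St_SK) (hNKIT : NV5.Sb_KIT) : St_GEN := by
  intro n M _ ι _ _ D X r t hT
  obtain ⟨hO, -, ladd, lsub, lsm, lneg, -⟩ := hP n M ι D
  obtain ⟨C, C0, hC⟩ := hL n M ι D X X.o
  obtain ⟨B, hB⟩ := X.αb
  obtain ⟨ht, K, hK⟩ := hT.kd
  have e1 : offz D (fun _ => (1 : ℂ)) = off D := Set.ext fun x => and_iff_left one_ne_zero
  have hg : HoO D fun _ => (1 : ℂ) := fun d z _ _ =>
    Eventually.of_forall fun _ => differentiableAt_const _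
  have hx : ∃ x ∈ off D, (fun _ => (1 : ℂ)) x ≠ 0 := by
    obtain ⟨-, -, -, -, -, h1, h2, -⟩ := hNKIT n M ι D
    by_contra h
    exact h2 (funext fun x => h1.2 x fun hx => h ⟨x, hx, one_ne_zero⟩)
  have pos : ∀ x ∈ off D, 0 < nsq (t · x) := fun x hx => by
    by_contra h
    have h0 : nsq (t · x) = 0 := le_antisymm (not_lt.1 h) (SV.nsq_nonneg _)
    have := hK x hx
    rw [h0, mul_zero] at this
    exact this.not_gt (Real.exp_pos _)
  obtain ⟨ae, hq⟩ := hT.hall _ hg hx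
  have hF : Fr X (fun _ => 1) (fun i => X.e i) t := ⟨hg, hx, ae, hq, ht, fun x h => pos x h.1⟩
  obtain ⟨-, -, -, -, -, -, -, k1, -, k2, k3, -⟩ :=
    hJKIT n M ι D X (off D) hO subset_rfl (hM n M ι D X).1
  refine ⟨⌈C⌉₊ + (4 * r + 1), fun j hj f hf => ?_⟩
  obtain ⟨s, rfl⟩ : ∃ s, j = s + (4 * r + 1) := ⟨j - (4 * r + 1), by omega⟩
  have hs : C ≤ s := Nat.ceil_le.1 (by omega)
  obtain ⟨A, hA⟩ := (hU n M ι D _).2.2.2.2.1 f hf.1
  have l1 : ∀ (c : ℕ) x, lw D (fun i => (((c : ℤ) * X.e i : ℤ) : ℝ)) x =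
      c * lw D (fun i => X.e i) x := fun c x => by
    rw [← lsm]
    exact congrArg (lw D · x) (funext fun i => by simp)
  obtain ⟨H, h1, h2⟩ := hSK n M ι D X r (fun _ => 1) (fun i => X.e i) (fun i => s * X.e i) t
    (fun x => C * X.α x + lw D X.o x + (s - C) * X.α x) (4 * r + 1) f hF
    (by rw [e1]; exact k2 _ _ (k1 _ hC) (k3 _ _ (sub_nonneg.2 hs) (k1 _ X.αp)))
    ⟨s * B, fun x hx => by
      have b1 := mul_le_mul_of_nonneg_left (abs_le.1 (hB x hx.1)).2 (Nat.cast_nonneg (α := ℝ) s)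
      have b2 : lw D (fun i => ((s * X.e i : ℤ) : ℝ) - X.o i) x = _ :=
        lsub (fun i => ((s * X.e i : ℤ) : ℝ)) X.o x
      rw [b2, l1]
      linarith⟩ (Nat.lt_succ_self _)
    ((congrArg (Sp D · f) (funext fun i => by push_cast; ring)).mp hf) (by
      have fin := (hM n M ι D X).2.2.2.1 (-X.o) fun i => by simp
      refine ne_top_of_le_ne_top (ENNReal.mul_ne_top (ENNReal.ofReal_ne_top
        (r := |A| * Real.exp ((s + (4 * r + 1) + 1 : ℕ) * B))) fin) ?_
      rw [Cx.I, ← lintegral_const_mul' _ _ ENNReal.ofReal_ne_top]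
      refine lintegral_mono_ae ((hM n M ι D X).1.mono fun x hx => ?_)
      rw [← ENNReal.ofReal_mul (by positivity)]
      refine ENNReal.ofReal_le_ofReal ?_
      have b0 : nsq (t · x) = Real.exp (X.α x) := by
        rw [hT.alp x hx, NV2.lg, Real.exp_log (pos x hx)]
      have b1 := (hA x hx).trans (mul_le_mul_of_nonneg_right (le_abs_self A) (Real.exp_pos _).le)
      rw [l1] at b1
      have b2 := mul_le_mul_of_nonneg_left (abs_le.1 (hB x hx)).1
        (Nat.cast_nonneg (α := ℝ) (s + (4 * r + 1) + 1))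
      beta_reduce
      rw [b0, ← Real.exp_nat_mul, mul_div_assoc, ← Real.exp_sub, lneg, mul_assoc, ← Real.exp_add]
      refine (mul_le_mul_of_nonneg_right b1 (Real.exp_pos _).le).trans ?_
      rw [mul_assoc, ← Real.exp_add]
      refine mul_le_mul_of_nonneg_left (Real.exp_le_exp.2 ?_) (abs_nonneg _)
      push_cast at b2 ⊢
      linarith)
  refine ⟨H, fun a => (congrArg (Sp D · (H a)) (funext fun i => by push_cast; ring)).mp (h1 a).1,
    funext fun x => ?_⟩
  rw [Finset.sum_apply]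
  by_cases hx : x ∈ off D
  · exact h2 x ⟨hx, one_ne_zero⟩
  · rw [hf.2 x hx]
    exact (Finset.sum_eq_zero fun a _ => by rw [Pi.mul_apply, (ht a).2 x hx, zero_mul]).symm

end Pool.Agent.Lib.R6
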