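import Pool.Agent.Lib.NV6.RBlue2
import Pool.Agent.Lib.ZL.B_CX
import Pool.Agent.Lib.ZL.B_UPB
import Pool.Agent.Lib.SV1.Hor1

/-! Row HQA: the theorem of Hörmander off every hypersurface. -/

open scoped Classical Topology ENNReal
open Set Complex Filter

namespace Pool.Agent.Lib.R6

open Pool.Agent.Lib.HS32 Pool.Agent.Lib.EX Pool.Agent.Lib.EXS Pool.Agent.Lib.ZL
open Pool.Agent.Lib.NV2 (vv)

theorem rHQA : St_HQA := by
  intro n M _ ι _ _ D X r t m1 e0 hC hK hI g hg g0
  let A : Am D := ⟨r, X.e, fun x a => t a x, vv D (fun i => X.e i) t, e0, fun d z hz => by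
    choose s s1 s2 using fun a => (hK.1 a).1 d z hz
    have e := fun a => U11.val_ev (s1 a) (s2 a)
    refine ⟨(eventually_all.2 fun a => (s1 a).and (e a).eventuallyEq_nhds).mono fun y hy =>
      differentiableAt_pi.2 fun a => (hy a).1.congr_of_eventuallyEq (hy a).2,
      fun h => one_ne_zero (hI d z hz 1 0 (by rw [h, smul_zero, map_zero, add_zero])).1,
      fun ho => funext fun a => ((s2 a).self_of_nhds ho).trans ?_⟩
    rw [← (e a).self_of_nhds]
    rfl, fun d z hz y c h => (hI d z hz (-c) y (by rw [h, neg_smul, neg_add_cancel])).2⟩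
  have ho : ∀ d, ∀ z ∈ B2 n, (D.e d).symm z ∈ off D → Off (D.c d) z := fun d z hz h =>
    GLU.rinv (D := D) d hz ▸ h d (GLU.mem_src d hz)
  exact (ZQ.hqO (C := 1) SV.hor1 one_ne_zero ENNReal.one_ne_top X.m0 X.whol X.wne
    (fun b d x hx hy => (hC b d x hx hy).trans (by rw [m1, pow_one]))
    (fun d z hz h => ⟨CX.hol A hz (ho d z hz h), CX.imm A hz (ho d z hz h)⟩) (CX.cpt A) X.eta
    (oa_iff.1 hg) g0).2

end Pool.Agent.Lib.R6
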