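import Pool.Agent.Lib.NV6.RBlue

/-! Project NV6, block R, row IND: the forms of a projection are independent. -/

open Polynomial Set

noncomputable section

namespace Pool.Agent.Lib.R6

theorem rIND : St_IND := by
  intro F _ _ k σ _ x s₀ g y h0 hA hg hI
  let z : Fin (g + 1) → F[X] := fun i => C (y i) * X
  let Z : Subalgebra k F[X] := Algebra.adjoin k (range z)
  let T : Subalgebra Z F[X] := Subalgebra.algebraicClosure Z F[X]
  have h1 : ∀ s, IsAlgebraic Z (C (x s) * X) := fun s => by
    have le : cn k y ≤ Z.restrictScalars ℂ := Algebra.adjoin_le (union_subset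
      (by rintro _ ⟨a, ha, rfl⟩; exact Z.algebraMap_mem (⟨a, ha⟩ : k)) Algebra.subset_adjoin)
    have := (hI s).isAlgebraic.tower_top_of_subalgebra_le le
    rw [pow_one] at this
    exact this
  have n0 : C (x s₀) ≠ 0 := C_ne_zero.2 h0
  let B : Subalgebra ℂ F := ((T.restrictScalars k).restrictScalars ℂ).comap CAlgHom
  have h2 : Algebra.adjoin ℂ (range fun s => x s / x s₀) ≤ B := Algebra.adjoin_le (by
    rintro _ ⟨s, rfl⟩
    refine IsAlgebraic.of_mul (mem_nonZeroDivisors_of_ne_zero (mul_ne_zero n0 X_ne_zero))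
      (h1 s₀) ?_
    have : C (x s₀) * X * C (x s / x s₀) = C (x s) * X := by
      rw [mul_right_comm, ← C_mul, mul_div_cancel₀ _ h0]
    exact this ▸ h1 s)
  let φ : B →+* T := (C.comp B.val.toRingHom).codRestrict T fun a => a.2
  have h3 : ∀ f : F, IsAlgebraic Z (C f) := fun f => by
    have a1 := (IntermediateField.isAlgebraic_adjoin_iff.1 (hA.1 f)).tower_top_of_subalgebra_le h2
    have a2 : IsAlgebraic T (C f) := a1.ringHom_of_comp_eq φ C
      (fun a b h => Subtype.ext (C_injective (congrArg Subtype.val h))) rfl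
    exact a2.restrictScalars Z
  have h4 : IsAlgebraic Z (X : F[X]) :=
    IsAlgebraic.of_mul (mem_nonZeroDivisors_of_ne_zero n0) (h3 _) (h1 s₀)
  have : Algebra.IsAlgebraic Z F[X] := ⟨fun p => p.induction_on' (fun _ _ => IsAlgebraic.add)
    fun j a => by rw [← C_mul_X_pow_eq_monomial]; exact (h3 a).mul (h4.pow j)⟩
  have h5 := (Algebra.IsAlgebraic.isTranscendenceBasis_of_le_trdeg_of_finite k z (by
    rw [← trdeg_add_eq k F, hg, Polynomial.trdeg_of_isDomain]
    simp)).1
  exact h5

end Pool.Agent.Lib.R6
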