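import Pool.Agent.Lib.NV6.RBlue

/-! Project NV6, block R, row INT: integrality from finite generation. -/

open Polynomial Set

set_option linter.unusedVariables false

noncomputable section

namespace Pool.Agent.Lib.R6

namespace INT

theorem ai {R A : Type} [CommRing R] [CommRing A] [IsDomain A] [Algebra R A] [IsNoetherianRing R]
    (N : Submodule R A) (hN : N.FG) (p t : A) (ht : t ≠ 0) (h : {i : ℕ | p ^ i * t ∈ N}.Infinite) :
    IsIntegral R p := by
  classical
  have h1 : (Submodule.span R ((fun i : ℕ => p ^ i * t) '' {i | p ^ i * t ∈ N})).FG :=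
    isNoetherian_submodule.1 (isNoetherian_of_fg_of_noetherian N hN) _
      (Submodule.span_le.2 (by
        rintro _ ⟨i, hi, rfl⟩
        exact hi))
  obtain ⟨s, hs, h2⟩ := (Submodule.fg_span_iff_fg_span_finset_subset _).1 h1
  obtain ⟨s', -, rfl⟩ := Finset.subset_set_image_iff.1 hs
  obtain ⟨m, hm, hlt⟩ := h.exists_gt (s'.sup id)
  have h3 : p ^ m * t ∈ Submodule.span R (range fun i : Fin m => p ^ (i : ℕ) * t) := by
    have h4 : p ^ m * t ∈
        Submodule.span R ((fun i : ℕ => p ^ i * t) '' {i | p ^ i * t ∈ N}) :=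
      Submodule.subset_span ⟨m, hm, rfl⟩
    rw [h2] at h4
    refine Submodule.span_mono ?_ h4
    intro y hy
    obtain ⟨i, hi, rfl⟩ := Finset.mem_image.1 hy
    exact ⟨⟨i, lt_of_le_of_lt (Finset.le_sup (f := id) hi) hlt⟩, rfl⟩
  obtain ⟨c, hc⟩ := (Submodule.mem_span_range_iff_exists_fun R).1 h3
  refine ⟨X ^ m - ∑ i : Fin m, C (c i) * X ^ (i : ℕ), monic_X_pow_sub (degree_sum_fin_lt c), ?_⟩
  rw [← aeval_def, map_sub, map_pow, aeval_X, map_sum, sub_eq_zero]
  refine mul_right_cancel₀ ht ?_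
  rw [← hc, Finset.sum_mul]
  refine Finset.sum_congr rfl fun i _ => ?_
  rw [map_mul, map_pow, aeval_X, aeval_C, Algebra.smul_def, mul_assoc]

variable {F : Type} [Field F] [Algebra ℂ F] {σ : Type} [Fintype σ]

theorem md (u : Set F) (x : σ → F) (S : ℕ → Set F) (j₀ : ℕ)
    (h1 : ∀ j, FiniteDimensional ℂ (Submodule.span ℂ (S j)))
    (h2 : ∀ j ≥ j₀, ∀ f ∈ S (j + 1), ∃ G : σ → F, (∀ s, G s ∈ S j) ∧ f = ∑ s, x s * G s) :
    ∃ N : Submodule (cn u x) F[X], N.FG ∧ ∀ j, ∀ f ∈ S j, C f * X ^ j ∈ N := by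
  let L : ℕ → F →ₗ[ℂ] F[X] := fun j => (monomial j : F →ₗ[F] F[X]).restrictScalars ℂ
  have hL : ∀ j f, L j f = C f * X ^ j := fun j f => C_mul_X_pow_eq_monomial.symm
  have h3 : ∀ j, (Submodule.span (cn u x) (L j '' S j)).FG := fun j => by
    obtain ⟨s, hs⟩ := ((Submodule.fg_iff_finiteDimensional _).2 (h1 j)).map (L j)
    rw [Submodule.map_span] at hs
    exact ⟨s, by rw [← Submodule.span_span_of_tower ℂ, hs, Submodule.span_span_of_tower]⟩
  refine ⟨(Finset.range (j₀ + 1)).sup fun j => Submodule.span (cn u x) (L j '' S j),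
    Submodule.fg_finset_sup _ _ fun j _ => h3 j, ?_⟩
  have h4 : ∀ j ≤ j₀, ∀ f ∈ S j, C f * X ^ j ∈
      (Finset.range (j₀ + 1)).sup fun j => Submodule.span (cn u x) (L j '' S j) :=
    fun j hj f hf => Finset.le_sup (f := fun j => Submodule.span (cn u x) (L j '' S j))
      (Finset.mem_range.2 (Nat.lt_succ_of_le hj)) (Submodule.subset_span ⟨f, hf, hL j f⟩)
  intro j
  induction j with
  | zero => exact h4 0 (Nat.zero_le _)
  | succ j ih =>
    intro f hf
    by_cases hj : j + 1 ≤ j₀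
    · exact h4 _ hj f hf
    obtain ⟨G, hG, rfl⟩ := h2 j (by omega) f hf
    rw [map_sum, Finset.sum_mul]
    refine Submodule.sum_mem _ fun s _ => ?_
    have h5 := Submodule.smul_mem _
      (⟨C (x s) * X, Algebra.subset_adjoin (Or.inr ⟨s, rfl⟩)⟩ : cn u x) (ih _ (hG s))
    have h6 : C (x s * G s) * X ^ (j + 1) = C (x s) * X * (C (G s) * X ^ j) := by
      rw [map_mul]
      ring
    rw [h6]
    exact h5

theorem noe (k : IntermediateField ℂ F) (x : σ → F) : IsNoetherianRing (cn (k : Set F) x) := by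
  have h1 : ∀ q, hy k x q ∈ cn (k : Set F) x := fun q => by
    induction q using MvPolynomial.induction_on with
    | C a =>
      rw [hy, MvPolynomial.eval₂Hom_C]
      exact Algebra.subset_adjoin (Or.inl ⟨a, a.2, rfl⟩)
    | add p q hp hq =>
      rw [map_add]
      exact add_mem hp hq
    | mul_X p i hp =>
      rw [map_mul]
      refine mul_mem hp ?_
      rw [hy, MvPolynomial.eval₂Hom_X']
      exact Algebra.subset_adjoin (Or.inr ⟨i, rfl⟩)
  refine isNoetherianRing_of_surjective _ _ ((hy k x).codRestrict (cn (k : Set F) x) h1) ?_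
  rintro ⟨y, hy'⟩
  have h2 : y ∈ (hy k x).range := by
    induction hy' using Algebra.adjoin_induction with
    | mem y h =>
      rcases h with ⟨a, ha, rfl⟩ | ⟨i, rfl⟩
      · exact ⟨MvPolynomial.C ⟨a, ha⟩, MvPolynomial.eval₂Hom_C _ _ _⟩
      · exact ⟨MvPolynomial.X i, MvPolynomial.eval₂Hom_X' _ _ _⟩
    | algebraMap c => exact ⟨MvPolynomial.C (algebraMap ℂ k c), MvPolynomial.eval₂Hom_C _ _ _⟩
    | add a b _ _ ha hb => exact add_mem ha hb
    | mul a b _ _ ha hb => exact mul_mem ha hb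
  obtain ⟨q, hq⟩ := h2
  exact ⟨q, Subtype.ext hq⟩

theorem noe0 (x : σ → F) : IsNoetherianRing (cn (∅ : Set F) x) :=
  isNoetherianRing_of_fg (Subalgebra.fg_def.2
    ⟨_, (finite_empty.image _).union (finite_range _), rfl⟩)

end INT

open INT in
theorem rINT : St_INT := by
  intro F _ _ k σ _ x S j₀ h1 h2
  refine ⟨fun j f hf => ?_, fun c c₃ P t ht h => ?_⟩
  · obtain ⟨N, hN, h3⟩ := md ∅ x S j₀ h1 h2
    have := noe0 x
    refine ai N hN _ 1 one_ne_zero (infinite_univ.mono fun i _ => ?_)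
    show (C f * X ^ j) ^ i * 1 ∈ N
    rw [mul_one, mul_pow, ← map_pow, ← pow_mul]
    exact h3 _ _ (hf i)
  · obtain ⟨N, hN, h3⟩ := md k x S j₀ h1 h2
    have := noe k x
    refine ai N hN _ (C t * X ^ c₃) (mul_ne_zero (C_ne_zero.2 ht) (pow_ne_zero _ X_ne_zero))
      (h.mono ?_)
    rintro i ⟨g, hg, g0, hi⟩
    have h4 := N.smul_mem
      (⟨C g⁻¹, Algebra.subset_adjoin (Or.inl ⟨g⁻¹, k.inv_mem hg, rfl⟩)⟩ : cn (k : Set F) x)
      (h3 _ _ hi)
    have h5 : (C P * X ^ c) ^ i * (C t * X ^ c₃) =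
        C g⁻¹ * (C (P ^ i * g * t) * X ^ (c * i + c₃)) := by
      rw [← mul_assoc (C g⁻¹), ← map_mul, show g⁻¹ * (P ^ i * g * t) = P ^ i * t by field_simp,
        map_mul, map_pow, pow_add, pow_mul]
      ring
    show (C P * X ^ c) ^ i * (C t * X ^ c₃) ∈ N
    rw [h5]
    exact h4

end Pool.Agent.Lib.R6
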