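import Pool.Agent.Lib.NV6.RBlue

/-! Project NV6, block R, row ITP: interpolation on a grid that avoids a hypersurface. -/

open Set
open scoped Classical

noncomputable section

namespace Pool.Agent.Lib.R6

namespace ITP

variable {σ K : Type} [Field K] [Algebra ℂ K]

/-- A linear form applied to the coefficients. -/
def mp70 (l : K →ₗ[ℂ] ℂ) (f : MvPolynomial σ K) : MvPolynomial σ ℂ :=
  ∑ α ∈ f.support, MvPolynomial.monomial α (l (f.coeff α))

theorem coeff70 (l : K →ₗ[ℂ] ℂ) (f : MvPolynomial σ K) (α : σ →₀ ℕ) :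
    (mp70 l f).coeff α = l (f.coeff α) := by
  rw [mp70, MvPolynomial.coeff_sum]
  simp only [MvPolynomial.coeff_monomial, Finset.sum_ite_eq']
  split_ifs with h
  · rfl
  · rw [MvPolynomial.notMem_support_iff.1 h, map_zero]

theorem deg70 (l : K →ₗ[ℂ] ℂ) (f : MvPolynomial σ K) :
    (mp70 l f).totalDegree ≤ f.totalDegree :=
  Finset.sup_le fun α h => MvPolynomial.le_totalDegree (by
    rw [MvPolynomial.mem_support_iff] at h ⊢
    intro h0
    rw [coeff70, h0, map_zero] at h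
    exact h rfl)

theorem eval70 (l : K →ₗ[ℂ] ℂ) (f : MvPolynomial σ K) (β : σ → ℂ) :
    MvPolynomial.eval β (mp70 l f) =
      l (MvPolynomial.eval (fun i => algebraMap ℂ K (β i)) f) := by
  rw [mp70, map_sum, MvPolynomial.eval_eq, map_sum]
  refine Finset.sum_congr rfl fun α _ => ?_
  rw [MvPolynomial.eval_monomial, Finsupp.prod, mul_comm, ← smul_eq_mul, ← map_smul,
    Algebra.smul_def, map_prod, mul_comm]
  simp only [map_pow]

theorem cx70 [Fintype σ] (D : ℕ) {n : MvPolynomial σ ℂ} (hn : n ≠ 0) :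
    ∃ (G : Finset (σ → ℂ)) (c : (σ →₀ ℕ) → (σ → ℂ) → ℂ), G.Nonempty ∧
      (∀ β ∈ G, MvPolynomial.eval β n ≠ 0) ∧ ∀ f : MvPolynomial σ ℂ, f.totalDegree ≤ D →
        ∀ α, f.coeff α = ∑ β ∈ G, c α β * MvPolynomial.eval β f := by
  let V := MvPolynomial.restrictTotalDegree σ ℂ D
  let L : (σ → ℂ) → V →ₗ[ℂ] ℂ := fun β =>
    (MvPolynomial.aeval β).toLinearMap.comp V.subtype
  have hL : ∀ β (f : V), L β f = MvPolynomial.eval β f.1 := fun β f => rfl
  let T : Set (σ → ℂ) := {β | MvPolynomial.eval β n ≠ 0}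
  obtain ⟨β₀, h₀⟩ : T.Nonempty := by
    by_contra h
    refine hn (MvPolynomial.funext fun β => ?_)
    by_contra h1
    exact h ⟨β, fun h2 => h1 (by rw [h2, map_zero])⟩
  have h1 : ∀ Λ : V →ₗ[ℂ] ℂ, Λ ∈ Submodule.span ℂ (L '' T) := fun Λ => by
    rw [image_eq_range]
    refine FiniteDimensional.mem_span_of_iInf_ker_le_ker fun f hf => ?_
    have h2 : f.1 * n = 0 := MvPolynomial.funext fun β => by
      rw [map_mul, map_zero]
      by_cases h3 : β ∈ T
      · have h4 : L β f = 0 := (Submodule.mem_iInf _).1 hf ⟨β, h3⟩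
        rw [← hL, h4, zero_mul]
      · rw [not_not.1 h3, mul_zero]
    have h5 : f = 0 := Subtype.ext ((mul_eq_zero.1 h2).resolve_right hn)
    rw [h5]
    exact zero_mem _
  obtain ⟨s, hs, hs'⟩ := (Submodule.fg_span_iff_fg_span_finset_subset (R := ℂ) (L '' T)).1
    (IsNoetherian.noetherian _)
  obtain ⟨G, hG, rfl⟩ := Finset.subset_set_image_iff.1 hs
  have h2 : ∀ α : σ →₀ ℕ, ∃ c : (σ → ℂ) → ℂ, ∑ β ∈ insert β₀ G, c β • L β =
      (MvPolynomial.lcoeff ℂ α).comp V.subtype := fun α => by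
    refine (Submodule.mem_span_image_finset_iff_exists_fun' ℂ).1
      (Submodule.span_mono ?_ (hs' ▸ h1 _))
    rw [Finset.coe_image]
    exact image_mono (by simp)
  choose c hc using h2
  refine ⟨insert β₀ G, c, Finset.insert_nonempty _ _, fun β hβ => ?_, fun f hf α => ?_⟩
  · rcases Finset.mem_insert.1 hβ with rfl | h
    · exact h₀
    · exact hG h
  · have h3 := LinearMap.congr_fun (hc α)
      ⟨f, (MvPolynomial.mem_restrictTotalDegree σ D f).2 hf⟩
    simp only [LinearMap.sum_apply, LinearMap.smul_apply, hL, smul_eq_mul] at h3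
    exact h3.symm

end ITP

open ITP

theorem rITP : St_ITP := by
  intro F _ _ k σ _ D n hn
  obtain ⟨α₀, h₀⟩ := MvPolynomial.ne_zero_iff.1 hn
  obtain ⟨l, hl⟩ : ∃ l : k →ₗ[ℂ] ℂ, l (n.coeff α₀) ≠ 0 := by
    by_contra h
    push Not at h
    exact h₀ ((Module.forall_dual_apply_eq_zero_iff ℂ _).1 h)
  obtain ⟨G, c, h1, h2, h3⟩ := cx70 D (n := mp70 l n)
    (MvPolynomial.ne_zero_iff.2 ⟨α₀, by rwa [coeff70]⟩)
  refine ⟨G, c, h1, fun β hβ h => h2 β hβ ?_, fun f hf α => ?_⟩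
  · rw [eval70]
    exact (congrArg l h).trans (map_zero l)
  · refine sub_eq_zero.1 ((Module.forall_dual_apply_eq_zero_iff ℂ _).1 fun l' => ?_)
    rw [map_sub, map_sum, ← coeff70, h3 _ ((deg70 l' f).trans hf), sub_eq_zero]
    refine Finset.sum_congr rfl fun β _ => ?_
    rw [map_smul, eval70]
    rfl

end Pool.Agent.Lib.R6
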