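import Pool.Agent.Lib.NV6.RBlue2

/-! Project NV6, block R: every divisor is generated after a twist. -/

open scoped Classical
open Set Complex

noncomputable section

namespace Pool.Agent.Lib.R6

open Pool.Agent.Lib.HS32 Pool.Agent.Lib.EX Pool.Agent.Lib.EXS Pool.Agent.Lib.ZL

theorem rKD (hL : ZL.St_LWC) (hP : ZL.St_PEAK) (hU : ZL.St_UPB) (hPW : ZL.St_PW)
    (hW : ZL.St_WGT) (hNKIT : NV5.Sb_KIT) : R6.St_KD := by
  intro n M _ ι _ _ D X lam hB
  obtain ⟨-, -, -, sub, mul, -⟩ := hPW n M ι D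
  obtain ⟨_, -, -, hW⟩ := hW
  obtain ⟨-, ad, sm, -, -, -, cg, -⟩ := hW n M ι D
  obtain ⟨C, -, hC⟩ := hL n M ι D X fun i => lam i
  obtain ⟨B, hb⟩ := X.αb
  obtain ⟨N, hN⟩ := exists_nat_ge C
  have ps : ∀ ε : ℝ, 0 ≤ ε → Psh D fun x => N * X.α x + lw D (fun i => lam i) x + ε * X.α x :=
    fun ε hε => cg _ _ (ad _ _ hC (sm (N - C + ε) _ (by linarith) X.αp)) fun x _ => by ring
  obtain ⟨c, X', -, -, -, -, -, he, -, hG⟩ := hP n M ι D X (fun i => N * X.e i - lam i) hB
    fun ε hε => ⟨fun x => N * X.α x + lw D (fun i => lam i) x, N * B,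
      by simpa only [zero_mul, add_zero] using (ps 0 le_rfl).1, ps ε hε.le, fun x hx => by
        have e : lw D (fun i => ((N * X.e i - lam i : ℤ) : ℝ)) x =
            N * lw D (fun i => X.e i) x - lw D (fun i => lam i) x := by
          rw [← mul, ← sub]
          exact congrFun (congrArg (lw D) (funext fun i => by
            push_cast; simp only [Pi.sub_apply, Pi.smul_apply, smul_eq_mul])) x
        rw [e, add_add_sub_cancel, ← mul_add, abs_mul, Nat.abs_cast]
        exact mul_le_mul_of_nonneg_left (hb x hx) N.cast_nonneg⟩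
  have e : (fun i => ((1 : ℕ) : ℤ) * (N * X.e i - lam i) + X'.e i) =
      fun i => ((N + c : ℕ) : ℤ) * X.e i - lam i := funext fun i => by rw [he]; push_cast; ring
  obtain ⟨r, G, K, g1, g2⟩ := (hU n M ι D _).2.2.2.2.2.2 (e ▸ hG 1)
  refine ⟨N + c, r, G, ⟨g1, K, g2⟩, ?_⟩
  obtain ⟨x, hx⟩ := Function.ne_iff.1 (hNKIT n M ι D).2.2.2.2.2.2.1
  by_contra h
  have := g2 x (mem_of_indicator_ne_zero hx)
  rw [Finset.sum_eq_zero fun a _ => by rw [not_not.1 (not_exists.1 h a), Pi.zero_apply, map_zero],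
    mul_zero] at this
  exact this.not_gt (Real.exp_pos _)

end Pool.Agent.Lib.R6
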