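import Pool.Agent.Lib.NV6.RBlue2

/-! Project NV6, block R: square integrable functions have bounded orders. -/

open scoped Classical Topology ContDiff ENNReal
open Set MeasureTheory Complex Metric Filter

noncomputable section

namespace Pool.Agent.Lib.R6

open Pool.Agent.Lib.SV (E nsq)
open Pool.Agent.Lib.HS32 Pool.Agent.Lib.EX Pool.Agent.Lib.EXS Pool.Agent.Lib.ZL
open Pool.Agent.Lib.NV5 (Rg FM Hg Hy Nd Gn Sb_ORD Sb_KIT Sb_FN)

namespace L2V

theorem ineq {r c : ℕ} {w α γ : ℝ} {β : Fin r → ℝ} {k : Fin r → ℤ} {l S κ : ℤ} (a₀ : Fin r)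
    (w0 : 0 < w) (w1 : w ≤ 1) (hα : 0 ≤ α) (hγ : 0 ≤ γ) (hβ : ∀ a, 0 < β a) (hk : ∀ a, κ ≤ k a)
    (h : l + S - c * κ ≤ -1) :
    α * γ / (∑ a, β a) ^ c * w⁻¹ ≤ w ^ l * α / (∑ a, w ^ k a * β a) ^ c * (w ^ S * γ) := by
  have h1 : 0 < ∑ a, w ^ k a * β a :=
    Finset.sum_pos (fun a _ => mul_pos (zpow_pos w0 _) (hβ a)) ⟨a₀, Finset.mem_univ _⟩
  have h2 : 0 < ∑ a, β a := Finset.sum_pos (fun a _ => hβ a) ⟨a₀, Finset.mem_univ _⟩
  have h3 : ∑ a, w ^ k a * β a ≤ w ^ κ * ∑ a, β a := by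
    rw [Finset.mul_sum]
    exact Finset.sum_le_sum fun a _ =>
      mul_le_mul_of_nonneg_right (zpow_le_zpow_right_of_le_one₀ w0 w1 (hk a)) (hβ a).le
  have h4 : w⁻¹ ≤ w ^ l * w ^ S / (w ^ κ) ^ c := by
    rw [← zpow_neg_one, ← zpow_natCast, ← zpow_mul, ← zpow_add₀ w0.ne', ← zpow_sub₀ w0.ne']
    exact zpow_le_zpow_right_of_le_one₀ w0 w1 (by linarith)
  calc α * γ / (∑ a, β a) ^ c * w⁻¹ ≤ α * γ / (∑ a, β a) ^ c * (w ^ l * w ^ S / (w ^ κ) ^ c) :=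
        mul_le_mul_of_nonneg_left h4 (by positivity)
    _ = w ^ l * α / (w ^ κ * ∑ a, β a) ^ c * (w ^ S * γ) := by
        rw [mul_pow]
        ring
    _ ≤ _ := by gcongr

theorem nd_prod (hO : Sb_ORD) {n : ℕ} {u : E n → ℂ} {z : E n} (h : Hy u z) {κ : Type}
    (T : Finset κ) {a : κ → E n → ℂ} (ha : ∀ i, Nd u z (a i)) : Nd u z (∏ i ∈ T, a i) := by
  induction T using Finset.induction_on with
  | empty => exact (hO n u z h).2.2.2.1 _ (.of_forall fun _ => differentiableAt_const _) one_ne_zero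
  | insert i T hi ih =>
    rw [Finset.prod_insert hi]
    exact (hO n u z h).2.2.1 _ _ (ha i) ih

theorem nq {f b u a : ℂ} {k : ℤ} (h : f * b = u ^ k * a) (hb : b ≠ 0) :
    normSq f = normSq u ^ k * normSq (a / b) := by
  rw [← map_zpow₀, ← map_mul, ← mul_div_assoc, ← h, mul_div_cancel_right₀ _ hb]

theorem zsum {w : ℝ} (w0 : w ≠ 0) {κ : Type} (T : Finset κ) (k : κ → ℤ) :
    w ^ (∑ i ∈ T, k i) = ∏ i ∈ T, w ^ k i := by
  induction T using Finset.induction_on with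
  | empty => simp
  | insert i T hi ih => rw [Finset.sum_insert hi, Finset.prod_insert hi, zpow_add₀ w0, ih]

end L2V

open L2V in
theorem rL2V (hNI : St_NI) (hO : Sb_ORD) (hK : Sb_KIT) (hF : Sb_FN) (hMU : ZL.St_MU) : St_L2V := by
  intro n M _ ι _ _ D X F _ _ Φ r c h a₀ Q s hh hs hi H v m hV
  by_contra hc
  have hc : ∀ a, WithZero.exp (∑ i, Q i * m i) * v (Φ.ev (h a)) ^ c < v (Φ.ev s) :=
    fun a => lt_of_not_ge fun h1 => hc ⟨a, h1⟩
  have s0 : v (Φ.ev s) ≠ 0 := (zero_le.trans_lt (hc a₀)).ne'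
  have h0 : ∀ a, Φ.ev (h a) ≠ 0 := fun a h1 => (hh a).2 (Φ.inj _ (hh a).1 h1)
  obtain ⟨a₁, -, ha₁⟩ := Finset.exists_min_image Finset.univ
    (fun a => -WithZero.log (v (Φ.ev (h a)))) ⟨a₀, Finset.mem_univ _⟩
  have hz : -WithZero.log (v (Φ.ev s)) + ∑ i, Q i * m i - c * -WithZero.log (v (Φ.ev (h a₁))) ≤
      -1 := by
    have h1 := hc a₁
    rw [← WithZero.exp_log s0, ← WithZero.exp_log (v.ne_zero_iff.2 (h0 a₁)), ← WithZero.exp_nsmul,
      ← WithZero.exp_add, WithZero.exp_lt_exp, nsmul_eq_mul] at h1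
    linarith
  obtain ⟨A, B, hA, hB, e1⟩ := hV.ord _ (v.ne_zero_iff.1 s0)
  choose A' B' hA' hB' e2 using fun a => hV.ord _ (h0 a)
  choose U hU e3 using fun i => (hV.mul i).2
  obtain ⟨-, -, -, -, -, -, -, -, -, -, k1, k2, -⟩ := hK n M ι D
  have f2 := ((hF n M ι D F Φ).2.2.2 H.d H.z H.mem).2.1
  obtain ⟨t, t1, t0, e4⟩ := (k2 H.d H.z H.mem _).1 ((e1.and (f2 s hs)).and
    (eventually_all.2 fun a => (e2 a).and (f2 _ (hh a).1)))
  obtain ⟨ρ, r1, r2⟩ := exists_between (mem_ball_zero_iff.1 H.mem : ‖H.z‖ < 2)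
  obtain ⟨C, hC⟩ := (hMU n M ι D X).2.2.2.2 ρ r2 (∑ i, |(Q i : ℝ)|)
  have hi' : X.I (fun x => normSq (s x) / nsq (h · x) ^ c *
      Real.exp (lw D (fun i => Q i - X.o i) x)) ≠ ⊤ := by
    simpa only [NV6.J.Nj, neg_neg, div_mul_eq_mul_div] using hi
  have fin := ne_top_of_le_ne_top (ENNReal.mul_ne_top ENNReal.ofReal_ne_top hi')
    (hC (fun i => Q i) (fun x => normSq (s x) / nsq (h · x) ^ c) H.d fun i =>
      Finset.single_le_sum (f := fun i => |(Q i : ℝ)|) (fun _ _ => abs_nonneg _)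
        (Finset.mem_univ i))
  have nd := (hO n _ _ H.hy).2.2.1 _ _ ((hO n _ _ H.hy).2.2.1 _ _ hA hB)
    ((hO n _ _ H.hy).2.2.1 _ _ (nd_prod hO H.hy Finset.univ fun a =>
      (hO n _ _ H.hy).2.2.1 _ _ (hA' a) (hB' a)) (nd_prod hO H.hy Finset.univ hU))
  obtain ⟨y, ⟨u0, g0⟩, y1, y2⟩ := (nd.2.and_eventually (((hO n _ _ H.hy).2.2.2.2.1 _ hA).and
    ((isOpen_ball.eventually_mem (mem_ball_zero_iff.2 r1)).and (e4.and ((eventually_all.2 e3).and
      (hA.1.and (hB.1.and ((eventually_all.2 fun a => (hA' a).1.and (hB' a).1).and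
        (eventually_all.2 fun i => (hU i).1))))))).eventually_nhds)).exists
  simp only [Pi.mul_apply, Finset.prod_apply, mul_ne_zero_iff, Finset.prod_ne_zero_iff,
    Finset.mem_univ, forall_true_left] at g0
  obtain ⟨-, -, -, d1, d2, d3, d4⟩ := y2.self_of_nhds
  have cn := fun {f : E n → ℂ} (hf : ContinuousAt f y) => continuous_normSq.continuousAt.comp hf
  have p3 : 0 < ∑ a, normSq (A' a y / B' a y) := Finset.sum_pos
    (fun a _ => normSq_pos.2 (div_ne_zero (g0.2.1 a).1 (g0.2.1 a).2)) ⟨a₀, Finset.mem_univ _⟩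
  have cψ : ContinuousAt (fun x => normSq (A x / B x) * (∏ i, normSq (U i x) ^ Q i) /
      (∑ a, normSq (A' a x / B' a x)) ^ c) y :=
    ((cn (d1.continuousAt.div d2.continuousAt g0.1.2)).mul (tendsto_finsetProd _ fun i _ =>
      (cn (d4 i).continuousAt).zpow₀ _ (Or.inl (normSq_pos.2 (g0.2.2 i)).ne'))).div
      ((tendsto_finsetSum _ fun a _ => cn ((d3 a).1.continuousAt.div (d3 a).2.continuousAt
        (g0.2.1 a).2)).pow c) (pow_pos p3 c).ne'
  have pψ : 0 < normSq (A y / B y) * (∏ i, normSq (U i y) ^ Q i) /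
      (∑ a, normSq (A' a y / B' a y)) ^ c :=
    div_pos (mul_pos (normSq_pos.2 (div_ne_zero g0.1.1 g0.1.2))
      (Finset.prod_pos fun i _ => zpow_pos (normSq_pos.2 (g0.2.2 i)) _)) (pow_pos p3 c)
  have hδ := half_pos pψ
  have e5 := cψ.eventually (lt_mem_nhds (half_lt_self pψ))
  generalize normSq (A y / B y) * (∏ i, normSq (U i y) ^ Q i) /
    (∑ a, normSq (A' a y / B' a y)) ^ c / 2 = δ at hδ e5
  have e6 : ∀ᶠ x in 𝓝 y, normSq (H.u x) < 1 :=
    (cn (y1 u0).1.1.self_of_nhds.continuousAt).eventually (gt_mem_nhds (by simp [u0]))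
  obtain ⟨O, o1, o2, o3⟩ := _root_.eventually_nhds_iff.1 (y2.and (e5.and (e6.and
    ((d2.continuousAt.eventually_ne g0.1.2).and (eventually_all.2 fun a =>
      ((d3 a).1.continuousAt.eventually_ne (g0.2.1 a).1).and
        ((d3 a).2.continuousAt.eventually_ne (g0.2.1 a).2))))))
  obtain ⟨x, hx⟩ := Function.ne_iff.1 t0
  have ae := ZQ.HO.ae_offz (fun d z hz hw => (k1 t t1 d z hz).2 ((ZQ.off_symm D hz).1 hw))
    ⟨x, by_contra fun h1 => hx (t1.choose_spec.2 x h1), hx⟩ H.d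
  refine fin (top_le_iff.1 ?_)
  rw [← ENNReal.mul_top (ENNReal.ofReal_pos.2 hδ).ne', ← hNI n _ y O (y1 u0).1 (o2.mem_nhds o3),
    ← lintegral_const_mul' _ _ ENNReal.ofReal_ne_top]
  refine le_trans (setLIntegral_mono_ae' o2.measurableSet ?_)
    (lintegral_mono_set fun x hx => ball_subset_closedBall (o1 x hx).1.1)
  filter_upwards [ae] with x x1 hx
  obtain ⟨⟨b1, b2, b3, -⟩, b4, b5, b6, b7⟩ := o1 x hx
  rw [← ENNReal.ofReal_mul hδ.le]
  rcases eq_or_ne (H.u x) 0 with h1 | h1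
  · simp [h1]
  obtain ⟨⟨c1, c2⟩, c3⟩ := b2 (x1 (ball_subset_ball r2.le b1)).2
  have w0 := normSq_pos.2 h1
  refine ENNReal.ofReal_le_ofReal ((mul_le_mul_of_nonneg_right b4.le (inv_pos.2 w0).le).trans
    ((ineq a₀ w0 b5.le (normSq_nonneg _) (Finset.prod_nonneg fun i _ =>
      zpow_nonneg (normSq_nonneg _) _) (fun a => normSq_pos.2 (div_ne_zero (b7 a).1 (b7 a).2))
      (fun a => ha₁ a (Finset.mem_univ _)) hz).trans (le_of_eq ?_)))
  have q1 := nq (c1 h1) b6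
  have q2 := fun a => nq ((c3 a).1 h1) (b7 a).2
  rw [c2] at q1
  simp only [fun a => (c3 a).2] at q2
  have q3 : xr (D.c H.d) (fun i => (Q i : ℝ)) x =
      normSq (H.u x) ^ (∑ i, Q i * m i) * ∏ i, normSq (U i x) ^ Q i := by
    rw [xr, zsum w0.ne', ← Finset.prod_mul_distrib]
    refine Finset.prod_congr rfl fun i _ => ?_
    rw [Real.rpow_intCast, b3 i, map_mul, map_zpow₀, mul_zpow, ← zpow_mul, mul_comm (m i)]
  rw [q3, ← q1]
  simp only [← q2]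
  rfl

end Pool.Agent.Lib.R6
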