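import Pool.Agent.Lib.NV6.RBlue

/-! Project NV6, block R: one projection. -/

open Polynomial Complex Set

set_option linter.unusedVariables false

noncomputable section

namespace Pool.Agent.Lib.R6

theorem rLOC (hKIT : St_KIT) (hMIN : St_MIN) (hROOT : St_ROOT) (hUPP : St_UPP) : St_LOC := by
  classical
  intro F _ _ k σ _ y c s P hy0 hGI hne
  choose m hm using fun i => hMIN F k σ y c (P i) hy0 (hGI i)
  refine ⟨Finset.univ.sup fun i => (m i).natDegree, fun N hN hdv => ?_⟩
  have hle : ∀ i, (m i).natDegree ≤ Finset.univ.sup fun i => (m i).natDegree := fun i =>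
    Finset.le_sup (f := fun i => (m i).natDegree) (Finset.mem_univ i)
  have hd : ∀ i, (m i).natDegree.factorial ∣ N := fun i =>
    (Nat.factorial_dvd_factorial (hle i)).trans hdv
  have hpos : ∀ i j, j < (m i).natDegree → 0 < N / ((m i).natDegree - j) := fun i j hj =>
    Nat.div_pos (Nat.le_of_dvd hN ((Nat.dvd_factorial (by omega) (Nat.sub_le _ _)).trans (hd i)))
      (by omega)
  set I : Finset (Fin s × ℕ × (σ →₀ ℕ)) := Finset.univ.biUnion fun i =>
    (Finset.range (m i).natDegree).biUnion fun j =>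
      ((m i).coeff j).support.image fun α => (i, j, α) with hI
  have mI : ∀ i j α, (i, j, α) ∈ I ↔ j < (m i).natDegree ∧ ((m i).coeff j).coeff α ≠ 0 := by
    intro i j α
    simp only [hI, Finset.mem_biUnion, Finset.mem_univ, true_and, Finset.mem_range,
      Finset.mem_image, MvPolynomial.mem_support_iff, Prod.mk.injEq]
    constructor
    · rintro ⟨i', j', h1, α', h2, rfl, rfl, rfl⟩
      exact ⟨h1, h2⟩
    · rintro ⟨h1, h2⟩
      exact ⟨i, j, h1, α, h2, rfl, rfl, rfl⟩
  have hIne : I.Nonempty := by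
    obtain ⟨i, hi⟩ := hne
    obtain ⟨α, hα⟩ := MvPolynomial.ne_zero_iff.1 ((hm i).ne hi)
    exact ⟨(i, 0, α), (mI _ _ _).2 ⟨(hm i).pos, hα⟩⟩
  obtain ⟨r, hr⟩ : ∃ r, I.card = r + 1 := ⟨I.card - 1, by have := hIne.card_pos; omega⟩
  let e : I ≃ Fin (r + 1) := I.equivFinOfCardEq hr
  let a : Fin s × ℕ × (σ →₀ ℕ) → F := fun w => cf (m w.1) w.2.1 w.2.2
  let ex : Fin s × ℕ × (σ →₀ ℕ) → ℕ := fun w => N / ((m w.1).natDegree - w.2.1)
  have ak : ∀ w, a w ∈ k := fun w => Subtype.property _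
  have ane : ∀ w ∈ I, a w ≠ 0 := fun w hw h => ((mI w.1 w.2.1 w.2.2).1 hw).2 (Subtype.ext h)
  have a0 : ∀ i j α, j < (m i).natDegree → (i, j, α) ∉ I → cf (m i) j α = 0 := by
    intro i j α hj h
    have : ((m i).coeff j).coeff α = 0 := by
      by_contra h'
      exact h ((mI _ _ _).2 ⟨hj, h'⟩)
    simp [cf, this]
  let U : Finset F := I.image a ∪ I.image fun w => a w ^ ex w
  have aU : ∀ w ∈ I, a w ∈ U := fun w hw => Finset.mem_union_left _ (Finset.mem_image_of_mem _ hw)
  have aS : ∀ p : Pt F, p.Un U → ∀ i, ∀ j < (m i).natDegree, ∀ α, cf (m i) j α ∈ p.S := by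
    intro p hp i j hj α
    by_cases h : (i, j, α) ∈ I
    · exact (hp _ (aU _ h)).1
    · rw [a0 i j α hj h]
      exact p.S.zero_mem
  have vB : ∀ p : Pt F, p.Un U → ∀ w ∈ I, normSq (p.v (a w ^ ex w)) = normSq (p.v (a w)) ^ ex w := by
    intro p hp w hw
    rw [(hKIT F p).2.2.2.1 _ (hp _ (aU w hw)).1, map_pow]
  refine ⟨r, fun j => a (e.symm j) ^ ex (e.symm j), U, fun j => ⟨pow_mem (ak _) _,
    Finset.mem_union_right _ (Finset.mem_image_of_mem (fun w => a w ^ ex w) (e.symm j).2)⟩,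
    ?_, ?_, ?_⟩
  · intro f hf
    rcases Finset.mem_union.1 hf with h | h
    · obtain ⟨w, hw, rfl⟩ := Finset.mem_image.1 h
      exact ane w hw
    · obtain ⟨w, hw, rfl⟩ := Finset.mem_image.1 h
      exact pow_ne_zero _ (ane w hw)
  · choose C hC0 hC using fun i => hROOT F k σ y c N (P i) (m i) (hm i) hN (hd i)
    refine ⟨∑ i, C i, Finset.sum_nonneg fun i _ => hC0 i, fun p hp hyS i hP => ?_⟩
    have n0 : 0 ≤ p.N fun j => a (e.symm j) ^ ex (e.symm j) :=
      Finset.sum_nonneg fun j _ => normSq_nonneg _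
    have n1 : 0 ≤ p.N y ^ (c * N) :=
      pow_nonneg (Finset.sum_nonneg fun j _ => normSq_nonneg _) _
    refine (hC i p _ n0 hP hyS fun j hj α => ⟨aS p hp i j hj α, ?_⟩).trans ?_
    · by_cases h : (i, j, α) ∈ I
      · have h1 := Finset.single_le_sum
          (f := fun j => normSq (p.v (a (e.symm j) ^ ex (e.symm j))))
          (fun j _ => normSq_nonneg _) (Finset.mem_univ (e ⟨_, h⟩))
        simp only [Equiv.symm_apply_apply] at h1
        rw [vB p hp _ h] at h1
        exact h1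
      · rw [a0 i j α hj h, (hKIT F p).1, map_zero, zero_pow (hpos i j hj).ne']
        exact n0
    · exact mul_le_mul_of_nonneg_right (mul_le_mul_of_nonneg_right
        (Finset.single_le_sum (fun i _ => hC0 i) (Finset.mem_univ i)) n0) n1
  · intro u η c₂ hu hη hGη
    obtain ⟨V, hV, hU⟩ := hUPP F k σ y (c * Finset.univ.sup fun i => (m i).natDegree) c₂ η u
      hy0 hu hη hGη
    refine ⟨V, hV, fun M c' γ R hγ hG => ?_⟩
    choose C hC0 hC using fun i => hU c N M c' (P i) γ (m i) R (hm i)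
      (Nat.mul_le_mul_left _ (hle i)) (hd i) hγ (hG i)
    have hs : 0 ≤ ∑ i, C i := Finset.sum_nonneg fun i _ => hC0 i
    refine ⟨((r + 1 : ℕ) : ℝ) ^ M * ∑ i, C i, by positivity, fun p t hp hpV hγS hg ht htV => ?_⟩
    obtain ⟨j, -, hj⟩ := Finset.exists_max_image Finset.univ
      (fun j => normSq (p.v (a (e.symm j) ^ ex (e.symm j)))) Finset.univ_nonempty
    have h1 : (p.N fun j => a (e.symm j) ^ ex (e.symm j)) ≤
        ((r + 1 : ℕ) : ℝ) * normSq (p.v (a (e.symm j) ^ ex (e.symm j))) := by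
      have := Finset.sum_le_card_nsmul Finset.univ _ _ hj
      rwa [Finset.card_univ, Fintype.card_fin, nsmul_eq_mul] at this
    have hw := (e.symm j).2
    have h2 := hC (e.symm j).1.1 p t hpV hγS hg (aS p hp _) ht htV (e.symm j).1.2.1
      ((mI _ _ _).1 hw).1 (e.symm j).1.2.2
    rw [vB p hp _ hw] at h1
    have h3 := pow_le_pow_left₀ (Finset.sum_nonneg fun j _ => normSq_nonneg _) h1 M
    calc _ ≤ normSq (p.v γ) * (((r + 1 : ℕ) : ℝ) * normSq (p.v (a (e.symm j))) ^ ex (e.symm j)) ^ M *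
          t ^ c' := mul_le_mul_of_nonneg_right
            (mul_le_mul_of_nonneg_left h3 (normSq_nonneg _)) (pow_nonneg ht _)
      _ = ((r + 1 : ℕ) : ℝ) ^ M * (normSq (p.v γ) *
          (normSq (p.v (a (e.symm j))) ^ ex (e.symm j)) ^ M * t ^ c') := by rw [mul_pow]; ring
      _ ≤ _ := mul_le_mul_of_nonneg_left (h2.trans
          (Finset.single_le_sum (fun i _ => hC0 i) (Finset.mem_univ _))) (by positivity)

end Pool.Agent.Lib.R6
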