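import Pool.Agent.Lib.NV6.RBlue2

/-! Block R, row LOW: the lower bound for the reference metric. -/

open scoped Classical Topology
open Set Complex

noncomputable section

namespace Pool.Agent.Lib.R6

open Pool.Agent.Lib.SV (E nsq)
open Pool.Agent.Lib.HS32 Pool.Agent.Lib.EX Pool.Agent.Lib.EXS Pool.Agent.Lib.ZL

namespace LOW

theorem num90 {T b u w C C₁ C₂ nt E₁ Eb El : ℝ} {c N : ℕ} (hT : 0 ≤ T) (hu : 0 ≤ u) (hw : 0 ≤ w)
    (hC : 0 ≤ C) (hC₂ : 0 ≤ C₂) (hnt : 0 ≤ nt) (hb : 0 < Eb) (h1 : nt ≤ C₁ * E₁)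
    (h2 : Eb ≤ C₂ * b) (h3 : E₁ ^ c = Eb * El) (h : (T * b) ^ N * u ≤ C * w * nt ^ (c * N)) :
    T ^ N * u ≤ C₂ ^ N * C * C₁ ^ (c * N) * El ^ N * w := by
  refine le_of_mul_le_mul_right ?_ (pow_pos hb N)
  calc T ^ N * u * Eb ^ N ≤ T ^ N * u * (C₂ * b) ^ N :=
        mul_le_mul_of_nonneg_left (pow_le_pow_left₀ hb.le h2 N) (mul_nonneg (pow_nonneg hT N) hu)
    _ = C₂ ^ N * ((T * b) ^ N * u) := by
        rw [mul_pow, mul_pow]
        ring
    _ ≤ C₂ ^ N * (C * w * (C₁ * E₁) ^ (c * N)) :=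
        mul_le_mul_of_nonneg_left (h.trans (mul_le_mul_of_nonneg_left
          (pow_le_pow_left₀ hnt h1 _) (mul_nonneg hC hw))) (pow_nonneg hC₂ N)
    _ = _ := by
        rw [mul_pow C₁, pow_mul E₁, h3, mul_pow Eb]
        ring

end LOW

theorem rLOW (hKIT : St_KIT) (hUPB : ZL.St_UPB) : St_LOW := by
  intro n M _ ι _ _ D F _ _ Φ pt e lam r s c N t β τ hP ht hβ C hC
  choose C₁ hC₁ using fun a => (hUPB n M ι D e).2.2.2.2.1 (t a) (ht a).1
  obtain ⟨hβ1, C₂, hC₂⟩ := hβ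
  refine ⟨(max C₂ 0 * s) ^ N * C * (∑ a, C₁ a) ^ (c * N), fun x hx hτ u w hu hw h => ?_⟩
  obtain ⟨-, -, -, k4, -⟩ := hKIT F (pt x)
  have hb := hC₂ x hx
  have hpos := Real.exp_pos (-lw D (fun i => ((c * e i - lam i : ℤ) : ℝ)) x)
  have hne : (Finset.univ : Finset (Fin s)).Nonempty := by
    rw [Finset.nonempty_iff_ne_empty]
    intro h0
    rw [nsq, h0, Finset.sum_empty, mul_zero] at hb
    exact absurd hb (not_le.2 hpos)
  obtain ⟨i, -, hi⟩ := Finset.exists_max_image Finset.univ (fun i => normSq (β i x)) hne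
  have h2 : Real.exp (-lw D (fun i => ((c * e i - lam i : ℤ) : ℝ)) x) ≤
      max C₂ 0 * s * normSq (β i x) := by
    have e1 : nsq (β · x) ≤ s * normSq (β i x) := by
      have e2 := Finset.sum_le_card_nsmul Finset.univ (fun j => normSq (β j x)) _ hi
      rwa [Finset.card_univ, Fintype.card_fin, nsmul_eq_mul] at e2
    have e3 : 0 ≤ nsq (β · x) := Finset.sum_nonneg fun _ _ => normSq_nonneg _
    rw [mul_assoc]
    exact hb.trans (mul_le_mul (le_max_left _ _) e1 e3 (le_max_right _ _))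
  have hN : (pt x).N (fun a => Φ.ev (t a)) = ∑ a, normSq (t a x) :=
    Finset.sum_congr rfl fun a _ => by rw [(hP.ev x hx (t a) ⟨_, ht a⟩).2]
  have h1 : ∑ a, normSq (t a x) ≤ (∑ a, C₁ a) * Real.exp (-lw D (fun i => (e i : ℝ)) x) := by
    rw [Finset.sum_mul]
    exact Finset.sum_le_sum fun a _ => hC₁ a x hx
  have h3 : Real.exp (-lw D (fun i => (e i : ℝ)) x) ^ c =
      Real.exp (-lw D (fun i => ((c * e i - lam i : ℤ) : ℝ)) x) *
        Real.exp (-lw D (fun i => (lam i : ℝ)) x) := by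
    rw [← Real.exp_nat_mul, ← Real.exp_add]
    refine congrArg Real.exp ?_
    simp only [lw, ← Finset.sum_neg_distrib, Finset.mul_sum, ← Finset.sum_add_distrib]
    refine Finset.sum_congr rfl fun j _ => ?_
    push_cast
    ring
  have h4 : Real.exp (-lw D (fun i => ((N * lam i : ℤ) : ℝ)) x) =
      Real.exp (-lw D (fun i => (lam i : ℝ)) x) ^ N := by
    rw [← Real.exp_nat_mul]
    refine congrArg Real.exp ?_
    simp only [lw, ← Finset.sum_neg_distrib, Finset.mul_sum]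
    refine Finset.sum_congr rfl fun j _ => ?_
    push_cast
    ring
  have h5 := h i
  obtain ⟨m1, m2⟩ := hP.ev x hx (β i) ⟨_, hβ1 i⟩
  rw [(pt x).mul _ hτ _ m1, m2, map_mul, hN] at h5
  rw [k4 τ hτ N, map_pow, h4]
  exact LOW.num90 (normSq_nonneg _) hu hw hC (mul_nonneg (le_max_right _ _) (Nat.cast_nonneg _))
    (Finset.sum_nonneg fun _ _ => normSq_nonneg _) hpos h1 h2 h3 h5

end Pool.Agent.Lib.R6
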