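import Pool.Agent.Lib.NV6.RBlue2

/-! Project NV6, block R: the model. -/

open scoped Classical Topology ContDiff ENNReal
open Set MeasureTheory Complex Metric Filter

set_option linter.unusedVariables false

noncomputable section

namespace Pool.Agent.Lib.R6

open Pool.Agent.Lib.SV (E nsq)
open Pool.Agent.Lib.HS32 Pool.Agent.Lib.EX Pool.Agent.Lib.EXS Pool.Agent.Lib.ZL
open Pool.Agent.Lib.ZQ (HqO HqC offz)
open Pool.Agent.Lib.NV5 (Rg Sb_KIT)
open Pool.Agent.Lib.NV6.J (Md Rk Se Wz Nj pv qt bt)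

namespace MD

variable {r r₁ r₂ : ℕ} (ε : Fin r ≃ Fin (r₁ + 1) × Fin (r₂ + 1)) (a : Fin (r₁ + 1) → ℂ)
  (b : Fin (r₂ + 1) → ℂ)

theorem n0 {κ : Type} [Fintype κ] (v : κ → ℂ) : 0 ≤ nsq v :=
  Finset.sum_nonneg fun _ _ => normSq_nonneg _

theorem le1 {κ : Type} [Fintype κ] (v : κ → ℂ) (i : κ) : normSq (v i) ≤ nsq v :=
  Finset.single_le_sum (f := fun j => normSq (v j)) (fun _ _ => normSq_nonneg _)
    (Finset.mem_univ i)

theorem np {s : ℕ} {v : Fin (s + 1) → ℂ} (h : ∀ i, v i ≠ 0) : 0 < nsq v :=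
  (normSq_pos.2 (h 0)).trans_le (le1 v 0)

theorem nh : nsq (fun β => a (ε β).1 * b (ε β).2) = nsq a * nsq b := by
  unfold nsq
  rw [Equiv.sum_comp ε fun p => normSq (a p.1 * b p.2), Fintype.sum_prod_type,
    Finset.sum_mul_sum]
  simp only [map_mul]

theorem nw : nsq (fun β => a (ε β).1 ^ 2) = (r₂ + 1) * ∑ i, normSq (a i) ^ 2 := by
  unfold nsq
  rw [Equiv.sum_comp ε fun p => normSq (a p.1 ^ 2), Fintype.sum_prod_type, Finset.mul_sum]
  refine Finset.sum_congr rfl fun i _ => ?_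
  simp only [map_pow, Finset.sum_const, Finset.card_univ, Fintype.card_fin, nsmul_eq_mul]
  push_cast
  ring

theorem w_up : nsq (fun β => a (ε β).1 ^ 2) ≤ (r₂ + 1) * nsq a ^ 2 := by
  rw [nw]
  refine mul_le_mul_of_nonneg_left ?_ (by positivity)
  exact Finset.sum_sq_le_sq_sum_of_nonneg fun _ _ => normSq_nonneg _

theorem w_lo : nsq a ^ 2 ≤ (r₁ + 1) * nsq (fun β => a (ε β).1 ^ 2) := by
  rw [nw]
  have h1 := sq_sum_le_card_mul_sum_sq (s := Finset.univ) (f := fun i => normSq (a i))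
  rw [Finset.card_univ, Fintype.card_fin] at h1
  push_cast at h1
  have h2 : 0 ≤ ∑ i, normSq (a i) ^ 2 := Finset.sum_nonneg fun _ _ => sq_nonneg _
  refine h1.trans (mul_le_mul_of_nonneg_left ?_ (by positivity))
  exact le_mul_of_one_le_left h2 (by linarith [Nat.cast_nonneg (α := ℝ) r₂])

theorem fin {s A B W p C K : ℝ} {N c e : ℕ} (hA : 0 < A) (hB : 0 < B) (hW : A ^ 2 ≤ K * W)
    (hK : 0 ≤ K) (h : s * B ^ N * p ^ (c + 1) ≤ C * A ^ N * (A * B) ^ (c + e * (c + 1))) :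
    s * (p / (A * B) ^ e) ^ (c + 1) ≤ |C| * K ^ N * (W / (A * B)) ^ N * (A * B) ^ c := by
  have hH := mul_pos hA hB
  have h1 : A / B ≤ K * (W / (A * B)) := by
    rw [← mul_div_assoc, div_le_div_iff₀ hB hH]
    nlinarith [mul_le_mul_of_nonneg_right hW hB.le]
  have h2 := pow_le_pow_left₀ (div_pos hA hB).le h1 N
  have h3 : s * (p / (A * B) ^ e) ^ (c + 1) ≤ C * (A / B) ^ N * (A * B) ^ c := by
    have e1 : s * (p / (A * B) ^ e) ^ (c + 1) =
        s * B ^ N * p ^ (c + 1) / (B ^ N * (A * B) ^ (e * (c + 1))) := by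
      rw [div_pow, ← pow_mul]
      field_simp
    have e2 : C * (A / B) ^ N * (A * B) ^ c = C * A ^ N * (A * B) ^ (c + e * (c + 1)) /
        (B ^ N * (A * B) ^ (e * (c + 1))) := by
      rw [div_pow, pow_add (A * B) c]
      field_simp
    rw [e1, e2]
    exact div_le_div_of_nonneg_right h (by positivity)
  refine h3.trans (mul_le_mul_of_nonneg_right ?_ (by positivity))
  rw [mul_assoc, ← mul_pow]
  exact mul_le_mul (le_abs_self C) h2 (by positivity) (abs_nonneg C)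

end MD

open MD in
theorem rMD (hJK : NV6.J.St_KIT) (hF : NV6.J.St_FRM) (hU : St_UPB) (hN : Sb_KIT) : St_MD := by
  intro n M _ ι _ _ D X a₀ N r r₁ r₂ e lam κ P a b ε g Q hH hZ N0 sa sb hE
  obtain ⟨-, -, k3, -⟩ := hN n M ι D
  obtain ⟨Qg, hg⟩ := hE.rg
  have g1 : HoO D g := ((hU n M ι D Qg).1 g hg.1).1
  obtain ⟨g2, g3⟩ := hH g g1 hE.ne
  have sh : ∀ β, Sp D (fun i => N * lam i + 2 * P i) fun y => a (ε β).1 y * b (ε β).2 y := by
    intro β
    have h1 := k3 _ _ _ _ (sa (ε β).1) (sb (ε β).2)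
    have e1 : (fun s => N * lam s + P s) + P = fun i => N * lam i + 2 * P i := by
      funext i
      simp only [Pi.add_apply]
      ring
    rwa [e1] at h1
  obtain ⟨b₀, sb₀, eb₀⟩ := ((hJK n M ι D X (off D) (ZQ.off_open D) Subset.rfl
    (g2.mono fun x hx => hx.1)).2.2.2.2.2.2.2.2.2.2.2.2.2.2 r _ _ sh).2.2 e Q hE.hom
  have pa : ∀ x ∈ offz D g, 0 < nsq (a · x) := fun x hx => np (hE.hne x hx).1
  have pb : ∀ x ∈ offz D g, 0 < nsq (b · x) := fun x hx => np (hE.hne x hx).2.1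
  have a0 : (0 : ℝ) < a₀ := Nat.cast_pos.2 hZ.a0
  have n0' : (0 : ℝ) < N := Nat.cast_pos.2 N0
  have ed : ∀ i, (((N : ℤ) * lam i : ℤ) : ℝ) / ((N * a₀ : ℕ) : ℝ) = lam i / a₀ := by
    intro i
    push_cast
    field_simp
  have q1 : ∃ C, ∀ x ∈ offz D g, qt (fun β y => a (ε β).1 y ^ 2)
      (fun β y => a (ε β).1 y * b (ε β).2 y) x ≤
        C * Real.exp (-lw D (fun i => ((N : ℤ) * lam i : ℤ)) x) := by
    obtain ⟨C, hC⟩ := hE.r1
    refine ⟨(r₂ + 1) * C, fun x hx => ?_⟩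
    have h1 := w_up ε (a · x)
    have h2 := mul_le_mul_of_nonneg_left (hC x hx) (pa x hx).le
    have h3 := mul_le_mul_of_nonneg_left h2 (show (0 : ℝ) ≤ r₂ + 1 by positivity)
    unfold qt
    rw [nh ε (a · x) (b · x), div_le_iff₀ (mul_pos (pa x hx) (pb x hx))]
    refine h1.trans (le_trans (le_of_eq (by ring)) (h3.trans (le_of_eq (by ring))))
  refine ⟨b₀, ⟨g1, hE.ne, g2, g3, sh, fun x hx => ?_⟩, Nat.mul_pos N0 hZ.a0, fun i => ?_,
    fun i => ?_, fun N' hN' => ?_, ⟨Qg, hg⟩, fun x hx => ?_, fun β => ?_, sb₀, q1, ?_, ?_, ?_⟩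
  · rw [nh ε (a · x) (b · x)]
    exact mul_pos (pa x hx) (pb x hx)
  · rw [ed]
    exact hZ.lo i
  · rw [ed]
    exact hZ.hi i
  · obtain ⟨C, hC⟩ := q1
    exact hZ.zo N N0 (offz D g) _ C (fun x hx => hx.1) g2
      (fun x hx => ⟨div_nonneg (n0 _) (n0 _), hC x hx⟩) N' hN'
  · obtain ⟨h1, h2, h3⟩ := hE.hne x hx
    exact ⟨fun β => mul_ne_zero (h1 _) (h2 _), fun β => pow_ne_zero _ (h1 _),
      by rw [eb₀ x hx.1]; exact h3⟩
  · have h1 := k3 _ _ _ _ (sa (ε β).1) (sa (ε β).1)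
    have e1 : ((fun s => N * lam s + P s) + fun s => N * lam s + P s) =
        fun i => N * lam i + (N * lam i + 2 * P i) := by
      funext i
      simp only [Pi.add_apply]
      ring
    rwa [e1, ← sq] at h1
  · refine ⟨r₂ + 1, fun x hx β => ?_⟩
    have h1 := w_up ε (a · x)
    have h2 := pow_le_pow_left₀ (normSq_nonneg _) (le1 (b · x) (ε β).2) 2
    have h3 := mul_le_mul h1 (mul_le_mul_of_nonneg_left h2 (sq_nonneg (normSq (a (ε β).1 x))))
      (by positivity) (by positivity)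
    rw [nh ε (a · x) (b · x), map_mul, map_pow]
    refine le_trans (le_of_eq (by ring)) (h3.trans (le_of_eq (by ring)))
  · obtain ⟨C, hC⟩ := ((hF M.X r univ fun β y => a (ε β).1 y * b (ε β).2 y).2.2 e Q hE.hom).2
    refine ⟨C, fun x hx => ?_⟩
    unfold bt
    rw [eb₀ x hx.1, div_le_iff₀ (pow_pos (by
      rw [nh ε (a · x) (b · x)]
      exact mul_pos (pa x hx) (pb x hx)) _)]
    exact hC _
  · intro N' c s hN' hs
    obtain ⟨C, hC⟩ := hE.r2 N' c s hN' hs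
    refine ⟨|C| * (r₁ + 1) ^ N', fun x hx => ?_⟩
    unfold bt qt
    rw [eb₀ x hx.1, nh ε (a · x) (b · x)]
    exact fin (pa x hx) (pb x hx) (w_lo ε (a · x)) (by positivity) (hC x hx)

end Pool.Agent.Lib.R6
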