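import Pool.Agent.Lib.NV6.RBlue

/-! Row MIN: the minimal polynomial of an integral element is homogeneous. -/

open Polynomial Complex Set

noncomputable section

namespace Pool.Agent.Lib.R6

namespace MIN

variable {F : Type} [Field F] [Algebra ℂ F] {σ : Type} [Fintype σ] (k : IntermediateField ℂ F)
  (y : σ → F)

/-- The value of a polynomial at `y`. -/
def val : MvPolynomial σ k →+* F := MvPolynomial.eval₂Hom (algebraMap k F) y

theorem hy_hom {e : ℕ} {Q : MvPolynomial σ k} (hQ : Q.IsHomogeneous e) :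
    hy k y Q = C (val k y Q) * X ^ e := by
  rw [hy, val, MvPolynomial.coe_eval₂Hom, MvPolynomial.coe_eval₂Hom, MvPolynomial.eval₂_eq',
    MvPolynomial.eval₂_eq', map_sum, Finset.sum_mul]
  refine Finset.sum_congr rfl fun d hd => ?_
  have h : ∑ i, d i = e := by
    have h1 := hQ (MvPolynomial.mem_support_iff.1 hd)
    rw [← h1, ← Finsupp.degree_eq_sum, Finsupp.degree_eq_weight_one]
    rfl
  simp only [mul_pow, Finset.prod_mul_distrib, Finset.prod_pow_eq_pow_sum, h, map_mul, map_prod,
    map_pow, RingHom.comp_apply, mul_assoc]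

theorem coeff_hy (a : MvPolynomial σ k) (e : ℕ) :
    (hy k y a).coeff e = val k y (MvPolynomial.homogeneousComponent e a) := by
  induction a using MvPolynomial.induction_on' with
  | monomial u r =>
    have h : (MvPolynomial.monomial u r : MvPolynomial σ k).IsHomogeneous u.degree :=
      MvPolynomial.isHomogeneous_monomial r rfl
    rw [hy_hom k y h, MvPolynomial.homogeneousComponent_of_mem h, coeff_C_mul_X_pow]
    split_ifs <;> simp
  | add p q hp hq => rw [map_add, coeff_add, hp, hq, map_add, map_add]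

omit [Fintype σ] in
theorem cn_le (z : F[X]) (hz : z ∈ cn (k : Set F) y) : z ∈ (hy k y).range := by
  induction hz using Algebra.adjoin_induction with
  | mem x hx =>
    rcases hx with ⟨g, hg, rfl⟩ | ⟨i, rfl⟩
    · exact ⟨MvPolynomial.C ⟨g, hg⟩, by simp [hy]⟩
    · exact ⟨MvPolynomial.X i, by simp [hy]⟩
  | algebraMap r =>
    refine ⟨MvPolynomial.C (algebraMap ℂ k r), ?_⟩
    rw [hy, MvPolynomial.eval₂Hom_C, RingHom.comp_apply, ← IsScalarTower.algebraMap_apply,
      Polynomial.algebraMap_apply]
  | add _ _ _ _ h h' => exact add_mem h h'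
  | mul _ _ _ _ h h' => exact mul_mem h h'

omit [Fintype σ] in
theorem integral {z : F[X]} (hz : IsIntegral (cn (k : Set F) y) z) :
    (hy k y).IsIntegralElem z := by
  obtain ⟨p, hp, h0⟩ := hz
  have hl : p.map (algebraMap (cn (k : Set F) y) F[X]) ∈ lifts (hy k y) := by
    rw [lifts_iff_coeff_lifts]
    intro n
    rw [coeff_map]
    exact cn_le k y _ (p.coeff n).2
  obtain ⟨q, hq, -, hm⟩ := lifts_and_degree_eq_and_monic hl (hp.map _)
  refine ⟨q, hm, ?_⟩
  rw [← eval_map, hq, eval_map, h0]

end MIN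

theorem rMIN : St_MIN := by
  intro F _ _ k σ _ y c P hi hG
  let _ := (hy k y).toAlgebra
  have hz : IsIntegral (MvPolynomial σ k) (C P * X ^ c : F[X]) := MIN.integral k y hG
  have : Module.IsTorsionFree (MvPolynomial σ k) F[X] :=
    Module.isTorsionFree_iff_algebraMap_injective.2 hi
  obtain ⟨m, hm⟩ : ∃ m, m = minpoly (MvPolynomial σ k) (C P * X ^ c : F[X]) := ⟨_, rfl⟩
  have mon : m.Monic := hm ▸ minpoly.monic hz
  have pos : 0 < m.natDegree := hm ▸ minpoly.natDegree_pos hz
  have root : m.eval₂ (hy k y) (C P * X ^ c) = 0 := by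
    rw [hm]
    exact minpoly.aeval (MvPolynomial σ k) (C P * X ^ c : F[X])
  have : IsIntegrallyClosed (MvPolynomial σ k) := UniqueFactorizationMonoid.instIsIntegrallyClosed
  have dvd : ∀ q : (MvPolynomial σ k)[X], q.eval₂ (hy k y) (C P * X ^ c) = 0 → m ∣ q :=
    fun q hq => hm ▸ minpoly.isIntegrallyClosed_dvd hz hq
  refine ⟨m, mon, pos, ?_, root, dvd, fun hP h0 => ?_⟩
  · obtain ⟨m₂, h₂⟩ : ∃ m₂ : (MvPolynomial σ k)[X], m₂ = ∑ i ∈ Finset.range (m.natDegree + 1),
      monomial i (MvPolynomial.homogeneousComponent (c * (m.natDegree - i)) (m.coeff i)) := ⟨_, rfl⟩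
    have hc : ∀ i ≤ m.natDegree, m₂.coeff i =
        MvPolynomial.homogeneousComponent (c * (m.natDegree - i)) (m.coeff i) := by
      intro i hi
      simp only [h₂, finsetSum_coeff, coeff_monomial, Finset.sum_ite_eq', Finset.mem_range,
        Nat.lt_succ_of_le hi, if_true]
    have hd : m₂.natDegree ≤ m.natDegree := by
      rw [h₂]
      exact natDegree_sum_le_of_forall_le _ _ fun i hi =>
        (natDegree_monomial_le _).trans (Nat.lt_succ_iff.1 (Finset.mem_range.1 hi))
    have hmon : m₂.Monic := monic_of_natDegree_le_of_coeff_eq_one _ hd (by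
      rw [hc _ le_rfl, mon.coeff_natDegree]
      simp)
    have hr : m₂.eval₂ (hy k y) (C P * X ^ c) = 0 := by
      have h1 := congrArg (fun f : F[X] => f.coeff (c * m.natDegree)) root
      rw [eval₂_eq_sum_range] at h1
      simp only [finsetSum_coeff, coeff_zero] at h1
      rw [h₂, eval₂_finsetSum, ← zero_mul (X ^ (c * m.natDegree) : F[X]), ← C_0, ← h1, map_sum,
        Finset.sum_mul]
      refine Finset.sum_congr rfl fun i hi => ?_
      have h3 : i ≤ m.natDegree := Nat.lt_succ_iff.1 (Finset.mem_range.1 hi)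
      have h4 : c * m.natDegree = c * (m.natDegree - i) + c * i := by
        rw [← mul_add, Nat.sub_add_cancel h3]
      rw [eval₂_monomial, MIN.hy_hom k y (MvPolynomial.homogeneousComponent_isHomogeneous _ _),
        mul_pow, ← pow_mul, ← C_pow, ← mul_assoc (hy k y _), h4, coeff_mul_X_pow, coeff_mul_C,
        MIN.coeff_hy, map_mul, pow_add]
      ring
    have he : m₂ = m := eq_of_monic_of_dvd_of_natDegree_le mon hmon (dvd _ hr) hd
    intro i hi
    rw [← congrArg (fun f => coeff f i) he, hc i hi]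
    exact MvPolynomial.homogeneousComponent_isHomogeneous _ _
  · have h1 : X * m.divX = m := by simpa [h0] using X_mul_divX_add m
    have h2 : m.divX ≠ 0 := fun h => mon.ne_zero (by rw [← h1, h, mul_zero])
    have h3 : m.divX.eval₂ (hy k y) (C P * X ^ c) = 0 := by
      rw [← h1, eval₂_mul, eval₂_X] at root
      exact (mul_eq_zero.1 root).resolve_left
        (mul_ne_zero (C_ne_zero.2 hP) (pow_ne_zero _ X_ne_zero))
    have h4 := natDegree_le_of_dvd (dvd _ h3) h2
    rw [natDegree_divX_eq_natDegree_tsub_one] at h4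
    omega

end Pool.Agent.Lib.R6
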