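import Pool.Agent.Lib.NV6.RBlue2
import Pool.Agent.Lib.SV.Ext85

/-! Project NV6, block R, row NI: the inverse square of an equation is not integrable. -/

open scoped Topology ENNReal
open Set MeasureTheory Complex Metric Filter

noncomputable section

namespace Pool.Agent.Lib.R6

open Pool.Agent.Lib.SV

theorem rNI : St_NI := by
  intro n u z O ⟨h1, h2, h3⟩ hO
  by_contra hfin
  obtain ⟨R, hR, hb⟩ := Metric.eventually_nhds_iff_ball.1 (Eventually.and h1 hO)
  have hd : DifferentiableOn ℂ u (ball z R) := fun y hy => (hb y hy).1.differentiableWithinAt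
  have h0 : ∀ x ∈ ball z R, ¬u =ᶠ[𝓝 x] 0 := fun x hx h => h3 (by
    have h4 : u =ᶠ[𝓝 z] fun _ => 0 := by
      filter_upwards [ball_mem_nhds z hR] with y hy
      exact H85.eq_zero_of_convex isOpen_ball (convex_ball z R) hd hx h hy
    rw [h4.fderiv_eq]
    exact fderiv_const_apply 0)
  obtain ⟨g, hg, he⟩ := H85.ext_sq volume (f := fun y => (u y)⁻¹) isOpen_ball hd h0
    ((hd.mono fun y hy => hy.1).inv fun y hy => hy.2) fun x hx =>
      ⟨ball z R, isOpen_ball.mem_nhds hx, ne_top_of_le_ne_top hfin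
        ((lintegral_congr fun y => by rw [norm_inv, inv_pow, normSq_eq_norm_sq]).trans_le
          (lintegral_mono_set fun y hy => (hb y hy.1).2))⟩
  have hc : ContinuousAt (fun y => u y * g y) z :=
    ((hd.mul hg).differentiableAt (ball_mem_nhds z hR)).continuousAt
  have h5 : ∀ᶠ y in 𝓝 z, u y * g y ≠ 1 := hc.eventually_ne (by
    show u z * g z ≠ 1
    rw [h2, zero_mul]
    exact zero_ne_one)
  refine h0 z (mem_ball_self hR) ?_
  filter_upwards [h5, ball_mem_nhds z hR] with y h6 hy
  by_contra h7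
  exact h6 (by rw [he y hy h7, mul_inv_cancel₀ h7])

end Pool.Agent.Lib.R6
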