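import Pool.Agent.Lib.NV6.RBlue2

/-! Project NV6, block R, row ONE: sections are multiples of the generator. -/

open scoped Classical Topology ContDiff ENNReal
open Set MeasureTheory Complex Metric Filter

set_option linter.unusedVariables false

noncomputable section

namespace Pool.Agent.Lib.R6

open Pool.Agent.Lib.SV (E nsq)
open Pool.Agent.Lib.HS32 Pool.Agent.Lib.EX Pool.Agent.Lib.EXS Pool.Agent.Lib.ZL
open Pool.Agent.Lib.ZQ (HqO HqC offz)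
open Pool.Agent.Lib.NV2 (lg Kd Imm Zo)
open Pool.Agent.Lib.NV5 (Rg FM VF Hg Hy dv Ctx)
open Pool.Agent.Lib.NV6.J (Md Rk Se Wz Nj pv)

theorem rONE (hL2V : St_L2V) (hDEN : St_DEN) (hPT : St_PT) (hKIT : St_KIT)
    (hNKIT : NV5.Sb_KIT) : St_ONE := by
  intro n M _ ι _ _ D X F _ _ Φ V m π k lam κ P τ N r r₁ r₂ a b ε hBr hFb hN hAb
  obtain ⟨-, -, -, -, -, -, -, -, hR, -⟩ := hNKIT n M ι D
  have ra : ∀ i, Rg D (a i) := fun i => ⟨_, (hAb.sa i).1⟩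
  have rb : ∀ j, Rg D (b j) := fun j => ⟨_, (hAb.sb j).1⟩
  have ea : ∀ i, Φ.ev (a i) ≠ 0 := fun i h => (hAb.sa i).2 (Φ.inj _ (ra i) h)
  have eb : ∀ j, Φ.ev (b j) ≠ 0 := fun j h => (hAb.sb j).2 (Φ.inj _ (rb j) h)
  have hT : τ ^ N ≠ 0 := pow_ne_zero _ hFb.τ0
  set h : Fin r → M.X → ℂ := fun β y => a (ε β).1 y * b (ε β).2 y with hh
  have rh : ∀ β, Rg D (h β) := fun β => (hR _ _ (ra (ε β).1) (rb (ε β).2)).2.1
  have eh : ∀ β, Φ.ev (h β) = Φ.ev (a (ε β).1) * Φ.ev (b (ε β).2) := fun β =>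
    Φ.mul _ _ (ra (ε β).1) (rb (ε β).2)
  have nh : ∀ β, Φ.ev (h β) ≠ 0 := fun β => by
    rw [eh]; exact mul_ne_zero (ea _) (eb _)
  have nh' : ∀ β, h β ≠ 0 := fun β h0 => by
    rcases (hR _ _ (ra (ε β).1) (rb (ε β).2)).2.2 h0 with h1 | h1
    · exact (hAb.sa _).2 h1
    · exact (hAb.sb _).2 h1
  have c0 : Φ.ev (a 0) * Φ.ev (b 0) ≠ 0 := mul_ne_zero (ea 0) (eb 0)
  have kh : ∀ β, Φ.ev (h β) / (Φ.ev (a 0) * Φ.ev (b 0)) ∈ k := fun β => by
    have e1 : Φ.ev (h β) / (Φ.ev (a 0) * Φ.ev (b 0)) =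
        Φ.ev (a (ε β).1) / (τ ^ N * Φ.ev (b 0)) / (Φ.ev (a 0) / (τ ^ N * Φ.ev (b 0))) *
          (Φ.ev (b (ε β).2) / Φ.ev (b 0)) := by
      have := ea 0
      have := eb 0
      rw [eh]; field_simp
    rw [e1]
    exact k.mul_mem (k.div_mem (hAb.ka _ _) (hAb.ka _ _)) (hAb.kb _ _)
  have p1 : ∀ (j c : ℕ) s, 0 < j → Se X (fun i => N * lam i + 2 * P i) h
      (fun i => j * (N * lam i) + κ i) c s →
      Φ.ev s / (τ ^ (N * j) * (Φ.ev (a 0) * Φ.ev (b 0)) ^ c) ∈ k := by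
    intro j c s hj hs
    have hG : V.GS k (dv m fun i => (N * j : ℕ) * lam i + κ i)
        (Φ.ev s / (Φ.ev (a 0) * Φ.ev (b 0)) ^ c) := by
      intro p hp
      obtain ⟨H, rfl⟩ := hBr.sur p
      obtain ⟨β, hβ⟩ := hL2V n M ι D X F Φ r c h (ε.symm (0, 0))
        (fun i => j * (N * lam i) + κ i) s (fun β => ⟨rh β, nh' β⟩) ⟨_, hs.1⟩ hs.2 H _ _
        (hBr.vl H)
      have v0 : 0 < V.v (π H) (Φ.ev (a 0) * Φ.ev (b 0)) := (Valuation.pos_iff _).2 c0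
      have v1 : V.v (π H) (Φ.ev (h β)) ≤ V.v (π H) (Φ.ev (a 0) * Φ.ev (b 0)) := by
        have := hp _ (kh β)
        rwa [map_div₀, div_le_one₀ v0] at this
      have e2 : dv m (fun i => (N * j : ℕ) * lam i + κ i) (π H) =
          ∑ i, (j * (N * lam i) + κ i) * m i (π H) :=
        Finset.sum_congr rfl fun i _ => by push_cast; ring
      rw [map_div₀, map_pow, div_le_iff₀ (pow_pos v0 c), e2]
      exact hβ.trans (mul_le_mul_right (pow_le_pow_left₀ zero_le v1 c) _)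
    have := hFb.one (N * j) (Nat.mul_pos hN hj) _ hG
    rwa [div_div, mul_comm] at this
  refine ⟨p1, fun g hg hg0 c s s' hs hs' hs0 => ?_⟩
  have rs : Rg D s := ⟨_, hs.1⟩
  have rs' : Rg D s' := ⟨_, hs'.1⟩
  have es : Φ.ev s ≠ 0 := fun h0 => hs0 (Φ.inj _ rs h0)
  have eg : Φ.ev g ≠ 0 := fun h0 => by
    obtain ⟨x, -, hx⟩ := hg0
    exact hx (by rw [Φ.inj _ hg h0]; rfl)
  have q1 := p1 1 c s one_pos (by simpa only [Nat.cast_one, one_mul] using hs)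
  have q2 := p1 1 c s' one_pos (by simpa only [Nat.cast_one, one_mul] using hs')
  have q3 : Φ.ev s' / Φ.ev s ∈ k := by
    have := k.div_mem q2 q1
    rwa [div_div_div_cancel_right₀
      (mul_ne_zero (pow_ne_zero _ hFb.τ0) (pow_ne_zero _ c0))] at this
  have q4 : k ≤ IntermediateField.adjoin ℂ
      (range fun β => Φ.ev (h β) / Φ.ev (h (ε.symm (0, 0)))) := by
    refine hAb.gen.trans (IntermediateField.adjoin.mono _ _ _ ?_)
    rintro _ ⟨j, rfl⟩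
    refine ⟨ε.symm (0, j), ?_⟩
    simp only [eh, Equiv.apply_symm_apply]
    exact mul_div_mul_left _ _ (ea 0)
  obtain ⟨e, A, B, hA, hB, hA0, hAB⟩ :=
    (hDEN F (Fin r) (fun β => Φ.ev (h β)) (ε.symm (0, 0)) nh).1 _ (q4 q3)
  obtain ⟨pt, hpt⟩ := (hPT n M ι D F Φ).1
  have val : ∀ x ∈ off D, ∀ Q : MvPolynomial (Fin r) ℂ,
      MvPolynomial.aeval (fun β => Φ.ev (h β)) Q ∈ (pt x).S ∧
        (pt x).v (MvPolynomial.aeval (fun β => Φ.ev (h β)) Q) = pv h Q x := by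
    intro x hx Q
    obtain ⟨k1, k2⟩ := (hKIT F (pt x)).2.2.2.2.2.2 (Fin r) (fun β => Φ.ev (h β)) Q
      fun β => (hpt.ev x hx _ (rh β)).1
    refine ⟨k1, k2.trans ?_⟩
    have : (fun β => (pt x).v (Φ.ev (h β))) = fun β => h β x :=
      funext fun β => (hpt.ev x hx _ (rh β)).2
    rw [this]; rfl
  refine ⟨e, A, B, hA, hB, ?_, fun x hx => ?_⟩
  · obtain ⟨w, -, ⟨x, hx, hw⟩, hU⟩ := hpt.un {MvPolynomial.aeval (fun β => Φ.ev (h β)) A, Φ.ev g}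
      (by
        intro f hf
        rcases Finset.mem_insert.1 hf with rfl | hf
        · exact hA0
        · rw [Finset.mem_singleton.1 hf]; exact eg)
    have u1 := (hU x ⟨hx, hw⟩ _ (Finset.mem_insert_self _ _)).2
    have u2 := (hU x ⟨hx, hw⟩ _ (Finset.mem_insert_of_mem (Finset.mem_singleton_self _))).2
    rw [(val x hx A).2] at u1
    rw [(hpt.ev x hx g hg).2] at u2
    exact ⟨x, ⟨hx, u2⟩, u1⟩
  · have e3 : Φ.ev s' * MvPolynomial.aeval (fun β => Φ.ev (h β)) A =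
        Φ.ev s * MvPolynomial.aeval (fun β => Φ.ev (h β)) B := by
      rw [← hAB]; field_simp
    have e4 := congrArg (pt x).v e3
    rw [(pt x).mul _ (hpt.ev x hx.1 _ rs').1 _ (val x hx.1 A).1,
      (pt x).mul _ (hpt.ev x hx.1 _ rs).1 _ (val x hx.1 B).1, (val x hx.1 A).2,
      (val x hx.1 B).2, (hpt.ev x hx.1 _ rs).2, (hpt.ev x hx.1 _ rs').2] at e4
    exact e4

end Pool.Agent.Lib.R6
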