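import Pool.Agent.Lib.NV6.RBlue2

/-! Block R: the families and the estimates. -/

open scoped Classical Topology ContDiff ENNReal
open Set MeasureTheory Complex Metric Filter

noncomputable section

namespace Pool.Agent.Lib.R6

open Pool.Agent.Lib.SV (E nsq)
open Pool.Agent.Lib.HS32 Pool.Agent.Lib.EX Pool.Agent.Lib.EXS Pool.Agent.Lib.ZL
open Pool.Agent.Lib.ZQ (offz)
open Pool.Agent.Lib.NV2 (Kd)
open Pool.Agent.Lib.NV5 (Rg FM VF Sb_KIT Sb_FN)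
open Pool.Agent.Lib.NV6.J (Se pv)

namespace OUT

theorem pw {n : ℕ} {M : Mf n} {ι : Type} [Fintype ι] [DecidableEq ι] {D : Ad M ι} {F : Type}
    [Field F] [Algebra ℂ F] (Φ : FM D F)
    (hm : ∀ P Q s t, Sp D P s → Sp D Q t → Sp D (P + Q) (s * t)) {P Q : ι → ℤ}
    {s β : M.X → ℂ} (hs : Sp D Q s) (hβ : Sp D P β) (K : ℕ) :
    Sp D (fun i => Q i + K * P i) (s * β ^ K) ∧ Φ.ev (s * β ^ K) = Φ.ev s * Φ.ev β ^ K := by
  induction K with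
  | zero => simpa using hs
  | succ K ih =>
    have e : (fun i => Q i + (K + 1 : ℕ) * P i) = (fun i => Q i + K * P i) + P := by
      funext i; simp only [Pi.add_apply]; push_cast; ring
    rw [pow_succ, ← mul_assoc, e, Φ.mul _ _ ⟨_, ih.1⟩ ⟨_, hβ⟩, ih.2, pow_succ, mul_assoc (Φ.ev s)]
    exact ⟨hm _ _ _ _ ih.1 hβ, rfl⟩

theorem big {ι : Type} [Fintype ι] (e : ι → ℕ) (he : ∀ i, 0 < e i) (P Q : ι → ℤ) :
    ∃ c : ℕ, ∀ i, P i ≤ c * e i ∧ Q i ≤ c * e i := by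
  refine ⟨∑ i, ((P i).natAbs + (Q i).natAbs), fun i => ?_⟩
  have h1 : (P i).natAbs + (Q i).natAbs ≤ ∑ i, ((P i).natAbs + (Q i).natAbs) :=
    Finset.single_le_sum (f := fun i => (P i).natAbs + (Q i).natAbs) (fun _ _ => Nat.zero_le _)
      (Finset.mem_univ i)
  have h2 := Nat.le_mul_of_pos_right (∑ i, ((P i).natAbs + (Q i).natAbs)) (he i)
  have h3 : (((P i).natAbs + (Q i).natAbs : ℕ) : ℤ) ≤
      ((∑ i, ((P i).natAbs + (Q i).natAbs) : ℕ) : ℤ) * e i := by exact_mod_cast h1.trans h2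
  constructor <;> omega

theorem nsq_mul {r r₁ r₂ : ℕ} (ε : Fin r ≃ Fin r₁ × Fin r₂) (a : Fin r₁ → ℂ) (b : Fin r₂ → ℂ) :
    ∑ β, normSq (a (ε β).1 * b (ε β).2) = nsq a * nsq b := by
  rw [ε.sum_comp fun q => normSq (a q.1 * b q.2), Fintype.sum_prod_type, nsq, nsq,
    Finset.sum_mul_sum]
  simp only [map_mul]

theorem fin {s g T η q A B ρ H C C₀ : ℝ} {j c e : ℕ} (hH : 0 < H) (h0 : 0 < C₀) (hT : 0 ≤ T)
    (hρ : 0 ≤ ρ) (hη : 0 ≤ η) (hη' : η ≤ H) (hC : 0 ≤ C) (hA : 0 ≤ A) (hs : s = g * T ^ j * η ^ c)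
    (h : g * B ^ j * (q / (C₀ * H ^ e)) ^ (c + 1) ≤ C * A ^ j) :
    s * (B * ρ) ^ j * q ^ (c + 1) ≤ C * C₀ ^ (c + 1) * (T * A * ρ) ^ j * H ^ (c + e * (c + 1)) := by
  have p : 0 < C₀ * H ^ e := by positivity
  have h1 : g * B ^ j * q ^ (c + 1) ≤ C * A ^ j * (C₀ * H ^ e) ^ (c + 1) := by
    rw [div_pow, ← mul_div_assoc, div_le_iff₀ (by positivity)] at h
    exact h
  have h2 : η ^ c ≤ H ^ c := pow_le_pow_left₀ hη hη' c
  calc s * (B * ρ) ^ j * q ^ (c + 1) = g * B ^ j * q ^ (c + 1) * ((T * ρ) ^ j * η ^ c) := by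
        rw [hs, mul_pow, mul_pow]; ring
    _ ≤ C * A ^ j * (C₀ * H ^ e) ^ (c + 1) * ((T * ρ) ^ j * H ^ c) :=
        mul_le_mul h1 (mul_le_mul_of_nonneg_left h2 (by positivity)) (by positivity) (by positivity)
    _ = _ := by rw [mul_pow, mul_pow, mul_pow, mul_pow, pow_add H, pow_mul]; ring

end OUT

open OUT in
theorem rOUT (hKIT : St_KIT) (hALG : St_ALG) (hDEN : St_DEN) (hFGK : St_FGK) (hPT : St_PT)
    (hKD : St_KD) (hSET : St_SET) (hONE : St_ONE) (hFAM : St_FAM) (hLOW : St_LOW)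
    (hNKIT : Sb_KIT) (hFN : Sb_FN) : St_OUT := by
  intro n M _ ι _ _ D X r t F _ _ Φ V m π k lam κ τ hP hB hF
  obtain ⟨kmono, -, kmul, -⟩ := hNKIT n M ι D
  obtain ⟨-, ev0, -⟩ := hFN n M ι D F Φ
  obtain ⟨⟨pt, hpt⟩, -⟩ := hPT n M ι D F Φ
  obtain ⟨⟨s₀, hs₀, halg⟩, hsec, htau⟩ := hSET n M ι D X r t F Φ V m π k lam κ τ hP hB hF
  obtain ⟨⟨g₀, hg₀⟩, ⟨q₀, γ, γ0, γne, hk⟩, -⟩ := hFGK F k n V.fg V.tr
  obtain ⟨c₁, s, β, hβ, i₀, hi₀⟩ := hKD n M ι D X lam hP.big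
  have evne : ∀ u, Rg D u → u ≠ 0 → Φ.ev u ≠ 0 := fun u hu h0 h => h0 (Φ.inj u hu h)
  obtain ⟨N, s₁, s₂, A, B, U, hN, hA, hB', hU, ⟨C₁, hC₁, ha⟩, hb⟩ :=
    hALG F k (Fin r) (fun a => Φ.ev (t a)) s₀ g₀ c₁ s (fun i => τ * Φ.ev (β i)) hs₀ halg hg₀
      (fun i => htau c₁ _ (hβ.1 i)) ⟨i₀, mul_ne_zero hF.τ0 (evne _ ⟨_, hβ.1 i₀⟩ hi₀)⟩
  obtain ⟨r₁, r₂, P, a, b, ρ, hAb, hρ⟩ := hFAM n M ι D F Φ pt k (τ ^ N) (fun i => N * lam i) q₀ s₁ s₂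
    γ A B hpt (pow_ne_zero _ hF.τ0) γ0 γne hk (fun j => ⟨(hA j).1, hU _ (hA j).2⟩)
    fun j => ⟨(hB' j).1, hU _ (hB' j).2⟩
  refine ⟨N, r₁, r₂, P, a, b, hN, hAb, fun r' ε => ?_⟩
  have ra : ∀ i, Rg D (a i) := fun i => ⟨_, (hAb.sa i).1⟩
  have rb : ∀ j, Rg D (b j) := fun j => ⟨_, (hAb.sb j).1⟩
  have na : ∀ i, Φ.ev (a i) ≠ 0 := fun i => evne _ (ra i) (hAb.sa i).2
  have nb : ∀ j, Φ.ev (b j) ≠ 0 := fun j => evne _ (rb j) (hAb.sb j).2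
  obtain ⟨c₂, hc₂⟩ := big X.e hP.epos (fun i => N * lam i + 2 * P i)
    fun i => N * lam i + 2 * P i + κ i
  have s00 : Sp D (fun i => N * lam i + 2 * P i) (a 0 * b 0) :=
    kmono _ _ _ (fun i => by simp only [Pi.add_apply]; omega) (kmul _ _ _ _ (hAb.sa 0).1 (hAb.sb 0).1)
  have e00 : Φ.ev (a 0 * b 0) = Φ.ev (a 0) * Φ.ev (b 0) := Φ.mul _ _ (ra 0) (rb 0)
  obtain ⟨V₀, hV₀, hb⟩ := hb (Φ.ev (a 0) * Φ.ev (b 0)) c₂ (mul_ne_zero (na 0) (nb 0))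
    (e00 ▸ hsec c₂ _ (kmono _ _ _ (fun i => (hc₂ i).1) s00))
  obtain ⟨h, hh⟩ : ∃ h : Fin r' → F, h = fun δ => Φ.ev (a (ε δ).1) * Φ.ev (b (ε δ).2) := ⟨_, rfl⟩
  have hle : k ≤ IntermediateField.adjoin ℂ (range fun δ => h δ / h (ε.symm (0, 0))) := by
    refine hAb.gen.trans (IntermediateField.adjoin.mono _ _ _ ?_)
    rintro _ ⟨j, rfl⟩
    refine ⟨ε.symm (0, j), ?_⟩
    simp only [hh, Equiv.apply_symm_apply]
    exact mul_div_mul_left _ _ (na 0)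
  obtain ⟨e, Q, C₀, hQ, nQ, hC₀, hd⟩ := (hDEN F (Fin r') h (ε.symm (0, 0))
    fun δ => by rw [hh]; exact mul_ne_zero (na _) (nb _)).2 V₀
    fun f hf => ⟨hle (hV₀ f hf).1, (hV₀ f hf).2⟩
  obtain ⟨g, rg, ng, hg⟩ := hpt.un (U ∪ V₀ ∪ {τ, MvPolynomial.aeval h Q} ∪ Finset.univ.image γ ∪
      Finset.univ.image (fun i => Φ.ev (a i)) ∪ Finset.univ.image fun j => Φ.ev (b j)) (by
    intro f hf
    simp only [Finset.mem_union, Finset.mem_insert, Finset.mem_singleton, Finset.mem_image,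
      Finset.mem_univ, true_and] at hf
    rcases hf with ((((hf | hf) | rfl | rfl) | ⟨i, rfl⟩) | ⟨i, rfl⟩) | ⟨i, rfl⟩
    exacts [hU f hf, (hV₀ f hf).2, hF.τ0, nQ, γne i, na i, nb i])
  have key : ∀ x ∈ offz D g, (pt x).Un U ∧ (pt x).Un V₀ ∧ (τ ∈ (pt x).S ∧ (pt x).v τ ≠ 0) ∧
      (pt x).v (MvPolynomial.aeval h Q) ≠ 0 ∧ (∀ i, γ i ∈ (pt x).S) ∧ (∀ i, a i x ≠ 0) ∧
      ∀ j, b j x ≠ 0 := fun x hx => by
    have u := hg x hx
    refine ⟨fun f hf => u f (by simp [hf]), fun f hf => u f (by simp [hf]), u _ (by simp),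
      (u _ (by simp)).2, fun i => (u _ (by simp)).1, fun i => ?_, fun j => ?_⟩
    · rw [← (hpt.ev x hx.1 _ (ra i)).2]; exact (u _ (by simp)).2
    · rw [← (hpt.ev x hx.1 _ (rb j)).2]; exact (u _ (by simp)).2
  have vh : ∀ x ∈ off D, ∀ δ, h δ ∈ (pt x).S ∧ (pt x).v (h δ) = a (ε δ).1 x * b (ε δ).2 x :=
    fun x hx δ => by
      have h1 := hpt.ev x hx _ (ra (ε δ).1)
      have h2 := hpt.ev x hx _ (rb (ε δ).2)
      rw [hh]
      exact ⟨mul_mem h1.1 h2.1, by rw [(pt x).mul _ h1.1 _ h2.1, h1.2, h2.2]⟩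
  have vQ : ∀ x ∈ off D, (pt x).v (MvPolynomial.aeval h Q) =
      pv (fun δ y => a (ε δ).1 y * b (ε δ).2 y) Q x := fun x hx => by
    rw [((hKIT F (pt x)).2.2.2.2.2.2 _ h Q fun δ => (vh x hx δ).1).2]
    simp only [(vh x hx _).2]
    rfl
  have fam : ∀ x ∈ offz D g, 0 ≤ ρ x ∧
      nsq (a · x) = normSq ((pt x).v (τ ^ N)) * (pt x).N A * ρ x ∧
      nsq (b · x) = (pt x).N B * ρ x := fun x hx => by
    obtain ⟨u1, -, u3, -, u5, -⟩ := key x hx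
    exact hρ x hx.1 (pow_mem u3.1 _) u5 (fun j => (u1 _ (hA j).2).1) fun j => (u1 _ (hB' j).2).1
  have N0 : ∀ (p : Pt F) (σ : Type) [Fintype σ] (y : σ → F), 0 ≤ p.N y := fun p σ _ y =>
    Finset.sum_nonneg fun _ _ => normSq_nonneg _
  refine ⟨g, e, Q, rg, ng, hQ, fun x hx => ?_, ?_, fun j c u hj hu => ?_⟩
  · obtain ⟨-, -, -, u4, -, u6, u7⟩ := key x hx
    exact ⟨u6, u7, vQ x hx.1 ▸ u4⟩
  · obtain ⟨C', hC'⟩ := hLOW n M ι D F Φ pt (fun i => X.e i) lam r s c₁ N t β τ hpt hP.kd.1 hβ C₁ hC₁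
    refine ⟨C', fun x hx => ?_⟩
    obtain ⟨u1, -, u3, -⟩ := key x hx
    obtain ⟨f1, f2, f3⟩ := fam x hx
    have := hC' x hx.1 u3.1 _ _ (N0 _ _ A) (N0 _ _ B) fun i =>
      ha (pt x) u1 (fun s => (hpt.ev x hx.1 _ ⟨_, hP.kd.1 s⟩).1) i
        (mul_mem u3.1 (hpt.ev x hx.1 _ ⟨_, hβ.1 i⟩).1)
    rw [f2, f3, ← mul_assoc]
    exact mul_le_mul_of_nonneg_right this f1
  · have hγ := (hONE n M ι D X F Φ V m π k lam κ P τ N r' r₁ r₂ a b ε hB hF hN hAb).1 j c u hj hu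
    obtain ⟨η, hη⟩ : ∃ η, η = Φ.ev (a 0) * Φ.ev (b 0) := ⟨_, rfl⟩
    have η0 : η ≠ 0 := hη ▸ mul_ne_zero (na 0) (nb 0)
    rw [← hη] at hγ hb e00
    have τ0 := hF.τ0
    obtain ⟨C, hC, hb⟩ := hb j (c + 1) _ hγ fun i => by
      obtain ⟨p1, p2⟩ := pw Φ kmul (kmul _ _ _ _ hu.1 s00) (hβ.1 i) (N * j)
      have := hsec (c₁ * (N * j) + c₂ * (c + 1)) _ (kmono _ _ _ (fun l => by
        have h1 := mul_le_mul_of_nonneg_left (hc₂ l).1 (Int.natCast_nonneg c)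
        have h2 := (hc₂ l).2
        simp only [Pi.add_apply]
        push_cast
        nlinarith) p1)
      rw [p2, Φ.mul _ _ ⟨_, hu.1⟩ ⟨_, s00⟩, e00] at this
      have e1 : Φ.ev u / (τ ^ (N * j) * η ^ c) * (τ * Φ.ev (β i)) ^ (N * j) * η ^ (c + 1) =
          Φ.ev u * η * Φ.ev (β i) ^ (N * j) := by
        rw [mul_pow, pow_succ]; field_simp
      rw [e1]; exact this
    refine ⟨C * C₀ ^ (c + 1), fun x hx => ?_⟩
    obtain ⟨u1, u2, u3, -, -, u6, u7⟩ := key x hx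
    obtain ⟨f1, f2, f3⟩ := fam x hx
    obtain ⟨-, -, -, kp, kd, -⟩ := hKIT F (pt x)
    have hu' := hpt.ev x hx.1 u ⟨_, hu.1⟩
    have hη' := hpt.ev x hx.1 _ ⟨_, s00⟩
    rw [e00] at hη'
    have d1 : τ ^ (N * j) * η ^ c ∈ (pt x).S := mul_mem (pow_mem u3.1 _) (pow_mem hη'.1 _)
    have d2 : (pt x).v (τ ^ (N * j) * η ^ c) = (pt x).v (τ ^ N) ^ j * (a 0 x * b 0 x) ^ c := by
      rw [(pt x).mul _ (pow_mem u3.1 _) _ (pow_mem hη'.1 _), pow_mul, kp _ (pow_mem u3.1 _),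
        kp _ hη'.1, hη'.2, Pi.mul_apply]
    have d3 : (pt x).v (τ ^ (N * j) * η ^ c) ≠ 0 := by
      rw [d2, kp _ u3.1]
      exact mul_ne_zero (pow_ne_zero _ (pow_ne_zero _ u3.2)) (pow_ne_zero _ (mul_ne_zero (u6 0) (u7 0)))
    obtain ⟨d4, d5⟩ := kd _ hu'.1 _ d1 d3
    have nh : (pt x).N h = nsq (a · x) * nsq (b · x) := by
      rw [← nsq_mul ε]
      exact Finset.sum_congr rfl fun δ _ => by rw [(vh x hx.1 δ).2]
    have l0 : normSq (a 0 x * b 0 x) ≤ nsq (a · x) * nsq (b · x) := by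
      rw [← nsq_mul ε]
      have := Finset.single_le_sum (f := fun δ => normSq (a (ε δ).1 x * b (ε δ).2 x))
        (fun _ _ => normSq_nonneg _) (Finset.mem_univ (ε.symm (0, 0)))
      simpa only [Equiv.apply_symm_apply] using this
    have p0 : 0 < nsq (a · x) * nsq (b · x) :=
      (normSq_pos.2 (mul_ne_zero (u6 0) (u7 0))).trans_le l0
    have h1 := hb (pt x) (normSq (pv (fun δ y => a (ε δ).1 y * b (ε δ).2 y) Q x) /
      (C₀ * (nsq (a · x) * nsq (b · x)) ^ e)) u1 u2 d4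
      (div_nonneg (normSq_nonneg _) (by positivity)) fun f hf => by
        have := hd (pt x) (fun δ => (vh x hx.1 δ).1) f hf (u2 f hf).1
        rw [vQ x hx.1, nh] at this
        rw [div_le_iff₀ (by positivity)]
        linarith
    have h2 := fin (s := normSq (u x)) (T := normSq ((pt x).v (τ ^ N))) p0 hC₀ (normSq_nonneg _) f1
      (normSq_nonneg _) l0 hC (N0 _ _ A) (by
        rw [← map_pow, ← map_pow, mul_assoc, ← map_mul, ← map_mul, ← d2, d5, hu'.2,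
          div_mul_cancel₀ _ d3]) h1
    rw [← f2, ← f3] at h2
    exact h2

end Pool.Agent.Lib.R6
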