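import Pool.Agent.Lib.NV6.RBlue2

/-! Project NV6, row PT: the points of the manifold as points of the field. -/

open scoped Classical Topology ContDiff ENNReal
open Set MeasureTheory Complex Metric Filter

noncomputable section

namespace Pool.Agent.Lib.R6

open Pool.Agent.Lib.SV (E nsq)
open Pool.Agent.Lib.HS32 Pool.Agent.Lib.EX Pool.Agent.Lib.EXS Pool.Agent.Lib.ZL
open Pool.Agent.Lib.ZQ (offz)
open Pool.Agent.Lib.NV5 (Rg FM un Sb_KIT Sb_FN)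

namespace PT

variable {n : ℕ} {M : Mf n} {ι : Type} [Fintype ι] [DecidableEq ι] {D : Ad M ι}
  {F : Type} [Field F] [Algebra ℂ F] (Φ : FM D F)

/-- `f` is the quotient of `s` and `t`, and `t` is not zero at `x`. -/
def Qt (x : M.X) (f : F) (s t : M.X → ℂ) : Prop :=
  Rg D s ∧ Rg D t ∧ t x ≠ 0 ∧ f * Φ.ev t = Φ.ev s

/-- The value at `x`. -/
def vl (x : M.X) (f : F) : ℂ :=
  if h : ∃ p : (M.X → ℂ) × (M.X → ℂ), Qt Φ x f p.1 p.2 then h.choose.1 x / h.choose.2 x else 0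

end PT

open PT in
theorem rPT (hK : Sb_KIT) (hF : Sb_FN) : St_PT := by
  intro n M _ ι _ _ D F _ _ Φ
  obtain ⟨-, -, -, ksm, k0, k1, k2, -, kr, -⟩ := hK n M ι D
  obtain ⟨f1, f0, fi, -⟩ := hF n M ι D F Φ
  have r1 : Rg D (un D) := ⟨_, k1⟩
  have rs : ∀ (c : ℂ) s, Rg D s → Rg D (c • s) := fun c s ⟨Q, h⟩ => ⟨Q, ksm Q c s h⟩
  have ra := fun s t hs ht => (kr s t hs ht).1
  have rm := fun s t hs ht => (kr s t hs ht).2.1
  have den : ∀ U : Finset F, ∃ w, Rg D w ∧ w ≠ 0 ∧ ∀ f ∈ U, ∃ s, Rg D s ∧ Φ.ev s = f * Φ.ev w := by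
    intro U
    induction U using Finset.induction_on with
    | empty => exact ⟨un D, r1, k2, fun f hf => absurd hf (Finset.notMem_empty f)⟩
    | insert g U _ ih =>
      obtain ⟨w, w1, w2, w3⟩ := ih
      obtain ⟨⟨s, t⟩, a1, a2, a3, rfl⟩ := Φ.frac g
      refine ⟨t * w, rm _ _ a2 w1, fun h => ((kr _ _ a2 w1).2.2 h).elim a3 w2, fun f hf => ?_⟩
      rcases Finset.mem_insert.1 hf with rfl | hf
      · refine ⟨s * w, rm _ _ a1 w1, ?_⟩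
        rw [Φ.mul _ _ a1 w1, Φ.mul _ _ a2 w1, ← mul_assoc,
          div_mul_cancel₀ _ (mt (Φ.inj _ a2) a3)]
      · obtain ⟨u, u1, u2⟩ := w3 f hf
        exact ⟨t * u, rm _ _ a2 u1, by rw [Φ.mul _ _ a2 u1, Φ.mul _ _ a2 w1, u2, mul_left_comm]⟩
  refine ⟨?_, den⟩
  have ev : ∀ x f s t, Qt Φ x f s t → vl Φ x f = s x / t x := fun x f s t h => by
    have h' : ∃ p : (M.X → ℂ) × (M.X → ℂ), Qt Φ x f p.1 p.2 := ⟨(s, t), h⟩
    obtain ⟨a1, a2, a3, a4⟩ := h'.choose_spec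
    rw [vl, dif_pos h', div_eq_div_iff a3 h.2.2.1, mul_comm (s x)]
    refine congrFun (fi (_ * t) (_ * s) (rm _ _ a1 h.2.1) (rm _ _ a2 h.1) ?_) x
    rw [Φ.mul _ _ a1 h.2.1, Φ.mul _ _ a2 h.1, ← a4, ← h.2.2.2]
    ring
  have qa : ∀ {x f g s t s' t'}, Qt Φ x f s t → Qt Φ x g s' t' →
      Qt Φ x (f + g) (s * t' + t * s') (t * t') ∧ Qt Φ x (f * g) (s * s') (t * t') :=
    fun ⟨a1, a2, a3, a4⟩ ⟨b1, b2, b3, b4⟩ =>
      ⟨⟨ra _ _ (rm _ _ a1 b2) (rm _ _ a2 b1), rm _ _ a2 b2, mul_ne_zero a3 b3, by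
        rw [Φ.add _ _ (rm _ _ a1 b2) (rm _ _ a2 b1), Φ.mul _ _ a1 b2, Φ.mul _ _ a2 b1,
          Φ.mul _ _ a2 b2, ← a4, ← b4]
        ring⟩, rm _ _ a1 b1, rm _ _ a2 b2, mul_ne_zero a3 b3, by
        rw [Φ.mul _ _ a1 b1, Φ.mul _ _ a2 b2, ← a4, ← b4]
        ring⟩
  have u1 : ∀ x ∈ off D, un D x = 1 := fun x hx => indicator_of_mem hx _
  have q1 : ∀ x ∈ off D, ∀ s, Rg D s → Qt Φ x (Φ.ev s) s (un D) := fun x hx s hs =>
    ⟨hs, r1, (u1 x hx).trans_ne one_ne_zero, by rw [f1, mul_one]⟩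
  have qc : ∀ x ∈ off D, ∀ c : ℂ, Qt Φ x (algebraMap ℂ F c) (c • un D) (un D) := fun x hx c => by
    have := q1 x hx _ (rs c _ r1)
    rwa [Φ.smul _ _ r1, f1, ← Algebra.algebraMap_eq_smul_one] at this
  let p : off D → Pt F := fun x =>
    { S :=
        { carrier := {f | ∃ s t, Qt Φ x f s t}
          add_mem' := fun ⟨_, _, a⟩ ⟨_, _, b⟩ => ⟨_, _, (qa a b).1⟩
          mul_mem' := fun ⟨_, _, a⟩ ⟨_, _, b⟩ => ⟨_, _, (qa a b).2⟩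
          algebraMap_mem' := fun c => ⟨_, _, qc x x.2 c⟩ }
      v := vl Φ x
      add := fun f ⟨_, _, a⟩ g ⟨_, _, b⟩ => by
        rw [ev _ _ _ _ (qa a b).1, ev _ _ _ _ a, ev _ _ _ _ b, div_add_div _ _ a.2.2.1 b.2.2.1]
        rfl
      mul := fun f ⟨_, _, a⟩ g ⟨_, _, b⟩ => by
        rw [ev _ _ _ _ (qa a b).2, ev _ _ _ _ a, ev _ _ _ _ b, div_mul_div_comm]
        rfl
      cst := fun c => by
        rw [ev _ _ _ _ (qc x x.2 c), Pi.smul_apply, u1 x x.2, smul_eq_mul, mul_one, div_one]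
      inv := fun f ⟨s, t, a⟩ h => by
        rw [ev _ _ _ _ a] at h
        have s0 := (div_ne_zero_iff.1 h).1
        have f0 : f ≠ 0 := fun e => s0 (congrFun (Φ.inj s a.1 (by rw [← a.2.2.2, e, zero_mul])) _)
        exact ⟨t, s, a.2.1, a.1, s0, by rw [← a.2.2.2, inv_mul_cancel_left₀ f0]⟩ }
  obtain ⟨x₀, h₀⟩ := Function.ne_iff.1 k2
  have h₀ : x₀ ∈ off D := by_contra fun h => h₀ (k1.2 x₀ h)
  refine ⟨fun x => p (if h : x ∈ off D then ⟨x, h⟩ else ⟨x₀, h₀⟩), fun x hx s hs => ?_,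
    fun U hU => ?_⟩
  · rw [dif_pos hx]
    exact ⟨⟨_, _, q1 x hx s hs⟩, (ev _ _ _ _ (q1 x hx s hs)).trans (by rw [u1 x hx, div_one])⟩
  · obtain ⟨w, w1, w2, w3⟩ := den (U ∪ U.image fun f => f⁻¹)
    obtain ⟨x, hx⟩ := Function.ne_iff.1 w2
    refine ⟨w, w1, ⟨x, by_contra fun h => hx (w1.choose_spec.2 x h), hx⟩, fun x hx f hf => ?_⟩
    obtain ⟨s, s1, s2⟩ := w3 f (Finset.mem_union_left _ hf)
    obtain ⟨t, t1, t2⟩ := w3 f⁻¹ (Finset.mem_union_right _ (Finset.mem_image_of_mem _ hf))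
    have a : Qt Φ x f s w := ⟨s1, w1, hx.2, s2.symm⟩
    have b : Qt Φ x f⁻¹ t w := ⟨t1, w1, hx.2, t2.symm⟩
    rw [dif_pos hx.1]
    refine ⟨⟨_, _, a⟩, fun h => one_ne_zero (α := ℂ) ?_⟩
    have e := (p ⟨x, hx.1⟩).mul f ⟨_, _, a⟩ f⁻¹ ⟨_, _, b⟩
    rwa [h, zero_mul, mul_inv_cancel₀ (hU f hf), ← map_one (algebraMap ℂ F), Pt.cst] at e

end Pool.Agent.Lib.R6
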