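import Pool.Agent.Lib.NV6.RBlue2

/-! Block R: the theorem of the block. -/

namespace Pool.Agent.Lib.R6

theorem rR (hOUT : St_OUT) (hONE : St_ONE) (hMD : St_MD) : St_R := by
  intro n M _ ι _ _ D X r t F _ _ Φ V m π k a₀ lam κ τ hP hZ hB hF
  obtain ⟨N, r₁, r₂, P, a, b, hN, hA, h⟩ := hOUT n M ι D X r t F Φ V m π k lam κ τ hP hB hF
  refine ⟨N, r₁, r₂, P, a, b, hN, hA, fun r' ε => ?_⟩
  obtain ⟨g, e, Q, hE⟩ := h r' ε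
  obtain ⟨b₀, hM⟩ := hMD n M ι D X a₀ N r' r₁ r₂ e lam κ P a b ε g Q hP.hall hZ hN
    (fun i => (hA.sa i).1) (fun j => (hA.sb j).1) hE
  exact ⟨g, e, b₀, hE.r1, hM,
    (hONE n M ι D X F Φ V m π k lam κ P τ N r' r₁ r₂ a b ε hB hF hN hA).2 g hE.rg hE.ne⟩

end Pool.Agent.Lib.R6
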