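import Pool.Agent.Lib.NV6.RBlue

/-! Project NV6, block R, row ROOT: the bound for the roots. -/

open Polynomial Complex Set

noncomputable section

namespace Pool.Agent.Lib.R6

namespace ROOT

/-- The bound of Cauchy in weighted form. -/
theorem cauchy (n : ℕ) (hn : 0 < n) (a : ℕ → ℂ) (K : ℕ → ℝ) (z : ℂ) (ρ : ℝ) (hρ : 0 ≤ ρ)
    (hK : ∀ i, 0 ≤ K i) (ha : ∀ i < n, ‖a i‖ ≤ K i * ρ ^ (n - i))
    (h : ∑ i ∈ Finset.range n, a i * z ^ i + z ^ n = 0) :
    ‖z‖ ≤ (1 + ∑ i ∈ Finset.range n, K i) * ρ := by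
  by_contra hc
  rw [not_le] at hc
  have hS : 0 ≤ ∑ i ∈ Finset.range n, K i := Finset.sum_nonneg fun i _ => hK i
  have hρz : ρ ≤ ‖z‖ := by nlinarith [mul_nonneg hS hρ]
  have hz : 0 < ‖z‖ := lt_of_le_of_lt (by positivity) hc
  obtain ⟨l, rfl⟩ : ∃ l, n = l + 1 := ⟨n - 1, by omega⟩
  have h1 : z ^ (l + 1) = -∑ i ∈ Finset.range (l + 1), a i * z ^ i := by
    rw [eq_neg_iff_add_eq_zero, add_comm]; exact h
  have h2 : ‖z‖ ^ (l + 1) ≤ ∑ i ∈ Finset.range (l + 1), K i * (ρ * ‖z‖ ^ l) := by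
    rw [← norm_pow, h1, norm_neg]
    refine (norm_sum_le _ _).trans (Finset.sum_le_sum fun i hi => ?_)
    have hi' : i < l + 1 := Finset.mem_range.1 hi
    rw [norm_mul, norm_pow]
    have e1 : l + 1 - i = (l - i) + 1 := by omega
    have e2 : ‖z‖ ^ l = ‖z‖ ^ (l - i) * ‖z‖ ^ i := by
      rw [← pow_add]; congr 1; omega
    have h3 : ρ ^ (l - i) ≤ ‖z‖ ^ (l - i) := pow_le_pow_left₀ hρ hρz _
    have h4 := ha i hi'
    rw [e1, pow_succ] at h4
    have h5 : K i * (ρ ^ (l - i) * ρ) ≤ K i * (‖z‖ ^ (l - i) * ρ) :=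
      mul_le_mul_of_nonneg_left (mul_le_mul_of_nonneg_right h3 hρ) (hK i)
    calc ‖a i‖ * ‖z‖ ^ i ≤ K i * (‖z‖ ^ (l - i) * ρ) * ‖z‖ ^ i :=
          mul_le_mul_of_nonneg_right (h4.trans h5) (by positivity)
      _ = K i * (ρ * ‖z‖ ^ l) := by rw [e2]; ring
  rw [← Finset.sum_mul, pow_succ] at h2
  have hl : 0 < ‖z‖ ^ l := by positivity
  have h6 : ‖z‖ ^ l * ‖z‖ ≤ ‖z‖ ^ l * ((∑ i ∈ Finset.range (l + 1), K i) * ρ) := by
    calc ‖z‖ ^ l * ‖z‖ ≤ _ := h2
      _ = _ := by ring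
  have h7 := le_of_mul_le_mul_left h6 hl
  nlinarith

variable {F : Type} [Field F] [Algebra ℂ F] {σ : Type}

theorem ev1 (k : IntermediateField ℂ F) (y : σ → F) :
    (Polynomial.evalRingHom (1 : F)).comp (hy k y) =
      MvPolynomial.eval₂Hom (algebraMap k F) y := by
  refine MvPolynomial.ringHom_ext (fun a => ?_) fun i => ?_
  · simp [hy]
  · simp [hy]

theorem eqn (k : IntermediateField ℂ F) (y : σ → F) (c : ℕ) (P : F)
    (m : (MvPolynomial σ k)[X]) (hm : Mp k y c P m) :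
    ∑ i ∈ Finset.range m.natDegree,
      MvPolynomial.eval₂Hom (algebraMap k F) y (m.coeff i) * P ^ i + P ^ m.natDegree = 0 := by
  have h := congrArg (Polynomial.evalRingHom (1 : F)) hm.root
  rw [Polynomial.hom_eval₂, ev1, map_zero, Polynomial.eval₂_eq_sum_range,
    Finset.sum_range_succ] at h
  have h1 : m.coeff m.natDegree = 1 := hm.mon.coeff_natDegree
  have h2 : Polynomial.evalRingHom (1 : F) (C P * X ^ c) = P := by simp
  rw [h1, map_one, one_mul, h2] at h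
  exact h

theorem le_N [Fintype σ] (p : Pt F) (y : σ → F) (s : σ) : normSq (p.v (y s)) ≤ p.N y :=
  Finset.single_le_sum (f := fun i => normSq (p.v (y i))) (fun _ _ => normSq_nonneg _)
    (Finset.mem_univ s)

theorem N_nonneg [Fintype σ] (p : Pt F) (y : σ → F) : 0 ≤ p.N y :=
  Finset.sum_nonneg fun _ _ => normSq_nonneg _

/-- The value of a form at a point. -/
theorem form (hK : St_KIT) [Fintype σ] (k : IntermediateField ℂ F) (y : σ → F) (p : Pt F)
    (hy' : ∀ s, y s ∈ p.S) (f : MvPolynomial σ k) (e : ℕ) (hf : f.IsHomogeneous e) (T : ℝ)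
    (hT : 0 ≤ T) (hc : ∀ α, ((f.coeff α : k) : F) ∈ p.S ∧ normSq (p.v (f.coeff α : k)) ≤ T) :
    MvPolynomial.eval₂Hom (algebraMap k F) y f ∈ p.S ∧
      ‖p.v (MvPolynomial.eval₂Hom (algebraMap k F) y f)‖ ≤
        (f.support.card : ℝ) * Real.sqrt (T * p.N y ^ e) := by
  obtain ⟨-, -, -, hpow, -, hsum, -⟩ := hK F p
  have hmem : ∀ α : σ →₀ ℕ, (∏ s, y s ^ α s) ∈ p.S := fun α =>
    prod_mem fun s _ => pow_mem (hy' s) _
  have hv : ∀ α : σ →₀ ℕ, p.v (∏ s, y s ^ α s) = ∏ s, p.v (y s) ^ α s := fun α => by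
    rw [(hsum σ Finset.univ (fun s => y s ^ α s) fun s _ => pow_mem (hy' s) _).2]
    exact Finset.prod_congr rfl fun s _ => hpow _ (hy' s) _
  have e0 : MvPolynomial.eval₂Hom (algebraMap k F) y f =
      ∑ α ∈ f.support, ((f.coeff α : k) : F) * ∏ s, y s ^ α s := by
    rw [MvPolynomial.coe_eval₂Hom, MvPolynomial.eval₂_eq']
    rfl
  rw [e0]
  refine ⟨sum_mem fun α _ => mul_mem (hc α).1 (hmem α), ?_⟩
  rw [(hsum _ f.support (fun α => ((f.coeff α : k) : F) * ∏ s, y s ^ α s)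
    fun α _ => mul_mem (hc α).1 (hmem α)).1]
  refine (norm_sum_le _ _).trans ?_
  rw [← nsmul_eq_mul]
  refine Finset.sum_le_card_nsmul _ _ _ fun α hα => ?_
  rw [p.mul _ (hc α).1 _ (hmem α), hv]
  refine Real.le_sqrt_of_sq_le ?_
  rw [← normSq_eq_norm_sq, map_mul, map_prod]
  have hd : ∑ s, α s = e := by
    have h1 := hf (MvPolynomial.mem_support_iff.1 hα)
    rw [← h1, Finsupp.weight_apply, Finsupp.sum_fintype _ _ (by simp)]
    simp
  refine mul_le_mul (hc α).2 ?_ (Finset.prod_nonneg fun _ _ => normSq_nonneg _) hT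
  rw [← hd, ← Finset.prod_pow_eq_pow_sum]
  refine Finset.prod_le_prod (fun _ _ => normSq_nonneg _) fun s _ => ?_
  rw [map_pow]
  exact pow_le_pow_left₀ (normSq_nonneg _) (le_N p y s) _

end ROOT

open ROOT in
theorem rROOT (hK : St_KIT) : St_ROOT := by
  intro F _ _ k σ _ y c N P m hm hN hd
  set n := m.natDegree with hn
  let K : ℕ → ℝ := fun i => ((m.coeff i).support.card : ℝ)
  refine ⟨((1 + ∑ i ∈ Finset.range n, K i) ^ 2) ^ N, by positivity, ?_⟩
  intro p R hR hP hy' hc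
  obtain ⟨h0, -, -, hpow, -, hsum, -⟩ := hK F p
  obtain ⟨r, hr0, hr⟩ : ∃ r : ℝ, 0 ≤ r ∧ r ^ N = R :=
    ⟨R ^ ((N : ℝ)⁻¹), Real.rpow_nonneg hR _, Real.rpow_inv_natCast_pow hR hN.ne'⟩
  have hNy := N_nonneg p y
  have hb : ∀ i < n, ∀ α, normSq (p.v (cf m i α)) ≤ r ^ (n - i) := by
    intro i hi α
    have h1 : n - i ∣ N := (Nat.dvd_factorial (by omega) (by omega)).trans hd
    have h2 : (n - i) * (N / (n - i)) = N := Nat.mul_div_cancel' h1
    have h3 : N / (n - i) ≠ 0 := by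
      intro h; rw [h, mul_zero] at h2; omega
    have h4 := (hc i hi α).2
    rw [← hr] at h4
    refine (pow_le_pow_iff_left₀ (normSq_nonneg _) (by positivity) h3).1 ?_
    rw [← pow_mul, h2]
    exact h4
  have hf := fun i (hi : i < n) => form hK k y p hy' (m.coeff i) _ (hm.hom i hi.le) (r ^ (n - i))
    (by positivity) fun α => ⟨(hc i hi α).1, hb i hi α⟩
  have he := congrArg p.v (eqn k y c P m hm)
  have hmem : ∀ i ∈ Finset.range n,
      MvPolynomial.eval₂Hom (algebraMap k F) y (m.coeff i) * P ^ i ∈ p.S := fun i hi =>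
    mul_mem (hf i (Finset.mem_range.1 hi)).1 (pow_mem hP _)
  rw [h0, p.add _ (sum_mem hmem) _ (pow_mem hP _), (hsum _ _ _ hmem).1, hpow _ hP] at he
  have he' : ∑ i ∈ Finset.range n,
      p.v (MvPolynomial.eval₂Hom (algebraMap k F) y (m.coeff i)) * p.v P ^ i + p.v P ^ n = 0 := by
    rw [← he]
    refine congrArg (· + _) (Finset.sum_congr rfl fun i hi => ?_)
    rw [p.mul _ (hf i (Finset.mem_range.1 hi)).1 _ (pow_mem hP _), hpow _ hP]
  have hw : 0 ≤ r * p.N y ^ c := by positivity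
  have hz := cauchy n hm.pos _ K (p.v P) (Real.sqrt (r * p.N y ^ c)) (Real.sqrt_nonneg _)
    (fun i => Nat.cast_nonneg _) (fun i hi => by
      refine (hf i hi).2.trans (le_of_eq ?_)
      refine congrArg (K i * ·) ?_
      rw [pow_mul, ← mul_pow, Real.sqrt_eq_iff_mul_self_eq (by positivity) (by positivity),
        ← mul_pow, Real.mul_self_sqrt hw]) he'
  have h5 : normSq (p.v P) ≤ (1 + ∑ i ∈ Finset.range n, K i) ^ 2 * (r * p.N y ^ c) := by
    rw [normSq_eq_norm_sq]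
    refine (pow_le_pow_left₀ (norm_nonneg _) hz 2).trans (le_of_eq ?_)
    rw [mul_pow, Real.sq_sqrt hw]
  refine (pow_le_pow_left₀ (normSq_nonneg _) h5 N).trans (le_of_eq ?_)
  rw [mul_pow, mul_pow, hr, ← pow_mul (p.N y), mul_assoc]

end Pool.Agent.Lib.R6
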