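import Pool.Agent.Lib.NV6.RBlue2

/-! Project NV6, block R, row SET: the integral elements. -/

open scoped Classical Topology
open Set Complex Metric Filter

noncomputable section

namespace Pool.Agent.Lib.R6

open Pool.Agent.Lib.SV (E nsq)
open Pool.Agent.Lib.HS32 Pool.Agent.Lib.EX Pool.Agent.Lib.EXS Pool.Agent.Lib.ZL
open Pool.Agent.Lib.NV5 (Rg FM VF Hg Sb_RES Sb_KIT)

namespace SET

variable {n : ℕ} {F : Type} [Field F] [Algebra ℂ F] {V : VF n F}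

theorem pow70 {N : V.P → ℤ} {f : F} (h : V.Sec N f) (i : ℕ) :
    V.Sec (fun p => i * N p) (f ^ i) := fun p => by
  show V.v p (f ^ i) ≤ WithZero.exp (i * N p)
  rw [map_pow, ← nsmul_eq_mul, WithZero.exp_nsmul]
  exact pow_le_pow_left₀ zero_le (h p) i

theorem mul70 {N N' : V.P → ℤ} {f g : F} (h : V.Sec N f) (h' : V.Sec N' g) :
    V.Sec (fun p => N p + N' p) (f * g) := fun p => by
  rw [map_mul, WithZero.exp_add]
  exact mul_le_mul' (h p) (h' p)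

theorem mono70 {N N' : V.P → ℤ} {f : F} (h : V.Sec N f) (hN : ∀ p, N p ≤ N' p) : V.Sec N' f :=
  fun p => (h p).trans (WithZero.exp_le_exp.2 (hN p))

theorem sum70 {M : Mf n} {ι : Type} [Fintype ι] [DecidableEq ι] {D : Ad M ι} (Φ : FM D F)
    (h0 : Rg D 0) (ha : ∀ s t, Rg D s → Rg D t → Rg D (s + t)) {κ : Type} (T : Finset κ)
    (s : κ → M.X → ℂ) (hs : ∀ a, Rg D (s a)) :
    Rg D (∑ a ∈ T, s a) ∧ Φ.ev (∑ a ∈ T, s a) = ∑ a ∈ T, Φ.ev (s a) := by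
  induction T using Finset.induction_on with
  | empty =>
    refine ⟨h0, ?_⟩
    have h := Φ.smul 0 0 h0
    simpa using h
  | insert a T h ih =>
    rw [Finset.sum_insert h, Finset.sum_insert h, Φ.add _ _ (hs a) ih.1, ih.2]
    exact ⟨ha _ _ (hs a) ih.1, rfl⟩

end SET

open SET

theorem rSET (hGEN : St_GEN) (hINT : St_INT) (hFGK : St_FGK) (hRES : Sb_RES) (hNKIT : Sb_KIT) :
    St_SET := by
  intro n M hM ι _ _ D X r t F _ _ Φ V m π k lam κ τ hP hB hF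
  obtain ⟨-, -, -, -, k0, -, -, -, kr, -⟩ := hNKIT n M ι D
  have ht : ∀ a, Rg D (t a) := fun a => ⟨_, hP.kd.1 a⟩
  have hm : ∀ i p, 0 ≤ m i p := fun i p => by
    obtain ⟨h, rfl⟩ := hB.sur p
    rcases ((hB.vl h).mul i).1 with h1 | h1 <;> omega
  obtain ⟨j₀, hj⟩ := hGEN n M ι D X r t hP
  obtain ⟨h1, h2⟩ := hINT F k (Fin r) (fun a => Φ.ev (t a))
    (fun j => {f | V.Sec (NV5.dv m fun i => j * X.e i) f}) j₀ (fun j => (hB.dim _).1)
    fun j hj' f hf => by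
      obtain ⟨s, hs, rfl⟩ := (hB.sec _ _).1 hf
      obtain ⟨G, hG, rfl⟩ := hj j hj' s hs
      refine ⟨fun a => Φ.ev (G a), fun a => (hB.sec _ _).2 ⟨_, hG a, rfl⟩, ?_⟩
      rw [(sum70 Φ ⟨0, k0 0⟩ (fun s t a b => (kr s t a b).1) _ _
        fun a => (kr _ _ (ht a) ⟨_, hG a⟩).2.1).2]
      exact Finset.sum_congr rfl fun a _ => Φ.mul _ _ (ht a) ⟨_, hG a⟩
  refine ⟨?_, fun j s hs => h1 j _ fun i => ?_, fun c β hβ => ?_⟩
  · obtain ⟨x⟩ : Nonempty M.X := hM.3.toNonempty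
    obtain ⟨d, -⟩ := K32.ex_ch D x
    obtain ⟨i₀, I, -, h3, -, -, -, h4⟩ := (hRES n M ι D F Φ r _ t hP.kd hP.imm).1 d 0
      (mem_ball_self two_pos)
    exact ⟨i₀, fun h => h3 (Φ.inj _ (ht i₀) h), (hFGK F k n V.fg V.tr).2.2 _ _ h4
      fun j => IntermediateField.subset_adjoin _ _ ⟨I j, rfl⟩⟩
  · refine mono70 (pow70 ((hB.sec _ _).2 ⟨s, hs, rfl⟩) i) fun p => le_of_eq ?_
    simp only [NV5.dv, Finset.mul_sum]
    exact Finset.sum_congr rfl fun a _ => by push_cast; ring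
  · obtain ⟨u, hu, Q, hQ⟩ := hF.psf
    refine h2 c (∑ i, (Q i).toNat) _ u hu (hQ.mono ?_)
    rintro j ⟨g, hg, g0, hs⟩
    refine ⟨g, hg, g0, ?_⟩
    have h3 := mul70 hs (pow70 ((hB.sec _ _).2 ⟨β, hβ, rfl⟩) j)
    have h4 : τ ^ j * g * u * Φ.ev β ^ j = (τ * Φ.ev β) ^ j * g * u := by ring
    rw [h4] at h3
    refine mono70 h3 fun p => ?_
    simp only [NV5.dv, Finset.mul_sum, ← Finset.sum_add_distrib]
    refine Finset.sum_le_sum fun a _ => ?_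
    have h5 : Q a ≤ ((∑ i, (Q i).toNat : ℕ) : ℤ) := (Int.self_le_toNat _).trans
      (by exact_mod_cast Finset.single_le_sum (f := fun i => (Q i).toNat)
            (fun _ _ => Nat.zero_le _) (Finset.mem_univ a))
    have h6 : (1 : ℤ) ≤ X.e a := by exact_mod_cast hP.epos a
    have h7 : Q a ≤ ((∑ i, (Q i).toNat : ℕ) : ℤ) * X.e a :=
      h5.trans (le_mul_of_one_le_right (Int.natCast_nonneg _) h6)
    have h8 := mul_le_mul_of_nonneg_right h7 (hm a p)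
    rw [Nat.cast_add, Nat.cast_mul]
    nlinarith

end Pool.Agent.Lib.R6
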