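import Pool.Agent.Lib.NV6.RBlue

/-! Project NV6, block R, row TRS: transitivity of graded integrality. -/

open Polynomial Complex Set

noncomputable section

namespace Pool.Agent.Lib.R6

namespace TRS

theorem up {K : Type} [CommRing K] [Algebra ℂ K] {A B : Subalgebra ℂ K} (h : A ≤ B) {z : K}
    (hz : IsIntegral A z) : IsIntegral B z :=
  hz.map_of_comp_eq (Subalgebra.inclusion h).toRingHom (RingHom.id K) (RingHom.ext fun _ => rfl)

theorem trans {K : Type} [CommRing K] [Algebra ℂ K] {A B : Subalgebra ℂ K}
    (h : ∀ a ∈ A, IsIntegral B a) {z : K} (hz : IsIntegral A z) : IsIntegral B z := by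
  have h1 : IsIntegral (integralClosure B K) z :=
    hz.map_of_comp_eq
      (RingHom.codRestrict A.val.toRingHom (integralClosure B K) fun a => h a.1 a.2)
      (RingHom.id K) (RingHom.ext fun _ => rfl)
  exact isIntegral_trans (A := integralClosure B K) z h1

end TRS

theorem rTRS : St_TRS := by
  intro F _ _ σ τ u u' x y
  refine ⟨fun j f h hf => TRS.up (Algebra.adjoin_mono
    (union_subset_union_left _ (image_mono h))) hf, fun j f h hf hx => TRS.trans ?_ hf⟩
  have hle : cn u x ≤ (integralClosure (cn u' y) F[X]).restrictScalars ℂ := by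
    refine Algebra.adjoin_le ?_
    rintro _ (⟨g, hg, rfl⟩ | ⟨s, rfl⟩)
    · exact isIntegral_algebraMap (R := cn u' y) (A := F[X])
        (x := ⟨C g, Algebra.subset_adjoin (Or.inl ⟨g, h hg, rfl⟩)⟩)
    · have := hx s
      unfold GI at this
      rw [pow_one] at this
      exact this
  exact fun a ha => hle ha

end Pool.Agent.Lib.R6
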