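import Pool.Agent.Lib.NV6.RBlue

/-! Project NV6, block R: the bound for the coefficients. -/

open Polynomial Complex Set

set_option linter.unusedVariables false

noncomputable section

namespace Pool.Agent.Lib.R6

namespace UPP

variable {F : Type} [Field F] [Algebra ℂ F] {k : IntermediateField ℂ F} {σ : Type}

theorem ep_mem [Fintype σ] (S : Subalgebra ℂ F) (β : σ → ℂ) (f : MvPolynomial σ k)
    (h : ∀ α, ((f.coeff α : k) : F) ∈ S) : ((ep k β f : k) : F) ∈ S := by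
  unfold ep
  rw [MvPolynomial.eval_eq']
  have e : ((∑ d ∈ f.support, MvPolynomial.coeff d f * ∏ i, algebraMap ℂ k (β i) ^ d i : k) : F) =
      ∑ d ∈ f.support, ((MvPolynomial.coeff d f : k) : F) * ∏ i, algebraMap ℂ F (β i) ^ d i := by
    rw [← IntermediateField.coe_val, map_sum]
    refine Finset.sum_congr rfl fun d _ => ?_
    rw [map_mul, map_prod]
    simp only [map_pow, AlgHom.commutes, IntermediateField.coe_val]
  rw [e]
  exact S.sum_mem fun d _ => S.mul_mem (h d)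
    (S.prod_mem fun i _ => S.pow_mem (S.algebraMap_mem _) _)

theorem cof (hS : St_SYM) [Fintype σ] {y : σ → F} {c : ℕ} {η : F} {m : (MvPolynomial σ k)[X]}
    {u : Set F} (hm : Mp k y c η m) (hu : u ⊆ k) (h : GI u y c η) :
    ∃ w, IsIntegral (cn u y) w ∧ hy k y (m.coeff 0) = C η * X ^ c * w := by
  have h1 := hS F k σ y c η m u 1 1 hm hu (by rw [map_one, one_mul, pow_one]; exact h)
  refine ⟨-(m.divX.eval₂ (hy k y) (C η * X ^ c)), IsIntegral.neg ?_, ?_⟩
  · rw [eval₂_eq_sum_range]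
    refine IsIntegral.sum _ fun i _ => IsIntegral.mul ?_ (IsIntegral.pow h i)
    rw [coeff_divX]
    by_cases hi : i + 1 ≤ m.natDegree
    · have := h1 _ hi
      rwa [one_pow, one_mul, pow_one] at this
    · rw [coeff_eq_zero_of_natDegree_lt (not_le.1 hi), map_zero]
      exact isIntegral_zero
  · have h2 := hm.root
    rw [← X_mul_divX_add m, eval₂_add, eval₂_mul, eval₂_X, eval₂_C] at h2
    rw [mul_neg]
    exact eq_neg_of_add_eq_zero_right h2

theorem pick (hK : St_KIT) (p : Pt F) {κ : Type} (G : Finset κ) (hG : G.Nonempty) (c : κ → ℂ)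
    (e : κ → F) (he : ∀ β ∈ G, e β ∈ p.S) :
    ∃ β ∈ G, normSq (p.v (∑ β ∈ G, c β • e β)) ≤ (∑ β ∈ G, ‖c β‖) ^ 2 * normSq (p.v (e β)) := by
  obtain ⟨-, -, k3, -, -, k6, -⟩ := hK F p
  obtain ⟨β, hβ, hmax⟩ := G.exists_max_image (fun β => ‖p.v (e β)‖) hG
  refine ⟨β, hβ, ?_⟩
  rw [(k6 κ G (fun β => c β • e β) fun b hb => p.S.smul_mem (he b hb) _).1,
    normSq_eq_norm_sq, normSq_eq_norm_sq, ← mul_pow]
  refine pow_le_pow_left₀ (norm_nonneg _) ((norm_sum_le _ _).trans ?_) 2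
  rw [Finset.sum_mul]
  refine Finset.sum_le_sum fun b hb => ?_
  rw [k3 _ _ (he b hb), norm_mul]
  exact mul_le_mul_of_nonneg_left (hmax b hb) (norm_nonneg _)

end UPP

open UPP in
theorem rUPP (hK : St_KIT) (hI : St_ITP) (hT : St_TRS) (hM : St_MIN) (hS : St_SYM) (hE : St_EVG)
    (hB : St_BND) : St_UPP := by
  classical
  intro F _ _ k σ _ y D c₂ η u hinj hu hη hG
  obtain ⟨mη, hmη⟩ := hM F k σ y c₂ η hinj ((hT F σ σ u k y y).1 _ _ hu hG)
  obtain ⟨w, hw, hn⟩ := cof hS hmη hu hG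
  obtain ⟨G, cc, G0, Gn, Gi⟩ := hI F k σ D (mη.coeff 0) (hmη.ne hη)
  refine ⟨G.image fun β => ((ep k β (mη.coeff 0) : k) : F), fun f hf => ?_, ?_⟩
  · obtain ⟨β, hβ, rfl⟩ := Finset.mem_image.1 hf
    exact ⟨(ep k β _).2, fun h => Gn β hβ (Subtype.ext h)⟩
  intro c N M c' P γ m R hm hD hN hγ hP
  have h1 : IsIntegral (cn u y) (hy k y (MvPolynomial.C (⟨γ, hγ⟩ : k) * mη.coeff 0 ^ c') *
      (C P * X ^ c) ^ (N * M)) := by
    have e1 : hy k y (MvPolynomial.C (⟨γ, hγ⟩ : k)) = C γ := by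
      unfold hy
      rw [MvPolynomial.eval₂Hom_C]
      rfl
    have e2 : hy k y (MvPolynomial.C (⟨γ, hγ⟩ : k) * mη.coeff 0 ^ c') * (C P * X ^ c) ^ (N * M) =
        (C (γ * P ^ (N * M) * η ^ c') * X ^ (c * (N * M) + c₂ * c')) * w ^ c' := by
      rw [map_mul, map_pow, hn, e1, C_mul, C_mul, C_pow, C_pow, pow_add, pow_mul X c,
        pow_mul X c₂, mul_pow, mul_pow, mul_pow]
      ring
    rw [e2]
    exact IsIntegral.mul hP (hw.pow _)
  have h2 : ∀ (i : ℕ) (β : σ → ℂ), ∃ C : ℝ, 0 ≤ C ∧ (i < m.natDegree → ∀ p : Pt F,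
      (∀ g ∈ u, g ∈ p.S ∧ normSq (p.v g) ≤ R) →
      γ * ((ep k β (mη.coeff 0) : k) : F) ^ c' *
        ((ep k β (m.coeff i) : k) : F) ^ (N / (m.natDegree - i) * M) ∈ p.S →
      normSq (p.v (γ * ((ep k β (mη.coeff 0) : k) : F) ^ c' *
        ((ep k β (m.coeff i) : k) : F) ^ (N / (m.natDegree - i) * M))) ≤ C) := by
    intro i β
    by_cases hi : i < m.natDegree
    swap
    · exact ⟨0, le_rfl, fun h => absurd h hi⟩
    have l0 : 0 < m.natDegree - i := Nat.sub_pos_of_lt hi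
    have hl : m.natDegree - i ∣ N := (Nat.dvd_factorial l0 (Nat.sub_le _ _)).trans hN
    have h3 := hE F k σ y u _ β hinj hu (hS F k σ y c P m u _ _ hm hu h1 i hi.le)
    have e3 : ((ep k β ((MvPolynomial.C (⟨γ, hγ⟩ : k) * mη.coeff 0 ^ c') ^ (m.natDegree - i) *
        m.coeff i ^ (N * M)) : k) : F) = (γ * ((ep k β (mη.coeff 0) : k) : F) ^ c' *
          ((ep k β (m.coeff i) : k) : F) ^ (N / (m.natDegree - i) * M)) ^ (m.natDegree - i) := by
      have e4 : N * M = N / (m.natDegree - i) * M * (m.natDegree - i) := by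
        rw [mul_right_comm, Nat.div_mul_cancel hl]
      unfold ep
      rw [map_mul, map_pow, map_mul, map_pow, map_pow, MvPolynomial.eval_C, mul_pow _ (_ ^ (_ * M)),
        ← pow_mul _ (_ * M), ← e4]
      rfl
    rw [e3] at h3
    obtain ⟨C, C0, hC⟩ := hB F u _ R (IsIntegral.of_pow l0 h3)
    exact ⟨C, C0, fun _ => hC⟩
  choose Cb Cb0 hCb using h2
  set K : ℝ := ∑ i ∈ Finset.range m.natDegree, ∑ α ∈ (m.coeff i).support,
    (∑ β ∈ G, ‖cc α β‖) ^ 2 with hKd
  have K0 : 0 ≤ K := Finset.sum_nonneg fun i _ => Finset.sum_nonneg fun α _ => sq_nonneg _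
  have T0 : ∀ i β, 0 ≤ K ^ (N / (m.natDegree - i) * M) * Cb i β := fun i β =>
    mul_nonneg (pow_nonneg K0 _) (Cb0 i β)
  refine ⟨∑ i ∈ Finset.range m.natDegree, ∑ β ∈ G, K ^ (N / (m.natDegree - i) * M) * Cb i β,
    Finset.sum_nonneg fun i _ => Finset.sum_nonneg fun β _ => T0 i β, ?_⟩
  intro p t hV hγp hup hcf t0 ht i hi α
  obtain ⟨k1, -, -, k4, -, -, -⟩ := hK F p
  have he : ∀ β, ((ep k β (m.coeff i) : k) : F) ∈ p.S := fun β =>
    ep_mem p.S β _ fun α => hcf i hi α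
  have h4 : ∃ β ∈ G, normSq (p.v (cf m i α)) ≤ K * normSq (p.v ((ep k β (m.coeff i) : k) : F)) := by
    by_cases hα : α ∈ (m.coeff i).support
    · obtain ⟨β, hβ, h⟩ := pick hK p G G0 (cc α) (fun β => ((ep k β (m.coeff i) : k) : F))
        fun β _ => he β
      refine ⟨β, hβ, ?_⟩
      have e5 : cf m i α = ∑ β ∈ G, cc α β • ((ep k β (m.coeff i) : k) : F) := by
        unfold cf
        rw [Gi (m.coeff i) ((hm.hom i hi.le).totalDegree_le.trans
          ((Nat.mul_le_mul_left c (Nat.sub_le _ _)).trans hD)) α, ← IntermediateField.coe_val,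
          map_sum]
        simp only [map_smul, IntermediateField.coe_val]
      rw [e5]
      refine h.trans (mul_le_mul_of_nonneg_right ?_ (normSq_nonneg _))
      refine le_trans ?_ (Finset.single_le_sum (f := fun i => ∑ α ∈ (m.coeff i).support,
        (∑ β ∈ G, ‖cc α β‖) ^ 2) (fun i _ => Finset.sum_nonneg fun α _ => sq_nonneg _)
        (Finset.mem_range.2 hi))
      exact Finset.single_le_sum (f := fun α => (∑ β ∈ G, ‖cc α β‖) ^ 2)
        (fun α _ => sq_nonneg _) hα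
    · obtain ⟨β, hβ⟩ := G0
      refine ⟨β, hβ, ?_⟩
      have e6 : cf m i α = 0 := by
        unfold cf
        rw [MvPolynomial.notMem_support_iff.1 hα]
        rfl
      rw [e6, k1, map_zero]
      exact mul_nonneg K0 (normSq_nonneg _)
  obtain ⟨β, hβ, h5⟩ := h4
  have hmem : ((ep k β (mη.coeff 0) : k) : F) ∈
      G.image fun β => ((ep k β (mη.coeff 0) : k) : F) := Finset.mem_image_of_mem _ hβ
  have n1 := (hV _ hmem).1
  have m1 := p.S.pow_mem n1 c'
  have m2 := p.S.pow_mem (he β) (N / (m.natDegree - i) * M)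
  have h6 := hCb i β hi p hup (p.S.mul_mem (p.S.mul_mem hγp m1) m2)
  rw [p.mul _ (p.S.mul_mem hγp m1) _ m2, p.mul _ hγp _ m1, k4 _ n1, k4 _ (he β), map_mul, map_mul,
    map_pow, map_pow] at h6
  have h7 := pow_le_pow_left₀ t0 (ht _ hmem) c'
  have h8 := pow_le_pow_left₀ (normSq_nonneg _) h5 (N / (m.natDegree - i) * M)
  rw [← pow_mul]
  refine le_trans ?_ ((Finset.single_le_sum (f := fun β => K ^ (N / (m.natDegree - i) * M) * Cb i β)
    (fun β _ => T0 i β) hβ).trans (Finset.single_le_sum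
      (f := fun i => ∑ β ∈ G, K ^ (N / (m.natDegree - i) * M) * Cb i β)
      (fun i _ => Finset.sum_nonneg fun β _ => T0 i β) (Finset.mem_range.2 hi)))
  refine le_trans ?_ (mul_le_mul_of_nonneg_left h6 (pow_nonneg K0 _))
  refine (mul_le_mul (mul_le_mul_of_nonneg_left h8 (normSq_nonneg _)) h7 (pow_nonneg t0 _)
    (mul_nonneg (normSq_nonneg _)
      (pow_nonneg (mul_nonneg K0 (normSq_nonneg _)) _))).trans (le_of_eq ?_)
  rw [mul_pow]
  ring

end Pool.Agent.Lib.R6
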