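import Pool.Agent.Lib.S3K.Rule
import Pool.Agent.Lib.SV.Defs

/-! Project NV6, block C: limit measures on a projective model. Objects. -/

open scoped Classical Topology ENNReal
open Set MeasureTheory Complex Metric Filter MvPolynomial

set_option linter.unusedVariables false

noncomputable section

namespace Pool.Agent.Lib.NV6

open Pool.Agent.Lib.SV (nsq)

section cone

variable {σ : Type}

/-- The polynomial vanishes on `W`. -/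
def Van (W : Set (σ → ℂ)) (P : MvPolynomial σ ℂ) : Prop := ∀ h ∈ W, eval h P = 0

/-- An algebraic cone. -/
structure Cone (W : Set (σ → ℂ)) : Prop where
  alg : ∀ h, (∀ P, Van W P → eval h P = 0) → h ∈ W
  smul : ∀ c : ℂ, ∀ h ∈ W, c • h ∈ W

/-- The ideal of `W` is prime. -/
def Irr (W : Set (σ → ℂ)) : Prop := ∀ P P', Van W (P * P') → Van W P ∨ Van W P'

/-- The smallest algebraic cone that contains the points `g x`. -/
def Clo {O : Type} (g : O → σ → ℂ) : Set (σ → ℂ) :=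
  {h | ∀ P : MvPolynomial σ ℂ, (∀ (c : ℂ) x, eval (c • g x) P = 0) → eval h P = 0}

variable [Fintype σ] {w : ℕ}

/-- A finite linear projection. -/
structure Nz (W : Set (σ → ℂ)) (y : (σ → ℂ) →ₗ[ℂ] Fin (w + 1) → ℂ) : Prop where
  bd : ∃ C : ℝ, ∀ h ∈ W, nsq h ≤ C * nsq (y h)
  ind : ∀ P : MvPolynomial (Fin (w + 1)) ℂ, (∀ h ∈ W, eval (y h) P = 0) → P = 0
  int : ∀ α, ∃ m : Polynomial (MvPolynomial (Fin (w + 1)) ℂ), m.Monic ∧
    ∀ h ∈ W, m.eval₂ (eval (y h)) (h α) = 0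

/-- The affine coordinates of the projection. -/
def af (y : (σ → ℂ) →ₗ[ℂ] Fin (w + 1) → ℂ) (h : σ → ℂ) : Fin w → ℂ := fun k => y h k.succ / y h 0

end cone

section model

variable {ι κ : Type} [Fintype ι] [Fintype κ]

/-- The map of Segre. -/
def sg (x : (ι → ℂ) × (κ → ℂ)) : ι × κ → ℂ := fun p => x.1 p.1 * x.2 p.2

/-- The cone over `Z` in the product. -/
def Bc (Z : Set (ι × κ → ℂ)) : Set ((ι → ℂ) × (κ → ℂ)) := {x | sg x ∈ Z ∧ x.1 ≠ 0 ∧ x.2 ≠ 0}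

/-- Its unit vectors. -/
def Sph (Z : Set (ι × κ → ℂ)) : Set ((ι → ℂ) × (κ → ℂ)) :=
  {x | sg x ∈ Z ∧ nsq x.1 = 1 ∧ nsq x.2 = 1}

/-- The form `A` represents `S` in the chart `(i, j)`. -/
def Ch (Z : Set (ι × κ → ℂ)) (i : ι) (j : κ) (q e k : ℕ) (S : (ι → ℂ) × (κ → ℂ) → ℂ)
    (A : MvPolynomial (ι × κ) ℂ) : Prop :=
  A.IsHomogeneous (e + q + k) ∧
    ∀ x ∈ Bc Z, S x * x.2 j ^ (2 * q) * (x.1 i * x.2 j) ^ k = eval (sg x) A

/-- A regular section of bidegree `(e + q, e - q)`. -/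
def Sec (Z : Set (ι × κ → ℂ)) (q e : ℕ) (S : (ι → ℂ) × (κ → ℂ) → ℂ) : Prop :=
  ∀ i j, ∃ k A, Ch Z i j q e k S A

/-- A sum of squared norms of sections. -/
def Pos (Z : Set (ι × κ → ℂ)) (q e : ℕ) (N : Sph Z → ℝ) : Prop :=
  ∃ (r : ℕ) (S : Fin r → (ι → ℂ) × (κ → ℂ) → ℂ), (∀ l, Sec Z q e (S l)) ∧
    ∀ p : Sph Z, N p = ∑ l, normSq (S l p.1)

/-- The same without common zero. -/
def Gen (Z : Set (ι × κ → ℂ)) (q e : ℕ) (N : Sph Z → ℝ) : Prop := Pos Z q e N ∧ ∀ p, 0 < N p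

/-- A weight of level `y` and cost at most `c`. -/
def Adm (Z : Set (ι × κ → ℂ)) (y c : ℝ) (β : Sph Z → ℝ) : Prop :=
  ∃ (r : ℕ) (t : Fin r → ℝ) (q e : Fin r → ℕ) (N : Fin r → Sph Z → ℝ),
    (∀ l, 0 ≤ t l ∧ Gen Z (q l) (e l) (N l)) ∧ y = ∑ l, t l * q l ∧ ∑ l, t l * e l ≤ c ∧
    ∀ p, β p = ∑ l, t l * Real.log (N l p)

/-- The density of the estimate. -/
def den {Z : Set (ι × κ → ℂ)} (s s' : (ι → ℂ) × (κ → ℂ) → ℂ) (γ β : Sph Z → ℝ) (θ : ℝ)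
    (p : Sph Z) : ℝ :=
  normSq (s' p.1) * (normSq (s p.1) + Real.exp (γ p)) ^ (-(2 + θ)) * Real.exp (-β p)

/-- The estimate that follows from the theorem of Hörmander when there is no section. -/
def Good (Z : Set (ι × κ → ℂ)) (K : ℝ) (ν : Measure (Sph Z)) (x ε : ℝ) : Prop :=
  ∀ (q n e : ℕ) (θ c : ℝ) (s s' : (ι → ℂ) × (κ → ℂ) → ℂ) (γ β : Sph Z → ℝ), 0 < n → 0 < θ →
    Sec Z q e s → Sec Z (q + n) e s' → Adm Z q e γ → Adm Z (n - x - θ * q) c β → c + θ * e ≤ ε →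
    ∫ p, normSq (s p.1) * den s s' γ β θ p ∂ν ≤
      K / θ * ∫ p, Real.exp (γ p) * den s s' γ β θ p ∂ν

/-- The model: a cone of tensors of rank one on which the line bundle is nef. -/
structure Mdl (Z : Set (ι × κ → ℂ)) (e₀ : ℕ) : Prop where
  cone : Cone Z
  rk : ∀ h ∈ Z, ∃ x, h = sg x
  gen : ∀ q, 0 < q → ∃ N, Gen Z q e₀ N

/-- A good probability measure that lives on `W`. -/
structure On (Z : Set (ι × κ → ℂ)) (K : ℝ) (ν : ProbabilityMeasure (Sph Z)) (x ε : ℝ)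
    (W : Set (ι × κ → ℂ)) : Prop where
  good : Good Z K ν x ε
  x0 : 0 ≤ x
  e0 : 0 < ε
  nul : (ν : Measure (Sph Z)) {p | sg p.1 ∉ W} = 0

/-- The cone `W` is minimal. -/
structure Min (Z : Set (ι × κ → ℂ)) (K : ℝ) (ν : ProbabilityMeasure (Sph Z)) (x ε : ℝ)
    (W : Set (ι × κ → ℂ)) : Prop extends On Z K ν x ε W where
  cone : Cone W
  sub : W ⊆ Z
  min : ∀ (d : ℕ) (P : MvPolynomial (ι × κ) ℂ), P.IsHomogeneous d → ¬ Van W P →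
    ∀ ν' x' ε', ¬ On Z K ν' x' ε' {h | h ∈ W ∧ eval h P = 0}

/-- The section is not zero on `W`. -/
def Nv (Z W : Set (ι × κ → ℂ)) (S : (ι → ℂ) × (κ → ℂ) → ℂ) : Prop :=
  ∃ p : Sph Z, sg p.1 ∈ W ∧ S p.1 ≠ 0

/-- A relation of bounded degree between two sections. -/
def Rel {w : ℕ} (Z W : Set (ι × κ → ℂ)) (y : (ι × κ → ℂ) →ₗ[ℂ] Fin (w + 1) → ℂ) (m : ℕ)
    (s s' : (ι → ℂ) × (κ → ℂ) → ℂ) : Prop :=
  ∃ a : Fin (m + 1) → MvPolynomial (Fin (w + 1)) ℂ, a ≠ 0 ∧ (∀ l, (a l).IsHomogeneous (w * m)) ∧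
    ∀ x ∈ Bc Z, sg x ∈ W → ∑ l, eval (y (sg x)) (a l) * (s x ^ (m - l) * s' x ^ (l : ℕ)) = 0

/-- The squared norm of a form on the unit vectors. -/
def fm (Z : Set (ι × κ → ℂ)) (P : MvPolynomial (ι × κ) ℂ) (p : Sph Z) : ℝ :=
  normSq (eval (sg p.1) P)

/-- A form of degree `d` whose maximum on `W` is one. -/
structure Un (Z W : Set (ι × κ → ℂ)) (d : ℕ) (P : MvPolynomial (ι × κ) ℂ) : Prop where
  hom : P.IsHomogeneous d
  le : ∀ p : Sph Z, sg p.1 ∈ W → fm Z P p ≤ 1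
  ex : ∃ p : Sph Z, sg p.1 ∈ W ∧ fm Z P p = 1

end model

section tower

variable {Ω : Type} [MeasurableSpace Ω]

/-- The integral exists and is at most `C`. -/
def Mo (ν : Measure Ω) (g : Ω → ℝ) (C : ℝ) : Prop := Integrable g ν ∧ ∫ p, g p ∂ν ≤ C

/-- The sequence is totally bounded. -/
def Tb (ν : Measure Ω) (P : ℕ → Ω → ℝ) : Prop :=
  ∀ δ > (0 : ℝ), ∃ (r : ℕ) (c : ℕ → Fin r), ∀ i i', c i = c i' → ∀ᵐ p ∂ν, |P i p - P i' p| ≤ δ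

/-- The regularised potential. -/
def lm (f N : ℕ → Ω → ℝ) (j : ℕ) (η : ℝ) (p : Ω) : ℝ :=
  ((2 : ℝ) ^ j)⁻¹ * Real.log (f j p + η * N j p)

/-- The potential. -/
def l0 (f : ℕ → Ω → ℝ) (j : ℕ) (p : Ω) : ℝ := ((2 : ℝ) ^ j)⁻¹ * Real.log (f j p)

/-- The norm of the test section for the potential `l`. -/
def bb (f P' : ℕ → Ω → ℝ) (m i : ℕ) (l : Ω → ℝ) (p : Ω) : ℝ :=
  (∏ a ∈ Finset.range m, P' (i + a) p) * f i p * Real.exp (-(2 ^ i * l p))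

/-- The estimate for the functions `b`, `b'` and the density `w`. -/
def Iq (ν : Measure Ω) (K θ e : ℝ) (b b' w : Ω → ℝ) : Prop :=
  ∫ p, b p * (b' p * (b p + e) ^ (-(2 + θ)) * w p) ∂ν ≤
    K / θ * ∫ p, e * (b' p * (b p + e) ^ (-(2 + θ)) * w p) ∂ν

/-- The estimate for all test sections of a tower. -/
def Star (ν : Measure Ω) (K x : ℝ) (f P' N : ℕ → Ω → ℝ) : Prop :=
  ∀ m : ℕ, ∃ θ₀ > (0 : ℝ), ∀ θ, 0 < θ → θ ≤ θ₀ → ∀ i i' : ℕ, i < i' →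
    x + θ * 2 ^ i ≤ 2 ^ i' - 2 ^ i → ∀ᶠ j in atTop, ∀ η > (0 : ℝ), ∀ e > (0 : ℝ),
      Iq ν K θ e (bb f P' m i (lm f N j η)) (bb f P' m i' (lm f N j η))
        fun p => Real.exp (x * lm f N j η p)

/-- A tower of functions with `f k ^ 2 / f (k + 1) = P k / P' k`. -/
structure Tw (ν : Measure Ω) (t C : ℝ) (f P P' : ℕ → Ω → ℝ) : Prop where
  t0 : 0 < t
  ms : ∀ k, Measurable (f k) ∧ Measurable (P k) ∧ Measurable (P' k)
  pos : ∀ k, ∀ᵐ p ∂ν, 0 < f k p ∧ 0 < P k p ∧ P k p ≤ 1 ∧ 0 < P' k p ∧ P' k p ≤ 1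
  rel : ∀ k, ∀ᵐ p ∂ν, f k p ^ 2 * P' k p = f (k + 1) p * P k p
  int : ∀ k, Mo ν (fun p => P k p ^ (-t)) C ∧ Mo ν (fun p => P' k p ^ (-t)) C
  bd : ∀ k, ∃ B, ∀ p, f k p ≤ B
  lg : ∀ k, Integrable (fun p => Real.log (f k p)) ν

end tower

end Pool.Agent.Lib.NV6
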