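import Pool.Agent.Lib.NV6.CBlue

/-! Project NV6, block C: the estimate fails for functions that are close. -/

open Set MeasureTheory Filter

noncomputable section

namespace Pool.Agent.Lib.NV6

namespace CKEY

variable {b b' e θ : ℝ}

theorem p1 (hb : 0 < b) (he : 0 < e) (he1 : e ≤ 1) (hθ : 0 < θ) (hθ1 : θ ≤ 1) (a v : ℝ) :
    Real.exp a * (1 - a - (2 * θ)⁻¹ * b ^ (-(4 * θ)) - 3 - 3 * b ^ 4 + v) ≤
      b * (b * (b + e) ^ (-(2 + θ)) * Real.exp v) := by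
  have h1 : b * (b * (b + e) ^ (-(2 + θ)) * Real.exp v) =
      Real.exp a * Real.exp (2 * Real.log b - (2 + θ) * Real.log (b + e) + v - a) := by
    rw [Real.rpow_def_of_pos (by linarith), ← Real.exp_add]
    nth_rewrite 1 [← Real.exp_log hb]
    nth_rewrite 2 [← Real.exp_log hb]
    simp only [← Real.exp_add]
    congr 1
    ring
  rw [h1]
  refine mul_le_mul_of_nonneg_left (le_trans ?_ (Real.add_one_le_exp _)) (Real.exp_pos _).le
  have h2 : Real.log (b + e) ≤ b := by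
    have := Real.log_le_sub_one_of_pos (x := b + e) (by linarith)
    linarith
  have h3 : b ≤ 1 + b ^ 4 := by nlinarith [sq_nonneg (b ^ 2 - 1), sq_nonneg (b - 1)]
  have h4 : -(4 * θ) * Real.log b ≤ b ^ (-(4 * θ)) := by
    have := Real.log_le_sub_one_of_pos (Real.rpow_pos_of_pos hb (-(4 * θ)))
    rw [Real.log_rpow hb] at this
    linarith
  have h5 : -(2 * Real.log b) ≤ (2 * θ)⁻¹ * b ^ (-(4 * θ)) := by
    rw [le_inv_mul_iff₀ (by positivity)]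
    linarith
  have h6 : (2 + θ) * Real.log (b + e) ≤ 3 * b := by
    nlinarith [mul_le_mul_of_nonneg_left h2 (by linarith : 0 ≤ 2 + θ)]
  linarith

theorem p2 (hb : 0 < b) (he : 0 < e) (hθ : 0 < θ) (hθ1 : θ ≤ 1) {w : ℝ} (hw : 0 ≤ w) :
    e * (b * (b + e) ^ (-(2 + θ)) * w) ≤ e ^ θ * (b ^ (-(4 * θ)) + 1 + w ^ 4) := by
  have h1 : e * (b * (b + e) ^ (-(2 + θ))) ≤ e ^ θ * b ^ (-(2 * θ)) := by
    rw [Real.rpow_def_of_pos (by linarith), Real.rpow_def_of_pos he, Real.rpow_def_of_pos hb]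
    nth_rewrite 1 [← Real.exp_log he]
    nth_rewrite 1 [← Real.exp_log hb]
    simp only [← Real.exp_add]
    refine Real.exp_le_exp.2 ?_
    have h2 := Real.log_le_log he (by linarith : e ≤ b + e)
    have h3 := Real.log_le_log hb (by linarith : b ≤ b + e)
    nlinarith [mul_le_mul_of_nonneg_left h2 (by linarith : 0 ≤ 1 - θ),
      mul_le_mul_of_nonneg_left h3 (by linarith : 0 ≤ 1 + 2 * θ)]
  have h2 : b ^ (-(4 * θ)) = (b ^ (-(2 * θ))) ^ 2 := by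
    rw [← Real.rpow_natCast, ← Real.rpow_mul hb.le]
    congr 1
    push_cast
    ring
  have h3 : b ^ (-(2 * θ)) * w ≤ b ^ (-(4 * θ)) + 1 + w ^ 4 := by
    rw [h2]
    nlinarith [sq_nonneg (b ^ (-(2 * θ)) - w), sq_nonneg (w ^ 2 - 1), sq_nonneg (b ^ (-(2 * θ))),
      sq_nonneg (w ^ 2)]
  calc e * (b * (b + e) ^ (-(2 + θ)) * w) = e * (b * (b + e) ^ (-(2 + θ))) * w := by ring
    _ ≤ e ^ θ * b ^ (-(2 * θ)) * w := mul_le_mul_of_nonneg_right h1 hw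
    _ ≤ _ := by
      rw [mul_assoc]
      exact mul_le_mul_of_nonneg_left h3 (Real.rpow_pos_of_pos he _).le

theorem p3 (hb : 0 < b) (he : 0 < e) (hθ : 0 < θ) :
    (b + e) * (b + e) ^ (-(2 + θ)) ≤ e ^ (-(1 + θ)) := by
  have h : (b + e) * (b + e) ^ (-(2 + θ)) = (b + e) ^ (-(1 + θ)) := by
    rw [show -(1 + θ) = 1 + -(2 + θ) by ring, Real.rpow_add (by linarith), Real.rpow_one]
  rw [h]
  exact Real.rpow_le_rpow_of_nonpos he (by linarith) (by linarith)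

theorem p4 (hb : 0 < b) (hb' : 0 < b') :
    b - b' ≤ |Real.log b - Real.log b'| * (b + b') := by
  have h := Real.log_le_sub_one_of_pos (div_pos hb' hb)
  rw [Real.log_div hb'.ne' hb.ne'] at h
  have h1 := mul_le_mul_of_nonneg_left h hb.le
  rw [mul_sub b (b' / b), mul_div_cancel₀ _ hb.ne'] at h1
  nlinarith [le_abs_self (Real.log b - Real.log b'), abs_nonneg (Real.log b - Real.log b')]

theorem p5 (hb : 0 < b) (hb' : 0 < b') {w τ : ℝ} (hw : 0 ≤ w) (hτ : 0 < τ) :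
    |b' - b| * w ≤
      τ⁻¹ * (Real.log b - Real.log b') ^ 2 + τ * (8 * b ^ 4 + 8 * b' ^ 4 + w ^ 4) := by
  have h1 : |b' - b| ≤ |Real.log b - Real.log b'| * (b + b') := by
    refine abs_le.2 ⟨by linarith [p4 hb hb'], ?_⟩
    have := p4 hb' hb
    rwa [abs_sub_comm, add_comm] at this
  rw [← sq_abs (Real.log b - Real.log b')]
  set D := |Real.log b - Real.log b'|
  have h2 : D * ((b + b') * w) ≤ τ⁻¹ * D ^ 2 + τ * ((b + b') * w) ^ 2 := by
    have h3 : τ * (D * ((b + b') * w)) ≤ τ * (τ⁻¹ * D ^ 2 + τ * ((b + b') * w) ^ 2) := by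
      rw [mul_add, mul_inv_cancel_left₀ hτ.ne']
      nlinarith [sq_nonneg (D - τ * ((b + b') * w)), sq_nonneg D, sq_nonneg (τ * ((b + b') * w))]
    exact le_of_mul_le_mul_left h3 hτ
  have h4 : (b + b') ^ 4 ≤ 8 * b ^ 4 + 8 * b' ^ 4 := by
    nlinarith [mul_nonneg (sq_nonneg (b - b')) (sq_nonneg (b + b')), sq_nonneg ((b - b') ^ 2)]
  have h5 : ((b + b') * w) ^ 2 ≤ 8 * b ^ 4 + 8 * b' ^ 4 + w ^ 4 := by
    nlinarith [sq_nonneg ((b + b') ^ 2 - w ^ 2), sq_nonneg ((b + b') ^ 2), sq_nonneg (w ^ 2)]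
  have h6 := mul_le_mul_of_nonneg_right h1 hw
  have h7 := mul_le_mul_of_nonneg_left h5 hτ.le
  nlinarith

theorem pt (hb : 0 < b) (hb' : 0 < b') (he : 0 < e) (he1 : e ≤ 1) (hθ : 0 < θ) (hθ1 : θ ≤ 1)
    (a v k : ℝ) {τ : ℝ} (hτ : 0 < τ) :
    Real.exp a * (1 - a - (2 * θ)⁻¹ * b ^ (-(4 * θ)) - 3 - 3 * b ^ 4 + v) -
      |k| * e ^ θ * (b ^ (-(4 * θ)) + 1 + Real.exp v ^ 4) -
      (1 + |k|) * e ^ (-(1 + θ)) * (τ⁻¹ * (Real.log b - Real.log b') ^ 2 +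
        τ * (8 * b ^ 4 + 8 * b' ^ 4 + Real.exp v ^ 4)) ≤
      b * (b' * (b + e) ^ (-(2 + θ)) * Real.exp v) -
        k * (e * (b' * (b + e) ^ (-(2 + θ)) * Real.exp v)) := by
  have hw := (Real.exp_pos v).le
  have h1 := p1 hb he he1 hθ hθ1 a v
  have h2 := p2 hb he hθ hθ1 hw
  have h3 := p3 hb he hθ
  have h5 := p5 hb hb' hw hτ
  have hr : 0 ≤ (b + e) ^ (-(2 + θ)) := (Real.rpow_pos_of_pos (by linarith) _).le
  set r := (b + e) ^ (-(2 + θ))
  set w := Real.exp v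
  have hk := abs_nonneg k
  have h6 : k * (e * (b * r * w)) ≤ |k| * e ^ θ * (b ^ (-(4 * θ)) + 1 + w ^ 4) := by
    rw [mul_assoc |k|]
    exact (mul_le_mul_of_nonneg_right (le_abs_self k) (by positivity)).trans
      (mul_le_mul_of_nonneg_left h2 hk)
  have h7 : |(b - k * e) * r| ≤ (1 + |k|) * e ^ (-(1 + θ)) := by
    rw [abs_mul, abs_of_nonneg hr]
    refine le_trans ?_ (mul_le_mul_of_nonneg_left h3 (by positivity))
    rw [← mul_assoc]
    refine mul_le_mul_of_nonneg_right ((abs_sub _ _).trans ?_) hr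
    rw [abs_mul, abs_of_pos hb, abs_of_pos he]
    nlinarith [mul_nonneg hk hb.le]
  have h8 : |(b - k * e) * r * ((b' - b) * w)| ≤ (1 + |k|) * e ^ (-(1 + θ)) *
      (τ⁻¹ * (Real.log b - Real.log b') ^ 2 + τ * (8 * b ^ 4 + 8 * b' ^ 4 + w ^ 4)) := by
    rw [abs_mul, abs_mul (b' - b), abs_of_nonneg hw]
    exact mul_le_mul h7 h5 (by positivity) ((abs_nonneg _).trans h7)
  have h9 := neg_abs_le ((b - k * e) * r * ((b' - b) * w))
  have h10 : b * (b' * r * w) - k * (e * (b' * r * w)) =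
      b * (b * r * w) - k * (e * (b * r * w)) + (b - k * e) * r * ((b' - b) * w) := by ring
  rw [h10]
  linarith

theorem dom {c w : ℝ} (hb : 0 < b) (hb' : 0 < b') (he : 0 < e) (hθ : 0 < θ) (hc : 0 ≤ c)
    (hw : 0 ≤ w) : ‖c * (b' * (b + e) ^ (-(2 + θ)) * w)‖ ≤
      e ^ (-(2 + θ)) * (c ^ 4 + b' ^ 4 + w ^ 4 + 1) := by
  have hr : 0 ≤ (b + e) ^ (-(2 + θ)) := (Real.rpow_pos_of_pos (by linarith) _).le
  have h1 : (b + e) ^ (-(2 + θ)) ≤ e ^ (-(2 + θ)) :=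
    Real.rpow_le_rpow_of_nonpos he (by linarith) (by linarith)
  rw [Real.norm_of_nonneg (by positivity)]
  calc c * (b' * (b + e) ^ (-(2 + θ)) * w) = (b + e) ^ (-(2 + θ)) * (c * b' * w) := by ring
    _ ≤ _ := by
      refine mul_le_mul h1 ?_ (by positivity) (hr.trans h1)
      nlinarith [sq_nonneg (c * b' - w), sq_nonneg (c ^ 2 - b' ^ 2), sq_nonneg (w ^ 2 - 1),
        sq_nonneg (c ^ 2), sq_nonneg (b' ^ 2), sq_nonneg (w ^ 2)]

theorem small {A x : ℝ} (hA : 0 < A) (hx : 0 ≤ x) : ∃ ε > (0 : ℝ), ε ≤ 1 ∧ ε * x ≤ A := by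
  refine ⟨min 1 (A / (x + 1)), by positivity, min_le_left _ _, ?_⟩
  refine (mul_le_mul_of_nonneg_right (min_le_right _ _) hx).trans ?_
  rw [div_mul_eq_mul_div, div_le_iff₀ (by positivity)]
  nlinarith

end CKEY

open CKEY in
theorem cKEY : St_KEY := by
  intro C K θ hθ hθ1
  obtain ⟨a, ha⟩ : ∃ a : ℝ, a = -((2 * θ)⁻¹ * C) - 3 - 3 * C - C := ⟨_, rfl⟩
  obtain ⟨k, hk⟩ : ∃ k : ℝ, k = K / θ := ⟨_, rfl⟩
  have hA : 0 < Real.exp a / 4 := by positivity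
  obtain ⟨ε, hε, hε1, h1⟩ := small (x := |k| * (2 * |C| + 1)) hA (by positivity)
  obtain ⟨e, he, he1, heθ⟩ : ∃ e : ℝ, 0 < e ∧ e ≤ 1 ∧ e ^ θ = ε :=
    ⟨ε ^ θ⁻¹, Real.rpow_pos_of_pos hε _, Real.rpow_le_one hε.le hε1 (by positivity),
      Real.rpow_inv_rpow hε.le hθ.ne'⟩
  obtain ⟨M, hM⟩ : ∃ M : ℝ, M = (1 + |k|) * e ^ (-(1 + θ)) := ⟨_, rfl⟩
  have hM0 : 0 ≤ M := hM ▸ mul_nonneg (by positivity) (Real.rpow_pos_of_pos he _).le
  obtain ⟨τ, hτ, -, h2⟩ := small (x := M * (17 * |C|)) hA (by positivity)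
  obtain ⟨δ, hδ, -, h3⟩ := small (x := M * τ⁻¹) hA (by positivity)
  refine ⟨e, he, δ, hδ, ?_⟩
  intro Ω _ ν _ b b' v mb mb' mv hpos ⟨i1, j1⟩ ⟨i2, j2⟩ ⟨i3, j3⟩ ⟨i4, j4⟩ ⟨i5, j5⟩ ⟨i6, j6⟩ hI
  have mh : Measurable fun p => b' p * (b p + e) ^ (-(2 + θ)) * Real.exp (v p) :=
    (mb'.mul ((mb.add_const e).pow_const _)).mul mv.exp
  have f1 : Integrable (fun p => b p * (b' p * (b p + e) ^ (-(2 + θ)) * Real.exp (v p))) ν := by
    refine Integrable.mono' ((((i1.add i2).add i4).add (integrable_const 1)).const_mul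
      (e ^ (-(2 + θ)))) (mb.mul mh).aestronglyMeasurable ?_
    filter_upwards [hpos] with p hp
    exact dom hp.1 hp.2 he hθ hp.1.le (Real.exp_pos _).le
  have f2 : Integrable (fun p => e * (b' p * (b p + e) ^ (-(2 + θ)) * Real.exp (v p))) ν := by
    refine Integrable.mono' (((((integrable_const (e ^ 4)).add i2).add i4).add
      (integrable_const 1)).const_mul (e ^ (-(2 + θ)))) (mh.const_mul e).aestronglyMeasurable ?_
    filter_upwards [hpos] with p hp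
    exact dom hp.1 hp.2 he hθ he.le (Real.exp_pos _).le
  unfold Iq at hI
  rw [← hk, ← integral_const_mul, ← sub_nonpos, ← integral_sub f1 (f2.const_mul k)] at hI
  obtain ⟨c₀, hc₀⟩ : ∃ c, c = Real.exp a * (1 - a - 3) - |k| * ε := ⟨_, rfl⟩
  obtain ⟨c₁, hc₁⟩ : ∃ c, c = 3 * Real.exp a + M * τ * 8 := ⟨_, rfl⟩
  obtain ⟨c₃, hc₃⟩ : ∃ c, c = Real.exp a * (2 * θ)⁻¹ + |k| * ε := ⟨_, rfl⟩
  obtain ⟨c₄, hc₄⟩ : ∃ c, c = |k| * ε + M * τ := ⟨_, rfl⟩
  have g1 := i1.const_mul c₁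
  have g2 := i2.const_mul (M * τ * 8)
  have g3 := i3.const_mul c₃
  have g4 := i4.const_mul c₄
  have g5 := i5.const_mul (Real.exp a)
  have g6 := i6.const_mul (M * τ⁻¹)
  have g12 : Integrable (fun p => c₁ * b p ^ 4 + M * τ * 8 * b' p ^ 4) ν := g1.add g2
  have g13 : Integrable (fun p => c₁ * b p ^ 4 + M * τ * 8 * b' p ^ 4 +
      c₃ * b p ^ (-(4 * θ))) ν := g12.add g3
  have g14 : Integrable (fun p => c₁ * b p ^ 4 + M * τ * 8 * b' p ^ 4 +
      c₃ * b p ^ (-(4 * θ)) + c₄ * Real.exp (v p) ^ 4) ν := g13.add g4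
  have g15 : Integrable (fun p => c₁ * b p ^ 4 + M * τ * 8 * b' p ^ 4 +
      c₃ * b p ^ (-(4 * θ)) + c₄ * Real.exp (v p) ^ 4 + Real.exp a * -v p) ν := g14.add g5
  have g16 : Integrable (fun p => c₁ * b p ^ 4 + M * τ * 8 * b' p ^ 4 +
      c₃ * b p ^ (-(4 * θ)) + c₄ * Real.exp (v p) ^ 4 + Real.exp a * -v p +
      M * τ⁻¹ * (Real.log (b p) - Real.log (b' p)) ^ 2) ν := g15.add g6
  have hle := integral_mono_ae ((integrable_const c₀).sub g16) (f1.sub (f2.const_mul k)) (by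
    filter_upwards [hpos] with p hp
    have h := pt hp.1 hp.2 he he1 hθ hθ1 a (v p) k hτ
    rw [heθ, ← hM] at h
    refine le_trans (le_of_eq ?_) h
    simp only [Pi.sub_apply, hc₀, hc₁, hc₃, hc₄]
    ring)
  have hle' := hle.trans hI
  simp only [Pi.sub_apply] at hle'
  rw [integral_sub (integrable_const c₀) g16, integral_add g15 g6, integral_add g14 g5,
    integral_add g13 g4, integral_add g12 g3, integral_add g1 g2] at hle'
  simp only [integral_const_mul, integral_const, probReal_univ, one_smul] at hle'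
  have hE := Real.exp_pos a
  have hkε : 0 ≤ |k| * ε := by positivity
  have hMτ : 0 ≤ M * τ := by positivity
  have k1 := mul_le_mul_of_nonneg_left j1 (show 0 ≤ c₁ by rw [hc₁]; positivity)
  have k2 := mul_le_mul_of_nonneg_left j2 (show 0 ≤ M * τ * 8 by positivity)
  have k3 := mul_le_mul_of_nonneg_left j3 (show 0 ≤ c₃ by rw [hc₃]; positivity)
  have k4 := mul_le_mul_of_nonneg_left j4 (show 0 ≤ c₄ by rw [hc₄]; positivity)
  have k5 := mul_le_mul_of_nonneg_left j5 hE.le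
  have k6 := mul_le_mul_of_nonneg_left j6 (show 0 ≤ M * τ⁻¹ by positivity)
  have k7 := mul_le_mul_of_nonneg_left (le_abs_self C) hkε
  have k8 := mul_le_mul_of_nonneg_left (le_abs_self C) hMτ
  have k9 : c₀ - (c₁ * C + M * τ * 8 * C + c₃ * C + c₄ * C + Real.exp a * C) =
      Real.exp a - |k| * ε - 2 * (|k| * ε * C) - 17 * (M * τ * C) := by
    rw [hc₀, hc₁, hc₃, hc₄]
    nth_rewrite 2 [ha]
    ring
  nlinarith

end Pool.Agent.Lib.NV6
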