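import Pool.Agent.Lib.NV6.RBlue2
import Pool.Agent.Lib.NV6.CBlue
import Pool.Agent.Lib.NV5.Exc4

/-! Project NV6, block GAP: from the manifold to the model. Objects and blueprint. -/

open scoped Classical Topology ContDiff ENNReal
open Set MeasureTheory Complex Metric Filter

set_option linter.unusedVariables false

noncomputable section

namespace Pool.Agent.Lib.NV6

open Pool.Agent.Lib.SV (E nsq)
open Pool.Agent.Lib.HS32 Pool.Agent.Lib.EX Pool.Agent.Lib.EXS Pool.Agent.Lib.ZL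
open Pool.Agent.Lib.ZQ (HqO offz)
open Pool.Agent.Lib.NV5 (Rg FM VF Hg dv Ctx Ctx4)
open Pool.Agent.Lib.NV6.J (Ho Ps pv)
open Pool.Agent.Lib.R6 (Prj Zw Fb Ab)

section defs

variable {n : ℕ} {M : Mf n} {ι : Type} [Fintype ι] [DecidableEq ι]

/-- A map from an open set to the model. -/
structure Mp (D : Ad M ι) (O : Set M.X) {I J : Type} [Fintype I] [Fintype J]
    (Z : Set (I × J → ℂ)) (a : I → M.X → ℂ) (b : J → M.X → ℂ) (p : M.X → Sph Z) : Prop where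
  op : IsOpen O
  cone : Cone Z
  ha : ∀ i, Ho D O (a i)
  hb : ∀ j, Ho D O (b j)
  ne : ∀ x ∈ O, (∀ i, a i x ≠ 0) ∧ ∀ j, b j x ≠ 0
  eq : ∀ x ∈ O, 0 < nsq (a · x) ∧ 0 < nsq (b · x) ∧
    (a · x) = (√(nsq (a · x)) : ℂ) • (p x).1.1 ∧ (b · x) = (√(nsq (b · x)) : ℂ) • (p x).1.2
  ct : ContinuousOn p O

/-- Families with ratios in `k` are dominated by sections of multiples of `lam`. -/
def Dm (D : Ad M ι) {F : Type} [Field F] [Algebra ℂ F] (Φ : FM D F) (k : IntermediateField ℂ F)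
    (lam : ι → ℤ) : Prop := ∀ (T : Type) [Fintype T] (P : ι → ℤ) (h : T → M.X → ℂ) (a₀ : T),
  (∀ a, Sp D P (h a)) → h a₀ ≠ 0 → (∀ a, Φ.ev (h a) / Φ.ev (h a₀) ∈ k) →
  ∃ (γ : ℝ) (Λ B : ι → ℤ), 0 ≤ γ ∧ (∀ i, (Λ i : ℝ) = γ * lam i) ∧ 0 ≤ B ∧
    ∀ j : ℕ, ∃ s : T → M.X → ℂ, (∀ a, Sp D (fun i => j * Λ i + B i) (s a)) ∧ s a₀ ≠ 0 ∧
      ∀ a x, s a x * h a₀ x ^ j = s a₀ x * h a x ^ j

end defs

/-! ### Rows -/

/-- The map exists. -/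
def St_MP : Prop := ∀ (n : ℕ) (M : Mf n) [M.Cpt] (ι : Type) [Fintype ι] [DecidableEq ι]
  (D : Ad M ι) (O : Set M.X) (I J : Type) [Fintype I] [Fintype J] [Nonempty I] [Nonempty J]
  (Z : Set (I × J → ℂ)) (a : I → M.X → ℂ) (b : J → M.X → ℂ), IsOpen O → O ⊆ off D → O.Nonempty →
  Cone Z → (∀ i, Ho D O (a i)) → (∀ j, Ho D O (b j)) →
  (∀ x ∈ O, (∀ i, a i x ≠ 0) ∧ ∀ j, b j x ≠ 0) → (∀ x ∈ O, sg ((a · x), (b · x)) ∈ Z) →
  ∃ p, Mp D O Z a b p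

/-- Sections and weights of the model as functions on the manifold. -/
def St_PUL : Prop := ∀ (n : ℕ) (M : Mf n) [M.Cpt] (ι : Type) [Fintype ι] [DecidableEq ι]
  (D : Ad M ι) (O : Set M.X) (I J : Type) [Fintype I] [Fintype J] (Z : Set (I × J → ℂ))
  (a : I → M.X → ℂ) (b : J → M.X → ℂ) (p : M.X → Sph Z), Mp D O Z a b p →
  (∀ (q e : ℕ) (s : Fn I J), Sec Z q e s → Ho D O (fun x => s ((a · x), (b · x))) ∧ ∀ x ∈ O,
    normSq (s ((a · x), (b · x))) = normSq (s (p x).1) * Real.exp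
      (q * Real.log (nsq (a · x) / nsq (b · x)) + e * Real.log (nsq (a · x) * nsq (b · x)))) ∧
  ∀ (y c : ℝ) (β : Sph Z → ℝ), Adm Z y c β → Ps D O fun x => β (p x) +
    (y * Real.log (nsq (a · x) / nsq (b · x)) + c * Real.log (nsq (a · x) * nsq (b · x)))

/-- The normalised image of a measure with a density. -/
def St_MEA : Prop := ∀ (Y S : Type) [MeasurableSpace Y] [TopologicalSpace S] [MeasurableSpace S]
  [BorelSpace S] [CompactSpace S] (μ : Measure Y) (p : Y → S) (w : Y → ℝ), μ ≠ 0 →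
  AEMeasurable p μ → AEMeasurable w μ → (∀ᵐ y ∂μ, 0 < w y) →
  ∫⁻ y, ENNReal.ofReal (w y) ∂μ ≠ ⊤ → ∃ (ν : ProbabilityMeasure S) (c : ℝ≥0∞), c ≠ 0 ∧ c ≠ ⊤ ∧
    ∀ f : S → ℝ, Continuous f → (∀ u, 0 ≤ f u) →
      ∫⁻ y, ENNReal.ofReal (f (p y) * w y) ∂μ = c * ENNReal.ofReal (∫ u, f u ∂ν)

/-- The estimate on the model when there is no section. -/
def St_GOOD : Prop := ∀ (n : ℕ) (M : Mf n) [M.Cpt] (ι : Type) [Fintype ι] [DecidableEq ι]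
  (D : Ad M ι) (X : Cx D) (I J : Type) [Fintype I] [Fintype J] (Z : Set (I × J → ℂ))
  (g : M.X → ℂ) (a : I → M.X → ℂ) (b : J → M.X → ℂ) (p : M.X → Sph Z) (ρ : M.X → ℝ≥0∞)
  (L κ : ι → ℤ) (Λ : ι → ℝ) (x θ : ℝ), HoO D g → (∃ y ∈ off D, g y ≠ 0) →
  (∀ᵐ y ∂X.μ, y ∈ offz D g) → Mp D (offz D g) Z a b p → 0 ≤ x → AEMeasurable ρ X.μ →
  HqO 1 D (X.μ.withDensity ρ) (offz D g) →
  (∃ c > (0 : ℝ), ∀ y ∈ offz D g, ENNReal.ofReal
    (c * Real.exp (θ * lw D Λ y) * (nsq (a · y) * nsq (b · y)) ^ θ) ≤ ρ y) →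
  ∫⁻ y, ρ y * ENNReal.ofReal (Real.exp (-(θ * lw D Λ y)) / (nsq (a · y) * nsq (b · y)) ^ θ *
    Real.exp (-lw D X.o y)) ∂X.μ ≠ ⊤ →
  (∃ C, ∀ y ∈ offz D g, nsq (a · y) ≤ C * Real.exp (-lw D (fun i => L i) y) * nsq (b · y)) →
  (∀ i, x * L i ≤ θ * Λ i + X.o i) → (∀ i, θ * Λ i + X.o i ≤ x * L i + κ i) →
  (∀ j : ℕ, 0 < j → ∀ s, Sp D (fun i => j * L i + κ i) s → s = 0) →
  ∃ ν : ProbabilityMeasure (Sph Z), Good Z 1 ν x θ

/-- The dictionary for the new families. -/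
def St_DIC : Prop := ∀ (n : ℕ) (M : Mf n) [M.Cpt] (ι : Type) [Fintype ι] [DecidableEq ι]
  (D : Ad M ι) (F : Type) [Field F] [Algebra ℂ F] (Φ : FM D F) (k : IntermediateField ℂ F) (T : F)
  (L P : ι → ℤ) (r r₁ r₂ m e : ℕ) (a : Fin (r₁ + 1) → M.X → ℂ) (b : Fin (r₂ + 1) → M.X → ℂ)
  (ε : Fin r ≃ Fin (r₁ + 1) × Fin (r₂ + 1)) (Q : Fin m → MvPolynomial (Fin r) ℂ)
  (u : Fin m → M.X → ℂ), T ≠ 0 → Ab D Φ k T L P a b → (∀ l, (Q l).IsHomogeneous e) →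
  (∀ l, u l = pv (fun β y => a (ε β).1 y * b (ε β).2 y) (Q l)) →
  ∃ P' : ι → ℤ, ∀ α : (Fin (r₁ + 1) × Fin m) × Fin (r₂ + 1) × Fin m,
    Sp D P' (fun y => a α.1.1 y * u α.1.2 y * (b α.2.1 y * u α.2.2 y)) ∧
    ∀ β : (Fin (r₁ + 1) × Fin m) × Fin (r₂ + 1) × Fin m,
      Φ.ev (fun y => a α.1.1 y * u α.1.2 y * (b α.2.1 y * u α.2.2 y)) /
        Φ.ev (fun y => a β.1.1 y * u β.1.2 y * (b β.2.1 y * u β.2.2 y)) ∈ k

/-- Domination for a nef canonical class. -/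
def St_D3 : Prop := ∀ (n : ℕ) (M : Mf n) [M.Cpt] (ι : Type) [Fintype ι] [DecidableEq ι]
  (D : Ad M ι) (F : Type) [Field F] [Algebra ℂ F] (Φ : FM D F) (V : VF n F) (m : ι → V.P → ℤ)
  (π : Hg D → V.P) (l Q : ι → ℤ) (e : ι → ℕ) (d : ℕ) (z : Fin d → F) (k : IntermediateField ℂ F)
  (a c b : ℕ) (τ : F), Φ.Br V m π →
  V.Pre (dv m l) (dv m fun i => e i) (dv m Q) d z k a c b τ → Dm D Φ k fun i => a * l i

/-- The data for a resolution of a minimal model. -/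
def St_R4 : Prop := ∀ (n : ℕ) (M : Mf n) [M.Cpt] (ι : Type) [Fintype ι] [DecidableEq ι]
  (D : Ad M ι) (X : Cx D) (r c' c₀ : ℕ) (t : Fin r → M.X → ℂ) (ν : ι → ℤ) (F : Type) [Field F]
  [Algebra ℂ F] (Φ : FM D F) (V : VF n F) (m : ι → V.P → ℤ) (π : Hg D → V.P) (Q : ι → ℤ) (d : ℕ)
  (z : Fin d → F) (k : IntermediateField ℂ F) (a c b : ℕ) (τ : F), Ctx4 X t c' c₀ ν →
  Φ.Br V m π → V.Pre (dv m X.l) (dv m fun i => X.e i) (dv m Q) d z k a c b τ →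
  V.One (dv m X.l) k → Fb V m k (fun i => a * ν i) (fun i => c₀ * X.l i - ν i) (τ ^ c₀)

/-- The weights for a resolution of a minimal model. -/
def St_Z4 : Prop := ∀ (n : ℕ) (M : Mf n) [M.Cpt] (ι : Type) [Fintype ι] [DecidableEq ι]
  (D : Ad M ι) (X : Cx D) (r c' c₀ a : ℕ) (t : Fin r → M.X → ℂ) (ν : ι → ℤ), 0 < a →
  Ctx4 X t c' c₀ ν → Prj X t ∧ Zw X (a * c₀) (fun i => a * ν i) fun i => c₀ * X.l i - ν i

/-- Domination for a resolution of a minimal model. -/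
def St_D4 : Prop := ∀ (n : ℕ) (M : Mf n) [M.Cpt] (ι : Type) [Fintype ι] [DecidableEq ι]
  (D : Ad M ι) (X : Cx D) (r c' c₀ : ℕ) (t : Fin r → M.X → ℂ) (ν : ι → ℤ) (F : Type) [Field F]
  [Algebra ℂ F] (Φ : FM D F) (V : VF n F) (m : ι → V.P → ℤ) (π : Hg D → V.P) (Q : ι → ℤ) (d : ℕ)
  (z : Fin d → F) (k : IntermediateField ℂ F) (a c b : ℕ) (τ : F), Ctx4 X t c' c₀ ν →
  Φ.Br V m π → V.Pre (dv m X.l) (dv m fun i => X.e i) (dv m Q) d z k a c b τ →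
  Dm D Φ k fun i => a * ν i

/-- The theorem of the project. -/
def St_GAP : Prop := ∀ (n : ℕ) (M : Mf n) [M.Cpt] (ι : Type) [Fintype ι] [DecidableEq ι]
  (D : Ad M ι) (X : Cx D) (r : ℕ) (t : Fin r → M.X → ℂ) (F : Type) [Field F] [Algebra ℂ F]
  (Φ : FM D F) (V : VF n F) (m : ι → V.P → ℤ) (π : Hg D → V.P) (k : IntermediateField ℂ F)
  (a₀ : ℕ) (lam κ : ι → ℤ) (τ : F), Prj X t → Zw X a₀ lam κ → Φ.Br V m π → Fb V m k lam κ τ →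
  Dm D Φ k lam → ∃ j : ℕ, 0 < j ∧ ∃ s ≠ 0, Sp D (fun i => j * lam i + κ i) s

theorem gEXC (hG : St_GAP) (hR : R6.St_R3) (hD : St_D3) : NV5.Sb_EXC := by
  intro n M _ ι _ _ D X r c' t F _ _ Φ V m π Q d z k a c b τ C br _ hP hO
  obtain ⟨h1, h2, h3⟩ := hR n M ι D X r c' t F V m Q d z k a c b τ C hP hO
  obtain ⟨j, j0, s, s0, hs⟩ := hG n M ι D X r t F Φ V m π k a _ _ τ h1 h2 br h3
    (hD n M ι D F Φ V m π X.l Q X.e d z k a c b τ br hP)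
  exact ⟨j * a, Nat.mul_pos j0 hP.a0, s, s0, by simpa [mul_assoc] using hs⟩

end Pool.Agent.Lib.NV6
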