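import Pool.Agent.Lib.NV6.G_DK
import Pool.Agent.Lib.NV5.Blue

/-! Project NV6, block GAP: domination of a family of sections. -/

open scoped Classical

noncomputable section

namespace Pool.Agent.Lib.NV6

open Pool.Agent.Lib.HS32 Pool.Agent.Lib.EX Pool.Agent.Lib.ZL Pool.Agent.Lib.NV5

theorem gDOM (hK : Sb_KIT) (hF : Sb_FN) {n : ℕ} {M : Mf n} [M.Cpt] {ι : Type} [Fintype ι]
    [DecidableEq ι] {D : Ad M ι} {F : Type} [Field F] [Algebra ℂ F] {Φ : FM D F} {V : VF n F}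
    {m : ι → V.P → ℤ} {π : Hg D → V.P} (br : Φ.Br V m π) {l e Q : ι → ℤ} {d : ℕ} {z : Fin d → F}
    {k : IntermediateField ℂ F} {a c b : ℕ} {τ : F}
    (hP : V.Pre (dv m l) (dv m e) (dv m Q) d z k a c b τ) {r : ℕ} {P : ι → ℤ}
    {h : Fin r → M.X → ℂ} (sp : ∀ a, Sp D P (h a)) (a₀ : Fin r) (h0 : h a₀ ≠ 0)
    (hk : ∀ a, Φ.ev (h a) / Φ.ev (h a₀) ∈ k) : ∃ c' : ℕ, ∀ j : ℕ, ∃ s : Fin r → M.X → ℂ,
    (∀ a, Sp D (fun i => j * (c' * l i) + b * e i) (s a)) ∧ s a₀ ≠ 0 ∧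
      ∀ a x, s a x * h a₀ x ^ j = s a₀ x * h a x ^ j := by
  obtain ⟨-, -, -, -, -, -, -, -, k9, -⟩ := hK n M ι D
  obtain ⟨-, f0, f1, -⟩ := hF n M ι D F Φ
  have pw (s t) (hs : Rg D s) (ht : Rg D t) (j : ℕ) :
      Rg D (s * t ^ j) ∧ Φ.ev (s * t ^ j) = Φ.ev s * Φ.ev t ^ j := by
    induction j with
    | zero => rw [pow_zero, pow_zero, mul_one, mul_one]; exact ⟨hs, rfl⟩
    | succ j ih =>
      rw [pow_succ, pow_succ, ← mul_assoc, ← mul_assoc, Φ.mul _ _ ih.1 ht, ih.2]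
      exact ⟨(k9 _ _ ih.1 ht).2.1, rfl⟩
  have e0 : Φ.ev (h a₀) ≠ 0 := fun e => h0 (Φ.inj _ ⟨P, sp a₀⟩ e)
  obtain ⟨c', hc⟩ := domK hP _ hk
  refine ⟨c', fun j => ?_⟩
  obtain ⟨w, w0, hw⟩ := hc j
  have e : (j * c') • dv m l + b • dv m e = dv m fun i => j * (c' * l i) + b * e i := by
    funext p
    rw [Pi.add_apply, Pi.smul_apply, Pi.smul_apply]
    simp only [NV5.dv, nsmul_eq_mul, Finset.mul_sum, add_mul, Finset.sum_add_distrib,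
      Nat.cast_mul, mul_assoc]
  choose s s1 s2 using fun a => (br.sec _ _).1 (e ▸ hw (Pi.single a j) (by simp))
  have s3 (a) : Φ.ev (s a) = w * (Φ.ev (h a) / Φ.ev (h a₀)) ^ j := by
    rw [s2, Finset.prod_eq_single a (fun i _ hi => by rw [Pi.single_eq_of_ne hi, pow_zero])
      (fun hi => (hi (Finset.mem_univ a)).elim), Pi.single_eq_same]
  have s4 : Φ.ev (s a₀) = w := by rw [s3, div_self e0, one_pow, mul_one]
  refine ⟨s, s1, fun q => w0 (by rw [← s4, q, f0]), fun a => congrFun (f1 (s a * h a₀ ^ j)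
    (s a₀ * h a ^ j) (pw _ _ ⟨_, s1 a⟩ ⟨P, sp a₀⟩ j).1 (pw _ _ ⟨_, s1 a₀⟩ ⟨P, sp a⟩ j).1 ?_)⟩
  rw [(pw _ _ ⟨_, s1 a⟩ ⟨P, sp a₀⟩ j).2, (pw _ _ ⟨_, s1 a₀⟩ ⟨P, sp a⟩ j).2, s3, s4, mul_assoc,
    ← mul_pow, div_mul_cancel₀ _ e0]

end Pool.Agent.Lib.NV6
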