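import Pool.Agent.Lib.NV6.GBlue
import Pool.Agent.Lib.NV6.G_DOM

/-! Project NV6, block GAP: domination for a nef canonical class. -/

open scoped Classical

noncomputable section

namespace Pool.Agent.Lib.NV6

theorem gD3 (hK : NV5.Sb_KIT) (hF : NV5.Sb_FN) : St_D3 := by
  intro n M _ ι _ _ D F _ _ Φ V m π l Q e d z k a c b τ br hP T _ P h a₀ sp h0 hk
  have a0 : (a : ℝ) ≠ 0 := Nat.cast_ne_zero.2 hP.a0.ne'
  obtain ⟨c', hc⟩ := gDOM hK hF br hP (h := fun i => h ((Fintype.equivFin T).symm i))
    (fun i => sp _) (Fintype.equivFin T a₀) (by rw [Equiv.symm_apply_apply]; exact h0)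
    (fun i => by rw [Equiv.symm_apply_apply]; exact hk _)
  refine ⟨c' / a, fun i => c' * l i, fun i => b * e i, by positivity, fun i => ?_,
    fun i => by positivity, fun j => ?_⟩
  · push_cast
    field_simp
  · obtain ⟨s, s1, s2, s3⟩ := hc j
    refine ⟨fun t => s (Fintype.equivFin T t), fun t => s1 _, s2, fun t x => ?_⟩
    have := s3 (Fintype.equivFin T t) x
    rwa [Equiv.symm_apply_apply, Equiv.symm_apply_apply] at this

end Pool.Agent.Lib.NV6
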