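import Pool.Agent.Lib.NV6.GBlue

/-! Block GAP, row MEA. -/

open scoped Classical Topology ENNReal
open Set MeasureTheory

noncomputable section

namespace Pool.Agent.Lib.NV6

theorem gMEA : St_MEA := by
  intro Y S _ _ _ _ _ μ p w h0 hp hw hpos hfin
  have hw' : AEMeasurable (fun y => ENNReal.ofReal (w y)) μ := hw.ennreal_ofReal
  set μ' := μ.withDensity fun y => ENNReal.ofReal (w y) with hμ'
  have hp' : AEMeasurable p μ' := hp.mono_ac (withDensity_absolutelyContinuous _ _)
  set c := ∫⁻ y, ENNReal.ofReal (w y) ∂μ with hc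
  have hu : μ' univ = c := by rw [hμ', withDensity_apply _ MeasurableSet.univ, Measure.restrict_univ]
  have c0 : c ≠ 0 := fun e => by
    have h1 := (lintegral_eq_zero_iff' hw').1 e
    have h2 : ∀ᵐ y ∂μ, False := by
      filter_upwards [h1, hpos] with y a b
      exact absurd (ENNReal.ofReal_eq_zero.1 a) (not_le.2 b)
    exact h0 (ae_eq_bot.1 (Filter.eventually_false_iff_eq_bot.1 h2))
  have hprob : IsProbabilityMeasure (c⁻¹ • μ'.map p) := ⟨by
    rw [Measure.smul_apply, Measure.map_apply_of_aemeasurable hp' MeasurableSet.univ, preimage_univ,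
      hu, smul_eq_mul, ENNReal.inv_mul_cancel c0 hfin]⟩
  refine ⟨⟨c⁻¹ • μ'.map p, hprob⟩, c, c0, hfin, fun f hf f0 => ?_⟩
  have hm : Measurable fun u => ENNReal.ofReal (f u) := hf.measurable.ennreal_ofReal
  have hi : Integrable f (c⁻¹ • μ'.map p) :=
    hf.integrable_of_hasCompactSupport (HasCompactSupport.of_compactSpace f)
  change _ = c * ENNReal.ofReal (∫ u, f u ∂(c⁻¹ • μ'.map p))
  rw [ofReal_integral_eq_lintegral_ofReal hi (ae_of_all _ f0), lintegral_smul_measure, smul_eq_mul,
    ← mul_assoc, ENNReal.mul_inv_cancel c0 hfin, one_mul, lintegral_map' hm.aemeasurable hp', hμ',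
    lintegral_withDensity_eq_lintegral_mul₀ (g := fun a => ENNReal.ofReal (f (p a))) hw'
      (hm.comp_aemeasurable hp)]
  refine lintegral_congr fun y => ?_
  rw [ENNReal.ofReal_mul (f0 _), mul_comm]
  rfl

end Pool.Agent.Lib.NV6
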