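import Pool.Agent.Lib.NV6.GBlue
import Pool.Agent.Lib.NV6.J_J
import Pool.Agent.Lib.NV6.J_BRG

/-! Project NV6, block GAP: the passage to the final model. -/

open scoped Classical Topology ContDiff ENNReal
open Set MeasureTheory Complex Metric Filter

noncomputable section

namespace Pool.Agent.Lib.NV6

open Pool.Agent.Lib.SV (E nsq)
open Pool.Agent.Lib.HS32 Pool.Agent.Lib.EX Pool.Agent.Lib.EXS Pool.Agent.Lib.ZL
open Pool.Agent.Lib.ZQ (offz)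
open Pool.Agent.Lib.NV5 (FM)
open Pool.Agent.Lib.NV6.J (Ho pv)
open Pool.Agent.Lib.R6 (Ab)

theorem GNEW.nsq_prod {I J : Type} [Fintype I] [Fintype J] (u : I → ℂ) (v : J → ℂ) :
    nsq (fun p : I × J => u p.1 * v p.2) = nsq u * nsq v := by
  simp only [nsq, map_mul, Fintype.sum_prod_type, Finset.sum_mul_sum]

/-- The final model. -/
theorem gNEW (hU : St_UPB) (hJ : J.St_J) (hE : St_EXT) (hK : J.St_KIT) (hD : St_DIC) {n : ℕ}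
    {M : Mf n} [M.Cpt] {ι : Type} [Fintype ι] [DecidableEq ι] {D : Ad M ι} {X : Cx D} {F : Type}
    [Field F] [Algebra ℂ F] {Φ : FM D F} {k : IntermediateField ℂ F} {T : F} {r r₁ r₂ d e : ℕ}
    {L κ P lam : ι → ℤ} {g b₀ : M.X → ℂ} {ε : Fin r ≃ Fin (r₁ + 1) × Fin (r₂ + 1)}
    {a : Fin (r₁ + 1) → M.X → ℂ} {b : Fin (r₂ + 1) → M.X → ℂ} (T0 : T ≠ 0)
    (ab : Ab D Φ k T L P a b) (r1 : ∃ C, ∀ x ∈ offz D g,
      nsq (a · x) ≤ C * Real.exp (-lw D (fun i => L i) x) * nsq (b · x))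
    (md : J.Md X d e L κ g (fun i => L i + 2 * P i) (fun β y => a (ε β).1 y * b (ε β).2 y)
      (fun β y => a (ε β).1 y ^ 2) b₀)
    (rk : J.Rk X g (fun i => L i + 2 * P i) (fun β y => a (ε β).1 y * b (ε β).2 y)
      fun i => L i + κ i) (dm : Dm D Φ k lam) :
    ∃ (I J : Type) (_ : Fintype I) (_ : Fintype J) (_ : Nonempty I) (_ : Nonempty J)
      (g' : M.X → ℂ) (a' : I → M.X → ℂ) (b' : J → M.X → ℂ), HoO D g' ∧ (∃ x ∈ off D, g' x ≠ 0) ∧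
      (∀ i, Ho D (offz D g') (a' i)) ∧ (∀ j, Ho D (offz D g') (b' j)) ∧
      (∀ x ∈ offz D g', (∀ i, a' i x ≠ 0) ∧ ∀ j, b' j x ≠ 0) ∧
      (∃ C, ∀ x ∈ offz D g',
        nsq (a' · x) ≤ C * Real.exp (-lw D (fun i => L i) x) * nsq (b' · x)) ∧
      Mdl (Clo fun x : offz D g' => sg ((a' · x), (b' · x))) 1 ∧
      ∃ (γ : ℝ) (Λ B : ι → ℤ) (α₀ : I × J), 0 ≤ γ ∧ (∀ i, (Λ i : ℝ) = γ * lam i) ∧ 0 ≤ B ∧
        ∀ j : ℕ, ∃ s : I × J → M.X → ℂ, (∀ α, Sp D (fun i => j * Λ i + B i) (s α)) ∧ s α₀ ≠ 0 ∧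
          ∀ α x, s α x * (a' α₀.1 x * b' α₀.2 x) ^ j = s α₀ x * (a' α.1 x * b' α.2 x) ^ j := by
  obtain ⟨m, e', Q, g', m0, hQ, ⟨R, hg'⟩, ⟨x₀, x1, x2⟩, sub, hne, hN⟩ :=
    hJ n M ι D X r d e g L κ _ _ _ b₀ md rk
  have hg := ((hU n M ι D R).1 g' hg'.1).1
  obtain ⟨o1, o2, o3⟩ := J.ae_offz X hg ⟨x₀, x1, x2⟩
  obtain ⟨-, k2, -, k4, -, k6, -⟩ := hK n M ι D X _ o1 o2 o3
  have nz : ∀ x ∈ offz D g', ∀ i j, a i x ≠ 0 ∧ b j x ≠ 0 := fun x hx i j => by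
    have := (md.hne x (sub hx)).1 (ε.symm (i, j))
    rwa [Equiv.apply_symm_apply, mul_ne_zero_iff] at this
  have hp := (k6 r _ fun β => (k2 _ _ (md.sp β)).1).1
  obtain ⟨P', hP'⟩ := hD n M ι D F Φ k T L P r r₁ r₂ m e' a b ε Q _ T0 ab hQ fun _ => rfl
  let l : Fin m := ⟨0, m0⟩
  obtain ⟨γ, Λ, B, h1, h2, h3, h4⟩ := dm _ P' _ ((0, l), (0, l)) (fun α => (hP' α).1)
    (fun h => mul_ne_zero (mul_ne_zero (nz x₀ ⟨x1, x2⟩ 0 0).1 (hne x₀ ⟨x1, x2⟩ l))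
      (mul_ne_zero (nz x₀ ⟨x1, x2⟩ 0 0).2 (hne x₀ ⟨x1, x2⟩ l)) (congrFun h x₀))
    fun α => (hP' α).2 _
  obtain ⟨C, hC⟩ := r1
  refine ⟨Fin (r₁ + 1) × Fin m, Fin (r₂ + 1) × Fin m, inferInstance, inferInstance, ⟨(0, l)⟩,
    ⟨(0, l)⟩, g', fun p y => a p.1 y * pv (fun β y => a (ε β).1 y * b (ε β).2 y) (Q p.2) y,
    fun p y => b p.1 y * pv (fun β y => a (ε β).1 y * b (ε β).2 y) (Q p.2) y, hg, ⟨x₀, x1, x2⟩,
    fun p => (k4 _ _ (k2 _ _ (ab.sa _).1).1 (hp _)).2.2.1,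
    fun p => (k4 _ _ (k2 _ _ (ab.sb _).1).1 (hp _)).2.2.1,
    fun x hx => ⟨fun p => mul_ne_zero (nz x hx _ 0).1 (hne x hx _),
      fun p => mul_ne_zero (nz x hx 0 _).2 (hne x hx _)⟩, ⟨C, fun x hx => ?_⟩, ?_,
    γ, Λ, B, _, h1, h2, h3, h4⟩
  · have e1 := GNEW.nsq_prod (a · x) fun i => pv (fun β y => a (ε β).1 y * b (ε β).2 y) (Q i) x
    have e2 := GNEW.nsq_prod (b · x) fun i => pv (fun β y => a (ε β).1 y * b (ε β).2 y) (Q i) x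
    rw [e1, e2, ← mul_assoc]
    exact mul_le_mul_of_nonneg_right (hC x (sub hx)) (SV.nsq_nonneg _)
  · have key := J.brg hE (D := D) (O := offz D g') ε (finProdFinEquiv (m := r) (n := m)).symm
      (a := a) (b := b) (Q := fun i => pv (fun β y => a (ε β).1 y * b (ε β).2 y) (Q i))
      (h := fun β y => a (ε β).1 y * b (ε β).2 y) (W := fun β y => a (ε β).1 y ^ 2)
      (fun x _ α => ⟨rfl, rfl⟩) (fun x hx i => (nz x hx i 0).1) (fun x hx j => (nz x hx 0 j).2)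
      hne (hN _ _)
    exact key

end Pool.Agent.Lib.NV6
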