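import Pool.Agent.Lib.NV6.GBlue

/-! Project NV6, block GAP: sections and weights of the model as functions on the manifold. -/

open scoped Classical Topology ContDiff ENNReal
open Set MeasureTheory Complex Metric Filter

set_option linter.unusedSectionVars false

noncomputable section

namespace Pool.Agent.Lib.NV6

open Pool.Agent.Lib.SV (E nsq nsq_nonneg)
open Pool.Agent.Lib.HS32 Pool.Agent.Lib.EX Pool.Agent.Lib.EXS Pool.Agent.Lib.ZL
open Pool.Agent.Lib.EXS.K32 (lv lv_lg lv_congr nsq_pos)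
open Pool.Agent.Lib.NV6.J (Ho Ps)

variable {n : ℕ} {M : Mf n} [M.Cpt] {ι : Type} [Fintype ι] [DecidableEq ι] {D : Ad M ι}
  {I J : Type} [Fintype I] [Fintype J] {O : Set M.X}

namespace PUL

theorem ev (hO : IsOpen O) {d : D.A} {z : E n} (hz : z ∈ B2 n) (hw : (D.e d).symm z ∈ O) :
    ∀ᶠ y in 𝓝 z, (D.e d).symm y ∈ O :=
  ((D.e d).continuousAt_symm (K32.tg hz)).eventually (hO.mem_nhds hw)

theorem ho_congr (hO : IsOpen O) {F G : M.X → ℂ} (h : Ho D O F) (e : ∀ x ∈ O, G x = F x) :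
    Ho D O G := fun d z hz hw => by
  filter_upwards [h d z hz hw, ((ev hO hz hw).mono fun y hy => e _ hy).eventually_nhds] with y h1 h2
  exact h1.congr_of_eventuallyEq h2

theorem ps_congr (hO : IsOpen O) {F G : M.X → ℝ} (h : Ps D O F) (e : ∀ x ∈ O, G x = F x) :
    Ps D O G := fun d z hz hw =>
  have h2 : D.rd G d =ᶠ[𝓝 z] D.rd F d := (ev hO hz hw).mono fun _ hy => e _ hy
  ⟨(h d z hz hw).1.congr_of_eventuallyEq h2, fun v => ((h d z hz hw).2 v).trans_eq
    (lv_congr h2 v).symm⟩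

theorem ps_lg {T : Type} [Fintype T] {F : T → M.X → ℂ} (h : ∀ l, Ho D O (F l))
    (h0 : ∀ x ∈ O, 0 < nsq (F · x)) : Ps D O fun x => Real.log (nsq (F · x)) := fun d z hz hw => by
  have h1 : HolN (fun y l => D.rd (F l) d y) z :=
    (eventually_all.2 fun l => h l d z hz hw).mono fun y hy => differentiableAt_pi.2 hy
  have h2 := lv_lg h1 fun e => (h0 _ hw).ne' (by
    rw [show (F · ((D.e d).symm z)) = 0 from e]; simp [nsq])
  exact ⟨h2.1, fun v => (h2.2 v).1⟩

theorem ps_sum {T : Type} (s : Finset T) {F : T → M.X → ℝ} (h : ∀ l, Ps D O (F l)) :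
    Ps D O fun x => ∑ l ∈ s, F l x := fun d z hz hw =>
  ⟨ContDiffAt.sum fun l _ => (h l d z hz hw).1, fun v =>
    (Finset.sum_nonneg fun l _ => (h l d z hz hw).2 v).trans_eq
      (K32.lv_sum (fun l _ => (h l d z hz hw).1) v).symm⟩

theorem ps_add {F G : M.X → ℝ} (h : Ps D O F) (h' : Ps D O G) : Ps D O fun x => F x + G x :=
  fun d z hz hw => ⟨(h d z hz hw).1.add (h' d z hz hw).1, fun v =>
    (add_nonneg ((h d z hz hw).2 v) ((h' d z hz hw).2 v)).trans_eq
      (K32.lv_add (h d z hz hw).1 (h' d z hz hw).1 v).symm⟩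

theorem ps_mul {F : M.X → ℝ} (h : Ps D O F) {c : ℝ} (hc : 0 ≤ c) : Ps D O fun x => c * F x :=
  fun d z hz hw => ⟨contDiffAt_const.mul (h d z hz hw).1, fun v =>
    (mul_nonneg hc ((h d z hz hw).2 v)).trans_eq (K32.lv_mul (h d z hz hw).1 c v).symm⟩

theorem ho_mul {F G : M.X → ℂ} (h : Ho D O F) (h' : Ho D O G) : Ho D O fun x => F x * G x :=
  fun d z hz hw => ((h d z hz hw).and (h' d z hz hw)).mono fun _ hy => hy.1.mul hy.2

theorem ho_pow {F : M.X → ℂ} (h : Ho D O F) (k : ℕ) : Ho D O fun x => F x ^ k :=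
  fun d z hz hw => (h d z hz hw).mono fun _ hy => hy.pow k

theorem ho_ev {T : Type} {F : T → M.X → ℂ} (h : ∀ l, Ho D O (F l)) (A : MvPolynomial T ℂ) :
    Ho D O fun x => MvPolynomial.eval (F · x) A := by
  induction A using MvPolynomial.induction_on with
  | C c =>
    simp only [MvPolynomial.eval_C]
    exact fun _ _ _ _ => Eventually.of_forall fun _ => differentiableAt_const c
  | add p q hp hq =>
    simp only [map_add]
    exact fun d z hz hw => ((hp d z hz hw).and (hq d z hz hw)).mono fun _ hy => hy.1.add hy.2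
  | mul_X p l hp =>
    simp only [map_mul, MvPolynomial.eval_X]
    exact ho_mul hp (h l)

theorem ho_div (hO : IsOpen O) {F G : M.X → ℂ} (h : Ho D O F) (h' : Ho D O G)
    (h0 : ∀ x ∈ O, G x ≠ 0) : Ho D O fun x => F x / G x := fun d z hz hw => by
  filter_upwards [h d z hz hw, h' d z hz hw, ev hO hz hw] with y h1 h2 h3
  exact (h1.mul (h2.inv (h0 _ h3))).congr_of_eventuallyEq
    (Eventually.of_forall fun _ => div_eq_mul_inv _ _)

variable {Z : Set (I × J → ℂ)} {a : I → M.X → ℂ} {b : J → M.X → ℂ} {p : M.X → Sph Z}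

theorem sec (hS : St_SEC) (hH : St_SPH) (h : Mp D O Z a b p) {q e : ℕ} {s : Fn I J}
    (hs : Sec Z q e s) : Ho D O (fun x => s ((a · x), (b · x))) ∧ ∀ x ∈ O,
      normSq (s ((a · x), (b · x))) = normSq (s (p x).1) * Real.exp
        (q * Real.log (nsq (a · x) / nsq (b · x)) + e * Real.log (nsq (a · x) * nsq (b · x))) := by
  have k : ∀ x ∈ O, ((a · x), (b · x)) ∈ Bc Z ∧ s ((a · x), (b · x)) * (√(nsq (b · x)) : ℂ) ^ q =
      (√(nsq (a · x)) : ℂ) ^ (e + q) * (√(nsq (b · x)) : ℂ) ^ e * s (p x).1 := fun x hx => by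
    obtain ⟨h1, h2, h3, h4⟩ := h.eq x hx
    have := hS.hom h.cone hs _ (hH.bc (p x)).1 _ _ (ofReal_ne_zero.2 (Real.sqrt_pos.2 h1).ne')
      (ofReal_ne_zero.2 (Real.sqrt_pos.2 h2).ne')
    rwa [← h3, ← h4] at this
  refine ⟨fun d z hz hw => ?_, fun x hx => ?_⟩
  · obtain ⟨i, j, -⟩ := (hH.bc (p ((D.e d).symm z))).2.2.1
    obtain ⟨k', A, -, hA⟩ := hs i j
    refine ho_congr h.op (ho_div h.op (ho_ev (F := fun β x => a β.1 x * b β.2 x)
      (fun β => ho_mul (h.ha β.1) (h.hb β.2)) A) (ho_mul (ho_pow (h.hb j) (2 * q))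
        (ho_pow (ho_mul (h.ha i) (h.hb j)) k')) fun x hx => mul_ne_zero
          (pow_ne_zero _ ((h.ne x hx).2 j)) (pow_ne_zero _
            (mul_ne_zero ((h.ne x hx).1 i) ((h.ne x hx).2 j)))) (fun x hx => ?_) d z hz hw
    exact eq_div_of_mul_eq (mul_ne_zero (pow_ne_zero _ ((h.ne x hx).2 j)) (pow_ne_zero _
      (mul_ne_zero ((h.ne x hx).1 i) ((h.ne x hx).2 j))))
      ((mul_assoc _ _ _).symm.trans (hA _ (k x hx).1))
  · obtain ⟨h1, h2, -⟩ := h.eq x hx
    have e1 := congrArg normSq (k x hx).2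
    simp only [map_mul, map_pow, normSq_ofReal, Real.mul_self_sqrt h1.le,
      Real.mul_self_sqrt h2.le] at e1
    rw [Real.exp_add, Real.exp_nat_mul, Real.exp_nat_mul, Real.exp_log (div_pos h1 h2),
      Real.exp_log (mul_pos h1 h2), eq_div_of_mul_eq (pow_pos h2 q).ne' e1, div_pow, mul_pow]
    ring

theorem adm (hS : St_SEC) (hH : St_SPH) (h : Mp D O Z a b p) {y c : ℝ} {β : Sph Z → ℝ}
    (hβ : Adm Z y c β) : Ps D O fun x => β (p x) +
      (y * Real.log (nsq (a · x) / nsq (b · x)) + c * Real.log (nsq (a · x) * nsq (b · x))) := by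
  obtain ⟨r, t, q, e, N, h1, rfl, h3, h4⟩ := hβ
  choose m S s1 s2 using fun l => (h1 l).2.1
  have k : ∀ l, ∀ x ∈ O, nsq (fun i => S l i ((a · x), (b · x))) = N l (p x) * Real.exp
      (q l * Real.log (nsq (a · x) / nsq (b · x)) + e l * Real.log (nsq (a · x) * nsq (b · x))) :=
    fun l x hx => by
      rw [s2, Finset.sum_mul]
      exact Finset.sum_congr rfl fun i _ => (sec hS hH h (s1 l i)).2 x hx
  refine ps_congr h.op (ps_add (ps_sum Finset.univ fun l => ps_mul (ps_lg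
    (F := fun i x => S l i ((a · x), (b · x))) (fun i => (sec hS hH h (s1 l i)).1) fun x hx => by
      rw [k l x hx]; exact mul_pos ((h1 l).2.2 _) (Real.exp_pos _)) (h1 l).1)
    (ps_mul (ps_add (ps_lg h.ha fun x hx => (h.eq x hx).1) (ps_lg h.hb fun x hx => (h.eq x hx).2.1))
      (sub_nonneg.2 h3))) fun x hx => ?_
  have e1 : ∀ l, Real.log (nsq fun i => S l i ((a · x), (b · x))) = _ := fun l => by
    rw [k l x hx, Real.log_mul ((h1 l).2.2 _).ne' (Real.exp_pos _).ne', Real.log_exp]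
  simp only [e1, ← Real.log_mul (h.eq x hx).1.ne' (h.eq x hx).2.1.ne', h4, mul_add,
    Finset.sum_add_distrib, ← mul_assoc, ← Finset.sum_mul]
  ring

end PUL

theorem gPUL (hS : St_SEC) (hH : St_SPH) : St_PUL := fun _ _ _ _ _ _ _ _ _ _ _ _ _ _ _ _ h =>
  ⟨fun _ _ _ hs => PUL.sec hS hH h hs, fun _ _ _ hβ => PUL.adm hS hH h hβ⟩

end Pool.Agent.Lib.NV6
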