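import Mathlib

/-! Project NV6, block R: the reference metric. The algebraic part: objects and blueprint. -/

open Polynomial Complex Set

set_option linter.unusedVariables false

noncomputable section

namespace Pool.Agent.Lib.R6

/-- A point: a local subalgebra with its evaluation. -/
structure Pt (F : Type) [Field F] [Algebra ℂ F] where
  S : Subalgebra ℂ F
  v : F → ℂ
  add : ∀ f ∈ S, ∀ g ∈ S, v (f + g) = v f + v g
  mul : ∀ f ∈ S, ∀ g ∈ S, v (f * g) = v f * v g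
  cst : ∀ c, v (algebraMap ℂ F c) = c
  inv : ∀ f ∈ S, v f ≠ 0 → f⁻¹ ∈ S

section defs

variable {F : Type} [Field F] [Algebra ℂ F] {σ : Type}

/-- The elements of `U` are units at the point. -/
def Pt.Un (p : Pt F) (U : Finset F) : Prop := ∀ f ∈ U, f ∈ p.S ∧ p.v f ≠ 0

/-- The squared norm of a family at the point. -/
def Pt.N [Fintype σ] (p : Pt F) (a : σ → F) : ℝ := ∑ i, normSq (p.v (a i))

/-- The homogeneous coordinate ring with coefficients generated by `u`. -/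
def cn (u : Set F) (y : σ → F) : Subalgebra ℂ F[X] :=
  Algebra.adjoin ℂ (C '' u ∪ range fun i => C (y i) * X)

/-- `f` is integral in degree `j`. -/
def GI (u : Set F) (y : σ → F) (j : ℕ) (f : F) : Prop := IsIntegral (cn u y) (C f * X ^ j)

/-- Linear forms. -/
def lf {τ : Type} [Fintype σ] (c : τ → σ → ℂ) (x : σ → F) : τ → F := fun i => ∑ s, c i s • x s

/-- The substitution of the homogeneous coordinates. -/
def hy (k : IntermediateField ℂ F) (y : σ → F) : MvPolynomial σ k →+* F[X] :=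
  MvPolynomial.eval₂Hom (C.comp (algebraMap k F)) fun i => C (y i) * X

/-- The value of a polynomial at a complex point. -/
def ep (k : IntermediateField ℂ F) (β : σ → ℂ) (f : MvPolynomial σ k) : k :=
  MvPolynomial.eval (fun i => algebraMap ℂ k (β i)) f

/-- The coefficients of the coefficients. -/
def cf {k : IntermediateField ℂ F} (m : (MvPolynomial σ k)[X]) (i : ℕ) (α : σ →₀ ℕ) : F :=
  ((m.coeff i).coeff α : k)

/-- The minimal polynomial of an element of degree `c`. -/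
structure Mp (k : IntermediateField ℂ F) (y : σ → F) (c : ℕ) (P : F)
    (m : (MvPolynomial σ k)[X]) : Prop where
  mon : m.Monic
  pos : 0 < m.natDegree
  hom : ∀ i ≤ m.natDegree, (m.coeff i).IsHomogeneous (c * (m.natDegree - i))
  root : m.eval₂ (hy k y) (C P * X ^ c) = 0
  dvd : ∀ q : (MvPolynomial σ k)[X], q.eval₂ (hy k y) (C P * X ^ c) = 0 → m ∣ q
  ne : P ≠ 0 → m.coeff 0 ≠ 0

end defs

/-! ### Rows -/

/-- Values at points. -/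
def St_KIT : Prop := ∀ (F : Type) [Field F] [Algebra ℂ F] (p : Pt F), p.v 0 = 0 ∧ p.v 1 = 1 ∧
  (∀ (c : ℂ), ∀ f ∈ p.S, p.v (c • f) = c * p.v f) ∧ (∀ f ∈ p.S, ∀ j : ℕ, p.v (f ^ j) = p.v f ^ j) ∧
  (∀ f ∈ p.S, ∀ g ∈ p.S, p.v g ≠ 0 → f / g ∈ p.S ∧ p.v (f / g) = p.v f / p.v g) ∧
  (∀ (κ : Type) (s : Finset κ) (f : κ → F), (∀ i ∈ s, f i ∈ p.S) →
    p.v (∑ i ∈ s, f i) = ∑ i ∈ s, p.v (f i) ∧ p.v (∏ i ∈ s, f i) = ∏ i ∈ s, p.v (f i)) ∧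
  ∀ (κ : Type) (x : κ → F) (Q : MvPolynomial κ ℂ), (∀ i, x i ∈ p.S) →
    MvPolynomial.aeval x Q ∈ p.S ∧
      p.v (MvPolynomial.aeval x Q) = MvPolynomial.eval (fun i => p.v (x i)) Q

/-- Interpolation on a grid that avoids a hypersurface. -/
def St_ITP : Prop := ∀ (F : Type) [Field F] [Algebra ℂ F] (k : IntermediateField ℂ F) (σ : Type)
  [Fintype σ] (D : ℕ) (n : MvPolynomial σ k), n ≠ 0 →
  ∃ (G : Finset (σ → ℂ)) (c : (σ →₀ ℕ) → (σ → ℂ) → ℂ), G.Nonempty ∧ (∀ β ∈ G, ep k β n ≠ 0) ∧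
    ∀ f : MvPolynomial σ k, f.totalDegree ≤ D → ∀ α, f.coeff α = ∑ β ∈ G, c α β • ep k β f

/-- The Chow form, by a count of transcendence degrees. -/
def St_CHW : Prop := ∀ (F : Type) [Field F] [Algebra ℂ F] (k : IntermediateField ℂ F) (σ : Type)
  [Fintype σ] (x : σ → F) (s₀ : σ) (g : ℕ), x s₀ ≠ 0 → Algebra.trdeg k F = g →
  ∃ (D : ℕ) (Ch : MvPolynomial (Fin (g + 1) × σ) k), Ch ≠ 0 ∧ Ch.IsHomogeneous D ∧
    ∀ u : Fin (g + 1) × σ → F, (∀ i, ∑ s, u (i, s) * x s = 0) → MvPolynomial.aeval u Ch = 0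

/-- Finitely many projections. -/
def St_COV : Prop := ∀ (F : Type) [Field F] [Algebra ℂ F] (k : IntermediateField ℂ F) (σ : Type)
  [Fintype σ] (x : σ → F) (s₀ : σ) (g : ℕ), x s₀ ≠ 0 → Algebra.trdeg k F = g →
  ∃ (r : ℕ) (c : Fin (r + 1) → Fin (g + 1) → σ → ℂ) (a : Fin (r + 1) → F),
    (∀ i, a i ∈ k ∧ a i ≠ 0) ∧ ∀ i s, GI (range fun j => a j / a i) (lf (c i) x) 1 (x s)

/-- The forms of a projection are independent. -/
def St_IND : Prop := ∀ (F : Type) [Field F] [Algebra ℂ F] (k : IntermediateField ℂ F) (σ : Type)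
  [Fintype σ] (x : σ → F) (s₀ : σ) (g : ℕ) (y : Fin (g + 1) → F), x s₀ ≠ 0 →
  Algebra.IsAlgebraic (IntermediateField.adjoin ℂ (range fun s => x s / x s₀)) F →
  Algebra.trdeg k F = g → (∀ s, GI k y 1 (x s)) → Function.Injective (hy k y)

/-- Integral elements. -/
def St_TRS : Prop := ∀ (F : Type) [Field F] [Algebra ℂ F] (σ τ : Type) (u u' : Set F)
  (x : σ → F) (y : τ → F), (∀ j f, u ⊆ u' → GI u x j f → GI u' x j f) ∧
  ∀ j f, u ⊆ u' → GI u x j f → (∀ s, GI u' y 1 (x s)) → GI u' y j f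

/-- The minimal polynomial exists. -/
def St_MIN : Prop := ∀ (F : Type) [Field F] [Algebra ℂ F] (k : IntermediateField ℂ F) (σ : Type)
  [Fintype σ] (y : σ → F) (c : ℕ) (P : F), Function.Injective (hy k y) → GI k y c P →
  ∃ m, Mp k y c P m

/-- Symmetric functions of integral elements. -/
def St_SYM : Prop := ∀ (F : Type) [Field F] [Algebra ℂ F] (k : IntermediateField ℂ F) (σ : Type)
  [Fintype σ] (y : σ → F) (c : ℕ) (P : F) (m : (MvPolynomial σ k)[X]) (u : Set F)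
  (v : MvPolynomial σ k) (M : ℕ), Mp k y c P m → u ⊆ k →
  IsIntegral (cn u y) (hy k y v * (C P * X ^ c) ^ M) →
  ∀ i ≤ m.natDegree, IsIntegral (cn u y) (hy k y (v ^ (m.natDegree - i) * m.coeff i ^ M))

/-- Evaluation preserves integrality. -/
def St_EVG : Prop := ∀ (F : Type) [Field F] [Algebra ℂ F] (k : IntermediateField ℂ F) (σ : Type)
  [Fintype σ] (y : σ → F) (u : Set F) (f : MvPolynomial σ k) (β : σ → ℂ),
  Function.Injective (hy k y) → u ⊆ k → IsIntegral (cn u y) (hy k y f) →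
  IsIntegral (Algebra.adjoin ℂ u) (ep k β f : F)

/-- Integral elements are bounded. -/
def St_BND : Prop := ∀ (F : Type) [Field F] [Algebra ℂ F] (u : Set F) (f : F) (R : ℝ),
  IsIntegral (Algebra.adjoin ℂ u) f → ∃ C : ℝ, 0 ≤ C ∧ ∀ p : Pt F,
    (∀ g ∈ u, g ∈ p.S ∧ normSq (p.v g) ≤ R) → f ∈ p.S → normSq (p.v f) ≤ C

/-- The bound for the roots. -/
def St_ROOT : Prop := ∀ (F : Type) [Field F] [Algebra ℂ F] (k : IntermediateField ℂ F) (σ : Type)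
  [Fintype σ] (y : σ → F) (c N : ℕ) (P : F) (m : (MvPolynomial σ k)[X]), Mp k y c P m → 0 < N →
  m.natDegree.factorial ∣ N → ∃ C : ℝ, 0 ≤ C ∧ ∀ (p : Pt F) (R : ℝ), 0 ≤ R → P ∈ p.S →
    (∀ s, y s ∈ p.S) → (∀ i < m.natDegree, ∀ α, cf m i α ∈ p.S ∧
      normSq (p.v (cf m i α)) ^ (N / (m.natDegree - i)) ≤ R) →
    normSq (p.v P) ^ N ≤ C * R * p.N y ^ (c * N)

/-- The bound for the coefficients. -/
def St_UPP : Prop := ∀ (F : Type) [Field F] [Algebra ℂ F] (k : IntermediateField ℂ F) (σ : Type)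
  [Fintype σ] (y : σ → F) (D c₂ : ℕ) (η : F) (u : Set F), Function.Injective (hy k y) → u ⊆ k →
  η ≠ 0 → GI u y c₂ η → ∃ V : Finset F, (∀ f ∈ V, f ∈ k ∧ f ≠ 0) ∧
    ∀ (c N M c' : ℕ) (P γ : F) (m : (MvPolynomial σ k)[X]) (R : ℝ), Mp k y c P m →
      c * m.natDegree ≤ D → m.natDegree.factorial ∣ N → γ ∈ k →
      GI u y (c * (N * M) + c₂ * c') (γ * P ^ (N * M) * η ^ c') → ∃ C : ℝ, 0 ≤ C ∧
        ∀ (p : Pt F) (t : ℝ), p.Un V → γ ∈ p.S → (∀ g ∈ u, g ∈ p.S ∧ normSq (p.v g) ≤ R) →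
          (∀ i < m.natDegree, ∀ α, cf m i α ∈ p.S) → 0 ≤ t → (∀ f ∈ V, t ≤ normSq (p.v f)) →
          ∀ i < m.natDegree, ∀ α, normSq (p.v γ) *
            (normSq (p.v (cf m i α)) ^ (N / (m.natDegree - i))) ^ M * t ^ c' ≤ C

/-- One projection. -/
def St_LOC : Prop := ∀ (F : Type) [Field F] [Algebra ℂ F] (k : IntermediateField ℂ F) (σ : Type)
  [Fintype σ] (y : σ → F) (c s : ℕ) (P : Fin s → F), Function.Injective (hy k y) →
  (∀ i, GI k y c (P i)) → (∃ i, P i ≠ 0) → ∃ N₀ : ℕ, ∀ N, 0 < N → N₀.factorial ∣ N →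
  ∃ (r : ℕ) (B : Fin (r + 1) → F) (U : Finset F), (∀ j, B j ∈ k ∧ B j ∈ U) ∧ (∀ f ∈ U, f ≠ 0) ∧
    (∃ C : ℝ, 0 ≤ C ∧ ∀ p : Pt F, p.Un U → (∀ s, y s ∈ p.S) → ∀ i, P i ∈ p.S →
      normSq (p.v (P i)) ^ N ≤ C * p.N B * p.N y ^ (c * N)) ∧
    ∀ (u : Set F) (η : F) (c₂ : ℕ), u ⊆ k → η ≠ 0 → GI u y c₂ η →
      ∃ V : Finset F, (∀ f ∈ V, f ∈ k ∧ f ≠ 0) ∧ ∀ (M c' : ℕ) (γ : F) (R : ℝ), γ ∈ k →
        (∀ i, GI u y (c * (N * M) + c₂ * c') (γ * P i ^ (N * M) * η ^ c')) → ∃ C : ℝ, 0 ≤ C ∧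
          ∀ (p : Pt F) (t : ℝ), p.Un U → p.Un V → γ ∈ p.S →
            (∀ g ∈ u, g ∈ p.S ∧ normSq (p.v g) ≤ R) → 0 ≤ t → (∀ f ∈ V, t ≤ normSq (p.v f)) →
            normSq (p.v γ) * p.N B ^ M * t ^ c' ≤ C

/-- The minimum of finitely many norms is a quotient of two norms. -/
def St_SEG : Prop := ∀ (F : Type) [Field F] [Algebra ℂ F] (k : IntermediateField ℂ F) (s : ℕ)
  (r : Fin (s + 1) → ℕ) (B : ∀ i, Fin (r i + 1) → F), (∀ i j, B i j ∈ k ∧ B i j ≠ 0) →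
  ∃ (r₁ r₂ : ℕ) (A : Fin (r₁ + 1) → F) (B' : Fin (r₂ + 1) → F) (C : ℝ), 0 ≤ C ∧
    (∀ j, A j ∈ k ∧ A j ≠ 0) ∧ (∀ j, B' j ∈ k ∧ B' j ≠ 0) ∧ ∀ p : Pt F, (∀ i j, B i j ∈ p.S) →
      (∀ i, p.N B' ≤ p.N A * p.N (B i)) ∧ ∃ i, p.N A * p.N (B i) ≤ C * p.N B'

/-- The algebraic theorem. -/
def St_ALG : Prop := ∀ (F : Type) [Field F] [Algebra ℂ F] (k : IntermediateField ℂ F) (σ : Type)
  [Fintype σ] (x : σ → F) (s₀ : σ) (g c s : ℕ) (P : Fin s → F), x s₀ ≠ 0 →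
  Algebra.IsAlgebraic (IntermediateField.adjoin ℂ (range fun s => x s / x s₀)) F →
  Algebra.trdeg k F = g → (∀ i, GI k x c (P i)) → (∃ i, P i ≠ 0) →
  ∃ (N r₁ r₂ : ℕ) (A : Fin (r₁ + 1) → F) (B : Fin (r₂ + 1) → F) (U : Finset F), 0 < N ∧
    (∀ j, A j ∈ k ∧ A j ∈ U) ∧ (∀ j, B j ∈ k ∧ B j ∈ U) ∧ (∀ f ∈ U, f ≠ 0) ∧
    (∃ C : ℝ, 0 ≤ C ∧ ∀ p : Pt F, p.Un U → (∀ s, x s ∈ p.S) → ∀ i, P i ∈ p.S →
      normSq (p.v (P i)) ^ N * p.N A ≤ C * p.N B * p.N x ^ (c * N)) ∧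
    ∀ (η : F) (c₂ : ℕ), η ≠ 0 → GI ∅ x c₂ η →
      ∃ V : Finset F, (∀ f ∈ V, f ∈ k ∧ f ≠ 0) ∧ ∀ (M c' : ℕ) (γ : F), γ ∈ k →
        (∀ i, GI ∅ x (c * (N * M) + c₂ * c') (γ * P i ^ (N * M) * η ^ c')) → ∃ C : ℝ, 0 ≤ C ∧
          ∀ (p : Pt F) (t : ℝ), p.Un U → p.Un V → γ ∈ p.S → 0 ≤ t →
            (∀ f ∈ V, t ≤ normSq (p.v f)) → normSq (p.v γ) * p.N B ^ M * t ^ c' ≤ C * p.N A ^ M

/-- Integrality from finite generation. -/
def St_INT : Prop := ∀ (F : Type) [Field F] [Algebra ℂ F] (k : IntermediateField ℂ F) (σ : Type)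
  [Fintype σ] (x : σ → F) (S : ℕ → Set F) (j₀ : ℕ),
  (∀ j, FiniteDimensional ℂ (Submodule.span ℂ (S j))) →
  (∀ j ≥ j₀, ∀ f ∈ S (j + 1), ∃ G : σ → F, (∀ s, G s ∈ S j) ∧ f = ∑ s, x s * G s) →
  (∀ j f, (∀ i, f ^ i ∈ S (j * i)) → GI ∅ x j f) ∧
  ∀ (c c₃ : ℕ) (P t : F), t ≠ 0 → {i | ∃ g ∈ k, g ≠ 0 ∧ P ^ i * g * t ∈ S (c * i + c₃)}.Infinite →
    GI k x c P

/-- Elements of the field of ratios are quotients of forms. -/
def St_DEN : Prop := ∀ (F : Type) [Field F] [Algebra ℂ F] (σ : Type) [Fintype σ] (h : σ → F)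
  (s₀ : σ), (∀ s, h s ≠ 0) →
  (∀ f ∈ IntermediateField.adjoin ℂ (range fun s => h s / h s₀),
    ∃ (e : ℕ) (Q₀ Q₁ : MvPolynomial σ ℂ), Q₀.IsHomogeneous e ∧ Q₁.IsHomogeneous e ∧
      MvPolynomial.aeval h Q₀ ≠ 0 ∧ f * MvPolynomial.aeval h Q₀ = MvPolynomial.aeval h Q₁) ∧
  ∀ V : Finset F, (∀ f ∈ V, f ∈ IntermediateField.adjoin ℂ (range fun s => h s / h s₀) ∧ f ≠ 0) →
    ∃ (e : ℕ) (Q : MvPolynomial σ ℂ) (C : ℝ), Q.IsHomogeneous e ∧ MvPolynomial.aeval h Q ≠ 0 ∧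
      0 < C ∧ ∀ p : Pt F, (∀ s, h s ∈ p.S) → ∀ f ∈ V, f ∈ p.S →
        normSq (p.v (MvPolynomial.aeval h Q)) ≤ C * p.N h ^ e * normSq (p.v f)

/-- Intermediate fields are finitely generated. -/
def St_FGK : Prop := ∀ (F : Type) [Field F] [Algebra ℂ F] (k : IntermediateField ℂ F) (n : ℕ),
  (⊤ : IntermediateField ℂ F).FG → Algebra.trdeg ℂ F = n → (∃ g : ℕ, Algebra.trdeg k F = g) ∧
  (∃ (r : ℕ) (g : Fin (r + 1) → F), g 0 = 1 ∧ (∀ i, g i ≠ 0) ∧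
    k = IntermediateField.adjoin ℂ (range g)) ∧
  ∀ (K : IntermediateField ℂ F) (ξ : Fin n → F), AlgebraicIndependent ℂ ξ → (∀ i, ξ i ∈ K) →
    Algebra.IsAlgebraic K F

end Pool.Agent.Lib.R6
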