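import Pool.Agent.Lib.NV6.RBlue
import Pool.Agent.Lib.NV6.JBlue
import Pool.Agent.Lib.NV5.Exc

/-! Project NV6, block R: the reference metric on the manifold. Objects and blueprint. -/

open scoped Classical Topology ContDiff ENNReal
open Set MeasureTheory Complex Metric Filter

set_option linter.unusedVariables false

noncomputable section

namespace Pool.Agent.Lib.R6

open Pool.Agent.Lib.SV (E nsq)
open Pool.Agent.Lib.HS32 Pool.Agent.Lib.EX Pool.Agent.Lib.EXS Pool.Agent.Lib.ZL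
open Pool.Agent.Lib.ZQ (HqO HqC offz)
open Pool.Agent.Lib.NV2 (lg Kd Imm Zo)
open Pool.Agent.Lib.NV5 (Rg FM VF Hg Hy dv Ctx)
open Pool.Agent.Lib.NV6.J (Md Rk Se Wz Nj pv)

section defs

variable {n : ℕ} {M : Mf n} {ι : Type} [Fintype ι] [DecidableEq ι] {D : Ad M ι} (X : Cx D)

/-- The theorem of Hörmander off every hypersurface. -/
def Hall : Prop := ∀ g, HoO D g → (∃ x ∈ off D, g x ≠ 0) →
  (∀ᵐ x ∂X.μ, x ∈ offz D g) ∧ HqO 1 D X.μ (offz D g)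

/-- The projective data. -/
structure Prj {r : ℕ} (t : Fin r → M.X → ℂ) : Prop where
  epos : ∀ i, 0 < X.e i
  big : X.Big
  hall : Hall X
  kd : Kd D (fun i => X.e i) t
  imm : Imm D (fun i => X.e i) t
  alp : ∀ x ∈ off D, X.α x = lg t x

/-- The weights of Theorem Z for the class `lam`, with fixed part `κ`. -/
structure Zw (a : ℕ) (lam κ : ι → ℤ) : Prop where
  a0 : 0 < a
  lo : ∀ i, (lam i : ℝ) / a ≤ X.o i
  hi : ∀ i, X.o i - lam i / a ≤ κ i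
  zo : ∀ N₀ : ℕ, 0 < N₀ → ∀ (O : Set M.X) (T : M.X → ℝ) (C : ℝ), O ⊆ off D →
    (∀ᵐ x ∂X.μ, x ∈ O) →
    (∀ x ∈ O, 0 ≤ T x ∧ T x ≤ C * Real.exp (-lw D (fun i => (N₀ * lam i : ℤ)) x)) →
    ∀ N : ℕ, 0 < N → ∃ C A : ℝ, ∀ ε > (0 : ℝ), ∃ ρ,
      Wz X (fun i => N * (N₀ * lam i) + κ i) (fun x => T x ^ N) C A ε ρ

variable {F : Type} [Field F] [Algebra ℂ F]

/-- The generator `τ` of the sections over the generic point of `k`. -/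
structure Fb (V : VF n F) (m : ι → V.P → ℤ) (k : IntermediateField ℂ F) (lam κ : ι → ℤ)
    (τ : F) : Prop where
  τ0 : τ ≠ 0
  psf : ∃ t ≠ 0, ∃ Q : ι → ℤ, {j : ℕ | ∃ g ∈ k, g ≠ 0 ∧
    V.Sec (dv m fun i => j * lam i + Q i) (τ ^ j * g * t)}.Infinite
  one : ∀ j : ℕ, 0 < j → ∀ f, V.GS k (dv m fun i => j * lam i + κ i) f → f / τ ^ j ∈ k

variable (D) in
/-- The points of the manifold as points of the field. -/
structure Pts (Φ : FM D F) (pt : M.X → Pt F) : Prop where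
  ev : ∀ x ∈ off D, ∀ s, Rg D s → Φ.ev s ∈ (pt x).S ∧ (pt x).v (Φ.ev s) = s x
  un : ∀ U : Finset F, (∀ f ∈ U, f ≠ 0) → ∃ w, Rg D w ∧ (∃ x ∈ off D, w x ≠ 0) ∧
    ∀ x ∈ offz D w, (pt x).Un U

variable (D) in
/-- The two families with their dictionary. -/
structure Ab (Φ : FM D F) (k : IntermediateField ℂ F) (T : F) (L P : ι → ℤ) {r₁ r₂ : ℕ}
    (a : Fin (r₁ + 1) → M.X → ℂ) (b : Fin (r₂ + 1) → M.X → ℂ) : Prop where
  sa : ∀ i, Sp D (fun s => L s + P s) (a i) ∧ a i ≠ 0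
  sb : ∀ j, Sp D P (b j) ∧ b j ≠ 0
  ka : ∀ i j, Φ.ev (a i) / (T * Φ.ev (b j)) ∈ k
  kb : ∀ j j', Φ.ev (b j) / Φ.ev (b j') ∈ k
  gen : k ≤ IntermediateField.adjoin ℂ (range fun j => Φ.ev (b j) / Φ.ev (b 0))

/-- The estimates for the two families; `h = a ⊗ b`. -/
structure Es (L κ P : ι → ℤ) {r r₁ r₂ : ℕ} (a : Fin (r₁ + 1) → M.X → ℂ)
    (b : Fin (r₂ + 1) → M.X → ℂ) (ε : Fin r ≃ Fin (r₁ + 1) × Fin (r₂ + 1)) (g : M.X → ℂ) (e : ℕ)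
    (Q : MvPolynomial (Fin r) ℂ) : Prop where
  rg : Rg D g
  ne : ∃ x ∈ off D, g x ≠ 0
  hom : Q.IsHomogeneous e
  hne : ∀ x ∈ offz D g, (∀ i, a i x ≠ 0) ∧ (∀ j, b j x ≠ 0) ∧
    pv (fun β y => a (ε β).1 y * b (ε β).2 y) Q x ≠ 0
  r1 : ∃ C, ∀ x ∈ offz D g, nsq (a · x) ≤ C * Real.exp (-lw D (fun i => L i) x) * nsq (b · x)
  r2 : ∀ (N c : ℕ) s, 0 < N → Se X (fun i => L i + 2 * P i) (fun β y => a (ε β).1 y * b (ε β).2 y)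
    (fun i => N * L i + κ i) c s → ∃ C, ∀ x ∈ offz D g, normSq (s x) * nsq (b · x) ^ N *
      normSq (pv (fun β y => a (ε β).1 y * b (ε β).2 y) Q x) ^ (c + 1) ≤
        C * nsq (a · x) ^ N * (nsq (a · x) * nsq (b · x)) ^ (c + e * (c + 1))

end defs

/-! ### Rows -/

/-- The projective data exist. -/
def St_HQA : Prop := ∀ (n : ℕ) (M : Mf n) [M.Cpt] (ι : Type) [Fintype ι] [DecidableEq ι]
  (D : Ad M ι) (X : Cx D) (r : ℕ) (t : Fin r → M.X → ℂ), X.m = 1 → (∀ i, 0 < X.e i) →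
  DM.Can D X.l X.w → Kd D (fun i => X.e i) t → Imm D (fun i => X.e i) t → Hall X

/-- The points exist. -/
def St_PT : Prop := ∀ (n : ℕ) (M : Mf n) [M.Cpt] (ι : Type) [Fintype ι] [DecidableEq ι]
  (D : Ad M ι) (F : Type) [Field F] [Algebra ℂ F] (Φ : FM D F), (∃ pt, Pts D Φ pt) ∧
  ∀ U : Finset F, ∃ w, Rg D w ∧ w ≠ 0 ∧ ∀ f ∈ U, ∃ s, Rg D s ∧ Φ.ev s = f * Φ.ev w

/-- The ring of sections is generated by the coordinates in large degree. -/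
def St_GEN : Prop := ∀ (n : ℕ) (M : Mf n) [M.Cpt] (ι : Type) [Fintype ι] [DecidableEq ι]
  (D : Ad M ι) (X : Cx D) (r : ℕ) (t : Fin r → M.X → ℂ), Prj X t → ∃ j₀ : ℕ, ∀ j ≥ j₀,
  ∀ f, Sp D (fun i => (j + 1 : ℕ) * X.e i) f →
    ∃ G : Fin r → M.X → ℂ, (∀ a, Sp D (fun i => j * X.e i) (G a)) ∧ f = ∑ a, t a * G a

/-- Every divisor is generated after a twist. -/
def St_KD : Prop := ∀ (n : ℕ) (M : Mf n) [M.Cpt] (ι : Type) [Fintype ι] [DecidableEq ι]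
  (D : Ad M ι) (X : Cx D) (lam : ι → ℤ), X.Big →
  ∃ (c s : ℕ) (β : Fin s → M.X → ℂ), Kd D (fun i => c * X.e i - lam i) β ∧ ∃ i, β i ≠ 0

/-- The inverse square of the equation of a hypersurface is not integrable. -/
def St_NI : Prop := ∀ (n : ℕ) (u : E n → ℂ) (z : E n) (O : Set (E n)), Hy u z → O ∈ 𝓝 z →
  ∫⁻ y in O, ENNReal.ofReal (normSq (u y))⁻¹ = ⊤

/-- Square integrable functions have bounded orders. -/
def St_L2V : Prop := ∀ (n : ℕ) (M : Mf n) [M.Cpt] (ι : Type) [Fintype ι] [DecidableEq ι]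
  (D : Ad M ι) (X : Cx D) (F : Type) [Field F] [Algebra ℂ F] (Φ : FM D F) (r c : ℕ)
  (h : Fin r → M.X → ℂ) (a₀ : Fin r) (Q : ι → ℤ) (s : M.X → ℂ), (∀ a, Rg D (h a) ∧ h a ≠ 0) →
  Rg D s → Nj X h (fun x => -lw D (fun i => Q i - X.o i) x) c s ≠ ⊤ →
  ∀ H v m, Φ.Vl H v m → ∃ a, v (Φ.ev s) ≤ WithZero.exp (∑ i, Q i * m i) * v (Φ.ev (h a)) ^ c

/-- The integral elements. -/
def St_SET : Prop := ∀ (n : ℕ) (M : Mf n) [M.Cpt] (ι : Type) [Fintype ι] [DecidableEq ι]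
  (D : Ad M ι) (X : Cx D) (r : ℕ) (t : Fin r → M.X → ℂ) (F : Type) [Field F] [Algebra ℂ F]
  (Φ : FM D F) (V : VF n F) (m : ι → V.P → ℤ) (π : Hg D → V.P) (k : IntermediateField ℂ F)
  (lam κ : ι → ℤ) (τ : F), Prj X t → Φ.Br V m π → Fb V m k lam κ τ →
  (∃ s₀, Φ.ev (t s₀) ≠ 0 ∧ Algebra.IsAlgebraic
    (IntermediateField.adjoin ℂ (range fun s => Φ.ev (t s) / Φ.ev (t s₀))) F) ∧
  (∀ (j : ℕ) s, Sp D (fun i => j * X.e i) s → GI ∅ (fun a => Φ.ev (t a)) j (Φ.ev s)) ∧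
  ∀ (c : ℕ) β, Sp D (fun i => c * X.e i - lam i) β → GI k (fun a => Φ.ev (t a)) c (τ * Φ.ev β)

/-- Sections are multiples of the generator. -/
def St_ONE : Prop := ∀ (n : ℕ) (M : Mf n) [M.Cpt] (ι : Type) [Fintype ι] [DecidableEq ι]
  (D : Ad M ι) (X : Cx D) (F : Type) [Field F] [Algebra ℂ F] (Φ : FM D F) (V : VF n F)
  (m : ι → V.P → ℤ) (π : Hg D → V.P) (k : IntermediateField ℂ F) (lam κ P : ι → ℤ) (τ : F)
  (N r r₁ r₂ : ℕ) (a : Fin (r₁ + 1) → M.X → ℂ) (b : Fin (r₂ + 1) → M.X → ℂ)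
  (ε : Fin r ≃ Fin (r₁ + 1) × Fin (r₂ + 1)), Φ.Br V m π → Fb V m k lam κ τ → 0 < N →
  Ab D Φ k (τ ^ N) (fun i => N * lam i) P a b →
  (∀ (j c : ℕ) s, 0 < j → Se X (fun i => N * lam i + 2 * P i)
    (fun β y => a (ε β).1 y * b (ε β).2 y) (fun i => j * (N * lam i) + κ i) c s →
    Φ.ev s / (τ ^ (N * j) * (Φ.ev (a 0) * Φ.ev (b 0)) ^ c) ∈ k) ∧
  ∀ g, Rg D g → (∃ x ∈ off D, g x ≠ 0) → Rk X g (fun i => N * lam i + 2 * P i)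
    (fun β y => a (ε β).1 y * b (ε β).2 y) fun i => N * lam i + κ i

/-- The families exist. -/
def St_FAM : Prop := ∀ (n : ℕ) (M : Mf n) [M.Cpt] (ι : Type) [Fintype ι] [DecidableEq ι]
  (D : Ad M ι) (F : Type) [Field F] [Algebra ℂ F] (Φ : FM D F) (pt : M.X → Pt F)
  (k : IntermediateField ℂ F) (T : F) (L : ι → ℤ) (s₀ s₁ s₂ : ℕ) (γ : Fin (s₀ + 1) → F)
  (A : Fin (s₁ + 1) → F) (B : Fin (s₂ + 1) → F), Pts D Φ pt → T ≠ 0 → γ 0 = 1 → (∀ i, γ i ≠ 0) →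
  k = IntermediateField.adjoin ℂ (range γ) → (∀ j, A j ∈ k ∧ A j ≠ 0) → (∀ j, B j ∈ k ∧ B j ≠ 0) →
  ∃ (r₁ r₂ : ℕ) (P : ι → ℤ) (a : Fin (r₁ + 1) → M.X → ℂ) (b : Fin (r₂ + 1) → M.X → ℂ)
    (ρ : M.X → ℝ), Ab D Φ k T L P a b ∧ ∀ x ∈ off D, T ∈ (pt x).S → (∀ i, γ i ∈ (pt x).S) →
      (∀ j, A j ∈ (pt x).S) → (∀ j, B j ∈ (pt x).S) → 0 ≤ ρ x ∧
        nsq (a · x) = normSq ((pt x).v T) * (pt x).N A * ρ x ∧ nsq (b · x) = (pt x).N B * ρ x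

/-- The lower bound for the reference metric. -/
def St_LOW : Prop := ∀ (n : ℕ) (M : Mf n) [M.Cpt] (ι : Type) [Fintype ι] [DecidableEq ι]
  (D : Ad M ι) (F : Type) [Field F] [Algebra ℂ F] (Φ : FM D F) (pt : M.X → Pt F)
  (e lam : ι → ℤ) (r s c N : ℕ) (t : Fin r → M.X → ℂ) (β : Fin s → M.X → ℂ) (τ : F),
  Pts D Φ pt → (∀ a, Sp D e (t a)) → Kd D (fun i => c * e i - lam i) β → ∀ C : ℝ, 0 ≤ C →
  ∃ C' : ℝ, ∀ x ∈ off D, τ ∈ (pt x).S → ∀ u w : ℝ, 0 ≤ u → 0 ≤ w →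
    (∀ i, normSq ((pt x).v (τ * Φ.ev (β i))) ^ N * u ≤
      C * w * (pt x).N (fun a => Φ.ev (t a)) ^ (c * N)) →
    normSq ((pt x).v (τ ^ N)) * u ≤ C' * Real.exp (-lw D (fun i => (N * lam i : ℤ)) x) * w

/-- The families and the estimates. -/
def St_OUT : Prop := ∀ (n : ℕ) (M : Mf n) [M.Cpt] (ι : Type) [Fintype ι] [DecidableEq ι]
  (D : Ad M ι) (X : Cx D) (r : ℕ) (t : Fin r → M.X → ℂ) (F : Type) [Field F] [Algebra ℂ F]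
  (Φ : FM D F) (V : VF n F) (m : ι → V.P → ℤ) (π : Hg D → V.P) (k : IntermediateField ℂ F)
  (lam κ : ι → ℤ) (τ : F), Prj X t → Φ.Br V m π → Fb V m k lam κ τ →
  ∃ (N r₁ r₂ : ℕ) (P : ι → ℤ) (a : Fin (r₁ + 1) → M.X → ℂ) (b : Fin (r₂ + 1) → M.X → ℂ), 0 < N ∧
    Ab D Φ k (τ ^ N) (fun i => N * lam i) P a b ∧
    ∀ (r' : ℕ) (ε : Fin r' ≃ Fin (r₁ + 1) × Fin (r₂ + 1)),
      ∃ g e Q, Es X (fun i => N * lam i) κ P a b ε g e Q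

/-- The model. -/
def St_MD : Prop := ∀ (n : ℕ) (M : Mf n) [M.Cpt] (ι : Type) [Fintype ι] [DecidableEq ι]
  (D : Ad M ι) (X : Cx D) (a₀ N r r₁ r₂ e : ℕ) (lam κ P : ι → ℤ) (a : Fin (r₁ + 1) → M.X → ℂ)
  (b : Fin (r₂ + 1) → M.X → ℂ) (ε : Fin r ≃ Fin (r₁ + 1) × Fin (r₂ + 1)) (g : M.X → ℂ)
  (Q : MvPolynomial (Fin r) ℂ), Hall X → Zw X a₀ lam κ → 0 < N →
  (∀ i, Sp D (fun s => N * lam s + P s) (a i)) → (∀ j, Sp D P (b j)) →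
  Es X (fun i => N * lam i) κ P a b ε g e Q →
  ∃ b₀, Md X (N * a₀) e (fun i => N * lam i) κ g (fun i => N * lam i + 2 * P i)
    (fun β y => a (ε β).1 y * b (ε β).2 y) (fun β y => a (ε β).1 y ^ 2) b₀

/-- The theorem of the block. -/
def St_R : Prop := ∀ (n : ℕ) (M : Mf n) [M.Cpt] (ι : Type) [Fintype ι] [DecidableEq ι]
  (D : Ad M ι) (X : Cx D) (r : ℕ) (t : Fin r → M.X → ℂ) (F : Type) [Field F] [Algebra ℂ F]
  (Φ : FM D F) (V : VF n F) (m : ι → V.P → ℤ) (π : Hg D → V.P) (k : IntermediateField ℂ F)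
  (a₀ : ℕ) (lam κ : ι → ℤ) (τ : F), Prj X t → Zw X a₀ lam κ → Φ.Br V m π → Fb V m k lam κ τ →
  ∃ (N r₁ r₂ : ℕ) (P : ι → ℤ) (a : Fin (r₁ + 1) → M.X → ℂ) (b : Fin (r₂ + 1) → M.X → ℂ), 0 < N ∧
    Ab D Φ k (τ ^ N) (fun i => N * lam i) P a b ∧
    ∀ (r' : ℕ) (ε : Fin r' ≃ Fin (r₁ + 1) × Fin (r₂ + 1)), ∃ g e b₀,
      (∃ C, ∀ x ∈ offz D g,
        nsq (a · x) ≤ C * Real.exp (-lw D (fun i => (N * lam i : ℤ)) x) * nsq (b · x)) ∧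
      Md X (N * a₀) e (fun i => N * lam i) κ g (fun i => N * lam i + 2 * P i)
        (fun β y => a (ε β).1 y * b (ε β).2 y) (fun β y => a (ε β).1 y ^ 2) b₀ ∧
      Rk X g (fun i => N * lam i + 2 * P i) (fun β y => a (ε β).1 y * b (ε β).2 y)
        fun i => N * lam i + κ i

/-- The data for a nef canonical class. -/
def St_R3 : Prop := ∀ (n : ℕ) (M : Mf n) [M.Cpt] (ι : Type) [Fintype ι] [DecidableEq ι]
  (D : Ad M ι) (X : Cx D) (r c' : ℕ) (t : Fin r → M.X → ℂ) (F : Type) [Field F] [Algebra ℂ F]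
  (V : VF n F) (m : ι → V.P → ℤ) (Q : ι → ℤ) (d : ℕ) (z : Fin d → F)
  (k : IntermediateField ℂ F) (a c b : ℕ) (τ : F), Ctx X t c' →
  V.Pre (dv m X.l) (dv m fun i => X.e i) (dv m Q) d z k a c b τ → V.One (dv m X.l) k →
  Prj X t ∧ Zw X a (fun i => a * X.l i) 0 ∧ Fb V m k (fun i => a * X.l i) 0 τ

end Pool.Agent.Lib.R6
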