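import Pool.Agent.Lib.NV6.RBlue

/-! Block R, row ALG: the algebraic theorem from finitely many projections. -/

open Polynomial Complex Set

noncomputable section

namespace Pool.Agent.Lib.R6

namespace ALG

variable {F : Type} [Field F] [Algebra ℂ F] {σ τ : Type} [Fintype σ] [Fintype τ]

theorem N_nonneg90 (p : Pt F) (a : σ → F) : 0 ≤ p.N a :=
  Finset.sum_nonneg fun _ _ => normSq_nonneg _

theorem cs90 (c z : σ → ℂ) :
    normSq (∑ s, c s * z s) ≤ (∑ s, normSq (c s)) * ∑ s, normSq (z s) := by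
  have h1 : ‖∑ s, c s * z s‖ ≤ ∑ s, ‖c s‖ * ‖z s‖ :=
    (norm_sum_le _ _).trans (le_of_eq (Finset.sum_congr rfl fun a _ => norm_mul _ _))
  have h2 := Finset.sum_mul_sq_le_sq_mul_sq Finset.univ (fun a => ‖c a‖) fun a => ‖z a‖
  simp only [normSq_eq_norm_sq]
  exact (pow_le_pow_left₀ (norm_nonneg _) h1 2).trans h2

theorem lf_le90 (hK : St_KIT) (p : Pt F) (c : τ → σ → ℂ) {x : σ → F} (hx : ∀ s, x s ∈ p.S) :
    (∀ i, lf c x i ∈ p.S) ∧ p.N (lf c x) ≤ (∑ i, ∑ s, normSq (c i s)) * p.N x := by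
  obtain ⟨-, -, k3, -, -, k6, -⟩ := hK F p
  refine ⟨fun i => p.S.sum_mem fun s _ => p.S.smul_mem (hx s) _, ?_⟩
  rw [Pt.N, Finset.sum_mul]
  refine Finset.sum_le_sum fun i _ => ?_
  have e : p.v (lf c x i) = ∑ s, c i s * p.v (x s) := by
    rw [lf, (k6 σ Finset.univ (fun s => c i s • x s) fun s _ => p.S.smul_mem (hx s) _).1]
    exact Finset.sum_congr rfl fun s _ => k3 _ _ (hx s)
  rw [e]
  exact cs90 _ _

end ALG

open ALG in
theorem rALG (hKIT : St_KIT) (hCOV : St_COV) (hIND : St_IND) (hTRS : St_TRS) (hLOC : St_LOC)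
    (hSEG : St_SEG) : St_ALG := by
  classical
  intro F _ _ k σ _ x s₀ g c s P hx halg hg hP hP0
  obtain ⟨r, cc, a, ha, hcov⟩ := hCOV F k σ x s₀ g hx hg
  have hu : ∀ i, (range fun j => a j / a i) ⊆ (k : Set F) := by
    rintro i _ ⟨j, rfl⟩
    exact k.div_mem (ha j).1 (ha i).1
  have hk : ∀ i t, GI k (lf (cc i) x) 1 (x t) := fun i t =>
    (hTRS F (Fin (g + 1)) σ _ _ (lf (cc i) x) x).1 1 _ (hu i) (hcov i t)
  have hinj : ∀ i, Function.Injective (hy k (lf (cc i) x)) := fun i =>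
    hIND F k σ x s₀ g _ hx halg hg (hk i)
  have hPy : ∀ i j, GI k (lf (cc i) x) c (P j) := fun i j =>
    (hTRS F σ (Fin (g + 1)) _ _ x (lf (cc i) x)).2 c _ Subset.rfl (hP j) (hk i)
  choose N₀ hN₀ using fun i => hLOC F k (Fin (g + 1)) (lf (cc i) x) c s P (hinj i) (hPy i) hP0
  set N := (Finset.univ.sup N₀).factorial with hN
  have hNpos : 0 < N := Nat.factorial_pos _
  choose ρ B U hB hU h1 h2 using fun i => hN₀ i N hNpos
    (Nat.factorial_dvd_factorial (Finset.le_sup (f := N₀) (Finset.mem_univ i)))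
  choose C₁ hC₁ h1 using h1
  obtain ⟨r₁, r₂, A, B', C, hC, hA, hB', hseg⟩ :=
    hSEG F k r ρ B fun i j => ⟨(hB i j).1, hU i _ (hB i j).2⟩
  set W : Finset F := Finset.univ.biUnion U ∪ Finset.univ.image a ∪ Finset.univ.image A ∪
    Finset.univ.image B' with hW
  have w1 : ∀ i, ∀ f ∈ U i, f ∈ W := fun i f hf => by
    simp only [hW, Finset.mem_union, Finset.mem_biUnion]
    exact Or.inl (Or.inl (Or.inl ⟨i, Finset.mem_univ _, hf⟩))
  have w2 : ∀ i, a i ∈ W := fun i => by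
    simp only [hW, Finset.mem_union]
    exact Or.inl (Or.inl (Or.inr (Finset.mem_image_of_mem _ (Finset.mem_univ _))))
  have w3 : ∀ i, A i ∈ W := fun i => by
    simp only [hW, Finset.mem_union]
    exact Or.inl (Or.inr (Finset.mem_image_of_mem _ (Finset.mem_univ _)))
  have w4 : ∀ i, B' i ∈ W := fun i => by
    simp only [hW, Finset.mem_union]
    exact Or.inr (Finset.mem_image_of_mem _ (Finset.mem_univ _))
  refine ⟨N, r₁, r₂, A, B', W, hNpos, fun j => ⟨(hA j).1, w3 j⟩, fun j => ⟨(hB' j).1, w4 j⟩, ?_, ?_, ?_⟩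
  · intro f hf
    simp only [hW, Finset.mem_union, Finset.mem_biUnion, Finset.mem_image] at hf
    rcases hf with ((⟨i, -, h⟩ | ⟨i, -, rfl⟩) | ⟨i, -, rfl⟩) | ⟨i, -, rfl⟩
    exacts [hU i f h, (ha i).2, (hA i).2, (hB' i).2]
  · have hK : ∀ i, (0 : ℝ) ≤ ∑ l, ∑ t, normSq (cc i l t) := fun i =>
      Finset.sum_nonneg fun _ _ => Finset.sum_nonneg fun _ _ => normSq_nonneg _
    have hT : ∀ i, 0 ≤ C₁ i * C * (∑ l, ∑ t, normSq (cc i l t)) ^ (c * N) := fun i =>
      mul_nonneg (mul_nonneg (hC₁ i) hC) (pow_nonneg (hK i) _)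
    refine ⟨∑ i, C₁ i * C * (∑ l, ∑ t, normSq (cc i l t)) ^ (c * N),
      Finset.sum_nonneg fun i _ => hT i, fun p hp hxp j hj => ?_⟩
    have hpU : ∀ i, p.Un (U i) := fun i f hf => hp f (w1 i f hf)
    obtain ⟨i, hi⟩ := (hseg p fun i j => (hpU i _ (hB i j).2).1).2
    obtain ⟨l1, l2⟩ := lf_le90 hKIT p (cc i) hxp
    have e1 := h1 i p (hpU i) l1 j hj
    have e2 := pow_le_pow_left₀ (N_nonneg90 p _) l2 (c * N)
    have nA := N_nonneg90 p A
    have nB := N_nonneg90 p (B i)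
    have nB' := N_nonneg90 p B'
    have nx := pow_nonneg (N_nonneg90 p x) (c * N)
    have ny := pow_nonneg (N_nonneg90 p (lf (cc i) x)) (c * N)
    calc normSq (p.v (P j)) ^ N * p.N A
        ≤ C₁ i * p.N (B i) * p.N (lf (cc i) x) ^ (c * N) * p.N A :=
          mul_le_mul_of_nonneg_right e1 nA
      _ = C₁ i * (p.N A * p.N (B i) * p.N (lf (cc i) x) ^ (c * N)) := by ring
      _ ≤ C₁ i * (C * p.N B' * ((∑ l, ∑ t, normSq (cc i l t)) * p.N x) ^ (c * N)) :=
          mul_le_mul_of_nonneg_left (mul_le_mul hi e2 ny (mul_nonneg hC nB')) (hC₁ i)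
      _ = C₁ i * C * (∑ l, ∑ t, normSq (cc i l t)) ^ (c * N) * p.N B' * p.N x ^ (c * N) := by
          rw [mul_pow]
          ring
      _ ≤ _ := mul_le_mul_of_nonneg_right (mul_le_mul_of_nonneg_right
          (Finset.single_le_sum (fun i _ => hT i) (Finset.mem_univ i)) nB') nx
  · intro η c₂ hη hI
    choose V hV h3 using fun i => h2 i _ η c₂ (hu i) hη
      ((hTRS F σ (Fin (g + 1)) _ _ x (lf (cc i) x)).2 c₂ _ (empty_subset _) hI (hcov i))
    refine ⟨Finset.univ.biUnion V, fun f hf => ?_, fun M c' γ hγ hG => ?_⟩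
    · obtain ⟨i, -, h⟩ := Finset.mem_biUnion.1 hf
      exact hV i f h
    choose C₃ hC₃ h4 using fun i => h3 i M c' γ 1 hγ fun j =>
      (hTRS F σ (Fin (g + 1)) _ _ x (lf (cc i) x)).2 _ _ (empty_subset _) (hG j) (hcov i)
    refine ⟨∑ i, C₃ i, Finset.sum_nonneg fun i _ => hC₃ i, fun p t hp hpV hγp ht htV => ?_⟩
    have hpU : ∀ i, p.Un (U i) := fun i f hf => hp f (w1 i f hf)
    have hv : ∀ i, ∀ f ∈ V i, f ∈ Finset.univ.biUnion V := fun i f hf =>
      Finset.mem_biUnion.2 ⟨i, Finset.mem_univ _, hf⟩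
    obtain ⟨i, -, hi⟩ := Finset.exists_max_image Finset.univ (fun i => normSq (p.v (a i)))
      Finset.univ_nonempty
    obtain ⟨-, -, -, -, k5, -, -⟩ := hKIT F p
    have e1 := h4 i p t (hpU i) (fun f hf => hpV f (hv i f hf)) hγp (by
      rintro _ ⟨j, rfl⟩
      obtain ⟨m1, m2⟩ := k5 _ (hp _ (w2 j)).1 _ (hp _ (w2 i)).1 (hp _ (w2 i)).2
      refine ⟨m1, ?_⟩
      rw [m2, normSq_div]
      exact div_le_one_of_le₀ (hi j (Finset.mem_univ _)) (normSq_nonneg _)) ht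
      fun f hf => htV f (hv i f hf)
    have e2 := pow_le_pow_left₀ (N_nonneg90 p _)
      ((hseg p fun i j => (hpU i _ (hB i j).2).1).1 i) M
    have nA := pow_nonneg (N_nonneg90 p A) M
    calc normSq (p.v γ) * p.N B' ^ M * t ^ c'
        ≤ normSq (p.v γ) * (p.N A * p.N (B i)) ^ M * t ^ c' :=
          mul_le_mul_of_nonneg_right (mul_le_mul_of_nonneg_left e2 (normSq_nonneg _))
            (pow_nonneg ht _)
      _ = normSq (p.v γ) * p.N (B i) ^ M * t ^ c' * p.N A ^ M := by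
          rw [mul_pow]
          ring
      _ ≤ _ := mul_le_mul_of_nonneg_right
          (e1.trans (Finset.single_le_sum (fun i _ => hC₃ i) (Finset.mem_univ i))) nA

end Pool.Agent.Lib.R6
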