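import Pool.Agent.Lib.NV6.RBlue

/-! Project NV6, block R: symmetric functions of integral elements. -/

open Polynomial Complex Set

noncomputable section

namespace Pool.Agent.Lib.R6

namespace SYM

theorem core {A B R : Type} [CommRing A] [CommRing B] [IsDomain B] [CommRing R] [Algebra A B]
    (φ : R →+* B) (hA : ∀ a : A, algebraMap A B a ∈ range φ) {m : R[X]} (hm : m.Monic) {z : B}
    (dv : ∀ q : R[X], q.eval₂ φ z = 0 → m ∣ q) {v : R} {M : ℕ} (h : IsIntegral A (φ v * z ^ M))
    {i : ℕ} (hi : i ≤ m.natDegree) :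
    IsIntegral A (φ (v ^ (m.natDegree - i) * m.coeff i ^ M)) := by
  rcases Nat.eq_zero_or_pos M with rfl | M0
  · rw [pow_zero, mul_one] at h
    rw [pow_zero, mul_one, map_pow]
    exact h.pow _
  by_cases v0 : φ v = 0
  · rcases hi.eq_or_lt with rfl | hi
    · rw [Nat.sub_self, pow_zero, hm.coeff_natDegree, one_pow, mul_one, map_one]
      exact isIntegral_one
    · rw [map_mul, map_pow, v0, zero_pow (Nat.sub_pos_of_lt hi).ne', zero_mul]
      exact isIntegral_zero
  have : Nontrivial R := φ.domain_nontrivial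
  let Ω := AlgebraicClosure (FractionRing B)
  have inj : Function.Injective (algebraMap B Ω) :=
    (algebraMap (FractionRing B) Ω).injective.comp (IsFractionRing.injective B (FractionRing B))
  obtain ⟨q, q1, q2⟩ := h
  obtain ⟨q', hq'⟩ := (mem_lifts (q.map (algebraMap A B))).1
    ((lifts_iff_coeff_lifts (f := φ) _).2 fun n => by rw [coeff_map]; exact hA _)
  have ev : ∀ {S : Type} [CommRing S] (ψ : B →+* S) (ρ : S),
      (q'.comp (C v * X ^ M)).eval₂ (ψ.comp φ) ρ =
        q.eval₂ (ψ.comp (algebraMap A B)) (ψ (φ v) * ρ ^ M) := fun ψ ρ => by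
    rw [eval₂_comp, eval₂_mul, eval₂_C, eval₂_X_pow, ← eval₂_map, hq', eval₂_map]
    rfl
  have hd : m ∣ q'.comp (C v * X ^ M) := dv _ (by simpa using (ev (RingHom.id B) z).trans q2)
  let ψ : R →+* Ω := (algebraMap B Ω).comp φ
  obtain ⟨w, hw⟩ := IsAlgClosed.exists_pow_nat_eq (ψ v) M0
  have w0 : w ≠ 0 := fun c => v0 (inj (by
    rw [map_zero]; exact hw.symm.trans (by rw [c, zero_pow M0.ne'])))
  have mm := hm.map ψ
  have key := isIntegral_coeff_of_factors (R := A) ((m.map ψ).scaleRoots w)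
    (by rw [(monic_scaleRoots_iff w).2 mm]; exact isIntegral_one) (IsAlgClosed.splits _)
    (fun x hx => by
      have e : x = w * (x / w) := (mul_div_cancel₀ x w0).symm
      have r : m.eval₂ ψ (x / w) = 0 := by
        rw [IsRoot, e, scaleRoots_eval_mul, eval_map] at hx
        exact (mul_eq_zero.1 hx).resolve_left (pow_ne_zero _ w0)
      refine IsIntegral.of_pow M0 ⟨q, q1, ?_⟩
      rw [e, mul_pow, hw]
      exact (ev (algebraMap B Ω) (x / w)).symm.trans (eval₂_eq_zero_of_dvd_of_eval₂_eq_zero _ _ hd r))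
    i
  have k2 := key.pow M
  rw [coeff_scaleRoots, hm.natDegree_map, coeff_map, mul_pow, ← pow_mul, mul_comm _ M, pow_mul, hw,
    mul_comm, ← map_pow, ← map_pow, ← map_mul] at k2
  exact (isIntegral_algebraMap_iff inj).1 k2

end SYM

theorem rSYM : St_SYM := by
  intro F _ _ k σ _ y c P m u v M hm hu h i hi
  refine SYM.core (hy k y) (fun a => ?_) hm.mon hm.dvd h hi
  obtain ⟨a, ha⟩ := a
  refine Algebra.adjoin_induction (p := fun a _ => a ∈ (hy k y).range) ?_ ?_ ?_ ?_ ha
  · rintro _ (⟨f, hf, rfl⟩ | ⟨j, rfl⟩)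
    · exact ⟨MvPolynomial.C ⟨f, hu hf⟩, by simp [hy]⟩
    · exact ⟨MvPolynomial.X j, by simp [hy]⟩
  · exact fun r => ⟨MvPolynomial.C (algebraMap ℂ k r), by simp [hy]⟩
  · exact fun _ _ _ _ => add_mem
  · exact fun _ _ _ _ => mul_mem

end Pool.Agent.Lib.R6
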