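import Pool.Agent.Lib.NV6.R_KIT
import Pool.Agent.Lib.NV6.R_ITP
import Pool.Agent.Lib.NV6.R_CHW
import Pool.Agent.Lib.NV6.R_COV
import Pool.Agent.Lib.NV6.R_IND
import Pool.Agent.Lib.NV6.R_TRS
import Pool.Agent.Lib.NV6.R_MIN
import Pool.Agent.Lib.NV6.R_SYM
import Pool.Agent.Lib.NV6.R_EVG
import Pool.Agent.Lib.NV6.R_BND
import Pool.Agent.Lib.NV6.R_ROOT
import Pool.Agent.Lib.NV6.R_UPP
import Pool.Agent.Lib.NV6.R_LOC
import Pool.Agent.Lib.NV6.R_SEG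
import Pool.Agent.Lib.NV6.R_ALG
import Pool.Agent.Lib.NV6.R_INT
import Pool.Agent.Lib.NV6.R_DEN
import Pool.Agent.Lib.NV6.R_FGK
import Pool.Agent.Lib.NV6.R_HQA
import Pool.Agent.Lib.NV6.R_PT
import Pool.Agent.Lib.NV6.R_GEN
import Pool.Agent.Lib.NV6.R_KD
import Pool.Agent.Lib.NV6.R_NI
import Pool.Agent.Lib.NV6.R_L2V
import Pool.Agent.Lib.NV6.R_SET
import Pool.Agent.Lib.NV6.R_ONE
import Pool.Agent.Lib.NV6.R_FAM
import Pool.Agent.Lib.NV6.R_LOW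
import Pool.Agent.Lib.NV6.R_OUT
import Pool.Agent.Lib.NV6.R_MD
import Pool.Agent.Lib.NV6.R_R
import Pool.Agent.Lib.NV6.R_R3
import Pool.Agent.Lib.NV6.J_KIT
import Pool.Agent.Lib.NV6.J_FRM
import Pool.Agent.Lib.NV6.J_SK
import Pool.Agent.Lib.NV6.J_ZW
import Pool.Agent.Lib.NV5.Kit
import Pool.Agent.Lib.NV2.All

/-! Block R: the theorems without hypotheses. -/

namespace Pool.Agent.Lib.R6

theorem st_LOC : St_LOC := rLOC rKIT rMIN (rROOT rKIT)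
  (rUPP rKIT rITP rTRS rMIN rSYM rEVG (rBND rKIT))

/-- The algebraic theorem. -/
theorem st_ALG : St_ALG := rALG rKIT (rCOV rCHW rITP) rIND rTRS st_LOC (rSEG rKIT)

theorem st_JKIT : NV6.J.St_KIT := NV6.J.jKIT ZL.bPW ZL.st_UPB NV2.st_CHN

theorem st_PT : St_PT := rPT NV5.st_bKIT NV5.st_bFN

theorem st_GEN : St_GEN := rGEN ZL.bPW ZL.st_MU ZL.st_UPB (ZL.bLWC ZL.bTRF) st_JKIT
  (NV6.J.jSK ZL.bPW ZL.st_MU ZL.st_UPB ZL.st_POG NV2.bDB NV2.st_CHN) NV5.st_bKIT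

theorem st_KD : St_KD :=
  rKD (ZL.bLWC ZL.bTRF) ZL.st_PEAK ZL.st_UPB ZL.bPW ZL.st_WGT NV5.st_bKIT

theorem st_L2V : St_L2V := rL2V rNI NV5.st_bORD NV5.st_bKIT NV5.st_bFN ZL.st_MU

theorem st_SET : St_SET := rSET st_GEN rINT rFGK NV5.st_bRES NV5.st_bKIT

theorem st_ONE : St_ONE := rONE st_L2V (rDEN rKIT) st_PT rKIT NV5.st_bKIT

theorem st_OUT : St_OUT := rOUT rKIT st_ALG (rDEN rKIT) rFGK st_PT st_KD st_SET st_ONE
  (rFAM st_PT NV5.st_bKIT) (rLOW rKIT ZL.st_UPB) NV5.st_bKIT NV5.st_bFN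

/-- The theorem of the block. -/
theorem st_R : St_R := rR st_OUT st_ONE (rMD st_JKIT NV6.J.jFRM ZL.st_UPB NV5.st_bKIT)

/-- The data for a nef canonical class. -/
theorem st_R3 : St_R3 := rR3 rHQA NV6.J.jZW

end Pool.Agent.Lib.R6
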