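import Pool.Agent.Lib.NV6.RBlue

/-! Project NV6, block R, row KIT: values at points. -/

open Polynomial Complex Set

noncomputable section

namespace Pool.Agent.Lib.R6

namespace KIT

variable {F : Type} [Field F] [Algebra ℂ F] (p : Pt F)

theorem v0 : p.v 0 = 0 := by simpa using p.cst 0

theorem v1 : p.v 1 = 1 := by simpa using p.cst 1

theorem vsmul (c : ℂ) {f : F} (hf : f ∈ p.S) : p.v (c • f) = c * p.v f := by
  rw [Algebra.smul_def, p.mul _ (p.S.algebraMap_mem c) _ hf, p.cst]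

theorem vpow {f : F} (hf : f ∈ p.S) (j : ℕ) : p.v (f ^ j) = p.v f ^ j := by
  induction j with
  | zero => rw [pow_zero, pow_zero, v1]
  | succ j ih => rw [pow_succ, pow_succ, p.mul _ (p.S.pow_mem hf j) _ hf, ih]

theorem vdiv {f g : F} (hf : f ∈ p.S) (hg : g ∈ p.S) (h0 : p.v g ≠ 0) :
    f / g ∈ p.S ∧ p.v (f / g) = p.v f / p.v g := by
  have hi := p.inv g hg h0
  have hm : f / g ∈ p.S := by rw [div_eq_mul_inv]; exact p.S.mul_mem hf hi
  have g0 : g ≠ 0 := fun h => h0 (by rw [h, v0])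
  refine ⟨hm, ?_⟩
  rw [eq_div_iff h0, ← p.mul _ hm _ hg, div_mul_cancel₀ _ g0]

theorem vsum {κ : Type} (s : Finset κ) (f : κ → F) (h : ∀ i ∈ s, f i ∈ p.S) :
    p.v (∑ i ∈ s, f i) = ∑ i ∈ s, p.v (f i) := by
  classical
  induction s using Finset.induction_on with
  | empty => simpa using v0 p
  | insert a s ha ih =>
    have h' : ∀ i ∈ s, f i ∈ p.S := fun i hi => h i (Finset.mem_insert_of_mem hi)
    rw [Finset.sum_insert ha, Finset.sum_insert ha,
      p.add _ (h a (Finset.mem_insert_self _ _)) _ (p.S.sum_mem h'), ih h']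

theorem vprod {κ : Type} (s : Finset κ) (f : κ → F) (h : ∀ i ∈ s, f i ∈ p.S) :
    p.v (∏ i ∈ s, f i) = ∏ i ∈ s, p.v (f i) := by
  classical
  induction s using Finset.induction_on with
  | empty => simpa using v1 p
  | insert a s ha ih =>
    have h' : ∀ i ∈ s, f i ∈ p.S := fun i hi => h i (Finset.mem_insert_of_mem hi)
    rw [Finset.prod_insert ha, Finset.prod_insert ha,
      p.mul _ (h a (Finset.mem_insert_self _ _)) _ (p.S.prod_mem h'), ih h']

theorem vaeval {κ : Type} (x : κ → F) (Q : MvPolynomial κ ℂ) (h : ∀ i, x i ∈ p.S) :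
    MvPolynomial.aeval x Q ∈ p.S ∧
      p.v (MvPolynomial.aeval x Q) = MvPolynomial.eval (fun i => p.v (x i)) Q := by
  induction Q using MvPolynomial.induction_on with
  | C c =>
    rw [MvPolynomial.aeval_C, MvPolynomial.eval_C]
    exact ⟨p.S.algebraMap_mem c, p.cst c⟩
  | add P Q hP hQ =>
    rw [map_add, map_add]
    exact ⟨p.S.add_mem hP.1 hQ.1, by rw [p.add _ hP.1 _ hQ.1, hP.2, hQ.2]⟩
  | mul_X P i hP =>
    rw [map_mul, map_mul, MvPolynomial.aeval_X, MvPolynomial.eval_X]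
    exact ⟨p.S.mul_mem hP.1 (h i), by rw [p.mul _ hP.1 _ (h i), hP.2]⟩

end KIT

theorem rKIT : St_KIT := fun _ _ _ p =>
  ⟨KIT.v0 p, KIT.v1 p, fun c _ hf => KIT.vsmul p c hf, fun _ hf j => KIT.vpow p hf j,
    fun _ hf _ hg h0 => KIT.vdiv p hf hg h0,
    fun _ s f h => ⟨KIT.vsum p s f h, KIT.vprod p s f h⟩, fun _ x Q h => KIT.vaeval p x Q h⟩

end Pool.Agent.Lib.R6
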